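import Pool.Agent.MP_1376f1_pr.Mg.PoolP

-- part MP_1376f1_pr.Cl
section

/-!
Label intervals and the classes they define.
-/

set_option autoImplicit false
set_option linter.unusedSectionVars false

namespace Pool.Agent.MP_1376f1_pr

open Finset MP_d802e4_co
open scoped Classical

noncomputable section

variable {V : Type} [Fintype V] [DecidableEq V]


theorem cl_mass_unif {M : ℕ} (L : Finset (Fin M)) : mass (unif M) L = L.card / M := by
  simp [mass, unif, div_eq_mul_inv]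

theorem mass_lint {n M : ℕ} (hn : 0 < n) (hM : 0 < M) {α β : ℝ} (h0 : 0 ≤ α) (h1 : α ≤ β)
    (h2 : β ≤ n) : |mass (unif M) (lint n M α β) - (β - α) / n| ≤ 1 / M := by
  have hn' : (0 : ℝ) < n := by exact_mod_cast hn
  have hM' : (0 : ℝ) < M := by exact_mod_cast hM
  have ha0 : 0 ≤ α * M / n := by positivity
  have hab : α * M / n ≤ β * M / n := by gcongr
  have hbM : β * M / n ≤ M := by
    rw [div_le_iff₀ hn']; nlinarith
  have hcard : (lint n M α β).card = ⌈β * M / n⌉₊ - ⌈α * M / n⌉₊ := by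
    rw [← Nat.card_Ico, ← card_map Fin.valEmbedding]
    congr 1
    ext l
    simp only [mem_map, mem_lint, Fin.valEmbedding_apply, mem_Ico, Nat.ceil_le, Nat.lt_ceil]
    constructor
    · rintro ⟨l', ⟨h3, h4⟩, rfl⟩
      exact ⟨by rw [div_le_iff₀ hn']; exact h3, by rw [lt_div_iff₀ hn']; exact h4⟩
    · rintro ⟨h3, h4⟩
      have hl : l < M := by exact_mod_cast lt_of_lt_of_le h4 hbM
      exact ⟨⟨l, hl⟩, ⟨by rwa [div_le_iff₀ hn'] at h3, by rwa [lt_div_iff₀ hn'] at h4⟩, rfl⟩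
  have hle : ⌈α * M / n⌉₊ ≤ ⌈β * M / n⌉₊ := Nat.ceil_mono hab
  have e1 := Nat.le_ceil (α * M / n)
  have e2 := Nat.ceil_lt_add_one ha0
  have e3 := Nat.le_ceil (β * M / n)
  have e4 := Nat.ceil_lt_add_one (ha0.trans hab)
  rw [cl_mass_unif, hcard, Nat.cast_sub hle]
  have e5 : (β - α) / n = (β * M / n - α * M / n) / M := by field_simp
  rw [e5, ← sub_div, abs_div, abs_of_pos hM']
  gcongr
  rw [abs_le]
  constructor <;> linarith

theorem mass_thr {M P : ℕ} (hP : P ≤ M) :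
    mass (unif M) (univ.filter fun l : Fin M => l.val < P) = P / M := by
  rw [cl_mass_unif]
  congr 2
  rw [← card_map Fin.valEmbedding]
  refine Eq.trans ?_ (Finset.card_range P)
  congr 1
  ext l
  simp only [mem_map, mem_filter, mem_univ, true_and, Fin.valEmbedding_apply, mem_range]
  constructor
  · rintro ⟨l', h, rfl⟩; exact h
  · intro h; exact ⟨⟨l, lt_of_lt_of_le h hP⟩, h, rfl⟩

theorem lint_union {n M : ℕ} {α β γ : ℝ} (h1 : α ≤ β) (h2 : β ≤ γ) :
    lint n M α β ∪ lint n M β γ = lint n M α γ := by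
  have hM : (0 : ℝ) ≤ M := Nat.cast_nonneg M
  have e1 : α * M ≤ β * M := mul_le_mul_of_nonneg_right h1 hM
  have e2 : β * M ≤ γ * M := mul_le_mul_of_nonneg_right h2 hM
  ext l
  simp only [mem_union, mem_lint]
  constructor
  · rintro (⟨h3, h4⟩ | ⟨h3, h4⟩)
    · exact ⟨h3, by linarith⟩
    · exact ⟨by linarith, h4⟩
  · rintro ⟨h3, h4⟩
    rcases lt_or_ge ((l.val : ℝ) * n) (β * M) with h5 | h5
    · exact Or.inl ⟨h3, h5⟩
    · exact Or.inr ⟨h5, h4⟩

theorem lint_disjoint {n M : ℕ} {α β γ δ : ℝ} (h : β ≤ γ) :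
    Disjoint (lint n M α β) (lint n M γ δ) := by
  have hM : (0 : ℝ) ≤ M := Nat.cast_nonneg M
  have e1 : β * M ≤ γ * M := mul_le_mul_of_nonneg_right h hM
  rw [disjoint_left]
  intro l h1 h2
  rw [mem_lint] at h1 h2
  linarith [h1.2, h2.1]

theorem gr_lint_subset_thr {n M P : ℕ} (hn : 0 < n) (hM : 0 < M) (ω : Sym2 (Fin n) → Fin M)
    {α β : ℝ} (h : β ≤ n * ((P : ℝ) / M)) : gr ω (lint n M α β) ⊆ thr ω P := by
  have hn' : (0 : ℝ) < n := by exact_mod_cast hn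
  have hM' : (0 : ℝ) < M := by exact_mod_cast hM
  intro e he
  rw [mem_gr, mem_lint] at he
  rw [mem_thr]
  refine ⟨he.1, ?_⟩
  have e1 : β * M ≤ n * ((P : ℝ) / M) * M := mul_le_mul_of_nonneg_right h hM'.le
  have e2 : n * ((P : ℝ) / M) * M = P * n := by field_simp
  have e3 : ((ω e).val : ℝ) * n < P * n := by linarith [he.2.2]
  exact_mod_cast lt_of_mul_lt_mul_right e3 hn'.le

theorem thr_subset_gr_lint {n M P : ℕ} (hn : 0 < n) (hM : 0 < M) (ω : Sym2 (Fin n) → Fin M)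
    {β : ℝ} (h : n * ((P : ℝ) / M) ≤ β) : thr ω P ⊆ gr ω (lint n M 0 β) := by
  have hn' : (0 : ℝ) < n := by exact_mod_cast hn
  have hM' : (0 : ℝ) < M := by exact_mod_cast hM
  intro e he
  rw [mem_thr] at he
  rw [mem_gr, mem_lint]
  refine ⟨he.1, by rw [zero_mul]; positivity, ?_⟩
  have e1 : n * ((P : ℝ) / M) * M ≤ β * M := mul_le_mul_of_nonneg_right h hM'.le
  have e2 : n * ((P : ℝ) / M) * M = P * n := by field_simp
  have e3 : ((ω e).val : ℝ) < P := by exact_mod_cast he.2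
  have e4 := mul_lt_mul_of_pos_right e3 hn'
  linarith

theorem nb_gr [LinearOrder V] {Λ : Type} (ω : Sym2 V → Λ) (L : Finset Λ) (v : V) :
    nb (gr ω L) v = dgr ω L L v := by
  ext u
  simp only [mem_nb, mem_gr, mem_dgr, Sym2.mk_isDiag_iff]
  constructor
  · rintro ⟨h1, h2⟩
    rcases lt_or_gt_of_ne h1 with h | h
    · exact Or.inl ⟨h, h2⟩
    · exact Or.inr ⟨h, h2⟩
  · rintro (⟨h1, h2⟩ | ⟨h1, h2⟩)
    · exact ⟨h1.ne, h2⟩
    · exact ⟨h1.ne', h2⟩

theorem arcE_dgr [LinearOrder V] {Λ : Type} [DecidableEq Λ] (ω : Sym2 V → Λ) (Lf Lb : Finset Λ) :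
    arcE (dgr ω Lf Lb) = gr ω (Lf ∪ Lb) := by
  ext e
  simp only [mem_arcE, mem_gr, mem_dgr, mem_union]
  constructor
  · rintro ⟨y, z, (⟨h1, h2⟩ | ⟨h1, h2⟩), rfl⟩
    · exact ⟨by simpa using h1.ne, Or.inl h2⟩
    · exact ⟨by simpa using h1.ne', Or.inr h2⟩
  · induction e using Sym2.ind with
    | _ a b =>
      rintro ⟨h1, h2⟩
      have hab : a ≠ b := by simpa using h1
      have hs : s(b, a) = s(a, b) := Sym2.eq_swap
      rcases lt_or_gt_of_ne hab with h | h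
      · rcases h2 with h2 | h2
        · exact ⟨a, b, Or.inl ⟨h, h2⟩, rfl⟩
        · exact ⟨b, a, Or.inr ⟨h, by rw [hs]; exact h2⟩, hs.symm⟩
      · rcases h2 with h2 | h2
        · exact ⟨b, a, Or.inl ⟨h, by rw [hs]; exact h2⟩, hs.symm⟩
        · exact ⟨a, b, Or.inr ⟨h, h2⟩, rfl⟩

theorem cl_gr_disjoint {Λ : Type} (ω : Sym2 V → Λ) {L L' : Finset Λ} (h : Disjoint L L') :
    Disjoint (gr ω L) (gr ω L') :=
  disjoint_left.2 fun _ h1 h2 => disjoint_left.1 h (mem_gr.1 h1).2 (mem_gr.1 h2).2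

theorem cl_gr_union {Λ : Type} [DecidableEq Λ] (ω : Sym2 V → Λ) (L L' : Finset Λ) :
    gr ω L ∪ gr ω L' = gr ω (L ∪ L') := by
  ext e
  simp only [mem_union, mem_gr]
  tauto

theorem cl_th_sig {n : ℝ} {k m : ℕ} {s : ℝ} (h : Sched n k s m) (j : ℕ) :
    0 < th * sig k s m j ∧ 10 * (th * sig k s m j) ≤ sig k s m j := by
  have h1 := h.sig_pos j
  refine ⟨mul_pos th_pos h1, ?_⟩
  unfold th
  linarith

theorem cl_arcE {n M k m : ℕ} {s : ℝ} (h : Sched n k s m) (ω : Sym2 (Fin n) → Fin M) (j : ℕ) :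
    arcE (clD ω k s m j) =
      gr ω (lint n M (cut k s m j + th * sig k s m j) (cut k s m j + 3 * th * sig k s m j)) := by
  have ht := cl_th_sig h j
  unfold clD
  rw [arcE_dgr, lint_union (by linarith) (by linarith)]

theorem tri_cl {n M k m : ℕ} {s : ℝ} (h : Sched n k s m) (ω : Sym2 (Fin n) → Fin M) (j : ℕ) :
    Tri univ (clA ω k s m j) (clC ω k s m j) (clD ω k s m j) := by
  have hB := cl_arcE h ω j
  have ht := cl_th_sig h j
  refine ⟨on_gr _ _, on_gr _ _, by rw [hB]; exact on_gr _ _, ?_, ?_, ?_, ?_⟩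
  · intro y z h1 h2
    unfold clD at h1 h2
    rw [mem_dgr] at h1 h2
    have hs : s(z, y) = s(y, z) := Sym2.eq_swap
    rw [hs] at h2
    have hd := lint_disjoint (n := n) (M := M) (α := cut k s m j + th * sig k s m j)
      (δ := cut k s m j + 3 * th * sig k s m j) (le_refl (cut k s m j + 2 * th * sig k s m j))
    rcases h1 with ⟨a1, a2⟩ | ⟨a1, a2⟩ <;> rcases h2 with ⟨b1, b2⟩ | ⟨b1, b2⟩
    · exact lt_asymm a1 b1
    · exact disjoint_left.1 hd a2 b2
    · exact disjoint_left.1 hd b2 a2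
    · exact lt_asymm a1 b1
  · rw [hB]; exact cl_gr_disjoint ω (lint_disjoint le_rfl)
  · exact cl_gr_disjoint ω (lint_disjoint (by linarith))
  · rw [hB]; exact cl_gr_disjoint ω (lint_disjoint le_rfl)

theorem QQ_cl {n M k m : ℕ} {s : ℝ} (h : Sched n k s m) (ω : Sym2 (Fin n) → Fin M) (j : ℕ) :
    clA ω k s m j ∪ arcE (clD ω k s m j) =
      gr ω (lint n M (cut k s m j) (cut k s m j + 3 * th * sig k s m j)) := by
  have ht := cl_th_sig h j
  rw [cl_arcE h]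
  unfold clA
  rw [cl_gr_union, lint_union (by linarith) (by linarith)]

theorem PP_cl {n M k m : ℕ} {s : ℝ} (h : Sched n k s m) (ω : Sym2 (Fin n) → Fin M) (j : ℕ) :
    PP (clA ω k s m j) (clC ω k s m j) (clD ω k s m j) =
      gr ω (lint n M (cut k s m j) (cut k s m j + sig k s m j)) := by
  have ht := cl_th_sig h j
  unfold PP
  rw [QQ_cl h]
  unfold clC
  rw [cl_gr_union, lint_union (by linarith) (by linarith)]

theorem PP_cl_disjoint {n M k m : ℕ} {s : ℝ} (h : Sched n k s m) (ω : Sym2 (Fin n) → Fin M)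
    {j j' : ℕ} (hj : j ≠ j') :
    Disjoint (PP (clA ω k s m j) (clC ω k s m j) (clD ω k s m j))
      (PP (clA ω k s m j') (clC ω k s m j') (clD ω k s m j')) := by
  rw [PP_cl h, PP_cl h]
  rcases lt_or_gt_of_ne hj with hl | hl
  · exact cl_gr_disjoint ω (lint_disjoint (h.cut_mono hl))
  · exact (cl_gr_disjoint ω (lint_disjoint (h.cut_mono hl))).symm

/-- Deviation of the number of out-neighbours in a fixed set. Hint: `cnt_dev` for the coordinates
`s(v, u)`, `u ∈ S.erase v`; the mean differs from `|S| q` by at most 2. -/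
theorem dgr_dev [LinearOrder V] {Λ : Type} [Fintype Λ] {p : Λ → ℝ} (hp : IsP p)
    (Lf Lb : Finset Λ) (S : Finset V) (v : V) {q ν a : ℝ} (hq0 : 0 ≤ q) (hq1 : q ≤ 1)
    (hf : |mass p Lf - q| ≤ 1 / nV V) (hb : |mass p Lb - q| ≤ 1 / nV V)
    (hν : min (nV V * q) (nV V * (1 - q)) + 1 ≤ ν) (ha : 0 ≤ a) :
    Pr p (fun ω : Sym2 V → Λ => a + 2 ≤ |((dgr ω Lf Lb v ∩ S).card : ℝ) - S.card * q|) ≤
      2 * Real.exp (-a ^ 2 / (4 * ν + 2 * a)) := by
  set L : V → Finset Λ := fun u => if v < u then Lf else Lb with hL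
  set S' := S.erase v with hS'
  set μ := ∑ u ∈ S', mass p (L u) with hμ
  have hn : 0 < nV V := by
    unfold nV
    exact_mod_cast Fintype.card_pos_iff.2 ⟨v⟩
  have hS'n : (S'.card : ℝ) ≤ nV V := card_le_nV _
  have hLq : ∀ u, |mass p (L u) - q| ≤ 1 / nV V := by
    intro u
    simp only [hL]
    split_ifs
    · exact hf
    · exact hb
  have hμq : |μ - S'.card * q| ≤ 1 := by
    have e1 : μ - S'.card * q = ∑ u ∈ S', (mass p (L u) - q) := by
      rw [sum_sub_distrib, sum_const, nsmul_eq_mul]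
    rw [e1]
    refine (abs_sum_le_sum_abs _ _).trans ((sum_le_sum fun u _ => hLq u).trans ?_)
    rw [sum_const, nsmul_eq_mul, mul_one_div, div_le_one hn]
    exact hS'n
  have hc1 : (S'.card : ℝ) ≤ S.card := by exact_mod_cast card_erase_le
  have hc2 : (S.card : ℝ) ≤ S'.card + 1 := by
    have := pred_card_le_card_erase (s := S) (a := v)
    have h2 : S.card ≤ S'.card + 1 := by rw [hS']; omega
    exact_mod_cast h2
  have hinj : Set.InjOn (fun u => s(v, u)) (S' : Set V) := by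
    intro u _ u' _ huu
    exact Sym2.congr_right.1 huu
  rw [abs_le] at hμq
  have hmin : min μ (S'.card - μ) ≤ ν := by
    refine le_trans ?_ hν
    rw [← min_add_add_right]
    refine min_le_min ?_ ?_
    · nlinarith [hμq.2]
    · nlinarith [hμq.1]
  refine le_trans (Pr_mono hp fun ω hω => ?_) (cnt_dev hp S' (fun u => s(v, u)) hinj L hmin ha)
  have e2 : dgr ω Lf Lb v ∩ S = S'.filter fun u => ω s(v, u) ∈ L u := by
    ext u
    simp only [mem_inter, mem_dgr, mem_filter, hS', mem_erase, hL]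
    constructor
    · rintro ⟨⟨h1, h2⟩ | ⟨h1, h2⟩, h3⟩
      · exact ⟨⟨h1.ne', h3⟩, by rw [if_pos h1]; exact h2⟩
      · exact ⟨⟨h1.ne, h3⟩, by rw [if_neg (not_lt.2 h1.le)]; exact h2⟩
    · rintro ⟨⟨h1, h3⟩, h2⟩
      refine ⟨?_, h3⟩
      rcases lt_or_gt_of_ne h1 with h | h
      · rw [if_neg (not_lt.2 h.le)] at h2; exact Or.inr ⟨h, h2⟩
      · rw [if_pos h] at h2; exact Or.inl ⟨h, h2⟩
  rw [e2] at hω
  have e3 : |μ - S.card * q| ≤ 2 := by
    rw [abs_le]; constructor <;> nlinarith [hμq.1, hμq.2]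
  have e4 := abs_sub_le (((S'.filter fun u => ω s(v, u) ∈ L u).card : ℕ) : ℝ) μ (S.card * q)
  have e5 : a ≤ |(((S'.filter fun u => ω s(v, u) ∈ L u).card : ℕ) : ℝ) - μ| := by linarith
  convert e5

theorem cl_num : ∃ n0 : ℕ, ∀ n ≥ n0, 0 < n ∧ 200 ≤ Real.log n ∧
    8 * (2 * Real.log n + 61) ≤ n := by
  have h1 : ∀ᶠ x : ℝ in Filter.atTop, 200 ≤ Real.log x :=
    Real.tendsto_log_atTop.eventually_ge_atTop 200
  have h2 : ∀ᶠ x : ℝ in Filter.atTop, ‖Real.log x‖ ≤ (1 / 32) * ‖x‖ :=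
    Real.isLittleO_log_id_atTop.bound (by norm_num)
  have h3 : ∀ᶠ x : ℝ in Filter.atTop, 1000 ≤ x := Filter.eventually_ge_atTop _
  have h4 := tendsto_natCast_atTop_atTop.eventually (h1.and (h2.and h3))
  obtain ⟨n0, h0⟩ := Filter.eventually_atTop.1 h4
  refine ⟨n0, fun n hn => ?_⟩
  obtain ⟨a1, a2, a3⟩ := h0 n hn
  rw [Real.norm_of_nonneg (by linarith), Real.norm_of_nonneg (by linarith)] at a2
  refine ⟨?_, a1, by linarith⟩
  have : (0 : ℝ) < n := by linarith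
  exact_mod_cast this

theorem cl_pool {γ : ℝ} (hγ : 1 ≤ γ) : ∃ n0 : ℕ, ∀ n ≥ n0, ∀ (k m : ℕ) (s : ℝ),
    Sched n k s m → k / 2 + s ≤ n → ∀ j ≤ m,
    Pr (unif (n ^ 4)) (fun ω : Sym2 (Fin n) → Fin (n ^ 4) =>
      ¬ PoolOK univ (sig k s m j) γ 5 (clA ω k s m j ∪ arcE (clD ω k s m j))
          (PP (clA ω k s m j) (clC ω k s m j) (clD ω k s m j)) (clC ω k s m j)) ≤
      2 / (n : ℝ) ^ 7 := by
  obtain ⟨n1, hn1⟩ := pool_prob hγ
  obtain ⟨n3, hn3⟩ := cl_num
  refine ⟨max ⌈n1⌉₊ (max n3 (10 ^ 10)), fun n hn k m s h hks j hj => ?_⟩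
  have a1 : n1 ≤ n := Nat.ceil_le.1 (le_trans (le_max_left _ _) hn)
  have a2 : n3 ≤ n := le_trans ((le_max_left _ _).trans (le_max_right _ _)) hn
  have a3 : 10 ^ 10 ≤ n := le_trans ((le_max_right _ _).trans (le_max_right _ _)) hn
  have a4 : (10 : ℝ) ^ 10 ≤ n := by exact_mod_cast a3
  obtain ⟨b1, b2, -⟩ := hn3 n a2
  have hM : 0 < n ^ 4 := by positivity
  have hp : IsP (unif (n ^ 4)) := isP_unif hM
  have hn0 : (0 : ℝ) < n := by exact_mod_cast b1
  have ht := cl_th_sig h j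
  have hlog := h.log_le hj
  have hc0 := h.cut_nonneg j
  have hc1 := (h.cut_le hj).trans hks
  set σ := sig k s m j with hσ
  set c := cut k s m j with hc
  have hsmall : 1 / ((n ^ 4 : ℕ) : ℝ) ≤ th * σ / n := by
    have e1 : (10 : ℝ) ^ 30 ≤ (n : ℝ) ^ 3 := by
      calc (10 : ℝ) ^ 30 = (10 ^ 10) ^ 3 := by norm_num
        _ ≤ _ := by gcongr
    have e2 : 1 ≤ 10 ^ 30 * (th * σ) := by unfold th; linarith
    have e3 : 1 ≤ (n : ℝ) ^ 3 * (th * σ) := e2.trans (by gcongr; exact ht.1.le)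
    push_cast
    rw [div_le_div_iff₀ (by positivity) hn0]
    nlinarith
  have m1 := mass_lint b1 hM (α := c) (β := c + 3 * th * σ) hc0 (by linarith) (by linarith)
  have m2 := mass_lint b1 hM (α := c) (β := c + σ) hc0 (by linarith) (by linarith)
  have m3 := mass_lint b1 hM (α := c + 3 * th * σ) (β := c + σ) (by linarith) (by linarith)
    (by linarith)
  rw [abs_le] at m1 m2 m3
  have d1 : (c + 3 * th * σ - c) / n = 3 * (th * σ / n) := by ring
  have d2 : (c + σ - c) / n = σ / n := by ring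
  have d3 : (c + σ - (c + 3 * th * σ)) / n = σ / n - 3 * (th * σ / n) := by ring
  have d4 : 10 * (th * σ / n) ≤ σ / n := by
    rw [← mul_div_assoc]; gcongr; exact ht.2
  have d5 : 0 < th * σ / n := div_pos ht.1 hn0
  have key := hn1 (Fin n) (Fin (n ^ 4)) (unif (n ^ 4)) hp (by rw [nV_fin]; exact a1)
    (lint n (n ^ 4) c (c + 3 * th * σ)) (lint n (n ^ 4) c (c + σ))
    (lint n (n ^ 4) (c + 3 * th * σ) (c + σ)) σ (by rw [nV_fin]; exact hlog)
    (by
      rw [nV_fin, show 4 * th * σ / n = 4 * (th * σ / n) by ring]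
      linarith [m1.2])
    (by
      rw [nV_fin, show 16 * σ / n = 16 * (σ / n) by ring]
      linarith [m2.2])
    (by
      rw [nV_fin, show σ / (2 * n) = (σ / n) / 2 by ring]
      linarith [m3.1])
  rw [nV_fin] at key
  refine le_trans (le_of_eq (Pr_congr fun ω => ?_)) key
  rw [QQ_cl h, PP_cl h]
  rfl

/-- All pools are good. Hint: `pool_prob` for `γ = g` and `γ = 1`, `QQ_cl`, `PP_cl`, `mass_lint`,
`Sched.log_le`, `Sched.m_le`, union bound over `j ≤ m`. -/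
theorem pools_prob (g : ℕ) (hg : 1 ≤ g) : ∃ n0 : ℕ, ∀ n ≥ n0, ∀ (k m : ℕ) (s : ℝ),
    Sched n k s m → k / 2 + s ≤ n →
    Pr (unif (n ^ 4)) (fun ω : Sym2 (Fin n) → Fin (n ^ 4) => ¬
      ((∀ j < m, PoolOK univ (sig k s m j) g 5 (clA ω k s m j ∪ arcE (clD ω k s m j))
          (PP (clA ω k s m j) (clC ω k s m j) (clD ω k s m j)) (clC ω k s m j)) ∧
        PoolOK univ s 1 5 (clA ω k s m m ∪ arcE (clD ω k s m m))
          (PP (clA ω k s m m) (clC ω k s m m) (clD ω k s m m)) (clC ω k s m m))) ≤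
      1 / (4 * (n : ℝ) ^ 6) := by
  obtain ⟨n1, hn1⟩ := cl_pool (γ := g) (by exact_mod_cast hg)
  obtain ⟨n2, hn2⟩ := cl_pool (γ := 1) le_rfl
  obtain ⟨n3, hn3⟩ := cl_num
  refine ⟨max n1 (max n2 n3), fun n hn k m s h hks => ?_⟩
  have a1 : n1 ≤ n := le_trans (le_max_left _ _) hn
  have a2 : n2 ≤ n := le_trans ((le_max_left _ _).trans (le_max_right _ _)) hn
  have a3 : n3 ≤ n := le_trans ((le_max_right _ _).trans (le_max_right _ _)) hn
  obtain ⟨b1, b2, b3⟩ := hn3 n a3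
  have hp : IsP (unif (n ^ 4)) := isP_unif (by positivity)
  have hs1 : 1 ≤ s := by linarith [h.hs]
  have hm := h.m_le hs1
  have hsm : sig k s m m = s := by simp [sig]
  have c2 := hn2 n a2 k m s h hks m le_rfl
  rw [hsm] at c2
  have c1 := Pr_exists (V := Sym2 (Fin n)) hp (range m) fun j ω =>
    ¬ PoolOK univ (sig k s m j) g 5 (clA ω k s m j ∪ arcE (clD ω k s m j))
          (PP (clA ω k s m j) (clC ω k s m j) (clD ω k s m j)) (clC ω k s m j)
  have c3 := c1.trans (sum_le_sum fun j hj => hn1 n a1 k m s h hks j (mem_range.1 hj).le)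
  rw [sum_const, card_range, nsmul_eq_mul] at c3
  refine le_trans (Pr_mono hp fun ω hω => ?_) ((Pr_or hp _ _).trans ((add_le_add c3 c2).trans ?_))
  · by_contra hc
    rw [not_or, not_not] at hc
    refine hω ⟨fun j hj => ?_, hc.2⟩
    by_contra hj'
    exact hc.1 ⟨j, mem_range.2 hj, hj'⟩
  · have hn0 : (0 : ℝ) < n := by exact_mod_cast b1
    have e1 : (m : ℝ) * (2 / (n : ℝ) ^ 7) + 2 / (n : ℝ) ^ 7 =
        (8 * (m + 1) / n) * (1 / (4 * (n : ℝ) ^ 6)) := by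
      field_simp; ring
    rw [e1]
    refine mul_le_of_le_one_left (by positivity) ?_
    rw [div_le_one hn0]
    linarith

end

end Pool.Agent.MP_1376f1_pr

end

-- part MP_1376f1_pr.Bad
section

/-!
Few neighbours among the atypical vertices.
-/

set_option autoImplicit false
set_option linter.unusedSectionVars false

namespace Pool.Agent.MP_1376f1_pr

open Finset MP_d802e4_co
open scoped Classical

noncomputable section

variable {V Λ : Type} [Fintype V] [DecidableEq V] [Fintype Λ] {p : Λ → ℝ}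

/-- the `r`-successors of `v` other than `w` -/
def badS (r : V → V → Prop) (w v : V) : Finset V := univ.filter fun u => r v u ∧ u ≠ w

theorem bad_mem {r : V → V → Prop} {w v u : V} : u ∈ badS r w v ↔ r v u ∧ u ≠ w := by
  simp [badS]

/-- the number of labelled pairs towards `r`-successors other than `w` deviates -/
def badEv (r : V → V → Prop) (w : V) {ι : Type} (𝒞 : Finset ι) (L' : ι → Finset Λ) (a : ι → ℝ)
    (p : Λ → ℝ) (v : V) (ω : Sym2 V → Λ) : Prop :=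
  ∃ c ∈ 𝒞, a c / 4 ≤ |(((badS r w v).filter
    fun u => ω s(v, u) ∈ L' c).card : ℝ) - ∑ _u ∈ badS r w v, mass p (L' c)|

/-- a neighbour of `w` with deviating count -/
def badE (r : V → V → Prop) (w : V) {ι : Type} (𝒞 : Finset ι) (L' : ι → Finset Λ) (a : ι → ℝ)
    (p : Λ → ℝ) (L : Finset Λ) (v : V) (ω : Sym2 V → Λ) : Prop :=
  ω s(w, v) ∈ L ∧ badEv r w 𝒞 L' a p v ω

theorem bad_half (hp : IsP p) (r : V → V → Prop) (hr : ∀ u v, r u v → ¬ r v u) {ι : Type}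
    (𝒞 : Finset ι) (L' : ι → Finset Λ) (q a ν : ι → ℝ) {β t l : ℝ}
    (hq : ∀ c ∈ 𝒞, 0 ≤ q c ∧ q c ≤ 1 ∧ |mass p (L' c) - q c| ≤ 1 / nV V ∧ 10 ≤ a c ∧
      min (nV V * q c) (nV V * (1 - q c)) + 1 ≤ ν c)
    (hβ : ∑ c ∈ 𝒞, 2 * Real.exp (-(a c / 4) ^ 2 / (4 * ν c + 2 * (a c / 4))) ≤ β)
    (L : Finset Λ) (w : V) (ht : 0 ≤ t) :
    Pr p (fun ω : Sym2 V → Λ => l ≤ (((univ.erase w).filter
      fun v => badE r w 𝒞 L' a p L v ω).card : ℝ)) ≤
      Real.exp ((Real.exp t - 1) * (nV V * mass p L * β) - t * l) := by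
  have hn : 0 < nV V := by
    unfold nV; exact_mod_cast Fintype.card_pos_iff.2 ⟨w⟩
  have hβ0 : 0 ≤ β := le_trans (sum_nonneg fun _ _ => by positivity) hβ
  have hm0 := mass_nonneg hp L
  let B : V → Set (Sym2 V) := fun v => {e | ∃ u, r v u ∧ u ≠ w ∧ e = s(v, u)}
  have hdep : ∀ v, Dep (B v) (badEv r w 𝒞 L' a p v) := by
    intro v ω ω' h
    unfold badEv
    have : ∀ c, ((badS r w v).filter fun u => ω s(v, u) ∈ L' c) =
        ((badS r w v).filter fun u => ω' s(v, u) ∈ L' c) := fun c =>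
      filter_congr fun u hu => by
        rw [h s(v, u) ⟨u, (bad_mem.1 hu).1, (bad_mem.1 hu).2, rfl⟩]
    simp only [this]
  have hdep1 : ∀ v, Dep {s(w, v)} (fun ω : Sym2 V → Λ => ω s(w, v) ∈ L) := by
    intro v ω ω' h
    simp only [h s(w, v) rfl]
  have hnot : ∀ v v', v' ≠ w → s(w, v) ∉ B v' := by
    rintro v v' hv' ⟨u, -, hu, e⟩
    rcases Sym2.eq_iff.1 e with ⟨h, -⟩ | ⟨h, -⟩
    · exact hv' h.symm
    · exact hu h.symm
  have hbad : ∀ v, Pr p (badEv r w 𝒞 L' a p v) ≤ β := by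
    intro v
    refine (Pr_exists hp 𝒞 _).trans (le_trans (sum_le_sum fun c hc => ?_) hβ)
    obtain ⟨h0, h1, h2, h3, h4⟩ := hq c hc
    refine cnt_dev hp (badS r w v) (fun u => s(v, u))
      (fun u _ u' _ h => Sym2.congr_right.1 h) (fun _ => L' c) ?_ (by linarith)
    set S := badS r w v
    have hS := card_le_nV S
    have hS0 : (0 : ℝ) ≤ S.card := Nat.cast_nonneg _
    rw [sum_const, nsmul_eq_mul]
    have h5 : (S.card : ℝ) * (1 / nV V) ≤ 1 := by
      rw [mul_one_div, div_le_one hn]; exact hS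
    obtain ⟨h6, h7⟩ := abs_le.1 h2
    have h8 : S.card * mass p (L' c) ≤ nV V * q c + 1 := by nlinarith
    have h9 : S.card - S.card * mass p (L' c) ≤ nV V * (1 - q c) + 1 := by nlinarith
    rw [← min_add_add_right] at h4
    exact (min_le_min h8 h9).trans h4
  refine many_up hp (univ.erase w) (fun v => {s(w, v)} ∪ B v)
    (badE r w 𝒞 L' a p L) (fun v _ ω ω' h => ?_)
    (fun v hv v' hv' hne => ?_) ?_ ht
  · have e1 := hdep1 v ω ω' fun e he => h e (Or.inl he)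
    have e2 := hdep v ω ω' fun e he => h e (Or.inr he)
    simp only at e1
    simp only [badE, e1, e2]
  · rw [Set.disjoint_left]
    rintro e (rfl | ⟨u, h1, h2, rfl⟩) (h | h)
    · exact hne (Sym2.congr_right.1 h)
    · exact hnot v v' (ne_of_mem_erase hv') h
    · exact hnot v' v (ne_of_mem_erase hv) ⟨u, h1, h2, Eq.symm h⟩
    · obtain ⟨u', h3, -, e⟩ := h
      rcases Sym2.eq_iff.1 e with ⟨h, -⟩ | ⟨rfl, rfl⟩
      · exact hne h
      · exact hr _ _ h1 h3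
  · have h1 : ∀ v ∈ univ.erase w,
        Pr p (badE r w 𝒞 L' a p L v) ≤ mass p L * β := by
      intro v hv
      change Pr p (fun ω => ω s(w, v) ∈ L ∧ badEv r w 𝒞 L' a p v ω) ≤ _
      rw [Pr_and hp (hdep1 v) (hdep v)
        (Set.disjoint_singleton_left.2 (hnot v v (ne_of_mem_erase hv))), Pr_mem hp]
      exact mul_le_mul_of_nonneg_left (hbad v) hm0
    refine (sum_le_card_nsmul _ _ _ h1).trans ?_
    rw [nsmul_eq_mul, mul_assoc]
    exact mul_le_mul_of_nonneg_right (card_le_nV _) (mul_nonneg hm0 hβ0)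

theorem bad_split [LinearOrder V] {ι : Type} (𝒞 : Finset ι) (Lf Lb : ι → Finset Λ)
    (q a : ι → ℝ)
    (hq : ∀ c ∈ 𝒞, 0 ≤ q c ∧ q c ≤ 1 ∧ |mass p (Lf c) - q c| ≤ 1 / nV V ∧
      |mass p (Lb c) - q c| ≤ 1 / nV V ∧ 10 ≤ a c) {w v : V} (hv : v ≠ w) {ω : Sym2 V → Λ}
    (h : v ∈ Tbad ω 𝒞 Lf Lb q a) :
    badEv (· < ·) w 𝒞 Lf a p v ω ∨ badEv (· > ·) w 𝒞 Lb a p v ω := by
  obtain ⟨c, hc, h⟩ := (mem_filter.1 h).2
  obtain ⟨h0, h1, h2, h3, h4⟩ := hq c hc
  by_contra hcon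
  obtain ⟨n1, n2⟩ := not_or.1 hcon
  have n1' := not_le.1 fun h => n1 ⟨c, hc, h⟩
  have n2' := not_le.1 fun h => n2 ⟨c, hc, h⟩
  rw [sum_const, nsmul_eq_mul] at n1' n2'
  set Sf := badS (· < ·) w v with hSf
  set Sb := badS (· > ·) w v with hSb
  have hn : 0 < nV V := by
    unfold nV; exact_mod_cast Fintype.card_pos_iff.2 ⟨w⟩
  have hdis : Disjoint Sf Sb := disjoint_left.2 fun u h1 h2 =>
    lt_asymm (bad_mem.1 h1).1 (bad_mem.1 h2).1
  have hcard : (Sf.card : ℝ) + Sb.card + 2 = nV V := by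
    have e : Sf ∪ Sb = (univ.erase w).erase v := by
      ext u
      simp only [hSf, hSb, mem_union, bad_mem, mem_univ, mem_erase, and_true]
      constructor
      · rintro (⟨h, h'⟩ | ⟨h, h'⟩)
        · exact ⟨h.ne', h'⟩
        · exact ⟨h.ne, h'⟩
      · rintro ⟨h, h'⟩
        exact (lt_or_gt_of_ne h).symm.imp (fun h => ⟨h, h'⟩) (fun h => ⟨h, h'⟩)
    have e1 := card_union_of_disjoint hdis
    rw [e] at e1
    have e2 := card_erase_add_one (s := univ.erase w) (a := v) (by simp [hv])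
    have e3 := card_erase_add_one (s := (univ : Finset V)) (a := w) (by simp)
    unfold nV
    rw [← card_univ]
    exact_mod_cast (by omega : Sf.card + Sb.card + 2 = (univ : Finset V).card)
  set Xf := Sf.filter fun u => ω s(v, u) ∈ Lf c with hXf
  set Xb := Sb.filter fun u => ω s(v, u) ∈ Lb c with hXb
  have hU : Xf ∪ Xb = (dgr ω (Lf c) (Lb c) v).erase w := by
    ext u
    simp only [hXf, hXb, hSf, hSb, mem_union, mem_filter, bad_mem, mem_erase, mem_dgr, gt_iff_lt]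
    tauto
  have e1 := card_union_of_disjoint (hdis.mono (filter_subset _ _) (filter_subset _ _) :
    Disjoint Xf Xb)
  rw [hU] at e1
  have e2 : ((dgr ω (Lf c) (Lb c) v).erase w).card ≤ (dgr ω (Lf c) (Lb c) v).card := card_erase_le
  have e3 := pred_card_le_card_erase (s := dgr ω (Lf c) (Lb c) v) (a := w)
  have e4 : (Xf.card : ℝ) + Xb.card ≤ (dgr ω (Lf c) (Lb c) v).card := by
    exact_mod_cast e1 ▸ e2
  have e5 : ((dgr ω (Lf c) (Lb c) v).card : ℝ) ≤ Xf.card + Xb.card + 1 := by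
    exact_mod_cast (by omega : (dgr ω (Lf c) (Lb c) v).card ≤ Xf.card + Xb.card + 1)
  have f0 : (0 : ℝ) ≤ Sf.card := Nat.cast_nonneg _
  have b0 : (0 : ℝ) ≤ Sb.card := Nat.cast_nonneg _
  have h5 : ((Sf.card : ℝ) + Sb.card) * (1 / nV V) ≤ 1 := by
    rw [mul_one_div, div_le_one hn]; linarith
  obtain ⟨a1, a2⟩ := abs_le.1 h2
  obtain ⟨a3, a4⟩ := abs_le.1 h3
  obtain ⟨a5, a6⟩ := abs_lt.1 n1'
  obtain ⟨a7, a8⟩ := abs_lt.1 n2'
  have m1 := mul_le_mul_of_nonneg_left a1 f0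
  have m2 := mul_le_mul_of_nonneg_left a2 f0
  have m3 := mul_le_mul_of_nonneg_left a3 b0
  have m4 := mul_le_mul_of_nonneg_left a4 b0
  have m5 : nV V * q c = Sf.card * q c + Sb.card * q c + 2 * q c := by rw [← hcard]; ring
  refine not_le.2 h (abs_le.2 ⟨?_, ?_⟩) <;> linarith

/-- Hint: for `v ≠ w` let `Ef v` be the event that `ω s(w,v) ∈ L` and for some `c ∈ 𝒞` the number
of `u > v`, `u ≠ w`, with `ω s(v,u) ∈ Lf c` deviates from its mean by at least `a c / 4`; define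
`Eb v` with `u < v` and `Lb c`. A vertex counted on the left satisfies `Ef v` or `Eb v`. `Ef v`
depends on the coordinates `s(w,v)` and `s(v,u)`, `u > v`, `u ≠ w`, and these sets are pairwise
disjoint; `Pr (Ef v) ≤ mass L * β` by `Pr_and` and `cnt_dev`; apply `many_up` twice. -/
theorem bad_prob [LinearOrder V] (hp : IsP p) {ι : Type} (𝒞 : Finset ι) (Lf Lb : ι → Finset Λ)
    (q a ν : ι → ℝ) {β t l : ℝ}
    (hq : ∀ c ∈ 𝒞, 0 ≤ q c ∧ q c ≤ 1 ∧ |mass p (Lf c) - q c| ≤ 1 / nV V ∧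
      |mass p (Lb c) - q c| ≤ 1 / nV V ∧ 10 ≤ a c ∧
      min (nV V * q c) (nV V * (1 - q c)) + 1 ≤ ν c)
    (hβ : ∑ c ∈ 𝒞, 2 * Real.exp (-(a c / 4) ^ 2 / (4 * ν c + 2 * (a c / 4))) ≤ β)
    (L : Finset Λ) (w : V) (ht : 0 ≤ t) :
    Pr p (fun ω : Sym2 V → Λ => 2 * l ≤ ((nb (gr ω L) w ∩ Tbad ω 𝒞 Lf Lb q a).card : ℝ)) ≤
      2 * Real.exp ((Real.exp t - 1) * (nV V * mass p L * β) - t * l) := by
  have h1 := bad_half (l := l) hp (· < ·) (fun _ _ h => lt_asymm h) 𝒞 Lf q a ν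
    (fun c hc => ⟨(hq c hc).1, (hq c hc).2.1, (hq c hc).2.2.1, (hq c hc).2.2.2.2⟩) hβ L w ht
  have h2 := bad_half (l := l) hp (· > ·) (fun _ _ h => lt_asymm h) 𝒞 Lb q a ν
    (fun c hc => ⟨(hq c hc).1, (hq c hc).2.1, (hq c hc).2.2.2.1, (hq c hc).2.2.2.2⟩) hβ L w ht
  refine le_trans (Pr_mono hp fun ω h => ?_)
    ((Pr_or hp _ _).trans ((add_le_add h1 h2).trans_eq (two_mul _).symm))
  have hsub : nb (gr ω L) w ∩ Tbad ω 𝒞 Lf Lb q a ⊆
      ((univ.erase w).filter fun v => badE (· < ·) w 𝒞 Lf a p L v ω) ∪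
      ((univ.erase w).filter fun v => badE (· > ·) w 𝒞 Lb a p L v ω) := by
    intro v hv
    obtain ⟨h3, h4⟩ := mem_inter.1 hv
    obtain ⟨h5, h6⟩ := mem_gr.1 (mem_nb.1 h3)
    have hvw : v ≠ w := fun e => h5 (by simp [e])
    have := bad_split (p := p) 𝒞 Lf Lb q a (fun c hc => ⟨(hq c hc).1, (hq c hc).2.1,
      (hq c hc).2.2.1, (hq c hc).2.2.2.1, (hq c hc).2.2.2.2.1⟩) hvw h4
    simp only [mem_union, mem_filter, mem_erase, mem_univ, and_true]
    exact this.imp (fun h => ⟨hvw, h6, h⟩) (fun h => ⟨hvw, h6, h⟩)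
  have h7 := (card_le_card hsub).trans (card_union_le _ _)
  have h8 : ((nb (gr ω L) w ∩ Tbad ω 𝒞 Lf Lb q a).card : ℝ) ≤ _ := Nat.cast_le.2 h7
  rw [Nat.cast_add] at h8
  by_contra hcon
  obtain ⟨n1, n2⟩ := not_or.1 hcon
  linarith [not_le.1 n1, not_le.1 n2]

end

end Pool.Agent.MP_1376f1_pr

end
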