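import Pool.Agent.MP_d802e4_co.Prob

-- part MP_1376f1_pr.Defs
section

/-!
Definitions for the proof that the random graph process packs Hamilton cycles optimally at all times.
Graphs are finite sets of unordered pairs.
-/

set_option autoImplicit false
set_option linter.unusedSectionVars false

namespace Pool.Agent.MP_1376f1_pr

open Finset
open scoped Classical

noncomputable section

section Graphs

variable {V : Type} [Fintype V] [DecidableEq V]

/-- number of vertices as a real number -/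
def nV (V : Type) [Fintype V] : ℝ := Fintype.card V

/-- neighbourhood -/
def nb (E : Finset (Sym2 V)) (v : V) : Finset V := univ.filter fun u => s(v, u) ∈ E

/-- degree -/
def dg (E : Finset (Sym2 V)) (v : V) : ℕ := (nb E v).card

/-- `E` is a set of proper pairs inside `U` -/
def On (U : Finset V) (E : Finset (Sym2 V)) : Prop := ∀ e ∈ E, ¬ e.IsDiag ∧ ∀ v ∈ e, v ∈ U

/-- no edge leaves `S` -/
def Closed (E : Finset (Sym2 V)) (S : Finset V) : Prop := ∀ v ∈ S, nb E v ⊆ S

/-- `C` is the edge set of a Hamilton cycle on `U` (2-regular and connected; empty if `U` is) -/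
def IsHam (U : Finset V) (C : Finset (Sym2 V)) : Prop :=
  On U C ∧ (∀ v ∈ U, dg C v = 2) ∧ ∀ S ⊆ U, S.Nonempty → Closed C S → S = U

/-- for graphs of maximum degree two: no component is a cycle -/
def NoCyc (F : Finset (Sym2 V)) : Prop :=
  ∀ S : Finset V, S.Nonempty → Closed F S → ∃ v ∈ S, dg F v ≤ 1

/-- a matching inside `U` -/
def IsMat (U : Finset V) (M : Finset (Sym2 V)) : Prop := On U M ∧ ∀ v, dg M v ≤ 1

/-- touched vertices -/
def tch (F : Finset (Sym2 V)) : Finset V := univ.filter fun v => 0 < dg F v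

/-- edges inside `S` -/
def inside (E : Finset (Sym2 V)) (S : Finset V) : Finset (Sym2 V) :=
  E.filter fun e => ∀ v ∈ e, v ∈ S

/-- the complete graph -/
def allE (V : Type) [Fintype V] [DecidableEq V] : Finset (Sym2 V) :=
  univ.filter fun e => ¬ e.IsDiag

/-- the edges underlying a digraph given by out-neighbourhoods -/
def arcE (D : V → Finset V) : Finset (Sym2 V) :=
  univ.filter fun e => ∃ y z, z ∈ D y ∧ e = s(y, z)

/-- all degrees are at least `k`, except possibly for one vertex of degree `k - 1` when `k` and the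
number of vertices are odd -/
def Near (G : Finset (Sym2 V)) (k : ℕ) : Prop :=
  (∀ v, k ≤ dg G v + 1) ∧
    (univ.filter fun v => dg G v < k).card ≤ Fintype.card V % 2 * (k % 2)

/-- the degree condition for `k` holds and some degree is at most `k` -/
def Tight (G : Finset (Sym2 V)) (k : ℕ) : Prop := Near G k ∧ ∃ v, dg G v ≤ k

/-- the property `A_k` -/
def HasA (G : Finset (Sym2 V)) (k : ℕ) : Prop :=
  ∃ (C : ℕ → Finset (Sym2 V)) (M : Finset (Sym2 V)),
    (∀ i < k / 2, C i ⊆ G ∧ IsHam univ (C i)) ∧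
    (∀ i < k / 2, ∀ j < k / 2, i ≠ j → Disjoint (C i) (C j)) ∧
    (k % 2 = 1 → M ⊆ G ∧ IsMat univ M ∧ M.card = Fintype.card V / 2 ∧
      ∀ i < k / 2, Disjoint M (C i))

/-- small sets span few edges -/
def Sparse (Q : Finset (Sym2 V)) (a lam : ℝ) : Prop :=
  ∀ S : Finset V, (S.card : ℝ) ≤ a → ((inside Q S).card : ℝ) ≤ lam * S.card

/-- the consecutive pairs of a list -/
def ledges : List V → List (Sym2 V)
  | a :: b :: l => s(a, b) :: ledges (b :: l)
  | _ => []

/-- a path in `Y` using edges of `Γ` and `L` that contains every edge of `L` it meets -/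
def RPath (Y : Finset V) (L Γ : Finset (Sym2 V)) (l : List V) : Prop :=
  l.Nodup ∧ (∀ v ∈ l, v ∈ Y) ∧ (∀ e ∈ ledges l, e ∈ Γ ∨ e ∈ L) ∧
    ∀ e ∈ L, ∀ v ∈ e, v ∈ l → e ∈ ledges l

/-- `L` extends to a Hamilton cycle on `Y` by edges of `Γ` -/
def Hamil (Y : Finset V) (L Γ : Finset (Sym2 V)) : Prop := ∃ C ⊆ Γ, IsHam Y (C ∪ L)

/-- small subsets of `Y` have many neighbours in `Z` -/
def Expands (Y Z : Finset V) (Γ : Finset (Sym2 V)) (a : ℕ) : Prop :=
  ∀ S ⊆ Y, S.Nonempty → S.card ≤ a → 2 * S.card < ((S.biUnion (nb Γ) ∩ Z) \ S).card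

/-- boosters inside `Z` -/
def Boost (Y Z : Finset V) (L Γ : Finset (Sym2 V)) : Finset (Sym2 V) :=
  univ.filter fun e => ¬ e.IsDiag ∧ (∀ v ∈ e, v ∈ Z) ∧ e ∉ Γ ∧
    (Hamil Y L (insert e Γ) ∨
      ∃ l, RPath Y L (insert e Γ) l ∧ ∀ l', RPath Y L Γ l' → l'.length < l.length)

/-- every large booster set of a sparse subgraph of `P` contains many edges of `C` -/
def PropB (W : Finset V) (P C : Finset (Sym2 V)) (y0 e0 m0 b0 β : ℝ) : Prop :=
  ∀ (Y Z : Finset V) (L Γ : Finset (Sym2 V)), Y ⊆ W → Z ⊆ Y → (Y.card : ℝ) ≤ y0 →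
    (L.card : ℝ) ≤ e0 → On Y Γ → Γ ⊆ P → (Γ.card : ℝ) ≤ m0 →
    b0 ≤ ((Boost Y Z L Γ).card : ℝ) → β ≤ ((Boost Y Z L Γ ∩ C).card : ℝ)

/-- the small absolute constant -/
def th : ℝ := 1 / 10 ^ 13

/-- pseudo-random properties of a pool of nominal degree `ρ` at scale `γ` -/
structure PoolOK (W : Finset V) (ρ γ b : ℝ) (Q P C : Finset (Sym2 V)) : Prop where
  sparse : Sparse Q (3 * nV V / (10 ^ 4 * γ)) (th * ρ / (200 * γ))
  boost : PropB W P C (3 * nV V / γ) (nV V / (10 ^ 30 * γ ^ 2)) (th * ρ * nV V / (4 * γ ^ 2))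
    ((nV V / (10 ^ 4 * γ)) ^ 2 / 32) (b * nV V * ρ / (10 ^ 11 * γ ^ 2))

/-- a pool consists of two graphs and an oriented graph, pairwise edge-disjoint -/
structure Tri (W : Finset V) (A C : Finset (Sym2 V)) (D : V → Finset V) : Prop where
  onA : On W A
  onC : On W C
  onB : On W (arcE D)
  anti : ∀ y z, z ∈ D y → y ∉ D z
  dAB : Disjoint A (arcE D)
  dAC : Disjoint A C
  dBC : Disjoint (arcE D) C

/-- all edges of a pool -/
def PP (A C : Finset (Sym2 V)) (D : V → Finset V) : Finset (Sym2 V) := A ∪ arcE D ∪ C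

/-- restriction of an oriented graph to the edge set `R` -/
def resD (D : V → Finset V) (R : Finset (Sym2 V)) (y : V) : Finset V :=
  (D y).filter fun z => s(y, z) ∈ R

/-- vertices that are removed or are ends of virtual edges -/
def Aset (X : Finset V) (M : Finset (Sym2 V)) : Finset V := X ∪ tch M

/-- number of real edges a colour needs at `w` -/
def dem (X : Finset V) (M : Finset (Sym2 V)) (w : V) : ℕ := if w ∈ X then 0 else 2 - dg M w

/-- edge-disjoint Hamilton cycles through prescribed virtual matchings -/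
def HamFam (W : Finset V) (R : Finset (Sym2 V)) (I : Finset ℕ) (X : ℕ → Finset V)
    (M F : ℕ → Finset (Sym2 V)) : Prop :=
  (∀ i ∈ I, F i ⊆ R ∧ Disjoint (F i) (M i) ∧ IsHam (W \ X i) (F i ∪ M i)) ∧
    ∀ i ∈ I, ∀ j ∈ I, i ≠ j → Disjoint (F i) (F j)

/-- number of colours -/
def KK (k : ℕ) : ℕ := (k + 1) / 2

/-- degree of colour `i`; colour `0` is the matching when `k` is odd -/
def dm (k i : ℕ) : ℕ := if i = 0 ∧ k % 2 = 1 then 1 else 2

/-- degree of colour `i` at `x`: a vertex of degree below `k` is not covered by the matching -/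
def dx (G : Finset (Sym2 V)) (k i : ℕ) (x : V) : ℕ := if i = 0 ∧ dg G x < k then 0 else dm k i

/-- path systems covering the exceptional vertices -/
structure TSys (G : Finset (Sym2 V)) (T : Finset V) (k : ℕ) (F : ℕ → Finset (Sym2 V)) : Prop where
  sub : ∀ i < KK k, F i ⊆ G
  disj : ∀ i < KK k, ∀ j < KK k, i ≠ j → Disjoint (F i) (F j)
  touch : ∀ i < KK k, ∀ e ∈ F i, ∃ x ∈ T, x ∈ e
  degT : ∀ i < KK k, ∀ x ∈ T, dg (F i) x = dx G k i x
  tt : ∀ i < KK k, ∀ x ∈ T, (nb (F i) x ∩ T).card + 1 ≤ dm k i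
  degW : ∀ i < KK k, ∀ w, w ∉ T → dg (F i) w ≤ 1

/-- nominal degree of pool `j` -/
def sig (k : ℕ) (s : ℝ) (m j : ℕ) : ℝ := if j < m then (k : ℝ) / 2 ^ (j + 2) else s

/-- the parameters of the iterative construction -/
structure Sched (n : ℝ) (k : ℕ) (s : ℝ) (m : ℕ) : Prop where
  hs : Real.log n ≤ 200 * s
  hsn : s ≤ n
  hk : 1 ≤ k
  hkn : (k : ℝ) ≤ n
  hm1 : (k : ℝ) ≤ th / 8 * s * 2 ^ m
  hm2 : m = 0 ∨ th / 8 * s * 2 ^ m ≤ 2 * k

/-- no two vertices of `L` are at distance at most four -/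
def Far (G : Finset (Sym2 V)) (L : Finset V) : Prop :=
  ∀ x ∈ L, ∀ y ∈ L, x ≠ y → ∀ p : (SimpleGraph.fromEdgeSet (G : Set (Sym2 V))).Walk x y,
    4 < p.length

/-- the vertices of degree at most `j` -/
def low (G : Finset (Sym2 V)) (j : ℝ) : Finset V := univ.filter fun v => (dg G v : ℝ) ≤ j

@[simp] lemma mem_nb {E : Finset (Sym2 V)} {v u : V} : u ∈ nb E v ↔ s(v, u) ∈ E := by simp [nb]

lemma mem_nb_comm {E : Finset (Sym2 V)} {v u : V} : u ∈ nb E v ↔ v ∈ nb E u := by
  rw [mem_nb, mem_nb, Sym2.eq_swap]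

@[simp] lemma mem_tch {F : Finset (Sym2 V)} {v : V} : v ∈ tch F ↔ 0 < dg F v := by simp [tch]

@[simp] lemma mem_inside {E : Finset (Sym2 V)} {S : Finset V} {e : Sym2 V} :
    e ∈ inside E S ↔ e ∈ E ∧ ∀ v ∈ e, v ∈ S := by simp [inside]

@[simp] lemma mem_allE {e : Sym2 V} : e ∈ allE V ↔ ¬ e.IsDiag := by simp [allE]

@[simp] lemma mem_arcE {D : V → Finset V} {e : Sym2 V} :
    e ∈ arcE D ↔ ∃ y z, z ∈ D y ∧ e = s(y, z) := by simp [arcE]

@[simp] lemma mem_resD {D : V → Finset V} {R : Finset (Sym2 V)} {y z : V} :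
    z ∈ resD D R y ↔ z ∈ D y ∧ s(y, z) ∈ R := by simp [resD]

@[simp] lemma mem_low {G : Finset (Sym2 V)} {j : ℝ} {v : V} :
    v ∈ low G j ↔ (dg G v : ℝ) ≤ j := by simp [low]

lemma mem_Boost {Y Z : Finset V} {L Γ : Finset (Sym2 V)} {e : Sym2 V} :
    e ∈ Boost Y Z L Γ ↔ ¬ e.IsDiag ∧ (∀ v ∈ e, v ∈ Z) ∧ e ∉ Γ ∧
    (Hamil Y L (insert e Γ) ∨
      ∃ l, RPath Y L (insert e Γ) l ∧ ∀ l', RPath Y L Γ l' → l'.length < l.length) := by
  simp only [Boost, mem_filter, mem_univ, true_and]

lemma nb_mono {E F : Finset (Sym2 V)} (h : E ⊆ F) (v : V) : nb E v ⊆ nb F v :=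
  fun _ hu => mem_nb.2 (h (mem_nb.1 hu))

lemma dg_mono {E F : Finset (Sym2 V)} (h : E ⊆ F) (v : V) : dg E v ≤ dg F v :=
  card_le_card (nb_mono h v)

lemma nb_union (E F : Finset (Sym2 V)) (v : V) : nb (E ∪ F) v = nb E v ∪ nb F v := by
  ext u; simp

lemma nb_inter (E F : Finset (Sym2 V)) (v : V) : nb (E ∩ F) v = nb E v ∩ nb F v := by
  ext u; simp

lemma nb_sdiff (E F : Finset (Sym2 V)) (v : V) : nb (E \ F) v = nb E v \ nb F v := by
  ext u; simp

@[simp] lemma nb_empty (v : V) : nb (∅ : Finset (Sym2 V)) v = ∅ := by ext u; simp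

@[simp] lemma dg_empty (v : V) : dg (∅ : Finset (Sym2 V)) v = 0 := by simp [dg]

lemma nb_biUnion {ι : Type} (I : Finset ι) (F : ι → Finset (Sym2 V)) (v : V) :
    nb (I.biUnion F) v = I.biUnion fun i => nb (F i) v := by
  ext u; simp

lemma disjoint_nb {E F : Finset (Sym2 V)} (h : Disjoint E F) (v : V) :
    Disjoint (nb E v) (nb F v) :=
  disjoint_left.2 fun _ h1 h2 => disjoint_left.1 h (mem_nb.1 h1) (mem_nb.1 h2)

lemma dg_union_le (E F : Finset (Sym2 V)) (v : V) : dg (E ∪ F) v ≤ dg E v + dg F v := by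
  unfold dg; rw [nb_union]; exact card_union_le _ _

lemma dg_union {E F : Finset (Sym2 V)} (h : Disjoint E F) (v : V) :
    dg (E ∪ F) v = dg E v + dg F v := by
  unfold dg; rw [nb_union, card_union_of_disjoint (disjoint_nb h v)]

lemma dg_biUnion {ι : Type} (I : Finset ι) (F : ι → Finset (Sym2 V))
    (h : ∀ i ∈ I, ∀ j ∈ I, i ≠ j → Disjoint (F i) (F j)) (v : V) :
    dg (I.biUnion F) v = ∑ i ∈ I, dg (F i) v := by
  unfold dg; rw [nb_biUnion, card_biUnion]
  exact fun i hi j hj hij => disjoint_nb (h i hi j hj hij) v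

lemma dg_biUnion_le {ι : Type} (I : Finset ι) (F : ι → Finset (Sym2 V)) (v : V) :
    dg (I.biUnion F) v ≤ ∑ i ∈ I, dg (F i) v := by
  unfold dg; rw [nb_biUnion]; exact card_biUnion_le

lemma dg_sdiff {E F : Finset (Sym2 V)} (h : F ⊆ E) (v : V) :
    dg (E \ F) v + dg F v = dg E v := by
  rw [← dg_union sdiff_disjoint, sdiff_union_of_subset h]

lemma dg_le_card (E : Finset (Sym2 V)) (v : V) : dg E v ≤ Fintype.card V := card_le_univ _

lemma On.mono {U U' : Finset V} {E E' : Finset (Sym2 V)} (h : On U E) (hU : U ⊆ U')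
    (hE : E' ⊆ E) : On U' E' := fun e he => ⟨(h e (hE he)).1, fun v hv => hU ((h e (hE he)).2 v hv)⟩

lemma On.union {U : Finset V} {E F : Finset (Sym2 V)} (h : On U E) (h' : On U F) :
    On U (E ∪ F) := fun e he => (mem_union.1 he).elim (h e) (h' e)

lemma On.mk_mem {U : Finset V} {E : Finset (Sym2 V)} (h : On U E) {u v : V} (he : s(u, v) ∈ E) :
    u ≠ v ∧ u ∈ U ∧ v ∈ U :=
  ⟨fun huv => (h _ he).1 (by simp [huv]), (h _ he).2 u (by simp), (h _ he).2 v (by simp)⟩

lemma On.nb_subset {U : Finset V} {E : Finset (Sym2 V)} (h : On U E) (v : V) : nb E v ⊆ U :=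
  fun _ hu => (h.mk_mem (mem_nb.1 hu)).2.2

lemma On.not_mem_nb {U : Finset V} {E : Finset (Sym2 V)} (h : On U E) (v : V) : v ∉ nb E v :=
  fun hu => (h.mk_mem (mem_nb.1 hu)).1 rfl

lemma On.nb_eq_empty {U : Finset V} {E : Finset (Sym2 V)} (h : On U E) {v : V} (hv : v ∉ U) :
    nb E v = ∅ :=
  eq_empty_of_forall_notMem fun _ hu => hv (h.mk_mem (mem_nb.1 hu)).2.1

lemma On.dg_eq_zero {U : Finset V} {E : Finset (Sym2 V)} (h : On U E) {v : V} (hv : v ∉ U) :
    dg E v = 0 := by unfold dg; rw [h.nb_eq_empty hv, card_empty]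

lemma on_inside {U S : Finset V} {E : Finset (Sym2 V)} (h : On U E) : On S (inside E S) :=
  fun e he => ⟨(h e (mem_inside.1 he).1).1, (mem_inside.1 he).2⟩

lemma on_allE : On univ (allE V) := fun _ he => ⟨mem_allE.1 he, fun v _ => mem_univ v⟩

lemma arcE_resD (D : V → Finset V) (R : Finset (Sym2 V)) : arcE (resD D R) = arcE D ∩ R := by
  ext e
  simp only [mem_arcE, mem_resD, mem_inter]
  constructor
  · rintro ⟨y, z, ⟨h1, h2⟩, rfl⟩; exact ⟨⟨y, z, h1, rfl⟩, h2⟩
  · rintro ⟨⟨y, z, h1, rfl⟩, h2⟩; exact ⟨y, z, ⟨h1, h2⟩, rfl⟩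

lemma subset_nb_arcE (D : V → Finset V) (y : V) : D y ⊆ nb (arcE D) y :=
  fun z hz => mem_nb.2 (mem_arcE.2 ⟨y, z, hz, rfl⟩)

lemma PP_inter (A C R : Finset (Sym2 V)) (D : V → Finset V) :
    PP (A ∩ R) (C ∩ R) (resD D R) = PP A C D ∩ R := by
  unfold PP; rw [arcE_resD, union_inter_distrib_right, union_inter_distrib_right]

lemma Tri.res {W W' : Finset V} {A C R : Finset (Sym2 V)} {D : V → Finset V} (h : Tri W A C D)
    (hR : On W' R) : Tri W' (A ∩ R) (C ∩ R) (resD D R) where
  onA := hR.mono subset_rfl inter_subset_right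
  onC := hR.mono subset_rfl inter_subset_right
  onB := by rw [arcE_resD]; exact hR.mono subset_rfl inter_subset_right
  anti := fun y z h1 h2 => h.anti y z (mem_resD.1 h1).1 (mem_resD.1 h2).1
  dAB := by rw [arcE_resD]; exact h.dAB.mono inter_subset_left inter_subset_left
  dAC := h.dAC.mono inter_subset_left inter_subset_left
  dBC := by rw [arcE_resD]; exact h.dBC.mono inter_subset_left inter_subset_left

lemma Sparse.mono {Q Q' : Finset (Sym2 V)} {a lam : ℝ} (h : Sparse Q a lam) (hQ : Q' ⊆ Q) :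
    Sparse Q' a lam := fun S hS =>
  le_trans (by exact_mod_cast card_le_card (filter_subset_filter _ hQ)) (h S hS)

lemma dx_le (G : Finset (Sym2 V)) (k i : ℕ) (x : V) : dx G k i x ≤ 2 := by
  unfold dx dm
  split_ifs <;> omega

lemma Near.card_le {G : Finset (Sym2 V)} {k : ℕ} (h : Near G k) :
    (univ.filter fun v => dg G v < k).card ≤ 1 := by
  refine h.2.trans ?_
  rcases Nat.mod_two_eq_zero_or_one (Fintype.card V) with h1 | h1 <;>
    rcases Nat.mod_two_eq_zero_or_one k with h2 | h2 <;> rw [h1, h2] <;> omega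

lemma Near.odd {G : Finset (Sym2 V)} {k : ℕ} (h : Near G k) {v : V} (hv : dg G v < k) :
    k % 2 = 1 := by
  have h1 : 0 < (univ.filter fun v => dg G v < k).card :=
    card_pos.2 ⟨v, mem_filter.2 ⟨mem_univ _, hv⟩⟩
  have h2 := h.2
  rcases Nat.mod_two_eq_zero_or_one k with h3 | h3
  · rw [h3] at h2; omega
  · exact h3

lemma Near.exists_ge {G : Finset (Sym2 V)} {k : ℕ} (h : Near G k) (hV : 2 ≤ Fintype.card V) :
    ∃ v, k ≤ dg G v := by
  by_contra hc
  have h1 := h.card_le
  rw [filter_true_of_mem fun v _ => not_le.1 fun h' => hc ⟨v, h'⟩, card_univ] at h1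
  omega

lemma th_pos : 0 < th := by unfold th; positivity

lemma th_le : th ≤ 1 / 10 ^ 13 := le_rfl

@[simp] lemma nV_fin (n : ℕ) : nV (Fin n) = n := by simp [nV]

lemma nV_nonneg (V : Type) [Fintype V] : 0 ≤ nV V := Nat.cast_nonneg _

lemma card_le_nV (S : Finset V) : (S.card : ℝ) ≤ nV V := by
  unfold nV; exact_mod_cast card_le_univ S

end Graphs

section Labels

variable {V Λ : Type} [Fintype V] [DecidableEq V]

/-- total weight of a set of labels -/
def mass (p : Λ → ℝ) (L : Finset Λ) : ℝ := ∑ l ∈ L, p l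

/-- uniform weights -/
def unif (M : ℕ) : Fin M → ℝ := fun _ => 1 / M

/-- the graph of the pairs whose label lies in `L` -/
def gr (ω : Sym2 V → Λ) (L : Finset Λ) : Finset (Sym2 V) :=
  univ.filter fun e => ¬ e.IsDiag ∧ ω e ∈ L

/-- the oriented graph using the labels `Lf` towards larger and `Lb` towards smaller vertices -/
def dgr [LinearOrder V] (ω : Sym2 V → Λ) (Lf Lb : Finset Λ) (v : V) : Finset V :=
  univ.filter fun u => (v < u ∧ ω s(v, u) ∈ Lf) ∨ (u < v ∧ ω s(v, u) ∈ Lb)

/-- the labels `l` with `α / n ≤ l / M < β / n` -/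
def lint (n M : ℕ) (α β : ℝ) : Finset (Fin M) :=
  univ.filter fun l => α * M ≤ (l.val : ℝ) * n ∧ (l.val : ℝ) * n < β * M

/-- the graph of the pairs with label below `P` -/
def thr {M : ℕ} (ω : Sym2 V → Fin M) (P : ℕ) : Finset (Sym2 V) :=
  gr ω (univ.filter fun l => l.val < P)

/-- starting point of pool `j` -/
def cut (k : ℕ) (s : ℝ) (m j : ℕ) : ℝ := ∑ i ∈ range j, sig k s m i

/-- first class of pool `j` -/
def clA {n M : ℕ} (ω : Sym2 (Fin n) → Fin M) (k : ℕ) (s : ℝ) (m j : ℕ) : Finset (Sym2 (Fin n)) :=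
  gr ω (lint n M (cut k s m j) (cut k s m j + th * sig k s m j))

/-- oriented class of pool `j` -/
def clD {n M : ℕ} (ω : Sym2 (Fin n) → Fin M) (k : ℕ) (s : ℝ) (m j : ℕ) : Fin n → Finset (Fin n) :=
  dgr ω (lint n M (cut k s m j + th * sig k s m j) (cut k s m j + 2 * th * sig k s m j))
    (lint n M (cut k s m j + 2 * th * sig k s m j) (cut k s m j + 3 * th * sig k s m j))

/-- booster class of pool `j` -/
def clC {n M : ℕ} (ω : Sym2 (Fin n) → Fin M) (k : ℕ) (s : ℝ) (m j : ℕ) : Finset (Sym2 (Fin n)) :=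
  gr ω (lint n M (cut k s m j + 3 * th * sig k s m j) (cut k s m j + sig k s m j))

/-- vertices at which one of the tested degrees deviates -/
def Tbad [LinearOrder V] {ι : Type} (ω : Sym2 V → Λ) (𝒞 : Finset ι) (Lf Lb : ι → Finset Λ)
    (q a : ι → ℝ) : Finset V :=
  univ.filter fun v => ∃ c ∈ 𝒞, a c < |((dgr ω (Lf c) (Lb c) v).card : ℝ) - nV V * q c|

/-- the gap between minimum and average degree that holds with overwhelming probability -/
def gap (n : ℕ) (q : ℝ) : ℝ := Real.sqrt (n * q * (1 - q) * Real.log n) / 20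

@[simp] lemma mem_gr {ω : Sym2 V → Λ} {L : Finset Λ} {e : Sym2 V} :
    e ∈ gr ω L ↔ ¬ e.IsDiag ∧ ω e ∈ L := by simp [gr]

@[simp] lemma mem_dgr [LinearOrder V] {ω : Sym2 V → Λ} {Lf Lb : Finset Λ} {v u : V} :
    u ∈ dgr ω Lf Lb v ↔ (v < u ∧ ω s(v, u) ∈ Lf) ∨ (u < v ∧ ω s(v, u) ∈ Lb) := by simp [dgr]

@[simp] lemma mem_lint {n M : ℕ} {α β : ℝ} {l : Fin M} :
    l ∈ lint n M α β ↔ α * M ≤ (l.val : ℝ) * n ∧ (l.val : ℝ) * n < β * M := by simp [lint]

@[simp] lemma mem_thr {M : ℕ} {ω : Sym2 V → Fin M} {P : ℕ} {e : Sym2 V} :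
    e ∈ thr ω P ↔ ¬ e.IsDiag ∧ (ω e).val < P := by simp [thr]

lemma on_gr (ω : Sym2 V → Λ) (L : Finset Λ) : On univ (gr ω L) :=
  fun _ he => ⟨(mem_gr.1 he).1, fun v _ => mem_univ v⟩

lemma gr_mono (ω : Sym2 V → Λ) {L L' : Finset Λ} (h : L ⊆ L') : gr ω L ⊆ gr ω L' :=
  fun _ he => mem_gr.2 ⟨(mem_gr.1 he).1, h (mem_gr.1 he).2⟩

lemma isP_unif {M : ℕ} (hM : 0 < M) : MP_d802e4_co.IsP (unif M) :=
  ⟨fun _ => by unfold unif; positivity, by
    have : (M : ℝ) ≠ 0 := by exact_mod_cast hM.ne'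
    simp [unif, this]⟩

end Labels

end

end Pool.Agent.MP_1376f1_pr

end

-- part MP_1376f1_pr.Round
section

/-!
Rounding of fractional solutions, equitable colourings.
-/

set_option autoImplicit false
set_option linter.unusedSectionVars false

namespace Pool.Agent.MP_1376f1_pr

open Finset MP_d802e4_co
open scoped Classical

noncomputable section

/-- flow conservation -/
def roundCons {ι N : Type} [DecidableEq N] (A : Finset ι) (t h : ι → N) (f : ι → ℝ) : Prop :=
  ∀ v, ∑ e ∈ A, (if t e = v then f e else 0) = ∑ e ∈ A, (if h e = v then f e else 0)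

lemma round_fib {ι N : Type} [DecidableEq N] (B : Finset ι) (t : ι → N) (U : Finset N)
    (hU : ∀ e ∈ B, t e ∈ U) (z : ι → ℝ) :
    ∑ v ∈ U, ∑ e ∈ B, (if t e = v then z e else 0) = ∑ e ∈ B, z e := by
  rw [sum_comm]
  refine sum_congr rfl fun e he => ?_
  rw [sum_ite_eq U (t e) (fun _ => z e), if_pos (hU e he)]

lemma round_ker {ι N : Type} [DecidableEq ι] [DecidableEq N] (B : Finset ι) (t h : ι → N)
    (hB : B.Nonempty)
    (hdeg : ∀ v ∈ B.image t ∪ B.image h,
      2 ≤ (B.filter fun e => t e = v).card + (B.filter fun e => h e = v).card) :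
    ∃ z : ι → ℝ, (∃ e ∈ B, z e ≠ 0) ∧ (∀ e, e ∉ B → z e = 0) ∧ roundCons B t h z := by
  set U := B.image t ∪ B.image h with hUdef
  have htU : ∀ e ∈ B, t e ∈ U := fun e he => mem_union_left _ (mem_image_of_mem _ he)
  have hhU : ∀ e ∈ B, h e ∈ U := fun e he => mem_union_right _ (mem_image_of_mem _ he)
  have hcard : U.card ≤ B.card := by
    have h1 : B.card = ∑ v ∈ U, (B.filter fun e => t e = v).card :=
      card_eq_sum_card_fiberwise (fun e he => htU e he)
    have h2 : B.card = ∑ v ∈ U, (B.filter fun e => h e = v).card :=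
      card_eq_sum_card_fiberwise (fun e he => hhU e he)
    have h3 : ∑ _v ∈ U, 2 ≤ ∑ v ∈ U,
        ((B.filter fun e => t e = v).card + (B.filter fun e => h e = v).card) :=
      sum_le_sum hdeg
    rw [sum_add_distrib, ← h1, ← h2, sum_const, smul_eq_mul] at h3
    omega
  obtain ⟨e0, he0⟩ := hB
  set v0 := t e0
  have hv0 : v0 ∈ U := htU e0 he0
  set U' := U.erase v0 with hU'
  have hlt : U'.card < B.card := by
    have : U'.card < U.card := card_erase_lt_of_mem hv0
    omega
  let M : Matrix U' B ℝ := fun v e =>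
    (if t e = v then (1 : ℝ) else 0) - (if h e = v then (1 : ℝ) else 0)
  have hk : LinearMap.ker (Matrix.mulVecLin M) ≠ ⊥ := by
    apply LinearMap.ker_ne_bot_of_finrank_lt
    simpa using hlt
  obtain ⟨w, hw, hw0⟩ := (Submodule.ne_bot_iff _).1 hk
  have hw' : M.mulVec w = 0 := by simpa using hw
  let z : ι → ℝ := fun e => if he : e ∈ B then w ⟨e, he⟩ else 0
  have hz : ∀ e : B, z e = w e := fun e => by simp [z, e.2]
  have key : ∀ v ∈ U', ∑ e ∈ B, (if t e = v then z e else 0) =
      ∑ e ∈ B, (if h e = v then z e else 0) := by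
    intro v hv
    have h1 := congrFun hw' ⟨v, hv⟩
    simp only [Matrix.mulVec, dotProduct, M, Pi.zero_apply] at h1
    rw [← sub_eq_zero, ← sum_sub_distrib, ← sum_coe_sort B]
    refine Eq.trans (sum_congr rfl fun e _ => ?_) h1
    rw [hz e]
    split_ifs <;> ring
  refine ⟨z, ?_, fun e he => by simp [z, he], fun v => ?_⟩
  · by_contra hcon
    push Not at hcon
    exact hw0 (funext fun e => by rw [← hz e]; exact hcon e e.2)
  · by_cases hvU : v ∈ U
    · by_cases hv : v = v0
      · have h1 := round_fib B t U htU z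
        have h2 := round_fib B h U hhU z
        rw [← add_sum_erase U _ hv0] at h1 h2
        have h3 : ∑ v ∈ U.erase v0, ∑ e ∈ B, (if t e = v then z e else 0) =
            ∑ v ∈ U.erase v0, ∑ e ∈ B, (if h e = v then z e else 0) := sum_congr rfl key
        rw [hv]
        linarith
      · exact key v (mem_erase.2 ⟨hv, hvU⟩)
    · rw [sum_eq_zero, sum_eq_zero]
      · intro e he
        rw [if_neg]
        rintro rfl
        exact hvU (hhU e he)
      · intro e he
        rw [if_neg]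
        rintro rfl
        exact hvU (htU e he)

/-- a sum of integers -/
lemma round_int_sum {ι : Type} (A : Finset ι) (φ : ι → ℝ) (hφ : ∀ e ∈ A, ∃ k : ℤ, φ e = k) :
    ∃ k : ℤ, ∑ e ∈ A, φ e = k := by
  induction A using Finset.induction_on with
  | empty => exact ⟨0, by simp⟩
  | insert a A ha ih =>
    obtain ⟨k, hk⟩ := ih fun e he => hφ e (mem_insert_of_mem he)
    obtain ⟨l, hl⟩ := hφ a (mem_insert_self _ _)
    exact ⟨l + k, by rw [sum_insert ha, hk, hl]; push_cast; ring⟩

lemma round_deg {ι N : Type} [DecidableEq ι] [DecidableEq N] (A : Finset ι) (t h : ι → N)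
    (f : ι → ℝ) (hf : roundCons A t h f) (B : Finset ι)
    (hB : ∀ e, e ∈ B ↔ e ∈ A ∧ ¬ ∃ k : ℤ, f e = k) (v : N) (hv : v ∈ B.image t ∪ B.image h) :
    2 ≤ (B.filter fun e => t e = v).card + (B.filter fun e => h e = v).card := by
  by_contra hcon
  push Not at hcon
  -- a symmetric statement
  have main : ∀ (t h : ι → N), ∑ e ∈ A, (if t e = v then f e else 0) =
      ∑ e ∈ A, (if h e = v then f e else 0) → ∀ e0 ∈ B, t e0 = v →
      (B.filter fun e => t e = v).card + (B.filter fun e => h e = v).card < 2 → False := by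
    intro t h hc e0 he0 hte hlt
    have hm : e0 ∈ B.filter fun e => t e = v := mem_filter.2 ⟨he0, hte⟩
    have hpos := card_pos.2 ⟨e0, hm⟩
    have hz : (B.filter fun e => h e = v) = ∅ := card_eq_zero.1 (by omega)
    have h1 : (B.filter fun e => t e = v).card ≤ 1 := by omega
    have he0A : e0 ∈ A := ((hB e0).1 he0).1
    obtain ⟨k, hk⟩ := round_int_sum A (fun e => if h e = v then f e else 0) (by
      intro e he
      by_cases hh : h e = v
      · rw [if_pos hh]
        by_contra hni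
        have : e ∈ B.filter fun e => h e = v := mem_filter.2 ⟨(hB e).2 ⟨he, hni⟩, hh⟩
        rw [hz] at this
        exact notMem_empty _ this
      · exact ⟨0, by simp [hh]⟩)
    obtain ⟨l, hl⟩ := round_int_sum (A.erase e0) (fun e => if t e = v then f e else 0) (by
      intro e he
      by_cases hh : t e = v
      · rw [if_pos hh]
        by_contra hni
        have : e ∈ B.filter fun e => t e = v :=
          mem_filter.2 ⟨(hB e).2 ⟨(mem_erase.1 he).2, hni⟩, hh⟩
        exact (mem_erase.1 he).1 (card_le_one.1 h1 _ this _ hm)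
      · exact ⟨0, by simp [hh]⟩)
    rw [← add_sum_erase A _ he0A, hl, hk, if_pos hte] at hc
    exact ((hB e0).1 he0).2 ⟨k - l, by push_cast; linarith⟩
  rcases mem_union.1 hv with hv | hv
  · obtain ⟨e0, he0, hte⟩ := mem_image.1 hv
    exact main t h (hf v) e0 he0 hte hcon
  · obtain ⟨e0, he0, hte⟩ := mem_image.1 hv
    exact main h t (hf v).symm e0 he0 hte (by omega)

lemma round_circ {ι N : Type} [DecidableEq ι] [DecidableEq N] (A : Finset ι) (t h : ι → N) :
    ∀ (n : ℕ) (f : ι → ℝ), (A.filter fun e => ¬ ∃ k : ℤ, f e = k).card = n →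
      roundCons A t h f →
      ∃ g : ι → ℤ, roundCons A t h (fun e => (g e : ℝ)) ∧
        ∀ e ∈ A, ⌊f e⌋ ≤ g e ∧ g e ≤ ⌈f e⌉ := by
  intro n
  induction n using Nat.strong_induction_on with
  | _ n ih =>
    intro f hn hf
    set B := A.filter fun e => ¬ ∃ k : ℤ, f e = k with hBdef
    have hB : ∀ e, e ∈ B ↔ e ∈ A ∧ ¬ ∃ k : ℤ, f e = k := fun e => mem_filter
    rcases B.eq_empty_or_nonempty with hE | hE
    · have hint : ∀ e ∈ A, ((⌊f e⌋ : ℤ) : ℝ) = f e := by
        intro e he
        by_contra hcon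
        have : e ∈ B := (hB e).2 ⟨he, fun ⟨k, hk⟩ => hcon (by rw [hk]; simp)⟩
        rw [hE] at this
        exact notMem_empty _ this
      refine ⟨fun e => ⌊f e⌋, fun v => ?_, fun e _ => ⟨le_rfl, Int.floor_le_ceil _⟩⟩
      have h1 := hf v
      have e1 : ∀ s : ι → N, ∑ e ∈ A, (if s e = v then ((⌊f e⌋ : ℤ) : ℝ) else 0) =
          ∑ e ∈ A, (if s e = v then f e else 0) :=
        fun s => sum_congr rfl fun e he => by rw [hint e he]
      exact (e1 t).trans (h1.trans (e1 h).symm)
    · obtain ⟨z, ⟨e1, he1, hz1⟩, hz0, hzc⟩ :=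
        round_ker B t h hE (round_deg A t h f hf B hB)
      have hBA : B ⊆ A := filter_subset _ _
      have hzA : roundCons A t h z := by
        intro v
        have e1 : ∀ s : ι → N, ∑ e ∈ B, (if s e = v then z e else 0) =
            ∑ e ∈ A, (if s e = v then z e else 0) :=
          fun s => sum_subset hBA fun e _ he => by simp [hz0 e he]
        rw [← e1, ← e1]
        exact hzc v
      let σ : ι → ℝ := fun e =>
        if 0 < z e then ((⌈f e⌉ : ℝ) - f e) / z e else (f e - (⌊f e⌋ : ℝ)) / (- z e)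
      obtain ⟨e0, he0, hmin⟩ := exists_min_image (B.filter fun e => z e ≠ 0) σ
        ⟨e1, mem_filter.2 ⟨he1, hz1⟩⟩
      have he0B : e0 ∈ B := (mem_filter.1 he0).1
      have hz0' : z e0 ≠ 0 := (mem_filter.1 he0).2
      have hσ0 : 0 ≤ σ e0 := by
        simp only [σ]
        split_ifs with hp
        · exact div_nonneg (by linarith [Int.le_ceil (f e0)]) hp.le
        · exact div_nonneg (by linarith [Int.floor_le (f e0)]) (by linarith [not_lt.1 hp])
      let f' : ι → ℝ := fun e => f e + σ e0 * z e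
      have hbd : ∀ e, (⌊f e⌋ : ℝ) ≤ f' e ∧ f' e ≤ (⌈f e⌉ : ℝ) := by
        intro e
        have hfl := Int.floor_le (f e)
        have hcl := Int.le_ceil (f e)
        by_cases hze : z e = 0
        · simp only [f', hze, mul_zero, add_zero]
          exact ⟨hfl, hcl⟩
        · have heB : e ∈ B := by
            by_contra hcon
            exact hze (hz0 e hcon)
          have hm := hmin e (mem_filter.2 ⟨heB, hze⟩)
          simp only [f']
          by_cases hp : 0 < z e
          · have : σ e = ((⌈f e⌉ : ℝ) - f e) / z e := by simp only [σ, if_pos hp]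
            rw [this, le_div_iff₀ hp] at hm
            constructor
            · nlinarith [mul_nonneg hσ0 hp.le]
            · linarith
          · have hneg : 0 < - z e := by
              rcases lt_trichotomy (z e) 0 with h' | h' | h'
              · linarith
              · exact absurd h' hze
              · exact absurd h' hp
            have : σ e = (f e - (⌊f e⌋ : ℝ)) / (- z e) := by simp only [σ, if_neg hp]
            rw [this, le_div_iff₀ hneg] at hm
            constructor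
            · linarith
            · nlinarith [mul_nonneg hσ0 hneg.le]
      have hint0 : ∃ k : ℤ, f' e0 = k := by
        simp only [f', σ]
        split_ifs with hp
        · exact ⟨⌈f e0⌉, by field_simp; ring⟩
        · exact ⟨⌊f e0⌋, by field_simp; ring⟩
      have hsub : (A.filter fun e => ¬ ∃ k : ℤ, f' e = k) ⊆ B.erase e0 := by
        intro e he
        obtain ⟨heA, hni⟩ := mem_filter.1 he
        refine mem_erase.2 ⟨?_, ?_⟩
        · rintro rfl
          exact hni hint0
        · by_contra hcon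
          apply hni
          have h1 : ∃ k : ℤ, f e = k := by
            by_contra h2
            exact hcon ((hB e).2 ⟨heA, h2⟩)
          simpa only [f', hz0 e hcon, mul_zero, add_zero] using h1
      have hlt : (A.filter fun e => ¬ ∃ k : ℤ, f' e = k).card < n := by
        have := card_le_card hsub
        have h2 := card_erase_lt_of_mem he0B
        omega
      have hf' : roundCons A t h f' := by
        intro v
        have e1 : ∀ s : ι → N, ∑ e ∈ A, (if s e = v then f' e else 0) =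
            ∑ e ∈ A, (if s e = v then f e else 0) +
              σ e0 * ∑ e ∈ A, (if s e = v then z e else 0) := by
          intro s
          rw [mul_sum, ← sum_add_distrib]
          refine sum_congr rfl fun e _ => ?_
          split_ifs <;> simp [f']
        rw [e1, e1, hf v, hzA v]
      obtain ⟨g, hg, hgb⟩ := ih _ hlt f' rfl hf'
      refine ⟨g, hg, fun e he => ⟨le_trans ?_ (hgb e he).1, le_trans (hgb e he).2 ?_⟩⟩
      · exact Int.le_floor.2 (hbd e).1
      · exact Int.ceil_le.2 (hbd e).2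

/-- tails of the arcs of the network -/
def roundT {E α β γ : Type} (a : E → α) : E ⊕ α ⊕ β ⊕ γ → Unit ⊕ α ⊕ β ⊕ γ
  | Sum.inl e => Sum.inr (Sum.inl (a e))
  | Sum.inr (Sum.inl _) => Sum.inl ()
  | Sum.inr (Sum.inr (Sum.inl j)) => Sum.inr (Sum.inr (Sum.inl j))
  | Sum.inr (Sum.inr (Sum.inr l)) => Sum.inr (Sum.inr (Sum.inr l))

/-- heads of the arcs of the network -/
def roundH {E α β γ : Type} (b : E → β) (c : β → γ) : E ⊕ α ⊕ β ⊕ γ → Unit ⊕ α ⊕ β ⊕ γ
  | Sum.inl e => Sum.inr (Sum.inr (Sum.inl (b e)))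
  | Sum.inr (Sum.inl i) => Sum.inr (Sum.inl i)
  | Sum.inr (Sum.inr (Sum.inl j)) => Sum.inr (Sum.inr (Sum.inr (c j)))
  | Sum.inr (Sum.inr (Sum.inr _)) => Sum.inl ()

lemma round_cons_iff {E α β γ : Type} [DecidableEq E] [DecidableEq α] [DecidableEq β]
    [DecidableEq γ] (S : Finset E) (I : Finset α) (J : Finset β) (L : Finset γ)
    (a : E → α) (b : E → β) (c : β → γ) (φ : E ⊕ α ⊕ β ⊕ γ → ℝ) :
    roundCons (S.disjSum (I.disjSum (J.disjSum L))) (roundT a) (roundH b c) φ ↔
      (∑ i ∈ I, φ (Sum.inr (Sum.inl i)) = ∑ l ∈ L, φ (Sum.inr (Sum.inr (Sum.inr l)))) ∧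
      (∀ i, ∑ e ∈ S.filter (fun e => a e = i), φ (Sum.inl e) =
        if i ∈ I then φ (Sum.inr (Sum.inl i)) else 0) ∧
      (∀ j, (if j ∈ J then φ (Sum.inr (Sum.inr (Sum.inl j))) else 0) =
        ∑ e ∈ S.filter (fun e => b e = j), φ (Sum.inl e)) ∧
      (∀ l, (if l ∈ L then φ (Sum.inr (Sum.inr (Sum.inr l))) else 0) =
        ∑ j ∈ J.filter (fun j => c j = l), φ (Sum.inr (Sum.inr (Sum.inl j)))) := by
  unfold roundCons
  simp only [Sum.forall, sum_disjSum, roundT, roundH, sum_filter]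
  simp

lemma round_abs {x : ℝ} {g : ℤ} (h : ⌊x⌋ ≤ g ∧ g ≤ ⌈x⌉) : |(g : ℝ) - x| < 1 := by
  have h1 : ((⌊x⌋ : ℤ) : ℝ) ≤ g := by exact_mod_cast h.1
  have h2 : (g : ℝ) ≤ ((⌈x⌉ : ℤ) : ℝ) := by exact_mod_cast h.2
  have h3 := Int.sub_one_lt_floor x
  have h4 := Int.ceil_lt_add_one x
  rw [abs_lt]
  constructor <;> linarith

lemma round_fib2 {E β γ : Type} [DecidableEq E] [DecidableEq β] [DecidableEq γ] (S : Finset E)
    (b : E → β) (c : β → γ) (x : E → ℝ) (l : γ) :
    ∑ j ∈ (S.image b).filter (fun j => c j = l), ∑ e ∈ S.filter (fun e => b e = j), x e =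
      ∑ e ∈ S.filter (fun e => c (b e) = l), x e := by
  rw [← sum_fiberwise_of_maps_to (s := S.filter (fun e => c (b e) = l))
    (t := (S.image b).filter (fun j => c j = l)) (g := b)
    (fun e he => mem_filter.2 ⟨mem_image_of_mem _ (mem_filter.1 he).1, (mem_filter.1 he).2⟩)]
  refine sum_congr rfl fun j hj => sum_congr ?_ fun _ _ => rfl
  ext e
  simp only [mem_filter]
  constructor
  · rintro ⟨h1, h2⟩
    exact ⟨⟨h1, by rw [h2]; exact (mem_filter.1 hj).2⟩, h2⟩
  · rintro ⟨⟨h1, _⟩, h2⟩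
    exact ⟨h1, h2⟩

lemma round_empty {E α : Type} [DecidableEq E] [DecidableEq α] (S F : Finset E) (hF : F ⊆ S)
    (a : E → α) (x : E → ℝ) (i : α) (hi : i ∉ S.image a) :
    |((F.filter fun e => a e = i).card : ℝ) - ∑ e ∈ S.filter fun e => a e = i, x e| < 1 := by
  have h1 : (S.filter fun e => a e = i) = ∅ :=
    filter_eq_empty_iff.2 fun e he h => hi (h ▸ mem_image_of_mem _ he)
  have h2 : (F.filter fun e => a e = i) = ∅ :=
    filter_eq_empty_iff.2 fun e he h => hi (h ▸ mem_image_of_mem _ (hF he))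
  rw [h1, h2]
  simp

/-- Rounding with respect to a partition `a` and a two-level partition `b`, `c ∘ b`. -/
theorem round3 {E α β γ : Type} [DecidableEq E] [DecidableEq α] [DecidableEq β] [DecidableEq γ]
    (S : Finset E) (a : E → α) (b : E → β) (c : β → γ) (x : E → ℝ)
    (h0 : ∀ e ∈ S, 0 ≤ x e) (h1 : ∀ e ∈ S, x e ≤ 1) :
    ∃ F ⊆ S, (∀ e ∈ F, 0 < x e) ∧
      (∀ i, |((F.filter fun e => a e = i).card : ℝ) - ∑ e ∈ S.filter fun e => a e = i, x e| < 1) ∧
      (∀ j, |((F.filter fun e => b e = j).card : ℝ) - ∑ e ∈ S.filter fun e => b e = j, x e| < 1) ∧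
      (∀ l, |((F.filter fun e => c (b e) = l).card : ℝ) -
        ∑ e ∈ S.filter fun e => c (b e) = l, x e| < 1) := by
  let f : E ⊕ α ⊕ β ⊕ γ → ℝ := Sum.elim x (Sum.elim
    (fun i => ∑ e ∈ S.filter (fun e => a e = i), x e) (Sum.elim
    (fun j => ∑ e ∈ S.filter (fun e => b e = j), x e)
    (fun l => ∑ e ∈ S.filter (fun e => c (b e) = l), x e)))
  set I := S.image a with hI
  set J := S.image b with hJ
  set L := S.image (fun e => c (b e)) with hL
  have hf : roundCons (S.disjSum (I.disjSum (J.disjSum L))) (roundT a) (roundH b c) f := by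
    rw [round_cons_iff]
    simp only [f, Sum.elim_inl, Sum.elim_inr]
    refine ⟨?_, fun i => ?_, fun j => ?_, fun l => ?_⟩
    · rw [sum_fiberwise_of_maps_to (fun e he => mem_image_of_mem a he),
        sum_fiberwise_of_maps_to (g := fun e => c (b e))
          (fun e he => mem_image_of_mem (fun e => c (b e)) he)]
    · split_ifs with hi
      · rfl
      · exact sum_eq_zero fun e he =>
          absurd ((mem_filter.1 he).2 ▸ mem_image_of_mem a (mem_filter.1 he).1) hi
    · split_ifs with hj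
      · rfl
      · exact (sum_eq_zero fun e he =>
          absurd ((mem_filter.1 he).2 ▸ mem_image_of_mem b (mem_filter.1 he).1) hj).symm
    · rw [round_fib2]
      split_ifs with hl
      · rfl
      · exact (sum_eq_zero fun e he => absurd ((mem_filter.1 he).2 ▸
          mem_image_of_mem (fun e => c (b e)) (mem_filter.1 he).1) hl).symm
  obtain ⟨g, hg, hgb⟩ := round_circ _ (roundT a) (roundH b c) _ f rfl hf
  rw [round_cons_iff] at hg
  obtain ⟨-, hga, hgj, hgl⟩ := hg
  have hS : ∀ e ∈ S, ⌊x e⌋ ≤ g (Sum.inl e) ∧ g (Sum.inl e) ≤ ⌈x e⌉ :=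
    fun e he => hgb (Sum.inl e) (by simp [he])
  have h01 : ∀ e ∈ S, g (Sum.inl e) = 0 ∨ g (Sum.inl e) = 1 := by
    intro e he
    have h2 : 0 ≤ ⌊x e⌋ := Int.floor_nonneg.2 (h0 e he)
    have h3 : ⌈x e⌉ ≤ 1 := Int.ceil_le.2 (by simpa using h1 e he)
    have := hS e he
    omega
  set F := S.filter fun e => g (Sum.inl e) = 1 with hF
  have hcard : ∀ (p : E → Prop) [DecidablePred p], ((F.filter p).card : ℝ) =
      ∑ e ∈ S.filter p, (g (Sum.inl e) : ℝ) := by
    intro p _
    rw [hF, filter_comm, card_filter]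
    push_cast
    refine sum_congr rfl fun e he => ?_
    rcases h01 e (mem_filter.1 he).1 with h | h <;> simp [h]
  refine ⟨F, filter_subset _ _, fun e he => ?_, fun i => ?_, fun j => ?_, fun l => ?_⟩
  · have h2 := (hS e (mem_filter.1 he).1).2
    rw [(mem_filter.1 he).2] at h2
    exact Int.ceil_pos.1 (by omega)
  · by_cases hi : i ∈ I
    · rw [hcard, hga i, if_pos hi]
      exact round_abs (hgb (Sum.inr (Sum.inl i)) (by simp [hi]))
    · exact round_empty S F (filter_subset _ _) a x i hi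
  · by_cases hj : j ∈ J
    · rw [hcard, ← hgj j, if_pos hj]
      exact round_abs (hgb (Sum.inr (Sum.inr (Sum.inl j))) (by simp [hj]))
    · exact round_empty S F (filter_subset _ _) b x j hj
  · by_cases hl : l ∈ L
    · have h2 := hgl l
      rw [if_pos hl] at h2
      have h3 : ∑ j ∈ J.filter (fun j => c j = l), (g (Sum.inr (Sum.inr (Sum.inl j))) : ℝ) =
          ∑ j ∈ J.filter (fun j => c j = l),
            ∑ e ∈ S.filter (fun e => b e = j), (g (Sum.inl e) : ℝ) := by
        refine sum_congr rfl fun j hj => ?_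
        rw [← hgj j, if_pos (mem_filter.1 hj).1]
      rw [hcard, ← round_fib2, ← h3, ← h2]
      exact round_abs (hgb (Sum.inr (Sum.inr (Sum.inr l))) (by simp [hl]))
    · exact round_empty S F (filter_subset _ _) (fun e => c (b e)) x l hl

lemma round_arith (N f m h : ℕ) (hh : 0 < h) (hfN : f ≤ N)
    (h1 : |(f : ℝ) - (N : ℝ) / ((h + 1 : ℕ) : ℝ)| < 1)
    (h2 : |(m : ℝ) - ((N - f : ℕ) : ℝ) / h| < 1) :
    |(m : ℝ) - (N : ℝ) / ((h + 1 : ℕ) : ℝ)| < 1 := by
  have hh' : (0 : ℝ) < h := by exact_mod_cast hh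
  have hh1 : (0 : ℝ) < ((h + 1 : ℕ) : ℝ) := by positivity
  have conv : ∀ (u v : ℝ) (k : ℝ), 0 < k → (|u - v / k| < 1 ↔ -k < u * k - v ∧ u * k - v < k) := by
    intro u v k hk
    have : u - v / k = (u * k - v) / k := by field_simp
    rw [this, abs_div, abs_of_pos hk, div_lt_one hk, abs_lt]
  rw [conv _ _ _ hh1] at h1 ⊢
  rw [conv _ _ _ hh', Nat.cast_sub hfN] at h2
  obtain ⟨a1, a2⟩ := h1
  obtain ⟨b1, b2⟩ := h2
  have a1' : -((h : ℤ) + 1) < (f : ℤ) * (h + 1) - N := by exact_mod_cast a1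
  have a2' : (f : ℤ) * (h + 1) - N < (h : ℤ) + 1 := by exact_mod_cast a2
  have b1' : -(h : ℤ) < (m : ℤ) * h - (N - f) := by exact_mod_cast b1
  have b2' : (m : ℤ) * h - (N - f) < h := by exact_mod_cast b2
  have hz : (0 : ℤ) < h := by exact_mod_cast hh
  have key : -((h : ℤ) + 1) < (m : ℤ) * (h + 1) - N ∧ (m : ℤ) * (h + 1) - N < (h : ℤ) + 1 := by
    obtain ⟨d, hd⟩ : ∃ d : ℤ, (m : ℤ) = f + d := ⟨m - f, by ring⟩
    rw [hd] at b1' b2' ⊢
    have hd1 : d < 2 := by nlinarith
    have hd2 : -2 < d := by nlinarith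
    have : d = -1 ∨ d = 0 ∨ d = 1 := by omega
    rcases this with rfl | rfl | rfl <;> constructor <;> nlinarith
  exact ⟨by exact_mod_cast key.1, by exact_mod_cast key.2⟩

lemma round_step {E δ : Type} [DecidableEq E] [DecidableEq δ] (S F : Finset E) (hF : F ⊆ S)
    (k : E → δ) (h : ℕ) (hh : 0 < h) (col : E → Fin h) (i : δ)
    (h1 : |((F.filter fun e => k e = i).card : ℝ) -
      ∑ _e ∈ S.filter (fun e => k e = i), (1 : ℝ) / ((h + 1 : ℕ) : ℝ)| < 1)
    (h2 : ∀ σ : Fin h, |(((S \ F).filter fun e => k e = i ∧ col e = σ).card : ℝ) -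
        (((S \ F).filter fun e => k e = i).card : ℝ) / h| < 1) (σ : Fin (h + 1)) :
    |((S.filter fun e => k e = i ∧ (if e ∈ F then 0 else (col e).succ) = σ).card : ℝ) -
        ((S.filter fun e => k e = i).card : ℝ) / ((h + 1 : ℕ) : ℝ)| < 1 := by
  rw [sum_const, nsmul_eq_mul, mul_one_div] at h1
  refine Fin.cases ?_ (fun τ => ?_) σ
  · have : (S.filter fun e => k e = i ∧ (if e ∈ F then 0 else (col e).succ) = (0 : Fin (h + 1))) =
        F.filter fun e => k e = i := by
      ext e
      simp only [mem_filter]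
      by_cases he : e ∈ F
      · simp [he, hF he]
      · simp [he]
    rw [this]
    exact h1
  · have e1 : (S.filter fun e => k e = i ∧ (if e ∈ F then 0 else (col e).succ) = τ.succ) =
        (S \ F).filter fun e => k e = i ∧ col e = τ := by
      ext e
      simp only [mem_filter, mem_sdiff]
      by_cases he : e ∈ F
      · simp [he, (Fin.succ_ne_zero τ).symm]
      · simp [he]
    have hsub : (F.filter fun e => k e = i) ⊆ S.filter fun e => k e = i :=
      filter_subset_filter _ hF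
    have e2 : ((S \ F).filter fun e => k e = i).card =
        (S.filter fun e => k e = i).card - (F.filter fun e => k e = i).card := by
      rw [← card_sdiff_of_subset hsub]
      congr 1
      ext e
      simp only [mem_filter, mem_sdiff]
      tauto
    rw [e1]
    have h3 := h2 τ
    rw [e2] at h3
    exact round_arith _ _ _ h hh (card_le_card hsub) h1 h3

/-- Equitable colouring. -/
theorem equi {E α β γ : Type} [DecidableEq E] [DecidableEq α] [DecidableEq β] [DecidableEq γ]
    (S : Finset E) (a : E → α) (b : E → β) (c : β → γ) (h : ℕ) (hh : 0 < h) :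
    ∃ col : E → Fin h, ∀ σ : Fin h,
      (∀ i, |((S.filter fun e => a e = i ∧ col e = σ).card : ℝ) -
        ((S.filter fun e => a e = i).card : ℝ) / h| < 1) ∧
      (∀ j, |((S.filter fun e => b e = j ∧ col e = σ).card : ℝ) -
        ((S.filter fun e => b e = j).card : ℝ) / h| < 1) ∧
      (∀ l, |((S.filter fun e => c (b e) = l ∧ col e = σ).card : ℝ) -
        ((S.filter fun e => c (b e) = l).card : ℝ) / h| < 1) := by
  obtain ⟨h, rfl⟩ : ∃ k, h = k + 1 := ⟨h - 1, by omega⟩
  clear hh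
  induction h generalizing S with
  | zero =>
    refine ⟨fun _ => 0, fun σ => ?_⟩
    have hσ : (0 : Fin (0 + 1)) = σ := Subsingleton.elim (α := Fin 1) _ _
    simp [hσ]
  | succ h ih =>
    have hpos : (0 : ℝ) < ((h + 1 + 1 : ℕ) : ℝ) := by positivity
    obtain ⟨F, hF, -, ha, hb, hc⟩ := round3 S a b c (fun _ => (1 : ℝ) / ((h + 1 + 1 : ℕ) : ℝ))
      (fun _ _ => by positivity) (fun _ _ => by
        rw [div_le_one hpos]; exact_mod_cast Nat.succ_le_succ (Nat.zero_le _))
    obtain ⟨col, hcol⟩ := ih (S \ F)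
    refine ⟨fun e => if e ∈ F then 0 else (col e).succ, fun σ => ⟨fun i => ?_, fun j => ?_,
      fun l => ?_⟩⟩
    · exact round_step S F hF a (h + 1) (Nat.succ_pos _) col i (ha i) (fun τ => (hcol τ).1 i) σ
    · exact round_step S F hF b (h + 1) (Nat.succ_pos _) col j (hb j) (fun τ => (hcol τ).2.1 j) σ
    · exact round_step S F hF (fun e => c (b e)) (h + 1) (Nat.succ_pos _) col l (hc l)
        (fun τ => (hcol τ).2.2 l) σ

lemma round_nat_eq {m k : ℕ} (h : |(m : ℝ) - k| < 1) : m = k := by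
  rw [abs_lt] at h
  have h1 : (k : ℝ) < m + 1 := by linarith [h.1]
  have h2 : (m : ℝ) < k + 1 := by linarith [h.2]
  have h1' : k < m + 1 := by exact_mod_cast h1
  have h2' : m < k + 1 := by exact_mod_cast h2
  omega

lemma round_nat_le {m : ℕ} {y : ℝ} (h : |(m : ℝ) - y| < 1) (hy : y ≤ 1) : m ≤ 1 := by
  rw [abs_lt] at h
  have h2 : (m : ℝ) < 2 := by linarith [h.2]
  have h2' : m < 2 := by exact_mod_cast h2
  omega

/-- Colouring of a bipartite graph with one special colour. -/
theorem block {E α β : Type} [DecidableEq E] [DecidableEq α] [DecidableEq β]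
    (S : Finset E) (a : E → α) (b : E → β) (cs : Finset ℕ) (c0 : ℕ) (hc0 : c0 ∈ cs)
    (h2 : 2 ≤ cs.card) (T : Finset α) (sd : α → ℕ) (hsd : ∀ x ∈ T, sd x ≤ 2)
    (hS : ∀ e ∈ S, a e ∈ T)
    (ha : ∀ x ∈ T, (S.filter fun e => a e = x).card = 2 * (cs.card - 1) + sd x)
    (hb : ∀ w, 2 * (S.filter fun e => b e = w).card ≤ cs.card) :
    ∃ col : E → ℕ, (∀ e ∈ S, col e ∈ cs) ∧
      (∀ x ∈ T, ∀ c ∈ cs, (S.filter fun e => a e = x ∧ col e = c).card =
        if c = c0 then sd x else 2) ∧
      ∀ w c, (S.filter fun e => b e = w ∧ col e = c).card ≤ 1 := by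
  obtain ⟨h, hh⟩ : ∃ h, cs.card = h + 1 := ⟨cs.card - 1, by omega⟩
  have hh0 : 0 < h := by omega
  have hhR : (1 : ℝ) ≤ h := by exact_mod_cast hh0
  simp only [hh, Nat.add_sub_cancel] at ha hb
  have hx : ∀ e ∈ S, (sd (a e) : ℝ) / (2 * h + sd (a e)) ≤ 1 / (h + 1) := by
    intro e he
    have h3 : (sd (a e) : ℝ) ≤ 2 := by exact_mod_cast hsd _ (hS e he)
    have h4 : (0 : ℝ) ≤ sd (a e) := Nat.cast_nonneg _
    rw [div_le_div_iff₀ (by linarith) (by linarith)]
    nlinarith
  obtain ⟨F, hF, -, hFa, hFb, -⟩ := round3 S a b (fun _ => ())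
    (fun e => (sd (a e) : ℝ) / (2 * h + sd (a e))) (fun _ _ => by positivity)
    (fun e he => (hx e he).trans (by rw [div_le_one (by linarith)]; linarith))
  have hFa' : ∀ x ∈ T, (F.filter fun e => a e = x).card = sd x := by
    intro x hxT
    apply round_nat_eq
    have h3 := hFa x
    have h4 : ∑ e ∈ S.filter (fun e => a e = x), (sd (a e) : ℝ) / (2 * h + sd (a e)) = sd x := by
      rw [sum_congr rfl (g := fun _ => (sd x : ℝ) / (2 * h + sd x))
        (fun e he => by rw [(mem_filter.1 he).2]), sum_const, ha x hxT, nsmul_eq_mul]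
      have h5 : (0 : ℝ) ≤ sd x := Nat.cast_nonneg _
      have h6 : (2 * (h : ℝ) + sd x) ≠ 0 := by linarith
      push_cast
      field_simp
    rwa [h4] at h3
  have hbR : ∀ w, 2 * ((S.filter fun e => b e = w).card : ℝ) ≤ h + 1 := fun w => by
    exact_mod_cast hb w
  have hFb' : ∀ w, (F.filter fun e => b e = w).card ≤ 1 := by
    intro w
    refine round_nat_le (hFb w) ?_
    refine (sum_le_sum fun e he => hx e (mem_filter.1 he).1).trans ?_
    rw [sum_const, nsmul_eq_mul, mul_one_div, div_le_one (by linarith)]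
    linarith [hbR w]
  obtain ⟨col, hcol⟩ := equi (S \ F) a b (fun _ => ()) h hh0
  have hce : (cs.erase c0).card = h := by rw [card_erase_of_mem hc0]; omega
  let φ : Fin h ↪o ℕ := (cs.erase c0).orderEmbOfFin hce
  have hφ : ∀ σ, φ σ ∈ cs.erase c0 := fun σ => orderEmbOfFin_mem _ _ σ
  have hφs : ∀ c ∈ cs.erase c0, ∃ σ, φ σ = c := by
    intro c hc
    have : c ∈ Set.range φ := by
      rw [range_orderEmbOfFin]
      exact hc
    exact this
  have e0 : ∀ (p : E → Prop) [DecidablePred p],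
      (S.filter fun e => p e ∧ (if e ∈ F then c0 else φ (col e)) = c0) = F.filter p := by
    intro p _
    ext e
    simp only [mem_filter]
    by_cases he : e ∈ F
    · simp [he, hF he]
    · simp [he, (mem_erase.1 (hφ (col e))).1]
  have e1 : ∀ (p : E → Prop) [DecidablePred p] (σ : Fin h),
      (S.filter fun e => p e ∧ (if e ∈ F then c0 else φ (col e)) = φ σ) =
        (S \ F).filter fun e => p e ∧ col e = σ := by
    intro p _ σ
    ext e
    simp only [mem_filter, mem_sdiff]
    by_cases he : e ∈ F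
    · simp [he, (mem_erase.1 (hφ σ)).1.symm]
    · simp [he]
  refine ⟨fun e => if e ∈ F then c0 else φ (col e), fun e _ => ?_, fun x hxT c hc => ?_,
    fun w c => ?_⟩
  · dsimp only
    split_ifs
    · exact hc0
    · exact (mem_erase.1 (hφ _)).2
  · split_ifs with hcc
    · rw [hcc, e0 (fun e => a e = x), hFa' x hxT]
    · obtain ⟨σ, rfl⟩ := hφs c (mem_erase.2 ⟨hcc, hc⟩)
      rw [e1 (fun e => a e = x)]
      apply round_nat_eq
      have h3 := (hcol σ).1 x
      have hsub : (F.filter fun e => a e = x) ⊆ S.filter fun e => a e = x :=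
        filter_subset_filter _ hF
      have e2 : ((S \ F).filter fun e => a e = x).card = 2 * h := by
        have : ((S \ F).filter fun e => a e = x) =
            (S.filter fun e => a e = x) \ (F.filter fun e => a e = x) := by
          ext e
          simp only [mem_filter, mem_sdiff]
          tauto
        rw [this, card_sdiff_of_subset hsub, ha x hxT, hFa' x hxT]
        omega
      rw [e2] at h3
      have h4 : ((2 * h : ℕ) : ℝ) / h = ((2 : ℕ) : ℝ) := by
        push_cast
        field_simp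
      rwa [h4] at h3
  · by_cases hcc : c = c0
    · rw [hcc, e0 (fun e => b e = w)]
      exact hFb' w
    · by_cases hc : c ∈ cs
      · obtain ⟨σ, rfl⟩ := hφs c (mem_erase.2 ⟨hcc, hc⟩)
        rw [e1 (fun e => b e = w)]
        refine round_nat_le ((hcol σ).2.1 w) ?_
        have h3 : (((S \ F).filter fun e => b e = w).card : ℝ) ≤
            ((S.filter fun e => b e = w).card : ℝ) := by
          exact_mod_cast card_le_card (filter_subset_filter _ sdiff_subset)
        rw [div_le_one (by linarith)]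
        linarith [hbR w]
      · rw [filter_eq_empty_iff.2]
        · simp
        · rintro e _ ⟨-, h3⟩
          apply hc
          rw [← h3]
          dsimp only
          split_ifs
          · exact hc0
          · exact (mem_erase.1 (hφ _)).2

end

end Pool.Agent.MP_1376f1_pr

end
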