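import Pool.Agent.MP_1376f1_pr.Mg.Conv
import Pool.Agent.MP_1376f1_pr.Mg.Round

-- part MP_1376f1_pr.Detach
section

/-!
Detachment of an amalgamated vertex, one vertex at a time.
-/

set_option autoImplicit false
set_option linter.unusedSectionVars false

namespace Pool.Agent.MP_1376f1_pr

open Finset MP_d802e4_co
open scoped Classical

noncomputable section

variable {V : Type} [Fintype V] [DecidableEq V]

/-- the component of `w` -/
def detach_comp (F : Finset (Sym2 V)) (w : V) : Finset V :=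
  univ.filter fun v => ∀ S, Closed F S → w ∈ S → v ∈ S

lemma detach_mem_comp (F : Finset (Sym2 V)) (w : V) : w ∈ detach_comp F w :=
  mem_filter.2 ⟨mem_univ _, fun _ _ h => h⟩

lemma detach_comp_sub {F : Finset (Sym2 V)} {S : Finset V} {w : V} (hS : Closed F S)
    (hw : w ∈ S) : detach_comp F w ⊆ S := fun _ hv => (mem_filter.1 hv).2 S hS hw

lemma detach_comp_closed (F : Finset (Sym2 V)) (w : V) : Closed F (detach_comp F w) :=
  fun v hv _ hu => mem_filter.2 ⟨mem_univ _, fun S hS hw =>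
    hS v ((mem_filter.1 hv).2 S hS hw) hu⟩

lemma detach_comp_eq {F : Finset (Sym2 V)} {v w : V} (h : v ∈ detach_comp F w) :
    detach_comp F v = detach_comp F w := by
  apply subset_antisymm (detach_comp_sub (detach_comp_closed F w) h)
  apply detach_comp_sub (detach_comp_closed F v)
  by_contra hn
  have h2 := detach_comp_sub (detach_comp_closed F v).compl (mem_compl.2 hn) h
  exact mem_compl.1 h2 (detach_mem_comp F v)

/-- add the star from `z` to `N` -/
def detach_ext (F : Finset (Sym2 V)) (N : Finset V) (z : V) : Finset (Sym2 V) :=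
  F ∪ N.image fun w => s(w, z)

lemma detach_mem_ext {F : Finset (Sym2 V)} {N : Finset V} {z : V} {e : Sym2 V} :
    e ∈ detach_ext F N z ↔ e ∈ F ∨ ∃ w ∈ N, s(w, z) = e := by
  simp [detach_ext]

lemma detach_sub_ext (F : Finset (Sym2 V)) (N : Finset V) (z : V) : F ⊆ detach_ext F N z :=
  subset_union_left

lemma detach_nb_z {W N : Finset V} {F : Finset (Sym2 V)} {z : V} (hF : On W F) (hz : z ∉ W)
    (hN : N ⊆ W) : nb (detach_ext F N z) z = N := by
  ext u
  rw [mem_nb, detach_mem_ext]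
  constructor
  · rintro (h | ⟨w, hw, h⟩)
    · exact absurd (hF.mk_mem h).2.1 hz
    · rcases Sym2.eq_iff.1 h with ⟨h1, _⟩ | ⟨h1, _⟩
      · exact absurd (h1 ▸ hN hw) hz
      · exact h1 ▸ hw
  · intro hu
    exact Or.inr ⟨u, hu, Sym2.eq_swap⟩

lemma detach_nb_w {N : Finset V} {F : Finset (Sym2 V)} {z w : V} (hw : w ≠ z) :
    nb (detach_ext F N z) w = if w ∈ N then insert z (nb F w) else nb F w := by
  ext u
  rw [mem_nb, detach_mem_ext]
  constructor
  · rintro (h | ⟨x, hx, h⟩)
    · split_ifs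
      · exact mem_insert_of_mem (mem_nb.2 h)
      · exact mem_nb.2 h
    · rcases Sym2.eq_iff.1 h with ⟨h1, h2⟩ | ⟨_, h2⟩
      · subst h1; subst h2
        rw [if_pos hx]; exact mem_insert_self _ _
      · exact absurd h2.symm hw
  · intro hu
    split_ifs at hu with h
    · rcases mem_insert.1 hu with rfl | hu
      · exact Or.inr ⟨w, h, rfl⟩
      · exact Or.inl (mem_nb.1 hu)
    · exact Or.inl (mem_nb.1 hu)

lemma detach_dg_z {W N : Finset V} {F : Finset (Sym2 V)} {z : V} (hF : On W F) (hz : z ∉ W)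
    (hN : N ⊆ W) : dg (detach_ext F N z) z = N.card := by
  unfold dg; rw [detach_nb_z hF hz hN]

lemma detach_dg_w {W N : Finset V} {F : Finset (Sym2 V)} {z w : V} (hF : On W F) (hz : z ∉ W)
    (hw : w ≠ z) : dg (detach_ext F N z) w = dg F w + if w ∈ N then 1 else 0 := by
  unfold dg; rw [detach_nb_w hw]
  split_ifs with h
  · exact card_insert_of_notMem fun h' => hz (hF.nb_subset w h')
  · rfl

lemma detach_on_ext {W N : Finset V} {F : Finset (Sym2 V)} {z : V} (hF : On W F) (hz : z ∉ W)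
    (hN : N ⊆ W) : On (insert z W) (detach_ext F N z) := by
  intro e he
  rcases detach_mem_ext.1 he with h | ⟨w, hw, rfl⟩
  · exact ⟨(hF e h).1, fun v hv => mem_insert_of_mem ((hF e h).2 v hv)⟩
  · refine ⟨fun h => hz (Sym2.mk_isDiag_iff.1 h ▸ hN hw), fun v hv => ?_⟩
    rcases Sym2.mem_iff.1 hv with rfl | rfl
    · exact mem_insert_of_mem (hN hw)
    · exact mem_insert_self _ _

lemma detach_card_fib (W : Finset V) (𝒞 : Finset ℕ) (R : Finset (V × ℕ)) (hR : R ⊆ W ×ˢ 𝒞)
    (c : ℕ) (P : V × ℕ → Prop) [DecidablePred P] (Q : V → Prop) [DecidablePred Q]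
    (h : ∀ e, P e ↔ e.2 = c ∧ Q e.1) :
    (R.filter P).card = ((W.filter fun w => (w, c) ∈ R).filter Q).card := by
  apply card_bij (fun e _ => e.1)
  · intro e he
    rcases mem_filter.1 he with ⟨h1, h2⟩
    rcases (h e).1 h2 with ⟨h3, h4⟩
    refine mem_filter.2 ⟨mem_filter.2 ⟨(mem_product.1 (hR h1)).1, ?_⟩, h4⟩
    rw [← h3]; exact h1
  · intro e he e' he' hee
    have h1 := ((h e).1 (mem_filter.1 he).2).1
    have h2 := ((h e').1 (mem_filter.1 he').2).1
    exact Prod.ext hee (h1.trans h2.symm)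
  · intro w hw
    rcases mem_filter.1 hw with ⟨h1, h2⟩
    exact ⟨(w, c), mem_filter.2 ⟨(mem_filter.1 h1).2, (h _).2 ⟨rfl, h2⟩⟩, rfl⟩

lemma detach_sum_fib (W : Finset V) (𝒞 : Finset ℕ) (c : ℕ) (hc : c ∈ 𝒞) (P : V × ℕ → Prop)
    [DecidablePred P] (Q : V → Prop) [DecidablePred Q] (h : ∀ e, P e ↔ e.2 = c ∧ Q e.1)
    (x : V × ℕ → ℝ) :
    ∑ e ∈ (W ×ˢ 𝒞).filter P, x e = ∑ w ∈ W.filter Q, x (w, c) := by
  apply sum_bij (fun e _ => e.1)
  · intro e he
    rcases mem_filter.1 he with ⟨h1, h2⟩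
    exact mem_filter.2 ⟨(mem_product.1 h1).1, ((h e).1 h2).2⟩
  · intro e he e' he' hee
    have h1 := ((h e).1 (mem_filter.1 he).2).1
    have h2 := ((h e').1 (mem_filter.1 he').2).1
    exact Prod.ext hee (h1.trans h2.symm)
  · intro w hw
    rcases mem_filter.1 hw with ⟨h1, h2⟩
    exact ⟨(w, c), mem_filter.2 ⟨mem_product.2 ⟨h1, hc⟩, (h _).2 ⟨rfl, h2⟩⟩, rfl⟩
  · intro e he
    have h1 := ((h e).1 (mem_filter.1 he).2).1
    rw [← h1]

/-- the rounding step -/
lemma detach_round (𝒞 : Finset ℕ) (W : Finset V) (F : ℕ → Finset (Sym2 V)) (d : ℕ → V → ℕ)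
    (u : ℕ) (hu : 0 < u) (hd : ∀ w ∈ W, ∑ c ∈ 𝒞, d c w = u) :
    ∃ N : ℕ → Finset V, (∀ c, N c ⊆ W) ∧ (∀ w ∈ W, (𝒞.filter fun c => w ∈ N c).card = 1) ∧
      (∀ c, ∀ w ∈ N c, 0 < d c w) ∧
      (∀ c ∈ 𝒞, |((N c).card : ℝ) - (∑ w ∈ W, d c w : ℕ) / u| < 1) ∧
      ∀ c ∈ 𝒞, ∀ K, (((N c).filter fun w => detach_comp (F c) w = K).card : ℝ) <
        (∑ w ∈ W.filter fun w => detach_comp (F c) w = K, d c w : ℕ) / u + 1 := by
  have hu' : (0 : ℝ) < u := by exact_mod_cast hu
  obtain ⟨R, hR, hpos, ha, hb, hc⟩ := round3 (W ×ˢ 𝒞) (fun e => e.1)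
    (fun e => (e.2, detach_comp (F e.2) e.1)) (fun j => j.1) (fun e => (d e.2 e.1 : ℝ) / u)
    (fun e _ => by positivity)
    (fun e he => by
      rcases mem_product.1 he with ⟨h1, h2⟩
      rw [div_le_one hu']
      have h3 : d e.2 e.1 ≤ ∑ c ∈ 𝒞, d c e.1 :=
        single_le_sum (f := fun c => d c e.1) (fun _ _ => Nat.zero_le _) h2
      rw [hd _ h1] at h3
      exact_mod_cast h3)
  refine ⟨fun c => W.filter fun w => (w, c) ∈ R, fun c => filter_subset _ _, ?_, ?_, ?_, ?_⟩
  · intro w hw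
    have h1 := ha w
    have h2 : ∑ e ∈ (W ×ˢ 𝒞).filter fun e => e.1 = w, (d e.2 e.1 : ℝ) / u = 1 := by
      have h3 : ∑ e ∈ (W ×ˢ 𝒞).filter fun e => e.1 = w, (d e.2 e.1 : ℝ) / u =
          ∑ c ∈ 𝒞, (d c w : ℝ) / u := by
        apply sum_bij (fun e _ => e.2)
        · intro e he
          exact (mem_product.1 (mem_filter.1 he).1).2
        · intro e he e' he' hee
          exact Prod.ext ((mem_filter.1 he).2.trans (mem_filter.1 he').2.symm) hee
        · intro c hc
          exact ⟨(w, c), mem_filter.2 ⟨mem_product.2 ⟨hw, hc⟩, rfl⟩, rfl⟩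
        · intro e he
          rw [(mem_filter.1 he).2]
      rw [h3, ← sum_div, div_eq_one_iff_eq hu'.ne']
      exact_mod_cast hd w hw
    have h4 : (R.filter fun e => e.1 = w).card =
        (𝒞.filter fun c => w ∈ W.filter fun w => (w, c) ∈ R).card := by
      apply card_bij (fun e _ => e.2)
      · intro e he
        rcases mem_filter.1 he with ⟨h5, h6⟩
        refine mem_filter.2 ⟨(mem_product.1 (hR h5)).2, mem_filter.2 ⟨hw, ?_⟩⟩
        rw [← h6]; exact h5
      · intro e he e' he' hee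
        exact Prod.ext ((mem_filter.1 he).2.trans (mem_filter.1 he').2.symm) hee
      · intro c hc
        exact ⟨(w, c), mem_filter.2 ⟨(mem_filter.1 (mem_filter.1 hc).2).2, rfl⟩, rfl⟩
    rw [h2, h4, abs_lt] at h1
    have h5 : (0 : ℝ) < ((𝒞.filter fun c => w ∈ W.filter fun w => (w, c) ∈ R).card : ℝ) := by
      linarith [h1.1]
    have h6 : ((𝒞.filter fun c => w ∈ W.filter fun w => (w, c) ∈ R).card : ℝ) < (2 : ℕ) := by
      push_cast; linarith [h1.2]
    exact le_antisymm (Nat.lt_succ_iff.1 (Nat.cast_lt.1 h6)) (Nat.cast_pos.1 h5)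
  · intro c w hw
    have h1 := hpos _ (mem_filter.1 hw).2
    have h2 := (div_pos_iff_of_pos_right hu').1 h1
    exact_mod_cast h2
  · intro c hc'
    have h1 := hc c
    rw [detach_card_fib W 𝒞 R hR c _ (fun _ => True) (fun e => by simp),
      detach_sum_fib W 𝒞 c hc' _ (fun _ => True) (fun e => by simp), filter_true, filter_true,
      ← sum_div] at h1
    push_cast
    exact h1
  · intro c hc' K
    have h1 := hb (c, K)
    have hP : ∀ e : V × ℕ, (e.2, detach_comp (F e.2) e.1) = (c, K) ↔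
        e.2 = c ∧ detach_comp (F c) e.1 = K := by
      intro e
      rw [Prod.mk.injEq]
      constructor
      · rintro ⟨h1, h2⟩; exact ⟨h1, h1 ▸ h2⟩
      · rintro ⟨h1, h2⟩; exact ⟨h1, h1 ▸ h2⟩
    rw [detach_card_fib W 𝒞 R hR c _ (fun w => detach_comp (F c) w = K) hP,
      detach_sum_fib W 𝒞 c hc' _ (fun w => detach_comp (F c) w = K) hP, ← sum_div, abs_lt] at h1
    push_cast
    linarith [h1.2]

/-- a nonempty closed set all of whose degrees are at least two contains `z` -/
lemma detach_z_mem {W N S : Finset V} {F : Finset (Sym2 V)} {z : V} (hF : On W F) (hz : z ∉ W)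
    (hno : NoCyc F) (hS : S.Nonempty) (hcl : Closed (detach_ext F N z) S)
    (h2 : ∀ v ∈ S, 2 ≤ dg (detach_ext F N z) v) : z ∈ S := by
  by_contra hzS
  obtain ⟨v, hv, hv1⟩ := hno S hS fun v hv => (nb_mono (detach_sub_ext F N z) v).trans (hcl v hv)
  have hvz : v ≠ z := fun h => hzS (h ▸ hv)
  have h3 := h2 v hv
  rw [detach_dg_w hF hz hvz] at h3
  have hvN : v ∈ N := by
    by_contra h
    rw [if_neg h] at h3
    omega
  apply hzS
  apply hcl v hv
  rw [detach_nb_w hvz, if_pos hvN]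
  exact mem_insert_self _ _

/-- preservation of `NoCyc` -/
lemma detach_nocyc {W N : Finset V} {F : Finset (Sym2 V)} {z : V} (hF : On W F) (hz : z ∉ W)
    (hN : N ⊆ W) (hno : NoCyc F) (u : ℕ) (hu : 2 ≤ u) (hN2 : N.card ≤ 2)
    (hle : ∀ w ∈ W, dg F w ≤ 2) (hlt : ∀ w ∈ N, dg F w < 2)
    (hK : ∀ K, ((N.filter fun w => detach_comp F w = K).card : ℝ) <
        (∑ w ∈ W.filter fun w => detach_comp F w = K, (2 - dg F w) : ℕ) / u + 1) :
    NoCyc (detach_ext F N z) := by
  intro S hS hcl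
  by_contra hcon
  have h2 : ∀ v ∈ S, 2 ≤ dg (detach_ext F N z) v := fun v hv => by
    by_contra h
    exact hcon ⟨v, hv, by omega⟩
  have hzS := detach_z_mem hF hz hno hS hcl h2
  have hNc : 2 ≤ N.card := by
    have := h2 z hzS
    rwa [detach_dg_z hF hz hN] at this
  have hNS : N ⊆ S := by
    have := hcl z hzS
    rwa [detach_nb_z hF hz hN] at this
  obtain ⟨w, hw⟩ : N.Nonempty := card_pos.1 (by omega)
  have hS' : Closed F (S.erase z) := by
    intro v hv x hx
    refine mem_erase.2 ⟨fun h => hz (h ▸ hF.nb_subset v hx), ?_⟩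
    exact hcl v (mem_erase.1 hv).2 (nb_mono (detach_sub_ext F N z) v hx)
  have hwS : w ∈ S.erase z := mem_erase.2 ⟨fun h => hz (h ▸ hN hw), hNS hw⟩
  have hKS := detach_comp_sub hS' hwS
  have hdeg : ∀ v ∈ detach_comp F w, dg F v + (if v ∈ N then 1 else 0) = 2 := by
    intro v hv
    rcases mem_erase.1 (hKS hv) with ⟨h3, h4⟩
    have h5 := h2 v h4
    rw [detach_dg_w hF hz h3] at h5
    split_ifs at h5 ⊢ with h6
    · have := hlt v h6
      omega
    · by_cases h7 : v ∈ W
      · have := hle v h7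
        omega
      · rw [hF.dg_eq_zero h7] at h5
        omega
  have hsum : ∑ v ∈ detach_comp F w, dg F v + ((detach_comp F w).filter fun v => v ∈ N).card =
      2 * (detach_comp F w).card := by
    rw [card_filter, ← sum_add_distrib, sum_congr rfl hdeg, sum_const, smul_eq_mul, mul_comm]
  obtain ⟨m, hm⟩ := handshake_closed hF (detach_comp_closed F w)
  have hpos : 0 < ((detach_comp F w).filter fun v => v ∈ N).card :=
    card_pos.2 ⟨w, mem_filter.2 ⟨detach_mem_comp F w, hw⟩⟩
  have hge : 2 ≤ ((detach_comp F w).filter fun v => v ∈ N).card := by omega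
  have hge' : 2 ≤ (N.filter fun v => detach_comp F v = detach_comp F w).card := by
    refine hge.trans (card_le_card fun v hv => ?_)
    exact mem_filter.2 ⟨(mem_filter.1 hv).2, detach_comp_eq (mem_filter.1 hv).1⟩
  have hs : ∑ v ∈ W.filter fun v => detach_comp F v = detach_comp F w, (2 - dg F v) ≤ 2 := by
    have h3 : (W.filter fun v => detach_comp F v = detach_comp F w) ⊆ detach_comp F w := by
      intro v hv
      rw [← (mem_filter.1 hv).2]
      exact detach_mem_comp F v
    refine (sum_le_sum_of_subset h3).trans ?_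
    have h4 : ∑ v ∈ detach_comp F w, (2 - dg F v) =
        ((detach_comp F w).filter fun v => v ∈ N).card := by
      rw [card_filter]
      refine sum_congr rfl fun v hv => ?_
      have := hdeg v hv
      omega
    rw [h4]
    refine le_trans (card_le_card fun v hv => (mem_filter.1 hv).2) hN2
  have h5 := hK (detach_comp F w)
  have hu' : (2 : ℝ) ≤ u := by exact_mod_cast hu
  have h6 : ((∑ v ∈ W.filter fun v => detach_comp F v = detach_comp F w, (2 - dg F v) : ℕ) : ℝ) / u
      ≤ 1 := by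
    rw [div_le_one (by linarith)]
    refine le_trans ?_ hu'
    exact_mod_cast hs
  have h7 : (2 : ℝ) ≤ (N.filter fun v => detach_comp F v = detach_comp F w).card := by
    exact_mod_cast hge'
  linarith

/-- arithmetic of the colour counts -/
lemma detach_arith (y τ D0 u : ℕ) (hu : 0 < u) (h : |(y : ℝ) - (τ : ℝ) / u| < 1)
    (hτ : τ ≤ u * D0) : y ≤ D0 ∧ (Even (τ + u * D0) → 2 ≤ u → τ + D0 ≤ 2 * y + (u - 1) * D0) := by
  have hu' : (0 : ℝ) < u := by exact_mod_cast hu
  rw [abs_lt] at h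
  constructor
  · have h1 : (τ : ℝ) / u ≤ D0 := by
      rw [div_le_iff₀ hu', mul_comm]
      exact_mod_cast hτ
    have h2 : (y : ℝ) < (D0 + 1 : ℕ) := by push_cast; linarith [h.2]
    have := Nat.cast_lt.1 h2
    omega
  · rintro ⟨m, hm⟩ h2
    obtain ⟨l, hl⟩ : ∃ l, u * D0 = τ + 2 * l := ⟨(u * D0 - τ) / 2, by omega⟩
    have h1 : (τ : ℝ) / u < y + 1 := by linarith [h.1]
    rw [div_lt_iff₀ hu'] at h1
    have h3 : τ < (y + 1) * u := by exact_mod_cast h1
    have h4 : D0 ≤ y + l := by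
      by_contra h5
      have h6 : (y + l + 1) * u ≤ D0 * u := Nat.mul_le_mul_right _ (by omega)
      have h7 : l * 2 ≤ l * u := Nat.mul_le_mul_left _ h2
      nlinarith
    obtain ⟨k, rfl⟩ : ∃ k, u = k + 1 := ⟨u - 1, by omega⟩
    rw [Nat.add_sub_cancel]
    nlinarith

lemma detach_aux (𝒞 : Finset ℕ) (cyc : ℕ → Prop) (D : ℕ → V → ℕ) (D0 : ℕ → ℕ)
    (hsumD : ∀ v, ∑ c ∈ 𝒞, D c v + 1 = Fintype.card V)
    (heven : ∀ c ∈ 𝒞, Even (∑ v, D c v)) (k : ℕ) : ∀ (W : Finset V)
    (F : ℕ → Finset (Sym2 V)), W.card + (k + 1) = Fintype.card V →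
    (∀ c ∈ 𝒞, ∀ z, z ∉ W → D c z = D0 c) → (∀ c ∈ 𝒞, On W (F c)) →
    (∀ c ∈ 𝒞, ∀ c' ∈ 𝒞, c ≠ c' → Disjoint (F c) (F c')) →
    (∀ w ∈ W, ∑ c ∈ 𝒞, dg (F c) w + 1 = W.card) →
    (∀ c ∈ 𝒞, ∀ w ∈ W, dg (F c) w ≤ D c w) →
    (∀ c ∈ 𝒞, ∑ w ∈ W, D c w ≤ ∑ w ∈ W, dg (F c) w + (k + 1) * D0 c) →
    (∀ c ∈ 𝒞, cyc c → (∀ v, D c v = 2) ∧ NoCyc (F c)) →
    ∃ F' : ℕ → Finset (Sym2 V),
      (∀ c ∈ 𝒞, On univ (F' c) ∧ (∀ e ∈ F' c, e ∈ F c ∨ ∃ z ∈ e, z ∉ W) ∧
        (∀ v, dg (F' c) v = D c v) ∧ (cyc c → IsHam univ (F' c))) ∧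
      ∀ c ∈ 𝒞, ∀ c' ∈ 𝒞, c ≠ c' → Disjoint (F' c) (F' c') := by
  induction' k using Nat.strong_induction_on with k ih
  intro W F hk hD0 hon hdisj hsumF hle hineq hcyc
  obtain ⟨z, hz⟩ : ∃ z, z ∉ W := by
    by_contra h
    have : W = univ := eq_univ_of_forall fun v => by
      by_contra h'
      exact h ⟨v, h'⟩
    rw [this, card_univ] at hk
    omega
  have hdsum : ∀ w ∈ W, ∑ c ∈ 𝒞, (D c w - dg (F c) w) = k + 1 := by
    intro w hw
    have h1 : ∑ c ∈ 𝒞, (D c w - dg (F c) w) + ∑ c ∈ 𝒞, dg (F c) w = ∑ c ∈ 𝒞, D c w := by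
      rw [← sum_add_distrib]
      exact sum_congr rfl fun c hc => Nat.sub_add_cancel (hle c hc w hw)
    have h2 := hsumD w
    have h3 := hsumF w hw
    omega
  obtain ⟨N, hNW, hN1, hNpos, hNc, hNK⟩ :=
    detach_round 𝒞 W F (fun c w => D c w - dg (F c) w) (k + 1) (Nat.succ_pos k) hdsum
  have hτ : ∀ c ∈ 𝒞, ∑ w ∈ W, (D c w - dg (F c) w) + ∑ w ∈ W, dg (F c) w = ∑ w ∈ W, D c w := by
    intro c hc
    rw [← sum_add_distrib]
    exact sum_congr rfl fun w hw => Nat.sub_add_cancel (hle c hc w hw)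
  have har := fun c (hc : c ∈ 𝒞) => detach_arith (N c).card (∑ w ∈ W, (D c w - dg (F c) w)) (D0 c)
    (k + 1) (Nat.succ_pos k) (hNc c hc) (by have := hτ c hc; have := hineq c hc; omega)
  have hon' : ∀ c ∈ 𝒞, On (insert z W) (detach_ext (F c) (N c) z) :=
    fun c hc => detach_on_ext (hon c hc) hz (hNW c)
  have hdisj' : ∀ c ∈ 𝒞, ∀ c' ∈ 𝒞, c ≠ c' →
      Disjoint (detach_ext (F c) (N c) z) (detach_ext (F c') (N c') z) := by
    intro c hc c' hc' hcc
    rw [disjoint_left]
    intro e h1 h2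
    rcases detach_mem_ext.1 h1 with h1 | ⟨w, hw, rfl⟩
    · rcases detach_mem_ext.1 h2 with h2 | ⟨w, hw, rfl⟩
      · exact disjoint_left.1 (hdisj c hc c' hc' hcc) h1 h2
      · exact hz ((hon c hc).mk_mem h1).2.2
    · rcases detach_mem_ext.1 h2 with h2 | ⟨w', hw', h2⟩
      · exact hz ((hon c' hc').mk_mem h2).2.2
      · have h3 : w' = w := Sym2.congr_left.1 h2
        subst h3
        have h4 := card_le_one.1 (hN1 w' (hNW c hw)).le c (mem_filter.2 ⟨hc, hw⟩) c'
          (mem_filter.2 ⟨hc', hw'⟩)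
        exact hcc h4
  have hsumF' : ∀ w ∈ insert z W, ∑ c ∈ 𝒞, dg (detach_ext (F c) (N c) z) w + 1 =
      (insert z W).card := by
    intro w hw
    rw [card_insert_of_notMem hz]
    rcases mem_insert.1 hw with rfl | hw
    · rw [sum_congr rfl fun c hc => detach_dg_z (hon c hc) hz (hNW c)]
      have h1 : ∀ c ∈ 𝒞, (N c).card = ∑ v ∈ W, if v ∈ N c then 1 else 0 := by
        intro c _
        rw [← card_filter, filter_mem_eq_inter, inter_eq_right.2 (hNW c)]
      rw [sum_congr rfl h1, sum_comm]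
      have h2 : ∀ v ∈ W, (∑ c ∈ 𝒞, if v ∈ N c then 1 else 0) = 1 := by
        intro v hv
        rw [← card_filter]
        exact hN1 v hv
      rw [sum_congr rfl h2, sum_const, smul_eq_mul, mul_one]
    · have hwz : w ≠ z := fun h => hz (h ▸ hw)
      rw [sum_congr rfl fun c hc => detach_dg_w (hon c hc) hz hwz, sum_add_distrib, ← card_filter,
        hN1 w hw]
      have := hsumF w hw
      omega
  have hle' : ∀ c ∈ 𝒞, ∀ w ∈ insert z W, dg (detach_ext (F c) (N c) z) w ≤ D c w := by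
    intro c hc w hw
    rcases mem_insert.1 hw with rfl | hw
    · rw [detach_dg_z (hon c hc) hz (hNW c), hD0 c hc w hz]
      exact (har c hc).1
    · have hwz : w ≠ z := fun h => hz (h ▸ hw)
      rw [detach_dg_w (hon c hc) hz hwz]
      split_ifs with h
      · have := hNpos c w h
        omega
      · exact hle c hc w hw
  have hmem : ∀ c ∈ 𝒞, ∀ e ∈ detach_ext (F c) (N c) z, e ∈ F c ∨ ∃ z ∈ e, z ∉ W := by
    intro c _ e he
    rcases detach_mem_ext.1 he with h | ⟨w, _, rfl⟩
    · exact Or.inl h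
    · exact Or.inr ⟨z, by simp, hz⟩
  rcases Nat.eq_zero_or_pos k with rfl | hkpos
  · have hW : insert z W = univ := by
      apply eq_univ_of_card
      rw [card_insert_of_notMem hz]
      omega
    rw [hW] at hon' hsumF' hle'
    have hdeg : ∀ c ∈ 𝒞, ∀ v, dg (detach_ext (F c) (N c) z) v = D c v := by
      intro c hc v
      have h1 := hsumF' v (mem_univ v)
      have h2 := hsumD v
      rw [card_univ] at h1
      exact (sum_eq_sum_iff_of_le fun c hc => hle' c hc v (mem_univ v)).1 (by omega) c hc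
    refine ⟨fun c => detach_ext (F c) (N c) z, fun c hc => ⟨hon' c hc, hmem c hc, hdeg c hc, ?_⟩,
      hdisj'⟩
    intro hcy
    obtain ⟨h2, hno⟩ := hcyc c hc hcy
    refine ⟨hon' c hc, fun v _ => by rw [hdeg c hc, h2], fun S _ hS hcl => ?_⟩
    have h3 : ∀ T : Finset V, T.Nonempty → Closed (detach_ext (F c) (N c) z) T → z ∈ T :=
      fun T hT hTc => detach_z_mem (hon c hc) hz hno hT hTc fun v _ => by rw [hdeg c hc, h2]
    by_contra hne
    have h4 : Sᶜ.Nonempty := by
      rw [nonempty_iff_ne_empty]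
      intro h
      exact hne (compl_eq_empty_iff S |>.1 h)
    exact mem_compl.1 (h3 _ h4 hcl.compl) (h3 S hS hcl)
  · obtain ⟨j, rfl⟩ : ∃ j, k = j + 1 := ⟨k - 1, by omega⟩
    obtain ⟨F', hF', hd'⟩ := ih j (Nat.lt_succ_self j) (insert z W)
      (fun c => detach_ext (F c) (N c) z) (by rw [card_insert_of_notMem hz]; omega)
      (fun c hc v hv => hD0 c hc v fun h => hv (mem_insert_of_mem h)) hon' hdisj' hsumF' hle'
      (by
        intro c hc
        rw [sum_insert hz, sum_insert hz, detach_dg_z (hon c hc) hz (hNW c), hD0 c hc z hz]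
        have h1 : ∑ w ∈ W, dg (detach_ext (F c) (N c) z) w = ∑ w ∈ W, dg (F c) w + (N c).card := by
          rw [sum_congr rfl fun w hw => detach_dg_w (hon c hc) hz fun h => hz (h ▸ hw),
            sum_add_distrib, ← card_filter, filter_mem_eq_inter, inter_eq_right.2 (hNW c)]
        have h2 : ∑ v, D c v = ∑ w ∈ W, D c w + (j + 1 + 1) * D0 c := by
          rw [← sum_add_sum_compl W, sum_congr rfl fun v hv => hD0 c hc v (mem_compl.1 hv),
            sum_const, smul_eq_mul, card_compl]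
          congr 2
          omega
        have h3 := heven c hc
        have h4 := handshake (hon c hc)
        have h5 := hτ c hc
        have h6 : Even (∑ w ∈ W, (D c w - dg (F c) w) + (j + 1 + 1) * D0 c) := by
          obtain ⟨m, hm⟩ := h3
          exact ⟨m - (F c).card, by omega⟩
        have h7 := (har c hc).2 h6 (by omega)
        rw [Nat.add_sub_cancel] at h7
        omega)
      (by
        intro c hc hcy
        obtain ⟨h2, hno⟩ := hcyc c hc hcy
        refine ⟨h2, detach_nocyc (hon c hc) hz (hNW c) hno (j + 1 + 1) (by omega) ?_ ?_ ?_ ?_⟩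
        · have h3 := (har c hc).1
          rw [← hD0 c hc z hz, h2] at h3
          exact h3
        · intro w hw
          rw [← h2 w]
          exact hle c hc w hw
        · intro w hw
          have h3 := hNpos c w hw
          simp only [h2] at h3
          omega
        · intro K
          have h3 := hNK c hc K
          simp only [h2] at h3
          exact h3)
    refine ⟨F', fun c hc => ⟨(hF' c hc).1, ?_, (hF' c hc).2.2⟩, hd'⟩
    intro e he
    rcases (hF' c hc).2.1 e he with h | ⟨v, hv, h⟩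
    · exact hmem c hc e h
    · exact Or.inr ⟨v, hv, fun h' => h (mem_insert_of_mem h')⟩

/-- Hint: induction on `u = card V - W.card ≥ 1`. Pick `z ∉ W`. Let
`def c w = D c w - dg (F c) w`; `∑ c, def c w = u` for `w ∈ W`. Apply `round3` to the items
`(w, c) ∈ W ×ˢ 𝒞` with `x = def c w / u`, `a = w`, `b = (c, component of w in F c)`, upper level `c`;
the component of `w` is the intersection of all closed sets containing `w`. Every `w` gets exactly
one colour `c` with `def c w ≥ 1`; add `s(w, z)` to `F c`. If `τ = ∑ w ∈ W, def c w = u D0 - 2 l`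
(parity by `handshake` and `heven`), the number `y` of new edges of colour `c` satisfies
`D0 - l ≤ y ≤ D0` when `u ≥ 2`, which preserves `hineq`. `NoCyc` is preserved for `u ≥ 2`: the
total deficiency of a nonempty closed subset of `W` is even (`handshake_closed`) and positive, and
a component of deficiency 2 receives at most one new edge. For `u = 1` all degrees reach `D`; a
nonempty closed set of the new graph must contain `z` (`NoCyc`), and complements of closed sets are
closed. -/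
theorem detach (𝒞 : Finset ℕ) (cyc : ℕ → Prop) (D : ℕ → V → ℕ) (D0 : ℕ → ℕ) (W : Finset V)
    (F : ℕ → Finset (Sym2 V)) (hW : W.Nonempty) (hU : W ≠ univ)
    (hD0 : ∀ c ∈ 𝒞, ∀ z, z ∉ W → D c z = D0 c) (hon : ∀ c ∈ 𝒞, On W (F c))
    (hdisj : ∀ c ∈ 𝒞, ∀ c' ∈ 𝒞, c ≠ c' → Disjoint (F c) (F c'))
    (hsumD : ∀ v, ∑ c ∈ 𝒞, D c v + 1 = Fintype.card V)
    (hsumF : ∀ w ∈ W, ∑ c ∈ 𝒞, dg (F c) w + 1 = W.card)
    (hle : ∀ c ∈ 𝒞, ∀ w ∈ W, dg (F c) w ≤ D c w)
    (hineq : ∀ c ∈ 𝒞, ∑ w ∈ W, D c w ≤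
      ∑ w ∈ W, dg (F c) w + (Fintype.card V - W.card) * D0 c)
    (heven : ∀ c ∈ 𝒞, Even (∑ v, D c v))
    (hcyc : ∀ c ∈ 𝒞, cyc c → (∀ v, D c v = 2) ∧ NoCyc (F c)) :
    ∃ F' : ℕ → Finset (Sym2 V),
      (∀ c ∈ 𝒞, On univ (F' c) ∧ (∀ e ∈ F' c, e ∈ F c ∨ ∃ z ∈ e, z ∉ W) ∧
        (∀ v, dg (F' c) v = D c v) ∧ (cyc c → IsHam univ (F' c))) ∧
      ∀ c ∈ 𝒞, ∀ c' ∈ 𝒞, c ≠ c' → Disjoint (F' c) (F' c') := by
  have hlt : W.card < Fintype.card V := card_lt_card (ssubset_univ_iff.2 hU)
  refine detach_aux 𝒞 cyc D D0 hsumD heven (Fintype.card V - W.card - 1) W F (by omega) hD0 hon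
    hdisj hsumF hle ?_ hcyc
  have h : Fintype.card V - W.card - 1 + 1 = Fintype.card V - W.card := by omega
  rw [h]
  exact hineq

end

end Pool.Agent.MP_1376f1_pr

end

-- part MP_1376f1_pr.CFin
section

/-!
The dense end: reduction to the iterative construction.
-/

set_option autoImplicit false
set_option linter.unusedSectionVars false

namespace Pool.Agent.MP_1376f1_pr

open Finset MP_d802e4_co
open scoped Classical

noncomputable section

variable {V : Type} [Fintype V] [DecidableEq V]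


lemma cfin_dg_insert (T : Finset (Sym2 V)) (a b : V) (_hab : a ≠ b) :
    dg (insert s(a, b) T) a ≤ dg T a + 1 := by
  have : nb (insert s(a, b) T) a ⊆ insert b (nb T a) := by
    intro u hu
    rcases mem_insert.1 (mem_nb.1 hu) with h | h
    · rw [Sym2.congr_right.1 h]; exact mem_insert_self _ _
    · exact mem_insert_of_mem (mem_nb.2 h)
  exact (card_le_card this).trans (card_insert_le _ _)

lemma cfin_dg_insert_ne (T : Finset (Sym2 V)) {a b v : V} (ha : v ≠ a) (hb : v ≠ b) :
    dg (insert s(a, b) T) v = dg T v := by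
  unfold dg
  congr 1
  ext u
  simp only [mem_nb, mem_insert]
  constructor
  · rintro (h | h)
    · rcases Sym2.eq_iff.1 h with ⟨h, -⟩ | ⟨h, -⟩
      · exact absurd h ha
      · exact absurd h hb
    · exact h
  · exact Or.inr

lemma cfin_sum_dm (k : ℕ) : ∑ c ∈ range (KK k), dm k c = k := by
  unfold KK dm
  rcases Nat.even_or_odd' k with ⟨m, rfl | rfl⟩
  · have h1 : (2 * m + 1) / 2 = m := by omega
    rw [h1]
    simp [mul_comm]
  · have h1 : (2 * m + 1 + 1) / 2 = m + 1 := by omega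
    rw [h1, sum_range_succ']
    simp [mul_comm]

lemma cfin_dm_cases (k c : ℕ) : dm k c = 2 ∨ (c = 0 ∧ k % 2 = 1 ∧ dm k c = 1) := by
  unfold dm
  split_ifs with h
  · exact Or.inr ⟨h.1, h.2, rfl⟩
  · exact Or.inl rfl

lemma cfin_dm_two {k c : ℕ} (h : dm k c = 2) : ¬ (c = 0 ∧ k % 2 = 1) := by
  intro h'
  unfold dm at h
  rw [if_pos h'] at h
  omega

lemma cfin_sum_ite (S X : Finset V) (hX : X ⊆ S) :
    (∑ v ∈ S, if v ∈ X then 0 else 1) + X.card = S.card := by
  have h1 : (∑ v ∈ S, if v ∈ X then 0 else 1) = (S \ X).card := by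
    rw [sum_ite]
    simp only [sum_const_zero, sum_const, smul_eq_mul, mul_one, zero_add]
    congr 1
    ext v
    simp
  rw [h1, card_sdiff_add_card_eq_card hX]

lemma cfin_sum_ite' (S X : Finset V) (hX : X ⊆ S) :
    (∑ v ∈ S, if v ∈ X then 1 else 0) = X.card := by
  rw [sum_ite]
  simp only [sum_const_zero, sum_const, smul_eq_mul, mul_one, add_zero]
  congr 1
  ext v
  simp only [mem_filter]
  exact ⟨fun h => h.2, fun h => ⟨hX h, h⟩⟩

/-- Hint: take a maximal `Tr` with `Hc ⊆ Tr`, `On W Tr` and degrees at most `Δ`; the vertices of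
`W` of degree less than `Δ` are pairwise adjacent, so there are at most `Δ` of them. -/
theorem trash {W : Finset V} {Hc : Finset (Sym2 V)} {Δ : ℕ} {cap : V → ℕ} (hH : On W Hc)
    (hcap : ∀ v, Δ ≤ cap v) (hΔ : ∀ v, dg Hc v ≤ cap v) :
    ∃ Tr, Hc ⊆ Tr ∧ On W Tr ∧ (∀ v, dg Tr v ≤ cap v) ∧
      W.card * Δ ≤ ∑ w ∈ W, dg Tr w + Δ ^ 2 := by
  have hne : (univ.filter fun T : Finset (Sym2 V) =>
      Hc ⊆ T ∧ On W T ∧ ∀ v, dg T v ≤ cap v).Nonempty :=
    ⟨Hc, mem_filter.2 ⟨mem_univ _, subset_rfl, hH, hΔ⟩⟩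
  obtain ⟨Tr, hTr, hmax⟩ := exists_max_image _ (fun T : Finset (Sym2 V) => T.card) hne
  obtain ⟨-, h1, h2, h3⟩ := mem_filter.1 hTr
  refine ⟨Tr, h1, h2, h3, ?_⟩
  set S := W.filter fun w => dg Tr w < Δ with hS
  have hadj : ∀ a ∈ S, ∀ b ∈ S, a ≠ b → s(a, b) ∈ Tr := by
    intro a ha b hb hab
    by_contra hn
    obtain ⟨haW, had⟩ := mem_filter.1 ha
    obtain ⟨hbW, hbd⟩ := mem_filter.1 hb
    have hmem : insert s(a, b) Tr ∈ univ.filter fun T : Finset (Sym2 V) =>
        Hc ⊆ T ∧ On W T ∧ ∀ v, dg T v ≤ cap v := by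
      refine mem_filter.2 ⟨mem_univ _, h1.trans (subset_insert _ _), ?_, ?_⟩
      · intro e he
        rcases mem_insert.1 he with rfl | he
        · refine ⟨by simpa using hab, ?_⟩
          intro v hv
          rcases Sym2.mem_iff.1 hv with rfl | rfl
          · exact haW
          · exact hbW
        · exact h2 e he
      · intro v
        by_cases hva : v = a
        · subst hva
          have := cfin_dg_insert Tr v b hab
          have := hcap v
          omega
        · by_cases hvb : v = b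
          · subst hvb
            have := cfin_dg_insert Tr v a (Ne.symm hab)
            rw [Sym2.eq_swap] at this
            have := hcap v
            omega
          · rw [cfin_dg_insert_ne Tr hva hvb]
            exact h3 v
    have := hmax _ hmem
    rw [card_insert_of_notMem hn] at this
    omega
  have hSc : S.card ≤ Δ := by
    rcases S.eq_empty_or_nonempty with h0 | ⟨a, ha⟩
    · rw [h0]; simp
    · have hsub : S.erase a ⊆ nb Tr a := by
        intro b hb
        exact mem_nb.2 (hadj a ha b (mem_of_mem_erase hb) (ne_of_mem_erase hb).symm)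
      have h4 := card_le_card hsub
      rw [card_erase_of_mem ha] at h4
      have h5 : dg Tr a < Δ := (mem_filter.1 ha).2
      unfold dg at h5
      omega
  have hpt : ∀ w ∈ W, Δ ≤ dg Tr w + if dg Tr w < Δ then Δ else 0 := by
    intro w _
    split_ifs with h <;> omega
  have hsum := sum_le_sum hpt
  rw [sum_const, smul_eq_mul, sum_add_distrib, ← sum_filter, sum_const, smul_eq_mul] at hsum
  have : S.card * Δ ≤ Δ ^ 2 := by rw [sq]; exact Nat.mul_le_mul_right _ hSc
  exact hsum.trans (Nat.add_le_add_left this _)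

/-- Hint: let `R = inside (allE V) W \ Tr`, `u = card V - W.card`. If `k` is odd replace `F 0` by a
matching `M' ⊆ F 0` (`ham_matching`). Let `J` be the edges of `R` that are not used; its degrees
are at most `ΔJ` (`dg (F i) w = dem (X i) (M i) w`). Colour `J` by `lcol` with the lists
`{i < KK k, dm k i = 2, both ends in X i}` and add the class `J i` to `F i`. Apply `detach` with
`𝒞 = range (KK k + 1)`, the last colour being `Tr`; `D i v = 2` for the cycle colours, for the
matching colour `D 0 v = 1` off `X 0` and `0` on `X 0`, for the last colour `Δ` plus 1 on `X 0` if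
`k` is odd. `NoCyc (F i ∪ J i)`: a closed set meeting `X i`, `Wᶜ` or `tch (M i)` has a vertex of
degree at most 1, otherwise it is closed for `F i ∪ M i`. `∑ w ∈ W, (2 - degree) ≤ 2 + 2 |X i|`. -/
theorem cfin {W : Finset V} {Hc Tr : Finset (Sym2 V)} {k Δ ΔJ : ℕ} {X : ℕ → Finset V}
    {M F : ℕ → Finset (Sym2 V)} (hk : Δ + k + 1 = Fintype.card V) (hk2 : 2 ≤ k) (hW : W.Nonempty)
    (hu : W.card + Δ + 1 ≤ Fintype.card V) (hH : Hc ⊆ Tr) (hTr : On W Tr)
    (hΔ : ∀ v, dg Tr v ≤ Δ + if k % 2 = 1 ∧ v ∈ X 0 then 1 else 0)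
    (hdef : W.card * Δ ≤ ∑ w ∈ W, dg Tr w + Δ ^ 2)
    (hX : ∀ i < KK k, X i ⊆ W ∧ IsMat (W \ X i) (M i))
    (hcyc : ∀ i < KK k, dm k i = 2 →
      (M i).card = 1 ∧ (X i).card + 1 + W.card ≤ Fintype.card V)
    (hmat : k % 2 = 1 → M 0 = ∅ ∧ (X 0).card = Fintype.card V % 2)
    (hJ : ∀ w ∈ W, dg (inside (allE V) W \ Tr) w + 2 ≤
      ∑ i ∈ range (KK k), dem (X i) (M i) w + ΔJ)
    (hL : ∀ w ∈ W, ∀ z ∈ W, w ≠ z → 2 * ΔJ ≤
      ((range (KK k)).filter fun i => dm k i = 2 ∧ w ∈ X i ∧ z ∈ X i).card)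
    (hF : HamFam W (inside (allE V) W \ Tr) (range (KK k)) X M F) :
    HasA (allE V \ Hc) k := by
  set R := inside (allE V) W \ Tr with hR
  have hK : 0 < KK k := by unfold KK; omega
  have hRon : On W R := (on_inside on_allE).mono subset_rfl sdiff_subset
  have hTrsub : Tr ⊆ inside (allE V) W := fun e he =>
    mem_inside.2 ⟨mem_allE.2 (hTr e he).1, (hTr e he).2⟩
  obtain ⟨hF1, hF2⟩ := hF
  have hFs : ∀ i < KK k, F i ⊆ R := fun i hi => (hF1 i (mem_range.2 hi)).1
  have hFM : ∀ i < KK k, Disjoint (F i) (M i) := fun i hi => (hF1 i (mem_range.2 hi)).2.1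
  have hFH : ∀ i < KK k, IsHam (W \ X i) (F i ∪ M i) := fun i hi => (hF1 i (mem_range.2 hi)).2.2
  have hFX : ∀ i < KK k, ∀ w ∈ X i, dg (F i) w = 0 := by
    intro i hi w hw
    have h0 : dg (F i ∪ M i) w = 0 := (hFH i hi).1.dg_eq_zero (fun h => (mem_sdiff.1 h).2 hw)
    have := dg_mono (subset_union_left : F i ⊆ F i ∪ M i) w
    omega
  have hFW : ∀ i < KK k, ∀ w ∈ W, w ∉ X i → dg (F i) w + dg (M i) w = 2 := by
    intro i hi w hw hwX
    rw [← dg_union (hFM i hi)]
    exact (hFH i hi).2.1 w (mem_sdiff.2 ⟨hw, hwX⟩)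
  have hdem : ∀ i < KK k, ∀ w ∈ W, dg (F i) w = dem (X i) (M i) w := by
    intro i hi w hw
    unfold dem
    split_ifs with h
    · exact hFX i hi w h
    · have := hFW i hi w hw h
      omega
  have hF2le : ∀ i < KK k, ∀ w ∈ W, dg (F i) w ≤ 2 := by
    intro i hi w hw
    by_cases h : w ∈ X i
    · rw [hFX i hi w h]; omega
    · have := hFW i hi w hw h
      omega
  -- the matching
  obtain ⟨M', hM'1, hM'2⟩ : ∃ M' ⊆ F 0, k % 2 = 1 →
      IsMat (W \ X 0) M' ∧ M'.card = (W \ X 0).card / 2 := by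
    by_cases hodd : k % 2 = 1
    · have h0 := hFH 0 hK
      rw [(hmat hodd).1, union_empty] at h0
      obtain ⟨M', h1, h2⟩ := ham_matching h0
      exact ⟨M', h1, fun _ => h2⟩
    · exact ⟨∅, empty_subset _, fun h => absurd h hodd⟩
  obtain ⟨F1, hF1d⟩ : ∃ F1 : ℕ → Finset (Sym2 V),
      ∀ i, F1 i = if i = 0 ∧ k % 2 = 1 then M' else F i := ⟨_, fun _ => rfl⟩
  have hF1s : ∀ i, F1 i ⊆ F i := by
    intro i
    rw [hF1d]
    split_ifs with h
    · rw [h.1]; exact hM'1
    · exact subset_rfl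
  have hF1two : ∀ i, dm k i = 2 → F1 i = F i := by
    intro i hi
    rw [hF1d, if_neg (cfin_dm_two hi)]
  have hF1zero : k % 2 = 1 → F1 0 = M' := by
    intro h
    rw [hF1d, if_pos ⟨rfl, h⟩]
  have hF1disj : ∀ i ∈ range (KK k), ∀ j ∈ range (KK k), i ≠ j → Disjoint (F1 i) (F1 j) :=
    fun i hi j hj hij => (hF2 i hi j hj hij).mono (hF1s i) (hF1s j)
  set B := (range (KK k)).biUnion F1 with hB
  have hBR : B ⊆ R := biUnion_subset.2 fun i hi => (hF1s i).trans (hFs i (mem_range.1 hi))
  set J := R \ B with hJd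
  have hJon : On W J := hRon.mono subset_rfl sdiff_subset
  have hJdeg : ∀ v, dg J v ≤ ΔJ := by
    intro v
    by_cases hv : v ∈ W
    · have h1 := dg_sdiff hBR v
      have h2 : dg B v = ∑ i ∈ range (KK k), dg (F1 i) v := dg_biUnion _ _ hF1disj v
      have h3 := hJ v hv
      have h4 : ∑ i ∈ range (KK k), dem (X i) (M i) v ≤
          ∑ i ∈ range (KK k), (dg (F1 i) v + if i = 0 then 2 else 0) := by
        refine sum_le_sum fun i hi => ?_
        rw [← hdem i (mem_range.1 hi) v hv]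
        rcases cfin_dm_cases k i with h | ⟨h, -, -⟩
        · rw [hF1two i h]; omega
        · rw [if_pos h]
          have := hF2le i (mem_range.1 hi) v hv
          omega
      rw [sum_add_distrib, sum_ite_eq' (range (KK k)) 0 (fun _ => 2),
        if_pos (mem_range.2 hK)] at h4
      rw [← hJd] at h1
      omega
    · rw [hJon.dg_eq_zero hv]; omega
  obtain ⟨col, hcol1, hcol2⟩ := lcol J hJon ΔJ hJdeg
    (fun e => (range (KK k)).filter fun i => dm k i = 2 ∧ ∀ v ∈ e, v ∈ X i) (by
      intro e he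
      induction e using Sym2.ind with
      | _ w z =>
        obtain ⟨h1, h2, h3⟩ := hJon.mk_mem he
        refine (hL w h2 z h3 h1).trans (card_le_card ?_)
        intro i hi
        obtain ⟨hi1, hi2, hi3, hi4⟩ := mem_filter.1 hi
        refine mem_filter.2 ⟨hi1, hi2, ?_⟩
        intro v hv
        rcases Sym2.mem_iff.1 hv with rfl | rfl
        · exact hi3
        · exact hi4)
  obtain ⟨Jc, hJc⟩ : ∃ Jc : ℕ → Finset (Sym2 V), ∀ c e, e ∈ Jc c ↔ e ∈ J ∧ col e = c :=
    ⟨fun c => J.filter fun e => col e = c, fun c e => mem_filter⟩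
  have hJc1 : ∀ c v, dg (Jc c) v ≤ 1 := by
    intro c v
    refine le_trans (dg_mono ?_ v) (hcol2 c v)
    intro e he
    simp only [mem_filter]
    exact (hJc c e).1 he
  have hJcX : ∀ c, ∀ e ∈ Jc c, c < KK k ∧ dm k c = 2 ∧ ∀ v ∈ e, v ∈ X c := by
    intro c e he
    obtain ⟨h1, h2⟩ := (hJc c e).1 he
    have h3 := mem_filter.1 (hcol1 e h1)
    rw [h2] at h3
    exact ⟨mem_range.1 h3.1, h3.2⟩
  have hJc0 : ∀ c v, v ∉ X c → nb (Jc c) v = ∅ := by
    intro c v hv
    refine eq_empty_of_forall_notMem fun u hu => hv ?_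
    exact (hJcX c _ (mem_nb.1 hu)).2.2 v (by simp)
  have hJcJ : ∀ c, Jc c ⊆ J := fun c e he => ((hJc c e).1 he).1
  obtain ⟨G, hG⟩ : ∃ G : ℕ → Finset (Sym2 V),
      ∀ c, G c = if c < KK k then F1 c ∪ Jc c else Tr := ⟨_, fun _ => rfl⟩
  have hGlt : ∀ c < KK k, G c = F1 c ∪ Jc c := fun c hc => by rw [hG, if_pos hc]
  have hGK : ∀ c, ¬ c < KK k → G c = Tr := fun c hc => by rw [hG, if_neg hc]
  have hGR : ∀ c < KK k, G c ⊆ R := by
    intro c hc
    rw [hGlt c hc]
    exact union_subset ((hF1s c).trans (hFs c hc)) ((hJcJ c).trans sdiff_subset)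
  have hG0 : k % 2 = 1 → G 0 = M' := by
    intro h
    rw [hGlt 0 hK, hF1zero h]
    have : Jc 0 = ∅ := eq_empty_of_forall_notMem fun e he =>
      cfin_dm_two (hJcX 0 e he).2.1 ⟨rfl, h⟩
    rw [this, union_empty]
  have hGnb : ∀ c < KK k, dm k c = 2 → ∀ v, v ∉ X c → nb (G c) v = nb (F c) v := by
    intro c hc h2 v hv
    rw [hGlt c hc, hF1two c h2, nb_union, hJc0 c v hv, union_empty]
  have hGX : ∀ c < KK k, dm k c = 2 → ∀ v ∈ X c, dg (G c) v ≤ 1 := by
    intro c hc h2 v hv
    rw [hGlt c hc, hF1two c h2]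
    have h1 := dg_union_le (F c) (Jc c) v
    have h3 := hFX c hc v hv
    have h4 := hJc1 c v
    omega
  have hdisjG : ∀ c ∈ range (KK k + 1), ∀ c' ∈ range (KK k + 1), c ≠ c' →
      Disjoint (G c) (G c') := by
    have hRT : Disjoint R Tr := sdiff_disjoint
    have hFJ : ∀ c < KK k, ∀ c', Disjoint (F1 c) (Jc c') := by
      intro c hc c'
      refine disjoint_left.2 fun e h1 h2 => ?_
      exact (mem_sdiff.1 (hJcJ c' h2)).2 (mem_biUnion.2 ⟨c, mem_range.2 hc, h1⟩)
    intro c hc c' hc' hne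
    by_cases h1 : c < KK k
    · by_cases h2 : c' < KK k
      · rw [hGlt c h1, hGlt c' h2, disjoint_union_left, disjoint_union_right,
          disjoint_union_right]
        refine ⟨⟨hF1disj c (mem_range.2 h1) c' (mem_range.2 h2) hne, hFJ c h1 c'⟩,
          (hFJ c' h2 c).symm, ?_⟩
        refine disjoint_left.2 fun e h3 h4 => hne ?_
        rw [← ((hJc c e).1 h3).2, ← ((hJc c' e).1 h4).2]
      · rw [hGK c' h2]
        exact hRT.mono_left (hGR c h1)
    · by_cases h2 : c' < KK k
      · rw [hGK c h1]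
        exact (hRT.mono_left (hGR c' h2)).symm
      · have := mem_range.1 hc
        have := mem_range.1 hc'
        omega
  have hX0 : X 0 ⊆ W := (hX 0 hK).1
  obtain ⟨D, hD⟩ : ∃ D : ℕ → V → ℕ, ∀ c v, D c v =
      if c < KK k then (if dm k c = 2 then 2 else if v ∈ X 0 then 0 else 1)
      else Δ + if k % 2 = 1 ∧ v ∈ X 0 then 1 else 0 := ⟨_, fun _ _ => rfl⟩
  have hDc : ∀ c < KK k, dm k c = 2 → ∀ v, D c v = 2 := by
    intro c hc h2 v
    rw [hD, if_pos hc, if_pos h2]
  have hDm : k % 2 = 1 → ∀ v, D 0 v = if v ∈ X 0 then 0 else 1 := by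
    intro h v
    rw [hD, if_pos hK, if_neg (fun h2 => cfin_dm_two h2 ⟨rfl, h⟩)]
  have hDK : ∀ c, ¬ c < KK k → ∀ v, D c v = Δ + if k % 2 = 1 ∧ v ∈ X 0 then 1 else 0 := by
    intro c hc v
    rw [hD, if_neg hc]
  have hDKs : ∀ S : Finset V, X 0 ⊆ S → (∑ v ∈ S, if k % 2 = 1 ∧ v ∈ X 0 then 1 else 0) =
      if k % 2 = 1 then Fintype.card V % 2 else 0 := by
    intro S hS
    split_ifs with h
    · rw [← (hmat h).2, ← cfin_sum_ite' S (X 0) hS]
      refine sum_congr rfl fun v _ => ?_
      simp [h]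
    · simp [h]
  obtain ⟨F', hF'1, hF'2⟩ := detach (range (KK k + 1)) (fun c => c < KK k ∧ dm k c = 2) D
    (fun c => if c < KK k then dm k c else Δ) W G hW
    (by
      intro h
      rw [h, card_univ] at hu
      omega)
    (by
      intro c _ z hz
      have hzX : z ∉ X 0 := fun h => hz (hX0 h)
      by_cases h1 : c < KK k
      · rw [if_pos h1]
        rcases cfin_dm_cases k c with h | ⟨h, h2, h3⟩
        · rw [hDc c h1 h, h]
        · rw [h3, h, hDm h2, if_neg hzX]
      · rw [if_neg h1, hDK c h1, if_neg (fun h => hzX h.2), add_zero])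
    (by
      intro c _
      by_cases h1 : c < KK k
      · exact hRon.mono subset_rfl (hGR c h1)
      · rw [hGK c h1]; exact hTr)
    hdisjG
    (by
      intro v
      rw [sum_range_succ, hDK _ (lt_irrefl _)]
      have h1 : ∑ c ∈ range (KK k), dm k c = ∑ c ∈ range (KK k),
          (D c v + if c = 0 then (if k % 2 = 1 ∧ v ∈ X 0 then 1 else 0) else 0) := by
        refine sum_congr rfl fun c hc => ?_
        rcases cfin_dm_cases k c with h | ⟨h, h2, h3⟩
        · rw [hDc c (mem_range.1 hc) h, h]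
          have := cfin_dm_two h
          split_ifs with h4 h5
          · exact absurd ⟨h4, h5.1⟩ this
          · rfl
          · rfl
        · rw [h3, h, hDm h2, if_pos rfl]
          by_cases h4 : v ∈ X 0
          · simp [h4, h2]
          · simp [h4]
      rw [cfin_sum_dm, sum_add_distrib, sum_ite_eq' (range (KK k)) 0
        (fun _ => if k % 2 = 1 ∧ v ∈ X 0 then 1 else 0), if_pos (mem_range.2 hK)] at h1
      omega)
    (by
      intro w hw
      rw [← dg_biUnion _ _ hdisjG w, ← dg_inside_allE hw]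
      congr 2
      ext e
      simp only [mem_biUnion]
      constructor
      · rintro ⟨c, -, he⟩
        by_cases h1 : c < KK k
        · exact (mem_sdiff.1 (hGR c h1 he)).1
        · rw [hGK c h1] at he
          exact hTrsub he
      · intro he
        by_cases h1 : e ∈ Tr
        · exact ⟨KK k, mem_range.2 (by omega), by rw [hGK _ (lt_irrefl _)]; exact h1⟩
        · have h2 : e ∈ R := mem_sdiff.2 ⟨he, h1⟩
          by_cases h3 : e ∈ B
          · obtain ⟨c, hc, h4⟩ := mem_biUnion.1 h3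
            have hc' := mem_range.1 hc
            exact ⟨c, mem_range.2 (by omega), by
              rw [hGlt c hc']; exact mem_union_left _ h4⟩
          · have h4 : e ∈ Jc (col e) := (hJc _ e).2 ⟨mem_sdiff.2 ⟨h2, h3⟩, rfl⟩
            have hc' := (hJcX _ e h4).1
            exact ⟨col e, mem_range.2 (by omega), by
              rw [hGlt _ hc']; exact mem_union_right _ h4⟩)
    (by
      intro c _ w hw
      by_cases h1 : c < KK k
      · rcases cfin_dm_cases k c with h | ⟨h, h2, -⟩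
        · rw [hDc c h1 h]
          by_cases h3 : w ∈ X c
          · have := hGX c h1 h w h3
            omega
          · unfold dg
            rw [hGnb c h1 h w h3]
            exact hF2le c h1 w hw
        · rw [h, hDm h2, hG0 h2]
          split_ifs with h3
          · rw [(hM'2 h2).1.1.dg_eq_zero (fun h4 => (mem_sdiff.1 h4).2 h3)]
          · exact (hM'2 h2).1.2 w
      · rw [hGK c h1, hDK c h1]
        exact hΔ w)
    (by
      intro c _
      by_cases h1 : c < KK k
      · rw [if_pos h1]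
        rcases cfin_dm_cases k c with h | ⟨h, h2, h3⟩
        · have e1 : ∑ w ∈ W, D c w = W.card * 2 := by
            rw [sum_congr rfl fun w _ => hDc c h1 h w, sum_const, smul_eq_mul]
          have e2 : ∑ w ∈ W, dg (F c) w ≤ ∑ w ∈ W, dg (G c) w := by
            refine sum_le_sum fun w _ => dg_mono ?_ w
            rw [hGlt c h1, hF1two c h]
            exact subset_union_left
          have e3 : ∑ w ∈ W, dg (F c) w = 2 * (F c).card :=
            handshake (hRon.mono subset_rfl (hFs c h1))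
          have e4 := (hFH c h1).card_eq
          rw [card_union_of_disjoint (hFM c h1), (hcyc c h1 h).1] at e4
          have e5 := card_sdiff_add_card_eq_card (hX c h1).1
          have e6 := (hcyc c h1 h).2
          rw [e1, h]
          omega
        · have e1 : ∑ w ∈ W, D c w + (X 0).card = W.card := by
            rw [h, sum_congr rfl fun w _ => hDm h2 w]
            exact cfin_sum_ite W (X 0) hX0
          have e3 : ∑ w ∈ W, dg (G c) w = 2 * M'.card := by
            rw [h, hG0 h2]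
            exact handshake ((hM'2 h2).1.1.mono sdiff_subset subset_rfl)
          have e4 := (hM'2 h2).2
          have e5 := card_sdiff_add_card_eq_card hX0
          rw [h3]
          omega
      · rw [if_neg h1, hGK c h1, sum_congr rfl fun w _ => hDK c h1 w, sum_add_distrib,
          sum_const, smul_eq_mul, hDKs W hX0]
        have e1 : (Δ + 1) * Δ ≤ (Fintype.card V - W.card) * Δ :=
          Nat.mul_le_mul_right _ (by omega)
        have e2 : (if k % 2 = 1 then Fintype.card V % 2 else 0) ≤ Δ := by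
          split_ifs <;> omega
        have e3 : (Δ + 1) * Δ = Δ ^ 2 + Δ := by ring
        omega)
    (by
      intro c _
      by_cases h1 : c < KK k
      · rcases cfin_dm_cases k c with h | ⟨h, h2, h3⟩
        · rw [sum_congr rfl fun w _ => hDc c h1 h w, sum_const, smul_eq_mul]
          exact (even_two).mul_left _
        · have e1 : ∑ w, D c w + (X 0).card = Fintype.card V := by
            rw [h, sum_congr rfl fun w _ => hDm h2 w, ← card_univ]
            exact cfin_sum_ite univ (X 0) (subset_univ _)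
          have e2 := (hmat h2).2
          rw [Nat.even_iff]
          omega
      · rw [sum_congr rfl fun w _ => hDK c h1 w, sum_add_distrib,
          sum_const, smul_eq_mul, hDKs univ (subset_univ _), card_univ, Nat.even_iff,
          Nat.add_mod, Nat.mul_mod]
        rcases Nat.mod_two_eq_zero_or_one (Fintype.card V) with e1 | e1 <;>
          rcases Nat.mod_two_eq_zero_or_one Δ with e2 | e2 <;>
          rw [e1, e2] <;> split_ifs <;> omega)
    (by
      rintro c - ⟨h1, h2⟩
      refine ⟨hDc c h1 h2, ?_⟩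
      intro S hS hcl
      by_contra hcon
      push Not at hcon
      have a1 : ∀ v ∈ S, v ∈ W := by
        intro v hv
        by_contra hvW
        have := hcon v hv
        rw [(hRon.mono subset_rfl (hGR c h1)).dg_eq_zero hvW] at this
        omega
      have a2 : ∀ v ∈ S, v ∉ X c := by
        intro v hv hvX
        have := hcon v hv
        have := hGX c h1 h2 v hvX
        omega
      have a3 : ∀ v ∈ S, dg (M c) v = 0 := by
        intro v hv
        have b1 := hcon v hv
        have b2 := hFW c h1 v (a1 v hv) (a2 v hv)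
        have b3 : dg (G c) v = dg (F c) v := by
          unfold dg; rw [hGnb c h1 h2 v (a2 v hv)]
        omega
      have a4 : S = W \ X c := by
        refine (hFH c h1).2.2 S (fun v hv => mem_sdiff.2 ⟨a1 v hv, a2 v hv⟩) hS ?_
        intro v hv
        rw [nb_union, card_eq_zero.1 (a3 v hv), union_empty, ← hGnb c h1 h2 v (a2 v hv)]
        exact hcl v hv
      obtain ⟨e, he⟩ : (M c).Nonempty := card_pos.1 (by rw [(hcyc c h1 h2).1]; omega)
      induction e using Sym2.ind with
      | _ a b =>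
        have b1 := ((hX c h1).2.1.mk_mem he).2.1
        rw [← a4] at b1
        have b2 := card_eq_zero.1 (a3 a b1)
        have b3 : b ∈ nb (M c) a := mem_nb.2 he
        rw [b2] at b3
        exact notMem_empty _ b3)
  have hsubG : ∀ c < KK k, F' c ⊆ allE V \ Hc := by
    intro c hc e he
    obtain ⟨h1, h2, -⟩ := hF'1 c (mem_range.2 (by omega))
    refine mem_sdiff.2 ⟨mem_allE.2 (h1 e he).1, fun h3 => ?_⟩
    rcases h2 e he with h4 | ⟨z, hz, hzW⟩
    · exact (mem_sdiff.1 (hGR c hc h4)).2 (hH h3)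
    · exact hzW ((hTr e (hH h3)).2 z hz)
  have hidx : ∀ i < k / 2, i + k % 2 < KK k ∧ dm k (i + k % 2) = 2 := by
    intro i hi
    refine ⟨by unfold KK; omega, ?_⟩
    unfold dm
    rw [if_neg (by omega)]
  refine ⟨fun i => F' (i + k % 2), F' 0, ?_, ?_, ?_⟩
  · intro i hi
    obtain ⟨h1, h2⟩ := hidx i hi
    exact ⟨hsubG _ h1, (hF'1 _ (mem_range.2 (by omega))).2.2.2 ⟨h1, h2⟩⟩
  · intro i hi j hj hij
    have h1 := (hidx i hi).1
    have h2 := (hidx j hj).1
    exact hF'2 _ (mem_range.2 (by omega)) _ (mem_range.2 (by omega)) (by omega)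
  · intro hodd
    obtain ⟨h1, -, h3, -⟩ := hF'1 0 (mem_range.2 (by omega))
    refine ⟨hsubG 0 hK, ⟨h1, ?_⟩, ?_, ?_⟩
    · intro v
      rw [h3, hDm hodd]
      split_ifs <;> omega
    · have e1 := handshake h1
      rw [sum_congr rfl fun w _ => (h3 w).trans (hDm hodd w)] at e1
      have e2 := cfin_sum_ite univ (X 0) (subset_univ _)
      have e3 := (hmat hodd).2
      rw [card_univ] at e2
      omega
    · intro i hi
      have h2 := (hidx i hi).1
      exact hF'2 _ (mem_range.2 (by omega)) _ (mem_range.2 (by omega)) (by omega)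

end

end Pool.Agent.MP_1376f1_pr

end
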