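import Pool.Agent.MP_1376f1_pr.Mg.PBase
import Pool.Agent.MP_1376f1_pr.Stmt
import Pool.Agent.MP_1376f1_pr.Mg.Round

-- part MP_1376f1_pr.Trans
section

/-!
From independent labels to a uniformly random order.
-/

set_option autoImplicit false
set_option linter.unusedSectionVars false

namespace Pool.Agent.MP_1376f1_pr

open Finset MP_d802e4_co
open scoped Classical

noncomputable section



/-- the first `m` edges as a finite set -/
def first {n : ℕ} (σ : Order n) (m : ℕ) : Finset (Sym2 (Fin n)) :=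
  univ.filter fun e => ∃ i : Fin (n.choose 2), i.val < m ∧ (σ i).val = e

lemma trans_mem_first {n : ℕ} {σ : Order n} {m : ℕ} {e : Sym2 (Fin n)} :
    e ∈ first σ m ↔ ∃ i : Fin (n.choose 2), i.val < m ∧ (σ i).val = e := by simp [first]

lemma trans_Ex_perm {V Λ : Type} [Fintype V] [DecidableEq V] [Fintype Λ] (p : Λ → ℝ)
    (π : Equiv.Perm V) (f : (V → Λ) → ℝ) : Ex p (fun ω => f (fun v => ω (π v))) = Ex p f := by
  unfold Ex
  rw [← Equiv.sum_comp (Equiv.arrowCongr π.symm (Equiv.refl Λ)) (fun ω => wt p ω * f ω)]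
  refine Finset.sum_congr rfl fun ω _ => ?_
  have h1 : (Equiv.arrowCongr π.symm (Equiv.refl Λ)) ω = fun v => ω (π v) := by
    funext v; simp
  rw [h1]
  congr 1
  unfold wt
  exact (Equiv.prod_comp π (fun v => p (ω v))).symm

/-- the labels increase along the order -/
def trans_srt {n M : ℕ} (σ : Order n) (ω : Sym2 (Fin n) → Fin M) : Prop :=
  StrictMono fun i => ω (σ i).val

lemma trans_Pr_eq {n M : ℕ} (p : Fin M → ℝ) (σ σ' : Order n) :
    Pr p (trans_srt (M := M) σ) = Pr p (trans_srt σ') := by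
  unfold Pr
  rw [← trans_Ex_perm p (Equiv.Perm.ofSubtype (σ.symm.trans σ')) (fun ω => ind (trans_srt σ ω))]
  refine Ex_congr fun ω => ind_congr ?_
  unfold trans_srt
  simp only [Equiv.Perm.ofSubtype_apply_coe, Equiv.trans_apply, Equiv.symm_apply_apply]

lemma trans_unique {n M : ℕ} {σ σ' : Order n} {ω : Sym2 (Fin n) → Fin M} (h : trans_srt σ ω)
    (h' : trans_srt σ' ω) : σ = σ' := by
  have hr : Set.range (fun i => ω (σ i).val) = Set.range (fun i => ω (σ' i).val) := by
    ext l
    constructor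
    · rintro ⟨i, rfl⟩; exact ⟨σ'.symm (σ i), by simp⟩
    · rintro ⟨i, rfl⟩; exact ⟨σ.symm (σ' i), by simp⟩
  have he := (StrictMono.range_inj h h').1 hr
  ext i : 1
  have h1 : ω (σ i).val = ω (σ (σ.symm (σ' i))).val := by
    rw [Equiv.apply_symm_apply]; exact congrFun he i
  have h2 := h.injective h1
  calc σ i = σ (σ.symm (σ' i)) := congrArg σ h2
    _ = σ' i := σ.apply_symm_apply _

lemma trans_exists {n M : ℕ} (σ0 : Order n) {ω : Sym2 (Fin n) → Fin M}
    (h : Function.Injective fun i => ω (σ0 i).val) : ∃ σ : Order n, trans_srt σ ω :=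
  ⟨(Tuple.sort fun i => ω (σ0 i).val).trans σ0,
    (Tuple.monotone_sort fun i => ω (σ0 i).val).strictMono_of_injective
      (h.comp (Equiv.injective _))⟩

lemma trans_first_eq {n M : ℕ} {σ : Order n} {ω : Sym2 (Fin n) → Fin M} (h : trans_srt σ ω)
    (m : ℕ) : ∃ P ≤ M, first σ m = thr ω P := by
  by_cases hm : m < n.choose 2
  · refine ⟨(ω (σ ⟨m, hm⟩).val).val, (Fin.is_lt _).le, ?_⟩
    ext e
    rw [trans_mem_first, mem_thr]
    constructor
    · rintro ⟨i, hi, rfl⟩
      exact ⟨(σ i).2, h (show i < ⟨m, hm⟩ from hi)⟩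
    · rintro ⟨h1, h2⟩
      refine ⟨σ.symm ⟨e, h1⟩, ?_, by simp⟩
      have : σ.symm ⟨e, h1⟩ < ⟨m, hm⟩ := by
        refine h.lt_iff_lt.1 ?_
        simpa using h2
      exact this
  · refine ⟨M, le_rfl, ?_⟩
    ext e
    rw [trans_mem_first, mem_thr]
    constructor
    · rintro ⟨i, _, rfl⟩
      exact ⟨(σ i).2, Fin.is_lt _⟩
    · rintro ⟨h1, _⟩
      exact ⟨σ.symm ⟨e, h1⟩, lt_of_lt_of_le (Fin.is_lt _) (not_lt.1 hm), by simp⟩

lemma trans_sum_le {n M : ℕ} (B : Finset (Order n)) (ω : Sym2 (Fin n) → Fin M) (Q : Prop)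
    (h : ∀ σ ∈ B, trans_srt σ ω → Q) : ∑ σ ∈ B, ind (trans_srt σ ω) ≤ ind Q := by
  by_cases hex : ∃ σ ∈ B, trans_srt σ ω
  · obtain ⟨σ, hσ, hs⟩ := hex
    rw [Finset.sum_eq_single_of_mem σ hσ (fun σ' _ hne => ind_neg fun h' => hne (trans_unique h' hs)),
      ind_pos hs, ind_pos (h σ hσ hs)]
  · push Not at hex
    rw [Finset.sum_eq_zero fun σ hσ => ind_neg (hex σ hσ)]
    exact ind_nonneg _

lemma trans_coll {V : Type} [Fintype V] [DecidableEq V] {M : ℕ} (hM : 0 < M) {e e' : V}
    (h : e ≠ e') : Pr (unif M) (fun ω : V → Fin M => ω e = ω e') ≤ 1 / M := by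
  have hp := isP_unif hM
  have hM' : (M : ℝ) ≠ 0 := by exact_mod_cast hM.ne'
  calc _ ≤ Pr (unif M) (fun ω : V → Fin M => ∃ l ∈ (univ : Finset (Fin M)),
        ∀ v ∈ ({e, e'} : Finset V), ω v ∈ ({l} : Finset (Fin M))) := by
        refine Pr_mono hp fun ω hω => ⟨ω e, mem_univ _, ?_⟩
        simp [hω]
    _ ≤ ∑ l : Fin M, Pr (unif M) (fun ω : V → Fin M =>
        ∀ v ∈ ({e, e'} : Finset V), ω v ∈ ({l} : Finset (Fin M))) := Pr_exists hp _ _
    _ = ∑ _l : Fin M, (1 / M : ℝ) ^ 2 := by
        refine Finset.sum_congr rfl fun l _ => ?_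
        rw [Pr_all_mem hp, Finset.card_pair h]
        simp [mass, unif]
    _ = 1 / M := by
        rw [Finset.sum_const, Finset.card_univ, Fintype.card_fin, nsmul_eq_mul]
        field_simp

lemma trans_half {n : ℕ} (hn : 2 ≤ n) (σ0 : Order n) :
    1 / 2 ≤ Pr (unif (n ^ 4))
      (fun ω : Sym2 (Fin n) → Fin (n ^ 4) => Function.Injective fun i => ω (σ0 i).val) := by
  have hM : 0 < n ^ 4 := by positivity
  have hp := isP_unif hM
  have hn' : (0 : ℝ) < n := by exact_mod_cast (by omega : 0 < n)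
  have h1 : Pr (unif (n ^ 4)) (fun ω : Sym2 (Fin n) → Fin (n ^ 4) =>
      ¬ Function.Injective fun i => ω (σ0 i).val) ≤ 1 / 2 := by
    calc _ ≤ Pr (unif (n ^ 4)) (fun ω : Sym2 (Fin n) → Fin (n ^ 4) =>
          ∃ ij ∈ (univ : Finset (Fin (n.choose 2))).offDiag,
            ω (σ0 ij.1).val = ω (σ0 ij.2).val) := by
          refine Pr_mono hp fun ω hω => ?_
          unfold Function.Injective at hω
          push Not at hω
          obtain ⟨i, j, h1, h2⟩ := hω
          exact ⟨(i, j), by simp [h2], h1⟩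
      _ ≤ ∑ ij ∈ (univ : Finset (Fin (n.choose 2))).offDiag, Pr (unif (n ^ 4))
          (fun ω : Sym2 (Fin n) → Fin (n ^ 4) => ω (σ0 ij.1).val = ω (σ0 ij.2).val) :=
          Pr_exists hp _ _
      _ ≤ ∑ _ij ∈ (univ : Finset (Fin (n.choose 2))).offDiag, (1 / ((n ^ 4 : ℕ) : ℝ)) := by
          refine Finset.sum_le_sum fun ij hij => trans_coll hM fun h => ?_
          exact (Finset.mem_offDiag.1 hij).2.2 (σ0.injective (Subtype.ext h))
      _ ≤ 1 / 2 := by
          rw [Finset.sum_const, nsmul_eq_mul, Finset.offDiag_card, Finset.card_univ,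
            Fintype.card_fin, mul_one_div, div_le_div_iff₀ (by positivity) (by norm_num)]
          have a1 : ((n.choose 2 * n.choose 2 - n.choose 2 : ℕ) : ℝ) ≤
              (n.choose 2 : ℝ) * n.choose 2 := by exact_mod_cast Nat.sub_le _ _
          have a2 : (n.choose 2 : ℝ) ≤ (n : ℝ) ^ 2 / 2 := by
            rw [Nat.cast_choose_two]; nlinarith
          have a3 : (n.choose 2 : ℝ) * n.choose 2 ≤ (n : ℝ) ^ 2 / 2 * ((n : ℝ) ^ 2 / 2) :=
            mul_le_mul a2 a2 (by positivity) (by positivity)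
          have a4 : (0 : ℝ) ≤ (n : ℝ) ^ 4 := by positivity
          rw [Nat.cast_pow]
          nlinarith
  rw [Pr_not hp] at h1
  linarith

lemma trans_order (n : ℕ) : Nonempty (Order n) :=
  ⟨(Fintype.equivFinOfCardEq (by rw [Sym2.card_subtype_not_diag, Fintype.card_fin])).symm⟩

/-- Hint: say that `ω` is sorted by `σ` if `i ↦ ω (σ i)` is strictly monotone. The probability of
this event does not depend on `σ` (compose `ω` with the permutation of `Sym2 (Fin n)` that extends
`σ ∘ σ'⁻¹` by the identity on the diagonal, `Equiv.Perm.extendDomain` or `Equiv.Perm.ofSubtype`), the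
events for different `σ` are disjoint, and their union is the event that the labels of the edges
are distinct, which has probability at least `1 - N ^ 2 / M ≥ 1 / 2` with `N = n.choose 2`. If `ω` is
sorted by `σ`, then `first σ m = thr ω P` with `P = ω (σ m)` for `m < N` and `P = M` otherwise. -/
theorem transfer (n : ℕ) (hn : 2 ≤ n) (Bad : Finset (Sym2 (Fin n)) → Prop) :
    ((univ.filter fun σ : Order n => ∃ m, Bad (first σ m)).card : ℝ) ≤
      2 * Pr (unif (n ^ 4)) (fun ω : Sym2 (Fin n) → Fin (n ^ 4) => ∃ P ≤ n ^ 4, Bad (thr ω P)) *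
        Fintype.card (Order n) := by
  have hM : 0 < n ^ 4 := by positivity
  have hp := isP_unif hM
  obtain ⟨σ0⟩ := trans_order n
  set q := Pr (unif (n ^ 4)) (trans_srt (M := n ^ 4) σ0) with hq
  have hsum : ∀ B : Finset (Order n), (B.card : ℝ) * q =
      Ex (unif (n ^ 4)) (fun ω : Sym2 (Fin n) → Fin (n ^ 4) => ∑ σ ∈ B, ind (trans_srt σ ω)) := by
    intro B
    rw [Ex_sum, ← nsmul_eq_mul, ← Finset.sum_const]
    exact Finset.sum_congr rfl fun σ _ => trans_Pr_eq _ σ0 σ
  have h1 : 1 / 2 ≤ (Fintype.card (Order n) : ℝ) * q := by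
    rw [← Finset.card_univ, hsum]
    refine (trans_half hn σ0).trans (Ex_mono hp fun ω => ?_)
    by_cases h : Function.Injective fun i => ω (σ0 i).val
    · obtain ⟨σ, hσ⟩ := trans_exists σ0 h
      rw [ind_pos h, ← ind_pos hσ]
      exact Finset.single_le_sum (f := fun σ => ind (trans_srt σ ω)) (fun _ _ => ind_nonneg _)
        (mem_univ σ)
    · rw [ind_neg h]
      exact Finset.sum_nonneg fun _ _ => ind_nonneg _
  have h2 : ((univ.filter fun σ : Order n => ∃ m, Bad (first σ m)).card : ℝ) * q ≤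
      Pr (unif (n ^ 4)) (fun ω : Sym2 (Fin n) → Fin (n ^ 4) => ∃ P ≤ n ^ 4, Bad (thr ω P)) := by
    rw [hsum]
    refine Ex_mono hp fun ω => trans_sum_le _ ω _ fun σ hσ hs => ?_
    obtain ⟨m, hm⟩ := (mem_filter.1 hσ).2
    obtain ⟨P, hP, he⟩ := trans_first_eq hs m
    exact ⟨P, hP, he ▸ hm⟩
  have h3 := mul_le_mul_of_nonneg_left h1
    (Nat.cast_nonneg (α := ℝ) (univ.filter fun σ : Order n => ∃ m, Bad (first σ m)).card)
  have h4 := mul_le_mul_of_nonneg_left h2 (Nat.cast_nonneg (α := ℝ) (Fintype.card (Order n)))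
  linarith

end

end Pool.Agent.MP_1376f1_pr

end

-- part MP_1376f1_pr.Basic
section

/-!
Elementary facts on graphs given as finite sets of pairs.
-/

set_option autoImplicit false
set_option linter.unusedSectionVars false

namespace Pool.Agent.MP_1376f1_pr

open Finset MP_d802e4_co
open scoped Classical

noncomputable section

variable {V : Type} [Fintype V] [DecidableEq V]


theorem basic_dg_eq (F : Finset (Sym2 V)) (v : V) : dg F v = (F.filter fun e => v ∈ e).card := by
  unfold dg
  refine card_bij (fun u _ => s(v, u)) (fun u hu => ?_) (fun a _ b _ hab => ?_) (fun e he => ?_)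
  · exact mem_filter.2 ⟨mem_nb.1 hu, by simp⟩
  · exact Sym2.congr_right.1 hab
  · obtain ⟨h1, h2⟩ := mem_filter.1 he
    obtain ⟨u, rfl⟩ := Sym2.mem_iff_exists.1 h2
    exact ⟨u, mem_nb.2 h1, rfl⟩

theorem basic_nb_inside {E : Finset (Sym2 V)} {W : Finset V} {v : V} (hv : v ∈ W) :
    nb (inside E W) v = nb E v ∩ W := by
  ext u
  simp [hv]

theorem basic_dg_pos {F : Finset (Sym2 V)} {e : Sym2 V} (he : e ∈ F) {v : V} (hv : v ∈ e) :
    0 < dg F v := by
  rw [basic_dg_eq]
  exact card_pos.2 ⟨e, mem_filter.2 ⟨he, hv⟩⟩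

/-- Handshake lemma. Hint: double count pairs `(v, e)` with `v ∈ e`, or induct on `F`. -/
theorem handshake {U : Finset V} {F : Finset (Sym2 V)} (h : On U F) :
    ∑ v ∈ U, dg F v = 2 * F.card := by
  simp only [basic_dg_eq, card_filter]
  rw [sum_comm, mul_comm, card_eq_sum_ones, sum_mul]
  refine sum_congr rfl fun e he => ?_
  induction e using Sym2.ind with
  | _ a b =>
    obtain ⟨hab, ha, hb⟩ := h.mk_mem he
    rw [← card_filter]
    have : U.filter (fun v => v ∈ s(a, b)) = {a, b} := by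
      ext v
      simp only [mem_filter, Sym2.mem_iff, mem_insert, mem_singleton]
      constructor
      · exact fun h => h.2
      · rintro (rfl | rfl)
        · exact ⟨ha, Or.inl rfl⟩
        · exact ⟨hb, Or.inr rfl⟩
    rw [this, card_pair hab, one_mul]

/-- Hint: for `v ∈ S` the degree in `F` equals the degree in `inside F S`. -/
theorem handshake_closed {U S : Finset V} {F : Finset (Sym2 V)} (h : On U F) (hS : Closed F S) :
    Even (∑ v ∈ S, dg F v) := by
  have h1 : ∑ v ∈ S, dg F v = ∑ v ∈ S, dg (inside F S) v := by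
    refine sum_congr rfl fun v hv => ?_
    unfold dg
    rw [basic_nb_inside hv, inter_eq_left.2 (hS v hv)]
  rw [h1, handshake (on_inside h)]
  exact even_two_mul _

theorem Closed.compl {F : Finset (Sym2 V)} {S : Finset V} (hS : Closed F S) : Closed F Sᶜ := by
  intro v hv u hu
  rw [mem_compl] at hv ⊢
  exact fun hu' => hv (hS u hu' (mem_nb_comm.1 hu))

theorem IsHam.card_eq {U : Finset V} {C : Finset (Sym2 V)} (h : IsHam U C) :
    C.card = U.card := by
  have h1 := handshake h.1
  rw [sum_congr rfl h.2.1, sum_const, smul_eq_mul] at h1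
  omega

theorem IsMat.two_card {U : Finset V} {M : Finset (Sym2 V)} (h : IsMat U M) :
    2 * M.card = (tch M).card := by
  have h1 : On (tch M) M := fun e he => ⟨(h.1 e he).1, fun v hv => mem_tch.2 (basic_dg_pos he hv)⟩
  rw [← handshake h1, card_eq_sum_ones]
  refine sum_congr rfl fun v hv => ?_
  have := mem_tch.1 hv
  have := h.2 v
  omega

theorem On.tch_subset {U : Finset V} {F : Finset (Sym2 V)} (h : On U F) : tch F ⊆ U := by
  intro v hv
  by_contra hc
  have := mem_tch.1 hv
  rw [h.dg_eq_zero hc] at this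
  exact lt_irrefl _ this

/-- the number of edges inside `S` is at most half the sum of the degrees -/
theorem card_inside_le {U S : Finset V} {F : Finset (Sym2 V)} (h : On U F) :
    2 * (inside F S).card ≤ ∑ v ∈ S, dg F v := by
  rw [← handshake (on_inside h)]
  exact sum_le_sum fun v _ => dg_mono (filter_subset _ _) v

theorem card_inside_allE (S : Finset V) : 2 * (inside (allE V) S).card ≤ S.card ^ 2 := by
  rw [← handshake (on_inside on_allE), sq, ← smul_eq_mul, ← sum_const]
  exact sum_le_sum fun v _ => card_le_card ((on_inside on_allE).nb_subset v)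

theorem dg_allE (v : V) : dg (allE V) v + 1 = Fintype.card V := by
  have : nb (allE V) v = univ.erase v := by
    ext u; simp [eq_comm]
  unfold dg
  rw [this, card_erase_add_one (mem_univ v), card_univ]

theorem dg_inside_allE {W : Finset V} {v : V} (hv : v ∈ W) :
    dg (inside (allE V) W) v + 1 = W.card := by
  have : nb (inside (allE V) W) v = W.erase v := by
    rw [basic_nb_inside hv]
    ext u; simp [eq_comm]
  unfold dg
  rw [this, card_erase_add_one hv]

theorem nb_inside {E : Finset (Sym2 V)} {W : Finset V} {v : V} (hv : v ∈ W) :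
    nb (inside E W) v = nb E v ∩ W := by
  exact basic_nb_inside hv

/-- Hint: if all vertices of a closed set of `F'` have degree 2 in `F'`, their neighbourhoods in
`F` and `F'` agree. -/
theorem NoCyc.mono {F F' : Finset (Sym2 V)} (h : NoCyc F) (h2 : ∀ v, dg F v ≤ 2) (hF : F' ⊆ F) :
    NoCyc F' := by
  intro S hS hc
  by_contra hn
  push Not at hn
  have he : ∀ v ∈ S, nb F' v = nb F v := fun v hv =>
    eq_of_subset_of_card_le (nb_mono hF v) (le_trans (h2 v) (hn v hv))
  obtain ⟨v, hv, hd⟩ := h S hS fun v hv => he v hv ▸ hc v hv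
  have := dg_mono hF v
  have := hn v hv
  omega

/-- Contraction of a linear forest to a matching on the ends of its paths.
Hint: induction on the number of vertices of degree 2 (or on `F.card`). If `v` has neighbours
`a ≠ b` then `s(a,b) ∉ F` (else `{v,a,b}` is closed with all degrees 2); replace `s(v,a), s(v,b)` by
`s(a,b)`, apply the induction hypothesis with `U.erase v`, and subdivide the edge `s(a,b)` of the
Hamilton cycle on `U.erase v`. If no vertex has degree 2 take `L = F`. -/
theorem contr {U : Finset V} {F : Finset (Sym2 V)} (hF : On U F) (h2 : ∀ v, dg F v ≤ 2)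
    (hN : NoCyc F) :
    ∃ L : Finset (Sym2 V), IsMat (U.filter fun v => dg F v = 1) L ∧
      (∀ v, dg F v ≤ 1 → dg L v = dg F v) ∧
      ∀ C : Finset (Sym2 V), Disjoint C L → IsHam (U.filter fun v => dg F v ≤ 1) (C ∪ L) →
        Disjoint C F ∧ IsHam U (C ∪ F) := by
  induction hU : U.card using Nat.strong_induction_on generalizing U F with
  | _ n ih =>
  by_cases hex : ∃ v, dg F v = 2
  swap
  · push Not at hex
    have h1 : ∀ v, dg F v ≤ 1 := fun v => by
      have := h2 v
      have := hex v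
      omega
    refine ⟨F, ⟨fun e he => ⟨(hF e he).1, fun v hv => mem_filter.2 ⟨(hF e he).2 v hv, ?_⟩⟩, h1⟩,
      fun _ _ => rfl, fun C hC hH => ⟨hC, ?_⟩⟩
    · have := basic_dg_pos he hv
      have := h1 v
      omega
    · rwa [filter_true_of_mem fun v _ => h1 v] at hH
  obtain ⟨v, hv⟩ := hex
  obtain ⟨a, b, hab, hnb⟩ := card_eq_two.1 hv
  have ha : s(v, a) ∈ F := mem_nb.1 (by rw [hnb]; simp)
  have hb : s(v, b) ∈ F := mem_nb.1 (by rw [hnb]; simp)
  obtain ⟨hva, hvU, haU⟩ := hF.mk_mem ha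
  obtain ⟨hvb, -, hbU⟩ := hF.mk_mem hb
  have hva' : v ∈ nb F a := mem_nb_comm.1 (mem_nb.2 ha)
  have hvb' : v ∈ nb F b := mem_nb_comm.1 (mem_nb.2 hb)
  have hnv : ∀ w, v ∈ nb F w → w = a ∨ w = b := fun w hw => by
    have := mem_nb_comm.1 hw
    rw [hnb] at this
    simpa using this
  have hnab : s(a, b) ∉ F := by
    intro hc
    have e1 : nb F a = {v, b} := by
      refine (eq_of_subset_of_card_le ?_ ?_).symm
      · exact insert_subset hva' (singleton_subset_iff.2 (mem_nb.2 hc))
      · rw [card_pair hvb]; exact h2 a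
    have e2 : nb F b = {v, a} := by
      refine (eq_of_subset_of_card_le ?_ ?_).symm
      · exact insert_subset hvb' (singleton_subset_iff.2 (mem_nb_comm.1 (mem_nb.2 hc)))
      · rw [card_pair hva]; exact h2 b
    obtain ⟨w, hw, hd⟩ := hN {v, a, b} (by simp) (by
      intro w hw
      simp only [mem_insert, mem_singleton] at hw
      rcases hw with rfl | rfl | rfl
      · rw [hnb]; exact subset_insert _ _
      · rw [e1]; intro x; simp only [mem_insert, mem_singleton]; tauto
      · rw [e2]; intro x; simp only [mem_insert, mem_singleton]; tauto)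
    simp only [mem_insert, mem_singleton] at hw
    unfold dg at hd
    rcases hw with rfl | rfl | rfl
    · rw [hnb, card_pair hab] at hd; omega
    · rw [e1, card_pair hvb] at hd; omega
    · rw [e2, card_pair hva] at hd; omega
  set F' : Finset (Sym2 V) := insert s(a, b) (F.filter fun e => v ∉ e) with hF'
  have hmem : ∀ w u, u ∈ nb F' w ↔
      (w = a ∧ u = b ∨ w = b ∧ u = a) ∨ (u ∈ nb F w ∧ w ≠ v ∧ u ≠ v) := fun w u => by
    simp only [hF', mem_nb, mem_insert, mem_filter, Sym2.eq_iff, Sym2.mem_iff, not_or, ne_eq,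
      eq_comm (a := v)]
  have hOn : On (U.erase v) F' := by
    intro e he
    rcases mem_insert.1 he with rfl | he
    · refine ⟨by simpa using hab, fun w hw => ?_⟩
      rcases Sym2.mem_iff.1 hw with rfl | rfl
      · exact mem_erase.2 ⟨hva.symm, haU⟩
      · exact mem_erase.2 ⟨hvb.symm, hbU⟩
    · obtain ⟨h1, h3⟩ := mem_filter.1 he
      exact ⟨(hF e h1).1, fun w hw => mem_erase.2 ⟨fun hc => h3 (hc ▸ hw), (hF e h1).2 w hw⟩⟩
  have hdv : dg F' v = 0 := hOn.dg_eq_zero (notMem_erase v U)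
  have hend : ∀ x y, (x = a ∧ y = b ∨ x = b ∧ y = a) → dg F' x = dg F x := by
    intro x y hxy
    have hxv : v ∈ nb F x := by rcases hxy with ⟨rfl, -⟩ | ⟨rfl, -⟩ <;> assumption
    have hyx : y ∉ nb F x := by
      rcases hxy with ⟨rfl, rfl⟩ | ⟨rfl, rfl⟩
      · exact fun hc => hnab (mem_nb.1 hc)
      · exact fun hc => hnab (mem_nb.1 (mem_nb_comm.1 hc))
    have hx : x ≠ v := by rcases hxy with ⟨rfl, -⟩ | ⟨rfl, -⟩ <;> exact Ne.symm ‹_›
    have e : nb F' x = insert y ((nb F x).erase v) := by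
      ext u
      rw [hmem, mem_insert, mem_erase]
      rcases hxy with ⟨rfl, rfl⟩ | ⟨rfl, rfl⟩
      · simp only [true_and, hab, false_and, or_false, hx, ne_eq, not_false_eq_true]; tauto
      · simp only [true_and, hab.symm, false_and, false_or, hx, ne_eq, not_false_eq_true]; tauto
    unfold dg
    rw [e, card_insert_of_notMem fun hc => hyx (mem_of_mem_erase hc), card_erase_add_one hxv]
  have hdw : ∀ w, w ≠ v → dg F' w = dg F w := by
    intro w hw
    by_cases h1 : w = a
    · exact hend w b (Or.inl ⟨h1, rfl⟩)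
    by_cases h3 : w = b
    · exact hend w a (Or.inr ⟨h3, rfl⟩)
    have e : nb F' w = nb F w := by
      ext u
      rw [hmem]
      constructor
      · rintro (h | h)
        · tauto
        · exact h.1
      · intro hu
        refine Or.inr ⟨hu, hw, fun hc => ?_⟩
        rcases hnv w (hc ▸ hu) with h | h
        · exact h1 h
        · exact h3 h
    unfold dg
    rw [e]
  have h2' : ∀ w, dg F' w ≤ 2 := fun w => by
    by_cases hw : w = v
    · rw [hw, hdv]; omega
    · rw [hdw w hw]; exact h2 w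
  have hN' : NoCyc F' := by
    intro S hS hc
    by_cases hvS : v ∈ S
    · exact ⟨v, hvS, by rw [hdv]; omega⟩
    have hne : ∀ w ∈ S, w ≠ v := fun w hw hc => hvS (hc ▸ hw)
    by_cases habS : a ∈ S ∨ b ∈ S
    · have hS2 : a ∈ S ∧ b ∈ S := by
        rcases habS with h | h
        · exact ⟨h, hc a h ((hmem a b).2 (Or.inl (Or.inl ⟨rfl, rfl⟩)))⟩
        · exact ⟨hc b h ((hmem b a).2 (Or.inl (Or.inr ⟨rfl, rfl⟩))), h⟩
      obtain ⟨w, hw, hd⟩ := hN (insert v S) (insert_nonempty _ _) (by
        intro w hw u hu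
        rcases mem_insert.1 hw with rfl | hw
        · rw [hnb] at hu
          rcases mem_insert.1 hu with rfl | hu
          · exact mem_insert_of_mem hS2.1
          · rw [mem_singleton.1 hu]; exact mem_insert_of_mem hS2.2
        · by_cases huv : u = v
          · rw [huv]; exact mem_insert_self _ _
          · exact mem_insert_of_mem (hc w hw ((hmem w u).2 (Or.inr ⟨hu, hne w hw, huv⟩))))
      rcases mem_insert.1 hw with rfl | hw
      · omega
      · exact ⟨w, hw, by rw [hdw w (hne w hw)]; exact hd⟩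
    · obtain ⟨w, hw, hd⟩ := hN S hS (by
        intro w hw u hu
        refine hc w hw ((hmem w u).2 (Or.inr ⟨hu, hne w hw, fun huv => habS ?_⟩))
        rcases hnv w (huv ▸ hu) with h | h
        · exact Or.inl (h ▸ hw)
        · exact Or.inr (h ▸ hw))
      exact ⟨w, hw, by rw [hdw w (hne w hw)]; exact hd⟩
  obtain ⟨L, hL1, hL2, hL3⟩ := ih (U.erase v).card (hU ▸ card_erase_lt_of_mem hvU) hOn h2' hN' rfl
  have e1 : ((U.erase v).filter fun w => dg F' w = 1) = U.filter fun w => dg F w = 1 := by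
    ext w
    simp only [mem_filter, mem_erase]
    constructor
    · rintro ⟨⟨h1, h3⟩, h4⟩
      exact ⟨h3, hdw w h1 ▸ h4⟩
    · rintro ⟨h3, h4⟩
      have h1 : w ≠ v := fun hc => by rw [hc] at h4; omega
      exact ⟨⟨h1, h3⟩, (hdw w h1).symm ▸ h4⟩
  have e2 : ((U.erase v).filter fun w => dg F' w ≤ 1) = U.filter fun w => dg F w ≤ 1 := by
    ext w
    simp only [mem_filter, mem_erase]
    constructor
    · rintro ⟨⟨h1, h3⟩, h4⟩
      exact ⟨h3, hdw w h1 ▸ h4⟩
    · rintro ⟨h3, h4⟩
      have h1 : w ≠ v := fun hc => by rw [hc] at h4; omega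
      exact ⟨⟨h1, h3⟩, (hdw w h1).symm ▸ h4⟩
  rw [e1] at hL1
  rw [e2] at hL3
  refine ⟨L, hL1, fun w hw => ?_, fun C hC hH => ?_⟩
  · have h1 : w ≠ v := fun hc => by rw [hc] at hw; omega
    rw [← hdw w h1] at hw ⊢
    exact hL2 w hw
  obtain ⟨hd, hOn2, hdeg, hconn⟩ := hL3 C hC hH
  have hCon : On (U.erase v) C := hOn2.mono subset_rfl subset_union_left
  have hdis : Disjoint C F := by
    refine disjoint_left.2 fun e he1 he2 => disjoint_left.1 hd he1 ?_
    exact mem_insert_of_mem (mem_filter.2 ⟨he2, fun hc => notMem_erase v U ((hCon e he1).2 v hc)⟩)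
  refine ⟨hdis, (hCon.mono (erase_subset _ _) subset_rfl).union hF, fun w hw => ?_,
    fun S hSU hS hc => ?_⟩
  · rw [dg_union hdis]
    by_cases h1 : w = v
    · rw [h1, hCon.dg_eq_zero (notMem_erase v U), hv]
    · rw [← hdw w h1, ← dg_union hd]
      exact hdeg w (mem_erase.2 ⟨h1, hw⟩)
  have hcF : ∀ w ∈ S, ∀ u ∈ nb F w, u ∈ S := fun w hw u hu =>
    hc w hw (nb_mono subset_union_right w hu)
  have hva2 : a ∈ nb F v := mem_nb.2 ha
  have hvb2 : b ∈ nb F v := mem_nb.2 hb
  have hS' : S.erase v = U.erase v := by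
    refine hconn _ (erase_subset_erase v hSU) ?_ fun w hw u hu => ?_
    · obtain ⟨x, hx⟩ := hS
      by_cases hxv : x = v
      · exact ⟨a, mem_erase.2 ⟨hva.symm, hcF v (hxv ▸ hx) a hva2⟩⟩
      · exact ⟨x, mem_erase.2 ⟨hxv, hx⟩⟩
    · have hwS := mem_of_mem_erase hw
      refine mem_erase.2 ⟨(mem_erase.1 (hOn2.nb_subset w hu)).1, ?_⟩
      rw [nb_union] at hu
      rcases mem_union.1 hu with hu | hu
      · exact hc w hwS (nb_mono subset_union_left w hu)
      · rcases (hmem w u).1 hu with (⟨rfl, rfl⟩ | ⟨rfl, rfl⟩) | h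
        · exact hcF v (hcF _ hwS v hva') _ hvb2
        · exact hcF v (hcF _ hwS v hvb') _ hva2
        · exact hcF w hwS u h.1
  have haS : a ∈ S := mem_of_mem_erase (hS'.symm ▸ mem_erase.2 ⟨hva.symm, haU⟩)
  have hvS : v ∈ S := hcF a haS v hva'
  rw [← insert_erase hvS, hS', insert_erase hvU]

theorem basic_lcol {ι : Type} [Nonempty ι] (J : Finset (Sym2 V)) (Δ : ℕ)
    (hΔ : ∀ v, dg J v ≤ Δ) (Ls : Sym2 V → Finset ι) (hL : ∀ e ∈ J, 2 * Δ ≤ (Ls e).card) :
    ∃ col : Sym2 V → ι, (∀ e ∈ J, col e ∈ Ls e) ∧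
      ∀ e ∈ J, ∀ f ∈ J, ∀ v, v ∈ e → v ∈ f → col e = col f → e = f := by
  induction J using Finset.induction_on with
  | empty => exact ⟨fun _ => Classical.arbitrary ι, by simp, by simp⟩
  | insert e J he ih =>
    obtain ⟨col, h1, h2⟩ := ih (fun v => (dg_mono (subset_insert _ _) v).trans (hΔ v))
      fun f hf => hL f (mem_insert_of_mem hf)
    induction e using Sym2.ind with
    | _ x y =>
    have hx : dg J x + 1 ≤ Δ := by
      have := hΔ x
      rw [basic_dg_eq, filter_insert, if_pos (Sym2.mem_mk_left x y),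
        card_insert_of_notMem fun hc => he (mem_filter.1 hc).1, ← basic_dg_eq] at this
      exact this
    have hy : dg J y ≤ Δ := (dg_mono (subset_insert _ _) y).trans (hΔ y)
    have hcard : (((J.filter fun f => x ∈ f) ∪ (J.filter fun f => y ∈ f)).image col).card <
        (Ls s(x, y)).card := by
      have a1 := card_image_le (s := (J.filter fun f => x ∈ f) ∪ (J.filter fun f => y ∈ f))
        (f := col)
      have a2 := card_union_le (J.filter fun f => x ∈ f) (J.filter fun f => y ∈ f)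
      rw [← basic_dg_eq, ← basic_dg_eq] at a2
      have a3 := hL _ (mem_insert_self _ _)
      omega
    obtain ⟨c, hc1, hc2⟩ := exists_mem_notMem_of_card_lt_card hcard
    have hne : ∀ f ∈ J, f ≠ s(x, y) := fun f hf hc => he (hc ▸ hf)
    have hnew : ∀ f ∈ J, ∀ v, v ∈ s(x, y) → v ∈ f → c ≠ col f := fun f hf v hv1 hv2 hc =>
      hc2 (mem_image.2 ⟨f, by
        rcases Sym2.mem_iff.1 hv1 with rfl | rfl
        · exact mem_union_left _ (mem_filter.2 ⟨hf, hv2⟩)
        · exact mem_union_right _ (mem_filter.2 ⟨hf, hv2⟩), hc.symm⟩)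
    refine ⟨Function.update col s(x, y) c, fun f hf => ?_, fun f hf g hg v hvf hvg hfg => ?_⟩
    · rcases mem_insert.1 hf with rfl | hf
      · rw [Function.update_self]; exact hc1
      · rw [Function.update_of_ne (hne f hf)]; exact h1 f hf
    · rcases mem_insert.1 hf with rfl | hf <;> rcases mem_insert.1 hg with rfl | hg
      · rfl
      · rw [Function.update_self, Function.update_of_ne (hne g hg)] at hfg
        exact absurd hfg (hnew g hg v hvf hvg)
      · rw [Function.update_self, Function.update_of_ne (hne f hf)] at hfg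
        exact absurd hfg.symm (hnew f hf v hvg hvf)
      · rw [Function.update_of_ne (hne f hf), Function.update_of_ne (hne g hg)] at hfg
        exact h2 f hf g hg v hvf hvg hfg

/-- Greedy list colouring of the edges. Hint: induction on `J`; an edge meets at most
`2 (Δ - 1)` other edges. -/
theorem lcol {ι : Type} [Nonempty ι] {U : Finset V} (J : Finset (Sym2 V)) (hJ : On U J) (Δ : ℕ)
    (hΔ : ∀ v, dg J v ≤ Δ) (Ls : Sym2 V → Finset ι) (hL : ∀ e ∈ J, 2 * Δ ≤ (Ls e).card) :
    ∃ col : Sym2 V → ι, (∀ e ∈ J, col e ∈ Ls e) ∧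
      ∀ c v, dg (J.filter fun e => col e = c) v ≤ 1 := by
  obtain ⟨col, h1, h2⟩ := basic_lcol J Δ hΔ Ls hL
  refine ⟨col, h1, fun c v => ?_⟩
  rw [basic_dg_eq]
  refine card_le_one.2 fun e he f hf => ?_
  simp only [mem_filter] at he hf
  exact h2 e he.1.1 f hf.1.1 v he.2 hf.2 (he.1.2.trans hf.1.2.symm)

/-- Sequential choice of pairwise disjoint sets. Hint: induction on a subset `J` of `I`. -/
theorem seq_choice {ι E : Type} [DecidableEq ι] [DecidableEq E] (I : Finset ι)
    (Good : ι → Finset E → Prop)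
    (h : ∀ i ∈ I, ∀ J ⊆ I.erase i, ∀ U : ι → Finset E, (∀ j ∈ J, Good j (U j)) →
      ∃ C, Good i C ∧ ∀ j ∈ J, Disjoint C (U j)) :
    ∃ U : ι → Finset E, (∀ i ∈ I, Good i (U i)) ∧
      ∀ i ∈ I, ∀ j ∈ I, i ≠ j → Disjoint (U i) (U j) := by
  have key : ∀ J : Finset ι, J ⊆ I → ∃ U : ι → Finset E, (∀ i ∈ J, Good i (U i)) ∧
      ∀ i ∈ J, ∀ j ∈ J, i ≠ j → Disjoint (U i) (U j) := by
    intro J
    induction J using Finset.induction_on with
    | empty => exact fun _ => ⟨fun _ => ∅, by simp, by simp⟩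
    | insert a J ha ih =>
      intro hJ
      obtain ⟨U, h1, h2⟩ := ih ((subset_insert _ _).trans hJ)
      have hne : ∀ j ∈ J, j ≠ a := fun j hj hc => ha (hc ▸ hj)
      obtain ⟨C, hC1, hC2⟩ := h a (hJ (mem_insert_self _ _)) J
        (fun j hj => mem_erase.2 ⟨hne j hj, hJ (mem_insert_of_mem hj)⟩) U h1
      refine ⟨Function.update U a C, fun i hi => ?_, fun i hi j hj hij => ?_⟩
      · rcases mem_insert.1 hi with rfl | hi
        · rw [Function.update_self]; exact hC1
        · rw [Function.update_of_ne (hne i hi)]; exact h1 i hi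
      · rcases mem_insert.1 hi with hi | hi <;> rcases mem_insert.1 hj with hj | hj
        · exact absurd (hi.trans hj.symm) hij
        · rw [hi, Function.update_self, Function.update_of_ne (hne j hj)]; exact hC2 j hj
        · rw [hj, Function.update_self, Function.update_of_ne (hne i hi)]; exact (hC2 i hi).symm
        · rw [Function.update_of_ne (hne i hi), Function.update_of_ne (hne j hj)]
          exact h2 i hi j hj hij
  exact key I subset_rfl

/-- Hint: boosters lie inside `Z ⊆ W`, so `Boost ∩ C ⊆ (Boost ∩ C') ∪ (inside C W \ C')`. -/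
theorem PoolOK.restrict {W : Finset V} {ρ γ : ℝ} {Q P C Q' P' C' : Finset (Sym2 V)}
    (h : PoolOK univ ρ γ 5 Q P C) (hQ : Q' ⊆ Q) (hP : P' ⊆ P)
    (hC : ((inside C W \ C').card : ℝ) ≤ 4 * nV V * ρ / (10 ^ 11 * γ ^ 2)) :
    PoolOK W ρ γ 1 Q' P' C' := by
  refine ⟨h.sparse.mono hQ, fun Y Z L Γ hY hZ h1 h2 h3 h4 h5 h6 => ?_⟩
  have h7 := h.boost Y Z L Γ (subset_univ _) hZ h1 h2 h3 (h4.trans hP) h5 h6
  have h8 : Boost Y Z L Γ ∩ C ⊆ (Boost Y Z L Γ ∩ C') ∪ (inside C W \ C') := by
    intro e he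
    obtain ⟨he1, he2⟩ := mem_inter.1 he
    by_cases hc : e ∈ C'
    · exact mem_union_left _ (mem_inter.2 ⟨he1, hc⟩)
    · exact mem_union_right _ (mem_sdiff.2 ⟨mem_inside.2 ⟨he2, fun v hv =>
        hY (hZ ((mem_Boost.1 he1).2.1 v hv))⟩, hc⟩)
  have h9 : ((Boost Y Z L Γ ∩ C).card : ℝ) ≤
      (Boost Y Z L Γ ∩ C').card + (inside C W \ C').card := by
    exact_mod_cast (card_le_card h8).trans (card_union_le _ _)
  have e : 5 * nV V * ρ / (10 ^ 11 * γ ^ 2) =
      1 * nV V * ρ / (10 ^ 11 * γ ^ 2) + 4 * nV V * ρ / (10 ^ 11 * γ ^ 2) := by ring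
  linarith

/-- Hint: `m` is the least number with `k ≤ th / 8 * s * 2 ^ m`. -/
theorem exists_sched {n s : ℝ} {k : ℕ} (hs : Real.log n ≤ 200 * s) (hsn : s ≤ n) (hs0 : 0 < s)
    (hk : 1 ≤ k) (hkn : (k : ℝ) ≤ n) : ∃ m, Sched n k s m := by
  have hpos : 0 < th / 8 * s := by have := th_pos; positivity
  have hex : ∃ m : ℕ, (k : ℝ) ≤ th / 8 * s * 2 ^ m := by
    obtain ⟨m, hm⟩ := pow_unbounded_of_one_lt ((k : ℝ) / (th / 8 * s)) (one_lt_two (α := ℝ))
    exact ⟨m, by rw [div_lt_iff₀ hpos] at hm; linarith⟩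
  refine ⟨Nat.find hex, hs, hsn, hk, hkn, Nat.find_spec hex, ?_⟩
  rcases Nat.eq_zero_or_pos (Nat.find hex) with h0 | h0
  · exact Or.inl h0
  · right
    obtain ⟨m, hm⟩ := Nat.exists_eq_succ_of_ne_zero h0.ne'
    have := Nat.find_min hex (m := m) (by omega)
    rw [hm, pow_succ]
    push Not at this
    linarith

theorem Sched.s_pos {n s : ℝ} {k m : ℕ} (h : Sched n k s m) : 0 < s := by
  have h1 := h.hm1
  have h2 : (1 : ℝ) ≤ k := by exact_mod_cast h.hk
  have h3 := th_pos
  by_contra hc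
  push Not at hc
  have : th / 8 * s * 2 ^ m ≤ 0 :=
    mul_nonpos_of_nonpos_of_nonneg (mul_nonpos_of_nonneg_of_nonpos (by positivity) hc)
      (by positivity)
  linarith

theorem Sched.sig_ge {n s : ℝ} {k m : ℕ} (h : Sched n k s m) {j : ℕ} (hj : j ≤ m) :
    th / 32 * s ≤ sig k s m j := by
  have hs := h.s_pos
  have h3 := th_pos
  have h4 := th_le
  unfold sig
  split_ifs with hjm
  · rcases h.hm2 with h0 | h0
    · omega
    · rw [le_div_iff₀ (by positivity)]
      have h5 : (2 : ℝ) ^ (j + 1) ≤ 2 ^ m := pow_le_pow_right₀ one_le_two hjm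
      have h6 : th / 16 * s * 2 ^ (j + 1) ≤ th / 16 * s * 2 ^ m := by gcongr
      calc th / 32 * s * 2 ^ (j + 2) = th / 16 * s * 2 ^ (j + 1) := by ring
        _ ≤ k := by linarith
  · refine mul_le_of_le_one_left hs.le ?_
    norm_num at h4
    linarith

theorem Sched.sig_pos {n s : ℝ} {k m : ℕ} (h : Sched n k s m) (j : ℕ) : 0 < sig k s m j := by
  have h2 : (0 : ℝ) < k := by exact_mod_cast h.hk
  unfold sig
  split_ifs
  · positivity
  · exact h.s_pos

theorem Sched.log_le {n s : ℝ} {k m : ℕ} (h : Sched n k s m) {j : ℕ} (hj : j ≤ m) :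
    Real.log n ≤ 10 ^ 17 * sig k s m j := by
  have h1 := h.sig_ge hj
  have h2 := h.hs
  have h3 := h.s_pos
  unfold th at h1
  linarith

theorem Sched.sig_le {n s : ℝ} {k m : ℕ} (h : Sched n k s m) (j : ℕ) : sig k s m j ≤ n := by
  unfold sig
  split_ifs
  · exact (div_le_self (Nat.cast_nonneg k) (one_le_pow₀ one_le_two)).trans h.hkn
  · exact h.hsn

theorem Sched.cut_nonneg {n s : ℝ} {k m : ℕ} (h : Sched n k s m) (j : ℕ) : 0 ≤ cut k s m j := by
  exact sum_nonneg fun i _ => (h.sig_pos i).le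

theorem Sched.cut_mono {n s : ℝ} {k m : ℕ} (h : Sched n k s m) {i j : ℕ} (hij : i < j) :
    cut k s m i + sig k s m i ≤ cut k s m j := by
  unfold cut
  rw [← sum_range_succ]
  exact sum_le_sum_of_subset_of_nonneg (range_mono hij) fun l _ _ => (h.sig_pos l).le

theorem Sched.cut_le {n s : ℝ} {k m : ℕ} (h : Sched n k s m) {j : ℕ} (hj : j ≤ m) :
    cut k s m j + sig k s m j ≤ k / 2 + s := by
  have h1 := h.cut_mono (Nat.lt_succ_of_le hj)
  have h2 : ∀ l ≤ m, cut k s m l = k / 2 - k / 2 ^ (l + 1) := by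
    intro l hl
    induction l with
    | zero => simp [cut]
    | succ l ih =>
      have := ih (by omega)
      unfold cut at this ⊢
      rw [sum_range_succ, this, sig, if_pos (by omega)]
      field_simp
      ring
  have h3 : cut k s m (m + 1) = cut k s m m + s := by
    unfold cut
    rw [sum_range_succ, sig, if_neg (lt_irrefl m)]
  have h4 : (0 : ℝ) ≤ k / 2 ^ (m + 1) := by positivity
  rw [Nat.succ_eq_add_one, h3, h2 m le_rfl] at h1
  linarith

theorem Sched.m_le {n s : ℝ} {k m : ℕ} (h : Sched n k s m) (hs : 1 ≤ s) :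
    (m : ℝ) ≤ 2 * Real.log n + 60 := by
  have h2 : (1 : ℝ) ≤ k := by exact_mod_cast h.hk
  have hn : 1 ≤ n := h2.trans h.hkn
  have hl : 0 ≤ Real.log n := Real.log_nonneg hn
  rcases h.hm2 with h0 | h0
  · rw [h0, Nat.cast_zero]; linarith
  · have h3 := h.hkn
    have h4 : (0 : ℝ) < 2 ^ m := by positivity
    have h5 : th / 8 * 1 * 2 ^ m ≤ th / 8 * s * 2 ^ m := by
      have := th_pos
      gcongr
    have h6 : (2 : ℝ) ^ m ≤ 2 ^ 48 * n := by
      unfold th at h5 h0
      generalize (2 : ℝ) ^ m = t at *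
      linarith
    have h7 := Real.log_le_log h4 h6
    rw [Real.log_mul (by positivity) (by positivity), Real.log_pow, Real.log_pow] at h7
    have h8 := Real.log_two_gt_d9
    push_cast at h7
    by_contra hc
    push Not at hc
    nlinarith

end

end Pool.Agent.MP_1376f1_pr

end

-- part MP_1376f1_pr.Ham
section

/-!
From 2-regular connected edge sets to cycles and matchings.
-/

set_option autoImplicit false
set_option linter.unusedSectionVars false

namespace Pool.Agent.MP_1376f1_pr

open Finset MP_d802e4_co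
open scoped Classical

noncomputable section

variable {V : Type} [Fintype V] [DecidableEq V]


lemma ham_adj {U : Finset V} {C : Finset (Sym2 V)} (h : On U C) {v u : V} :
    (SimpleGraph.fromEdgeSet (C : Set (Sym2 V))).Adj v u ↔ u ∈ nb C v := by
  rw [SimpleGraph.fromEdgeSet_adj, mem_nb, mem_coe]
  exact ⟨fun h' => h'.1, fun h' => ⟨h', (h.mk_mem h').1⟩⟩

lemma ham_nbset {U : Finset V} {C : Finset (Sym2 V)} (h : On U C) (v : V) :
    (SimpleGraph.fromEdgeSet (C : Set (Sym2 V))).neighborSet v = (nb C v : Set V) := by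
  ext u
  rw [SimpleGraph.mem_neighborSet, ham_adj h, mem_coe]

/-- Hint: `SimpleGraph.IsCycles.exists_cycle_toSubgraph_verts_eq_connectedComponentSupp`; the
support of the component of a vertex of `U` is a nonempty closed subset of `U`. -/
theorem ham_walk {U : Finset V} {C : Finset (Sym2 V)} (h : IsHam U C) {v : V} (hv : v ∈ U) :
    ∃ p : (SimpleGraph.fromEdgeSet (C : Set (Sym2 V))).Walk v v,
      p.IsCycle ∧ ∀ u, u ∈ p.support ↔ u ∈ U := by
  obtain ⟨hon, hdeg, hcon⟩ := h
  have hcyc : (SimpleGraph.fromEdgeSet (C : Set (Sym2 V))).IsCycles := by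
    intro w hw
    rw [ham_nbset hon] at hw ⊢
    rw [Set.ncard_coe_finset]
    by_cases hwU : w ∈ U
    · exact hdeg w hwU
    · rw [hon.nb_eq_empty hwU] at hw
      simp at hw
  have hne : ((SimpleGraph.fromEdgeSet (C : Set (Sym2 V))).neighborSet v).Nonempty := by
    rw [ham_nbset hon, coe_nonempty, ← card_pos]
    have := hdeg v hv
    unfold dg at this
    omega
  obtain ⟨p, hp, hs⟩ := hcyc.exists_cycle_toSubgraph_verts_eq_connectedComponentSupp
    (c := (SimpleGraph.fromEdgeSet (C : Set (Sym2 V))).connectedComponentMk v)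
    (SimpleGraph.ConnectedComponent.connectedComponentMk_mem) hne
  refine ⟨p, hp, ?_⟩
  have hmem : ∀ u, u ∈ p.support ↔
      (SimpleGraph.fromEdgeSet (C : Set (Sym2 V))).Reachable u v := by
    intro u
    rw [← SimpleGraph.Walk.mem_verts_toSubgraph, hs, SimpleGraph.ConnectedComponent.mem_supp_iff,
      SimpleGraph.ConnectedComponent.eq]
  have hS : (univ.filter fun u =>
      (SimpleGraph.fromEdgeSet (C : Set (Sym2 V))).Reachable u v) = U := by
    apply hcon
    · intro u hu
      obtain ⟨q⟩ := (mem_filter.1 hu).2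
      cases q with
      | nil => exact hv
      | cons ha _ => exact (hon.mk_mem (mem_nb.1 ((ham_adj hon).1 ha))).2.1
    · exact ⟨v, mem_filter.2 ⟨mem_univ _, SimpleGraph.Reachable.refl _⟩⟩
    · intro u hu w hw
      exact mem_filter.2 ⟨mem_univ _,
        ((ham_adj hon).2 hw).symm.reachable.trans (mem_filter.1 hu).2⟩
  intro u
  rw [hmem, ← hS, mem_filter]
  simp

lemma ham_pair (C : Finset (Sym2 V)) : ∀ (n : ℕ) (l : List V), l.length ≤ n → l.Nodup →
    l.IsChain (fun a b => s(a, b) ∈ C) →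
    ∃ M ⊆ C, IsMat l.toFinset M ∧ M.card = l.length / 2 := by
  intro n
  induction n with
  | zero =>
    intro l hl _ _
    refine ⟨∅, empty_subset _, ⟨fun e he => by simp at he, fun v => by simp⟩, ?_⟩
    have : l.length = 0 := by omega
    simp [this]
  | succ n ih =>
    intro l hl hnd hch
    match l, hl, hnd, hch with
    | [], _, _, _ =>
      exact ⟨∅, empty_subset _, ⟨fun e he => by simp at he, fun v => by simp⟩, by simp⟩
    | [a], _, _, _ =>
      exact ⟨∅, empty_subset _, ⟨fun e he => by simp at he, fun v => by simp⟩, by simp⟩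
    | a :: b :: l, hl, hnd, hch =>
      have hab : s(a, b) ∈ C := (List.isChain_cons_cons.1 hch).1
      have hch' : l.IsChain (fun a b => s(a, b) ∈ C) := (List.isChain_cons_cons.1 hch).2.tail
      have h1 := List.nodup_cons.1 hnd
      have h2 := List.nodup_cons.1 h1.2
      have hne : a ≠ b := fun e => h1.1 (by simp [e])
      have hal : a ∉ l.toFinset := fun e => h1.1 (List.mem_cons_of_mem _ (List.mem_toFinset.1 e))
      have hbl : b ∉ l.toFinset := fun e => h2.1 (List.mem_toFinset.1 e)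
      obtain ⟨M, hMC, hM, hcard⟩ := ih l (by simp at hl; omega) h2.2 hch'
      have hnot : s(a, b) ∉ M := fun e => hal (hM.1.mk_mem e).2.1
      have hon1 : On ({a, b} : Finset V) {s(a, b)} := by
        intro e he
        rw [mem_singleton.1 he]
        exact ⟨by simpa using hne, fun v hv => by simpa using hv⟩
      refine ⟨{s(a, b)} ∪ M, union_subset (singleton_subset_iff.2 hab) hMC, ⟨?_, ?_⟩, ?_⟩
      · refine (hon1.mono ?_ subset_rfl).union (hM.1.mono ?_ subset_rfl)
        · intro v hv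
          simp only [mem_insert, mem_singleton] at hv
          rcases hv with rfl | rfl <;> simp
        · intro v hv
          simp only [List.toFinset_cons, mem_insert]
          exact Or.inr (Or.inr hv)
      · intro v
        refine (dg_union_le _ _ v).trans ?_
        by_cases hv : v ∈ ({a, b} : Finset V)
        · have hv' : v ∉ l.toFinset := by
            simp only [mem_insert, mem_singleton] at hv
            rcases hv with rfl | rfl
            · exact hal
            · exact hbl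
          rw [hM.1.dg_eq_zero hv', add_zero]
          unfold dg
          rw [card_le_one]
          intro x hx y hy
          rw [mem_nb, mem_singleton] at hx hy
          exact Sym2.congr_right.1 (hx.trans hy.symm)
        · rw [hon1.dg_eq_zero hv, zero_add]
          exact hM.2 v
      · rw [card_union_of_disjoint (disjoint_singleton_left.2 hnot), card_singleton, hcard]
        simp only [List.length_cons]
        omega

/-- Hint: the tail of the support of the cycle is a list without repetitions whose consecutive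
elements are adjacent; pair up the elements of the list by induction in steps of two. -/
theorem ham_matching {U : Finset V} {C : Finset (Sym2 V)} (h : IsHam U C) :
    ∃ M ⊆ C, IsMat U M ∧ M.card = U.card / 2 := by
  rcases U.eq_empty_or_nonempty with rfl | ⟨v, hv⟩
  · exact ⟨∅, empty_subset _, ⟨fun e he => by simp at he, fun v => by simp⟩, by simp⟩
  obtain ⟨p, hp, hs⟩ := ham_walk h hv
  have hnd : p.support.tail.Nodup := hp.support_nodup
  have hch : p.support.tail.IsChain (fun a b => s(a, b) ∈ C) :=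
    (p.isChain_adj_support.tail).imp fun a b hab => mem_nb.1 ((ham_adj h.1).1 hab)
  have hU : p.support.tail.toFinset = U := by
    ext u
    rw [List.mem_toFinset, ← hs]
    constructor
    · exact List.mem_of_mem_tail
    · intro hu
      rcases (p.mem_support_iff).1 hu with rfl | hu
      · exact p.end_mem_tail_support hp.not_nil
      · exact hu
  obtain ⟨M, hMC, hM, hcard⟩ := ham_pair C _ _ le_rfl hnd hch
  refine ⟨M, hMC, hU ▸ hM, ?_⟩
  rw [hcard, ← hU, List.toFinset_card_of_nodup hnd]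

lemma ham_dm (k i : ℕ) : dm k i = 2 ∨ (dm k i = 1 ∧ i = 0 ∧ k % 2 = 1) := by
  unfold dm
  split_ifs with h
  · exact Or.inr ⟨rfl, h⟩
  · exact Or.inl rfl

lemma ham_colour {G : Finset (Sym2 V)} {T : Finset V} {k : ℕ} {F : ℕ → Finset (Sym2 V)}
    (hG : On univ G) (hN : Near G k) (h : TSys G T k F) (i : ℕ) :
    ∃ (X : Finset V) (M : Finset (Sym2 V)), i < KK k →
      (X ⊆ Tᶜ ∧ IsMat (Tᶜ \ X) M ∧ Aset X M = tch (F i) \ T) ∧
      (∀ w, w ∉ T → dm k i ≤ dem X M w + dg (F i) w ∧ dem X M w + dg (F i) w ≤ 2) ∧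
      (dm k i = 2 → ∀ C, Disjoint C M → IsHam (Tᶜ \ X) (C ∪ M) → IsHam univ (C ∪ F i)) ∧
      (dm k i = 1 → X = tch (F i) \ T ∧ M = ∅) := by
  by_cases hi : i < KK k
  swap
  · exact ⟨∅, ∅, fun h' => absurd h' hi⟩
  have hon : On univ (F i) := hG.mono subset_rfl (h.sub i hi)
  rcases ham_dm k i with hd | ⟨hd, -, -⟩
  · have hT : ∀ x ∈ T, dg (F i) x = 2 := fun x hx => by
      rw [h.degT i hi x hx, dx, if_neg, hd]
      rintro ⟨rfl, h1⟩
      simp [dm, hN.odd h1] at hd
    have h2 : ∀ v, dg (F i) v ≤ 2 := by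
      intro v
      by_cases hv : v ∈ T
      · exact (hT v hv).le
      · exact (h.degW i hi v hv).trans (by norm_num)
    have hC : NoCyc (F i) := by
      intro S hS hcl
      by_cases hST : S ⊆ T
      · obtain ⟨x, hx⟩ := hS
        have h1 := h.tt i hi x (hST hx)
        rw [inter_eq_left.2 ((hcl x hx).trans hST), hd] at h1
        have h3 := hT x (hST hx)
        unfold dg at h3
        omega
      · obtain ⟨x, hx, hxT⟩ := not_subset.1 hST
        exact ⟨x, hx, h.degW i hi x hxT⟩
    obtain ⟨L, hL, hdg, hC⟩ := contr hon h2 hC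
    have hfil : (univ.filter fun v => dg (F i) v ≤ 1) = Tᶜ := by
      ext v
      simp only [mem_filter, mem_univ, true_and, mem_compl]
      constructor
      · intro h1 hv
        have := hT v hv
        omega
      · exact h.degW i hi v
    have hsub : (univ.filter fun v => dg (F i) v = 1) ⊆ Tᶜ := by
      intro v hv
      rw [← hfil]
      exact mem_filter.2 ⟨mem_univ _, (mem_filter.1 hv).2.le⟩
    have hLon : On Tᶜ L := hL.1.mono hsub subset_rfl
    refine ⟨∅, L, fun _ => ⟨⟨empty_subset _, ?_, ?_⟩, ?_, ?_, ?_⟩⟩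
    · rw [sdiff_empty]
      exact ⟨hLon, hL.2⟩
    · ext v
      simp only [Aset, empty_union, mem_tch, mem_sdiff]
      by_cases hv : v ∈ T
      · rw [hLon.dg_eq_zero (by simpa using hv)]
        simp [hv]
      · rw [hdg v (h.degW i hi v hv)]
        simp [hv]
    · intro w hw
      have h1 := h.degW i hi w hw
      have h3 := hdg w h1
      simp only [dem, notMem_empty, if_false, hd]
      omega
    · intro _ C hCL hH
      rw [sdiff_empty, ← hfil] at hH
      exact (hC C hCL hH).2
    · intro h1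
      omega
  · refine ⟨tch (F i) \ T, ∅, fun _ => ⟨⟨?_, ?_, ?_⟩, ?_, ?_, ?_⟩⟩
    · intro v hv
      exact mem_compl.2 (mem_sdiff.1 hv).2
    · exact ⟨fun e he => by simp at he, fun v => by simp⟩
    · ext v
      simp [Aset]
    · intro w hw
      have h1 := h.degW i hi w hw
      simp only [dem, mem_sdiff, mem_tch, dg_empty, hd]
      split_ifs with h3
      · have := h3.1
        omega
      · have : dg (F i) w = 0 := by
          by_contra h4
          exact h3 ⟨Nat.pos_of_ne_zero h4, hw⟩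
        omega
    · intro h1
      omega
    · intro _
      exact ⟨rfl, rfl⟩

lemma ham_sum_dm (k : ℕ) : ∑ i ∈ range (KK k), dm k i = k := by
  rcases Nat.mod_two_eq_zero_or_one k with hk | hk
  · have : ∀ i ∈ range (KK k), dm k i = 2 := fun i _ => by simp [dm, hk]
    rw [sum_congr rfl this, sum_const, card_range, smul_eq_mul]
    unfold KK
    omega
  · have hK : KK k = k / 2 + 1 := by unfold KK; omega
    have : ∀ i ∈ range (k / 2), dm k (i + 1) = 2 := fun i _ => by simp [dm]
    rw [hK, sum_range_succ', sum_congr rfl this, sum_const, card_range, smul_eq_mul]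
    have : dm k 0 = 1 := by simp [dm, hk]
    omega

/-- Assembly: path systems through the exceptional set `T` plus Hamilton cycles on the rest give
the property `A_k`.
Hint: for a colour `i` with `dm k i = 2`, `F i` satisfies `NoCyc` (a closed set either meets the
complement of `T` or lies in `T`, which contradicts `tt` and `degT`); apply `contr` with `U = univ`
(the vertices of degree at most 1 are exactly `Tᶜ`), `X i = ∅`, `M i = L`. For the matching colour
(`i = 0`, `k` odd) take `X 0 = tch (F 0) \ T`, `M 0 = ∅`; then `(F 0).card = T.card = (X 0).card`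
by `handshake`, use `ham_matching` on `Tᶜ \ X 0`. Cycle number `i < k / 2` of `HasA` is colour
`i + k % 2`. -/
theorem asm {G : Finset (Sym2 V)} {T : Finset V} {k : ℕ} {F : ℕ → Finset (Sym2 V)}
    (hG : On univ G) (hN : Near G k) (hT : ∀ x, dg G x < k → x ∈ T) (h : TSys G T k F) :
    ∃ (X : ℕ → Finset V) (M : ℕ → Finset (Sym2 V)),
      (∀ i < KK k, X i ⊆ Tᶜ ∧ IsMat (Tᶜ \ X i) (M i) ∧ Aset (X i) (M i) = tch (F i) \ T) ∧
      (∀ w, w ∉ T → k ≤ ∑ i ∈ range (KK k), (dem (X i) (M i) w + dg (F i) w) ∧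
        ∑ i ∈ range (KK k), (dem (X i) (M i) w + dg (F i) w) ≤ k + 1) ∧
      ∀ F', HamFam Tᶜ (inside G Tᶜ) (range (KK k)) X M F' → HasA G k := by
  choose X M hXM using ham_colour hG hN h
  refine ⟨X, M, fun i hi => (hXM i hi).1, fun w hw => ⟨?_, ?_⟩, ?_⟩
  · calc k = ∑ i ∈ range (KK k), dm k i := (ham_sum_dm k).symm
      _ ≤ _ := sum_le_sum fun i hi => ((hXM i (mem_range.1 hi)).2.1 w hw).1
  · calc _ ≤ ∑ _i ∈ range (KK k), 2 :=
          sum_le_sum fun i hi => ((hXM i (mem_range.1 hi)).2.1 w hw).2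
      _ ≤ k + 1 := by
          rw [sum_const, card_range, smul_eq_mul]
          unfold KK
          omega
  rintro F' ⟨hF1, hF2⟩
  have hF'G : ∀ i < KK k, F' i ⊆ G := fun i hi =>
    (hF1 i (mem_range.2 hi)).1.trans (filter_subset _ _)
  have hcross : ∀ i < KK k, ∀ j < KK k, Disjoint (F' i) (F j) := by
    intro i hi j hj
    rw [disjoint_left]
    intro e he he'
    obtain ⟨x, hxT, hxe⟩ := h.touch j hj e he'
    exact mem_compl.1 ((mem_inside.1 ((hF1 i (mem_range.2 hi)).1 he)).2 x hxe) hxT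
  have hdisj : ∀ i < KK k, ∀ j < KK k, i ≠ j → Disjoint (F' i ∪ F i) (F' j ∪ F j) := by
    intro i hi j hj hij
    rw [disjoint_union_left, disjoint_union_right, disjoint_union_right]
    exact ⟨⟨hF2 i (mem_range.2 hi) j (mem_range.2 hj) hij, hcross i hi j hj⟩,
      (hcross j hj i hi).symm, h.disj i hi j hj hij⟩
  have hc : ∀ i < k / 2, i + k % 2 < KK k := fun i hi => by unfold KK; omega
  have hc2 : ∀ i, dm k (i + k % 2) = 2 := by
    intro i
    rcases ham_dm k (i + k % 2) with h1 | ⟨-, h1, h2⟩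
    · exact h1
    · omega
  have hM : ∃ M' : Finset (Sym2 V), k % 2 = 1 →
      M' ⊆ F' 0 ∪ F 0 ∧ IsMat univ M' ∧ M'.card = Fintype.card V / 2 := by
    by_cases hk : k % 2 = 1
    swap
    · exact ⟨∅, fun h' => absurd h' hk⟩
    have h0 : 0 < KK k := by unfold KK; omega
    have hd : dm k 0 = 1 := by simp [dm, hk]
    obtain ⟨hX, hM0⟩ := (hXM 0 h0).2.2.2 hd
    have hH := (hF1 0 (mem_range.2 h0)).2.2
    rw [hM0, union_empty, hX] at hH
    obtain ⟨M', hM'F, hM', hcard⟩ := ham_matching hH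
    have hT' : ∀ x ∈ T, dg (F 0) x = if dg G x < k then 0 else 1 := fun x hx => by
      rw [h.degT 0 h0 x hx, dx, hd]; simp
    have hF0 : IsMat univ (F 0) := by
      refine ⟨hG.mono subset_rfl (h.sub 0 h0), fun v => ?_⟩
      by_cases hv : v ∈ T
      · rw [hT' v hv]; split_ifs <;> omega
      · exact h.degW 0 h0 v hv
    have hset : Tᶜ \ (tch (F 0) \ T) = (tch (F 0) ∪ univ.filter fun v => dg G v < k)ᶜ := by
      ext v
      simp only [mem_sdiff, mem_compl, mem_tch, mem_union, mem_filter, mem_univ, true_and]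
      constructor
      · rintro ⟨h1, h2⟩ (h3 | h3)
        · exact h2 ⟨h3, h1⟩
        · exact h1 (hT v h3)
      · intro h1
        refine ⟨fun h2 => h1 ?_, fun h2 => h1 (Or.inl h2.1)⟩
        rw [hT' v h2]
        split_ifs with h3
        · exact Or.inr h3
        · exact Or.inl Nat.one_pos
    have hdx : Disjoint (tch (F 0)) (univ.filter fun v => dg G v < k) :=
      disjoint_left.2 fun v h1 h2 => by
        have h3 := (mem_filter.1 h2).2
        rw [mem_tch, hT' v (hT v h3), if_pos h3] at h1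
        exact lt_irrefl _ h1
    rw [hset] at hM' hcard
    have hdj : Disjoint M' (F 0) := (hcross 0 h0 0 h0).mono_left hM'F
    refine ⟨M' ∪ F 0, fun _ => ⟨union_subset_union hM'F subset_rfl,
      ⟨(hM'.1.mono (subset_univ _) subset_rfl).union hF0.1, fun v => ?_⟩, ?_⟩⟩
    · refine (dg_union_le _ _ v).trans ?_
      by_cases hv : v ∈ tch (F 0)
      · rw [hM'.1.dg_eq_zero (fun h1 => mem_compl.1 h1 (mem_union_left _ hv)), zero_add]
        exact hF0.2 v
      · have : dg (F 0) v = 0 := by simpa using hv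
        rw [this, add_zero]
        exact hM'.2 v
    · rw [card_union_of_disjoint hdj, hcard, card_compl, card_union_of_disjoint hdx,
        ← hF0.two_card]
      have h1 := card_le_univ (tch (F 0) ∪ univ.filter fun v => dg G v < k)
      rw [card_union_of_disjoint hdx, ← hF0.two_card] at h1
      have h2 := hN.2
      rw [hk, mul_one] at h2
      omega
  obtain ⟨M', hM'⟩ := hM
  refine ⟨fun i => F' (i + k % 2) ∪ F (i + k % 2), M', fun i hi => ⟨?_, ?_⟩, ?_, ?_⟩
  · exact union_subset (hF'G _ (hc i hi)) (h.sub _ (hc i hi))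
  · have h1 := hF1 _ (mem_range.2 (hc i hi))
    exact (hXM _ (hc i hi)).2.2.1 (hc2 i) _ h1.2.1 h1.2.2
  · intro i hi j hj hij
    exact hdisj _ (hc i hi) _ (hc j hj) (by omega)
  · intro hk
    have h0 : 0 < KK k := by unfold KK; omega
    obtain ⟨h1, h2, h3⟩ := hM' hk
    refine ⟨h1.trans (union_subset (hF'G 0 h0) (h.sub 0 h0)), h2, h3, fun i hi => ?_⟩
    exact (hdisj 0 h0 _ (hc i hi) (by omega)).mono_left h1

end

end Pool.Agent.MP_1376f1_pr

end

-- part MP_1376f1_pr.Conv
section

/-!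
Translation to the language of simple graphs.
-/

set_option autoImplicit false
set_option linter.unusedSectionVars false

namespace Pool.Agent.MP_1376f1_pr

open Finset MP_d802e4_co
open scoped Classical

noncomputable section



theorem proc_eq {n : ℕ} (σ : Order n) (m : ℕ) :
    proc σ m = SimpleGraph.fromEdgeSet (first σ m : Set (Sym2 (Fin n))) := by
  unfold proc
  congr 1
  ext e
  simp [first]

lemma conv_ham {n : ℕ} {G C : Finset (Sym2 (Fin n))} (hC : C ⊆ G) (h : IsHam univ C) (v : Fin n) :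
    ∃ c : (SimpleGraph.fromEdgeSet (G : Set (Sym2 (Fin n)))).Walk v v,
      c.IsHamiltonianCycle ∧ ∀ e ∈ c.edges, e ∈ C := by
  obtain ⟨p, hp, hs⟩ := ham_walk h (mem_univ v)
  have hle : SimpleGraph.fromEdgeSet (C : Set (Sym2 (Fin n))) ≤
      SimpleGraph.fromEdgeSet (G : Set (Sym2 (Fin n))) :=
    SimpleGraph.fromEdgeSet_mono (Finset.coe_subset.2 hC)
  have he : ∀ e ∈ p.edges, e ∈ (SimpleGraph.fromEdgeSet (G : Set (Sym2 (Fin n)))).edgeSet :=
    fun e he => SimpleGraph.edgeSet_mono hle (p.edges_subset_edgeSet he)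
  refine ⟨p.transfer _ he, ?_, ?_⟩
  · have hc := hp.transfer he
    refine ⟨hc, hc.isPath_tail.isHamiltonian_of_mem fun w => ?_⟩
    rw [SimpleGraph.Walk.support_tail_of_not_nil _ hc.not_nil, SimpleGraph.Walk.support_transfer]
    have hw : w ∈ p.support := (hs w).2 (mem_univ w)
    by_cases hwv : w = v
    · rw [hwv]; exact SimpleGraph.Walk.end_mem_tail_support hp.not_nil
    · rw [← SimpleGraph.Walk.cons_tail_support, List.mem_cons] at hw
      exact hw.resolve_left hwv
  · intro e he'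
    rw [SimpleGraph.Walk.edges_transfer] at he'
    have := p.edges_subset_edgeSet he'
    rw [SimpleGraph.edgeSet_fromEdgeSet] at this
    exact this.1

lemma conv_mat {n : ℕ} {G M : Finset (Sym2 (Fin n))} (hM : M ⊆ G) (h : IsMat univ M) :
    ∃ M' : (SimpleGraph.fromEdgeSet (G : Set (Sym2 (Fin n)))).Subgraph,
      M'.IsMatching ∧ M'.edgeSet = (M : Set (Sym2 (Fin n))) := by
  refine ⟨⟨(tch M : Set (Fin n)), fun u v => s(u, v) ∈ M, fun {u v} huv => ?_,
    fun {u v} huv => ?_, ⟨fun u v huv => by rwa [Sym2.eq_swap]⟩⟩, ?_, ?_⟩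
  · rw [SimpleGraph.fromEdgeSet_adj]
    exact ⟨hM huv, (h.1.mk_mem huv).1⟩
  · rw [Finset.mem_coe, mem_tch]
    exact Finset.card_pos.2 ⟨v, mem_nb.2 huv⟩
  · intro v hv
    have hv' : 0 < dg M v := mem_tch.1 hv
    obtain ⟨w, hw⟩ := Finset.card_pos.1 hv'
    exact ⟨w, mem_nb.1 hw, fun u hu => Finset.card_le_one.1 (h.2 v) u (mem_nb.2 hu) w hw⟩
  · ext e
    induction e using Sym2.ind with
    | h u v => rfl

lemma conv_dg {n : ℕ} (G : SimpleGraph (Fin n)) (E : Finset (Sym2 (Fin n)))
    (h : ∀ u v, G.Adj u v ↔ s(u, v) ∈ E) (v : Fin n) : (G.neighborSet v).ncard = dg E v := by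
  have : G.neighborSet v = (nb E v : Set (Fin n)) := by
    ext u; simp [h]
  rw [this, Set.ncard_coe_finset, dg]

lemma conv_dg_first {n : ℕ} (σ : Order n) (m : ℕ) (v : Fin n) :
    ((proc σ m).neighborSet v).ncard = dg (first σ m) v := by
  refine conv_dg _ _ (fun u w => ?_) v
  rw [proc_eq, SimpleGraph.fromEdgeSet_adj, Finset.mem_coe]
  refine ⟨fun h => h.1, fun h => ⟨h, ?_⟩⟩
  obtain ⟨i, _, hi⟩ := trans_mem_first.1 h
  have := (σ i).2
  rw [hi] at this
  simpa using this

lemma conv_dg_le_card {n : ℕ} (T : Finset (Sym2 (Fin n))) (v : Fin n) : dg T v ≤ T.card := by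
  refine Finset.card_le_card_of_injOn (fun u => s(v, u)) (fun u hu => mem_nb.1 hu) ?_
  intro a _ b _ hab
  exact Sym2.congr_right.1 hab

lemma conv_step {n : ℕ} (σ : Order n) (m : ℕ) (v : Fin n) :
    dg (first σ (m + 1)) v ≤ dg (first σ m) v + 1 := by
  have h1 : first σ (m + 1) ⊆ first σ m ∪
      (univ.filter fun i : Fin (n.choose 2) => i.val = m).image fun i => (σ i).val := by
    intro e he
    obtain ⟨i, hi, rfl⟩ := trans_mem_first.1 he
    rcases Nat.lt_succ_iff_lt_or_eq.1 hi with h | h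
    · exact mem_union_left _ (trans_mem_first.2 ⟨i, h, rfl⟩)
    · exact mem_union_right _ (mem_image_of_mem _ (by simp [h]))
  refine (dg_mono h1 v).trans ((dg_union_le _ _ v).trans (Nat.add_le_add_left ?_ _))
  refine (conv_dg_le_card _ v).trans (Finset.card_image_le.trans (Finset.card_le_one.2 ?_))
  intro a ha b hb
  exact Fin.ext ((mem_filter.1 ha).2.trans (mem_filter.1 hb).2.symm)

/-- Hint: `ham_walk`, `Walk.mapLe` or `Walk.transfer`,
`isHamiltonianCycle_iff_isCycle_and_length_eq` or `IsPath.isHamiltonian_of_mem` for the tail; the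
matching is the subgraph with vertex set `tch M` and adjacency `s(u,v) ∈ M`. -/
theorem propA_of_hasA {n : ℕ} (hn : 1 ≤ n) {G : Finset (Sym2 (Fin n))} {k : ℕ} (h : HasA G k) :
    PropA (SimpleGraph.fromEdgeSet (G : Set (Sym2 (Fin n)))) k := by
  obtain ⟨C, M, h1, h2, h3⟩ := h
  have hc := fun i : Fin (k / 2) => conv_ham (h1 i i.2).1 (h1 i i.2).2 (⟨0, hn⟩ : Fin n)
  choose c hc1 hc2 using hc
  have hdis : ∀ i j : Fin (k / 2), i ≠ j → ∀ e ∈ (c i).edges, e ∉ (c j).edges :=
    fun i j hij e he he' => Finset.disjoint_left.1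
      (h2 i i.2 j j.2 fun h => hij (Fin.ext h)) (hc2 i e he) (hc2 j e he')
  by_cases hk : k % 2 = 1
  · obtain ⟨m1, m2, m3, m4⟩ := h3 hk
    obtain ⟨M', hM1, hM2⟩ := conv_mat m1 m2
    refine ⟨fun _ => ⟨0, hn⟩, c, M', hc1, hdis, fun _ => ⟨hM1, ?_, fun i e he he' => ?_⟩⟩
    · rw [hM2, Set.ncard_coe_finset, m3, Fintype.card_fin]
    · rw [hM2, Finset.mem_coe] at he'
      exact Finset.disjoint_left.1 (m4 i i.2) he' (hc2 i e he)
  · exact ⟨fun _ => ⟨0, hn⟩, c, ⊥, hc1, hdis, fun ho => absurd (Nat.odd_iff.1 ho) hk⟩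

/-- Hint: each Hamilton cycle contributes two neighbours of `v`
(`Walk.IsCycle.ncard_neighborSet_toSubgraph_eq_two`), a matching with `n / 2` edges covers all
vertices if `n` is even, and the neighbours are distinct because the edge sets are disjoint. -/
theorem near_of_propA {n : ℕ} {G : SimpleGraph (Fin n)} {k : ℕ} (h : PropA G k) :
    Near (univ.filter fun e => e ∈ G.edgeSet) k := by
  obtain ⟨w, c, M, h1, h2, h3⟩ := h
  set E : Fin (k / 2) → Finset (Sym2 (Fin n)) := fun i => (c i).edges.toFinset with hE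
  have hdg : ∀ v i, dg (E i) v = 2 := by
    intro v i
    have a1 := (h1 i).isCycle.ncard_neighborSet_toSubgraph_eq_two ((h1 i).mem_support v)
    have a2 : (c i).toSubgraph.neighborSet v = (nb (E i) v : Set (Fin n)) := by
      ext u
      simp [hE, SimpleGraph.Walk.adj_toSubgraph_iff_mem_edges]
    rwa [a2, Set.ncard_coe_finset] at a1
  have hU : ∀ v, dg (univ.biUnion E) v = 2 * (k / 2) := by
    intro v
    rw [dg_biUnion univ E (fun i _ j _ hij => Finset.disjoint_left.2 fun e he he' =>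
      h2 i j hij e (List.mem_toFinset.1 he) (List.mem_toFinset.1 he'))]
    simp [hdg, mul_comm]
  have hUs : univ.biUnion E ⊆ univ.filter fun e => e ∈ G.edgeSet := by
    intro e he
    obtain ⟨i, _, hi⟩ := mem_biUnion.1 he
    exact mem_filter.2 ⟨mem_univ _, (c i).edges_subset_edgeSet (List.mem_toFinset.1 hi)⟩
  have hge : ∀ v, 2 * (k / 2) ≤ dg (univ.filter fun e => e ∈ G.edgeSet) v := fun v =>
    hU v ▸ dg_mono hUs v
  refine ⟨fun v => by have := hge v; omega, ?_⟩
  rcases Nat.even_or_odd k with hk | hk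
  · rw [filter_false_of_mem, card_empty]
    · exact Nat.zero_le _
    · intro v _
      have := hge v
      obtain ⟨r, hr⟩ := hk
      omega
  · obtain ⟨m1, m2, m3⟩ := h3 hk
    set M' : Finset (Sym2 (Fin n)) := univ.filter fun e => e ∈ M.edgeSet with hM'
    have hcoe : M.edgeSet = (M' : Set (Sym2 (Fin n))) := by ext e; simp [hM']
    have hmat : IsMat univ M' := by
      refine ⟨fun e he => ⟨G.not_isDiag_of_mem_edgeSet (M.edgeSet_subset (mem_filter.1 he).2),
        fun _ _ => mem_univ _⟩, fun u => Finset.card_le_one.2 fun a ha b hb => ?_⟩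
      have ha' : M.Adj u a := (mem_filter.1 (mem_nb.1 ha)).2
      have hb' : M.Adj u b := (mem_filter.1 (mem_nb.1 hb)).2
      exact (m1 (M.edge_vert ha')).unique ha' hb'
    have hcard := hmat.two_card
    rw [hcoe, Set.ncard_coe_finset] at m2
    have hdis : Disjoint (univ.biUnion E) M' := by
      refine Finset.disjoint_left.2 fun e he he' => ?_
      obtain ⟨i, _, hi⟩ := mem_biUnion.1 he
      exact m3 i e (List.mem_toFinset.1 hi) (mem_filter.1 he').2
    have hsub : univ.biUnion E ∪ M' ⊆ univ.filter fun e => e ∈ G.edgeSet :=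
      union_subset hUs fun e he => mem_filter.2 ⟨mem_univ _, M.edgeSet_subset (mem_filter.1 he).2⟩
    refine (card_le_card (t := (tch M')ᶜ) fun v hv => mem_compl.2 fun hpos => ?_).trans ?_
    · have h4 := dg_mono hsub v
      rw [dg_union hdis, hU] at h4
      have h5 := mem_tch.1 hpos
      have h6 := (mem_filter.1 hv).2
      omega
    · rw [card_compl, Fintype.card_fin, Nat.odd_iff.1 hk]
      omega

lemma conv_near {n : ℕ} {σ : Order n} {m k : ℕ} (h : PropA (proc σ m) k) : Near (first σ m) k := by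
  have h1 := near_of_propA h
  have h2 : ∀ v, dg (univ.filter fun e => e ∈ (proc σ m).edgeSet) v = dg (first σ m) v := fun v => by
    rw [← conv_dg_first, conv_dg (proc σ m) (univ.filter fun e => e ∈ (proc σ m).edgeSet)
      (fun u w => by simp) v]
  unfold Near at h1 ⊢
  simpa only [h2] using h1

lemma conv_all {n : ℕ} (σ : Order n) {k : ℕ} (hkn : k ≤ n - 1) (v : Fin n) :
    k ≤ dg (first σ (n.choose 2)) v := by
  have hall : first σ (n.choose 2) = allE (Fin n) := by
    ext e
    rw [trans_mem_first, mem_allE]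
    exact ⟨fun ⟨i, _, hi⟩ => hi ▸ (σ i).2, fun he => ⟨σ.symm ⟨e, he⟩, Fin.is_lt _, by simp⟩⟩
  have := dg_allE v
  rw [Fintype.card_fin] at this
  rw [hall]
  omega

lemma conv_zero {n : ℕ} (σ : Order n) : first σ 0 = ∅ := by ext e; simp [trans_mem_first]

/-- at the first time of a degree condition some degree is at most `k` -/
lemma conv_first {n : ℕ} (hn : 1 ≤ n) (σ : Order n) {k : ℕ} {S : Set ℕ}
    (hS : ∀ m, (∀ v, k ≤ dg (first σ m) v) → m ∈ S) : ∃ v, dg (first σ (sInf S)) v ≤ k := by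
  rcases hm : sInf S with _ | m
  · exact ⟨⟨0, hn⟩, by rw [conv_zero, dg_empty]; exact Nat.zero_le _⟩
  · have hnot : m ∉ S := Nat.notMem_of_lt_sInf (by omega)
    obtain ⟨v, hv⟩ := not_forall.1 fun h => hnot (hS m h)
    have h2 := conv_step σ m v
    exact ⟨v, by omega⟩

lemma conv_mem_near {n : ℕ} (σ : Order n) (m k : ℕ) :
    ((∀ v, k - 1 ≤ ((proc σ m).neighborSet v).ncard) ∧
      {v | ((proc σ m).neighborSet v).ncard < k}.ncard ≤ 1) ↔
    (∀ v, k ≤ dg (first σ m) v + 1) ∧ (univ.filter fun v => dg (first σ m) v < k).card ≤ 1 := by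
  simp only [conv_dg_first, ← Set.ncard_coe_finset, coe_filter, mem_univ, true_and,
    Nat.sub_le_iff_le_add]

theorem conv {n : ℕ} (σ : Order n) (h : ∀ m k, Tight (first σ m) k → HasA (first σ m) k)
    {k : ℕ} (hk : 1 ≤ k) (hkn : k ≤ n - 1) :
    PropA (proc σ (mDeg σ k)) k ∧
      mA σ k = if Odd n ∧ Odd k then mNear σ k else mDeg σ k := by
  have hn : 1 ≤ n := by omega
  have hP : ∀ m, Tight (first σ m) k → PropA (proc σ m) k := fun m hm => by
    rw [proc_eq]; exact propA_of_hasA hn (h _ _ hm)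
  have hne : {m | ∀ v, k ≤ ((proc σ m).neighborSet v).ncard}.Nonempty :=
    ⟨n.choose 2, fun v => conv_dg_first σ _ v ▸ conv_all σ hkn v⟩
  have hmem : ∀ v, k ≤ dg (first σ (mDeg σ k)) v := fun v =>
    conv_dg_first σ _ v ▸ Nat.sInf_mem hne v
  have hA : PropA (proc σ (mDeg σ k)) k := by
    refine hP _ ⟨⟨fun v => (hmem v).trans (Nat.le_succ _), ?_⟩,
      conv_first hn σ fun m hm v => conv_dg_first σ _ v ▸ hm v⟩
    rw [filter_false_of_mem fun v _ => not_lt.2 (hmem v), card_empty]
    exact Nat.zero_le _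
  have hN : Near (first σ (mA σ k)) k :=
    conv_near (Nat.sInf_mem (s := {m | PropA (proc σ m) k}) ⟨_, hA⟩)
  refine ⟨hA, ?_⟩
  split_ifs with hpar
  · have hS : ∀ m, (∀ v, k ≤ dg (first σ m) v) → (∀ v, k - 1 ≤ ((proc σ m).neighborSet v).ncard) ∧
        {v | ((proc σ m).neighborSet v).ncard < k}.ncard ≤ 1 := fun m hm => by
      refine (conv_mem_near σ m k).2 ⟨fun v => (hm v).trans (Nat.le_succ _), ?_⟩
      rw [filter_false_of_mem fun v _ => not_lt.2 (hm v), card_empty]
      exact Nat.zero_le _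
    have h1 := (conv_mem_near σ (mNear σ k) k).1 (Nat.sInf_mem
      (s := {m | (∀ v, k - 1 ≤ ((proc σ m).neighborSet v).ncard) ∧
        {v | ((proc σ m).neighborSet v).ncard < k}.ncard ≤ 1}) ⟨_, hS _ hmem⟩)
    refine le_antisymm (Nat.sInf_le (hP _ ⟨⟨h1.1, ?_⟩, conv_first hn σ hS⟩))
      (Nat.sInf_le ((conv_mem_near σ _ k).2 ⟨hN.1, hN.card_le⟩))
    rw [Fintype.card_fin, Nat.odd_iff.1 hpar.1, Nat.odd_iff.1 hpar.2]
    exact h1.2
  · refine le_antisymm (Nat.sInf_le hA) (Nat.sInf_le fun v => ?_)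
    rw [conv_dg_first]
    by_contra hv
    have h1 : 0 < (univ.filter fun v => dg (first σ (mA σ k)) v < k).card :=
      card_pos.2 ⟨v, mem_filter.2 ⟨mem_univ _, not_le.1 hv⟩⟩
    have h2 := hN.2
    rw [Fintype.card_fin] at h2
    rw [Nat.odd_iff, Nat.odd_iff] at hpar
    rcases Nat.mod_two_eq_zero_or_one n with h3 | h3 <;>
      rcases Nat.mod_two_eq_zero_or_one k with h4 | h4 <;> rw [h3, h4] at h2 <;> omega

/-- If no isolated edge appears, the last isolated vertex disappears strictly after the last but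
one. -/
theorem conv_lt {n : ℕ} (hn : 2 ≤ n) (σ : Order n)
    (h : ∀ m, (∀ v, 1 ≤ dg (first σ m) v) → ∀ u v, s(u, v) ∈ first σ m →
      dg (first σ m) u ≤ 1 → dg (first σ m) v ≤ 1 → False) : mNear σ 1 < mDeg σ 1 := by
  have hne : {m | ∀ v, 1 ≤ ((proc σ m).neighborSet v).ncard}.Nonempty :=
    ⟨n.choose 2, fun v => conv_dg_first σ _ v ▸ conv_all σ (by omega) v⟩
  have hmem : ∀ v, 1 ≤ dg (first σ (mDeg σ 1)) v := fun v =>
    conv_dg_first σ _ v ▸ Nat.sInf_mem hne v
  rcases hm : mDeg σ 1 with _ | m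
  · have := hmem ⟨0, by omega⟩
    rw [hm, conv_zero, dg_empty] at this
    omega
  rw [hm] at hmem
  refine Nat.lt_succ_of_le (Nat.sInf_le ((conv_mem_near σ m 1).2
    ⟨fun v => Nat.le_add_left _ _, card_le_one.2 fun u hu v hv => ?_⟩))
  have hu0 := (mem_filter.1 hu).2
  have hv0 := (mem_filter.1 hv).2
  have key : ∀ w, dg (first σ m) w < 1 → ∃ i : Fin (n.choose 2), i.val = m ∧ w ∈ (σ i).val := by
    intro w hw
    obtain ⟨z, hz⟩ := card_pos.1 (hmem w)
    obtain ⟨i, hi, he⟩ := trans_mem_first.1 (mem_nb.1 hz)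
    refine ⟨i, ?_, by rw [he]; simp⟩
    by_contra hc
    have h1 : z ∈ nb (first σ m) w := mem_nb.2 (trans_mem_first.2 ⟨i, by omega, he⟩)
    have h2 : 0 < dg (first σ m) w := card_pos.2 ⟨z, h1⟩
    omega
  obtain ⟨i, hi, hui⟩ := key u hu0
  obtain ⟨j, hj, hvj⟩ := key v hv0
  obtain rfl : i = j := Fin.ext (hi.trans hj.symm)
  by_contra huv
  have h1 := conv_step σ m u
  have h2 := conv_step σ m v
  exact h (m + 1) hmem u v (trans_mem_first.2 ⟨i, by omega,
    (Sym2.mem_and_mem_iff huv).1 ⟨hui, hvj⟩⟩) (by omega) (by omega)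

/-- from a bound on bad graphs to the limit -/
theorem conv_lim (Bad : ∀ n : ℕ, Finset (Sym2 (Fin n)) → Prop) (S : ∀ n : ℕ, Set (Order n))
    (hB : ∀ δ : ℝ, 0 < δ → ∃ n0 : ℕ, ∀ n ≥ n0, Pr (unif (n ^ 4))
      (fun ω : Sym2 (Fin n) → Fin (n ^ 4) => ∃ P ≤ n ^ 4, Bad n (thr ω P)) ≤ δ)
    (hS : ∀ n ≥ 2, ∀ σ : Order n, (∀ m, ¬ Bad n (first σ m)) → σ ∈ S n) :
    Filter.Tendsto (fun n : ℕ => ((S n).ncard : ℝ) / Nat.card (Order n)) Filter.atTop (nhds 1) := by
  rw [Metric.tendsto_atTop]
  intro ε hε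
  obtain ⟨n0, hn0⟩ := hB (ε / 4) (by positivity)
  refine ⟨max n0 2, fun n hn => ?_⟩
  have h1 := hn0 n (le_trans (le_max_left _ _) hn)
  have h2 := transfer n (le_trans (le_max_right _ _) hn) (Bad n)
  have hne := trans_order n
  have hpos : (0 : ℝ) < Fintype.card (Order n) := by exact_mod_cast Fintype.card_pos
  set B : Finset (Order n) := Finset.univ.filter fun σ : Order n => ∃ m, Bad n (first σ m) with hB
  have h3 : Fintype.card (Order n) ≤ (S n).ncard + B.card := by
    rw [← Set.ncard_coe_finset B, ← Nat.card_eq_fintype_card, ← Set.ncard_univ]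
    refine le_trans (Set.ncard_le_ncard (t := S n ∪ (B : Set (Order n))) ?_ (Set.toFinite _))
      (Set.ncard_union_le _ _)
    intro σ _
    by_cases hb : σ ∈ B
    · exact Or.inr hb
    · exact Or.inl (hS n (le_trans (le_max_right _ _) hn) σ fun m hm =>
        hb (Finset.mem_filter.2 ⟨Finset.mem_univ _, m, hm⟩))
  have h4 : (S n).ncard ≤ Fintype.card (Order n) := by
    rw [← Nat.card_eq_fintype_card, ← Set.ncard_univ]
    exact Set.ncard_le_ncard (Set.subset_univ _) (Set.toFinite _)
  have h5 : (B.card : ℝ) ≤ ε / 2 * Fintype.card (Order n) := by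
    refine le_trans h2 ?_
    gcongr
    linarith
  have h3' : (Fintype.card (Order n) : ℝ) ≤ (S n).ncard + B.card := by exact_mod_cast h3
  have h4' : ((S n).ncard : ℝ) ≤ Fintype.card (Order n) := by exact_mod_cast h4
  rw [Real.dist_eq, Nat.card_eq_fintype_card, abs_lt]
  constructor
  · have : 1 - ε / 2 ≤ ((S n).ncard : ℝ) / Fintype.card (Order n) := by
      rw [le_div_iff₀ hpos]; linarith
    linarith
  · have : ((S n).ncard : ℝ) / Fintype.card (Order n) ≤ 1 := by
      rw [div_le_one hpos]; exact h4'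
    linarith

end

end Pool.Agent.MP_1376f1_pr

end
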