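import Pool.Agent.MP_1376f1_pr.Mg.Posa

/-!
Completion of a locked matching to a Hamilton cycle; the final stage.
-/

set_option autoImplicit false
set_option linter.unusedSectionVars false

namespace Pool.Agent.MP_1376f1_pr

open Finset MP_d802e4_co
open scoped Classical

noncomputable section

variable {V : Type} [Fintype V] [DecidableEq V]

lemma expand_count {S0 S' : Finset V} {R : Finset (Sym2 V)} (N : V → Finset V) (hS : S0 ⊆ S')
    (hN : ∀ y ∈ S0, N y ⊆ S' ∧ y ∉ N y ∧ ∀ z ∈ N y, s(y, z) ∈ R) :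
    ∑ y ∈ S0, (N y).card ≤ 2 * (inside R S').card := by
  set E : Finset (Sym2 V) := S0.biUnion fun y => (N y).image fun z => s(y, z) with hE
  have hOn : On S' E := by
    intro e he
    simp only [hE, mem_biUnion, mem_image] at he
    obtain ⟨y, hy, z, hz, rfl⟩ := he
    refine ⟨?_, ?_⟩
    · rw [Sym2.mk_isDiag_iff]
      rintro rfl
      exact (hN y hy).2.1 hz
    · intro v hv
      rcases Sym2.mem_iff.1 hv with rfl | rfl
      · exact hS hy
      · exact (hN y hy).1 hz
  have hsub : E ⊆ inside R S' := by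
    intro e he
    refine mem_inside.2 ⟨?_, (hOn e he).2⟩
    simp only [hE, mem_biUnion, mem_image] at he
    obtain ⟨y, hy, z, hz, rfl⟩ := he
    exact (hN y hy).2.2 z hz
  calc ∑ y ∈ S0, (N y).card ≤ ∑ y ∈ S0, dg E y := by
        apply sum_le_sum
        intro y hy
        apply card_le_card
        intro z hz
        rw [mem_nb]
        simp only [hE, mem_biUnion, mem_image]
        exact ⟨y, hy, z, hz, rfl⟩
    _ ≤ ∑ y ∈ S', dg E y := sum_le_sum_of_subset hS
    _ = 2 * E.card := handshake hOn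
    _ ≤ _ := Nat.mul_le_mul_left _ (card_le_card hsub)

lemma expand_sparse_mono {Q : Finset (Sym2 V)} {a a' lam : ℝ} (h : Sparse Q a lam) (ha : a' ≤ a) :
    Sparse Q a' lam := fun S hS => h S (hS.trans ha)


/-- Hint: choose subsets of `N y` of size exactly `δ0` (for `y ∉ T1`) or `d0` (for `y ∈ T1`) and
let `Γ` be the corresponding edges, `|Γ| ≤ δ0 |Y|`. Expansion: if `S` has at most `2 |S|`
neighbours in `Z \ S`, the set `S'` of `S` and these neighbours has at most `3 |S|` elements and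
contains all chosen edges at `S`; every edge is counted at most twice. If `T1 ≠ ∅` and
`|S| ≤ a1` use `Sparse P`, otherwise at least half of `S` is outside `T1`: use `Sparse Q`.
Then apply `complete`, and `hB` with `Boost ∩ C ⊆ inside C Z`. -/
theorem complete' {W Y Z T1 : Finset V} {L P C Q C' : Finset (Sym2 V)} (N : V → Finset V)
    {a δ0 d0 : ℕ} {lam lam1 a1 y0 e0 m0 b0 β : ℝ}
    (hY : Y ⊆ W) (hZ : Z ⊆ Y) (hL : IsMat (Y \ Z) L)
    (hN : ∀ y ∈ Y, N y ⊆ Z ∧ y ∉ N y ∧ ∀ z ∈ N y, s(y, z) ∈ P)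
    (hN1 : ∀ y ∈ Y, y ∉ T1 → δ0 ≤ (N y).card ∧ ∀ z ∈ N y, s(y, z) ∈ Q)
    (hN2 : ∀ y ∈ Y, y ∈ T1 → d0 ≤ (N y).card)
    (hS1 : Sparse Q (3 * a) lam) (hlam0 : 0 ≤ lam) (hlam : 12 * lam < δ0) (hd0 : d0 ≤ δ0)
    (hS2 : T1 = ∅ ∨ (Sparse P (3 * a1) lam1 ∧ 0 ≤ lam1 ∧ 6 * lam1 < d0 ∧ 2 * (T1.card : ℝ) ≤ a1))
    (ha : 2 * (Y \ Z).card ≤ a) (ha1 : 1 ≤ a)
    (hB : PropB W P C y0 e0 m0 b0 β) (hy0 : (Y.card : ℝ) ≤ y0) (he0 : (L.card : ℝ) ≤ e0)
    (hm0 : ((δ0 : ℝ) + 1) * Y.card ≤ m0) (hb0 : 8 * b0 ≤ (a : ℝ) ^ 2)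
    (hC' : On Z C') (hC'P : C' ⊆ P) (hβ : ((inside C Z \ C').card : ℝ) < β) :
    ∃ F : Finset (Sym2 V), (∀ e ∈ F, (∃ y ∈ Y, ∃ z ∈ N y, e = s(y, z)) ∨ e ∈ C') ∧
      Disjoint F L ∧ IsHam Y (F ∪ L) := by
  have hch : ∀ y, ∃ t : Finset V, y ∈ Y → t ⊆ N y ∧ t.card = if y ∈ T1 then d0 else δ0 := by
    intro y
    by_cases hy : y ∈ Y
    · by_cases h1 : y ∈ T1
      · obtain ⟨t, ht, hc⟩ := exists_subset_card_eq (hN2 y hy h1)
        exact ⟨t, fun _ => ⟨ht, by rw [if_pos h1, hc]⟩⟩
      · obtain ⟨t, ht, hc⟩ := exists_subset_card_eq (hN1 y hy h1).1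
        exact ⟨t, fun _ => ⟨ht, by rw [if_neg h1, hc]⟩⟩
    · exact ⟨∅, fun h => absurd h hy⟩
  choose N' hN' using hch
  set Γ : Finset (Sym2 V) := Y.biUnion fun y => (N' y).image fun z => s(y, z) with hΓ
  have memΓ : ∀ e, e ∈ Γ ↔ ∃ y ∈ Y, ∃ z ∈ N' y, s(y, z) = e := by
    intro e; simp only [hΓ, mem_biUnion, mem_image]
  have hOn : On Y Γ := by
    intro e he
    obtain ⟨y, hy, z, hz, rfl⟩ := (memΓ e).1 he
    refine ⟨?_, ?_⟩
    · rw [Sym2.mk_isDiag_iff]
      rintro rfl
      exact (hN y hy).2.1 ((hN' y hy).1 hz)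
    · intro v hv
      rcases Sym2.mem_iff.1 hv with rfl | rfl
      · exact hy
      · exact hZ ((hN y hy).1 ((hN' y hy).1 hz))
  have hΓZ : ∀ e ∈ Γ, ∃ v ∈ e, v ∈ Z := by
    intro e he
    obtain ⟨y, hy, z, hz, rfl⟩ := (memΓ e).1 he
    exact ⟨z, by simp, (hN y hy).1 ((hN' y hy).1 hz)⟩
  have hΓP : Γ ⊆ P := by
    intro e he
    obtain ⟨y, hy, z, hz, rfl⟩ := (memΓ e).1 he
    exact (hN y hy).2.2 z ((hN' y hy).1 hz)
  have hΓc : Γ.card ≤ δ0 * Y.card := by
    calc Γ.card ≤ ∑ y ∈ Y, ((N' y).image fun z => s(y, z)).card := card_biUnion_le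
      _ ≤ ∑ _y ∈ Y, δ0 := by
          apply sum_le_sum
          intro y hy
          refine card_image_le.trans ?_
          rw [(hN' y hy).2]
          split_ifs
          · exact hd0
          · exact le_rfl
      _ = _ := by rw [sum_const, smul_eq_mul, mul_comm]
  have hexp : Expands Y Z Γ a := by
    intro S hSY hne hSa
    by_contra hc
    push Not at hc
    set S' := S ∪ ((S.biUnion (nb Γ) ∩ Z) \ S) with hS'
    have hS'c : (S'.card : ℝ) ≤ 3 * S.card := by
      have := card_union_le S ((S.biUnion (nb Γ) ∩ Z) \ S)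
      have : S'.card ≤ 3 * S.card := by rw [hS']; omega
      exact_mod_cast this
    have hin : ∀ y ∈ S, N' y ⊆ S' := by
      intro y hy z hz
      by_cases hzS : z ∈ S
      · exact mem_union_left _ hzS
      · refine mem_union_right _ (mem_sdiff.2 ⟨mem_inter.2 ⟨mem_biUnion.2 ⟨y, hy, ?_⟩, ?_⟩, hzS⟩)
        · exact mem_nb.2 ((memΓ _).2 ⟨y, hSY hy, z, hz, rfl⟩)
        · exact (hN y (hSY hy)).1 ((hN' y (hSY hy)).1 hz)
    have hpos : (0 : ℝ) < S.card := by exact_mod_cast hne.card_pos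
    have caseQ : 2 * (S ∩ T1).card ≤ S.card → False := by
      intro h2
      have h3 := card_sdiff_add_card_inter S T1
      have h4 := expand_count (S0 := S \ T1) (S' := S') (R := Q) N'
        (sdiff_subset.trans subset_union_left) (fun y hy => by
          have hy' := mem_sdiff.1 hy
          have hyY := hSY hy'.1
          exact ⟨hin y hy'.1, fun h => (hN y hyY).2.1 ((hN' y hyY).1 h),
            fun z hz => (hN1 y hyY hy'.2).2 z ((hN' y hyY).1 hz)⟩)
      have h5 : ∑ y ∈ S \ T1, (N' y).card = (S \ T1).card * δ0 := by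
        rw [← smul_eq_mul, ← sum_const]
        apply sum_congr rfl
        intro y hy
        have hy' := mem_sdiff.1 hy
        rw [(hN' y (hSY hy'.1)).2, if_neg hy'.2]
      have h6 := hS1 S' (hS'c.trans (by
        have : (S.card : ℝ) ≤ a := by exact_mod_cast hSa
        linarith))
      rw [h5] at h4
      have h7 : ((S \ T1).card : ℝ) * δ0 ≤ 2 * (inside Q S').card := by exact_mod_cast h4
      have h8 : (S.card : ℝ) ≤ 2 * (S \ T1).card := by
        exact_mod_cast (show S.card ≤ 2 * (S \ T1).card by omega)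
      have h9 := mul_le_mul_of_nonneg_left hS'c hlam0
      have h10 : (0 : ℝ) ≤ δ0 := by positivity
      have h11 := mul_le_mul_of_nonneg_right h8 h10
      have h12 := mul_lt_mul_of_pos_right hlam hpos
      nlinarith
    rcases hS2 with hT | ⟨hSp, hl0, hl, hT⟩
    · exact caseQ (by simp [hT])
    · by_cases hs : (S.card : ℝ) ≤ a1
      · have h4 := expand_count (S0 := S) (S' := S') (R := P) N' subset_union_left
          (fun y hy => by
            have hyY := hSY hy
            exact ⟨hin y hy, fun h => (hN y hyY).2.1 ((hN' y hyY).1 h),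
              fun z hz => (hN y hyY).2.2 z ((hN' y hyY).1 hz)⟩)
        have h5 : S.card * d0 ≤ ∑ y ∈ S, (N' y).card := by
          rw [← smul_eq_mul, ← sum_const]
          apply sum_le_sum
          intro y hy
          rw [(hN' y (hSY hy)).2]
          split_ifs
          · exact le_rfl
          · exact hd0
        have h6 := hSp S' (hS'c.trans (by linarith))
        have h7 : (S.card : ℝ) * d0 ≤ 2 * (inside P S').card := by exact_mod_cast h5.trans h4
        have h9 := mul_le_mul_of_nonneg_left hS'c hl0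
        have h12 := mul_lt_mul_of_pos_right hl hpos
        nlinarith
      · apply caseQ
        have h1 : ((S ∩ T1).card : ℝ) ≤ T1.card := by
          exact_mod_cast card_le_card inter_subset_right
        have : 2 * ((S ∩ T1).card : ℝ) ≤ S.card := by linarith [not_le.1 hs]
        exact_mod_cast this
  obtain ⟨C0, hC0, hH⟩ := complete hZ hL hOn hΓZ hexp ha ha1 hC' (by
    intro Γ' _ h2 h3 h4
    have hb := hB Y Z L Γ' hY hZ hy0 he0
      ((hOn.union (hC'.mono hZ subset_rfl)).mono subset_rfl h2)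
      (h2.trans (union_subset hΓP hC'P))
      (by
        have h5 : (Γ'.card : ℝ) ≤ δ0 * Y.card + Y.card := by
          exact_mod_cast h3.trans (Nat.add_le_add_right hΓc _)
        linarith)
      (by
        have h5 : (a : ℝ) ^ 2 ≤ 8 * (Boost Y Z L Γ').card := by exact_mod_cast h4
        linarith)
    by_contra hc
    have hsub : Boost Y Z L Γ' ∩ C ⊆ inside C Z \ C' := by
      intro e he
      have he' := mem_inter.1 he
      refine mem_sdiff.2 ⟨mem_inside.2 ⟨he'.2, (mem_Boost.1 he'.1).2.1⟩, fun h => hc ?_⟩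
      exact ⟨e, mem_inter.2 ⟨he'.1, h⟩⟩
    have : ((Boost Y Z L Γ' ∩ C).card : ℝ) ≤ (inside C Z \ C').card := by
      exact_mod_cast card_le_card hsub
    linarith)
  refine ⟨C0 \ L, fun e he => ?_, sdiff_disjoint, by rwa [sdiff_union_self_eq_union]⟩
  rcases mem_union.1 (hC0 (mem_sdiff.1 he).1) with h | h
  · obtain ⟨y, hy, z, hz, rfl⟩ := (memΓ e).1 h
    exact Or.inl ⟨y, hy, z, (hN' y hy).1 hz, rfl⟩
  · exact Or.inr h

/-- The final stage. Hint: `seq_choice` with `Good i U := U ⊆ P ∧ Disjoint U (M i) ∧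
IsHam (W \ X i) (U ∪ M i)`. For colour `i` use `complete'` with `Y = W \ X i`,
`Z = W \ Aset (X i) (M i)`, `L = M i`, `a = ⌊n / 10 ^ 4⌋₊`, `δ0 = ⌈th * ρ / 16⌉₊`, `d0 = 25`,
`N y` the neighbours in `Z` along unused edges of `Q` (or of `P` if `y ∈ T1`), `C'` the unused edges
of `inside C Z`. Each earlier colour uses at most 2 edges at a vertex and at most `n` edges.
`ρ0 = 10 ^ 16` works. -/
theorem final : ∃ ρ0 : ℝ, ∀ (V : Type) [Fintype V] [DecidableEq V] (W T1 : Finset V)
    (Q P C : Finset (Sym2 V)) (ρ a1 : ℝ) (I : Finset ℕ) (X : ℕ → Finset V)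
    (M : ℕ → Finset (Sym2 V)), ρ0 ≤ ρ → ρ ≤ nV V → (I.card : ℝ) ≤ th * ρ / 8 →
    On W P → Q ⊆ P → C ⊆ P → PoolOK W ρ 1 1 Q P C →
    (∀ i ∈ I, X i ⊆ W ∧ IsMat (W \ X i) (M i) ∧ ((tch (M i)).card : ℝ) ≤ nV V / 10 ^ 30) →
    (∀ i ∈ I, ∀ w ∈ W, w ∉ T1 → th * ρ / 2 ≤ ((nb Q w \ Aset (X i) (M i)).card : ℝ)) →
    (T1 = ∅ ∨ (Sparse P (3 * a1) 4 ∧ 2 * (T1.card : ℝ) ≤ a1 ∧
      ∀ i ∈ I, ∀ w ∈ W, w ∈ T1 → th * ρ / 2 ≤ ((nb P w \ Aset (X i) (M i)).card : ℝ))) →
    ∃ F, HamFam W P I X M F := by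
  refine ⟨10 ^ 16, ?_⟩
  intro V _ _ W T1 Q P C ρ a1 I X M hρ hρn hI hP hQ hC hpool hM hdeg hT
  have hth : th = 1 / 10 ^ 13 := rfl
  have hτ : 1000 ≤ th * ρ := by rw [hth]; linarith
  have hn : (10 : ℝ) ^ 16 ≤ nV V := hρ.trans hρn
  have key := seq_choice I
    (fun i (U : Finset (Sym2 V)) => U ⊆ P ∧ Disjoint U (M i) ∧ IsHam (W \ X i) (U ∪ M i)) (by
    intro i hi J hJ U hU
    obtain ⟨hX, hMat, htch⟩ := hM i hi
    set Used := J.biUnion U with hUsed
    have hJI : (J.card : ℝ) ≤ th * ρ / 8 := by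
      refine le_trans ?_ hI
      exact_mod_cast card_le_card (hJ.trans (erase_subset _ _))
    have hdg : ∀ y, (dg Used y : ℝ) ≤ th * ρ / 4 := by
      intro y
      have h1 : dg Used y ≤ ∑ _j ∈ J, 2 := by
        refine (dg_biUnion_le J U y).trans (sum_le_sum fun j hj => ?_)
        refine (dg_mono subset_union_left y).trans (?_ : dg (U j ∪ M j) y ≤ 2)
        by_cases hy : y ∈ W \ X j
        · exact ((hU j hj).2.2.2.1 y hy).le
        · rw [(hU j hj).2.2.1.dg_eq_zero hy]; omega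
      rw [sum_const, smul_eq_mul] at h1
      have : (dg Used y : ℝ) ≤ J.card * 2 := by exact_mod_cast h1
      linarith
    have hUc : (Used.card : ℝ) ≤ J.card * nV V := by
      have h1 : (Used.card : ℝ) ≤ ∑ j ∈ J, ((U j).card : ℝ) := by
        exact_mod_cast card_biUnion_le
      refine h1.trans ?_
      rw [← nsmul_eq_mul, ← sum_const]
      refine sum_le_sum fun j hj => ?_
      have h2 : (U j).card ≤ (W \ X j).card := by
        rw [← (hU j hj).2.2.card_eq]; exact card_le_card subset_union_left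
      exact le_trans (by exact_mod_cast h2) (card_le_nV _)
    set Z := W \ Aset (X i) (M i) with hZdef
    have hZ : Z ⊆ W \ X i := sdiff_subset_sdiff subset_rfl subset_union_left
    have hYZ : (W \ X i) \ Z ⊆ tch (M i) := by
      intro v hv
      simp only [hZdef, Aset, mem_sdiff, mem_union] at hv
      tauto
    have hMat' : IsMat ((W \ X i) \ Z) (M i) := by
      refine ⟨fun e he => ⟨(hMat.1 e he).1, fun v hv => ?_⟩, hMat.2⟩
      refine mem_sdiff.2 ⟨(hMat.1 e he).2 v hv, fun h => (mem_sdiff.1 h).2 ?_⟩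
      refine mem_union_right _ (mem_tch.2 ?_)
      obtain ⟨u, rfl⟩ := Sym2.mem_iff_exists.1 hv
      exact card_pos.2 ⟨u, mem_nb.2 he⟩
    set a := ⌊nV V / 10 ^ 4⌋₊ with ha
    have ha1 : (a : ℝ) ≤ nV V / 10 ^ 4 := Nat.floor_le (by linarith)
    have ha2 : nV V / 10 ^ 4 < a + 1 := Nat.lt_floor_add_one _
    set δ0 := ⌈th * ρ / 16⌉₊ with hδ
    have hδ1 : th * ρ / 16 ≤ δ0 := Nat.le_ceil _
    have hδ2 : (δ0 : ℝ) < th * ρ / 16 + 1 := Nat.ceil_lt_add_one (by linarith)
    let R : V → Finset (Sym2 V) := fun y => if y ∈ T1 then P else Q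
    have hRP : ∀ y, R y ⊆ P := fun y => by
      simp only [R]; split_ifs
      · exact subset_rfl
      · exact hQ
    let N : V → Finset V := fun y => (nb (R y) y \ Aset (X i) (M i)) \ nb Used y
    have hNc : ∀ y, th * ρ / 2 ≤ ((nb (R y) y \ Aset (X i) (M i)).card : ℝ) →
        δ0 ≤ (N y).card := by
      intro y h
      have h1 := card_le_card_sdiff_add_card (s := nb (R y) y \ Aset (X i) (M i)) (t := nb Used y)
      have h2 : ((nb (R y) y \ Aset (X i) (M i)).card : ℝ) ≤ (N y).card + dg Used y := by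
        exact_mod_cast h1
      have h3 := hdg y
      have : (δ0 : ℝ) ≤ (N y).card := by linarith
      exact_mod_cast this
    have hd0 : 25 ≤ δ0 := by
      have : (25 : ℝ) ≤ δ0 := by linarith
      exact_mod_cast this
    obtain ⟨F, hF1, hF2, hF3⟩ := complete' (W := W) (Y := W \ X i) (Z := Z) (T1 := T1) (L := M i)
      (P := P) (C := C) (Q := Q) (C' := inside C Z \ Used) N (a := a) (δ0 := δ0) (d0 := 25)
      (lam := th * ρ / (200 * 1)) (lam1 := 4) (a1 := a1) sdiff_subset hZ hMat'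
      (fun y _ => ⟨fun z hz => by
          have h1 := mem_sdiff.1 (mem_sdiff.1 hz).1
          exact mem_sdiff.2 ⟨hP.nb_subset y (nb_mono (hRP y) y h1.1), h1.2⟩,
        fun hz => hP.not_mem_nb y (nb_mono (hRP y) y (mem_sdiff.1 (mem_sdiff.1 hz).1).1),
        fun z hz => hRP y (mem_nb.1 (mem_sdiff.1 (mem_sdiff.1 hz).1).1)⟩)
      (fun y hy h1 => by
        have e : R y = Q := if_neg h1
        refine ⟨hNc y (by rw [e]; exact hdeg i hi y (mem_sdiff.1 hy).1 h1), fun z hz => ?_⟩
        rw [← e]; exact mem_nb.1 (mem_sdiff.1 (mem_sdiff.1 hz).1).1)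
      (fun y hy h1 => by
        have e : R y = P := if_pos h1
        rcases hT with hT | hT
        · rw [hT] at h1; simp at h1
        · exact hd0.trans (hNc y (by rw [e]; exact hT.2.2 i hi y (mem_sdiff.1 hy).1 h1)))
      (expand_sparse_mono hpool.sparse (by linarith)) (by linarith) (by linarith) hd0
      (hT.imp id fun h => ⟨h.1, by norm_num, by norm_num, h.2.1⟩)
      (by
        have h1 : (((W \ X i) \ Z).card : ℝ) ≤ (tch (M i)).card := by
          exact_mod_cast card_le_card hYZ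
        have : 2 * (((W \ X i) \ Z).card : ℝ) ≤ a := by linarith
        exact_mod_cast this)
      (by
        have : (1 : ℝ) ≤ a := by linarith
        exact_mod_cast this)
      hpool.boost
      (by have := card_le_nV (W \ X i); linarith)
      (by
        have h1 : 2 * ((M i).card : ℝ) = (tch (M i)).card := by exact_mod_cast hMat.two_card
        have h2 : (0 : ℝ) ≤ (M i).card := by positivity
        linarith)
      (by
        have h1 := card_le_nV (W \ X i)
        have h2 : (δ0 : ℝ) + 1 ≤ th * ρ / 4 := by linarith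
        have h3 := mul_le_mul h2 h1 (by positivity) (by linarith)
        linarith)
      (by
        have h1 : nV V / 10 ^ 4 / 2 ≤ a := by linarith
        have h2 := pow_le_pow_left₀ (by linarith) h1 2
        nlinarith)
      ((on_inside (hP.mono subset_rfl hC)).mono subset_rfl sdiff_subset)
      (fun e he => hC (mem_inside.1 (mem_sdiff.1 he).1).1)
      (by
        have h1 : inside C Z \ (inside C Z \ Used) ⊆ Used := by
          intro e he
          by_contra h
          exact (mem_sdiff.1 he).2 (mem_sdiff.2 ⟨(mem_sdiff.1 he).1, h⟩)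
        have h2 : ((inside C Z \ (inside C Z \ Used)).card : ℝ) ≤ Used.card := by
          exact_mod_cast card_le_card h1
        have h3 := mul_le_mul_of_nonneg_right hJI (nV_nonneg V)
        have h4 : 0 < nV V * ρ := mul_pos (by linarith) (by linarith)
        rw [hth] at h3
        nlinarith)
    have hF : ∀ e ∈ F, e ∈ P ∧ e ∉ Used := by
      intro e he
      rcases hF1 e he with ⟨y, _, z, hz, rfl⟩ | h
      · exact ⟨hRP y (mem_nb.1 (mem_sdiff.1 (mem_sdiff.1 hz).1).1),
          fun h => (mem_sdiff.1 hz).2 (mem_nb.2 h)⟩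
      · exact ⟨hC (mem_inside.1 (mem_sdiff.1 h).1).1, (mem_sdiff.1 h).2⟩
    refine ⟨F, ⟨fun e he => (hF e he).1, hF2, hF3⟩, fun j hj => disjoint_left.2 fun e he h => ?_⟩
    exact (hF e he).2 (mem_biUnion.2 ⟨j, hj, h⟩))
  obtain ⟨U, h1, h2⟩ := key
  exact ⟨U, h1, h2⟩

end

end Pool.Agent.MP_1376f1_pr
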