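import Pool.Agent.MP_1376f1_pr.Mg.Bad

/-!
The minimum degree is well below the average degree.
-/

set_option autoImplicit false
set_option linter.unusedSectionVars false

namespace Pool.Agent.MP_1376f1_pr

open Finset MP_d802e4_co
open scoped Classical

noncomputable section

variable {V Λ : Type} [Fintype V] [DecidableEq V] [Fintype Λ] {p : Λ → ℝ}


lemma gap_dep_coord {α : Type} (a : V) (h : Λ → α) : Dep {a} (fun ω : V → Λ => h (ω a)) :=
  fun ω ω' hω => by simp only [hω a rfl]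

lemma gap_dep_prod (S : Finset V) (r y : Λ → ℝ) (k : ℕ) :
    Dep (S : Set V) (fun ω : V → Λ => (∏ v ∈ S, r (ω v)) * (∑ v ∈ S, y (ω v)) ^ k) :=
  fun ω ω' hω => by
    simp only
    rw [prod_congr rfl fun v hv => by rw [hω v hv], sum_congr rfl fun v hv => by rw [hω v hv]]

lemma gap_second (hp : IsP p) (r y : Λ → ℝ) (h1 : ∑ l, p l * r l = 1)
    (h2 : ∑ l, p l * (r l * y l) = 0) (S : Finset V) :
    Ex p (fun ω : V → Λ => (∏ v ∈ S, r (ω v)) * (∑ v ∈ S, y (ω v)) ^ 2) =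
      S.card * ∑ l, p l * (r l * y l ^ 2) := by
  induction S using Finset.induction_on with
  | empty => simp [Ex]
  | insert a S ha ih =>
    have hd : Disjoint ({a} : Set V) S := by simpa using ha
    have e0 : Ex p (fun ω : V → Λ => (∏ v ∈ S, r (ω v)) * (∑ v ∈ S, y (ω v)) ^ 0) = 1 := by
      simp only [pow_zero, mul_one]
      rw [Ex_prod_coord hp S fun _ => r]
      simp [h1]
    rw [Ex_congr (g := fun ω : V → Λ =>
      (r (ω a) * y (ω a) ^ 2) * ((∏ v ∈ S, r (ω v)) * (∑ v ∈ S, y (ω v)) ^ 0) +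
      2 * ((r (ω a) * y (ω a)) * ((∏ v ∈ S, r (ω v)) * (∑ v ∈ S, y (ω v)) ^ 1)) +
      r (ω a) * ((∏ v ∈ S, r (ω v)) * (∑ v ∈ S, y (ω v)) ^ 2))
      (fun ω => by rw [prod_insert ha, sum_insert ha]; ring), Ex_add, Ex_add, Ex_smul,
      Ex_mul hp (gap_dep_coord a fun l => r l * y l ^ 2) (gap_dep_prod S r y 0) hd,
      Ex_mul hp (gap_dep_coord a fun l => r l * y l) (gap_dep_prod S r y 1) hd,
      Ex_mul hp (gap_dep_coord a r) (gap_dep_prod S r y 2) hd,
      Ex_coord hp a fun l => r l * y l ^ 2, Ex_coord hp a fun l => r l * y l, Ex_coord hp a r,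
      e0, h1, h2, ih, card_insert_of_notMem ha]
    push_cast
    ring

lemma gap_sum_ite (hp : IsP p) (L : Finset Λ) (α β : ℝ) :
    ∑ l, p l * (if l ∈ L then α else β) = mass p L * α + (1 - mass p L) * β := by
  have e : ∀ l, p l * (if l ∈ L then α else β) =
      (if l ∈ L then p l else 0) * (α - β) + p l * β := fun l => by split_ifs <;> ring
  simp only [e]
  rw [sum_add_distrib, ← sum_mul, ← sum_mul, hp.sum, sum_ite_mem, univ_inter, mass]
  ring

/-- Lower bound for the lower tail by a change of measure.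
Hint: let `q' = q - 2 a / N`, `r l = q' / q` for `l ∈ L` and `(1 - q') / (1 - q)` otherwise,
`R ω = ∏ v ∈ S, r (ω v) ≥ 0`. By `Ex_prod_coord`: `E R = 1`, `E (R (X - N q') ^ 2) = N q' (1 - q')`
(expand with centred variables), `E R ^ 2 = (1 + (q - q') ^ 2 / (q (1 - q))) ^ N`. Chebyshev gives
`E (R ind (X ≤ N q - a)) ≥ 3 / 4`, and Cauchy-Schwarz finishes the proof. -/
theorem binlow (hp : IsP p) (S : Finset V) (L : Finset Λ) {q a : ℝ} (hq : mass p L = q)
    (hq0 : 0 < q) (hq1 : q < 1) (ha : 0 < a) (h1 : 2 * a ≤ S.card * q)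
    (h2 : S.card * q * (1 - q) + 2 * a ≤ a ^ 2 / 4) :
    9 / 16 * Real.exp (-(4 * a ^ 2 / (S.card * q * (1 - q)))) ≤
      Pr p (fun ω : V → Λ => ((S.filter fun v => ω v ∈ L).card : ℝ) ≤ S.card * q - a) := by
  have hN : (0 : ℝ) < S.card := (pos_iff_pos_of_mul_pos (by linarith : 0 < S.card * q)).2 hq0
  obtain ⟨δ, hδ⟩ : ∃ δ : ℝ, S.card * δ = 2 * a := ⟨2 * a / S.card, by field_simp⟩
  have hδ0 : 0 < δ := (pos_iff_pos_of_mul_pos (by linarith : 0 < S.card * δ)).1 hN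
  have hδq : δ ≤ q := le_of_mul_le_mul_left (by linarith) hN
  have hq1' : 0 < 1 - q := by linarith
  let r : Λ → ℝ := fun l => if l ∈ L then (q - δ) / q else (1 - (q - δ)) / (1 - q)
  let y : Λ → ℝ := fun l => if l ∈ L then 1 - (q - δ) else -(q - δ)
  have hr0 : ∀ l, 0 ≤ r l := fun l => by
    simp only [r]
    split_ifs
    · exact div_nonneg (by linarith) hq0.le
    · exact div_nonneg (by linarith) hq1'.le
  have m1 : ∑ l, p l * r l = 1 := by
    rw [gap_sum_ite hp, hq]; field_simp; ring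
  have m2 : ∑ l, p l * (r l * y l) = 0 := by
    simp only [r, y, ite_mul_ite]
    rw [gap_sum_ite hp, hq]; field_simp; ring
  have m3 : ∑ l, p l * (r l * y l ^ 2) = (q - δ) * (1 - (q - δ)) := by
    simp only [r, y, ite_pow, ite_mul_ite]
    rw [gap_sum_ite hp, hq]; field_simp; ring
  have m4 : ∑ l, p l * r l ^ 2 = 1 + δ ^ 2 / (q * (1 - q)) := by
    simp only [r, ite_pow]
    rw [gap_sum_ite hp, hq]; field_simp; ring
  have hy : ∀ ω : V → Λ, ∑ v ∈ S, y (ω v) =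
      ((S.filter fun v => ω v ∈ L).card : ℝ) - S.card * (q - δ) := fun ω => by
    have e : ∀ l, y l = (if l ∈ L then 1 else 0) - (q - δ) := fun l => by
      simp only [y]; split_ifs <;> ring
    simp only [e]
    rw [sum_sub_distrib, sum_boole, sum_const, nsmul_eq_mul]
  have E1 : Ex p (fun ω : V → Λ => ∏ v ∈ S, r (ω v)) = 1 := by
    rw [Ex_prod_coord hp S fun _ => r]; simp [m1]
  have E2 := gap_second hp r y m1 m2 S
  rw [m3] at E2
  obtain ⟨x, hx⟩ : ∃ x, x = 4 * a ^ 2 / (S.card * q * (1 - q)) := ⟨_, rfl⟩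
  have E3 : Ex p (fun ω : V → Λ => (∏ v ∈ S, r (ω v)) ^ 2) ≤ Real.exp x := by
    simp only [← prod_pow]
    rw [Ex_prod_coord hp S fun _ l => r l ^ 2, m4, prod_const]
    have e : x = S.card * (δ ^ 2 / (q * (1 - q))) := by
      rw [hx, show 4 * a ^ 2 = (S.card * δ) ^ 2 by rw [hδ]; ring]
      field_simp
    rw [e, Real.exp_nat_mul]
    refine pow_le_pow_left₀ (by positivity) ?_ _
    rw [add_comm]
    exact Real.add_one_le_exp _
  have hB := Real.exp_pos x
  have key : ∀ ω : V → Λ, ∏ v ∈ S, r (ω v) ≤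
      (a ^ 2)⁻¹ * ((∏ v ∈ S, r (ω v)) * (∑ v ∈ S, y (ω v)) ^ 2) +
      (3 / 8 * (Real.exp x)⁻¹ * (∏ v ∈ S, r (ω v)) ^ 2 + 2 / 3 * Real.exp x *
        ind (((S.filter fun v => ω v ∈ L).card : ℝ) ≤ S.card * q - a)) := fun ω => by
    have hR : 0 ≤ ∏ v ∈ S, r (ω v) := prod_nonneg fun v _ => hr0 _
    generalize ∏ v ∈ S, r (ω v) = R at hR ⊢
    by_cases h : ((S.filter fun v => ω v ∈ L).card : ℝ) ≤ S.card * q - a
    · rw [ind_pos h]
      have a1 : 0 ≤ (a ^ 2)⁻¹ * (R * (∑ v ∈ S, y (ω v)) ^ 2) := by positivity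
      have a2 : 0 ≤ 3 / 8 * (Real.exp x)⁻¹ * (R - 4 / 3 * Real.exp x) ^ 2 := by positivity
      have a3 : 3 / 8 * (Real.exp x)⁻¹ * (R - 4 / 3 * Real.exp x) ^ 2 =
          3 / 8 * (Real.exp x)⁻¹ * R ^ 2 - R + 2 / 3 * Real.exp x := by
        field_simp; ring
      linarith
    · rw [ind_neg h]
      have a1 : a ^ 2 ≤ (∑ v ∈ S, y (ω v)) ^ 2 := by
        refine pow_le_pow_left₀ ha.le ?_ 2
        rw [hy, mul_sub, hδ]
        linarith
      have a2 : R ≤ (a ^ 2)⁻¹ * (R * (∑ v ∈ S, y (ω v)) ^ 2) := by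
        rw [le_inv_mul_iff₀ (by positivity), mul_comm]
        exact mul_le_mul_of_nonneg_left a1 hR
      have a3 : 0 ≤ 3 / 8 * (Real.exp x)⁻¹ * R ^ 2 := by positivity
      linarith
  have E4 := Ex_mono hp key
  rw [E1, Ex_add, Ex_add, Ex_smul, Ex_smul, Ex_smul, E2] at E4
  have b1 : (a ^ 2)⁻¹ * (S.card * ((q - δ) * (1 - (q - δ)))) ≤ 1 / 4 := by
    rw [inv_mul_le_iff₀ (by positivity)]
    have : (q - δ) * (1 - (q - δ)) ≤ q * (1 - q) + δ := by nlinarith
    nlinarith [mul_le_mul_of_nonneg_left this hN.le]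
  have b2 : 3 / 8 * (Real.exp x)⁻¹ * Ex p (fun ω : V → Λ => (∏ v ∈ S, r (ω v)) ^ 2) ≤ 3 / 8 := by
    rw [mul_assoc]
    exact mul_le_of_le_one_right (by norm_num) (inv_mul_le_one_of_le₀ E3 hB.le)
  rw [← hx, Real.exp_neg, ← div_eq_mul_inv, div_le_iff₀ hB, Pr]
  linarith

/-- numerical facts -/
lemma gap_num {n : ℕ} (hn : ⌈Real.exp 20000⌉₊ ≤ n) : 20000 ≤ Real.log n ∧ ∃ y : ℝ,
    y = Real.exp (Real.log n / 20) ∧ 16 * Real.log n ≤ y ∧ y ^ 20 = n := by
  have h1 : Real.exp 20000 ≤ n := Nat.ceil_le.1 hn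
  have h0 : (0 : ℝ) < n := (Real.exp_pos _).trans_le h1
  have h2 : 20000 ≤ Real.log n := (Real.le_log_iff_exp_le h0).2 h1
  refine ⟨h2, _, rfl, ?_, ?_⟩
  · have := Real.quadratic_le_exp_of_nonneg (x := Real.log n / 20) (by linarith)
    nlinarith
  · rw [← Real.exp_nat_mul, show ((20 : ℕ) : ℝ) * (Real.log n / 20) = Real.log n by
      push_cast; ring, Real.exp_log h0]

lemma gap_inj (v : V) : Function.Injective fun u : V => s(v, u) :=
  fun _ _ h => Sym2.congr_right.1 h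

/-- some vertex of `S` has few neighbours outside `S` -/
lemma gap_out (hp : IsP p) (S : Finset V) (L : Finset Λ) {q a : ℝ} (hq : mass p L = q)
    (hq0 : 0 < q) (hq1 : q < 1) (ha : 0 < a) (h1 : 2 * a ≤ Sᶜ.card * q)
    (h2 : Sᶜ.card * q * (1 - q) + 2 * a ≤ a ^ 2 / 4) :
    Pr p (fun ω : Sym2 V → Λ => ∀ v ∈ S,
      ¬ ((Sᶜ.filter fun u => ω s(v, u) ∈ L).card : ℝ) ≤ Sᶜ.card * q - a) ≤
      Real.exp (-(S.card * (9 / 16 * Real.exp (-(4 * a ^ 2 / (Sᶜ.card * q * (1 - q))))))) := by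
  rw [Pr_forall hp S (fun v => (Sᶜ.image fun u => s(v, u) : Finset (Sym2 V)))]
  · rw [← mul_neg, Real.exp_nat_mul]
    refine (prod_le_prod (fun v _ => Pr_nonneg hp _) fun v _ => ?_).trans (prod_const _).le
    have hc : (Sᶜ.image fun u => s(v, u)).card = Sᶜ.card := card_image_of_injective _ (gap_inj v)
    have := binlow hp (Sᶜ.image fun u => s(v, u)) L hq hq0 hq1 ha (by rwa [hc]) (by rwa [hc])
    simp only [hc, filter_image, card_image_of_injective _ (gap_inj v)] at this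
    rw [Pr_not hp]
    refine le_trans ?_ (Real.add_one_le_exp _)
    linarith
  · intro v _ ω ω' h
    simp only
    rw [filter_congr fun u hu => by rw [h _ (mem_coe.2 (mem_image_of_mem _ hu))]]
  · intro v hv w hw hvw
    rw [disjoint_coe, disjoint_left]
    intro e h1 h2
    obtain ⟨u, hu, rfl⟩ := mem_image.1 h1
    obtain ⟨u', hu', h⟩ := mem_image.1 h2
    rcases Sym2.eq_iff.1 h with h | h
    · exact hvw h.1.symm
    · exact mem_compl.1 hu (h.1 ▸ hw)

lemma gap_dg_le (ω : Sym2 V → Λ) (L : Finset Λ) (S : Finset V) (v : V) :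
    dg (gr ω L) v ≤ (S.filter fun u => ω s(v, u) ∈ L).card +
      (Sᶜ.filter fun u => ω s(v, u) ∈ L).card := by
  refine (card_le_card fun u hu => ?_).trans (card_union_le _ _)
  have := (mem_gr.1 (mem_nb.1 hu)).2
  by_cases h : u ∈ S <;> simp [h, this]

/-- Hint: `S` a set of `z = ⌈n ^ (1/10)⌉₊` vertices, `s0 = gap n q ≥ log n / 130`. For `v ∈ S` the
numbers of neighbours outside `S` are independent; each is at most `(n - z) q - 2 s0` with
probability at least `9/16 n ^ (-0.045)` (`binlow`), so all fail with probability at most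
`exp (-9/16 n ^ 0.055)` (`Pr_forall`). The number of neighbours inside `S` is at most `z q + s0`:
trivially if `q ≥ 1/2` (`z (1 - q) ≤ s0`) or if `q < 1/2` and `n q ≥ n ^ (3/10)` (`z ≤ s0`);
otherwise it is less than 20 with probability `1 - e n ^ (-10)` (`cnt_up`, `t = log n / 2`). -/
theorem gap_prob : ∃ n0 : ℕ, ∀ n ≥ n0, ∀ (Λ : Type) [Fintype Λ] (p : Λ → ℝ), IsP p →
    ∀ (L : Finset Λ) (q : ℝ), mass p L = q → 0.6 * Real.log n ≤ n * q →
    Real.log n / 21 ≤ n * (1 - q) →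
    Pr p (fun ω : Sym2 (Fin n) → Λ => ∀ v, n * q - gap n q < dg (gr ω L) v) ≤ 1 / (n : ℝ) ^ 6 := by
  refine ⟨⌈Real.exp 20000⌉₊, fun n hn Λ _ p hp L q hq h1 h2 => ?_⟩
  obtain ⟨hl, y, hy, hly, hyn⟩ := gap_num hn
  obtain ⟨ℓ, hℓ⟩ : ∃ ℓ, ℓ = Real.log n := ⟨_, rfl⟩
  rw [← hℓ] at hl hy hly h1 h2
  have hy1 : 320000 ≤ y := by linarith
  have hy0 : 0 < y := by linarith
  have hn0 : (0 : ℝ) < n := by rw [← hyn]; positivity
  have hq0 : 0 < q := (pos_iff_pos_of_mul_pos (by linarith : 0 < n * q)).1 hn0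
  have hq1 : 0 < 1 - q := (pos_iff_pos_of_mul_pos (by linarith : 0 < n * (1 - q))).1 hn0
  have hpow : ∀ i j : ℕ, i < j → 10 * y ^ i ≤ y ^ j := fun i j hij =>
    calc 10 * y ^ i ≤ y * y ^ i := by gcongr; linarith
      _ = y ^ (i + 1) := by ring
      _ ≤ y ^ j := pow_le_pow_right₀ (by linarith) hij
  obtain ⟨z, hz1, hz2⟩ : ∃ z : ℕ, y ^ 2 ≤ z ∧ z ≤ 2 * y ^ 2 :=
    ⟨⌈y ^ 2⌉₊, Nat.le_ceil _, by
      have := (Nat.ceil_lt_add_one (sq_nonneg y)).le
      nlinarith⟩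
  have hzn : (z : ℝ) ≤ n / 5 := by linarith [hpow 2 20 (by norm_num)]
  obtain ⟨S, -, hS⟩ := exists_subset_card_eq (s := (univ : Finset (Fin n))) (n := z) (by
    rw [card_univ, Fintype.card_fin]
    exact_mod_cast (by linarith : (z : ℝ) ≤ n))
  have hSc : (Sᶜ.card : ℝ) = n - z := by
    have := card_add_card_compl S
    rw [hS, Fintype.card_fin] at this
    rw [eq_sub_iff_add_eq']
    exact_mod_cast this
  obtain ⟨s, hs⟩ : ∃ s, s = gap n q := ⟨_, rfl⟩
  have hs0 : 0 ≤ s := by rw [hs, gap]; positivity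
  have hs2 : s ^ 2 = n * q * (1 - q) * ℓ / 400 := by
    rw [hs, gap, div_pow, Real.sq_sqrt (by rw [← hℓ]; positivity), ← hℓ]; norm_num
  have hv : ℓ / 42 ≤ n * q * (1 - q) := by
    rcases le_total q (1 / 2) with h | h <;> nlinarith
  have hs20 : 20 ≤ s := by
    refine (pow_le_pow_iff_left₀ (by norm_num) hs0 two_ne_zero).1 ?_
    rw [hs2]; nlinarith
  have hsq : 5 * s ≤ n * q := by
    refine (pow_le_pow_iff_left₀ (by positivity) (by positivity) two_ne_zero).1 ?_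
    rw [mul_pow, hs2]
    have a1 : (1 - q) * ℓ ≤ 2 * (n * q) := by nlinarith
    nlinarith [mul_le_mul_of_nonneg_left a1 (mul_pos hn0 hq0).le, mul_pos hn0 hq0]
  have hvar : 0 < n * q * (1 - q) := by positivity
  have hvar1 : (n - z) * q * (1 - q) ≤ n * q * (1 - q) := by
    gcongr; linarith [z.cast_nonneg (α := ℝ)]
  have hvar2 : 4 / 5 * n * q * (1 - q) ≤ (n - z) * q * (1 - q) := by gcongr; linarith
  have A := gap_out hp S L (a := 2 * s) hq hq0 (by linarith) (by linarith)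
    (by rw [hSc]; nlinarith) (by rw [hSc]; nlinarith)
  rw [hSc, hS] at A
  have hA : Real.exp (-(z * (9 / 16 * Real.exp (-(4 * (2 * s) ^ 2 / ((n - z) * q * (1 - q)))))))
      ≤ 1 / (2 * (n : ℝ) ^ 6) := by
    have a1 : 4 * (2 * s) ^ 2 / ((n - z) * q * (1 - q)) ≤ ℓ / 20 := by
      rw [div_le_iff₀ (by linarith)]
      nlinarith
    have a2 : y⁻¹ ≤ Real.exp (-(4 * (2 * s) ^ 2 / ((n - z) * q * (1 - q)))) := by
      rw [hy, ← Real.exp_neg]
      exact Real.exp_le_exp.2 (neg_le_neg a1)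
    have a3 : 9 / 16 * y ≤
        z * (9 / 16 * Real.exp (-(4 * (2 * s) ^ 2 / ((n - z) * q * (1 - q))))) :=
      calc 9 / 16 * y = y ^ 2 * (9 / 16 * y⁻¹) := by field_simp
        _ ≤ _ := by gcongr
    have a4 : (n : ℝ) ^ 6 = Real.exp (6 * ℓ) := by
      rw [hℓ, ← Real.exp_log hn0, Real.log_exp, ← Real.exp_nat_mul]; norm_num
    calc _ ≤ Real.exp (-(1 + 6 * ℓ)) := Real.exp_le_exp.2 (by linarith)
      _ ≤ _ := by
        rw [Real.exp_neg, Real.exp_add, ← a4, one_div]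
        gcongr
        linarith [Real.add_one_le_exp 1]
  have B : Pr p (fun ω : Sym2 (Fin n) → Λ => ∃ v ∈ S,
      z * q + s < ((S.filter fun u => ω s(v, u) ∈ L).card : ℝ)) ≤ 1 / (2 * (n : ℝ) ^ 6) := by
    have hz4 : (z : ℝ) ^ 2 ≤ 4 * y ^ 4 := by nlinarith [z.cast_nonneg (α := ℝ)]
    by_cases hc : (z : ℝ) ≤ z * q + s
    · refine le_trans (Pr_mono hp (F := fun _ => False) ?_) (by rw [Pr_false]; positivity)
      rintro ω ⟨v, -, h⟩
      have : ((S.filter fun u => ω s(v, u) ∈ L).card : ℝ) ≤ z := by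
        exact_mod_cast hS ▸ card_filter_le _ _
      linarith
    have hc1 : s ^ 2 < (z * (1 - q)) ^ 2 := pow_lt_pow_left₀ (by linarith) hs0 two_ne_zero
    have hc2 : n * q * ℓ < 400 * z ^ 2 * (1 - q) := by
      rw [hs2] at hc1
      exact lt_of_mul_lt_mul_right (a := 1 - q) (by linarith) hq1.le
    have hc3 : n * q ≤ 4 * y ^ 4 := by
      have : n * q * 400 ≤ n * q * ℓ := by gcongr; linarith
      nlinarith [sq_nonneg (z : ℝ)]
    refine (Pr_exists hp S _).trans ((sum_le_card_nsmul _ _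
      (Real.exp 1 / (n : ℝ) ^ 10) fun v _ => ?_).trans ?_)
    · have a1 := cnt_up hp S (fun u => s(v, u)) (gap_inj v).injOn (fun _ => L) (μ := z * q)
        (t := ℓ / 2) (l := 20) (by rw [sum_const, hS, hq, nsmul_eq_mul]) (by linarith)
      refine (Pr_mono hp fun ω h => ?_).trans (a1.trans ?_)
      · have : 0 ≤ (z : ℝ) * q := by positivity
        linarith
      · have a2 : Real.exp (ℓ / 2) = y ^ 10 := by
          rw [hy, ← Real.exp_nat_mul]; congr 1; push_cast; ring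
        have a4 : (n : ℝ) ^ 10 = Real.exp (ℓ / 2 * 20) := by
          rw [hℓ, ← Real.exp_log hn0, Real.log_exp, ← Real.exp_nat_mul]; congr 1; push_cast; ring
        rw [a4, ← Real.exp_sub, a2]
        refine Real.exp_le_exp.2 (sub_le_sub_right ?_ _)
        refine le_of_mul_le_mul_left ?_ hn0
        calc n * ((y ^ 10 - 1) * (z * q)) = (y ^ 10 - 1) * z * (n * q) := by ring
          _ ≤ y ^ 10 * (2 * y ^ 2) * (4 * y ^ 4) := by gcongr; linarith
          _ = 8 * y ^ 16 := by ring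
          _ ≤ n * 1 := by linarith [hpow 16 20 (by norm_num), pow_pos hy0 16]
    · rw [hS, nsmul_eq_mul, ← mul_div_assoc, div_le_div_iff₀ (by positivity) (by positivity)]
      have a1 : (10 : ℝ) ≤ n := by linarith [hpow 0 20 (by norm_num)]
      have a2 : Real.exp 1 ≤ 3 := by linarith [Real.exp_one_lt_d9]
      have a3 : (z : ℝ) ≤ n := by linarith
      calc z * Real.exp 1 * (2 * (n : ℝ) ^ 6) ≤ n * 3 * (2 * (n : ℝ) ^ 6) := by gcongr
        _ = 6 * (n : ℝ) ^ 7 := by ring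
        _ ≤ n * (n : ℝ) ^ 7 := by gcongr; linarith
        _ = (n : ℝ) ^ 8 := by ring
        _ ≤ 1 * (n : ℝ) ^ 10 := by rw [one_mul]; exact pow_le_pow_right₀ (by linarith) (by norm_num)
  refine le_trans (Pr_mono hp fun ω h => ?_) ((Pr_or hp _ _).trans ((add_le_add (A.trans hA) B).trans
    (le_of_eq (by ring))))
  by_contra hn'
  rw [not_or] at hn'
  obtain ⟨h3, h4⟩ := hn'
  push Not at h3 h4
  obtain ⟨v, hv, h3⟩ := h3
  have h5 := h v
  have h6 : (dg (gr ω L) v : ℝ) ≤ (S.filter fun u => ω s(v, u) ∈ L).card +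
      (Sᶜ.filter fun u => ω s(v, u) ∈ L).card := by exact_mod_cast gap_dg_le ω L S v
  rw [← hs] at h5
  linarith [h4 v hv]

end

end Pool.Agent.MP_1376f1_pr
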