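import Pool.Agent.MP_1376f1_pr.Mg.Conv
import Pool.Agent.MP_1376f1_pr.Mg.Round

-- part MP_1376f1_pr.Forest
section

/-!
Almost spanning linear forests avoiding the vertices on a line.
-/

set_option autoImplicit false
set_option linter.unusedSectionVars false

namespace Pool.Agent.MP_1376f1_pr

open Finset MP_d802e4_co
open scoped Classical

noncomputable section

variable {V : Type} [Fintype V] [DecidableEq V]


/-- the point part of the label lies on the line `y = m x + c` -/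
def onL {g p : ℕ} (l : ZMod g × ZMod g) (lab : ZMod g × ZMod g × ZMod p) : Prop :=
  lab.2.1 = l.1 * lab.1 + l.2

lemma forest_equi {E α β C : Type} [DecidableEq E] [DecidableEq α] [DecidableEq β]
    [DecidableEq C] (S : Finset E) (a : E → α) (b : E → β) (Cs : Finset C) (hC : Cs.Nonempty) :
    ∃ col : E → C, (∀ e, col e ∈ Cs) ∧ ∀ σ ∈ Cs,
      (∀ i, |((S.filter fun e => a e = i ∧ col e = σ).card : ℝ) -
        ((S.filter fun e => a e = i).card : ℝ) / Cs.card| < 1) ∧
      (∀ j, |((S.filter fun e => b e = j ∧ col e = σ).card : ℝ) -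
        ((S.filter fun e => b e = j).card : ℝ) / Cs.card| < 1) := by
  obtain ⟨col, hcol⟩ := equi S a b (fun _ => ()) Cs.card hC.card_pos
  refine ⟨fun e => (Cs.equivFin.symm (col e) : C), fun e => (Cs.equivFin.symm (col e)).2,
    fun σ hσ => ?_⟩
  have key : ∀ e, ((Cs.equivFin.symm (col e) : C) = σ) ↔ col e = Cs.equivFin ⟨σ, hσ⟩ := by
    intro e
    rw [← Equiv.symm_apply_eq, Subtype.ext_iff]
  obtain ⟨h1, h2, -⟩ := hcol (Cs.equivFin ⟨σ, hσ⟩)
  refine ⟨fun i => ?_, fun j => ?_⟩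
  · rw [filter_congr (q := fun e => a e = i ∧ col e = Cs.equivFin ⟨σ, hσ⟩)
      (fun e _ => by rw [key])]
    exact h1 i
  · rw [filter_congr (q := fun e => b e = j ∧ col e = Cs.equivFin ⟨σ, hσ⟩)
      (fun e _ => by rw [key])]
    exact h2 j

lemma forest_sum {β : Type} (B : Finset β) (hB : B.Nonempty) (n N : β → ℝ) {R0 ε : ℝ}
    (h1 : ∀ b ∈ B, |n b - N b / B.card| < 1) (h2 : ∀ b ∈ B, |N b - R0| ≤ ε) :
    |∑ b ∈ B, n b - R0| ≤ ε + B.card := by
  have hK : (0 : ℝ) < B.card := by exact_mod_cast hB.card_pos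
  have e : ∑ b ∈ B, n b - R0 = ∑ b ∈ B, (n b - R0 / B.card) := by
    rw [sum_sub_distrib, sum_const, nsmul_eq_mul]; field_simp
  have e2 : ε + B.card = ∑ _b ∈ B, (ε / B.card + 1) := by
    rw [sum_const, nsmul_eq_mul]; field_simp
  rw [e, e2]
  refine (abs_sum_le_sum_abs _ _).trans (sum_le_sum fun b hb => ?_)
  have a1 := abs_add_le (n b - N b / B.card) ((N b - R0) / B.card)
  have a2 : |(N b - R0) / B.card| ≤ ε / B.card := by
    rw [abs_div, abs_of_pos hK]; exact div_le_div_of_nonneg_right (h2 b hb) hK.le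
  have a3 : n b - N b / B.card + (N b - R0) / B.card = n b - R0 / B.card := by ring
  rw [a3] at a1
  linarith [h1 b hb]

lemma forest_miss {E α : Type} [DecidableEq α] (S : Finset E) (U : Finset α) (t : E → α)
    (hm : ∀ e ∈ S, t e ∈ U) (hi : ∀ e ∈ S, ∀ e' ∈ S, t e = t e' → e = e') :
    ((U.filter fun w => ¬ ∃ e ∈ S, t e = w).card : ℝ) = U.card - S.card := by
  have h1 := card_filter_add_card_filter_not (s := U) (fun w => ∃ e ∈ S, t e = w)
  have h2 : U.filter (fun w => ∃ e ∈ S, t e = w) = S.image t := by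
    ext w
    simp only [mem_filter, mem_image]
    exact ⟨fun h => h.2, fun ⟨e, he, hw⟩ => ⟨hw ▸ hm e he, e, he, hw⟩⟩
  rw [h2, card_image_of_injOn (fun e he e' he' => hi e he e' he')] at h1
  rw [← h1]; push_cast; ring

lemma forest_res (p h : ℕ) (φ : ZMod p) :
    ((univ.filter fun σ : Fin h => ((σ : ℕ) : ZMod p) = φ).card : ℝ) ≤ h / p + 1 := by
  have h1 : (univ.filter fun σ : Fin h => ((σ : ℕ) : ZMod p) = φ).card ≤
      (range (h / p + 1)).card := by
    refine card_le_card_of_injOn (fun σ => (σ : ℕ) / p) (fun σ _ => ?_) (fun σ hσ τ hτ e => ?_)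
    · exact mem_coe.2 (mem_range.2 (Nat.lt_succ_of_le (Nat.div_le_div_right σ.2.le)))
    · have a1 := (mem_filter.1 (mem_coe.1 hσ)).2
      have a2 := (mem_filter.1 (mem_coe.1 hτ)).2
      have a3 : (σ : ℕ) % p = (τ : ℕ) % p := (ZMod.natCast_eq_natCast_iff' _ _ _).1 (a1.trans a2.symm)
      apply Fin.ext
      have e' : (σ : ℕ) / p = (τ : ℕ) / p := e
      rw [← Nat.div_add_mod σ p, ← Nat.div_add_mod τ p, a3, e']
  rw [card_range] at h1
  have h2 : ((h / p : ℕ) : ℝ) ≤ h / p := Nat.cast_div_le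
  have h3 : (((univ.filter fun σ : Fin h => ((σ : ℕ) : ZMod p) = φ).card : ℕ) : ℝ) ≤
      ((h / p + 1 : ℕ) : ℝ) := by exact_mod_cast h1
  push_cast at h3
  linarith

/-- vertical offset of a point from a line -/
def forest_off {g : ℕ} (l : ZMod g × ZMod g) (x y : ZMod g) : ZMod g := l.1 * x + l.2 - y

lemma forest_off_ne {g p : ℕ} {l : ZMod g × ZMod g} {a : ZMod g × ZMod g × ZMod p} :
    forest_off l a.1 a.2.1 ≠ 0 ↔ ¬ onL l a := by
  rw [forest_off, onL, sub_ne_zero, ne_comm]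

/-- the line through two shifted points -/
def forest_line {g : ℕ} [Fact g.Prime] (x y x' y' : ZMod g) (c : ZMod g × ZMod g) :
    ZMod g × ZMod g :=
  ((y' + c.2 - y - c.1) / (x' - x), y + c.1 - (y' + c.2 - y - c.1) / (x' - x) * x)

lemma forest_line_iff {g : ℕ} [Fact g.Prime] {x y x' y' : ZMod g} (h : x ≠ x')
    (c l : ZMod g × ZMod g) :
    forest_line x y x' y' c = l ↔ c = (forest_off l x y, forest_off l x' y') := by
  have h' : x' - x ≠ 0 := sub_ne_zero.2 h.symm
  simp only [forest_line, forest_off, Prod.ext_iff]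
  constructor
  · rintro ⟨h1, h2⟩
    rw [h1] at h2
    rw [div_eq_iff h'] at h1
    exact ⟨by linear_combination h2, by linear_combination h1 + h2⟩
  · rintro ⟨h1, h2⟩
    have h3 : (y' + c.2 - y - c.1) / (x' - x) = l.1 := by
      rw [div_eq_iff h']; linear_combination h2 - h1
    rw [h3]
    exact ⟨rfl, by linear_combination h1⟩

/-- pairs of nonzero elements -/
def forest_cs (g : ℕ) [Fact g.Prime] : Finset (ZMod g × ZMod g) :=
  univ.filter fun c => c.1 ≠ 0 ∧ c.2 ≠ 0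

/-- points off the line `l` and off the vertical line through `x` -/
def forest_pts {g : ℕ} [Fact g.Prime] (l : ZMod g × ZMod g) (x : ZMod g) :
    Finset (ZMod g × ZMod g) :=
  univ.filter fun b => b.1 ≠ x ∧ forest_off l b.1 b.2 ≠ 0

lemma forest_pts_card {g : ℕ} [Fact g.Prime] (l : ZMod g × ZMod g) (x : ZMod g) :
    (forest_pts l x).card = (forest_cs g).card := by
  refine card_nbij' (fun b => (b.1 - x, forest_off l b.1 b.2))
    (fun c => (c.1 + x, forest_off l (c.1 + x) c.2)) ?_ ?_ ?_ ?_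
  · intro b hb
    have := (mem_filter.1 (mem_coe.1 hb)).2
    exact mem_coe.2 (mem_filter.2 ⟨mem_univ _, sub_ne_zero.2 this.1, this.2⟩)
  · intro c hc
    have := (mem_filter.1 (mem_coe.1 hc)).2
    refine mem_coe.2 (mem_filter.2 ⟨mem_univ _, ?_, ?_⟩)
    · simpa using this.1
    · simpa [forest_off] using this.2
  · intro b _; simp [forest_off]
  · intro c _; simp [forest_off]

lemma forest_cs_ne (g : ℕ) [Fact g.Prime] : (forest_cs g).Nonempty :=
  ⟨(1, 1), mem_filter.2 ⟨mem_univ _, one_ne_zero, one_ne_zero⟩⟩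

lemma forest_cs_le (g : ℕ) [Fact g.Prime] : ((forest_cs g).card : ℝ) ≤ (g : ℝ) ^ 2 := by
  have h := card_le_univ (forest_cs g)
  rw [Fintype.card_prod, ZMod.card] at h
  rw [sq]
  exact_mod_cast h

/-- the arcs -/
def forest_arcs {g p : ℕ} (lab : V → ZMod g × ZMod g × ZMod p) (H : Finset (Sym2 V)) :
    Finset (V × V) :=
  univ.filter fun e => s(e.1, e.2) ∈ H ∧ (lab e.1).1 ≠ (lab e.2).1

lemma forest_mem_arcs {g p : ℕ} {lab : V → ZMod g × ZMod g × ZMod p} {H : Finset (Sym2 V)}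
    {e : V × V} : e ∈ forest_arcs lab H ↔ s(e.1, e.2) ∈ H ∧ (lab e.1).1 ≠ (lab e.2).1 := by
  simp [forest_arcs]

/-- one side of the first step -/
lemma forest_one {g p : ℕ} [Fact g.Prime] (lab : V → ZMod g × ZMod g × ZMod p)
    {H : Finset (Sym2 V)} (A : Finset (V × V)) (t o : V × V → V) (mk : V → V × V) (w : V)
    (hmk : ∀ v, t (mk v) = w ∧ o (mk v) = v) (hmk' : ∀ e, t e = w → mk (o e) = e)
    (hA : ∀ v, mk v ∈ A ↔ s(w, v) ∈ H ∧ (lab w).1 ≠ (lab v).1)
    (col : V × V → ZMod g × ZMod g) (l : ZMod g × ZMod g) (φ : ZMod p)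
    (cp : ZMod g → ZMod g × ZMod g) (hcp : ∀ c, c ≠ 0 → cp c ∈ forest_cs g)
    (Q : V × V → Prop) [DecidablePred Q]
    (hQ : ∀ e ∈ A, t e = w → (Q e ↔ (lab (o e)).2.2 = φ ∧
      forest_off l (lab (o e)).1 (lab (o e)).2.1 ≠ 0 ∧
      col e = cp (forest_off l (lab (o e)).1 (lab (o e)).2.1)))
    (heq : ∀ σ ∈ forest_cs g, ∀ i,
      |((A.filter fun e => (t e, lab (o e)) = i ∧ col e = σ).card : ℝ) -
        ((A.filter fun e => (t e, lab (o e)) = i).card : ℝ) / (forest_cs g).card| < 1)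
    {R0 ε : ℝ} (hdeg : ∀ lb, |(((nb H w).filter fun v => lab v = lb).card : ℝ) - R0| ≤ ε) :
    |((A.filter fun e => t e = w ∧ Q e).card : ℝ) - R0| ≤ ε + (g : ℝ) ^ 2 := by
  set B := forest_pts l (lab w).1 with hB
  have hBc : B.card = (forest_cs g).card := forest_pts_card _ _
  have hx : ∀ e ∈ A, t e = w → (lab (o e)).1 ≠ (lab w).1 := by
    intro e he hw
    rw [← hmk' e hw, hA] at he
    exact he.2.symm
  have h1 : (A.filter fun e => t e = w ∧ Q e).card =
      ∑ b ∈ B, (A.filter fun e => (t e, lab (o e)) = (w, b.1, b.2, φ) ∧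
        col e = cp (forest_off l b.1 b.2)).card := by
    rw [card_eq_sum_card_fiberwise (f := fun e => ((lab (o e)).1, (lab (o e)).2.1)) (t := B)]
    · refine sum_congr rfl fun b hb => congrArg card ?_
      have hb' := (mem_filter.1 hb).2
      ext e
      simp only [mem_filter, Prod.ext_iff]
      constructor
      · rintro ⟨⟨he, hw, hq⟩, h1, h2⟩
        obtain ⟨a1, -, a3⟩ := (hQ e he hw).1 hq
        rw [h1, h2] at a3
        exact ⟨he, ⟨hw, h1, h2, a1⟩, by rw [a3], by rw [a3]⟩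
      · rintro ⟨he, ⟨hw, h1, h2, h3⟩, h4⟩
        refine ⟨⟨he, hw, (hQ e he hw).2 ⟨h3, ?_, ?_⟩⟩, h1, h2⟩
        · rw [h1, h2]; exact hb'.2
        · rw [h1, h2]; exact Prod.ext h4.1 h4.2
    · intro e he
      obtain ⟨he, hw, hq⟩ := mem_filter.1 (mem_coe.1 he)
      exact mem_coe.2 (mem_filter.2 ⟨mem_univ _, hx e he hw, ((hQ e he hw).1 hq).2.1⟩)
  have h2 := forest_sum B (by rw [← card_pos, hBc]; exact (forest_cs_ne g).card_pos)
    (fun b => ((A.filter fun e => (t e, lab (o e)) = (w, b.1, b.2, φ) ∧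
        col e = cp (forest_off l b.1 b.2)).card : ℝ))
    (fun b => ((A.filter fun e => (t e, lab (o e)) = (w, b.1, b.2, φ)).card : ℝ))
    (R0 := R0) (ε := ε)
    (fun b hb => by rw [hBc]; exact heq _ (hcp _ (mem_filter.1 hb).2.2) _)
    (fun b hb => by
      have e : (A.filter fun e => (t e, lab (o e)) = (w, b.1, b.2, φ)).card =
          ((nb H w).filter fun v => lab v = (b.1, b.2, φ)).card := by
        refine card_nbij' o mk ?_ ?_ ?_ ?_
        · intro e he
          obtain ⟨he, h3⟩ := mem_filter.1 (mem_coe.1 he)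
          obtain ⟨hw, h4⟩ := Prod.ext_iff.1 h3
          rw [← hmk' e hw, hA] at he
          exact mem_coe.2 (mem_filter.2 ⟨mem_filter.2 ⟨mem_univ _, he.1⟩, h4⟩)
        · intro v hv
          obtain ⟨hv, h3⟩ := mem_filter.1 (mem_coe.1 hv)
          refine mem_coe.2 (mem_filter.2 ⟨(hA v).2 ⟨(mem_filter.1 hv).2, ?_⟩, ?_⟩)
          · rw [h3]; exact (mem_filter.1 hb).2.1.symm
          · rw [(hmk v).1, (hmk v).2, h3]
        · intro e he
          exact hmk' e (Prod.ext_iff.1 (mem_filter.1 (mem_coe.1 he)).2).1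
        · intro v _; exact (hmk v).2
      rw [e]; exact hdeg _)
  rw [h1, Nat.cast_sum]
  refine h2.trans ?_
  rw [hBc]
  linarith [forest_cs_le g]

/-- the first step: distribution of the arcs into groups -/
lemma forest_step1 {g p : ℕ} [Fact g.Prime] (lab : V → ZMod g × ZMod g × ZMod p)
    (W : Finset V) (H : Finset (Sym2 V)) {R0 ε : ℝ}
    (hdeg : ∀ w ∈ W, ∀ l, |(((nb H w).filter fun v => lab v = l).card : ℝ) - R0| ≤ ε) :
    ∃ gr : V × V → (ZMod g × ZMod g) × ZMod p,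
      (∀ e ∈ forest_arcs lab H, ¬ onL (gr e).1 (lab e.1) ∧ ¬ onL (gr e).1 (lab e.2) ∧
        (lab e.2).2.2 = (lab e.1).2.2 + (gr e).2) ∧
      ∀ G : (ZMod g × ZMod g) × ZMod p, ∀ w ∈ W, ¬ onL G.1 (lab w) →
        |(((forest_arcs lab H).filter fun e => e.1 = w ∧ gr e = G).card : ℝ) - R0| ≤
          ε + (g : ℝ) ^ 2 ∧
        |(((forest_arcs lab H).filter fun e => e.2 = w ∧ gr e = G).card : ℝ) - R0| ≤
          ε + (g : ℝ) ^ 2 := by
  obtain ⟨col, hc, heq⟩ := forest_equi (forest_arcs lab H) (fun e => (e.1, lab e.2))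
    (fun e => (e.2, lab e.1)) (forest_cs g) (forest_cs_ne g)
  refine ⟨fun e => (forest_line (lab e.1).1 (lab e.1).2.1 (lab e.2).1 (lab e.2).2.1 (col e),
    (lab e.2).2.2 - (lab e.1).2.2), fun e he => ?_, fun G w hw hl => ⟨?_, ?_⟩⟩
  · have h1 := (forest_line_iff (y := (lab e.1).2.1) (y' := (lab e.2).2.1)
      (forest_mem_arcs.1 he).2 (col e) _).1 rfl
    have h2 := (mem_filter.1 (hc e)).2
    rw [h1] at h2
    exact ⟨forest_off_ne.1 h2.1, forest_off_ne.1 h2.2, by ring⟩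
  · refine forest_one lab _ Prod.fst Prod.snd (fun v => (w, v)) w (fun v => ⟨rfl, rfl⟩)
      (fun e h => by rw [← h]) (fun v => forest_mem_arcs) col G.1 ((lab w).2.2 + G.2)
      (fun c => (forest_off G.1 (lab w).1 (lab w).2.1, c))
      (fun c h => mem_filter.2 ⟨mem_univ _, forest_off_ne.2 hl, h⟩) _ (fun e he h => ?_)
      (fun σ hσ => (heq σ hσ).1) (hdeg w hw)
    rw [Prod.ext_iff, forest_line_iff (forest_mem_arcs.1 he).2, h]
    constructor
    · rintro ⟨h1, h2⟩
      have h3 := (mem_filter.1 (hc e)).2.2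
      rw [h1] at h3
      exact ⟨by rw [← h2, ← h]; ring, h3, h1⟩
    · rintro ⟨h1, -, h3⟩
      exact ⟨h3, by simp only [h1, h]; ring⟩
  · refine forest_one lab _ Prod.snd Prod.fst (fun v => (v, w)) w (fun v => ⟨rfl, rfl⟩)
      (fun e h => by rw [← h]) (fun v => ?_) col G.1 ((lab w).2.2 - G.2)
      (fun c => (c, forest_off G.1 (lab w).1 (lab w).2.1))
      (fun c h => mem_filter.2 ⟨mem_univ _, h, forest_off_ne.2 hl⟩) _ (fun e he h => ?_)
      (fun σ hσ => (heq σ hσ).2) (hdeg w hw)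
    · rw [forest_mem_arcs, Sym2.eq_swap, ne_comm]
    rw [Prod.ext_iff, forest_line_iff (forest_mem_arcs.1 he).2, h]
    constructor
    · rintro ⟨h1, h2⟩
      have h3 := (mem_filter.1 (hc e)).2.1
      rw [h1] at h3
      exact ⟨by rw [← h2, ← h]; ring, h3, h1⟩
    · rintro ⟨h1, -, h3⟩
      exact ⟨h3, by simp only [h1, h]; ring⟩

/-- consequences of an equitable colouring for one end of the arcs -/
lemma forest_side {E Γ : Type} [DecidableEq E] [DecidableEq Γ] (A : Finset E) (t : E → V)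
    (gr : E → Γ) {h : ℕ} (col : E → Fin h) (G : Γ) (U : Finset V) {lo m : ℝ}
    (hU : ∀ e ∈ A, gr e = G → t e ∈ U)
    (hd : ∀ w ∈ U, lo ≤ ((A.filter fun e => t e = w ∧ gr e = G).card : ℝ) ∧
      ((A.filter fun e => t e = w ∧ gr e = G).card : ℝ) ≤ h)
    (h1 : ∀ σ i, |((A.filter fun e => (t e, gr e) = i ∧ col e = σ).card : ℝ) -
        ((A.filter fun e => (t e, gr e) = i).card : ℝ) / h| < 1)
    (h2 : ∀ σ, |((A.filter fun e => gr e = G ∧ col e = σ).card : ℝ) -
        ((A.filter fun e => gr e = G).card : ℝ) / h| < 1)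
    (hh : 0 < h) (hm : (1 - m) * h ≤ lo) :
    (∀ e ∈ A, ∀ e' ∈ A, gr e = G → gr e' = G → col e = col e' → t e = t e' → e = e') ∧
    (∀ σ, ((U.filter fun w => ¬ ∃ e ∈ A, gr e = G ∧ col e = σ ∧ t e = w).card : ℝ) ≤
      m * U.card + 1) ∧
    ∀ w ∈ U, ((univ.filter fun σ => ¬ ∃ e ∈ A, gr e = G ∧ col e = σ ∧ t e = w).card : ℝ) ≤
      h - lo := by
  have hh' : (0 : ℝ) < h := by exact_mod_cast hh
  have inj : ∀ e ∈ A, ∀ e' ∈ A, gr e = G → gr e' = G → col e = col e' → t e = t e' → e = e' := by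
    intro e he e' he' g1 g2 c1 t1
    have a1 := (abs_lt.1 (h1 (col e) (t e, G))).2
    have a2 := (hd (t e) (hU e he g1)).2
    have a3 : (A.filter fun e' => (t e', gr e') = (t e, G)) =
        A.filter fun e' => t e' = t e ∧ gr e' = G := filter_congr fun _ _ => Prod.ext_iff
    rw [a3] at a1
    have a4 := (div_le_one hh').2 a2
    have a5 : (A.filter fun e' => (t e', gr e') = (t e, G) ∧ col e' = col e).card < 2 := by
      have : ((A.filter fun e' => (t e', gr e') = (t e, G) ∧ col e' = col e).card : ℝ) < 2 := by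
        linarith
      exact_mod_cast this
    exact card_le_one.1 (Nat.lt_succ_iff.1 a5) e (mem_filter.2 ⟨he, by rw [g1], rfl⟩) e'
      (mem_filter.2 ⟨he', by rw [g2, t1], c1.symm⟩)
  refine ⟨inj, fun σ => ?_, fun w hw => ?_⟩
  · have b1 := forest_miss (A.filter fun e => gr e = G ∧ col e = σ) U t
      (fun e he => hU e (mem_filter.1 he).1 (mem_filter.1 he).2.1)
      (fun e he e' he' ht => inj e (mem_filter.1 he).1 e' (mem_filter.1 he').1
        (mem_filter.1 he).2.1 (mem_filter.1 he').2.1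
        ((mem_filter.1 he).2.2.trans (mem_filter.1 he').2.2.symm) ht)
    rw [filter_congr (q := fun w => ¬ ∃ e ∈ A.filter fun e => gr e = G ∧ col e = σ, t e = w)
      (fun w _ => by simp only [mem_filter, and_assoc]), b1]
    have b2 := (abs_lt.1 (h2 σ)).1
    have b3 : (A.filter fun e => gr e = G).card =
        ∑ w ∈ U, (A.filter fun e => t e = w ∧ gr e = G).card := by
      rw [card_eq_sum_card_fiberwise (f := t) (t := U)
        (fun e he => mem_coe.2 (hU e (mem_filter.1 (mem_coe.1 he)).1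
          (mem_filter.1 (mem_coe.1 he)).2))]
      refine sum_congr rfl fun w _ => congrArg card ?_
      ext e
      simp only [mem_filter]
      tauto
    have b4 : (U.card : ℝ) * lo ≤ ((A.filter fun e => gr e = G).card : ℝ) := by
      rw [b3, Nat.cast_sum, ← nsmul_eq_mul]
      exact card_nsmul_le_sum _ _ _ fun w hw => (hd w hw).1
    have b5 : (U.card : ℝ) * (1 - m) ≤ ((A.filter fun e => gr e = G).card : ℝ) / h := by
      rw [le_div_iff₀ hh', mul_assoc]
      exact (mul_le_mul_of_nonneg_left hm (Nat.cast_nonneg _)).trans b4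
    linarith
  · have b1 := forest_miss (A.filter fun e => t e = w ∧ gr e = G) univ col
      (fun e _ => mem_univ _)
      (fun e he e' he' hc => inj e (mem_filter.1 he).1 e' (mem_filter.1 he').1
        (mem_filter.1 he).2.2 (mem_filter.1 he').2.2 hc
        ((mem_filter.1 he).2.1.trans (mem_filter.1 he').2.1.symm))
    rw [filter_congr (q := fun σ => ¬ ∃ e ∈ A.filter fun e => t e = w ∧ gr e = G, col e = σ)
      (fun σ _ => not_congr ⟨fun ⟨e, a, b, c, d⟩ => ⟨e, mem_filter.2 ⟨a, d, b⟩, c⟩,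
        fun ⟨e, a, c⟩ => ⟨e, (mem_filter.1 a).1, (mem_filter.1 a).2.2, c, (mem_filter.1 a).2.1⟩⟩), b1, card_univ, Fintype.card_fin]
    linarith [(hd w hw).1]

/-- a digraph with in- and out-degrees at most one and an increasing potential -/
lemma forest_lin (B : Finset (V × V)) (pot : V → ℕ)
    (ho : ∀ e ∈ B, ∀ e' ∈ B, e.1 = e'.1 → e = e') (hi : ∀ e ∈ B, ∀ e' ∈ B, e.2 = e'.2 → e = e')
    (hp : ∀ e ∈ B, pot e.1 < pot e.2) :
    (∀ v, dg (B.image fun e => s(e.1, e.2)) v ≤ 2) ∧ NoCyc (B.image fun e => s(e.1, e.2)) ∧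
    (∀ v, (∀ e ∈ B, e.1 ≠ v ∧ e.2 ≠ v) → dg (B.image fun e => s(e.1, e.2)) v = 0) ∧
    ∀ v, dg (B.image fun e => s(e.1, e.2)) v < 2 →
      (¬ ∃ e ∈ B, e.1 = v) ∨ ¬ ∃ e ∈ B, e.2 = v := by
  have hnb : ∀ v u, u ∈ nb (B.image fun e => s(e.1, e.2)) v ↔ (v, u) ∈ B ∨ (u, v) ∈ B := by
    intro v u
    simp only [nb, mem_filter, mem_univ, true_and, mem_image, Sym2.eq_iff]
    constructor
    · rintro ⟨e, he, ⟨h1, h2⟩ | ⟨h1, h2⟩⟩
      · left; rw [← h1, ← h2]; exact he
      · right; rw [← h1, ← h2]; exact he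
    · rintro (h | h)
      · exact ⟨_, h, Or.inl ⟨rfl, rfl⟩⟩
      · exact ⟨_, h, Or.inr ⟨rfl, rfl⟩⟩
  have c1 : ∀ v, (univ.filter fun u => (v, u) ∈ B).card ≤ 1 := fun v =>
    card_le_one.2 fun a ha b hb =>
      (Prod.ext_iff.1 (ho _ (mem_filter.1 ha).2 _ (mem_filter.1 hb).2 rfl)).2
  have c2 : ∀ v, (univ.filter fun u => (u, v) ∈ B).card ≤ 1 := fun v =>
    card_le_one.2 fun a ha b hb =>
      (Prod.ext_iff.1 (hi _ (mem_filter.1 ha).2 _ (mem_filter.1 hb).2 rfl)).1
  refine ⟨fun v => ?_, fun S hS hc => ?_, fun v hv => ?_, fun v hv => ?_⟩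
  · have : nb (B.image fun e => s(e.1, e.2)) v ⊆
        (univ.filter fun u => (v, u) ∈ B) ∪ (univ.filter fun u => (u, v) ∈ B) := by
      intro u hu
      simpa using (hnb v u).1 hu
    have h1 := (card_le_card this).trans (card_union_le _ _)
    have := c1 v
    have := c2 v
    unfold dg
    omega
  · obtain ⟨v, hv, hm⟩ := exists_min_image S pot hS
    refine ⟨v, hv, le_trans (card_le_card fun u hu => ?_) (c1 v)⟩
    rcases (hnb v u).1 hu with h | h
    · exact mem_filter.2 ⟨mem_univ _, h⟩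
    · exact absurd (hp _ h) (not_lt.2 (hm u (hc v hv hu)))
  · refine card_eq_zero.2 (eq_empty_of_forall_notMem fun u hu => ?_)
    rcases (hnb v u).1 hu with h | h
    · exact (hv _ h).1 rfl
    · exact (hv _ h).2 rfl
  · by_contra hc
    push Not at hc
    obtain ⟨⟨e, he, h1⟩, e', he', h2⟩ := hc
    have a1 := hp e he
    have a2 := hp e' he'
    rw [h1] at a1
    rw [h2] at a2
    have : 1 < dg (B.image fun e => s(e.1, e.2)) v :=
      one_lt_card.2 ⟨e.2, (hnb _ _).2 (Or.inl (by rw [← h1]; exact he)), e'.1,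
        (hnb _ _).2 (Or.inr (by rw [← h2]; exact he')), fun h => by rw [h] at a1; omega⟩
    omega

lemma forest_pot {p : ℕ} [Fact p.Prime] {a σ δ : ZMod p} (hδ : δ ≠ 0) (ha : a ≠ σ) :
    ((a - σ) / δ - 1).val < ((a + δ - σ) / δ - 1).val := by
  have e : (a + δ - σ) / δ - 1 = (a - σ) / δ := by field_simp; ring
  have h0 : (a - σ) / δ ≠ 0 := div_ne_zero (sub_ne_zero.2 ha) hδ
  have h1 : 0 < ((a - σ) / δ).val := ZMod.val_pos.2 h0
  rw [e, ZMod.val_sub (by rw [ZMod.val_one]; exact h1), ZMod.val_one]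
  omega

lemma forest_four {α : Type} [DecidableEq α] {S A B C D : Finset α}
    (h : ∀ x ∈ S, x ∈ A ∨ x ∈ B ∨ x ∈ C ∨ x ∈ D) :
    (S.card : ℝ) ≤ A.card + B.card + C.card + D.card := by
  have h1 : S ⊆ A ∪ B ∪ C ∪ D := fun x hx => by simpa [or_assoc] using h x hx
  have h2 := card_le_card h1
  have h3 := card_union_le (A ∪ B ∪ C) D
  have h4 := card_union_le (A ∪ B) C
  have h5 := card_union_le A B
  have : S.card ≤ A.card + B.card + C.card + D.card := by omega
  exact_mod_cast this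

/-- Hint: write `lab v = (x v, y v, f v)`. Arcs are the pairs `(u, v)` with `s(u,v) ∈ H`,
`x u ≠ x v` and `f v = f u + δ` with `δ = d + 1`, `d : Fin ((p - 1) / 2)` (each edge gives at most
one arc). Step 1: `equi` with `(g - 1) ^ 2` colours, identified with pairs `(c1, c2)` of nonzero
elements of `ZMod g`, for the fibres `(u, lab v)` and `(v, lab u)`; the arc is assigned to the unique
line through `(x u, y u + c1)` and `(x v, y v + c2)`. For `u` not on the line `l`, the out-degree of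
`u` in the group `(l, d)` is a sum over the `(g - 1) ^ 2` points `b` off `l` with `b.1 ≠ x u` of a
count within 1 of (number of neighbours with label `(b, f u + δ)`) / `(g - 1) ^ 2`, so it lies
between `(1 - 3 κ) R0` and `(1 + 3 κ) R0`; the same for in-degrees; vertices on `l` have no arcs.
Step 2: `equi` with `h` colours for the fibres (tail, group), (head, group) and (group). Each class
has in- and out-degrees at most 1 and at least `|W \ line| (1 - 7 κ) - 1` arcs. Step 3: in class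
`σ` delete the arcs with `f (tail) = σ`; then `((f v - σ) / δ - 1).val` increases along arcs, which
gives `NoCyc` (take a vertex of least potential) and degree 2 at a vertex with an in-arc and an
out-arc. At most `h / p + 1` numbers `σ < h` have a given residue. -/
theorem forests (g p : ℕ) [Fact g.Prime] [Fact p.Prime] (hp : 3 ≤ p)
    (lab : V → ZMod g × ZMod g × ZMod p) {W : Finset V} {H : Finset (Sym2 V)} (hH : On W H)
    {R0 κ cls : ℝ} {h : ℕ} (hκ0 : 0 < κ) (hκ : κ ≤ 1 / 100) (hg : (g : ℝ) ^ 2 ≤ κ * R0)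
    (hdeg : ∀ w ∈ W, ∀ l, |(((nb H w).filter fun v => lab v = l).card : ℝ) - R0| ≤ 2 * κ * R0)
    (hh1 : (1 + 3 * κ) * R0 ≤ h) (hh2 : (h : ℝ) ≤ (1 + 4 * κ) * R0)
    (hcls : ∀ φ : ZMod p, ((W.filter fun w => (lab w).2.2 = φ).card : ℝ) ≤ cls) :
    ∃ F : (ZMod g × ZMod g) × Fin ((p - 1) / 2) × Fin h → Finset (Sym2 V),
      (∀ φ, F φ ⊆ H ∧ (∀ v, dg (F φ) v ≤ 2) ∧ NoCyc (F φ) ∧
        (∀ v, onL φ.1 (lab v) → dg (F φ) v = 0) ∧
        ((W.filter fun w => ¬ onL φ.1 (lab w) ∧ dg (F φ) w < 2).card : ℝ) ≤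
          14 * κ * W.card + 2 * cls + 2) ∧
      (∀ φ ψ, φ ≠ ψ → Disjoint (F φ) (F ψ)) ∧
      ∀ w ∈ W, ((univ.filter fun φ : (ZMod g × ZMod g) × Fin ((p - 1) / 2) × Fin h =>
          ¬ onL φ.1 (lab w) ∧ dg (F φ) w < 2).card : ℝ) ≤
        (g : ℝ) ^ 2 * p * (7 * κ * R0 + h / p + 1) := by
  have hg2 : (2 : ℝ) ≤ g := by exact_mod_cast (Fact.out : g.Prime).two_le
  have hκR : 0 < κ * R0 := by nlinarith
  have hR : 0 < R0 := (mul_pos_iff_of_pos_left hκ0).1 hκR
  have hh : 0 < h := by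
    have : (0 : ℝ) < h := by nlinarith
    exact_mod_cast this
  obtain ⟨gr, hgr, hd⟩ := forest_step1 lab W H hdeg
  set A := forest_arcs lab H with hA
  obtain ⟨col, hcol⟩ := equi A (fun e => (e.1, gr e)) (fun e => (e.2, gr e)) Prod.snd h hh
  have hW : ∀ e ∈ A, e.1 ∈ W ∧ e.2 ∈ W := fun e he =>
    ⟨(hH _ (forest_mem_arcs.1 he).1).2 _ (Sym2.mem_mk_left _ _),
      (hH _ (forest_mem_arcs.1 he).1).2 _ (Sym2.mem_mk_right _ _)⟩
  have hm : (1 - 7 * κ) * h ≤ (1 - 3 * κ) * R0 := by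
    have := mul_le_mul_of_nonneg_left hh2 (show 0 ≤ 1 - 7 * κ by linarith)
    nlinarith
  have s1 := fun G : (ZMod g × ZMod g) × ZMod p =>
    forest_side A Prod.fst gr col G (W.filter fun w => ¬ onL G.1 (lab w))
      (lo := (1 - 3 * κ) * R0) (m := 7 * κ)
      (fun e he h => mem_filter.2 ⟨(hW e he).1, h ▸ (hgr e he).1⟩)
      (fun w hw => by
        have := abs_le.1 (hd G w (mem_filter.1 hw).1 (mem_filter.1 hw).2).1
        constructor <;> linarith)
      (fun σ => (hcol σ).1) (fun σ => (hcol σ).2.2 G) hh hm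
  have s2 := fun G : (ZMod g × ZMod g) × ZMod p =>
    forest_side A Prod.snd gr col G (W.filter fun w => ¬ onL G.1 (lab w))
      (lo := (1 - 3 * κ) * R0) (m := 7 * κ)
      (fun e he h => mem_filter.2 ⟨(hW e he).2, h ▸ (hgr e he).2.1⟩)
      (fun w hw => by
        have := abs_le.1 (hd G w (mem_filter.1 hw).1 (mem_filter.1 hw).2).2
        constructor <;> linarith)
      (fun σ => (hcol σ).2.1) (fun σ => (hcol σ).2.2 G) hh hm
  obtain ⟨δ, hδv⟩ : ∃ δ : Fin ((p - 1) / 2) → ZMod p, ∀ d, (δ d).val = (d : ℕ) + 1 :=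
    ⟨fun d => (((d : ℕ) + 1 : ℕ) : ZMod p), fun d =>
      ZMod.val_natCast_of_lt (by have := d.2; omega)⟩
  have hδ0 : ∀ d, δ d ≠ 0 := fun d h0 => by
    have := hδv d
    rw [h0, ZMod.val_zero] at this
    omega
  have hδa : ∀ d d', δ d + δ d' ≠ 0 := fun d d' h0 => by
    have h1 := d.2
    have h2 := d'.2
    have := ZMod.val_add_of_lt (a := δ d) (b := δ d') (by rw [hδv, hδv]; omega)
    rw [h0, ZMod.val_zero, hδv, hδv] at this
    omega
  obtain ⟨B, hB⟩ : ∃ B : (ZMod g × ZMod g) × Fin ((p - 1) / 2) × Fin h → Finset (V × V),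
      ∀ φ e, e ∈ B φ ↔ e ∈ A ∧ gr e = (φ.1, δ φ.2.1) ∧ col e = φ.2.2 ∧
        (lab e.1).2.2 ≠ ((φ.2.2 : ℕ) : ZMod p) :=
    ⟨fun φ => A.filter fun e => gr e = (φ.1, δ φ.2.1) ∧ col e = φ.2.2 ∧
      (lab e.1).2.2 ≠ ((φ.2.2 : ℕ) : ZMod p), fun φ e => mem_filter⟩
  have hf : ∀ e ∈ A, ∀ l d, gr e = (l, δ d) → (lab e.2).2.2 = (lab e.1).2.2 + δ d := by
    intro e he l d h1
    rw [(hgr e he).2.2, h1]
  have lin := fun φ => forest_lin (B φ)
    (fun v => (((lab v).2.2 - ((φ.2.2 : ℕ) : ZMod p)) / δ φ.2.1 - 1).val)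
    (fun e he e' he' => by
      obtain ⟨a1, a2, a3, -⟩ := (hB φ e).1 he
      obtain ⟨b1, b2, b3, -⟩ := (hB φ e').1 he'
      exact (s1 _).1 e a1 e' b1 a2 b2 (a3.trans b3.symm))
    (fun e he e' he' => by
      obtain ⟨a1, a2, a3, -⟩ := (hB φ e).1 he
      obtain ⟨b1, b2, b3, -⟩ := (hB φ e').1 he'
      exact (s2 _).1 e a1 e' b1 a2 b2 (a3.trans b3.symm))
    (fun e he => by
      obtain ⟨a1, a2, -, a4⟩ := (hB φ e).1 he
      simp only [hf e a1 _ _ a2]
      exact forest_pot (hδ0 _) a4)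
  have bad : ∀ φ w, dg ((B φ).image fun e => s(e.1, e.2)) w < 2 →
      (¬ ∃ e ∈ A, gr e = (φ.1, δ φ.2.1) ∧ col e = φ.2.2 ∧ e.1 = w) ∨
      (¬ ∃ e ∈ A, gr e = (φ.1, δ φ.2.1) ∧ col e = φ.2.2 ∧ e.2 = w) ∨
      (lab w).2.2 = ((φ.2.2 : ℕ) : ZMod p) ∨
      (lab w).2.2 = ((φ.2.2 : ℕ) : ZMod p) + δ φ.2.1 := by
    intro φ w hw
    by_contra hc
    simp only [not_or, not_not] at hc
    obtain ⟨⟨e, a1, a2, a3, a4⟩, ⟨e', b1, b2, b3, b4⟩, c1, c2⟩ := hc
    rcases (lin φ).2.2.2 w hw with h1 | h1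
    · exact h1 ⟨e, (hB φ e).2 ⟨a1, a2, a3, by rw [a4]; exact c1⟩, a4⟩
    · refine h1 ⟨e', (hB φ e').2 ⟨b1, b2, b3, fun h2 => c2 ?_⟩, b4⟩
      rw [← b4, hf e' b1 _ _ b2, h2]
  refine ⟨fun φ => (B φ).image fun e => s(e.1, e.2), fun φ => ⟨?_, ?_, ?_, fun v hv => ?_, ?_⟩,
    fun φ ψ hne => ?_, fun w hw => ?_⟩
  · intro x hx
    obtain ⟨e, he, rfl⟩ := mem_image.1 hx
    exact (forest_mem_arcs.1 ((hB φ e).1 he).1).1
  · exact (lin φ).1
  · exact (lin φ).2.1
  · refine (lin φ).2.2.1 v fun e he => ?_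
    obtain ⟨a1, a2, -⟩ := (hB φ e).1 he
    have := hgr e a1
    rw [a2] at this
    exact ⟨fun h => this.1 (h ▸ hv), fun h => this.2.1 (h ▸ hv)⟩
  · have a1 := (s1 (φ.1, δ φ.2.1)).2.1 φ.2.2
    have a2 := (s2 (φ.1, δ φ.2.1)).2.1 φ.2.2
    have a3 := hcls ((φ.2.2 : ℕ) : ZMod p)
    have a4 := hcls (((φ.2.2 : ℕ) : ZMod p) + δ φ.2.1)
    have a5 : ((W.filter fun w => ¬ onL φ.1 (lab w)).card : ℝ) ≤ W.card := by
      exact_mod_cast card_filter_le _ _
    have a6 := mul_le_mul_of_nonneg_left a5 (show 0 ≤ 7 * κ by linarith)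
    refine (forest_four fun w hw => ?_).trans (((add_le_add (add_le_add (add_le_add a1 a2) a3)
      a4)).trans (by linarith))
    obtain ⟨w1, w2, w3⟩ := mem_filter.1 hw
    rcases bad φ w w3 with h | h | h | h
    · exact Or.inl (mem_filter.2 ⟨mem_filter.2 ⟨w1, w2⟩, h⟩)
    · exact Or.inr (Or.inl (mem_filter.2 ⟨mem_filter.2 ⟨w1, w2⟩, h⟩))
    · exact Or.inr (Or.inr (Or.inl (mem_filter.2 ⟨w1, h⟩)))
    · exact Or.inr (Or.inr (Or.inr (mem_filter.2 ⟨w1, h⟩)))
  · refine disjoint_left.2 fun x hx hx' => hne ?_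
    obtain ⟨e, he, rfl⟩ := mem_image.1 hx
    obtain ⟨e', he', h1⟩ := mem_image.1 hx'
    obtain ⟨a1, a2, a3, -⟩ := (hB φ e).1 he
    obtain ⟨b1, b2, b3, -⟩ := (hB ψ e').1 he'
    rcases Sym2.eq_iff.1 h1 with ⟨h2, h3⟩ | ⟨h2, h3⟩
    · have h4 : e' = e := Prod.ext h2 h3
      rw [h4, a2] at b2
      rw [h4, a3] at b3
      obtain ⟨c1, c2⟩ := Prod.ext_iff.1 b2
      have c3 := congrArg ZMod.val c2
      simp only [hδv] at c3
      exact Prod.ext c1 (Prod.ext (Fin.ext (by omega)) b3)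
    · have c1 := hf e a1 _ _ a2
      have c2 := hf e' b1 _ _ b2
      rw [h2, h3] at c2
      exact absurd (by linear_combination -c1 - c2) (hδa φ.2.1 ψ.2.1)
  · have hp0 : (0 : ℝ) < p := by exact_mod_cast (by omega : 0 < p)
    have hM : 0 ≤ 7 * κ * R0 + h / p + 1 := by positivity
    have each : ∀ (l : ZMod g × ZMod g) (d : Fin ((p - 1) / 2)),
        ((univ.filter fun σ : Fin h => ¬ onL l (lab w) ∧
          dg ((B (l, d, σ)).image fun e => s(e.1, e.2)) w < 2).card : ℝ) ≤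
          2 * (7 * κ * R0 + h / p + 1) := by
      intro l d
      by_cases hl : onL l (lab w)
      · rw [filter_false_of_mem (fun σ _ h => h.1 hl), card_empty, Nat.cast_zero]
        linarith
      have hwU : w ∈ W.filter fun w => ¬ onL (l, δ d).1 (lab w) := mem_filter.2 ⟨hw, hl⟩
      have a1 := (s1 (l, δ d)).2.2 w hwU
      have a2 := (s2 (l, δ d)).2.2 w hwU
      have a3 := forest_res p h (lab w).2.2
      have a4 := forest_res p h ((lab w).2.2 - δ d)
      refine (forest_four fun σ hσ => ?_).trans (((add_le_add (add_le_add (add_le_add a1 a2) a3)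
        a4)).trans (by linarith))
      rcases bad (l, d, σ) w (mem_filter.1 hσ).2.2 with h | h | h | h
      · exact Or.inl (mem_filter.2 ⟨mem_univ _, h⟩)
      · exact Or.inr (Or.inl (mem_filter.2 ⟨mem_univ _, h⟩))
      · exact Or.inr (Or.inr (Or.inl (mem_filter.2 ⟨mem_univ _, h.symm⟩)))
      · exact Or.inr (Or.inr (Or.inr (mem_filter.2 ⟨mem_univ _, by rw [h]; ring⟩)))
    have e1 : ((univ.filter fun φ : (ZMod g × ZMod g) × Fin ((p - 1) / 2) × Fin h =>
        ¬ onL φ.1 (lab w) ∧ dg ((B φ).image fun e => s(e.1, e.2)) w < 2).card : ℝ) =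
        ∑ l : ZMod g × ZMod g, ∑ d : Fin ((p - 1) / 2),
          ((univ.filter fun σ : Fin h => ¬ onL l (lab w) ∧
            dg ((B (l, d, σ)).image fun e => s(e.1, e.2)) w < 2).card : ℝ) := by
      simp only [card_filter, Fintype.sum_prod_type, Nat.cast_sum]
    rw [e1]
    refine (sum_le_sum fun l _ => sum_le_sum fun d _ => each l d).trans ?_
    simp only [sum_const, card_univ, Fintype.card_prod, ZMod.card, Fintype.card_fin, nsmul_eq_mul]
    have h1 : (((p - 1) / 2 : ℕ) : ℝ) * 2 ≤ p := by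
      exact_mod_cast (by omega : (p - 1) / 2 * 2 ≤ p)
    have h2 := mul_le_mul_of_nonneg_right h1 hM
    have h3 := mul_le_mul_of_nonneg_left h2 (sq_nonneg (g : ℝ))
    push_cast
    linarith

end

end Pool.Agent.MP_1376f1_pr

end

-- part MP_1376f1_pr.Greedy
section

/-!
Derandomised choices by a potential function.
-/

set_option autoImplicit false
set_option linter.unusedSectionVars false

namespace Pool.Agent.MP_1376f1_pr

open Finset MP_d802e4_co
open scoped Classical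

noncomputable section

variable {V : Type} [Fintype V] [DecidableEq V]


/-- One averaging step. Hint: the average over `o ∈ O` of `exp (ϑ * ind hit)` is at most
`1 + (exp ϑ - 1) μ ≤ exp ((exp ϑ - 1) μ)`. -/
theorem avg_step {κ τ : Type} (O : Finset κ) (hO : O.Nonempty) (Y : Finset τ)
    (hit : κ → τ → Prop) (μ ϑ w : τ → ℝ) (hw : ∀ y ∈ Y, 0 ≤ w y) (hϑ : ∀ y ∈ Y, 0 ≤ ϑ y)
    (h : ∀ y ∈ Y, ((O.filter fun o => hit o y).card : ℝ) ≤ μ y * O.card) :
    ∃ o ∈ O, ∑ y ∈ Y, w y * Real.exp ((if hit o y then ϑ y else 0) -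
      (Real.exp (ϑ y) - 1) * μ y) ≤ ∑ y ∈ Y, w y := by
  refine Finset.exists_le_of_sum_le hO ?_
  rw [Finset.sum_comm, Finset.sum_comm (s := O)]
  refine Finset.sum_le_sum fun y hy => ?_
  have h1 : 0 ≤ Real.exp (ϑ y) - 1 := sub_nonneg.2 (Real.one_le_exp (hϑ y hy))
  have h2 : ∀ o, w y * Real.exp ((if hit o y then ϑ y else 0) - (Real.exp (ϑ y) - 1) * μ y) =
      w y * Real.exp (-((Real.exp (ϑ y) - 1) * μ y)) *
        (1 + (Real.exp (ϑ y) - 1) * if hit o y then 1 else 0) := by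
    intro o
    rw [sub_eq_add_neg, Real.exp_add]
    split_ifs
    · ring
    · rw [Real.exp_zero]; ring
  simp_rw [h2]
  rw [← Finset.mul_sum, Finset.sum_add_distrib, ← Finset.mul_sum, Finset.sum_boole,
    Finset.sum_const, Finset.sum_const, nsmul_eq_mul, nsmul_eq_mul, mul_one]
  have h3 := Real.add_one_le_exp ((Real.exp (ϑ y) - 1) * μ y)
  have h4 : (0 : ℝ) ≤ O.card := Nat.cast_nonneg _
  have h5 : (O.card : ℝ) + (Real.exp (ϑ y) - 1) * ((O.filter fun o => hit o y).card : ℝ) ≤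
      O.card * Real.exp ((Real.exp (ϑ y) - 1) * μ y) := by
    have := mul_le_mul_of_nonneg_left (h y hy) h1
    nlinarith [mul_le_mul_of_nonneg_left h3 h4]
  calc _ ≤ w y * Real.exp (-((Real.exp (ϑ y) - 1) * μ y)) *
        (O.card * Real.exp ((Real.exp (ϑ y) - 1) * μ y)) :=
        mul_le_mul_of_nonneg_left h5 (mul_nonneg (hw y hy) (Real.exp_pos _).le)
    _ = O.card * w y * (Real.exp (-((Real.exp (ϑ y) - 1) * μ y)) *
        Real.exp ((Real.exp (ϑ y) - 1) * μ y)) := by ring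
    _ = _ := by rw [← Real.exp_add, neg_add_cancel, Real.exp_zero, mul_one]

lemma greedy_log {τ : Type} {Y : Finset τ} {F : τ → ℝ}
    (h : ∑ y ∈ Y, Real.exp (F y) ≤ Y.card) {y : τ} (hy : y ∈ Y) : F y ≤ Real.log Y.card := by
  have h1 : Real.exp (F y) ≤ Y.card :=
    (Finset.single_le_sum (f := fun y => Real.exp (F y)) (fun _ _ => (Real.exp_pos _).le) hy).trans h
  exact (Real.le_log_iff_exp_le ((Real.exp_pos _).trans_le h1)).2 h1

/-- Independent choices. Hint: induction on `X` with weights, then bound one term by the sum. -/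
theorem greedy_indep {ι κ τ : Type} [Nonempty κ] (X : Finset ι) (O : ι → Finset κ)
    (hO : ∀ x ∈ X, (O x).Nonempty) (Y : Finset τ) (hit : ι → κ → τ → Prop) (μ : ι → τ → ℝ)
    (ϑ : τ → ℝ) (hϑ : ∀ y ∈ Y, 0 ≤ ϑ y)
    (h : ∀ x ∈ X, ∀ y ∈ Y, (((O x).filter fun o => hit x o y).card : ℝ) ≤ μ x y * (O x).card) :
    ∃ ch : ι → κ, (∀ x ∈ X, ch x ∈ O x) ∧ ∀ y ∈ Y,
      ϑ y * ((X.filter fun x => hit x (ch x) y).card : ℝ) ≤
        Real.log Y.card + (Real.exp (ϑ y) - 1) * ∑ x ∈ X, μ x y := by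
  have key : ∃ ch : ι → κ, (∀ x ∈ X, ch x ∈ O x) ∧
      ∑ y ∈ Y, Real.exp (ϑ y * ((X.filter fun x => hit x (ch x) y).card : ℝ) -
        (Real.exp (ϑ y) - 1) * ∑ x ∈ X, μ x y) ≤ Y.card := by
    induction X using Finset.induction_on with
    | empty => exact ⟨fun _ => Classical.arbitrary κ, by simp, by simp⟩
    | insert x X hx ih =>
      obtain ⟨ch, h1, h2⟩ := ih (fun z hz => hO z (mem_insert_of_mem hz))
        (fun z hz => h z (mem_insert_of_mem hz))
      obtain ⟨o, ho, h3⟩ := avg_step (O x) (hO x (mem_insert_self _ _)) Y (hit x) (μ x) ϑ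
        (fun y => Real.exp (ϑ y * ((X.filter fun x => hit x (ch x) y).card : ℝ) -
          (Real.exp (ϑ y) - 1) * ∑ x ∈ X, μ x y)) (fun _ _ => (Real.exp_pos _).le) hϑ
        (h x (mem_insert_self _ _))
      have hup : ∀ z ∈ X, Function.update ch x o z = ch z := fun z hz =>
        Function.update_of_ne (ne_of_mem_of_not_mem hz hx) _ _
      refine ⟨Function.update ch x o, fun z hz => ?_, le_trans (le_of_eq ?_) (h3.trans h2)⟩
      · rcases mem_insert.1 hz with rfl | hz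
        · rwa [Function.update_self]
        · rw [hup z hz]; exact h1 z hz
      · refine Finset.sum_congr rfl fun y _ => ?_
        have e : (X.filter fun z => hit z (Function.update ch x o z) y) =
            X.filter fun z => hit z (ch z) y :=
          Finset.filter_congr fun z hz => by rw [hup z hz]
        rw [← Real.exp_add, Finset.sum_insert hx, Finset.filter_insert, Function.update_self, e]
        congr 1
        split_ifs
        · rw [Finset.card_insert_of_notMem (fun h' => hx (mem_filter.1 h').1)]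
          push_cast; ring
        · ring
  obtain ⟨ch, h1, h2⟩ := key
  exact ⟨ch, h1, fun y hy => by linarith [greedy_log h2 hy]⟩

lemma greedy_hits {I J : Finset ℕ} (hJ : J ⊆ I) {N : Finset V} (hN : N.card ≤ 2)
    (As : ℕ → Finset V) {a : ℝ} (ha0 : 0 ≤ a)
    (ha : ∀ u, ((I.filter fun i => u ∈ As i).card : ℝ) ≤ a) :
    ((J.filter fun i => ¬ Disjoint N (As i)).card : ℝ) ≤ 2 * a := by
  have h1 : (J.filter fun i => ¬ Disjoint N (As i)) ⊆
      N.biUnion fun u => I.filter fun i => u ∈ As i := by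
    intro i hi
    obtain ⟨h1, h2⟩ := mem_filter.1 hi
    obtain ⟨u, h3, h4⟩ := Finset.not_disjoint_iff.1 h2
    exact mem_biUnion.2 ⟨u, h3, mem_filter.2 ⟨hJ h1, h4⟩⟩
  have h2 : ((J.filter fun i => ¬ Disjoint N (As i)).card : ℝ) ≤
      ∑ u ∈ N, ((I.filter fun i => u ∈ As i).card : ℝ) := by
    exact_mod_cast (card_le_card h1).trans card_biUnion_le
  have h3 := Finset.sum_le_card_nsmul N _ a fun u _ => ha u
  rw [nsmul_eq_mul] at h3
  have h4 : (N.card : ℝ) ≤ 2 := by exact_mod_cast hN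
  nlinarith

lemma greedy_bij {Φ : Type} [Nonempty Φ] (I : Finset ℕ)
    (nbr : Φ → V → Finset V) (hn : ∀ φ y, (nbr φ y).card ≤ 2) (As : ℕ → Finset V) {a ϑ : ℝ}
    (ha : ∀ u, ((I.filter fun i => u ∈ As i).card : ℝ) ≤ a) (c : ℕ) (hc : 1 ≤ c) (hϑ : 0 ≤ ϑ)
    (n : ℕ) : ∀ (J : Finset ℕ) (Ψ : Finset Φ), J ⊆ I → J.card = n → Ψ.card = n →
      ∀ w : V → ℝ, (∀ y, 0 ≤ w y) → ∃ σ : ℕ → Φ, Set.BijOn σ J Ψ ∧
        ∑ y, w y * Real.exp (ϑ * (((J.filter fun i => ¬ Disjoint (nbr (σ i) y) (As i)).card : ℝ)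
          - c) - (Real.exp ϑ - 1) * (J.card * (2 * a / c))) ≤ ∑ y, w y := by
  have ha0 : ∀ _ : V, 0 ≤ a := fun u => (Nat.cast_nonneg _).trans (ha u)
  have hc0 : (0 : ℝ) < c := by exact_mod_cast hc
  have he : 0 ≤ Real.exp ϑ - 1 := sub_nonneg.2 (Real.one_le_exp hϑ)
  have small : ∀ (J : Finset ℕ) (Ψ : Finset Φ), J.card ≤ c → J.card = Ψ.card →
      ∀ w : V → ℝ, (∀ y, 0 ≤ w y) → ∃ σ : ℕ → Φ, Set.BijOn σ J Ψ ∧
        ∑ y, w y * Real.exp (ϑ * (((J.filter fun i => ¬ Disjoint (nbr (σ i) y) (As i)).card : ℝ)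
          - c) - (Real.exp ϑ - 1) * (J.card * (2 * a / c))) ≤ ∑ y, w y := by
    intro J Ψ h1 h2 w hw
    obtain ⟨σ, hσ⟩ := (J.finite_toSet).exists_bijOn_of_encard_eq (t := (Ψ : Set Φ))
      (by rw [Set.encard_coe_eq_coe_finsetCard, Set.encard_coe_eq_coe_finsetCard, h2])
    refine ⟨σ, hσ, Finset.sum_le_sum fun y _ => mul_le_of_le_one_right (hw y) ?_⟩
    rw [Real.exp_le_one_iff]
    have h3 : ((J.filter fun i => ¬ Disjoint (nbr (σ i) y) (As i)).card : ℝ) ≤ c := by
      exact_mod_cast (card_filter_le _ _).trans h1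
    have h4 := ha0 y
    have h5 : 0 ≤ (Real.exp ϑ - 1) * (J.card * (2 * a / c)) := by positivity
    nlinarith [mul_nonneg hϑ (sub_nonneg.2 h3)]
  induction n with
  | zero => intro J Ψ _ h1 h2; exact small J Ψ (by omega) (by omega)
  | succ n ih =>
    intro J Ψ hJ h1 h2 w hw
    rcases le_or_gt J.card c with h3 | h3
    · exact small J Ψ h3 (by omega) w hw
    obtain ⟨φ, hφ⟩ : Ψ.Nonempty := card_pos.1 (by omega)
    obtain ⟨i, hi, h4⟩ := avg_step J (card_pos.1 (by omega)) (univ : Finset V)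
      (fun i y => ¬ Disjoint (nbr φ y) (As i)) (fun _ => 2 * a / c) (fun _ => ϑ) w
      (fun y _ => hw y) (fun _ _ => hϑ) (fun y _ => by
        have h5 := greedy_hits hJ (hn φ y) As (ha0 y) ha
        have h6 : (c : ℝ) ≤ J.card := by exact_mod_cast h3.le
        have h7 := ha0 y
        have h8 : 2 * a ≤ 2 * a / c * J.card := by
          rw [div_mul_eq_mul_div, le_div_iff₀ hc0]
          exact mul_le_mul_of_nonneg_left h6 (by positivity)
        refine le_trans (le_of_eq ?_) (h5.trans h8)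
        congr)
    obtain ⟨σ, hσ, h5⟩ := ih (J.erase i) (Ψ.erase φ) ((erase_subset _ _).trans hJ)
      (by rw [card_erase_of_mem hi]; omega) (by rw [card_erase_of_mem hφ]; omega)
      (fun y => w y * Real.exp ((if ¬ Disjoint (nbr φ y) (As i) then ϑ else 0) -
        (Real.exp ϑ - 1) * (2 * a / c))) (fun y => mul_nonneg (hw y) (Real.exp_pos _).le)
    have hup : ∀ z ∈ J.erase i, Function.update σ i φ z = σ z := fun z hz =>
      Function.update_of_ne (ne_of_mem_erase hz) _ _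
    refine ⟨Function.update σ i φ, ?_, ?_⟩
    · have h6 : Set.BijOn (Function.update σ i φ) (J.erase i : Finset ℕ) (Ψ.erase φ : Finset Φ) :=
        hσ.congr fun z hz => (hup z hz).symm
      have h7 := h6.insert (a := i) (by rw [Function.update_self]; simp)
      rwa [Function.update_self, ← coe_insert, ← coe_insert, insert_erase hi,
        insert_erase hφ] at h7
    · refine le_trans (le_of_eq ?_) (h5.trans (le_trans (le_of_eq ?_) h4))
      · refine Finset.sum_congr rfl fun y _ => ?_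
        have e : ((J.erase i).filter fun z => ¬ Disjoint (nbr (Function.update σ i φ z) y) (As z)) =
            (J.erase i).filter fun z => ¬ Disjoint (nbr (σ z) y) (As z) :=
          Finset.filter_congr fun z hz => by rw [hup z hz]
        have e2 : (J.card : ℝ) = (J.erase i).card + 1 := by
          rw [← card_erase_add_one hi]; push_cast; rfl
        rw [mul_assoc (w y), ← Real.exp_add, e2]
        conv_lhs => rw [← insert_erase hi, Finset.filter_insert, Function.update_self,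
          erase_insert (notMem_erase _ _), e]
        congr 2
        split_ifs
        · ring
        · rw [Finset.card_insert_of_notMem (fun h' => notMem_erase _ _ (mem_filter.1 h').1)]
          push_cast; ring
      · refine Finset.sum_congr rfl fun y _ => ?_
        congr

/-- A bijection between colours and forests with few collisions at every vertex.
Hint: induction on the common cardinality for subsets `J ⊆ I`, `Ψ ⊆ Φs` and arbitrary weights
`w ≥ 0`: there is a bijection with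
`∑ y, w y * exp (ϑ (hits y - c) - (exp ϑ - 1) |J| 2 a / c) ≤ ∑ y, w y`. If `|J| ≤ c` any bijection
works. Otherwise fix `φ ∈ Ψ` and choose its colour by `avg_step` with `μ = 2 a / c`. -/
theorem bij {Φ : Type} [Nonempty Φ] (I : Finset ℕ) (Φs : Finset Φ) (hcard : I.card = Φs.card)
    (nbr : Φ → V → Finset V) (hn : ∀ φ y, (nbr φ y).card ≤ 2) (As : ℕ → Finset V) {a ϑ : ℝ}
    (ha : ∀ u, ((I.filter fun i => u ∈ As i).card : ℝ) ≤ a) (c : ℕ) (hc : 1 ≤ c) (hϑ : 0 ≤ ϑ) :
    ∃ σ : ℕ → Φ, Set.BijOn σ I Φs ∧ ∀ y : V,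
      ϑ * (((I.filter fun i => ¬ Disjoint (nbr (σ i) y) (As i)).card : ℝ) - c) ≤
        Real.log (nV V) + (Real.exp ϑ - 1) * (I.card * (2 * a / c)) := by
  obtain ⟨σ, h1, h2⟩ := greedy_bij I nbr hn As ha c hc hϑ I.card I Φs (Subset.refl _) rfl
    hcard.symm (fun _ => 1) (fun _ => zero_le_one)
  refine ⟨σ, h1, fun y => ?_⟩
  simp only [one_mul, sum_const, nsmul_eq_mul, mul_one] at h2
  have h3 := greedy_log h2 (mem_univ y)
  rw [card_univ] at h3
  unfold nV
  linarith

end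

end Pool.Agent.MP_1376f1_pr

end
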