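import Pool.Agent.MP_1376f1_pr.Mg.Bad

/-!
Isolated vertices and vertices of small degree.
-/

set_option autoImplicit false
set_option linter.unusedSectionVars false

namespace Pool.Agent.MP_1376f1_pr

open Finset MP_d802e4_co
open scoped Classical

noncomputable section

variable {V Λ : Type} [Fintype V] [DecidableEq V] [Fintype Λ] {p : Λ → ℝ}

/-- the pairs at a vertex -/
def isoStar (v : V) : Finset (Sym2 V) := (univ.erase v).image fun u => s(v, u)

/-- the vertex is isolated -/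
def isoEv (L : Finset Λ) (v : V) (ω : Sym2 V → Λ) : Prop := ∀ e ∈ isoStar v, ω e ∈ Lᶜ

theorem iso_card (v : V) : (isoStar v).card = Fintype.card V - 1 := by
  rw [isoStar, card_image_of_injective _ fun u u' h => Sym2.congr_right.1 h,
    card_erase_of_mem (mem_univ v), card_univ]

theorem iso_iff (L : Finset Λ) (v : V) (ω : Sym2 V → Λ) : dg (gr ω L) v = 0 ↔ isoEv L v ω := by
  simp only [dg, card_eq_zero, eq_empty_iff_forall_notMem, mem_nb, mem_gr, isoEv, isoStar,
    forall_mem_image, mem_erase, mem_univ, and_true, mem_compl, Sym2.mk_isDiag_iff]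
  exact ⟨fun h u hu hL => h u ⟨fun e => hu e.symm, hL⟩, fun h u hu => h (fun e => hu.1 e.symm) hu.2⟩

theorem iso_mass (hp : IsP p) (L : Finset Λ) : mass p Lᶜ = 1 - mass p L := by
  have := sum_compl_add_sum L p
  rw [hp.sum] at this
  unfold mass; linarith

theorem iso_union {v u : V} (h : v ≠ u) :
    2 * (Fintype.card V - 1) ≤ (isoStar v ∪ isoStar u).card + 1 := by
  have h1 := card_union_add_card_inter (isoStar v) (isoStar u)
  have h2 : isoStar v ∩ isoStar u ⊆ {s(v, u)} := by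
    intro e he
    obtain ⟨h3, h4⟩ := mem_inter.1 he
    obtain ⟨a, -, rfl⟩ := mem_image.1 h3
    obtain ⟨b, -, e⟩ := mem_image.1 h4
    rcases Sym2.eq_iff.1 e with ⟨h5, -⟩ | ⟨rfl, -⟩
    · exact absurd h5.symm h
    · exact mem_singleton_self _
  have h3 := card_le_card h2
  rw [card_singleton] at h3
  rw [iso_card, iso_card] at h1
  omega

/-- Hint: second moment. With `X` the number of isolated vertices, `E X = μ` and
`E X ^ 2 = μ + n (n - 1) (1 - q) ^ (2 n - 3) ≤ μ + μ ^ 2 / (1 - q)` (`Pr_all_mem` for the complement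
of `L`), so the variance is at most `μ + 2 q μ ^ 2`; `markov` for `(X - μ) ^ 2`. -/
theorem iso_prob (hp : IsP p) (L : Finset Λ) {q μ : ℝ} (hq : mass p L = q) (hq2 : q ≤ 1 / 2)
    (hn : 2 ≤ Fintype.card V) (hμ : μ = nV V * (1 - q) ^ (Fintype.card V - 1)) :
    Pr p (fun ω : Sym2 V → Λ => ((univ.filter fun v => dg (gr ω L) v = 0).card : ℝ) ≤ μ / 2) ≤
      4 / μ + 8 * q := by
  obtain ⟨k, hk⟩ : ∃ k, Fintype.card V = k + 2 := ⟨Fintype.card V - 2, by omega⟩
  have hq0 : 0 ≤ q := hq ▸ mass_nonneg hp L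
  have hy : 0 < 1 - q := by linarith
  have hn0 : 0 < nV V := by unfold nV; exact_mod_cast (by omega : 0 < Fintype.card V)
  have hμ0 : 0 < μ := by rw [hμ]; positivity
  let X : (Sym2 V → Λ) → ℝ := fun ω => ((univ.filter fun v => isoEv L v ω).card : ℝ)
  have hP : ∀ v : V, Pr p (isoEv L v) = (1 - q) ^ (Fintype.card V - 1) := fun v => by
    rw [← iso_card v, ← hq, ← iso_mass hp]; exact Pr_all_mem hp _ _
  have h1 : Ex p X = μ := by
    rw [Ex_card univ (isoEv L), sum_congr rfl fun v _ => hP v, sum_const, nsmul_eq_mul, hμ]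
    rfl
  have hX : ∀ ω, X ω = ∑ v, ind (isoEv L v ω) := fun ω => by
    simp only [X, card_filter, ind]; push_cast; rfl
  have hP2 : ∀ v u : V, Pr p (fun ω => isoEv L v ω ∧ isoEv L u ω) ≤
      (if v = u then (1 - q) ^ (Fintype.card V - 1) else 0) + (1 - q) ^ (2 * k + 1) := by
    intro v u
    split_ifs with h
    · subst h
      rw [← hP v]
      have := Pr_mono hp (E := fun ω => isoEv L v ω ∧ isoEv L v ω) (F := isoEv L v) fun _ h => h.1
      have h2 : 0 ≤ (1 - q) ^ (2 * k + 1) := by positivity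
      linarith
    · rw [zero_add, Pr_congr (F := fun ω => ∀ e ∈ isoStar v ∪ isoStar u, ω e ∈ Lᶜ)
        (fun ω => by simp only [isoEv, mem_union, or_imp, forall_and]), Pr_all_mem hp,
        iso_mass hp, hq]
      have := iso_union h
      exact pow_le_pow_of_le_one hy.le (by linarith) (by omega)
  have h2 : Ex p (fun ω => X ω ^ 2) ≤ μ + nV V ^ 2 * (1 - q) ^ (2 * k + 1) := by
    have e : ∀ ω, X ω ^ 2 = ∑ v, ∑ u, ind (isoEv L v ω ∧ isoEv L u ω) := fun ω => by
      rw [hX, sq, sum_mul_sum]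
      simp only [ind_and]
    rw [Ex_congr e, Ex_sum]
    simp only [Ex_sum]
    refine (sum_le_sum fun v _ => sum_le_sum fun u _ => hP2 v u).trans_eq ?_
    simp only [sum_add_distrib, sum_ite_eq, mem_univ, if_true, sum_const, nsmul_eq_mul, card_univ]
    rw [hμ]; unfold nV; ring
  have h3 : nV V ^ 2 * (1 - q) ^ (2 * k + 1) ≤ μ ^ 2 * (1 + 2 * q) := by
    rw [hμ, hk, show k + 2 - 1 = k + 1 from rfl]
    have e : (nV V * (1 - q) ^ (k + 1)) ^ 2 * (1 + 2 * q) =
        nV V ^ 2 * (1 - q) ^ (2 * k + 1) * ((1 - q) * (1 + 2 * q)) := by ring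
    rw [e]
    exact le_mul_of_one_le_right (by positivity) (by nlinarith)
  have h4 : Ex p (fun ω => (X ω - μ) ^ 2) ≤ μ + 2 * q * μ ^ 2 := by
    have e : ∀ ω, (X ω - μ) ^ 2 = X ω ^ 2 - 2 * μ * X ω + μ ^ 2 := fun ω => by ring
    rw [Ex_congr e, Ex_add, Ex_sub, Ex_smul, Ex_const hp, h1]
    nlinarith
  have h5 := markov hp (f := fun ω => (X ω - μ) ^ 2) (fun ω => sq_nonneg _)
    (b := μ ^ 2 / 4) (by positivity)
  refine le_trans (Pr_mono hp fun ω h => ?_) (h5.trans ?_)
  · have e : (univ.filter fun v => dg (gr ω L) v = 0) = univ.filter fun v => isoEv L v ω :=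
      filter_congr fun v _ => iso_iff L v ω
    rw [e] at h
    change X ω ≤ μ / 2 at h
    nlinarith
  · rw [div_le_iff₀ (by positivity)]
    refine h4.trans_eq ?_
    field_simp
    ring

/-- few labelled pairs from `x` to `O` -/
def farLow (L0 : Finset Λ) (j : ℝ) (O : Finset V) (x : V) (ω : Sym2 V → Λ) : Prop :=
  ((O.filter fun u => ω s(x, u) ∈ L0).card : ℝ) ≤ j

/-- the edges of a sequence of vertices -/
def farE {k : ℕ} (f : Fin (k + 2) → V) : Finset (Sym2 V) :=
  univ.image fun i : Fin (k + 1) => s(f i.castSucc, f i.succ)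

/-- a short path between two vertices of small degree -/
def farEv (L0 L1 : Finset Λ) (j : ℝ) {k : ℕ} (f : Fin (k + 2) → V) (ω : Sym2 V → Λ) : Prop :=
  (∀ e ∈ farE f, ω e ∈ L1) ∧ farLow L0 j (univ.image f)ᶜ (f 0) ω ∧
    farLow L0 j (univ.image f)ᶜ (f (Fin.last _)) ω

theorem far_dep (L0 : Finset Λ) (j : ℝ) (O : Finset V) (x : V) :
    Dep {e | ∃ u ∈ O, e = s(x, u)} (farLow L0 j O x) := by
  intro ω ω' h
  unfold farLow
  rw [filter_congr fun u hu => by rw [h s(x, u) ⟨u, hu, rfl⟩]]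

theorem far_one (hp : IsP p) (L0 L1 : Finset Λ) {j π : ℝ}
    (hπ : Real.exp (5 * j - (1 - Real.exp (-5)) * ((nV V - 5) * mass p L0)) ≤ π)
    {k : ℕ} (hk : k < 4) (f : Fin (k + 2) → V) (hf : Function.Injective f) :
    Pr p (farEv L0 L1 j f) ≤ mass p L1 ^ (k + 1) * π ^ 2 := by
  set O : Finset V := (univ.image f)ᶜ with hO
  have hfO : ∀ i, f i ∉ O := fun i h => mem_compl.1 h (mem_image_of_mem f (mem_univ i))
  have hcard : nV V - 5 ≤ O.card := by
    have h1 := card_compl_add_card (univ.image f)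
    have h2 : (univ.image f).card ≤ k + 2 := card_image_le.trans (by simp)
    have h3 : Fintype.card V ≤ O.card + 5 := by rw [hO]; omega
    unfold nV
    have h4 : (Fintype.card V : ℝ) ≤ O.card + 5 := by exact_mod_cast h3
    linarith
  have hlow : ∀ x, Pr p (farLow L0 j O x) ≤ π := fun x =>
    le_trans (cnt_low hp O (fun u => s(x, u)) (fun u _ u' _ h => Sym2.congr_right.1 h)
      (fun _ => L0) (μ := (nV V - 5) * mass p L0) (by
        rw [sum_const, nsmul_eq_mul]
        exact mul_le_mul_of_nonneg_right hcard (mass_nonneg hp L0)) (by norm_num)) hπ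
  have hE : (farE f).card = k + 1 := by
    rw [farE, card_image_of_injective, card_univ, Fintype.card_fin]
    intro a b h
    rcases Sym2.eq_iff.1 h with ⟨h, -⟩ | ⟨h1, h2⟩
    · exact Fin.castSucc_injective _ (hf h)
    · have e1 := congrArg Fin.val (hf h1)
      have e2 := congrArg Fin.val (hf h2)
      simp only [Fin.val_castSucc, Fin.val_succ] at e1 e2
      omega
  have hne : f 0 ≠ f (Fin.last _) := fun h => by
    have := congrArg Fin.val (hf h)
    simp at this
  have d1 : Dep (farE f : Set (Sym2 V)) (fun ω : Sym2 V → Λ => ∀ e ∈ farE f, ω e ∈ L1) := by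
    intro ω ω' h
    exact propext (forall₂_congr fun e he => by rw [h e he])
  have d2 : Dep ({e | ∃ u ∈ O, e = s(f 0, u)} ∪ {e | ∃ u ∈ O, e = s(f (Fin.last _), u)})
      (fun ω : Sym2 V → Λ => farLow L0 j O (f 0) ω ∧ farLow L0 j O (f (Fin.last _)) ω) := by
    intro ω ω' h
    simp only [far_dep L0 j O _ ω ω' fun e he => h e (Or.inl he),
      far_dep L0 j O _ ω ω' fun e he => h e (Or.inr he)]
  have n1 : ∀ x u, u ∈ O → s(x, u) ∉ farE f := by
    intro x u hu h
    obtain ⟨i, -, e⟩ := mem_image.1 h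
    rcases Sym2.eq_iff.1 e with ⟨-, h⟩ | ⟨h, -⟩
    · exact hfO _ (h ▸ hu)
    · exact hfO _ (h ▸ hu)
  change Pr p (fun ω => (∀ e ∈ farE f, ω e ∈ L1) ∧ farLow L0 j O (f 0) ω ∧
    farLow L0 j O (f (Fin.last _)) ω) ≤ _
  rw [Pr_and hp d1 d2, Pr_and hp (far_dep L0 j O _) (far_dep L0 j O _), Pr_all_mem hp, hE, sq]
  · refine mul_le_mul_of_nonneg_left ?_ (pow_nonneg (mass_nonneg hp L1) _)
    exact mul_le_mul (hlow _) (hlow _) (Pr_nonneg hp _) ((Pr_nonneg hp _).trans (hlow (f 0)))
  · rw [Set.disjoint_left]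
    rintro _ ⟨u, hu, rfl⟩ ⟨u', hu', e⟩
    rcases Sym2.eq_iff.1 e with ⟨h, -⟩ | ⟨h, -⟩
    · exact hne h
    · exact hfO _ (h ▸ hu')
  · rw [Set.disjoint_right]
    rintro _ (⟨u, hu, rfl⟩ | ⟨u, hu, rfl⟩) <;> exact n1 _ u hu

theorem far_low {L0 : Finset Λ} {j : ℝ} {O : Finset V} {x : V} {ω : Sym2 V → Λ} (hx : x ∉ O)
    (h : x ∈ low (gr ω L0) j) : farLow L0 j O x ω := by
  refine le_trans ?_ (mem_low.1 h)
  refine Nat.cast_le.2 (card_le_card fun u hu => ?_)
  obtain ⟨h1, h2⟩ := mem_filter.1 hu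
  exact mem_nb.2 (mem_gr.2 ⟨fun e => hx (Sym2.mk_isDiag_iff.1 e ▸ h1), h2⟩)

theorem far_path {L0 L1 : Finset Λ} {j : ℝ} {ω : Sym2 V → Λ}
    (h : ¬ Far (gr ω L1) (low (gr ω L0) j)) : ∃ k ∈ range 4,
    ∃ f ∈ univ.filter fun f : Fin (k + 2) → V => Function.Injective f, farEv L0 L1 j f ω := by
  unfold Far at h
  push Not at h
  obtain ⟨x, hx, y, hy, hxy, w, hw⟩ := h
  have hP := w.bypass_isPath
  have hl := w.length_bypass_le_length.trans hw
  set q := w.bypass
  have h0 : q.length ≠ 0 := fun h => hxy (q.eq_of_length_eq_zero h)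
  obtain ⟨k, hk⟩ := Nat.exists_eq_succ_of_ne_zero h0
  let f : Fin (k + 2) → V := fun i => q.getVert i
  have f0 : f 0 = x := q.getVert_zero
  have f1 : f (Fin.last _) = y := by
    simp only [f, Fin.val_last]
    exact q.getVert_of_length_le hk.le
  have hfO : ∀ i, f i ∉ (univ.image f)ᶜ := fun i h =>
    mem_compl.1 h (mem_image_of_mem f (mem_univ i))
  refine ⟨k, mem_range.2 (by omega), f, mem_filter.2 ⟨mem_univ _, fun a b hab => ?_⟩, ?_,
    far_low (hfO _) (f0 ▸ hx), far_low (hfO _) (f1 ▸ hy)⟩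
  · exact Fin.ext (hP.getVert_injOn (by simp only [Set.mem_ofPred_eq]; omega)
      (by simp only [Set.mem_ofPred_eq]; omega) hab)
  · intro e he
    obtain ⟨i, -, rfl⟩ := mem_image.1 he
    have := q.adj_getVert_succ (i := i) (by omega)
    exact (mem_gr.1 (mem_coe.1 ((SimpleGraph.fromEdgeSet_adj _).1 this).1)).2

/-- Hint: a short walk contains a path (`bypass`) with `len ∈ {1,2,3,4}` edges; union bound over the
injective sequences `f : Fin (len + 1) → V`. The events (all `len` edges have labels in `L1`),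
(the first vertex has at most `j` edges with label in `L0` to vertices outside the path) and (the
same for the last vertex) depend on disjoint sets of coordinates; `cnt_low` with `t = 5`. -/
theorem far_prob (hp : IsP p) (L0 L1 : Finset Λ) {j π : ℝ} (hn : 5 ≤ Fintype.card V)
    (hπ : Real.exp (5 * j - (1 - Real.exp (-5)) * ((nV V - 5) * mass p L0)) ≤ π) :
    Pr p (fun ω : Sym2 V → Λ => ¬ Far (gr ω L1) (low (gr ω L0) j)) ≤
      4 * nV V * (nV V * mass p L1 + 1) ^ 4 * π ^ 2 := by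
  have hm := mass_nonneg hp L1
  have hn0 : 0 ≤ nV V := nV_nonneg V
  refine le_trans (Pr_mono hp fun ω h => far_path h) ((Pr_exists hp _ _).trans ?_)
  have h1 : ∀ k ∈ range 4, Pr p (fun ω => ∃ f ∈ univ.filter
      fun f : Fin (k + 2) → V => Function.Injective f, farEv L0 L1 j f ω) ≤
      nV V * (nV V * mass p L1 + 1) ^ 4 * π ^ 2 := by
    intro k hk
    have hk' := mem_range.1 hk
    refine (Pr_exists hp _ _).trans ((sum_le_card_nsmul _ _ _ fun f hf =>
      far_one hp L0 L1 hπ hk' f (mem_filter.1 hf).2).trans ?_)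
    have h2 : ((univ.filter fun f : Fin (k + 2) → V => Function.Injective f).card : ℝ) ≤
        nV V ^ (k + 2) := by
      unfold nV
      exact_mod_cast (card_le_univ _).trans_eq (by simp)
    have h3 : (nV V * mass p L1) ^ (k + 1) ≤ (nV V * mass p L1 + 1) ^ 4 :=
      (pow_le_pow_left₀ (by positivity) (by linarith) _).trans
        (pow_le_pow_right₀ (by nlinarith) (by omega))
    rw [nsmul_eq_mul]
    calc _ ≤ nV V ^ (k + 2) * (mass p L1 ^ (k + 1) * π ^ 2) :=
          mul_le_mul_of_nonneg_right h2 (by positivity)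
      _ = nV V * (nV V * mass p L1) ^ (k + 1) * π ^ 2 := by ring
      _ ≤ _ := by gcongr
  refine (sum_le_card_nsmul _ _ _ h1).trans_eq ?_
  rw [card_range, nsmul_eq_mul]; push_cast; ring

end

end Pool.Agent.MP_1376f1_pr
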