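import Pool.Agent.MP_1376f1_pr.Mg.Stage

/-!
The iterative construction.
-/

set_option autoImplicit false
set_option linter.unusedSectionVars false

namespace Pool.Agent.MP_1376f1_pr

open Finset MP_d802e4_co
open scoped Classical

noncomputable section



section Aux

variable {V : Type} [Fintype V] [DecidableEq V]

theorem machine_glue {W : Finset V} {R1 R2 R : Finset (Sym2 V)} {a b c : ℕ} {X : ℕ → Finset V}
    {M F F' : ℕ → Finset (Sym2 V)} (h1 : HamFam W R1 (Ico b c) X M F)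
    (h2 : HamFam W R2 (Ico a b) X M F') (hd : ∀ i ∈ Ico b c, Disjoint R2 (F i))
    (hR1 : R1 ⊆ R) (hR2 : R2 ⊆ R) : ∃ F'', HamFam W R (Ico a c) X M F'' := by
  refine ⟨fun i => if i < b then F' i else F i, fun i hi => ?_, fun i hi j hj hij => ?_⟩
  · rw [mem_Ico] at hi
    by_cases h : i < b
    · simp only [h, if_true]
      obtain ⟨e1, e2, e3⟩ := h2.1 i (mem_Ico.2 ⟨hi.1, h⟩)
      exact ⟨e1.trans hR2, e2, e3⟩
    · simp only [h, if_false]
      obtain ⟨e1, e2, e3⟩ := h1.1 i (mem_Ico.2 ⟨not_lt.1 h, hi.2⟩)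
      exact ⟨e1.trans hR1, e2, e3⟩
  · rw [mem_Ico] at hi hj
    by_cases h : i < b <;> by_cases h' : j < b
    · simp only [h, h', if_true]
      exact h2.2 i (mem_Ico.2 ⟨hi.1, h⟩) j (mem_Ico.2 ⟨hj.1, h'⟩) hij
    · simp only [h, h', if_true, if_false]
      exact (hd j (mem_Ico.2 ⟨not_lt.1 h', hj.2⟩)).mono_left (h2.1 i (mem_Ico.2 ⟨hi.1, h⟩)).1
    · simp only [h, h', if_true, if_false]
      exact ((hd i (mem_Ico.2 ⟨not_lt.1 h, hi.2⟩)).mono_left
        (h2.1 j (mem_Ico.2 ⟨hj.1, h'⟩)).1).symm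
    · simp only [h, h', if_false]
      exact h1.2 i (mem_Ico.2 ⟨not_lt.1 h, hi.2⟩) j (mem_Ico.2 ⟨not_lt.1 h', hj.2⟩) hij

theorem machine_dg_eq {W X : Finset V} {F M : Finset (Sym2 V)} (hd : Disjoint F M)
    (h : IsHam (W \ X) (F ∪ M)) {w : V} (hw : w ∈ W) : dg F w = dem X M w := by
  unfold dem
  by_cases hx : w ∈ X
  · rw [if_pos hx]
    have h0 : dg (F ∪ M) w = 0 := h.1.dg_eq_zero (fun hh => (mem_sdiff.1 hh).2 hx)
    have := dg_mono (subset_union_left : F ⊆ F ∪ M) w
    omega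
  · rw [if_neg hx]
    have h2 := h.2.1 w (mem_sdiff.2 ⟨hw, hx⟩)
    rw [dg_union hd] at h2
    omega

theorem machine_dem_bounds (X : ℕ → Finset V) (M : ℕ → Finset (Sym2 V)) (w : V) (τ : ℕ) :
    ((∑ i ∈ range τ, dem (X i) (M i) w : ℕ) : ℝ) ≤ 2 * τ ∧
    2 * (τ : ℝ) - 2 * (((range τ).filter fun i => w ∈ Aset (X i) (M i)).card : ℝ)
      ≤ ((∑ i ∈ range τ, dem (X i) (M i) w : ℕ) : ℝ) := by
  have h1 : ∑ i ∈ range τ, dem (X i) (M i) w ≤ 2 * τ := by
    have : ∑ i ∈ range τ, dem (X i) (M i) w ≤ ∑ _i ∈ range τ, 2 :=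
      sum_le_sum fun i _ => by
        unfold dem
        split_ifs <;> omega
    simpa [mul_comm] using this
  have h2 : 2 * τ ≤ ∑ i ∈ range τ, dem (X i) (M i) w
      + 2 * ((range τ).filter fun i => w ∈ Aset (X i) (M i)).card := by
    rw [card_filter, mul_sum, ← sum_add_distrib]
    have : ∑ _i ∈ range τ, 2 ≤ ∑ i ∈ range τ,
        (dem (X i) (M i) w + 2 * if w ∈ Aset (X i) (M i) then 1 else 0) :=
      sum_le_sum fun i _ => by
        by_cases h : w ∈ Aset (X i) (M i)
        · rw [if_pos h]; omega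
        · rw [if_neg h]
          unfold Aset at h
          rw [mem_union, not_or, mem_tch] at h
          unfold dem
          rw [if_neg h.1]
          omega
    simpa [mul_comm] using this
  constructor
  · exact_mod_cast h1
  · have : ((2 * τ : ℕ) : ℝ) ≤ ((∑ i ∈ range τ, dem (X i) (M i) w
      + 2 * ((range τ).filter fun i => w ∈ Aset (X i) (M i)).card : ℕ) : ℝ) := by exact_mod_cast h2
    rw [Nat.cast_add, Nat.cast_mul, Nat.cast_mul] at this
    simp only [Nat.cast_ofNat] at this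
    linarith

theorem machine_sum_sig (k : ℕ) (s : ℝ) (m j : ℕ) (hj : j ≤ m) :
    ∑ j' ∈ Icc j m, sig k s m j' = ((k : ℝ) / 2 ^ (j + 1) - k / 2 ^ (m + 1)) + s := by
  have h : ∀ d j, j + d = m →
      ∑ j' ∈ Icc j m, sig k s m j' = ((k : ℝ) / 2 ^ (j + 1) - k / 2 ^ (m + 1)) + s := by
    intro d
    induction d with
    | zero =>
      intro j hj
      obtain rfl : j = m := by omega
      simp [sig]
    | succ d ih =>
      intro j hj
      have e : Icc j m = insert j (Icc (j + 1) m) := by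
        ext x
        simp only [mem_Icc, mem_insert]
        omega
      rw [e, sum_insert (by simp), ih (j + 1) (by omega)]
      have hlt : j < m := by omega
      simp only [sig, hlt, if_true]
      have : (k : ℝ) / 2 ^ (j + 1) = 2 * (k / 2 ^ (j + 1 + 1)) := by
        rw [pow_succ (2 : ℝ) (j + 1)]
        field_simp
      rw [this]
      ring
  exact h (m - j) j (by omega)

/-- the degree of the leftover graph -/
theorem machine_dg_left {W : Finset V} {R : Finset (Sym2 V)} {J : Finset ℕ}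
    {P : ℕ → Finset (Sym2 V)} {τ K : ℕ} {X : ℕ → Finset V} {M F : ℕ → Finset (Sym2 V)}
    (hτ : τ ≤ K) (hP : ∀ j ∈ J, P j ⊆ R)
    (hPd : ∀ j ∈ J, ∀ j' ∈ J, j ≠ j' → Disjoint (P j) (P j'))
    (hF : HamFam W (R \ J.biUnion P) (Ico τ K) X M F) {w : V} (hw : w ∈ W) :
    (dg ((R \ J.biUnion P) \ (Ico τ K).biUnion F) w : ℝ)
      = ((dg R w : ℝ) - (∑ i ∈ range K, dem (X i) (M i) w : ℕ))
        + (∑ i ∈ range τ, dem (X i) (M i) w : ℕ) - ∑ j ∈ J, (dg (P j) w : ℝ) := by
  have h1 := dg_sdiff (E := R \ J.biUnion P) (F := (Ico τ K).biUnion F)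
    (biUnion_subset.2 fun i hi => (hF.1 i hi).1) w
  have h2 := dg_sdiff (E := R) (F := J.biUnion P) (biUnion_subset.2 hP) w
  rw [dg_biUnion _ _ hF.2] at h1
  rw [dg_biUnion _ _ hPd] at h2
  have h3 : ∑ i ∈ Ico τ K, dg (F i) w = ∑ i ∈ Ico τ K, dem (X i) (M i) w :=
    sum_congr rfl fun i hi => machine_dg_eq (hF.1 i hi).2.1 (hF.1 i hi).2.2 hw
  have h4 := sum_range_add_sum_Ico (fun i => dem (X i) (M i) w) hτ
  rw [h3] at h1
  have h5 : dg ((R \ J.biUnion P) \ (Ico τ K).biUnion F) w + ∑ j ∈ J, dg (P j) w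
      + ∑ i ∈ range K, dem (X i) (M i) w = dg R w + ∑ i ∈ range τ, dem (X i) (M i) w := by
    omega
  have h6 : ((dg ((R \ J.biUnion P) \ (Ico τ K).biUnion F) w + ∑ j ∈ J, dg (P j) w
      + ∑ i ∈ range K, dem (X i) (M i) w : ℕ) : ℝ)
      = ((dg R w + ∑ i ∈ range τ, dem (X i) (M i) w : ℕ) : ℝ) := by rw [h5]
  rw [Nat.cast_add, Nat.cast_add, Nat.cast_add, Nat.cast_sum J] at h6
  linarith

theorem machine_abs_sum {J : Finset ℕ} {f σ : ℕ → ℝ} {η : ℝ}
    (h : ∀ j ∈ J, |f j - σ j| ≤ η * σ j) :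
    |∑ j ∈ J, f j - ∑ j ∈ J, σ j| ≤ η * ∑ j ∈ J, σ j := by
  rw [← sum_sub_distrib, mul_sum]
  exact (abs_sum_le_sum_abs _ _).trans (sum_le_sum h)

end Aux

/-- Hint: let `η1, ρ0` come from `stage` and `η = min (η1 * th / 100) (1 / 10 ^ 30)`. Restrict all
pools to `R` (`Tri.res`, `PP_inter`). Prove by induction on `j ≤ m`: there are `τ ≤ KK k` and `F` with
`HamFam W (R \ ⋃ (j ≤ j' ≤ m) PP j') (Ico τ (KK k)) X M F` and
`r := 2 τ - (k / 2 ^ (j + 1) - k / 2 ^ (m + 1))` between `k / 2 ^ (j + 2)` and `4 k / 2 ^ (j + 2)`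
(for `m = 0` go directly to the final stage with all colours; `KK k ≤ k`). In the step, `H` is the set
of edges of `R` outside the pools `j' ≥ j` that are not yet used; its degree at `w` is
`dg R w - ∑ (j' ≥ j) dg (PP j' ∩ R) w - ∑ (τ ≤ i) dem i w = r ± (2 η s + 10 η sig j)` with
`s ≤ 32 sig j / th`; the colours are `Ico (τ - t) τ`, all below `k / 2 ^ j`. At the end
`τ ≤ th s / 8`; apply `final` with `T1 = ∅`. -/
theorem machine (g : ℕ) (hg : g.Prime) (hg' : 10 ^ 15 ≤ g) :
    ∃ η : ℝ, 0 < η ∧ ∃ n0 : ℝ, ∀ (V : Type) [Fintype V] [DecidableEq V], n0 ≤ nV V →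
    ∀ (W : Finset V) (R : Finset (Sym2 V)) (k m : ℕ) (s : ℝ) (A C : ℕ → Finset (Sym2 V))
      (D : ℕ → V → Finset V) (X : ℕ → Finset V) (M : ℕ → Finset (Sym2 V)),
      Sched (nV V) k s m → On W R → (∀ j ≤ m, Tri univ (A j) (C j) (D j)) →
      (∀ j ≤ m, ∀ j' ≤ m, j ≠ j' → Disjoint (PP (A j) (C j) (D j)) (PP (A j') (C j') (D j'))) →
      (∀ j ≤ m, ∀ w ∈ W,
        |(dg (PP (A j) (C j) (D j) ∩ R) w : ℝ) - sig k s m j| ≤ η * sig k s m j) →
      (∀ w ∈ W, |(dg R w : ℝ) - (∑ i ∈ range (KK k), dem (X i) (M i) w : ℕ) - s| ≤ η * s) →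
      (∀ i < KK k, X i ⊆ W ∧ IsMat (W \ X i) (M i) ∧
        ((Aset (X i) (M i)).card : ℝ) ≤ η * nV V) →
      (∀ j < m, ∀ w ∈ W, (((range (KK k)).filter fun i : ℕ =>
        (i : ℝ) < k / 2 ^ j ∧ w ∈ Aset (X i) (M i)).card : ℝ) ≤ η * (k / 2 ^ j)) →
      (∀ j ≤ m, ∀ i < KK k, ∀ w ∈ W,
        th * sig k s m j / 2 ≤ ((nb (A j ∩ R) w \ Aset (X i) (M i)).card : ℝ) ∧
        th * sig k s m j / 2 ≤ ((resD (D j) R w \ Aset (X i) (M i)).card : ℝ)) →
      (∀ j < m, PoolOK W (sig k s m j) g 1 (A j ∪ arcE (D j)) (PP (A j) (C j) (D j) ∩ R)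
        (C j ∩ R)) →
      PoolOK W s 1 1 (A m ∪ arcE (D m)) (PP (A m) (C m) (D m) ∩ R) (C m ∩ R) →
      ∃ F, HamFam W R (range (KK k)) X M F := by
  obtain ⟨η1, hη1, ρ0, hst⟩ := stage g hg hg'
  obtain ⟨ρ1, hfin⟩ := final
  have hth := th_pos
  have hth1 : th ≤ 1 := th_le.trans (by norm_num)
  set η : ℝ := min (η1 * th / 100) (1 / 10 ^ 30) with hηdef
  have hη : 0 < η := lt_min (by positivity) (by positivity)
  have hηa : η ≤ η1 * th / 100 := min_le_left _ _
  have hηb : η ≤ 1 / 10 ^ 30 := min_le_right _ _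
  have hη100 : 100 * η ≤ η1 := by nlinarith
  have hηone : η ≤ 1 := hηb.trans (by norm_num)
  set B : ℝ := |ρ0| * 32 / th + |ρ1| + 32 / th with hB
  refine ⟨η, hη, Real.exp (200 * B), ?_⟩
  intro V _ _ hn W R k m s A C D X M hS hR hT hdisj hdeg hRdeg hXM hAs hnb hpool hpoolm
  have hsB : B ≤ s := by
    have h1 : 200 * B ≤ Real.log (nV V) := by
      rw [← Real.log_exp (200 * B)]
      exact Real.log_le_log (Real.exp_pos _) hn
    have := hS.hs
    linarith
  have hb1 : 0 ≤ |ρ0| * 32 / th := by positivity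
  have hb2 : 0 ≤ |ρ1| := abs_nonneg _
  have hb3 : 0 ≤ 32 / th := by positivity
  have hs0 : 0 < s := hS.s_pos
  have hρ1 : ρ1 ≤ s := by linarith [le_abs_self ρ1]
  have hρ0 : ρ0 ≤ th / 32 * s := by
    have h1 : |ρ0| * 32 / th ≤ s := by linarith
    rw [div_le_iff₀ hth] at h1
    linarith [le_abs_self ρ0]
  have hs32 : 32 ≤ th * s := by
    have h1 : 32 / th ≤ s := by linarith
    rw [div_le_iff₀ hth] at h1
    linarith
  have hn0 := nV_nonneg V
  set P : ℕ → Finset (Sym2 V) := fun j => PP (A j) (C j) (D j) ∩ R with hPdef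
  have hPR : ∀ j, P j ⊆ R := fun j => inter_subset_right
  have hPd : ∀ j ≤ m, ∀ j' ≤ m, j ≠ j' → Disjoint (P j) (P j') := fun j hj j' hj' hne =>
    (hdisj j hj j' hj' hne).mono inter_subset_left inter_subset_left
  have hk0 : (0 : ℝ) ≤ k := Nat.cast_nonneg k
  have hK1 : (k : ℝ) ≤ 2 * (KK k : ℝ) := by
    have : k ≤ 2 * KK k := by unfold KK; omega
    exact_mod_cast this
  have hK2 : 2 * (KK k : ℝ) ≤ k + 1 := by
    have : 2 * KK k ≤ k + 1 := by unfold KK; omega
    exact_mod_cast this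
  have hK3 : (KK k : ℝ) ≤ k := by
    have h1 := hS.hk
    have : KK k ≤ k := by unfold KK; omega
    exact_mod_cast this
  have inv : ∀ j ≤ m, ∃ τ ≤ KK k, ∃ F,
      HamFam W (R \ (Icc j m).biUnion P) (Ico τ (KK k)) X M F ∧
      (m = 0 ∨ ((k : ℝ) / 2 ^ (j + 2) ≤ 2 * (τ : ℝ) - (k / 2 ^ (j + 1) - k / 2 ^ (m + 1)) ∧
        2 * (τ : ℝ) - (k / 2 ^ (j + 1) - k / 2 ^ (m + 1)) ≤ 4 * (k / 2 ^ (j + 2)))) := by
    intro j
    induction j with
    | zero =>
      intro _
      refine ⟨KK k, le_rfl, fun _ => ∅, ⟨fun i hi => by simp at hi, fun i hi => by simp at hi⟩, ?_⟩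
      rcases Nat.eq_zero_or_pos m with hm | hm
      · exact Or.inl hm
      · right
        have h2 : th / 8 * s * 2 ^ m ≤ 2 * k := hS.hm2.resolve_left (by omega)
        have h3 : (2 : ℝ) ≤ 2 ^ m := by
          calc (2 : ℝ) = 2 ^ 1 := by norm_num
            _ ≤ 2 ^ m := pow_le_pow_right₀ (by norm_num) hm
        have h4 : (4 : ℝ) ≤ k := by nlinarith
        have h5 : (k : ℝ) / 2 ^ (m + 1) ≤ k / 4 := by
          apply div_le_div_of_nonneg_left hk0 (by norm_num)
          rw [pow_succ]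
          linarith
        have h6 : (0 : ℝ) ≤ k / 2 ^ (m + 1) := by positivity
        norm_num
        constructor <;> linarith
    | succ j ih =>
      intro hj
      have hjm : j < m := hj
      obtain ⟨τ, hτ, F, hF, hr⟩ := ih hjm.le
      obtain ⟨hr1, hr2⟩ := hr.resolve_left (by omega)
      have hsig : sig k s m j = (k : ℝ) / 2 ^ (j + 2) := by simp [sig, hjm]
      have hsum := machine_sum_sig k s m j hjm.le
      have e1 : (k : ℝ) / 2 ^ (j + 1) = 2 * (k / 2 ^ (j + 2)) := by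
        rw [pow_succ (2 : ℝ) (j + 1)]
        field_simp
      have e0 : (k : ℝ) / 2 ^ j = 4 * (k / 2 ^ (j + 2)) := by
        rw [pow_add]
        field_simp
        norm_num
      have e3 : (k : ℝ) / 2 ^ (j + 1 + 2) = (k / 2 ^ (j + 2)) / 2 := by
        rw [show j + 1 + 2 = (j + 2) + 1 by ring, pow_succ (2 : ℝ) (j + 2)]
        field_simp
      have e2 : (k : ℝ) / 2 ^ (j + 1 + 1) = k / 2 ^ (j + 2) := rfl
      have hm1 : (k : ℝ) / 2 ^ (m + 1) ≤ k / 2 ^ (j + 2) :=
        div_le_div_of_nonneg_left hk0 (by positivity)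
          (pow_le_pow_right₀ (by norm_num) (by omega))
      have hm0 : (0 : ℝ) ≤ k / 2 ^ (m + 1) := by positivity
      have hge := hS.sig_ge hjm.le
      have hpos := hS.sig_pos j
      have hlog := hS.log_le hjm.le
      have hle := hS.sig_le j
      have hAj := hAs j hjm
      have hnbj := hnb j hjm.le
      have hpj := hpool j hjm
      have hdj := hdeg j hjm.le
      rw [hsig] at hge hpos hlog hle hnbj hpj hdj
      rw [e0] at hAj
      rw [e2, e3]
      rw [e1] at hr1 hr2 hsum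
      generalize (k : ℝ) / 2 ^ (j + 2) = ρ at *
      generalize (k : ℝ) / 2 ^ (m + 1) = μ at *
      set r : ℝ := 2 * (τ : ℝ) - (2 * ρ - μ) with hrdef
      obtain ⟨t, ht, hst'⟩ := hst r ρ (by linarith) hr1 hr2
      rw [abs_le] at ht
      have htτ : t ≤ τ := by
        have : (t : ℝ) ≤ τ := by linarith [ht.2]
        exact_mod_cast this
      have hτρ : (τ : ℝ) ≤ 3 * ρ := by linarith
      have hcount : ∀ w ∈ W,
          (((range τ).filter fun i => w ∈ Aset (X i) (M i)).card : ℝ) ≤ η * (4 * ρ) := by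
        intro w hw
        refine le_trans ?_ (hAj w hw)
        refine Nat.cast_le.2 (card_le_card fun i hi => ?_)
        rw [mem_filter, mem_range] at hi ⊢
        have : (i : ℝ) < τ := by exact_mod_cast hi.1
        exact ⟨by omega, by linarith, hi.2⟩
      have hsub : P j ⊆ (Icc j m).biUnion P :=
        subset_biUnion_of_mem P (mem_Icc.2 ⟨le_rfl, hjm.le⟩)
      have hPP : PP (A j ∩ R) (C j ∩ R) (resD (D j) R) = P j := PP_inter _ _ _ _
      obtain ⟨F', hF'⟩ := hst' V W ((R \ (Icc j m).biUnion P) \ (Ico τ (KK k)).biUnion F)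
        (A j ∩ R) (C j ∩ R) (resD (D j) R) (Ico (τ - t) τ) X M (by rw [Nat.card_Ico]; omega)
        hle hlog (hR.mono subset_rfl (sdiff_subset.trans sdiff_subset)) ((hT j hjm.le).res hR)
        (by
          rw [hPP]
          exact (sdiff_disjoint.mono_left sdiff_subset).mono_right hsub)
        (by
          intro w hw
          rw [machine_dg_left hτ (fun j' _ => hPR j')
            (fun a ha b hb hab => hPd a (mem_Icc.1 ha).2 b (mem_Icc.1 hb).2 hab) hF hw]
          have g1 := abs_le.1 (hRdeg w hw)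
          have g2 := abs_le.1 (machine_abs_sum (J := Icc j m) (f := fun j' => (dg (P j') w : ℝ))
            (σ := sig k s m) (η := η) fun j' hj' => hdeg j' (mem_Icc.1 hj').2 w hw)
          rw [hsum] at g2
          obtain ⟨g3, g4⟩ := machine_dem_bounds X M w τ
          have g5 := hcount w hw
          have g6 : η * s ≤ η1 * (32 / 100 * ρ) := by
            calc η * s ≤ η1 * th / 100 * s := mul_le_mul_of_nonneg_right hηa hs0.le
              _ = η1 * (32 / 100 * (th / 32 * s)) := by ring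
              _ ≤ η1 * (32 / 100 * ρ) := by gcongr
          have g7 : 100 * (η * ρ) ≤ η1 * ρ := by nlinarith
          have g8 : η1 * ρ ≤ η1 * r := mul_le_mul_of_nonneg_left hr1 hη1.le
          have g9 : 0 ≤ η * μ := mul_nonneg hη.le hm0
          have g10 : 0 ≤ η * ρ := mul_nonneg hη.le hpos.le
          rw [abs_le]
          constructor <;> nlinarith [g1.1, g1.2, g2.1, g2.2])
        (by
          intro w hw
          rw [hPP]
          have := (abs_le.1 (hdj w hw)).2
          have h2 : η * ρ ≤ 1 * ρ := mul_le_mul_of_nonneg_right hηone hpos.le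
          change (dg (PP (A j) (C j) (D j) ∩ R) w : ℝ) ≤ 2 * ρ
          linarith)
        (by
          intro i hi
          obtain ⟨g1, g2, g3⟩ := hXM i (by have := (mem_Ico.1 hi).2; omega)
          exact ⟨g1, g2, g3.trans (mul_le_mul_of_nonneg_right (by linarith) hn0)⟩)
        (by
          intro w hw
          have g1 : (((Ico (τ - t) τ).filter fun i => w ∈ Aset (X i) (M i)).card : ℝ)
              ≤ (((range τ).filter fun i => w ∈ Aset (X i) (M i)).card : ℝ) :=
            Nat.cast_le.2 (card_le_card (filter_subset_filter _ fun i hi =>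
              mem_range.2 (mem_Ico.1 hi).2))
          have g2 := hcount w hw
          nlinarith)
        (fun i hi w hw => hnbj i (by have := (mem_Ico.1 hi).2; omega) w hw)
        (by
          rw [hPP]
          refine ⟨hpj.sparse.mono ?_, hpj.boost⟩
          rw [arcE_resD]
          exact union_subset_union inter_subset_left inter_subset_left)
      rw [hPP] at hF'
      have hmono : (Icc (j + 1) m).biUnion P ⊆ (Icc j m).biUnion P :=
        biUnion_subset_biUnion_of_subset_left P (Icc_subset_Icc_left (Nat.le_succ j))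
      have hR1 : R \ (Icc j m).biUnion P ⊆ R \ (Icc (j + 1) m).biUnion P :=
        sdiff_subset_sdiff subset_rfl hmono
      obtain ⟨F'', hF''⟩ := machine_glue (R := R \ (Icc (j + 1) m).biUnion P) hF hF'
        (by
          intro i hi
          rw [disjoint_union_left]
          exact ⟨sdiff_disjoint.mono_right (subset_biUnion_of_mem F hi),
            (disjoint_sdiff.mono_left hsub).mono_right (hF.1 i hi).1⟩)
        hR1
        (by
          refine union_subset (sdiff_subset.trans hR1) (subset_sdiff.2 ⟨hPR j, ?_⟩)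
          rw [disjoint_biUnion_right]
          intro j' hj'
          rw [mem_Icc] at hj'
          exact hPd j hjm.le j' hj'.2 (by omega))
      refine ⟨τ - t, by omega, F'', hF'', Or.inr ?_⟩
      rw [Nat.cast_sub htτ]
      constructor <;> linarith [ht.1, ht.2]
  obtain ⟨τ, hτ, F, hF, hr⟩ := inv m le_rfl
  have hτs : (τ : ℝ) ≤ th * s / 8 := by
    have h1 := hS.hm1
    rcases hr with hm | ⟨_, hr⟩
    · rw [hm] at h1
      have : (τ : ℝ) ≤ KK k := by exact_mod_cast hτ
      norm_num at h1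
      linarith
    · have h2 : (k : ℝ) / 2 ^ (m + 2) ≤ th / 8 * s / 4 := by
        rw [div_le_iff₀ (by positivity), pow_add]
        linarith
      have h3 : 0 ≤ th * s := by positivity
      linarith
  have hsm : sig k s m m = s := by simp [sig]
  have hIcc : (Icc m m).biUnion P = P m := by simp
  rw [hIcc] at hF
  have hAP : A m ∩ R ⊆ P m :=
    inter_subset_inter (subset_union_left.trans subset_union_left) subset_rfl
  have hCP : C m ∩ R ⊆ P m := inter_subset_inter subset_union_right subset_rfl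
  obtain ⟨F', hF'⟩ := hfin V W ∅ (A m ∩ R) (P m) (C m ∩ R) s 0 (Ico 0 τ) X M hρ1 hS.hsn
    (by simpa using hτs) (hR.mono subset_rfl (hPR m)) hAP hCP
    ⟨hpoolm.sparse.mono (inter_subset_left.trans subset_union_left), hpoolm.boost⟩
    (by
      intro i hi
      obtain ⟨g1, g2, g3⟩ := hXM i (by have := (mem_Ico.1 hi).2; omega)
      refine ⟨g1, g2, ?_⟩
      have g4 : ((tch (M i)).card : ℝ) ≤ (Aset (X i) (M i)).card :=
        Nat.cast_le.2 (card_le_card subset_union_right)
      have g5 : η * nV V ≤ 1 / 10 ^ 30 * nV V := mul_le_mul_of_nonneg_right hηb hn0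
      linarith)
    (by
      intro i hi w hw _
      have := (hnb m le_rfl i (by have := (mem_Ico.1 hi).2; omega) w hw).1
      rwa [hsm] at this)
    (Or.inl rfl)
  obtain ⟨F'', hF''⟩ := machine_glue (R := R) hF hF'
    (fun i hi => disjoint_sdiff.mono_right (hF.1 i hi).1) sdiff_subset (hPR m)
  exact ⟨F'', by rwa [range_eq_Ico]⟩

end

end Pool.Agent.MP_1376f1_pr
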