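import Pool.Agent.MP_1376f1_pr.Mg.Expand
import Pool.Agent.MP_1376f1_pr.Mg.Conv

/-!
The sparse range, deterministic part.
-/

set_option autoImplicit false
set_option linter.unusedSectionVars false

namespace Pool.Agent.MP_1376f1_pr

open Finset MP_d802e4_co
open scoped Classical

noncomputable section



section Aux

variable {V : Type} [Fintype V] [DecidableEq V]

lemma rega_adj {G : Finset (Sym2 V)} (hG : On univ G) {u v : V} (h : s(u, v) ∈ G) :
    (SimpleGraph.fromEdgeSet (G : Set (Sym2 V))).Adj u v :=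
  (SimpleGraph.fromEdgeSet_adj _).2 ⟨h, (hG.mk_mem h).1⟩

lemma rega_far1 {G : Finset (Sym2 V)} {T : Finset V} (hG : On univ G) (hF : Far G T) {x y : V}
    (hx : x ∈ T) (hy : y ∈ T) (h : s(x, y) ∈ G) : False := by
  have := hF x hx y hy (hG.mk_mem h).1 (.cons (rega_adj hG h) .nil)
  simp at this

lemma rega_far2 {G : Finset (Sym2 V)} {T : Finset V} (hG : On univ G) (hF : Far G T) {x y u : V}
    (hx : x ∈ T) (hy : y ∈ T) (h1 : s(x, u) ∈ G) (h2 : s(u, y) ∈ G) : x = y := by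
  by_contra hne
  have := hF x hx y hy hne (.cons (rega_adj hG h1) (.cons (rega_adj hG h2) .nil))
  simp at this

lemma rega_far4 {G : Finset (Sym2 V)} {T : Finset V} (hG : On univ G) (hF : Far G T)
    {x y u w u' : V} (hx : x ∈ T) (hy : y ∈ T) (h1 : s(x, u) ∈ G) (h2 : s(u, w) ∈ G)
    (h3 : s(w, u') ∈ G) (h4 : s(u', y) ∈ G) : x = y := by
  by_contra hne
  have := hF x hx y hy hne (.cons (rega_adj hG h1) (.cons (rega_adj hG h2)
    (.cons (rega_adj hG h3) (.cons (rega_adj hG h4) .nil))))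
  simp at this

lemma rega_one {G : Finset (Sym2 V)} {T : Finset V} (hG : On univ G) (hF : Far G T) (w : V) :
    (nb G w ∩ T).card ≤ 1 := by
  refine card_le_one.2 fun x hx y hy => ?_
  rw [mem_inter] at hx hy
  exact rega_far2 hG hF hx.2 hy.2 (mem_nb.1 (mem_nb_comm.1 hx.1)) (mem_nb.1 hy.1)

/-- the positions used at `x` -/
def regaJ (G : Finset (Sym2 V)) (k : ℕ) (x : V) : Finset ℕ :=
  (range k).filter fun j => ¬ (j = 0 ∧ dg G x < k)

lemma rega_inj {G : Finset (Sym2 V)} {k : ℕ} (hk : ∀ v, k ≤ dg G v + 1) :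
    ∃ f : V → ℕ → V, ∀ x, Set.InjOn (f x) (regaJ G k x : Set ℕ) ∧
      ∀ j ∈ regaJ G k x, s(x, f x j) ∈ G := by
  have : ∀ x, ∃ g : ℕ → V, Set.InjOn g (regaJ G k x : Set ℕ) ∧
      ∀ j ∈ regaJ G k x, s(x, g j) ∈ G := by
    intro x
    have hc : (regaJ G k x).card ≤ (nb G x).card := by
      have h1 := hk x
      by_cases h : dg G x < k
      · have : regaJ G k x = (range k).erase 0 := by
          ext j; simp [regaJ, h, and_comm]
        rw [this, card_erase_of_mem (mem_range.2 (by omega)), card_range]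
        unfold dg at h1
        omega
      · exact ((card_filter_le _ _).trans (card_range k).le).trans (not_lt.1 h)
    obtain ⟨g, hg⟩ := Function.Embedding.exists_of_card_le_finset (α := regaJ G k x) (s := nb G x)
      (by simpa using hc)
    refine ⟨fun j => if h : j ∈ regaJ G k x then g ⟨j, h⟩ else x, fun a ha b hb hab => ?_,
      fun j hj => ?_⟩
    · have ha' : a ∈ regaJ G k x := ha
      have hb' : b ∈ regaJ G k x := hb
      simp only [dif_pos ha', dif_pos hb'] at hab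
      simpa using g.injective hab
    · simp only [dif_pos hj]
      exact mem_nb.1 (hg ⟨_, rfl⟩)
  choose f hf using this
  exact ⟨f, hf⟩

lemma rega_count {G : Finset (Sym2 V)} {k i : ℕ} (hN : Near G k) (hi : i < KK k) (x : V) :
    ((regaJ G k x).filter fun j => (j + k % 2) / 2 = i).card = dx G k i x := by
  unfold KK at hi
  have ho := hN.odd (v := x)
  unfold dx dm regaJ
  split_ifs with h' h
  · rw [card_eq_zero]
    refine eq_empty_of_forall_notMem fun j hj => ?_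
    simp only [mem_filter, mem_range] at hj
    omega
  · have : (((range k).filter fun j => ¬ (j = 0 ∧ dg G x < k)).filter
        fun j => (j + k % 2) / 2 = i) = {0} := by
      ext j
      simp only [mem_filter, mem_range, mem_singleton]
      omega
    rw [this, card_singleton]
  · have : (((range k).filter fun j => ¬ (j = 0 ∧ dg G x < k)).filter
        fun j => (j + k % 2) / 2 = i) = {2 * i - k % 2, 2 * i + 1 - k % 2} := by
      ext j
      simp only [mem_filter, mem_range, mem_insert, mem_singleton]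
      omega
    rw [this, card_pair (by omega)]

lemma rega_dm (k i : ℕ) : 1 ≤ dm k i ∧ dm k i ≤ 2 := by
  unfold dm
  split_ifs <;> omega

lemma rega_tsys {G G1 : Finset (Sym2 V)} {T : Finset V} {k : ℕ} (hG : On univ G1) (hs : G ⊆ G1)
    (hF : Far G1 T) (hk : Near G k) :
    ∃ F, TSys G T k F ∧ ∀ i u, u ∈ tch (F i) \ T → ∃ x ∈ T, s(x, u) ∈ F i := by
  obtain ⟨f, hf⟩ := rega_inj hk.1
  set F : ℕ → Finset (Sym2 V) := fun i => univ.filter fun e =>
    ∃ x ∈ T, ∃ j ∈ regaJ G k x, (j + k % 2) / 2 = i ∧ e = s(x, f x j) with hFd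
  have mem : ∀ i e, e ∈ F i ↔ ∃ x ∈ T, ∃ j ∈ regaJ G k x, (j + k % 2) / 2 = i ∧ e = s(x, f x j) := by
    intro i e
    simp only [hFd, mem_filter, mem_univ, true_and]
  have nT : ∀ x ∈ T, ∀ j ∈ regaJ G k x, f x j ∉ T := fun x hx j hj h =>
    rega_far1 hG hF hx h (hs ((hf x).2 j hj))
  have sub : ∀ i, F i ⊆ G := by
    intro i e he
    obtain ⟨x, -, j, hj, -, rfl⟩ := (mem i e).1 he
    exact (hf x).2 j hj
  have out : ∀ i w u, w ∉ T → s(w, u) ∈ F i → u ∈ T := by
    intro i w u hw he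
    obtain ⟨x, hx, j, -, -, h⟩ := (mem i _).1 he
    rcases Sym2.eq_iff.1 h with h | h
    · exact absurd (h.1 ▸ hx) hw
    · exact h.2 ▸ hx
  have nbT : ∀ i, ∀ x ∈ T, nb (F i) x =
      ((regaJ G k x).filter fun j => (j + k % 2) / 2 = i).image (f x) := by
    intro i x hx
    ext u
    simp only [mem_nb, mem, mem_image, mem_filter (s := regaJ G k x)]
    constructor
    · rintro ⟨y, hy, j, hj, hc, h⟩
      rcases Sym2.eq_iff.1 h with h | h
      · obtain ⟨rfl, rfl⟩ := h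
        exact ⟨j, ⟨hj, hc⟩, rfl⟩
      · exact absurd (h.1 ▸ hx) (nT y hy j hj)
    · rintro ⟨j, ⟨hj, hc⟩, rfl⟩
      exact ⟨x, hx, j, hj, hc, rfl⟩
  refine ⟨F, ⟨fun i _ => sub i, ?_, ?_, ?_, ?_, ?_⟩, ?_⟩
  · intro i _ j _ hij
    refine disjoint_left.2 fun e h1 h2 => ?_
    obtain ⟨x, hx, a, ha, hca, rfl⟩ := (mem i e).1 h1
    obtain ⟨y, hy, b, hb, hcb, h⟩ := (mem j _).1 h2
    rcases Sym2.eq_iff.1 h with h | h
    · obtain ⟨rfl, h⟩ := h
      have := (hf x).1 (mem_coe.2 ha) (mem_coe.2 hb) h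
      exact hij (by rw [← hca, ← hcb, this])
    · exact nT y hy b hb (h.1 ▸ hx)
  · intro i _ e he
    obtain ⟨x, hx, j, -, -, rfl⟩ := (mem i e).1 he
    exact ⟨x, hx, by simp⟩
  · intro i hi x hx
    rw [dg, nbT i x hx, card_image_of_injOn, rega_count hk hi]
    exact (hf x).1.mono (by exact_mod_cast filter_subset _ _)
  · intro i _ x hx
    have : nb (F i) x ∩ T = ∅ := eq_empty_of_forall_notMem fun u hu =>
      rega_far1 hG hF hx (mem_inter.1 hu).2 (hs (sub i (mem_nb.1 (mem_inter.1 hu).1)))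
    rw [this, card_empty]
    exact (rega_dm k i).1
  · intro i _ w hw
    refine le_trans (card_le_card fun u hu => ?_) (rega_one hG hF w)
    exact mem_inter.2 ⟨nb_mono ((sub i).trans hs) w hu, out i w u hw (mem_nb.1 hu)⟩
  · intro i u hu
    rw [mem_sdiff, mem_tch] at hu
    obtain ⟨x, hx⟩ := card_pos.1 hu.1
    exact ⟨x, out i u x hu.2 (mem_nb.1 hx), mem_nb.1 (mem_nb_comm.1 hx)⟩

lemma rega_two {G1 F : Finset (Sym2 V)} {T A : Finset V} (hG : On univ G1) (hF : Far G1 T)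
    (hs : F ⊆ G1) (hd : ∀ x ∈ T, dg F x ≤ 2) (hA : ∀ u ∈ A, ∃ x ∈ T, s(x, u) ∈ F) (w : V) :
    (nb G1 w ∩ A).card ≤ 2 := by
  rcases (nb G1 w ∩ A).eq_empty_or_nonempty with h | ⟨u0, h0⟩
  · rw [h]; simp
  rw [mem_inter] at h0
  obtain ⟨x0, hx0, e0⟩ := hA u0 h0.2
  refine le_trans (card_le_card fun u hu => ?_) (hd x0 hx0)
  rw [mem_inter] at hu
  obtain ⟨x, hx, e⟩ := hA u hu.2
  have := rega_far4 hG hF hx hx0 (hs e) (mem_nb.1 (mem_nb_comm.1 hu.1)) (mem_nb.1 h0.1)
    (by rw [Sym2.eq_swap]; exact hs e0)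
  exact mem_nb.2 (this ▸ e)

lemma rega_deg {G1 E : Finset (Sym2 V)} {T A : Finset V} {w : V} (hE : E ⊆ G1) (hw : w ∈ Tᶜ)
    (h1 : (nb G1 w ∩ T).card ≤ 1) (h2 : (nb G1 w ∩ A).card ≤ 2) :
    dg E w ≤ (nb (inside E Tᶜ) w \ A).card + 3 := by
  rw [nb_inside hw]
  have : nb E w ⊆ ((nb E w ∩ Tᶜ) \ A) ∪ (nb G1 w ∩ T) ∪ (nb G1 w ∩ A) := by
    intro u hu
    have := nb_mono hE w hu
    simp only [mem_union, mem_sdiff, mem_inter, mem_compl]
    tauto
  have h3 := (card_le_card this).trans ((card_union_le _ _).trans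
    (Nat.add_le_add_right (card_union_le _ _) _))
  unfold dg
  omega

end Aux

/-- The sparse range. -/
theorem regA : ∃ ρ0 : ℝ, ∀ (V : Type) [Fintype V] [DecidableEq V]
    (G G0 G1 Q : Finset (Sym2 V)) (k : ℕ) (ρ a1 : ℝ), ρ0 ≤ ρ → ρ ≤ nV V → On univ G1 →
    Q ⊆ G0 → G0 ⊆ G → G ⊆ G1 → Near G k → (k : ℝ) ≤ th * ρ / 8 →
    Far G1 (low G0 (th * ρ)) → Sparse G1 (3 * a1) 4 →
    2 * ((low Q (th * ρ)).card : ℝ) ≤ a1 → a1 ≤ nV V / 10 ^ 31 →
    PoolOK univ ρ 1 5 Q G1 G0 → HasA G k := by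
  obtain ⟨ρ0, hfin⟩ := final
  refine ⟨max ρ0 (6 * 10 ^ 13), ?_⟩
  intro V _ _ G G0 G1 Q k ρ a1 hρ hρn hG1 hQ hG0 hG hk hkρ hF hS hT1 ha1 hP
  have hρ1 : 6 * 10 ^ 13 ≤ ρ := (le_max_right _ _).trans hρ
  have hth : 6 ≤ th * ρ := by unfold th; linarith
  set T := low G0 (th * ρ) with hT
  obtain ⟨F, hsys, hA⟩ := rega_tsys hG1 hG hF hk
  have hGon : On univ G := hG1.mono subset_rfl hG
  obtain ⟨X, M, hXM, -, hfinal⟩ := asm hGon hk (fun x hx => mem_low.2 (by
    have h1 : (dg G0 x : ℝ) ≤ k := by exact_mod_cast (dg_mono hG0 x).trans hx.le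
    linarith)) hsys
  have hd : ∀ i < KK k, ∀ x ∈ T, dg (F i) x ≤ 2 := fun i hi x hx =>
    (hsys.degT i hi x hx).le.trans (dx_le G k i x)
  have hdeg : ∀ E ⊆ G1, ∀ i ∈ range (KK k), ∀ w ∈ Tᶜ, th * ρ < dg E w →
      th * ρ / 2 ≤ ((nb (inside E Tᶜ) w \ Aset (X i) (M i)).card : ℝ) := by
    intro E hE i hi w hw h
    have hi' := mem_range.1 hi
    have h2 := rega_two (A := Aset (X i) (M i)) hG1 hF ((hsys.sub i hi').trans hG) (hd i hi')
      (by rw [(hXM i hi').2.2]; exact hA i) w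
    have h3 : (dg E w : ℝ) ≤ ((nb (inside E Tᶜ) w \ Aset (X i) (M i)).card : ℝ) + 3 := by
      exact_mod_cast rega_deg hE hw (rega_one hG1 hF w) h2
    linarith
  have hTT : (T.card : ℝ) ≤ (low Q (th * ρ)).card := by
    exact_mod_cast card_le_card fun v hv => mem_low.2
      (le_trans (by exact_mod_cast dg_mono hQ v) (mem_low.1 hv))
  have ins : ∀ E : Finset (Sym2 V), inside E Tᶜ ⊆ E := fun E => filter_subset _ _
  obtain ⟨F', hF'⟩ := hfin V Tᶜ (low Q (th * ρ)) (inside Q Tᶜ) (inside G Tᶜ) (inside G0 Tᶜ) ρ a1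
    (range (KK k)) X M ((le_max_left _ _).trans hρ) hρn
    (le_trans (by rw [card_range]; exact_mod_cast (show KK k ≤ k by unfold KK; omega)) hkρ)
    (on_inside hGon) (filter_subset_filter _ (hQ.trans hG0)) (filter_subset_filter _ hG0)
    (hP.restrict (ins Q) ((ins G).trans hG) (by
      rw [sdiff_self, bot_eq_empty, card_empty, Nat.cast_zero]
      have := nV_nonneg V
      have : 0 ≤ ρ := by linarith
      positivity))
    (fun i hi => by
      have hi' := mem_range.1 hi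
      refine ⟨(hXM i hi').1, (hXM i hi').2.1, ?_⟩
      have h1 : tch (M i) ⊆ T.biUnion (nb (F i)) := by
        intro u hu
        have h2 : u ∈ Aset (X i) (M i) := mem_union_right _ hu
        rw [(hXM i hi').2.2] at h2
        obtain ⟨x, hx, e⟩ := hA i u h2
        exact mem_biUnion.2 ⟨x, hx, mem_nb.2 e⟩
      have h2 : (tch (M i)).card ≤ T.card * 2 :=
        (card_le_card h1).trans (card_biUnion_le_card_mul _ _ _ (hd i hi'))
      have h3 : ((tch (M i)).card : ℝ) ≤ T.card * 2 := by exact_mod_cast h2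
      have h4 : nV V / 10 ^ 31 ≤ nV V / 10 ^ 30 :=
        div_le_div_of_nonneg_left (nV_nonneg V) (by positivity) (by norm_num)
      linarith)
    (fun i hi w hw h => hdeg Q (hQ.trans (hG0.trans hG)) i hi w hw (not_le.1 fun h' => h (mem_low.2 h')))
    (Or.inr ⟨hS.mono ((ins G).trans hG), hT1, fun i hi w hw _ => hdeg G hG i hi w hw
      (lt_of_lt_of_le (not_le.1 fun h' => mem_compl.1 hw (mem_low.2 h'))
        (by exact_mod_cast dg_mono hG0 w))⟩)
  exact hfinal F' hF'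

end

end Pool.Agent.MP_1376f1_pr
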