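import Pool.Agent.MP_1376f1_pr.Mg.XSel
import Pool.Agent.MP_1376f1_pr.Mg.CFin
import Pool.Agent.MP_1376f1_pr.Mg.Machine

/-!
The dense end.
-/

set_option autoImplicit false
set_option linter.unusedSectionVars false

namespace Pool.Agent.MP_1376f1_pr

open Finset MP_d802e4_co
open scoped Classical

noncomputable section

lemma regc_num {ε : ℝ} (hε : 0 < ε) : ∃ n0 : ℕ, ∀ n ≥ n0, ∀ u : ℕ,
    (n : ℝ) ^ (9 / 10 : ℝ) ≤ u → (u : ℝ) ≤ (n : ℝ) ^ (9 / 10 : ℝ) + 1 →
    Real.sqrt n + 20 ≤ ε * ((u : ℝ) ^ 2 / (100 * n)) ∧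
    (n : ℝ) ^ (7 / 10 : ℝ) ≤ ε * ((u : ℝ) ^ 2 / (100 * n)) ∧
    2 * (u : ℝ) + 2 ≤ ε * n ∧ (u : ℝ) ^ 2 / (100 * n) ≤ ε * n ∧
    Real.log n ≤ (u : ℝ) ^ 2 / (100 * n) ∧ Real.sqrt n + 1 ≤ u ∧ 4 ≤ Real.sqrt n ∧
    Real.sqrt n ≤ ε * n := by
  refine ⟨⌈(10 + 3000 / ε) ^ 10⌉₊, fun n hn u hu1 hu2 => ?_⟩
  have hT : (0 : ℝ) < 3000 / ε := by positivity
  have hn' : (10 + 3000 / ε) ^ 10 ≤ (n : ℝ) := (Nat.le_ceil _).trans (by exact_mod_cast hn)
  have hn0 : (0 : ℝ) ≤ n := Nat.cast_nonneg _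
  obtain ⟨t, ht0, htn⟩ : ∃ t : ℝ, 0 ≤ t ∧ t ^ 10 = n := by
    refine ⟨(n : ℝ) ^ ((1 : ℝ) / 10), by positivity, ?_⟩
    rw [← Real.rpow_natCast, ← Real.rpow_mul hn0]; norm_num
  have htT : 10 + 3000 / ε ≤ t := by
    by_contra h
    push Not at h
    have := pow_lt_pow_left₀ h ht0 (n := 10) (by norm_num)
    linarith
  have ht10 : 10 ≤ t := by linarith
  have hεt : 3000 ≤ ε * t := by
    have h1 : 3000 / ε ≤ t := by linarith
    rw [div_le_iff₀ hε] at h1; linarith
  have htpos : 0 < t := by linarith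
  have hr : ∀ j : ℕ, (n : ℝ) ^ ((j : ℝ) / 10) = t ^ j := by
    intro j
    rw [← htn, ← Real.rpow_natCast t 10, ← Real.rpow_mul ht0, ← Real.rpow_natCast t j]
    congr 1; push_cast; ring
  have h9 : (n : ℝ) ^ (9 / 10 : ℝ) = t ^ 9 := by have := hr 9; push_cast at this; exact this
  have h7 : (n : ℝ) ^ (7 / 10 : ℝ) = t ^ 7 := by have := hr 7; push_cast at this; exact this
  have h5 : Real.sqrt n = t ^ 5 := by
    rw [← htn, show t ^ 10 = (t ^ 5) ^ 2 by ring, Real.sqrt_sq (by positivity)]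
  have hlog : Real.log n ≤ 10 * t := by
    rw [← htn, Real.log_pow]
    have := Real.log_le_sub_one_of_pos htpos
    push_cast; linarith
  rw [h9] at hu1 hu2
  rw [h7, h5]
  have hp : ∀ a b : ℕ, a ≤ b → t ^ a ≤ t ^ b := fun a b hab =>
    pow_le_pow_right₀ (by linarith) hab
  have hp5 : (10 : ℝ) ^ 5 ≤ t ^ 5 := pow_le_pow_left₀ (by norm_num) ht10 5
  have hp4 : (10 : ℝ) ^ 4 ≤ t ^ 4 := pow_le_pow_left₀ (by norm_num) ht10 4
  have hp7 : (10 : ℝ) ^ 7 ≤ t ^ 7 := pow_le_pow_left₀ (by norm_num) ht10 7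
  have hp9 : (10 : ℝ) ^ 9 ≤ t ^ 9 := pow_le_pow_left₀ (by norm_num) ht10 9
  have hs1 : t ^ 8 / 100 ≤ (u : ℝ) ^ 2 / (100 * n) := by
    rw [← htn, div_le_div_iff₀ (by norm_num) (by positivity)]
    have : (t ^ 9) ^ 2 ≤ (u : ℝ) ^ 2 := pow_le_pow_left₀ (by positivity) hu1 2
    nlinarith
  have hs2 : (u : ℝ) ^ 2 / (100 * n) ≤ t ^ 8 := by
    rw [← htn, div_le_iff₀ (by positivity)]
    have h1 : (u : ℝ) ≤ 2 * t ^ 9 := by linarith
    have : (u : ℝ) ^ 2 ≤ (2 * t ^ 9) ^ 2 := pow_le_pow_left₀ (Nat.cast_nonneg _) h1 2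
    have h18 : 0 ≤ t ^ 18 := by positivity
    nlinarith
  have he8 : 30 * t ^ 7 ≤ ε * (t ^ 8 / 100) := by
    have : 0 ≤ t ^ 7 := by positivity
    have h2 : ε * (t ^ 8 / 100) = (ε * t) * t ^ 7 / 100 := by ring
    rw [h2]; nlinarith
  have he10 : 3000 * t ^ 9 ≤ ε * n := by
    have : 0 ≤ t ^ 9 := by positivity
    have h2 : ε * n = (ε * t) * t ^ 9 := by rw [← htn]; ring
    rw [h2]; nlinarith
  have hm : ε * (t ^ 8 / 100) ≤ ε * ((u : ℝ) ^ 2 / (100 * n)) :=
    mul_le_mul_of_nonneg_left hs1 hε.le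
  have a57 := hp 5 7 (by norm_num)
  have a89 := hp 8 9 (by norm_num)
  have a59 := hp 5 9 (by norm_num)
  refine ⟨by linarith, by linarith, by linarith, by linarith, ?_, ?_, by linarith, by linarith⟩
  · have h2 : t ^ 8 = t * t ^ 7 := by ring
    nlinarith
  · have h2 : t ^ 9 = t ^ 5 * t ^ 4 := by ring
    nlinarith

section
variable {V : Type} [Fintype V] [DecidableEq V]

lemma regc_nb_single (a b w : V) : nb ({s(a, b)} : Finset (Sym2 V)) w ⊆
    if w = a then {b} else if w = b then {a} else ∅ := by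
  intro z hz
  rw [mem_nb, mem_singleton, Sym2.eq_iff] at hz
  rcases hz with ⟨h1, h2⟩ | ⟨h1, h2⟩
  · simp [h1, h2]
  · by_cases h : w = a
    · have : a = b := h.symm.trans h1
      simp [h, h2, this]
    · rw [if_neg h, if_pos h1, h2]; exact mem_singleton_self _

lemma regc_dg_single_le (a b w : V) : dg ({s(a, b)} : Finset (Sym2 V)) w ≤ 1 := by
  refine (card_le_card (regc_nb_single a b w)).trans ?_
  split_ifs <;> simp

lemma regc_dg_single_zero {a b w : V} (h1 : w ≠ a) (h2 : w ≠ b) :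
    dg ({s(a, b)} : Finset (Sym2 V)) w = 0 := by
  have := card_le_card (regc_nb_single a b w)
  rw [if_neg h1, if_neg h2] at this
  simpa [dg] using this

lemma regc_setup (W : Finset V) (k r : ℕ) (X' : ℕ → Finset V) (hX' : ∀ i, X' i ⊆ W)
    (hW : KK k + 1 ≤ W.card) (hr : r ≤ 1) (E0 : Finset V) (hE0 : E0 ⊆ W) (hE0c : E0.card ≤ r) :
    ∃ (X : ℕ → Finset V) (M : ℕ → Finset (Sym2 V)),
      (∀ i < KK k, X i ⊆ W ∧ IsMat (W \ X i) (M i) ∧
        (Aset (X i) (M i)).card ≤ (X' i).card + 2) ∧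
      (∀ i < KK k, dm k i = 2 → (M i).card = 1 ∧ X i ⊆ X' i) ∧
      (k % 2 = 1 → (M 0 = ∅ ∧ (X 0).card = r) ∧ E0 ⊆ X 0) ∧
      ∀ w, ∃ E : Finset ℕ, E.card ≤ 3 ∧ ∀ i < KK k, i ∉ E →
        dm k i = 2 ∧ dg (M i) w = 0 ∧ (w ∈ X i ↔ w ∈ X' i) := by
  have hpos : 0 < W.card := by omega
  obtain ⟨X0, hEX, hX0, hX0c⟩ := exists_subsuperset_card_eq hE0 hE0c (by omega)
  let wv : ℕ → V := fun i => (W.equivFin.symm ⟨i % W.card, Nat.mod_lt _ hpos⟩ : W)
  have hwW : ∀ i, wv i ∈ W := fun i => (W.equivFin.symm _).2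
  have hinj : ∀ i < W.card, ∀ j < W.card, wv i = wv j → i = j := by
    intro i hi j hj h
    have h1 := W.equivFin.symm.injective (Subtype.ext h)
    have h2 : i % W.card = j % W.card := congrArg Fin.val h1
    rwa [Nat.mod_eq_of_lt hi, Nat.mod_eq_of_lt hj] at h2
  refine ⟨fun i => if dm k i = 2 then X' i \ {wv i, wv (i + 1)} else X0,
    fun i => if dm k i = 2 then {s(wv i, wv (i + 1))} else ∅, ?_, ?_, ?_, ?_⟩
  · intro i hi
    by_cases h : dm k i = 2
    · simp only [if_pos h]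
      have hne : wv i ≠ wv (i + 1) := fun h' => by
        have := hinj i (by omega) (i + 1) (by omega) h'
        omega
      refine ⟨sdiff_subset.trans (hX' i), ⟨?_, fun v => regc_dg_single_le _ _ _⟩, ?_⟩
      · intro e he
        rw [mem_singleton] at he
        subst he
        refine ⟨by simpa using hne, fun v hv => ?_⟩
        rw [Sym2.mem_iff] at hv
        rcases hv with rfl | rfl <;> simp [hwW]
      · have : Aset (X' i \ {wv i, wv (i + 1)}) {s(wv i, wv (i + 1))} ⊆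
            X' i ∪ {wv i, wv (i + 1)} := by
          intro v hv
          rw [Aset, mem_union] at hv
          rcases hv with hv | hv
          · exact mem_union_left _ (mem_sdiff.1 hv).1
          · refine mem_union_right _ ?_
            by_contra hc
            simp only [mem_insert, mem_singleton, not_or] at hc
            rw [mem_tch, regc_dg_single_zero hc.1 hc.2] at hv
            exact lt_irrefl _ hv
        refine (card_le_card this).trans ((card_union_le _ _).trans ?_)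
        exact Nat.add_le_add_left card_le_two _
    · simp only [if_neg h]
      refine ⟨hX0, ⟨fun e he => by simp at he, fun v => by simp⟩, ?_⟩
      have : Aset X0 (∅ : Finset (Sym2 V)) = X0 := by
        ext v; simp [Aset]
      rw [this]; omega
  · intro i _ h
    simp only [if_pos h]
    exact ⟨card_singleton _, sdiff_subset⟩
  · intro hk
    have h : ¬ dm k 0 = 2 := by simp [dm, hk]
    simp only [if_neg h]
    exact ⟨⟨trivial, hX0c⟩, hEX⟩
  · intro w
    refine ⟨insert 0 (((range (KK k)).filter fun i => w = wv i) ∪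
      ((range (KK k)).filter fun i => w = wv (i + 1))), ?_, ?_⟩
    · have h1 : ((range (KK k)).filter fun i => w = wv i).card ≤ 1 := by
        rw [card_le_one]
        intro a ha b hb
        rw [mem_filter, mem_range] at ha hb
        exact hinj a (by omega) b (by omega) (ha.2.symm.trans hb.2)
      have h2 : ((range (KK k)).filter fun i => w = wv (i + 1)).card ≤ 1 := by
        rw [card_le_one]
        intro a ha b hb
        rw [mem_filter, mem_range] at ha hb
        have := hinj (a + 1) (by omega) (b + 1) (by omega) (ha.2.symm.trans hb.2)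
        omega
      refine (card_insert_le _ _).trans ?_
      have := card_union_le ((range (KK k)).filter fun i => w = wv i)
        ((range (KK k)).filter fun i => w = wv (i + 1))
      omega
    · intro i hi hE
      simp only [mem_insert, mem_union, mem_filter, mem_range, not_or, not_and] at hE
      obtain ⟨h0, h1, h2⟩ := hE
      have h : dm k i = 2 := by simp [dm, h0]
      simp only [if_pos h]
      refine ⟨h, regc_dg_single_zero (h1 hi) (h2 hi), ?_⟩
      simp [h1 hi, h2 hi]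

lemma regc_dem {k : ℕ} {X X' : ℕ → Finset V} {M : ℕ → Finset (Sym2 V)} {w : V} {E : Finset ℕ}
    (hE3 : E.card ≤ 3)
    (hE : ∀ i < KK k, i ∉ E → dm k i = 2 ∧ dg (M i) w = 0 ∧ (w ∈ X i ↔ w ∈ X' i)) :
    |((∑ i ∈ range (KK k), dem (X i) (M i) w : ℕ) : ℝ) - (k - 2 *
      ((((range (KK k)).filter fun i => dm k i = 2).filter fun i => w ∈ X' i).card : ℝ))| ≤ 7 := by
  have hc : ((((range (KK k)).filter fun i => dm k i = 2).filter fun i => w ∈ X' i).card : ℝ) =
      ∑ i ∈ range (KK k), if dm k i = 2 ∧ w ∈ X' i then (1 : ℝ) else 0 := by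
    rw [filter_filter, card_filter]; push_cast; rfl
  have hE' : ∑ i ∈ range (KK k), (if i ∈ E then (2 : ℝ) else 0) ≤ 6 := by
    rw [← sum_filter, sum_const, nsmul_eq_mul]
    have : ((range (KK k)).filter fun i => i ∈ E).card ≤ 3 :=
      (card_le_card fun i hi => (mem_filter.1 hi).2).trans hE3
    have : (((range (KK k)).filter fun i => i ∈ E).card : ℝ) ≤ 3 := by exact_mod_cast this
    linarith
  have hK : |(∑ _i ∈ range (KK k), (2 : ℝ)) - k| ≤ 1 := by
    rw [sum_const, card_range, nsmul_eq_mul]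
    have h1 : k ≤ KK k * 2 := by unfold KK; omega
    have h2 : KK k * 2 ≤ k + 1 := by unfold KK; omega
    have h1' : (k : ℝ) ≤ KK k * 2 := by exact_mod_cast h1
    have h2' : (KK k : ℝ) * 2 ≤ k + 1 := by exact_mod_cast h2
    rw [abs_le]; constructor <;> linarith
  have hterm : ∀ i ∈ range (KK k), |(dem (X i) (M i) w : ℝ) - 2 +
      2 * (if dm k i = 2 ∧ w ∈ X' i then (1 : ℝ) else 0)| ≤ if i ∈ E then (2 : ℝ) else 0 := by
    intro i hi
    by_cases hiE : i ∈ E
    · rw [if_pos hiE]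
      have h1 : dem (X i) (M i) w ≤ 2 := by unfold dem; split_ifs <;> omega
      have h2 : (dem (X i) (M i) w : ℝ) ≤ 2 := by exact_mod_cast h1
      have h3 : (0 : ℝ) ≤ dem (X i) (M i) w := Nat.cast_nonneg _
      rw [abs_le]
      split_ifs <;> constructor <;> linarith
    · rw [if_neg hiE]
      obtain ⟨h1, h2, h3⟩ := hE i (mem_range.1 hi) hiE
      by_cases hw : w ∈ X' i
      · simp [dem, h1, h3, hw]
      · simp [dem, h1, h2, h3, hw]
  have hsum := (abs_sum_le_sum_abs _ _).trans ((sum_le_sum hterm).trans hE')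
  rw [sum_add_distrib, sum_sub_distrib, ← mul_sum, ← hc] at hsum
  push_cast
  rw [abs_le] at hsum hK ⊢
  constructor <;> linarith [hsum.1, hsum.2, hK.1, hK.2]

lemma regc_nbR {W : Finset V} {Tr B : Finset (Sym2 V)} (hB : On univ B) {w : V} (hw : w ∈ W) :
    nb (B ∩ (inside (allE V) W \ Tr)) w = (nb B w ∩ W) \ nb Tr w := by
  ext z
  simp only [mem_nb, mem_inter, mem_sdiff, mem_inside, mem_allE, Sym2.mem_iff, forall_eq_or_imp,
    forall_eq]
  constructor
  · rintro ⟨h1, ⟨_, _, h2⟩, h3⟩; exact ⟨⟨h1, h2⟩, h3⟩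
  · rintro ⟨⟨h1, h2⟩, h3⟩; exact ⟨h1, ⟨(hB _ h1).1, hw, h2⟩, h3⟩

lemma regc_resD {W : Finset V} {Tr : Finset (Sym2 V)} {D : V → Finset V} (hB : On univ (arcE D))
    {w : V} (hw : w ∈ W) :
    resD D (inside (allE V) W \ Tr) w = (D w ∩ W) \ nb Tr w := by
  ext z
  simp only [mem_resD, mem_nb, mem_inter, mem_sdiff, mem_inside, mem_allE, Sym2.mem_iff,
    forall_eq_or_imp, forall_eq]
  constructor
  · rintro ⟨h1, ⟨_, _, h2⟩, h3⟩; exact ⟨⟨h1, h2⟩, h3⟩
  · rintro ⟨⟨h1, h2⟩, h3⟩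
    exact ⟨h1, ⟨(hB _ (mem_arcE.2 ⟨w, z, h1, rfl⟩)).1, hw, h2⟩, h3⟩

lemma regc_card_sdiff (N W A T : Finset V) :
    ((N ∩ (W \ A)).card : ℝ) - T.card ≤ ((((N ∩ W) \ T) \ A).card : ℝ) := by
  have h : N ∩ (W \ A) ⊆ (((N ∩ W) \ T) \ A) ∪ T := by
    intro z hz
    simp only [mem_inter, mem_sdiff, mem_union] at hz ⊢
    tauto
  have h2 := (card_le_card h).trans (card_union_le _ _)
  have h3 : ((N ∩ (W \ A)).card : ℝ) ≤ ((((N ∩ W) \ T) \ A).card : ℝ) + T.card := by
    exact_mod_cast h2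
  linarith

lemma regc_dgR {W : Finset V} {Tr : Finset (Sym2 V)} (hTr : On W Tr) {w : V} (hw : w ∈ W) :
    dg (inside (allE V) W \ Tr) w + dg Tr w + 1 = W.card := by
  have h : Tr ⊆ inside (allE V) W := fun e he =>
    mem_inside.2 ⟨mem_allE.2 (hTr e he).1, (hTr e he).2⟩
  rw [dg_sdiff h, dg_inside_allE hw]

lemma regc_lost {W : Finset V} {Tr B : Finset (Sym2 V)} (hB : On univ B) (hTr : On W Tr) {Δ : ℕ}
    (hΔ : ∀ v, dg Tr v ≤ Δ) :
    ((inside B W \ (B ∩ (inside (allE V) W \ Tr))).card : ℝ) ≤ nV V * Δ := by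
  have h : inside B W \ (B ∩ (inside (allE V) W \ Tr)) ⊆ Tr := by
    intro e he
    rw [mem_sdiff, mem_inside] at he
    by_contra hc
    exact he.2 (mem_inter.2 ⟨he.1.1, mem_sdiff.2
      ⟨mem_inside.2 ⟨mem_allE.2 (hB e he.1.1).1, he.1.2⟩, hc⟩⟩)
  have h1 := handshake hTr
  have h2 : ∑ v ∈ W, dg Tr v ≤ W.card * Δ := by
    simpa using sum_le_card_nsmul W (dg Tr) Δ fun v _ => hΔ v
  have h3 : Tr.card ≤ Fintype.card V * Δ := by
    have := Nat.mul_le_mul_right Δ (card_le_univ W)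
    omega
  have h4 := (card_le_card h).trans h3
  unfold nV
  exact_mod_cast h4

end

/-- Hint: `g` a prime `≥ 10 ^ 15`, `η1` from `machine`, `η = min (η1 / 10) (1 / 100)`.
`u = ⌈n ^ (9/10)⌉₊`, `U` a set of `u` isolated vertices of `Hc`, `W = Uᶜ`, `Tr` from `trash`,
`R = inside (allE _) W \ Tr`, `s = u ^ 2 / (100 n)`, `m` from `exists_sched`. Let `I` be the set of
`i < KK k` with `dm k i = 2` (`k / 2` elements) and `X'` from `xsel`. Enumerate `W` injectively as
`w 0, w 1, …` (`KK k + 1 ≤ |W|`); for `i ∈ I` put `M i = {s(w i, w (i+1))}` and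
`X i = X' i \ {w i, w (i+1)}`; for the matching colour `M 0 = ∅` and `X 0` has `n % 2` elements.
Pools from `poolx` with `𝒮 = {W} ∪ {W \ Aset i}`; passing to `R` loses at most `Δ ≤ √n` neighbours
and at most `n √n` edges (`PoolOK.restrict`). `dg R w = k - u + (Δ - dg Tr w)` and
`∑ dem = 2 KK k - 2 #{i, w ∈ X i} - #{i, w ∈ tch (M i)}`. Apply `machine`, then `cfin` with
`ΔJ = ⌊3 s⌋₊`. -/
theorem regC : ∃ n0 : ℕ, ∀ n ≥ n0, ∀ (Hc : Finset (Sym2 (Fin n))) (k Δ : ℕ), On univ Hc →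
    Δ + k + 1 = n → (Δ : ℝ) ≤ Real.sqrt n → (∀ v, dg Hc v ≤ Δ + 1) →
    (univ.filter fun v => Δ < dg Hc v).card ≤ n % 2 * (k % 2) →
    (n : ℝ) ^ (9 / 10 : ℝ) + 1 ≤ ((univ.filter fun v => dg Hc v = 0).card : ℝ) →
    HasA (allE (Fin n) \ Hc) k := by
  obtain ⟨g, hg', hg⟩ := Nat.exists_infinite_primes (10 ^ 15)
  obtain ⟨η1, hη1, n1, hmach⟩ := machine g hg hg'
  obtain ⟨η, hη, hηa, hηb⟩ : ∃ η : ℝ, 0 < η ∧ 10 * η ≤ η1 ∧ 100 * η ≤ 1 :=
    ⟨min (η1 / 10) (1 / 100), by positivity, by linarith [min_le_left (η1 / 10) (1 / 100 : ℝ)],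
      by linarith [min_le_right (η1 / 10) (1 / 100 : ℝ)]⟩
  obtain ⟨n2, hxsel⟩ := xsel hη
  obtain ⟨n3, hpool⟩ := poolx g hg.one_le hη (by linarith)
  have hth := th_pos
  have hth1 : th ≤ 1 := th_le.trans (by norm_num)
  have hg1 : (1 : ℝ) ≤ g := by exact_mod_cast hg.one_le
  have hc0 : (0 : ℝ) < 1 / (10 ^ 11 * (g : ℝ) ^ 2) := by positivity
  have hc1 : (1 : ℝ) / (10 ^ 11 * (g : ℝ) ^ 2) ≤ 1 / 10 ^ 11 := by
    apply one_div_le_one_div_of_le (by positivity)
    nlinarith
  obtain ⟨c, hc⟩ : ∃ c : ℝ, c = 1 / (10 ^ 11 * (g : ℝ) ^ 2) := ⟨_, rfl⟩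
  rw [← hc] at hc0 hc1
  have hc2 : c ≤ 1 := hc1.trans (by norm_num)
  have hε : 0 < η * th * c * (th / 32) := by positivity
  obtain ⟨n4, hnum⟩ := regc_num hε
  refine ⟨max (max ⌈n1⌉₊ ⌈n2⌉₊) (max n3 n4), fun n hn Hc k Δ hHc hk hΔn hΔ hex hiso => ?_⟩
  have hn1 : n1 ≤ nV (Fin n) := by
    rw [nV_fin]; exact (Nat.le_ceil _).trans (by exact_mod_cast (by omega : ⌈n1⌉₊ ≤ n))
  have hn2 : n2 ≤ nV (Fin n) := by
    rw [nV_fin]; exact (Nat.le_ceil _).trans (by exact_mod_cast (by omega : ⌈n2⌉₊ ≤ n))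
  have hn3 : n ≥ n3 := by omega
  have hn4 : n ≥ n4 := by omega
  obtain ⟨u, hu1, hu2⟩ : ∃ u : ℕ, (n : ℝ) ^ (9 / 10 : ℝ) ≤ u ∧
      (u : ℝ) ≤ (n : ℝ) ^ (9 / 10 : ℝ) + 1 :=
    ⟨⌈(n : ℝ) ^ (9 / 10 : ℝ)⌉₊, Nat.le_ceil _, (Nat.ceil_lt_add_one (by positivity)).le⟩
  obtain ⟨a1, a2, a3, a4, a5, a6, a7, a8⟩ := hnum n hn4 u hu1 hu2
  obtain ⟨U, hU, hUc⟩ := exists_subset_card_eq (s := univ.filter fun v => dg Hc v = 0) (n := u)
    (by exact_mod_cast hu2.trans hiso)
  obtain ⟨W, hWU⟩ : ∃ W : Finset (Fin n), W = Uᶜ := ⟨_, rfl⟩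
  have hWc : W.card + u = n := by
    rw [hWU, ← hUc, add_comm, card_add_card_compl, Fintype.card_fin]
  have hHW : On W Hc := by
    intro e he
    refine ⟨(hHc e he).1, fun v hv => ?_⟩
    rw [hWU, mem_compl]
    intro hvU
    have h0 := (mem_filter.1 (hU hvU)).2
    obtain ⟨z, rfl⟩ := Sym2.mem_iff_exists.1 hv
    have : z ∈ nb Hc v := mem_nb.2 he
    rw [dg, card_eq_zero] at h0
    rw [h0] at this
    exact notMem_empty _ this
  obtain ⟨Tr, hHT, hTr, hTΔ', hdef⟩ := trash (Δ := Δ)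
    (cap := fun v => Δ + if Δ < dg Hc v then 1 else 0) hHW (fun v => Nat.le_add_right _ _)
    (fun v => by have := hΔ v; split_ifs <;> omega)
  have hTΔ : ∀ v, dg Tr v ≤ Δ + 1 := fun v => (hTΔ' v).trans (by split_ifs <;> omega)
  obtain ⟨s, hs⟩ : ∃ s : ℝ, s = (u : ℝ) ^ 2 / (100 * n) := ⟨_, rfl⟩
  rw [← hs] at a1 a2 a4 a5
  obtain ⟨ε, hεd⟩ : ∃ ε : ℝ, ε = η * th * c * (th / 32) := ⟨_, rfl⟩
  rw [← hεd] at a1 a2 a3 a4 a8 hε
  have hεt : ε ≤ η * th * c * (1 / 32) := by
    rw [hεd]; apply mul_le_mul_of_nonneg_left (by linarith) (by positivity)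
  have hεη : ε ≤ η := by
    have h1 : th * c ≤ 1 := mul_le_one₀ hth1 hc0.le hc2
    have h2 : η * (th * c) ≤ η := mul_le_of_le_one_right hη.le h1
    have h3 : 0 ≤ η * (th * c) := by positivity
    linarith
  have hε32 : ε ≤ th / 32 := by
    rw [hεd]
    have h1 : η * th * c ≤ 1 := mul_le_one₀ (mul_le_one₀ (by linarith) hth.le hth1) hc0.le hc2
    exact mul_le_of_le_one_left (by positivity) h1
  have hnR : (0 : ℝ) ≤ n := Nat.cast_nonneg _
  have hsq : 0 ≤ Real.sqrt n := Real.sqrt_nonneg _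
  have hs0 : 0 < s := by
    exact (mul_pos_iff_of_pos_left hε).1 (by linarith)
  have hεs : ε * s ≤ η * s := mul_le_mul_of_nonneg_right hεη hs0.le
  have hηs : η * s ≤ s / 100 := by linarith [mul_le_mul_of_nonneg_right hηb hs0.le]
  have hη1s : 10 * (η * s) ≤ η1 * s := by linarith [mul_le_mul_of_nonneg_right hηa hs0.le]
  have hεn : ε * n ≤ η * n := mul_le_mul_of_nonneg_right hεη hnR
  have hηn : η * n ≤ n / 100 := by linarith [mul_le_mul_of_nonneg_right hηb hnR]
  have hη1n : 10 * (η * n) ≤ η1 * n := by linarith [mul_le_mul_of_nonneg_right hηa hnR]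
  have hkR : (Δ : ℝ) + k + 1 = n := by exact_mod_cast hk
  have hWR : (W.card : ℝ) + u = n := by exact_mod_cast hWc
  have hΔ0 : (0 : ℝ) ≤ Δ := Nat.cast_nonneg _
  have hu0 : (0 : ℝ) ≤ u := Nat.cast_nonneg _
  have hk2 : 2 ≤ k := by
    have : (2 : ℝ) ≤ k := by linarith
    exact_mod_cast this
  have hKW : KK k + 1 ≤ W.card := by
    have h1 : 2 * u + 2 ≤ W.card := by
      have : 2 * (u : ℝ) + 2 ≤ W.card := by linarith
      exact_mod_cast this
    have h2 : 4 * u + 4 ≤ n := by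
      have : 4 * (u : ℝ) + 4 ≤ n := by linarith
      exact_mod_cast this
    unfold KK; omega
  obtain ⟨m, hsched⟩ := exists_sched (n := (n : ℝ)) (s := s) (k := k) (by linarith) (by linarith)
    hs0 (by omega) (by linarith)
  obtain ⟨I, hI⟩ : ∃ I, I = (range (KK k)).filter fun i => dm k i = 2 := ⟨_, rfl⟩
  have hIc : k ≤ 2 * I.card + 1 ∧ 2 * I.card ≤ k := by
    by_cases h : k % 2 = 1
    · have : I = (range (KK k)).erase 0 := by
        rw [hI]; ext i
        by_cases hi : i = 0 <;> simp [dm, h, hi]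
      rw [this, card_erase_of_mem (mem_range.2 (by unfold KK; omega)), card_range]
      unfold KK; omega
    · have : I = range (KK k) := by
        rw [hI]; ext i; simp [dm, h]
      rw [this, card_range]; unfold KK; omega
  have hI1 : (k : ℝ) ≤ 2 * I.card + 1 := by exact_mod_cast hIc.1
  have hI2 : 2 * (I.card : ℝ) ≤ k := by exact_mod_cast hIc.2
  obtain ⟨X', hX'1, hX'2, hX'3, hX'4⟩ := hxsel (Fin n) hn2 W I u
    (by rw [Fintype.card_fin]; exact hWc) (by rw [nV_fin]; exact hu1) (by rw [nV_fin]; exact hu2)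
    (by rw [nV_fin]; linarith) (by rw [nV_fin]; linarith)
    (by
      intro i hi
      rw [hI, mem_filter, mem_range] at hi
      rw [Fintype.card_fin]
      have := hi.1
      omega)
  rw [nV_fin] at hX'2 hX'3 hX'4
  rw [← hs] at hX'2 hX'3
  obtain ⟨X, M, hX1, hX2, hX3, hX4⟩ := regc_setup W k (n % 2) X' (fun i => (hX'1 i).1) hKW
    (by omega) (univ.filter fun v => Δ < dg Hc v)
    (fun v hv => hHW.tch_subset (mem_tch.2 (by have := (mem_filter.1 hv).2; omega)))
    (hex.trans (by rcases Nat.mod_two_eq_zero_or_one k with h | h <;> rw [h] <;> omega))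
  have hA : ∀ i < KK k, ((Aset (X i) (M i)).card : ℝ) ≤ u + 1 := by
    intro i hi
    have h1 := (hX1 i hi).2.2
    have h2 := (hX'1 i).2
    have : (Aset (X i) (M i)).card ≤ u + 1 := by omega
    exact_mod_cast this
  obtain ⟨A, C, D, hP1, hP2, hP3, hP4, hP5⟩ := hpool n hn3 k m s hsched (by linarith)
    (by linarith) (insert W ((range (KK k)).image fun i => W \ Aset (X i) (M i)))
    (by
      refine (card_insert_le _ _).trans ?_
      have := card_image_le (s := range (KK k)) (f := fun i => W \ Aset (X i) (M i))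
      rw [card_range] at this
      omega)
    (by
      intro S hS
      rw [mem_insert, mem_image] at hS
      rcases hS with rfl | ⟨i, hi, rfl⟩
      · linarith
      · have h1 := hA i (mem_range.1 hi)
        have h2 := le_card_sdiff (Aset (X i) (M i)) W
        have h3 : W.card ≤ (W \ Aset (X i) (M i)).card + (Aset (X i) (M i)).card := by omega
        have h4 : (W.card : ℝ) ≤ (W \ Aset (X i) (M i)).card + (Aset (X i) (M i)).card := by
          exact_mod_cast h3
        linarith)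
  have hsig : ∀ j ≤ m, (Δ : ℝ) + 1 ≤ η * th * c * sig k s m j := by
    intro j hj
    have h1 := hsched.sig_ge hj
    have h2 : η * th * c * (th / 32 * s) ≤ η * th * c * sig k s m j :=
      mul_le_mul_of_nonneg_left h1 (by positivity)
    have h3 : ε * s = η * th * c * (th / 32 * s) := by rw [hεd]; ring
    linarith
  have hTd : ∀ w, ((nb Tr w).card : ℝ) ≤ Δ + 1 := fun w => by exact_mod_cast hTΔ w
  have hdem : ∀ w ∈ W, |(dg (inside (allE (Fin n)) W \ Tr) w : ℝ) -
      (∑ i ∈ range (KK k), dem (X i) (M i) w : ℕ) - s| ≤ 2 * (η * s) - 13 := by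
    intro w hw
    obtain ⟨E, hE3, hE⟩ := hX4 w
    have h1 := regc_dem hE3 hE
    rw [← hI] at h1
    have h2 := hX'2 w hw
    have h3 : (dg (inside (allE (Fin n)) W \ Tr) w : ℝ) + dg Tr w + 1 = W.card := by
      exact_mod_cast regc_dgR hTr hw
    have h4 : (dg Tr w : ℝ) ≤ Δ + 1 := hTd w
    have h5 : (0 : ℝ) ≤ dg Tr w := Nat.cast_nonneg _
    rw [abs_le] at h1 h2 ⊢
    constructor <;> linarith [h1.1, h1.2, h2.1, h2.2]
  have hlost : ∀ j ≤ m, ((inside (C j) W \ (C j ∩ (inside (allE (Fin n)) W \ Tr))).card : ℝ) ≤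
      nV (Fin n) * (c * sig k s m j) := by
    intro j hj
    refine (regc_lost (hP1 j hj).onC hTr hTΔ).trans
      (mul_le_mul_of_nonneg_left (le_trans (by exact_mod_cast hsig j hj) ?_) (nV_nonneg _))
    have h1 : η * th ≤ 1 := mul_le_one₀ (by linarith) hth.le hth1
    have h2 := (hsched.sig_pos j).le
    rw [mul_assoc (η * th)]
    exact mul_le_of_le_one_left (by positivity) h1
  obtain ⟨F, hF⟩ := hmach (Fin n) hn1 W (inside (allE (Fin n)) W \ Tr) k m s A C D X M
    (by rw [nV_fin]; exact hsched) ((on_inside on_allE).mono subset_rfl sdiff_subset) hP1 hP2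
    (by
      intro j hj w hw
      have hon : On univ (PP (A j) (C j) (D j)) :=
        ((hP1 j hj).onA.union (hP1 j hj).onB).union (hP1 j hj).onC
      have h1 := (hP3 j hj W (mem_insert_self _ _) w).1
      have h2 := hsig j hj
      have h3 := (hsched.sig_pos j).le
      have h4 : η * th * c * sig k s m j ≤ η * sig k s m j := by
        have : th * c ≤ 1 := mul_le_one₀ hth1 hc0.le hc2
        have h5 : η * th * c * sig k s m j = (η * sig k s m j) * (th * c) := by ring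
        rw [h5]
        exact mul_le_of_le_one_right (by positivity) this
      have h5 : 10 * (η * sig k s m j) ≤ η1 * sig k s m j := by
        rw [← mul_assoc]; exact mul_le_mul_of_nonneg_right hηa h3
      have h6 : 0 ≤ η * sig k s m j := by positivity
      have h7 := hTd w
      rw [dg, regc_nbR hon hw]
      have h8 : (((nb (PP (A j) (C j) (D j)) w ∩ W) \ nb Tr w).card : ℝ) ≤
          (nb (PP (A j) (C j) (D j)) w ∩ W).card := by exact_mod_cast card_le_card sdiff_subset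
      have h9 : ((nb (PP (A j) (C j) (D j)) w ∩ W).card : ℝ) ≤
          (((nb (PP (A j) (C j) (D j)) w ∩ W) \ nb Tr w).card : ℝ) + (nb Tr w).card := by
        have := le_card_sdiff (nb Tr w) (nb (PP (A j) (C j) (D j)) w ∩ W)
        exact_mod_cast (by omega : (nb (PP (A j) (C j) (D j)) w ∩ W).card ≤
          ((nb (PP (A j) (C j) (D j)) w ∩ W) \ nb Tr w).card + (nb Tr w).card)
      rw [abs_le] at h1 ⊢
      constructor <;> linarith [h1.1, h1.2])
    (by
      intro w hw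
      refine (hdem w hw).trans ?_
      have : 0 ≤ η * s := by positivity
      linarith)
    (by
      intro i hi
      refine ⟨(hX1 i hi).1, (hX1 i hi).2.1, ?_⟩
      rw [nV_fin]
      have := hA i hi
      have h0 : 0 ≤ η * n := by positivity
      linarith)
    (by
      intro j hj w hw
      obtain ⟨E, hE3, hE⟩ := hX4 w
      have h1 := hsched.sig_ge hj.le
      have h2 : sig k s m j = k / 2 ^ j / 4 := by
        rw [sig, if_pos hj, pow_add]; field_simp; norm_num
      obtain ⟨y, hy⟩ : ∃ y : ℝ, y = k / 2 ^ j := ⟨_, rfl⟩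
      rw [← hy] at h2 ⊢
      have h3 : ε * s ≤ th / 32 * s := mul_le_mul_of_nonneg_right hε32 hs0.le
      have h3' : 0 ≤ ε * s := by positivity
      have h4 := hX'4 y (by linarith) w hw
      have h5 : ((range (KK k)).filter fun i : ℕ => (i : ℝ) < y ∧ w ∈ Aset (X i) (M i)) ⊆
          (I.filter fun i : ℕ => (i : ℝ) < y ∧ w ∈ X' i) ∪ E := by
        intro i hi
        rw [mem_filter, mem_range] at hi
        by_cases hiE : i ∈ E
        · exact mem_union_right _ hiE
        · obtain ⟨b1, b2, b3⟩ := hE i hi.1 hiE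
          refine mem_union_left _ (mem_filter.2 ⟨?_, hi.2.1, ?_⟩)
          · rw [hI]; exact mem_filter.2 ⟨mem_range.2 hi.1, b1⟩
          · have := hi.2.2
            rw [Aset, mem_union, mem_tch, b2] at this
            exact b3.1 (this.resolve_right (lt_irrefl _))
      have h6 := (card_le_card h5).trans ((card_union_le _ _).trans (Nat.add_le_add_left hE3 _))
      have h7 : (((range (KK k)).filter fun i : ℕ =>
          (i : ℝ) < y ∧ w ∈ Aset (X i) (M i)).card : ℝ) ≤
          ((I.filter fun i : ℕ => (i : ℝ) < y ∧ w ∈ X' i).card : ℝ) + 3 := by exact_mod_cast h6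
      have h8 := hsig j hj.le
      have h9 : 20 ≤ η * y := by
        have e1 : ε * s = (η * (th / 32 * s)) * (th * c) := by rw [hεd]; ring
        have e2 : (η * (th / 32 * s)) * (th * c) ≤ η * (th / 32 * s) :=
          mul_le_of_le_one_right (by positivity) (mul_le_one₀ hth1 hc0.le hc2)
        have e3 : η * (th / 32 * s) ≤ η * y := mul_le_mul_of_nonneg_left (by linarith) hη.le
        linarith
      have h10 : 10 * (η * y) ≤ η1 * y := by
        have : 0 ≤ y := by rw [hy]; positivity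
        rw [← mul_assoc]; exact mul_le_mul_of_nonneg_right hηa this
      linarith)
    (by
      intro j hj i hi w hw
      obtain ⟨-, h1, h2⟩ := hP3 j hj (W \ Aset (X i) (M i))
        (mem_insert_of_mem (mem_image.2 ⟨i, mem_range.2 hi, rfl⟩)) w
      have h3 := hsig j hj
      have h4 := (hsched.sig_pos j).le
      have h5 : η * th * c * sig k s m j ≤ η * (th * sig k s m j) := by
        have h5 : η * th * c * sig k s m j = (η * (th * sig k s m j)) * c := by ring
        rw [h5]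
        exact mul_le_of_le_one_right (by positivity) hc2
      have h6 : 0 ≤ th * sig k s m j := by positivity
      have h7 : 100 * (η * (th * sig k s m j)) ≤ th * sig k s m j := by
        rw [← mul_assoc]; exact mul_le_of_le_one_left h6 hηb
      have h8 : (1 - 2 * η) * th * sig k s m j =
          th * sig k s m j - 2 * (η * (th * sig k s m j)) := by ring
      have h9 := hTd w
      rw [regc_nbR (hP1 j hj).onA hw, regc_resD (hP1 j hj).onB hw]
      have b1 := regc_card_sdiff (nb (A j) w) W (Aset (X i) (M i)) (nb Tr w)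
      have b2 := regc_card_sdiff (D j w) W (Aset (X i) (M i)) (nb Tr w)
      constructor <;> linarith)
    (by
      intro j hj
      refine (hP4 j hj).restrict subset_rfl inter_subset_left ((hlost j hj.le).trans ?_)
      have h1 := (hsched.sig_pos j).le
      have h2 := nV_nonneg (Fin n)
      have h3 : 4 * nV (Fin n) * sig k s m j / (10 ^ 11 * (g : ℝ) ^ 2) =
          4 * (nV (Fin n) * (c * sig k s m j)) := by rw [hc]; ring
      have h4 : 0 ≤ nV (Fin n) * (c * sig k s m j) := by positivity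
      linarith)
    (by
      refine hP5.restrict subset_rfl inter_subset_left ((hlost m le_rfl).trans ?_)
      have h0 : sig k s m m = s := by rw [sig, if_neg (lt_irrefl _)]
      have h2 := nV_nonneg (Fin n)
      have h3 : 4 * nV (Fin n) * s / (10 ^ 11 * (1 : ℝ) ^ 2) =
          4 * (nV (Fin n) * (1 / 10 ^ 11 * s)) := by ring
      have h4 : nV (Fin n) * (c * s) ≤ nV (Fin n) * (1 / 10 ^ 11 * s) :=
        mul_le_mul_of_nonneg_left (mul_le_mul_of_nonneg_right hc1 hs0.le) h2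
      have h5 : 0 ≤ nV (Fin n) * (1 / 10 ^ 11 * s) := by positivity
      rw [h0]
      linarith)
  have hJ1 : ((⌊3 * s⌋₊ : ℕ) : ℝ) ≤ 3 * s := Nat.floor_le (by positivity)
  have hJ2 : 3 * s < ((⌊3 * s⌋₊ : ℕ) : ℝ) + 1 := Nat.lt_floor_add_one _
  refine cfin (W := W) (Tr := Tr) (Δ := Δ) (ΔJ := ⌊3 * s⌋₊) (X := X) (M := M) (F := F)
    (by rw [Fintype.card_fin]; exact hk) hk2 (card_pos.1 (by omega)) ?_ hHT hTr ?_ hdef
    (fun i hi => ⟨(hX1 i hi).1, (hX1 i hi).2.1⟩) ?_
    (by rw [Fintype.card_fin]; exact fun h => (hX3 h).1) ?_ ?_ hF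
  · rw [Fintype.card_fin]
    have : Δ + 1 ≤ u := by
      have : (Δ : ℝ) + 1 ≤ u := by linarith
      exact_mod_cast this
    omega
  · intro v
    refine (hTΔ' v).trans ?_
    by_cases h : Δ < dg Hc v
    · have h1 : v ∈ univ.filter fun v => Δ < dg Hc v := mem_filter.2 ⟨mem_univ _, h⟩
      have h2 := (card_pos.2 ⟨v, h1⟩).trans_le hex
      have h3 : k % 2 = 1 := by
        rcases Nat.mod_two_eq_zero_or_one k with h3 | h3
        · rw [h3] at h2; omega
        · exact h3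
      rw [if_pos h, if_pos ⟨h3, (hX3 h3).2 h1⟩]
    · rw [if_neg h]; omega
  · intro i hi h2
    refine ⟨(hX2 i hi h2).1, ?_⟩
    have h3 := card_le_card (hX2 i hi h2).2
    have h4 := (hX'1 i).2
    rw [Fintype.card_fin]
    omega
  · intro w hw
    have h1 := (abs_le.1 (hdem w hw)).2
    have : (dg (inside (allE (Fin n)) W \ Tr) w : ℝ) + 2 ≤
        (∑ i ∈ range (KK k), dem (X i) (M i) w : ℕ) + ((⌊3 * s⌋₊ : ℕ) : ℝ) := by linarith
    exact_mod_cast this
  · intro w hw z hz hwz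
    obtain ⟨E, hE3, hE⟩ := hX4 w
    obtain ⟨E', hE3', hE'⟩ := hX4 z
    have h1 := hX'3 w hw z hz hwz
    have h2 : (I.filter fun i => w ∈ X' i ∧ z ∈ X' i) ⊆
        ((range (KK k)).filter fun i => dm k i = 2 ∧ w ∈ X i ∧ z ∈ X i) ∪ (E ∪ E') := by
      intro i hi
      rw [hI, mem_filter, mem_filter] at hi
      by_cases hiE : i ∈ E ∪ E'
      · exact mem_union_right _ hiE
      · rw [mem_union, not_or] at hiE
        exact mem_union_left _ (mem_filter.2 ⟨hi.1.1, hi.1.2,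
          (hE i (mem_range.1 hi.1.1) hiE.1).2.2.2 hi.2.1,
          (hE' i (mem_range.1 hi.1.1) hiE.2).2.2.2 hi.2.2⟩)
    have h3 := (card_le_card h2).trans ((card_union_le _ _).trans (Nat.add_le_add_left
      ((card_union_le _ _).trans (Nat.add_le_add hE3 hE3')) _))
    have h4 : ((I.filter fun i => w ∈ X' i ∧ z ∈ X' i).card : ℝ) ≤
        (((range (KK k)).filter fun i => dm k i = 2 ∧ w ∈ X i ∧ z ∈ X i).card : ℝ) + 6 := by
      exact_mod_cast h3
    have : 2 * ((⌊3 * s⌋₊ : ℕ) : ℝ) ≤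
        (((range (KK k)).filter fun i => dm k i = 2 ∧ w ∈ X i ∧ z ∈ X i).card : ℝ) := by linarith
    exact_mod_cast this

end

end Pool.Agent.MP_1376f1_pr
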