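import Pool.Agent.MP_1376f1_pr.Mg.IsoFar
import Pool.Agent.MP_1376f1_pr.Mg.RegA
import Pool.Agent.MP_1376f1_pr.Mg.RegC

/-!
The sparse range and the dense end hold with high probability.
-/

set_option autoImplicit false
set_option linter.unusedSectionVars false

namespace Pool.Agent.MP_1376f1_pr

open Finset MP_d802e4_co
open scoped Classical

noncomputable section

section Gen

variable {V Λ : Type} [Fintype V] [DecidableEq V] [Fintype Λ] {p : Λ → ℝ}

lemma pa_dg_eq (ω : Sym2 V → Λ) (L : Finset Λ) (v : V) :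
    dg (gr ω L) v = ((univ.erase v).filter fun u => ω s(v, u) ∈ L).card := by
  unfold dg
  congr 1
  ext u
  simp only [mem_nb, mem_gr, Sym2.mk_isDiag_iff, mem_filter, mem_erase, mem_univ, and_true]
  exact and_congr_left fun _ => ne_comm

lemma pa_inj (v : V) : Set.InjOn (fun u : V => s(v, u)) (univ.erase v : Finset V) :=
  fun _ _ _ _ h => Sym2.congr_right.1 h

lemma pa_sum (L : Finset Λ) (v : V) :
    ∑ _u ∈ univ.erase v, mass p L = (nV V - 1) * mass p L := by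
  have h : 1 ≤ Fintype.card V := Fintype.card_pos_iff.2 ⟨v⟩
  rw [sum_const, card_erase_of_mem (mem_univ v), card_univ, nsmul_eq_mul, Nat.cast_sub h, nV]
  simp

lemma pa_deg_low (hp : IsP p) (L : Finset Λ) (v : V) {μ t l : ℝ}
    (hμ : μ ≤ (nV V - 1) * mass p L) (ht : 0 ≤ t) :
    Pr p (fun ω : Sym2 V → Λ => (dg (gr ω L) v : ℝ) ≤ l) ≤
      Real.exp (t * l - (1 - Real.exp (-t)) * μ) := by
  have := cnt_low hp (univ.erase v) (fun u : V => s(v, u)) (pa_inj v) (fun _ => L)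
    (μ := μ) (t := t) (l := l) (by rw [pa_sum]; exact hμ) ht
  simpa only [pa_dg_eq] using this

lemma pa_deg_up (hp : IsP p) (L : Finset Λ) (v : V) {μ t l : ℝ}
    (hμ : (nV V - 1) * mass p L ≤ μ) (ht : 0 ≤ t) :
    Pr p (fun ω : Sym2 V → Λ => l ≤ (dg (gr ω L) v : ℝ)) ≤
      Real.exp ((Real.exp t - 1) * μ - t * l) := by
  have := cnt_up hp (univ.erase v) (fun u : V => s(v, u)) (pa_inj v) (fun _ => L)
    (μ := μ) (t := t) (l := l) (by rw [pa_sum]; exact hμ) ht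
  simpa only [pa_dg_eq] using this

lemma pa_union {W : Type} [Fintype W] [DecidableEq W] (hp : IsP p) (E : V → (W → Λ) → Prop)
    {b : ℝ} (h : ∀ v, Pr p (E v) ≤ b) : Pr p (fun ω => ∃ v, E v ω) ≤ nV V * b := by
  have h1 := Pr_exists hp (univ : Finset V) E
  simp only [mem_univ, true_and] at h1
  refine h1.trans ((sum_le_sum fun v _ => h v).trans (le_of_eq ?_))
  rw [sum_const, card_univ, nsmul_eq_mul, nV]

lemma pa_or {W : Type} [Fintype W] [DecidableEq W] (hp : IsP p) {E F : (W → Λ) → Prop}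
    {a b : ℝ} (h1 : Pr p E ≤ a) (h2 : Pr p F ≤ b) : Pr p (fun ω => E ω ∨ F ω) ≤ a + b :=
  (Pr_or hp E F).trans (add_le_add h1 h2)

end Gen

lemma pa_exp_le {q : ℝ} (h0 : 0 ≤ q) (h1 : q ≤ 1 / 6) : Real.exp (-(1.2 * q)) ≤ 1 - q := by
  have h2 := Real.add_one_le_exp (1.2 * q)
  rw [Real.exp_neg, inv_le_iff_one_le_mul₀ (Real.exp_pos _)]
  nlinarith

/-- facts on large `n` -/
lemma pa_big {n : ℕ} (hL : (10 : ℝ) ^ 16 ≤ Real.log n) :
    0 < n ∧ (n : ℝ) = Real.exp (Real.log n) ∧ 100 * Real.log n ≤ n ∧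
      √(n : ℝ) = Real.exp (Real.log n / 2) ∧ Real.log n ^ 2 ≤ √(n : ℝ) := by
  have hn : 0 < n := by
    rcases Nat.eq_zero_or_pos n with h | h
    · rw [h] at hL; norm_num at hL
    · exact h
  have hN : (n : ℝ) = Real.exp (Real.log n) := (Real.exp_log (by exact_mod_cast hn)).symm
  have hs : √(n : ℝ) = Real.exp (Real.log n / 2) := by
    rw [Real.exp_half, ← hN]
  generalize Real.log n = L at *
  have h1 := Real.pow_div_factorial_le_exp L (by linarith) 2
  have h2 := Real.pow_div_factorial_le_exp (L / 2) (by linarith) 3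
  norm_num [Nat.factorial] at h1 h2
  refine ⟨hn, hN, ?_, hs, ?_⟩
  · rw [hN]; nlinarith
  · rw [hs]
    have h3 : 0 ≤ L ^ 2 := by positivity
    nlinarith

lemma pa_mass {n : ℕ} (hn : 0 < n) {α β : ℝ} (h0 : 0 ≤ α) (h1 : α ≤ β) (h2 : β ≤ n) :
    β - α - 1 ≤ n * mass (unif (n ^ 4)) (lint n (n ^ 4) α β) ∧
      n * mass (unif (n ^ 4)) (lint n (n ^ 4) α β) ≤ β - α + 1 := by
  have h := mass_lint hn (pow_pos hn 4) h0 h1 h2
  have hN : (1 : ℝ) ≤ n := by exact_mod_cast hn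
  have h3 : (n : ℝ) * (1 / ((n ^ 4 : ℕ) : ℝ)) ≤ 1 := by
    push_cast
    rw [mul_one_div, div_le_one (by positivity)]
    exact le_self_pow₀ hN (by norm_num)
  rw [abs_le] at h
  have e : (n : ℝ) * ((β - α) / n) = β - α := by field_simp
  have h4 := mul_le_mul_of_nonneg_left h.1 (by positivity : (0 : ℝ) ≤ n)
  have h5 := mul_le_mul_of_nonneg_left h.2 (by positivity : (0 : ℝ) ≤ n)
  rw [mul_sub, e] at h4 h5
  constructor <;> linarith

/-- the common error bound -/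
def paErr (L : ℝ) : ℝ := 10 ^ 6 * L ^ 4 * Real.exp (-(th / 20 * L))

lemma pa_err_ev {δ : ℝ} (hδ : 0 < δ) (c : ℝ) : ∃ n0 : ℕ, ∀ n ≥ n0,
    paErr (Real.log (n : ℕ)) ≤ δ ∧ c ≤ Real.log (n : ℕ) := by
  have hl : Filter.Tendsto (fun n : ℕ => Real.log n) Filter.atTop Filter.atTop :=
    Real.tendsto_log_atTop.comp tendsto_natCast_atTop_atTop
  have hc : 0 < th / 20 := by have := th_pos; positivity
  have h1 := (isLittleO_pow_exp_pos_mul_atTop 4 hc).bound (c := δ / 10 ^ 6) (by positivity)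
  have h2 : ∀ᶠ L : ℝ in Filter.atTop, paErr L ≤ δ ∧ c ≤ L := by
    filter_upwards [h1, Filter.eventually_ge_atTop c] with L h3 h4
    refine ⟨?_, h4⟩
    rw [Real.norm_of_nonneg (by positivity), Real.norm_of_nonneg (Real.exp_pos _).le] at h3
    unfold paErr
    rw [Real.exp_neg, ← div_eq_mul_inv, div_le_iff₀ (Real.exp_pos _)]
    linarith
  exact Filter.eventually_atTop.1 (hl.eventually h2)

lemma pa_le_err {L A c : ℝ} (hL : 1 ≤ L) (hA : A ≤ 10 ^ 6 * L ^ 4) (hc : c ≤ -(th / 20 * L)) :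
    A * Real.exp c ≤ paErr L :=
  mul_le_mul hA (Real.exp_le_exp.2 hc) (Real.exp_pos _).le (by positivity)

lemma pa_inv_err {n : ℕ} (hL : (10 : ℝ) ^ 16 ≤ Real.log n) :
    2 / (n : ℝ) ^ 7 ≤ paErr (Real.log n) := by
  obtain ⟨hn, hN, -⟩ := pa_big hL
  have hth : th = 1 / 10 ^ 13 := rfl
  have hN1 : (1 : ℝ) ≤ n := by exact_mod_cast hn
  have h1 : (1 : ℝ) ≤ Real.log n := by linarith
  have h4 : (1 : ℝ) ≤ Real.log n ^ 4 := one_le_pow₀ h1
  refine le_trans ?_ (pa_le_err (A := 2) (c := -Real.log n) h1 (by linarith) (by rw [hth]; linarith))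
  rw [Real.exp_neg, ← hN, ← div_eq_mul_inv]
  exact div_le_div_of_nonneg_left (by norm_num) (by positivity) (le_self_pow₀ hN1 (by norm_num))

/-- many isolated vertices -/
lemma pa_iso {n : ℕ} (hL : (10 : ℝ) ^ 16 ≤ Real.log n) (L : Finset (Fin (n ^ 4))) {c : ℝ}
    (hc : c ≤ 0.7) (hm : n * mass (unif (n ^ 4)) L ≤ c * Real.log n + 1) :
    Pr (unif (n ^ 4)) (fun ω : Sym2 (Fin n) → Fin (n ^ 4) =>
      ((univ.filter fun v => dg (gr ω L) v = 0).card : ℝ) ≤
        Real.exp ((1 - 1.2 * c) * Real.log n - 1.2) / 2) ≤ 2 * paErr (Real.log n) := by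
  obtain ⟨hn, hN, h100, -⟩ := pa_big hL
  have hp := isP_unif (pow_pos hn 4)
  have hth : th = 1 / 10 ^ 13 := rfl
  have hN0 : (0 : ℝ) < n := by exact_mod_cast hn
  have h1 : (1 : ℝ) ≤ Real.log n := by linarith
  have h4 : Real.log n ≤ Real.log n ^ 4 := le_self_pow₀ h1 (by norm_num)
  have hq0 := mass_nonneg hp L
  set q := mass (unif (n ^ 4)) L with hq
  have hcL : c * Real.log n ≤ 0.7 * Real.log n := mul_le_mul_of_nonneg_right hc (by linarith)
  have hq6 : q ≤ 1 / 6 := by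
    by_contra h
    push Not at h
    nlinarith
  have hn2 : 2 ≤ n := by
    have : (2 : ℝ) ≤ n := by linarith
    exact_mod_cast this
  have hμ : Real.exp ((1 - 1.2 * c) * Real.log n - 1.2) ≤ n * (1 - q) ^ (n - 1) := by
    have h5 : Real.exp (-(1.2 * q)) ^ n ≤ (1 - q) ^ n :=
      pow_le_pow_left₀ (Real.exp_pos _).le (pa_exp_le hq0 hq6) n
    have h6 : (1 - q) ^ n ≤ (1 - q) ^ (n - 1) :=
      pow_le_pow_of_le_one (by linarith) (by linarith) (Nat.sub_le _ _)
    rw [← Real.exp_nat_mul] at h5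
    calc Real.exp ((1 - 1.2 * c) * Real.log n - 1.2)
        ≤ Real.exp (Real.log n + n * -(1.2 * q)) := Real.exp_le_exp.2 (by linarith)
      _ = n * Real.exp (n * -(1.2 * q)) := by rw [Real.exp_add, ← hN]
      _ ≤ _ := mul_le_mul_of_nonneg_left (h5.trans h6) hN0.le
  have h7 := iso_prob (V := Fin n) hp L hq.symm (by linarith) (by simpa using hn2) rfl
  simp only [nV_fin, Fintype.card_fin] at h7
  refine (Pr_mono hp fun ω h => h.trans (by linarith)).trans (h7.trans ?_)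
  have h8 : 4 / (n * (1 - q) ^ (n - 1)) ≤ paErr (Real.log n) := by
    refine le_trans ?_ (pa_le_err (A := 4) (c := -((1 - 1.2 * c) * Real.log n - 1.2)) h1
      (by linarith) (by rw [hth]; linarith))
    rw [Real.exp_neg, ← div_eq_mul_inv]
    exact div_le_div_of_nonneg_left (by norm_num) (Real.exp_pos _) hμ
  have h9 : 8 * q ≤ paErr (Real.log n) := by
    refine le_trans ?_ (pa_le_err (A := 16 * Real.log n) (c := -Real.log n) h1
      (by linarith) (by rw [hth]; linarith))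
    rw [Real.exp_neg, ← hN, ← div_eq_mul_inv, le_div_iff₀ hN0]
    linarith
  linarith

lemma pa_exp_one : Real.exp 1 ≤ 3 := by
  have := Real.exp_one_lt_d9; linarith

lemma pa_exp_neg_one : Real.exp (-1) ≤ 1 / 2 := by
  have := Real.add_one_le_exp (1 : ℝ)
  rw [Real.exp_neg, inv_le_comm₀ (Real.exp_pos _) (by norm_num)]
  linarith

lemma pa_exp_neg_half : Real.exp (-(1 / 2)) ≤ 2 / 3 := by
  have := Real.add_one_le_exp (1 / 2 : ℝ)
  rw [Real.exp_neg, inv_le_comm₀ (Real.exp_pos _) (by norm_num)]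
  linarith

lemma pa_exp_neg_five : Real.exp (-5) ≤ 1 / 100 := by
  have h1 := Real.exp_one_gt_d9
  have h2 : Real.exp 5 = Real.exp 1 ^ 5 := by rw [← Real.exp_nat_mul]; norm_num
  have h3 : (2.7 : ℝ) ^ 5 ≤ Real.exp 1 ^ 5 := pow_le_pow_left₀ (by norm_num) (by linarith) 5
  rw [Real.exp_neg, inv_le_comm₀ (Real.exp_pos _) (by norm_num), h2]
  refine le_trans ?_ h3
  norm_num

/-- all degrees of `G1` are not too small -/
lemma pa_E2 {n : ℕ} (hL : (10 : ℝ) ^ 16 ≤ Real.log n) :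
    Pr (unif (n ^ 4)) (fun ω : Sym2 (Fin n) → Fin (n ^ 4) => ∃ v,
      (dg (gr ω (lint n (n ^ 4) 0 (11 * Real.log n))) v : ℝ) ≤ th * (0.7 * Real.log n) / 8) ≤
      paErr (Real.log n) := by
  obtain ⟨hn, hN, h100, -⟩ := pa_big hL
  have hp := isP_unif (pow_pos hn 4)
  have hth : th = 1 / 10 ^ 13 := rfl
  have h1 : (1 : ℝ) ≤ Real.log n := by linarith
  have h4 : (1 : ℝ) ≤ Real.log n ^ 4 := one_le_pow₀ h1
  have hm := pa_mass hn (α := 0) (β := 11 * Real.log n) le_rfl (by linarith) (by linarith)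
  have hm1 := mass_le_one hp (lint n (n ^ 4) 0 (11 * Real.log n))
  have h5 := pa_union hp _ fun v : Fin n => pa_deg_low hp (lint n (n ^ 4) 0 (11 * Real.log n)) v
    (μ := 10 * Real.log n) (t := 1) (l := th * (0.7 * Real.log n) / 8)
    (by rw [nV_fin]; linarith [hm.1]) zero_le_one
  refine h5.trans ?_
  rw [nV_fin]
  nth_rewrite 1 [hN]
  rw [← Real.exp_add, ← one_mul (Real.exp _)]
  refine pa_le_err h1 (by linarith) ?_
  have h6 := pa_exp_neg_one
  rw [hth]
  nlinarith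

lemma pa_E3 {n : ℕ} (hL : (10 : ℝ) ^ 16 ≤ Real.log n) :
    Pr (unif (n ^ 4)) (fun ω : Sym2 (Fin n) → Fin (n ^ 4) =>
      ¬ Far (gr ω (lint n (n ^ 4) 0 (11 * Real.log n)))
        (low (gr ω (lint n (n ^ 4) 0 (0.7 * Real.log n))) (th * (0.7 * Real.log n)))) ≤
      paErr (Real.log n) := by
  obtain ⟨hn, hN, h100, -⟩ := pa_big hL
  have hp := isP_unif (pow_pos hn 4)
  have hth : th = 1 / 10 ^ 13 := rfl
  have h1 : (1 : ℝ) ≤ Real.log n := by linarith
  have hm := pa_mass hn (α := 0) (β := 11 * Real.log n) le_rfl (by linarith) (by linarith)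
  have hm0 := pa_mass hn (α := 0) (β := 0.7 * Real.log n) le_rfl (by linarith) (by linarith)
  have hm1 := mass_le_one hp (lint n (n ^ 4) 0 (0.7 * Real.log n))
  have hm2 := mass_nonneg hp (lint n (n ^ 4) 0 (11 * Real.log n))
  have hn5 : 5 ≤ n := by
    have : (5 : ℝ) ≤ n := by linarith
    exact_mod_cast this
  have h5 := far_prob (V := Fin n) hp (lint n (n ^ 4) 0 (0.7 * Real.log n))
    (lint n (n ^ 4) 0 (11 * Real.log n)) (j := th * (0.7 * Real.log n))
    (π := Real.exp (-(0.65 * Real.log n))) (by simpa using hn5) (by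
      rw [nV_fin, Real.exp_le_exp, hth]
      have h6 := pa_exp_neg_five
      have h7 : 0.69 * Real.log n ≤
          ((n : ℝ) - 5) * mass (unif (n ^ 4)) (lint n (n ^ 4) 0 (0.7 * Real.log n)) := by
        linarith [hm0.1]
      nlinarith)
  refine h5.trans ?_
  rw [nV_fin]
  have h8 : ((n : ℝ) * mass (unif (n ^ 4)) (lint n (n ^ 4) 0 (11 * Real.log n)) + 1) ^ 4 ≤
      (13 * Real.log n) ^ 4 :=
    pow_le_pow_left₀ (by positivity) (by linarith [hm.2]) 4
  have h9 : (n : ℝ) * Real.exp (-(0.65 * Real.log n)) ^ 2 = Real.exp (-(0.3 * Real.log n)) := by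
    nth_rewrite 1 [hN]
    rw [← Real.exp_nat_mul, ← Real.exp_add]
    congr 1; push_cast; ring
  calc _ = 4 * ((n : ℝ) * mass (unif (n ^ 4)) (lint n (n ^ 4) 0 (11 * Real.log n)) + 1) ^ 4 *
        ((n : ℝ) * Real.exp (-(0.65 * Real.log n)) ^ 2) := by ring
    _ ≤ _ := by
      rw [h9]
      have h4 : (0 : ℝ) ≤ Real.log n ^ 4 := by positivity
      refine pa_le_err h1 ?_ (by rw [hth]; linarith)
      rw [mul_pow] at h8
      linarith

lemma pa_E4 : ∃ n0 : ℝ, ∀ n : ℕ, n0 ≤ n → (10 : ℝ) ^ 16 ≤ Real.log n →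
    Pr (unif (n ^ 4)) (fun ω : Sym2 (Fin n) → Fin (n ^ 4) =>
      ¬ Sparse (gr ω (lint n (n ^ 4) 0 (11 * Real.log n))) (3 * (n / Real.log n ^ 2)) 4) ≤
      paErr (Real.log n) := by
  obtain ⟨n0, h0⟩ := sparse_prob
  refine ⟨n0, fun n hn0 hL => ?_⟩
  obtain ⟨hn, hN, h100, -, hs⟩ := pa_big hL
  have hp := isP_unif (pow_pos hn 4)
  have hN0 : (0 : ℝ) < n := by exact_mod_cast hn
  have h1 : (1 : ℝ) ≤ Real.log n := by linarith
  have hm := pa_mass hn (α := 0) (β := 11 * Real.log n) le_rfl (by linarith) (by linarith)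
  have hL2 : (10 : ℝ) ^ 16 ≤ Real.log n ^ 2 := by nlinarith
  have hL0 : (0 : ℝ) < Real.log n ^ 2 := by positivity
  have h5 := h0 (Fin n) (Fin (n ^ 4)) (unif (n ^ 4)) hp (by rw [nV_fin]; exact hn0)
    (lint n (n ^ 4) 0 (11 * Real.log n)) (12 * Real.log n / n) (3 * (n / Real.log n ^ 2)) 4
    (by rw [le_div_iff₀ hN0]; linarith [hm.2]) (by positivity) le_rfl
    (by
      rw [nV_fin, ← mul_div_assoc, le_div_iff₀ hL0]
      have h6 := Real.mul_self_sqrt hN0.le
      have h7 := mul_le_mul_of_nonneg_left hs (Real.sqrt_nonneg (n : ℝ))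
      linarith)
    (by
      rw [nV_fin, ← mul_div_assoc, div_le_iff₀ hL0]
      nlinarith)
    (by
      rw [nV_fin, show (4 : ℝ) = ((4 : ℕ) : ℝ) by norm_num, Real.rpow_natCast]
      have e : Real.exp 1 * n / (3 * (n / Real.log n ^ 2)) *
          (Real.exp 1 * (3 * (n / Real.log n ^ 2)) * (12 * Real.log n / n) / (2 * ((4 : ℕ) : ℝ))) ^ 4 =
          Real.exp 1 ^ 5 * (4.5 ^ 4 / 3) / Real.log n ^ 2 := by
        push_cast; field_simp; norm_num
      rw [e, Real.exp_neg, div_le_iff₀ hL0, inv_mul_eq_div, le_div_iff₀ (Real.exp_pos _)]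
      have h6 : Real.exp 1 ^ 6 ≤ 3 ^ 6 := pow_le_pow_left₀ (Real.exp_pos _).le pa_exp_one 6
      nlinarith)
  rw [nV_fin] at h5
  refine h5.trans (le_trans ?_ (pa_inv_err hL))
  exact div_le_div_of_nonneg_right (by norm_num) (by positivity)

lemma pa_E5 {n : ℕ} (hL : (10 : ℝ) ^ 16 ≤ Real.log n) :
    Pr (unif (n ^ 4)) (fun ω : Sym2 (Fin n) → Fin (n ^ 4) =>
      n / Real.log n ^ 2 / 2 ≤ ((low (gr ω (lint n (n ^ 4) 0 (2 * th * (0.7 * Real.log n))))
        (th * (0.7 * Real.log n))).card : ℝ)) ≤ paErr (Real.log n) := by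
  obtain ⟨hn, hN, h100, -⟩ := pa_big hL
  have hp := isP_unif (pow_pos hn 4)
  have hth : th = 1 / 10 ^ 13 := rfl
  have hN0 : (0 : ℝ) < n := by exact_mod_cast hn
  have h1 : (1 : ℝ) ≤ Real.log n := by linarith
  have hm := pa_mass hn (α := 0) (β := 2 * th * (0.7 * Real.log n)) le_rfl
    (by rw [hth]; linarith) (by rw [hth]; linarith)
  have hm1 := mass_le_one hp (lint n (n ^ 4) 0 (2 * th * (0.7 * Real.log n)))
  refine (markov hp (fun ω => Nat.cast_nonneg _) (by positivity)).trans ?_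
  have h5 := Ex_card (p := unif (n ^ 4)) (univ : Finset (Fin n))
    (fun v (ω : Sym2 (Fin n) → Fin (n ^ 4)) =>
      (dg (gr ω (lint n (n ^ 4) 0 (2 * th * (0.7 * Real.log n)))) v : ℝ) ≤ th * (0.7 * Real.log n))
  have h6 : Ex (unif (n ^ 4)) (fun ω : Sym2 (Fin n) → Fin (n ^ 4) =>
      ((low (gr ω (lint n (n ^ 4) 0 (2 * th * (0.7 * Real.log n))))
        (th * (0.7 * Real.log n))).card : ℝ)) ≤ n * Real.exp (-(th / 20 * Real.log n)) := by
    refine (le_of_eq ((Ex_congr fun ω => ?_).trans h5)).trans ?_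
    · unfold low; congr
    · refine (sum_le_sum (g := fun _ => Real.exp (-(th / 20 * Real.log n))) fun v _ => ?_).trans
        (by simp)
      refine (pa_deg_low hp _ v (μ := 1.9 * th * (0.7 * Real.log n)) (t := 1 / 2)
        (by rw [nV_fin]; have := hm.1; rw [hth] at *; linarith) (by norm_num)).trans ?_
      rw [Real.exp_le_exp, hth]
      have h7 := pa_exp_neg_half
      nlinarith
  rw [div_le_iff₀ (by positivity)]
  refine h6.trans ?_
  have h8 := pa_le_err (A := 2 * Real.log n ^ 2) (c := -(th / 20 * Real.log n)) h1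
    (by have := pow_le_pow_right₀ h1 (show 2 ≤ 4 by norm_num); nlinarith) le_rfl
  have h9 := mul_le_mul_of_nonneg_right h8 (by positivity : (0 : ℝ) ≤ n / Real.log n ^ 2 / 2)
  refine le_trans (le_of_eq ?_) h9
  field_simp

lemma pa_E6 : ∃ n0 : ℝ, ∀ n : ℕ, n0 ≤ n → (10 : ℝ) ^ 16 ≤ Real.log n →
    Pr (unif (n ^ 4)) (fun ω : Sym2 (Fin n) → Fin (n ^ 4) =>
      ¬ PoolOK univ (0.7 * Real.log n) 1 5 (gr ω (lint n (n ^ 4) 0 (2 * th * (0.7 * Real.log n))))
        (gr ω (lint n (n ^ 4) 0 (11 * Real.log n)))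
        (gr ω (lint n (n ^ 4) 0 (0.7 * Real.log n)))) ≤ paErr (Real.log n) := by
  obtain ⟨n0, h0⟩ := pool_prob (γ := 1) le_rfl
  refine ⟨n0, fun n hn0 hL => ?_⟩
  obtain ⟨hn, hN, h100, -⟩ := pa_big hL
  have hp := isP_unif (pow_pos hn 4)
  have hth : th = 1 / 10 ^ 13 := rfl
  have hN0 : (0 : ℝ) < n := by exact_mod_cast hn
  have hm := pa_mass hn (α := 0) (β := 2 * th * (0.7 * Real.log n)) le_rfl
    (by rw [hth]; linarith) (by rw [hth]; linarith)
  have hm1 := pa_mass hn (α := 0) (β := 11 * Real.log n) le_rfl (by linarith) (by linarith)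
  have hm0 := pa_mass hn (α := 0) (β := 0.7 * Real.log n) le_rfl (by linarith) (by linarith)
  have h5 := h0 (Fin n) (Fin (n ^ 4)) (unif (n ^ 4)) hp (by rw [nV_fin]; exact hn0)
    (lint n (n ^ 4) 0 (2 * th * (0.7 * Real.log n))) (lint n (n ^ 4) 0 (11 * Real.log n))
    (lint n (n ^ 4) 0 (0.7 * Real.log n)) (0.7 * Real.log n) (by rw [nV_fin]; linarith)
    (by rw [nV_fin, le_div_iff₀ hN0]; have := hm.2; rw [hth] at *; linarith)
    (by rw [nV_fin, le_div_iff₀ hN0]; linarith [hm1.2])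
    (by rw [nV_fin, div_le_iff₀ (by positivity)]; linarith [hm0.1])
  rw [nV_fin] at h5
  exact h5.trans (pa_inv_err hL)

lemma pa_hasA_zero {V : Type} [Fintype V] [DecidableEq V] (G : Finset (Sym2 V)) : HasA G 0 :=
  ⟨fun _ => ∅, ∅, by simp, by simp, by simp⟩

lemma pa_two {n : ℕ} (hL : (10 : ℝ) ^ 16 ≤ Real.log n) {G0 G : Finset (Sym2 (Fin n))} (h : G ⊆ G0)
    (g1 : Real.exp ((1 - 1.2 * 0.7) * Real.log n - 1.2) / 2 <
      ((univ.filter fun v => dg G0 v = 0).card : ℝ)) :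
    2 ≤ (univ.filter fun v => dg G v < 1).card := by
  have h1 := Real.add_one_le_exp ((1 - 1.2 * 0.7) * Real.log n - 1.2)
  have h2 : 2 ≤ (univ.filter fun v => dg G0 v = 0).card := by
    have : (2 : ℝ) ≤ (univ.filter fun v => dg G0 v = 0).card := by linarith
    exact_mod_cast this
  refine h2.trans (card_le_card fun v hv => mem_filter.2 ⟨mem_univ _, ?_⟩)
  have h3 := dg_mono h v
  have h4 := (mem_filter.1 hv).2
  omega

/-- The sparse range: union bound over six bad events, then `regA`. -/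
theorem probA {δ : ℝ} (hδ : 0 < δ) : ∃ n0 : ℕ, ∀ n ≥ n0,
    Pr (unif (n ^ 4)) (fun ω : Sym2 (Fin n) → Fin (n ^ 4) => ∃ P ≤ n ^ 4, ∃ k,
      Tight (thr ω P) k ∧
      (n * ((P : ℝ) / (n ^ 4 : ℕ)) ≤ 0.7 * Real.log n ∨ (k : ℝ) ≤ th * (0.7 * Real.log n) / 8) ∧
      ¬ HasA (thr ω P) k) ≤ δ := by
  obtain ⟨ρ0, hA⟩ := regA
  obtain ⟨n4, h4⟩ := pa_E4
  obtain ⟨n6, h6⟩ := pa_E6
  obtain ⟨n1, h1⟩ := pa_err_ev (δ := δ / 7) (by positivity) (max (10 ^ 16) (2 * |ρ0|))
  refine ⟨max n1 ⌈max n4 n6⌉₊, fun n hn => ?_⟩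
  obtain ⟨hε, hc⟩ := h1 n ((le_max_left _ _).trans hn)
  have hL : (10 : ℝ) ^ 16 ≤ Real.log n := (le_max_left _ _).trans hc
  have hρ : ρ0 ≤ 0.7 * Real.log n := by
    have h7 := (le_max_right _ _).trans hc
    have h8 := le_abs_self ρ0
    have h9 := abs_nonneg ρ0
    linarith
  have hn46 : max n4 n6 ≤ n := Nat.ceil_le.1 ((le_max_right _ _).trans hn)
  obtain ⟨hn0, hN, h100, -⟩ := pa_big hL
  have hM := pow_pos hn0 4
  have hp := isP_unif hM
  have hth : th = 1 / 10 ^ 13 := rfl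
  have hN0 : (0 : ℝ) < n := by exact_mod_cast hn0
  have hm0 := pa_mass hn0 (α := 0) (β := 0.7 * Real.log n) le_rfl (by linarith) (by linarith)
  have e1 := pa_iso hL (lint n (n ^ 4) 0 (0.7 * Real.log n)) (c := 0.7) le_rfl
    (by linarith [hm0.2])
  have hall := pa_or hp e1 (pa_or hp (pa_E2 hL) (pa_or hp (pa_E3 hL)
    (pa_or hp (h4 n ((le_max_left _ _).trans hn46) hL) (pa_or hp (pa_E5 hL)
      (h6 n ((le_max_right _ _).trans hn46) hL)))))
  refine (Pr_mono hp ?_).trans (hall.trans (by linarith))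
  rintro ω ⟨P, hP, k, hk, hcase, hnA⟩
  by_contra hcon
  simp only [not_or, not_not, not_le, not_exists] at hcon
  obtain ⟨g1, g2, g3, g4, g5, g6⟩ := hcon
  apply hnA
  rcases le_or_gt (n * ((P : ℝ) / (n ^ 4 : ℕ))) (0.7 * Real.log n) with h | h
  · have h7 := pa_two hL (thr_subset_gr_lint hn0 hM ω h) g1
    have h9 : k = 0 := by
      by_contra h9
      have h8 := h7.trans ((card_le_card fun v hv => mem_filter.2 ⟨mem_univ _,
        (mem_filter.1 hv).2.trans_le (Nat.pos_of_ne_zero h9)⟩).trans hk.1.card_le)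
      omega
    rw [h9]; exact pa_hasA_zero _
  · have hk' : (k : ℝ) ≤ th * (0.7 * Real.log n) / 8 := hcase.resolve_left (not_le.2 h)
    have h7 : n * ((P : ℝ) / (n ^ 4 : ℕ)) ≤ 11 * Real.log n := by
      by_contra h8
      obtain ⟨v, hv⟩ := hk.2
      have h9 := dg_mono (gr_lint_subset_thr hn0 hM ω (α := 0) (not_le.1 h8).le) v
      have h10 : (dg (gr ω (lint n (n ^ 4) 0 (11 * Real.log n))) v : ℝ) ≤ k := by
        exact_mod_cast h9.trans hv
      linarith [g2 v]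
    refine hA (Fin n) (thr ω P) _ _ _ k (0.7 * Real.log n) (n / Real.log n ^ 2) hρ
      (by rw [nV_fin]; linarith) (on_gr ω _) (gr_mono ω fun l hl => ?_)
      (gr_lint_subset_thr hn0 hM ω h.le) (thr_subset_gr_lint hn0 hM ω h7) hk.1 hk' g3 g4
      (by linarith) ?_ g6
    · rw [mem_lint] at hl ⊢
      refine ⟨hl.1, hl.2.trans_le (mul_le_mul_of_nonneg_right ?_ (Nat.cast_nonneg _))⟩
      rw [hth]; linarith
    · rw [nV_fin]
      exact div_le_div_of_nonneg_left hN0.le (by positivity) (by nlinarith)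

/-- When the minimum degree is one there is no isolated edge. -/
theorem probE {δ : ℝ} (hδ : 0 < δ) : ∃ n0 : ℕ, ∀ n ≥ n0,
    Pr (unif (n ^ 4)) (fun ω : Sym2 (Fin n) → Fin (n ^ 4) => ∃ P ≤ n ^ 4,
      (∀ v, 1 ≤ dg (thr ω P) v) ∧
      ∃ u v, s(u, v) ∈ thr ω P ∧ dg (thr ω P) u ≤ 1 ∧ dg (thr ω P) v ≤ 1) ≤ δ := by
  obtain ⟨n1, h1⟩ := pa_err_ev (δ := δ / 4) (by positivity) (10 ^ 16)
  refine ⟨n1, fun n hn => ?_⟩
  obtain ⟨hε, hL⟩ := h1 n hn
  obtain ⟨hn0, hN, h100, -⟩ := pa_big hL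
  have hM := pow_pos hn0 4
  have hp := isP_unif hM
  have hth : th = 1 / 10 ^ 13 := rfl
  have hm0 := pa_mass hn0 (α := 0) (β := 0.7 * Real.log n) le_rfl (by linarith) (by linarith)
  have e1 := pa_iso hL (lint n (n ^ 4) 0 (0.7 * Real.log n)) (c := 0.7) le_rfl
    (by linarith [hm0.2])
  refine (Pr_mono hp ?_).trans ((pa_or hp e1 (pa_or hp (pa_E2 hL) (pa_E3 hL))).trans (by linarith))
  rintro ω ⟨P, hP, hk, u, v, huv, hu, hv⟩
  by_contra hcon
  simp only [not_or, not_not, not_le, not_exists] at hcon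
  obtain ⟨g1, g2, g3⟩ := hcon
  rcases le_or_gt (n * ((P : ℝ) / (n ^ 4 : ℕ))) (0.7 * Real.log n) with h | h
  · have h7 := pa_two hL (thr_subset_gr_lint hn0 hM ω h) g1
    obtain ⟨w, hw⟩ := card_pos.1 (lt_of_lt_of_le two_pos h7)
    exact absurd (hk w) (not_le.2 (mem_filter.1 hw).2)
  · have h7 : n * ((P : ℝ) / (n ^ 4 : ℕ)) ≤ 11 * Real.log n := by
      by_contra h8
      have h9 := dg_mono (gr_lint_subset_thr hn0 hM ω (α := 0) (not_le.1 h8).le) u
      have h10 : (dg (gr ω (lint n (n ^ 4) 0 (11 * Real.log n))) u : ℝ) ≤ 1 := by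
        exact_mod_cast h9.trans hu
      have h11 := g2 u
      rw [hth] at h11
      linarith
    have h8 : ∀ w, dg (thr ω P) w ≤ 1 → w ∈ low (gr ω (lint n (n ^ 4) 0 (0.7 * Real.log n)))
        (th * (0.7 * Real.log n)) := by
      intro w hw
      have h9 : (dg (gr ω (lint n (n ^ 4) 0 (0.7 * Real.log n))) w : ℝ) ≤ 1 := by
        exact_mod_cast (dg_mono (gr_lint_subset_thr hn0 hM ω h.le) w).trans hw
      rw [mem_low, hth]
      linarith
    exact rega_far1 (on_gr ω _) g3 (h8 u hu) (h8 v hv) (thr_subset_gr_lint hn0 hM ω h7 huv)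

/-- The dense end: the complement has many isolated vertices and small degrees; then `regC`. -/
theorem probC {δ : ℝ} (hδ : 0 < δ) : ∃ n0 : ℕ, ∀ n ≥ n0,
    Pr (unif (n ^ 4)) (fun ω : Sym2 (Fin n) → Fin (n ^ 4) => ∃ P ≤ n ^ 4, ∃ k,
      Tight (thr ω P) k ∧ n * (1 - (P : ℝ) / (n ^ 4 : ℕ)) ≤ Real.log n / 20 ∧
      ¬ HasA (thr ω P) k) ≤ δ := by
  obtain ⟨nC, hC⟩ := regC
  obtain ⟨n1, h1⟩ := pa_err_ev (δ := δ / 3) (by positivity) (10 ^ 16)
  refine ⟨max n1 nC, fun n hn => ?_⟩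
  obtain ⟨hε, hL⟩ := h1 n ((le_max_left _ _).trans hn)
  obtain ⟨hn0, hN, h100, hs1, hs2⟩ := pa_big hL
  have hM := pow_pos hn0 4
  have hp := isP_unif hM
  have hth : th = 1 / 10 ^ 13 := rfl
  have hN0 : (0 : ℝ) < n := by exact_mod_cast hn0
  have hL1 : (1 : ℝ) ≤ Real.log n := by linarith
  have hm := pa_mass hn0 (α := n - Real.log n / 20) (β := n) (by linarith) (by linarith) le_rfl
  have hm0 := mass_nonneg hp (lint n (n ^ 4) (n - Real.log n / 20) n)
  have e1 := pa_iso hL (lint n (n ^ 4) (n - Real.log n / 20) n) (c := 1 / 20) (by norm_num)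
    (by linarith [hm.2])
  have e2 : Pr (unif (n ^ 4)) (fun ω : Sym2 (Fin n) → Fin (n ^ 4) => ∃ v,
      √(n : ℝ) ≤ (dg (gr ω (lint n (n ^ 4) (n - Real.log n / 20) n)) v : ℝ)) ≤
      paErr (Real.log n) := by
    have h5 := pa_union hp _ fun v : Fin n =>
      pa_deg_up hp (lint n (n ^ 4) (n - Real.log n / 20) n) v
        (μ := Real.log n) (t := 1) (l := √(n : ℝ)) (by rw [nV_fin]; linarith [hm.2]) zero_le_one
    refine h5.trans ?_
    rw [nV_fin]
    nth_rewrite 1 [hN]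
    rw [← Real.exp_add, ← one_mul (Real.exp _)]
    have h4 : (1 : ℝ) ≤ Real.log n ^ 4 := one_le_pow₀ hL1
    refine pa_le_err hL1 (by linarith) ?_
    have h6 := pa_exp_one
    rw [hth]
    nlinarith
  refine (Pr_mono hp ?_).trans ((pa_or hp e1 e2).trans (by linarith))
  rintro ω ⟨P, hP, k, hk, hcase, hnA⟩
  by_contra hcon
  simp only [not_or, not_le, not_exists] at hcon
  obtain ⟨g1, g2⟩ := hcon
  apply hnA
  have hsub : thr ω P ⊆ allE (Fin n) := fun e he => mem_allE.2 (mem_thr.1 he).1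
  have hH : allE (Fin n) \ thr ω P ⊆ gr ω (lint n (n ^ 4) (n - Real.log n / 20) n) := by
    intro e he
    obtain ⟨h5, h6⟩ := mem_sdiff.1 he
    have h7 := mem_allE.1 h5
    have h8 : P ≤ (ω e).val := by
      by_contra h9
      exact h6 (mem_thr.2 ⟨h7, not_le.1 h9⟩)
    have h9 : (P : ℝ) ≤ (ω e).val := by exact_mod_cast h8
    have h10 : ((ω e).val : ℝ) < ((n ^ 4 : ℕ) : ℝ) := by exact_mod_cast (ω e).isLt
    have hM0 : (0 : ℝ) < ((n ^ 4 : ℕ) : ℝ) := by exact_mod_cast hM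
    refine mem_gr.2 ⟨h7, mem_lint.2 ⟨?_, ?_⟩⟩
    · have h11 : n - Real.log n / 20 ≤ n * (P : ℝ) / (n ^ 4 : ℕ) := by
        rw [mul_div_assoc]; linarith
      rw [le_div_iff₀ hM0] at h11
      nlinarith
    · rw [mul_comm]; exact mul_lt_mul_of_pos_left h10 hN0
  have hdeg : ∀ v, dg (allE (Fin n) \ thr ω P) v + dg (thr ω P) v + 1 = n := by
    intro v
    rw [dg_sdiff hsub, dg_allE, Fintype.card_fin]
  obtain ⟨v0, hv0⟩ := hk.2
  obtain ⟨v1, hv1⟩ := hk.1.exists_ge (by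
    have : (2 : ℝ) ≤ n := by linarith
    rw [Fintype.card_fin]; exact_mod_cast this)
  have hv2 := hdeg v1
  have h12 := hC n ((le_max_right _ _).trans hn) (allE (Fin n) \ thr ω P) k
    (n - 1 - k) (on_allE.mono subset_rfl sdiff_subset) (by omega)
    (by
      have h13 : ((n - 1 - k : ℕ) : ℝ) ≤
          dg (gr ω (lint n (n ^ 4) (n - Real.log n / 20) n)) v0 := by
        have h14 := dg_mono hH v0
        have h15 := hdeg v0
        exact_mod_cast (by omega)
      linarith [g2 v0])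
    (fun v => by have := hdeg v; have := hk.1.1 v; omega)
    (by
      have h13 := hk.1.2
      rw [Fintype.card_fin] at h13
      refine le_trans (card_le_card fun v hv => mem_filter.2 ⟨mem_univ _, ?_⟩) h13
      have := hdeg v
      have := (mem_filter.1 hv).2
      omega)
    (by
      have h13 : ((univ.filter fun v =>
          dg (gr ω (lint n (n ^ 4) (n - Real.log n / 20) n)) v = 0).card : ℝ) ≤
          ((univ.filter fun v => dg (allE (Fin n) \ thr ω P) v = 0).card : ℝ) := by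
        refine Nat.cast_le.2 (card_le_card fun v hv => ?_)
        have h14 := dg_mono hH v
        rw [(mem_filter.1 hv).2] at h14
        exact mem_filter.2 ⟨mem_univ _, by omega⟩
      refine le_trans ?_ (g1.le.trans h13)
      rw [Real.rpow_def_of_pos hN0]
      have h15 : Real.exp ((1 - 1.2 * (1 / 20)) * Real.log n - 1.2) =
          Real.exp (Real.log n * (9 / 10)) * Real.exp (0.04 * Real.log n - 1.2) := by
        rw [← Real.exp_add]; congr 1; ring
      have h16 := Real.add_one_le_exp (0.04 * Real.log n - 1.2)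
      have h17 := Real.one_le_exp (show 0 ≤ Real.log n * (9 / 10) by positivity)
      rw [h15]
      nlinarith)
  rwa [Finset.sdiff_sdiff_eq_self hsub] at h12

end

end Pool.Agent.MP_1376f1_pr
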