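import Pool.Agent.MP_1376f1_pr.Mg.PB1
import Pool.Agent.MP_1376f1_pr.Mg.Gap
import Pool.Agent.MP_1376f1_pr.Mg.PA

/-!
The middle range and the main estimate in the product model.
-/

set_option autoImplicit false
set_option linter.unusedSectionVars false

namespace Pool.Agent.MP_1376f1_pr

open Finset MP_d802e4_co
open scoped Classical

noncomputable section



lemma pb_cond {V Λ : Type} [Fintype V] [DecidableEq V] [Fintype Λ] {p : Λ → ℝ}
    {c : Prop} {E : (V → Λ) → Prop} {b : ℝ} (hb : 0 ≤ b) (h : c → Pr p E ≤ b) :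
    Pr p (fun ω => c ∧ E ω) ≤ b := by
  by_cases hc : c
  · rw [Pr_congr (F := E) (fun ω => by simp [hc])]; exact h hc
  · rw [Pr_congr (F := fun _ => False) (fun ω => by simp [hc]), Pr_false]; exact hb

lemma pb_log : ∃ n0 : ℕ, ∀ n ≥ n0, 2 ≤ Real.log (n : ℝ) ∧ 0 < n := by
  refine ⟨9, fun n hn => ⟨?_, by omega⟩⟩
  have h9 : (9 : ℝ) ≤ n := by exact_mod_cast hn
  rw [Real.le_log_iff_exp_le (by linarith)]
  have h1 : Real.exp 1 ≤ 3 := le_trans Real.exp_one_lt_d9.le (by norm_num)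
  have h2 : Real.exp 2 = Real.exp 1 * Real.exp 1 := by rw [← Real.exp_add]; norm_num
  have h0 := Real.exp_pos 1
  nlinarith

lemma pb_dev {n : ℕ} (hn : 0 < n) (hl : 2 ≤ Real.log (n : ℝ)) {Λ : Type} [Fintype Λ] {p : Λ → ℝ}
    (hp : IsP p) (L : Finset Λ) {q ν a : ℝ} (hq : mass p L = q)
    (hν : min (n * q) (n * (1 - q)) + 1 ≤ ν) (ha : 0 ≤ a) (hpos : 0 < 4 * ν + 2 * a)
    (hexp : 7.5 * Real.log n * (4 * ν + 2 * a) ≤ a ^ 2) :
    Pr p (fun ω : Sym2 (Fin n) → Λ => ∃ v, a + 2 ≤ |(dg (gr ω L) v : ℝ) - n * q|) ≤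
      1 / (n : ℝ) ^ 6 := by
  have hq0 : 0 ≤ q := hq ▸ mass_nonneg hp L
  have hq1 : q ≤ 1 := hq ▸ mass_le_one hp L
  have hn' : (0 : ℝ) < n := by exact_mod_cast hn
  have h0 : |mass p L - q| ≤ 1 / nV (Fin n) := by
    rw [hq, sub_self, abs_zero, nV_fin]; positivity
  have h1 : ∀ v : Fin n, Pr p (fun ω : Sym2 (Fin n) → Λ =>
      a + 2 ≤ |(dg (gr ω L) v : ℝ) - n * q|) ≤ 2 * Real.exp (-a ^ 2 / (4 * ν + 2 * a)) := by
    intro v
    have := dgr_dev (V := Fin n) hp L L univ v hq0 hq1 h0 h0 (ν := ν) (by rw [nV_fin]; exact hν) ha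
    refine le_trans (le_of_eq (Pr_congr fun ω => ?_)) this
    unfold dg
    rw [nb_gr, inter_univ, card_univ, Fintype.card_fin]
  have h2 : Real.exp (-a ^ 2 / (4 * ν + 2 * a)) ≤ 1 / (2 * (n : ℝ) ^ 7) := by
    have e1 : -a ^ 2 / (4 * ν + 2 * a) ≤ -(7 * Real.log n) + -1 := by
      rw [div_le_iff₀ hpos]; nlinarith
    refine le_trans (Real.exp_le_exp.2 e1) ?_
    rw [Real.exp_add, Real.exp_neg, Real.exp_neg,
      show (7 : ℝ) * Real.log n = Real.log ((n : ℝ) ^ 7) by rw [Real.log_pow]; norm_num,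
      Real.exp_log (by positivity)]
    have e2 : (2 : ℝ) ≤ Real.exp 1 := le_trans (by norm_num) Real.exp_one_gt_d9.le
    rw [← mul_inv, one_div]
    exact inv_anti₀ (by positivity) (by nlinarith [pow_pos hn' 7])
  calc _ ≤ Pr p (fun ω : Sym2 (Fin n) → Λ =>
        ∃ v ∈ (univ : Finset (Fin n)), a + 2 ≤ |(dg (gr ω L) v : ℝ) - n * q|) :=
        Pr_mono hp fun ω ⟨v, hv⟩ => ⟨v, mem_univ v, hv⟩
    _ ≤ ∑ _v : Fin n, 2 * (1 / (2 * (n : ℝ) ^ 7)) :=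
        le_trans (Pr_exists hp _ _) (sum_le_sum fun v _ => le_trans (h1 v) (by linarith))
    _ = 1 / (n : ℝ) ^ 6 := by
        rw [sum_const, card_univ, Fintype.card_fin, nsmul_eq_mul]; field_simp

lemma pb_gap {n : ℕ} {q : ℝ} (hl : 2 ≤ Real.log (n : ℝ)) (hq0 : 0 ≤ q) (hq1 : q ≤ 1)
    (h1 : 0.7 * Real.log n ≤ n * q) (h2 : Real.log n / 20 ≤ n * (1 - q)) :
    Real.log n / 130 ≤ gap n q ∧ 400 * gap n q ^ 2 = n * q * (1 - q) * Real.log n ∧
      min (n * q) (n * (1 - q)) ≤ 2 * (n * q * (1 - q)) := by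
  have hn : (0 : ℝ) ≤ n := Nat.cast_nonneg n
  have hm : min (n * q) (n * (1 - q)) ≤ 2 * (n * q * (1 - q)) := by
    rcases le_total q (1 / 2) with h | h
    · refine le_trans (min_le_left _ _) ?_
      nlinarith [mul_nonneg (mul_nonneg hn hq0) (show 0 ≤ 1 - 2 * q by linarith)]
    · refine le_trans (min_le_right _ _) ?_
      nlinarith [mul_nonneg (mul_nonneg hn (sub_nonneg.2 hq1)) (show 0 ≤ 2 * q - 1 by linarith)]
  have hw : Real.log n / 40 ≤ n * q * (1 - q) := by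
    have : Real.log n / 20 ≤ min (n * q) (n * (1 - q)) := le_min (by linarith) h2
    linarith
  have hnn : 0 ≤ n * q * (1 - q) * Real.log n := mul_nonneg (by linarith) (by linarith)
  refine ⟨?_, ?_, hm⟩
  · unfold gap
    rw [le_div_iff₀ (by norm_num)]
    refine Real.le_sqrt_of_sq_le ?_
    nlinarith
  · unfold gap
    rw [div_pow, Real.sq_sqrt hnn]; ring

/-- Degrees at a fixed time. Hint: `gap_prob`; `dgr_dev` with `S = univ`, `a = 8000 gap n q` for the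
upper bound (`ν = 2 n q (1 - q) + 1`, `gap ≥ log n / 130`); `cnt_low` with `t = log 2` for the
lower bound. -/
theorem probD : ∃ n0 : ℕ, ∀ n ≥ n0, ∀ P ≤ n ^ 4, ∀ q : ℝ, q = (P : ℝ) / (n ^ 4 : ℕ) →
    0.7 * Real.log n ≤ n * q → Real.log n / 20 ≤ n * (1 - q) →
    Pr (unif (n ^ 4)) (fun ω : Sym2 (Fin n) → Fin (n ^ 4) => ¬
      ((∃ v, (dg (thr ω P) v : ℝ) ≤ n * q - gap n q) ∧
        (∀ v, (dg (thr ω P) v : ℝ) ≤ n * q + 9000 * gap n q) ∧
        (100 * Real.log n ≤ n * q → ∀ v, n * q / 3 ≤ dg (thr ω P) v))) ≤ 3 / (n : ℝ) ^ 6 := by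
  obtain ⟨n1, h1⟩ := gap_prob
  obtain ⟨n2, h2⟩ := pb_log
  refine ⟨max n1 n2, fun n hn P hP q hq ha hb => ?_⟩
  obtain ⟨hl, hn0⟩ := h2 n (le_trans (le_max_right _ _) hn)
  have hp : IsP (unif (n ^ 4)) := isP_unif (pow_pos hn0 4)
  set L : Finset (Fin (n ^ 4)) := univ.filter fun l => l.val < P with hL
  have hm : mass (unif (n ^ 4)) L = q := by rw [hq]; exact mass_thr hP
  have hq0 : 0 ≤ q := hm ▸ mass_nonneg hp L
  have hq1 : q ≤ 1 := hm ▸ mass_le_one hp L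
  obtain ⟨g1, g2, g3⟩ := pb_gap hl hq0 hq1 ha hb
  have hA := h1 n (le_trans (le_max_left _ _) hn) (Fin (n ^ 4)) _ hp L q hm (by linarith)
    (by linarith)
  have hW : 0 ≤ (n : ℝ) * q * (1 - q) :=
    mul_nonneg (mul_nonneg (Nat.cast_nonneg n) hq0) (sub_nonneg.2 hq1)
  have hB := pb_dev hn0 hl hp L hm (ν := 2 * (n * q * (1 - q)) + 1) (a := 8000 * gap n q)
    (by linarith) (by linarith) (by linarith) (by nlinarith)
  have hC : Pr (unif (n ^ 4)) (fun ω : Sym2 (Fin n) → Fin (n ^ 4) => 100 * Real.log n ≤ n * q ∧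
      ∃ v, 0.65 * (n * q) + 2 ≤ |(dg (gr ω L) v : ℝ) - n * q|) ≤ 1 / (n : ℝ) ^ 6 := by
    refine pb_cond (by positivity) fun hc => ?_
    refine pb_dev hn0 hl hp L hm (ν := n * q + 1) (a := 0.65 * (n * q))
      (by linarith [min_le_left (n * q) (n * (1 - q))]) (by linarith) (by linarith) ?_
    nlinarith
  refine le_trans (Pr_mono hp (F := fun ω => (∀ v, n * q - gap n q < dg (gr ω L) v) ∨
    ((∃ v, 8000 * gap n q + 2 ≤ |(dg (gr ω L) v : ℝ) - n * q|) ∨ (100 * Real.log n ≤ n * q ∧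
      ∃ v, 0.65 * (n * q) + 2 ≤ |(dg (gr ω L) v : ℝ) - n * q|))) fun ω hω => ?_) ?_
  · by_contra hc
    simp only [not_or] at hc
    obtain ⟨c1, c2, c3⟩ := hc
    apply hω
    have e : thr ω P = gr ω L := rfl
    rw [e]
    refine ⟨?_, fun v => ?_, fun h v => ?_⟩
    · obtain ⟨v, hv⟩ := not_forall.1 c1
      exact ⟨v, not_lt.1 hv⟩
    · have := not_le.1 (not_exists.1 c2 v)
      have := (abs_lt.1 this).2
      linarith
    · have := not_le.1 (not_exists.1 (not_and.1 c3 h) v)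
      have := (abs_lt.1 this).1
      linarith
  · refine le_trans (Pr_or hp _ _) ?_
    refine le_trans (add_le_add hA (le_trans (Pr_or hp _ _) (add_le_add hB hC))) (le_of_eq ?_)
    ring

/-- Hint: union bound over `P ≤ n ^ 4` and `k < n` with `probD` and `probB1`. -/
theorem probB {δ : ℝ} (hδ : 0 < δ) : ∃ n0 : ℕ, ∀ n ≥ n0,
    Pr (unif (n ^ 4)) (fun ω : Sym2 (Fin n) → Fin (n ^ 4) => ∃ P ≤ n ^ 4, ∃ k,
      Tight (thr ω P) k ∧ 0.7 * Real.log n ≤ n * ((P : ℝ) / (n ^ 4 : ℕ)) ∧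
      th * (0.7 * Real.log n) / 8 ≤ (k : ℝ) ∧
      Real.log n / 20 ≤ n * (1 - (P : ℝ) / (n ^ 4 : ℕ)) ∧ ¬ HasA (thr ω P) k) ≤ δ := by
  obtain ⟨n1, h1⟩ := probD
  obtain ⟨n2, h2⟩ := probB1
  obtain ⟨n3, h3⟩ : ∃ n0 : ℕ, ∀ n ≥ n0, 2000 ≤ Real.log (n : ℝ) ∧ 2 ≤ n :=
    Filter.eventually_atTop.1
      (((Real.tendsto_log_atTop.comp tendsto_natCast_atTop_atTop).eventually_ge_atTop _).and
        (Filter.eventually_ge_atTop 2))
  refine ⟨max (max n1 n2) (max n3 ⌈10 / δ⌉₊), fun n hn => ?_⟩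
  have hn1 : n1 ≤ n := le_trans (le_trans (le_max_left _ _) (le_max_left _ _)) hn
  have hn2 : n2 ≤ n := le_trans (le_trans (le_max_right _ _) (le_max_left _ _)) hn
  have hn3 : n3 ≤ n := le_trans (le_trans (le_max_left _ _) (le_max_right _ _)) hn
  have hn4 : ⌈10 / δ⌉₊ ≤ n := le_trans (le_trans (le_max_right _ _) (le_max_right _ _)) hn
  obtain ⟨hl, hn02⟩ := h3 n hn3
  have hn0 : 0 < n := by omega
  have hn' : (1 : ℝ) ≤ n := by exact_mod_cast hn0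
  have hp : IsP (unif (n ^ 4)) := isP_unif (pow_pos hn0 4)
  let q : ℕ → ℝ := fun P => (P : ℝ) / (n ^ 4 : ℕ)
  let E1 : ℕ → (Sym2 (Fin n) → Fin (n ^ 4)) → Prop := fun P ω =>
    (0.7 * Real.log n ≤ n * q P ∧ Real.log n / 20 ≤ n * (1 - q P)) ∧ ¬
      ((∃ v, (dg (thr ω P) v : ℝ) ≤ n * q P - gap n (q P)) ∧
        (∀ v, (dg (thr ω P) v : ℝ) ≤ n * q P + 9000 * gap n (q P)) ∧
        (100 * Real.log n ≤ n * q P → ∀ v, n * q P / 3 ≤ dg (thr ω P) v))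
  let E2 : ℕ → ℕ → (Sym2 (Fin n) → Fin (n ^ 4)) → Prop := fun P k ω =>
    (0.7 * Real.log n ≤ n * q P ∧ Real.log n / 20 ≤ n * (1 - q P) ∧
      Real.log n ≤ 10 ^ 15 * k ∧ n * q P ≤ 10 ^ 17 * k ∧ gap n (q P) ≤ n * q P - k + 1) ∧
      ((Near (thr ω P) k ∧ ∀ v, (dg (thr ω P) v : ℝ) ≤ k + 10 ^ 4 * (n * q P - k)) ∧
      ¬ HasA (thr ω P) k)
  have b1 : ∀ P ∈ range (n ^ 4 + 1), Pr (unif (n ^ 4)) (E1 P) ≤ 3 / (n : ℝ) ^ 6 := fun P hP =>
    pb_cond (by positivity) fun hc =>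
      h1 n hn1 P (Nat.lt_succ_iff.1 (mem_range.1 hP)) (q P) rfl hc.1 hc.2
  have b2 : ∀ P ∈ range (n ^ 4 + 1), ∀ k ∈ range (n + 1),
      Pr (unif (n ^ 4)) (E2 P k) ≤ 1 / (n : ℝ) ^ 6 := fun P hP k _ =>
    pb_cond (by positivity) fun hc =>
      h2 n hn2 P (Nat.lt_succ_iff.1 (mem_range.1 hP)) k (q P) rfl hc.1 hc.2.1 hc.2.2.1
        hc.2.2.2.1 hc.2.2.2.2
  have b3 : ∀ P ∈ range (n ^ 4 + 1), Pr (unif (n ^ 4))
      (fun ω => E1 P ω ∨ ∃ k ∈ range (n + 1), E2 P k ω) ≤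
      3 / (n : ℝ) ^ 6 + (n + 1) * (1 / (n : ℝ) ^ 6) := by
    intro P hP
    refine le_trans (Pr_or hp _ _) (add_le_add (b1 P hP) ?_)
    refine le_trans (Pr_exists hp _ _) (le_trans (sum_le_sum (b2 P hP)) (le_of_eq ?_))
    rw [sum_const, card_range, nsmul_eq_mul]; push_cast; ring
  refine le_trans (Pr_mono hp (F := fun ω => ∃ P ∈ range (n ^ 4 + 1),
    E1 P ω ∨ ∃ k ∈ range (n + 1), E2 P k ω) fun ω hω => ?_) ?_
  · obtain ⟨P, hP, k, ⟨hk1, v0, hv0⟩, c1, c2, c3, c4⟩ := hω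
    refine ⟨P, mem_range.2 (Nat.lt_succ_iff.2 hP), ?_⟩
    by_cases hD : (∃ v, (dg (thr ω P) v : ℝ) ≤ n * q P - gap n (q P)) ∧
        (∀ v, (dg (thr ω P) v : ℝ) ≤ n * q P + 9000 * gap n (q P)) ∧
        (100 * Real.log n ≤ n * q P → ∀ v, n * q P / 3 ≤ dg (thr ω P) v)
    · obtain ⟨⟨v, hv⟩, d2, d3⟩ := hD
      have hkn : k ≤ n := by
        obtain ⟨v1, hv1⟩ := hk1.exists_ge (by rw [Fintype.card_fin]; exact hn02)
        exact hv1.trans (le_trans (dg_le_card _ _) (by rw [Fintype.card_fin]))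
      have e1 : Real.log n ≤ 10 ^ 15 * k := by
        unfold th at c2; linarith
      have e2 : gap n (q P) ≤ n * q P - k + 1 := by
        have : (k : ℝ) ≤ dg (thr ω P) v + 1 := by exact_mod_cast hk1.1 v
        linarith
      have e3 : Real.log n / 130 ≤ gap n (q P) := (pb_gap (by linarith) (by positivity)
        (div_le_one_of_le₀ (by exact_mod_cast hP) (Nat.cast_nonneg _)) c1 c3).1
      have hk0 : (0 : ℝ) ≤ k := Nat.cast_nonneg k
      refine Or.inr ⟨k, mem_range.2 (Nat.lt_succ_iff.2 hkn), ⟨c1, c3, e1, ?_, e2⟩,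
        ⟨hk1, fun w => ?_⟩, c4⟩
      · by_cases h : 100 * Real.log n ≤ n * q P
        · have := d3 h v0
          have h5 : (dg (thr ω P) v0 : ℝ) ≤ k := by exact_mod_cast hv0
          linarith
        · linarith [not_le.1 h]
      · have := d2 w
        linarith
    · exact Or.inl ⟨⟨c1, c3⟩, hD⟩
  · refine le_trans (Pr_exists hp _ _) (le_trans (sum_le_sum b3) ?_)
    rw [sum_const, card_range, nsmul_eq_mul]
    push_cast
    have e1 : 10 / δ ≤ n := le_trans (Nat.le_ceil _) (by exact_mod_cast hn4)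
    rw [div_le_iff₀ hδ] at e1
    have e2 : (1 : ℝ) ≤ (n : ℝ) ^ 4 := one_le_pow₀ hn'
    have e3 : ((n : ℝ) ^ 4 + 1) * (3 / (n : ℝ) ^ 6 + (n + 1) * (1 / (n : ℝ) ^ 6)) ≤
        (2 * (n : ℝ) ^ 4) * (5 * n / (n : ℝ) ^ 6) := by
      refine mul_le_mul (by linarith) ?_ (by positivity) (by positivity)
      rw [mul_one_div, ← add_div]
      exact div_le_div_of_nonneg_right (by linarith) (by positivity)
    refine le_trans e3 ?_
    rw [show (2 * (n : ℝ) ^ 4) * (5 * n / (n : ℝ) ^ 6) = 10 / n by field_simp; ring,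
      div_le_iff₀ (by linarith)]
    linarith

theorem prob_main {δ : ℝ} (hδ : 0 < δ) : ∃ n0 : ℕ, ∀ n ≥ n0,
    Pr (unif (n ^ 4)) (fun ω : Sym2 (Fin n) → Fin (n ^ 4) => ∃ P ≤ n ^ 4, ∃ k,
      Tight (thr ω P) k ∧ ¬ HasA (thr ω P) k) ≤ δ := by
  have hδ3 : 0 < δ / 3 := by positivity
  obtain ⟨n1, h1⟩ := probA hδ3
  obtain ⟨n2, h2⟩ := probB hδ3
  obtain ⟨n3, h3⟩ := probC hδ3
  refine ⟨max (max n1 n2) (max n3 1), fun n hn => ?_⟩
  have hn1 : n1 ≤ n := le_trans (le_trans (le_max_left _ _) (le_max_left _ _)) hn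
  have hn2 : n2 ≤ n := le_trans (le_trans (le_max_right _ _) (le_max_left _ _)) hn
  have hn3 : n3 ≤ n := le_trans (le_trans (le_max_left _ _) (le_max_right _ _)) hn
  have hn4 : 1 ≤ n := le_trans (le_trans (le_max_right _ _) (le_max_right _ _)) hn
  have hp : IsP (unif (n ^ 4)) := isP_unif (pow_pos hn4 4)
  have := le_trans (Pr_or hp _ _) (add_le_add (h1 n hn1)
    (le_trans (Pr_or hp _ _) (add_le_add (h2 n hn2) (h3 n hn3))))
  refine le_trans (le_trans (Pr_mono hp fun ω hω => ?_) this) (le_of_eq (by ring))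
  obtain ⟨P, hP, k, hk, hA⟩ := hω
  by_cases c1 : n * ((P : ℝ) / (n ^ 4 : ℕ)) ≤ 0.7 * Real.log n ∨
      (k : ℝ) ≤ th * (0.7 * Real.log n) / 8
  · exact Or.inl ⟨P, hP, k, hk, c1, hA⟩
  · by_cases c2 : n * (1 - (P : ℝ) / (n ^ 4 : ℕ)) ≤ Real.log n / 20
    · exact Or.inr (Or.inr ⟨P, hP, k, hk, c2, hA⟩)
    · rw [not_or] at c1
      exact Or.inr (Or.inl ⟨P, hP, k, hk, (not_le.1 c1.1).le, (not_le.1 c1.2).le,
        (not_le.1 c2).le, hA⟩)

end

end Pool.Agent.MP_1376f1_pr
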