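import Pool.Agent.MP_1376f1_pr.Mg.Conv
import Pool.Agent.MP_1376f1_pr.Mg.Round
import Pool.Agent.MP_1376f1_pr.Mg.Greedy

/-!
Auxiliary results for the path systems through the atypical vertices.
-/

set_option autoImplicit false
set_option linter.unusedSectionVars false

namespace Pool.Agent.MP_1376f1_pr

open Finset MP_d802e4_co
open scoped Classical

noncomputable section

variable {V : Type} [Fintype V] [DecidableEq V]

/-- a symmetric labelling with prescribed multiplicities in every row -/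
theorem tcol_shifts (A : Finset V) (m : ℕ) (d : ℕ → ℕ) (h : ∑ B ∈ range m, d B = A.card) :
    ∃ lab : V → V → ℕ, (∀ o w, lab o w = lab w o) ∧ (∀ o ∈ A, ∀ w ∈ A, lab o w < m) ∧
      ∀ w ∈ A, ∀ B < m, (A.filter fun o => lab o w = B).card = d B := by
  rcases A.eq_empty_or_nonempty with rfl | hA
  · exact ⟨fun _ _ => 0, fun _ _ => rfl, by simp, by simp⟩
  have : NeZero A.card := ⟨hA.card_pos.ne'⟩
  set S : Finset (Σ _ : ℕ, ℕ) := (range m).sigma fun B => range (d B) with hS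
  have hSc : S.card = A.card := by simp [hS, h]
  let f : Fin A.card ≃ S := (S.equivFinOfCardEq hSc).symm
  let g : A ≃ Fin A.card := A.equivFin
  refine ⟨fun o w => if h : o ∈ A ∧ w ∈ A then (f (g ⟨o, h.1⟩ + g ⟨w, h.2⟩)).1.1 else 0,
    fun o w => ?_, fun o ho w hw => ?_, fun w hw B hB => ?_⟩
  · by_cases h : o ∈ A ∧ w ∈ A
    · simp only [dif_pos h, dif_pos h.symm, add_comm]
    · simp only [dif_neg h, dif_neg (fun h' : w ∈ A ∧ o ∈ A => h h'.symm)]
  · simp only [dif_pos (And.intro ho hw)]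
    exact mem_range.1 (mem_sigma.1 (f _).2).1
  · have e : (S.filter fun p => p.1 = B).card = d B := by
      rw [← card_range (d B)]
      refine card_bij (fun p _ => p.2) ?_ ?_ ?_
      · intro p hp
        obtain ⟨h1, h2⟩ := mem_filter.1 hp
        exact h2 ▸ (mem_sigma.1 h1).2
      · rintro ⟨a, b⟩ hp ⟨a', b'⟩ hq hpq
        have h1 : a = B := (mem_filter.1 hp).2
        have h2 : a' = B := (mem_filter.1 hq).2
        have h3 : b = b' := hpq
        rw [h1, h2, h3]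
      · intro j hj
        exact ⟨⟨B, j⟩, mem_filter.2 ⟨mem_sigma.2 ⟨mem_range.2 hB, hj⟩, rfl⟩, rfl⟩
    rw [← e]
    refine card_bij (fun o ho => (f (g ⟨o, (mem_filter.1 ho).1⟩ + g ⟨w, hw⟩)).1) ?_ ?_ ?_
    · intro o ho
      obtain ⟨h1, h2⟩ := mem_filter.1 ho
      simp only [dif_pos (And.intro h1 hw)] at h2
      exact mem_filter.2 ⟨(f _).2, h2⟩
    · intro o ho o' ho' hoo
      have h1 := g.injective (add_right_cancel (f.injective (Subtype.ext hoo)))
      exact congrArg Subtype.val h1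
    · intro p hp
      obtain ⟨h1, h2⟩ := mem_filter.1 hp
      have h3 : f (g (g.symm (f.symm ⟨p, h1⟩ - g ⟨w, hw⟩)) + g ⟨w, hw⟩) = ⟨p, h1⟩ := by simp
      refine ⟨(g.symm (f.symm ⟨p, h1⟩ - g ⟨w, hw⟩)).1, mem_filter.2 ⟨Subtype.property _, ?_⟩, ?_⟩
      · beta_reduce
        rw [dif_pos (And.intro (g.symm (f.symm ⟨p, h1⟩ - g ⟨w, hw⟩)).2 hw)]
        exact (congrArg (fun q : S => q.1.1) h3).trans h2
      · exact congrArg Subtype.val h3

/-- the event tested by `y` -/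
def tcolHit (A : Finset V) (l : V → ℕ) (y : Finset V × Finset ℕ × ℝ) : Prop :=
  ∃ w ∈ y.1, w ∈ A ∧ l w ∈ y.2.1

theorem tcol_double (G : Finset (Sym2 V)) (T W : Finset V) {Λ : ℝ}
    (hΛ : ∀ v, ((nb G v ∩ T).card : ℝ) ≤ Λ) :
    ∑ x ∈ T, ((W ∩ (nb G x \ T)).card : ℝ) ≤ W.card * Λ := by
  have h1 : ∑ x ∈ T, (W ∩ (nb G x \ T)).card ≤ ∑ w ∈ W, (nb G w ∩ T).card := by
    calc ∑ x ∈ T, (W ∩ (nb G x \ T)).card
        ≤ ∑ x ∈ T, (W.filter fun w => s(x, w) ∈ G).card := by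
          refine sum_le_sum fun x _ => card_le_card fun w hw => ?_
          exact mem_filter.2 ⟨(mem_inter.1 hw).1, mem_nb.1 (mem_sdiff.1 (mem_inter.1 hw).2).1⟩
      _ = ∑ w ∈ W, (T.filter fun x => s(x, w) ∈ G).card := by
          simp only [card_filter]
          exact sum_comm
      _ ≤ ∑ w ∈ W, (nb G w ∩ T).card := by
          refine sum_le_sum fun w _ => card_le_card fun x hx => ?_
          exact mem_inter.2 ⟨mem_nb_comm.1 (mem_nb.2 (mem_filter.1 hx).2), (mem_filter.1 hx).1⟩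
  have h2 : ∑ w ∈ W, ((nb G w ∩ T).card : ℝ) ≤ W.card * Λ := by
    simpa using sum_le_card_nsmul W (fun w => ((nb G w ∩ T).card : ℝ)) Λ fun w _ => hΛ w
  refine le_trans ?_ h2
  exact_mod_cast h1

theorem tcol_tests [Nonempty V] (G : Finset (Sym2 V)) (T : Finset V) (m : ℕ) (d : V → ℕ → ℕ)
    (hsum : ∀ x ∈ T, ∑ B ∈ range m, d x B = (nb G x \ T).card) {κ Λ : ℝ} (hκ : 0 < κ)
    (hD : ∀ x ∈ T, κ ≤ (nb G x \ T).card) (hΛ : ∀ v, ((nb G v ∩ T).card : ℝ) ≤ Λ)
    (Y : Finset (Finset V × Finset ℕ × ℝ)) (hϑ : ∀ y ∈ Y, 0 ≤ y.2.2)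
    (hS : ∀ y ∈ Y, y.2.1 ⊆ range m) :
    ∃ l : V → V → ℕ, (∀ x ∈ T, ∀ w ∈ nb G x \ T, l x w < m) ∧
      (∀ x ∈ T, ∀ B < m, ((nb G x \ T).filter fun w => l x w = B).card = d x B) ∧
      ∀ y ∈ Y, ∀ σ : ℝ, 0 ≤ σ → (∀ x ∈ T, (∑ B ∈ y.2.1, d x B : ℕ) ≤ σ) →
        y.2.2 * ((T.filter fun x => tcolHit (nb G x \ T) (l x) y).card : ℝ) ≤
          Real.log Y.card + Real.exp y.2.2 * (σ / κ * (y.1.card * Λ)) := by
  have h0 : ∀ x, ∃ lab : V → V → ℕ, x ∈ T → (∀ o w, lab o w = lab w o) ∧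
      (∀ o ∈ nb G x \ T, ∀ w ∈ nb G x \ T, lab o w < m) ∧
      ∀ w ∈ nb G x \ T, ∀ B < m, ((nb G x \ T).filter fun o => lab o w = B).card = d x B := by
    intro x
    by_cases hx : x ∈ T
    · obtain ⟨lab, h⟩ := tcol_shifts (nb G x \ T) m (d x) (hsum x hx)
      exact ⟨lab, fun _ => h⟩
    · exact ⟨fun _ _ => 0, fun h => absurd h hx⟩
  choose lab hlab using h0
  have hpos : ∀ x ∈ T, (0 : ℝ) < (nb G x \ T).card := fun x hx => hκ.trans_le (hD x hx)
  obtain ⟨ch, hch, hY⟩ := greedy_indep T (fun x => nb G x \ T)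
    (fun x hx => card_pos.1 (by exact_mod_cast hpos x hx)) Y
    (fun x o y => tcolHit (nb G x \ T) (lab x o) y)
    (fun x y => (y.1 ∩ (nb G x \ T)).card * ((∑ B ∈ y.2.1, d x B : ℕ) : ℝ) / (nb G x \ T).card)
    (fun y => y.2.2) hϑ (by
      intro x hx y hy
      rw [div_mul_cancel₀ _ (hpos x hx).ne']
      have h1 : ((nb G x \ T).filter fun o => tcolHit (nb G x \ T) (lab x o) y) ⊆
          (y.1 ∩ (nb G x \ T)).biUnion fun w => y.2.1.biUnion fun B =>
            (nb G x \ T).filter fun o => lab x o w = B := by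
        intro o ho
        obtain ⟨h1, w, h2, h3, h4⟩ := mem_filter.1 ho
        exact mem_biUnion.2 ⟨w, mem_inter.2 ⟨h2, h3⟩,
          mem_biUnion.2 ⟨_, h4, mem_filter.2 ⟨h1, rfl⟩⟩⟩
      have h2 := (card_le_card h1).trans (card_biUnion_le.trans
        (sum_le_card_nsmul _ _ (∑ B ∈ y.2.1, d x B) fun w hw => card_biUnion_le.trans
          (sum_congr rfl fun B hB => (hlab x hx).2.2 w (mem_inter.1 hw).2 B
            (mem_range.1 (hS y hy hB))).le))
      rw [smul_eq_mul] at h2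
      exact_mod_cast h2)
  refine ⟨fun x => lab x (ch x), fun x hx w hw => (hlab x hx).2.1 _ (hch x hx) w hw,
    fun x hx B hB => ?_, fun y hy σ hσ0 hσ => (hY y hy).trans ?_⟩
  · rw [← (hlab x hx).2.2 _ (hch x hx) B hB]
    exact congrArg card (filter_congr fun w _ => by rw [(hlab x hx).1])
  · have h1 : ∑ x ∈ T, (y.1 ∩ (nb G x \ T)).card * ((∑ B ∈ y.2.1, d x B : ℕ) : ℝ) /
        (nb G x \ T).card ≤ σ / κ * (y.1.card * Λ) := by
      refine le_trans ?_ (mul_le_mul_of_nonneg_left (tcol_double G T y.1 hΛ)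
        (div_nonneg hσ0 hκ.le))
      rw [mul_sum]
      refine sum_le_sum fun x hx => ?_
      rw [mul_div_assoc, mul_comm]
      exact mul_le_mul_of_nonneg_right (div_le_div₀ hσ0 (hσ x hx) hκ (hD x hx))
        (Nat.cast_nonneg _)
    have h2 : 0 ≤ ∑ x ∈ T, (y.1 ∩ (nb G x \ T)).card * ((∑ B ∈ y.2.1, d x B : ℕ) : ℝ) /
        (nb G x \ T).card := sum_nonneg fun x _ => by positivity
    have h3 := mul_le_mul_of_nonneg_left h1 (Real.exp_pos y.2.2).le
    linarith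

/-- the path systems defined by a colouring of the inner edges and of pairs -/
theorem tcol_build {G : Finset (Sym2 V)} {T : Finset V} {k : ℕ} (col : Sym2 V → ℕ)
    (P : Finset (V × V)) (cp : V × V → ℕ)
    (hP : ∀ p ∈ P, p.1 ∈ T ∧ p.2 ∈ nb G p.1 \ T)
    (h1 : ∀ i < KK k, ∀ x ∈ T, (P.filter fun p => p.1 = x ∧ cp p = i).card +
      dg ((inside G T).filter fun e => col e = i) x = dx G k i x)
    (h2 : ∀ i < KK k, ∀ x ∈ T, dg ((inside G T).filter fun e => col e = i) x + 1 ≤ dm k i)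
    (h3 : ∀ i w, (P.filter fun p => p.2 = w ∧ cp p = i).card ≤ 1) (hG : On univ G) :
    ∃ F, TSys G T k F ∧ ∀ i x w, w ∉ T → (s(x, w) ∈ F i ↔ (x, w) ∈ P ∧ cp (x, w) = i) := by
  set J : ℕ → Finset (Sym2 V) := fun i => (inside G T).filter fun e => col e = i with hJ
  set Q : ℕ → Finset (Sym2 V) := fun i =>
    (P.filter fun p => cp p = i).image fun p => s(p.1, p.2) with hQ
  have mQ : ∀ i u v, s(u, v) ∈ Q i ↔
      ((u, v) ∈ P ∧ cp (u, v) = i) ∨ ((v, u) ∈ P ∧ cp (v, u) = i) := by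
    intro i u v
    simp only [hQ, mem_image, mem_filter]
    constructor
    · rintro ⟨⟨a, b⟩, h, e⟩
      rcases Sym2.eq_iff.1 e with ⟨rfl, rfl⟩ | ⟨rfl, rfl⟩
      exacts [Or.inl h, Or.inr h]
    · rintro (h | h)
      exacts [⟨_, h, rfl⟩, ⟨_, h, Sym2.eq_swap⟩]
  have mJ : ∀ i u v, s(u, v) ∈ J i → u ∈ T ∧ v ∈ T := fun i u v h =>
    ⟨(mem_inside.1 (mem_filter.1 h).1).2 u (by simp), (mem_inside.1 (mem_filter.1 h).1).2 v (by simp)⟩
  have hP2 : ∀ u v, (u, v) ∈ P → u ∈ T ∧ v ∉ T := fun u v h =>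
    ⟨(hP _ h).1, (mem_sdiff.1 (hP _ h).2).2⟩
  have hJQ : ∀ i j, Disjoint (J i) (Q j) := by
    intro i j
    refine disjoint_left.2 fun e => Sym2.inductionOn e fun u v h h' => ?_
    rcases (mQ j u v).1 h' with h' | h'
    exacts [(hP2 _ _ h'.1).2 (mJ i u v h).2, (hP2 _ _ h'.1).2 (mJ i u v h).1]
  have mF : ∀ i x w, w ∉ T → (s(x, w) ∈ J i ∪ Q i ↔ (x, w) ∈ P ∧ cp (x, w) = i) := by
    intro i x w hw
    rw [mem_union, mQ]
    exact ⟨fun h => h.elim (fun h => absurd (mJ i x w h).2 hw)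
      fun h => h.elim id fun h => absurd (hP2 _ _ h.1).1 hw, fun h => Or.inr (Or.inl h)⟩
  refine ⟨fun i => J i ∪ Q i, ⟨fun i _ => ?_, fun i _ j _ hij => ?_, fun i _ => ?_,
    fun i hi x hx => ?_, fun i hi x hx => ?_, fun i _ w hw => ?_⟩, mF⟩
  · refine union_subset (fun e he => (mem_inside.1 (mem_filter.1 he).1).1) fun e he => ?_
    obtain ⟨p, hp, rfl⟩ := mem_image.1 he
    exact mem_nb.1 (mem_sdiff.1 (hP p (mem_filter.1 hp).1).2).1
  · rw [disjoint_union_left, disjoint_union_right, disjoint_union_right]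
    refine ⟨⟨disjoint_left.2 fun e h h' => hij ((mem_filter.1 h).2.symm.trans (mem_filter.1 h').2),
      hJQ i j⟩, (hJQ j i).symm, disjoint_left.2 fun e => Sym2.inductionOn e fun u v h h' => ?_⟩
    rcases (mQ i u v).1 h with h | h <;> rcases (mQ j u v).1 h' with h' | h'
    exacts [hij (h.2.symm.trans h'.2), (hP2 _ _ h.1).2 (hP2 _ _ h'.1).1,
      (hP2 _ _ h.1).2 (hP2 _ _ h'.1).1, hij (h.2.symm.trans h'.2)]
  · refine fun e => Sym2.inductionOn e fun u v h => ?_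
    rcases mem_union.1 h with h | h
    · exact ⟨u, (mJ i u v h).1, by simp⟩
    · rcases (mQ i u v).1 h with h | h
      exacts [⟨u, (hP2 _ _ h.1).1, by simp⟩, ⟨v, (hP2 _ _ h.1).1, by simp⟩]
  · rw [dg_union (hJQ i i), ← h1 i hi x hx, add_comm]
    congr 1
    refine card_bij (fun w _ => (x, w)) ?_ ?_ ?_
    · intro w hw
      rcases (mQ i x w).1 (mem_nb.1 hw) with h | h
      exacts [mem_filter.2 ⟨h.1, rfl, h.2⟩, absurd hx (hP2 _ _ h.1).2]
    · intro w _ w' _ h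
      exact (Prod.ext_iff.1 h).2
    · rintro ⟨a, w⟩ hp
      obtain ⟨k1, rfl, k3⟩ := mem_filter.1 hp
      exact ⟨w, mem_nb.2 ((mQ i _ w).2 (Or.inl ⟨k1, k3⟩)), rfl⟩
  · refine le_trans (Nat.succ_le_succ (card_le_card fun w hw => ?_)) (h2 i hi x hx)
    obtain ⟨k1, k2⟩ := mem_inter.1 hw
    rcases mem_union.1 (mem_nb.1 k1) with h | h
    · exact mem_nb.2 h
    · rcases (mQ i x w).1 h with h | h
      exacts [absurd k2 (hP2 _ _ h.1).2, absurd hx (hP2 _ _ h.1).2]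
  · have _ := hG
    refine le_trans (card_le_card_of_injOn (fun x => (x, w)) (fun x hx => ?_)
      fun x _ x' _ h => (Prod.ext_iff.1 h).1) (h3 i w)
    have := (mF i x w hw).1 (mem_nb.1 (mem_nb_comm.1 (mem_coe.1 hx)))
    exact mem_coe.2 (mem_filter.2 ⟨this.1, rfl, this.2⟩)

/-- the colours of block `B` -/
def tcolCs (K m B : ℕ) : Finset ℕ := (range K).filter fun i => i % m = B

theorem tcol_cs_card {K b B : ℕ} (hb : 0 < b) (hB : B < K / b) :
    b ≤ (tcolCs K (K / b) B).card ∧ (tcolCs K (K / b) B).card ≤ 2 * b := by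
  have hm : 0 < K / b := (Nat.zero_le _).trans_lt hB
  have h := Nat.count_modEq_card K hm B
  rw [Nat.count_eq_card_filter_range] at h
  have e : tcolCs K (K / b) B = (range K).filter fun i => i ≡ B [MOD K / b] := by
    unfold tcolCs
    refine filter_congr fun i _ => ?_
    rw [Nat.ModEq, Nat.mod_eq_of_lt hB]
  have h1 : b ≤ K / (K / b) := (Nat.le_div_iff_mul_le hm).2 (Nat.mul_div_le K b)
  have h2 : K / (K / b) < 2 * b := by
    rw [Nat.div_lt_iff_lt_mul hm]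
    have := Nat.lt_mul_div_succ K hb
    nlinarith
  rw [e, h]
  split_ifs <;> omega

theorem tcol_blocks (G : Finset (Sym2 V)) (T : Finset V) {K m : ℕ} (hm : 0 < m) (hmK : m ≤ K)
    (h2 : ∀ B < m, 2 ≤ (tcolCs K m B).card) (l : V → V → ℕ) (sd : V → ℕ → ℕ)
    (hsd : ∀ x ∈ T, ∀ B < m, sd x B ≤ 2)
    (ha : ∀ x ∈ T, ∀ B < m, ((nb G x \ T).filter fun w => l x w = B).card =
      2 * ((tcolCs K m B).card - 1) + sd x B)
    (hb : ∀ w, ∀ B < m, 2 * (T.filter fun x => w ∈ nb G x \ T ∧ l x w = B).card ≤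
      (tcolCs K m B).card) :
    ∃ (P : Finset (V × V)) (cp : V × V → ℕ),
      (∀ p, p ∈ P ↔ p.1 ∈ T ∧ p.2 ∈ nb G p.1 \ T ∧ l p.1 p.2 < m) ∧
      (∀ p ∈ P, cp p < K ∧ cp p % m = l p.1 p.2) ∧
      (∀ i < K, ∀ x ∈ T, (P.filter fun p => p.1 = x ∧ cp p = i).card =
        if i < m then sd x i else 2) ∧
      ∀ i w, (P.filter fun p => p.2 = w ∧ cp p = i).card ≤ 1 := by
  set S : ℕ → Finset (V × V) := fun B =>
    univ.filter fun p => p.1 ∈ T ∧ p.2 ∈ nb G p.1 \ T ∧ l p.1 p.2 = B with hS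
  have mS : ∀ B p, p ∈ S B ↔ p.1 ∈ T ∧ p.2 ∈ nb G p.1 \ T ∧ l p.1 p.2 = B := fun B p => by
    simp only [hS, mem_filter, mem_univ, true_and]
  have h0 : ∀ B, ∃ col : V × V → ℕ, B < m → (∀ e ∈ S B, col e ∈ tcolCs K m B) ∧
      (∀ x ∈ T, ∀ c ∈ tcolCs K m B, ((S B).filter fun e => e.1 = x ∧ col e = c).card =
        if c = B then sd x B else 2) ∧
      ∀ w c, ((S B).filter fun e => e.2 = w ∧ col e = c).card ≤ 1 := by
    intro B
    by_cases hB : B < m
    · obtain ⟨col, h⟩ := block (S B) Prod.fst Prod.snd (tcolCs K m B) B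
        (mem_filter.2 ⟨mem_range.2 (hB.trans_le hmK), Nat.mod_eq_of_lt hB⟩) (h2 B hB) T
        (fun x => sd x B) (fun x hx => hsd x hx B hB) (fun e he => ((mS B e).1 he).1)
        (fun x hx => by
          rw [← ha x hx B hB]
          refine card_bij (fun p _ => p.2) ?_ ?_ ?_
          · intro p hp
            obtain ⟨k1, rfl⟩ := mem_filter.1 hp
            exact mem_filter.2 ((mS B p).1 k1).2
          · intro p hp q hq h
            exact Prod.ext ((mem_filter.1 hp).2.trans (mem_filter.1 hq).2.symm) h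
          · intro w hw
            exact ⟨(x, w), mem_filter.2 ⟨(mS B _).2 ⟨hx, mem_filter.1 hw⟩, rfl⟩, rfl⟩)
        (fun w => by
          refine le_trans (Nat.mul_le_mul_left 2 ?_) (hb w B hB)
          refine card_le_card_of_injOn (fun p => p.1) (fun p hp => ?_) fun p hp q hq h => ?_
          · obtain ⟨k1, rfl⟩ := mem_filter.1 (mem_coe.1 hp)
            exact mem_coe.2 (mem_filter.2 ((mS B p).1 k1))
          · exact Prod.ext h ((mem_filter.1 (mem_coe.1 hp)).2.trans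
              (mem_filter.1 (mem_coe.1 hq)).2.symm))
      exact ⟨col, fun _ => h⟩
    · exact ⟨fun _ => 0, fun h => absurd h hB⟩
  choose col hcol using h0
  set P : Finset (V × V) :=
    univ.filter fun p => p.1 ∈ T ∧ p.2 ∈ nb G p.1 \ T ∧ l p.1 p.2 < m with hP
  have mP : ∀ p, p ∈ P ↔ p.1 ∈ T ∧ p.2 ∈ nb G p.1 \ T ∧ l p.1 p.2 < m := fun p => by
    simp only [hP, mem_filter, mem_univ, true_and]
  have hcp : ∀ p ∈ P, col (l p.1 p.2) p < K ∧ col (l p.1 p.2) p % m = l p.1 p.2 := by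
    intro p hp
    obtain ⟨k1, k2, k3⟩ := (mP p).1 hp
    have := mem_filter.1 ((hcol _ k3).1 p ((mS _ p).2 ⟨k1, k2, rfl⟩))
    exact ⟨mem_range.1 this.1, this.2⟩
  have key : ∀ i p, p ∈ P ∧ col (l p.1 p.2) p = i ↔ p ∈ S (i % m) ∧ col (i % m) p = i := by
    intro i p
    constructor
    · rintro ⟨k1, k2⟩
      have k3 := (hcp p k1).2
      rw [k2] at k3
      rw [k3]
      exact ⟨(mS _ p).2 ⟨((mP p).1 k1).1, ((mP p).1 k1).2.1, rfl⟩, k2⟩
    · rintro ⟨k1, k2⟩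
      obtain ⟨k3, k4, k5⟩ := (mS _ p).1 k1
      rw [k5]
      exact ⟨(mP p).2 ⟨k3, k4, k5 ▸ Nat.mod_lt _ hm⟩, k2⟩
  refine ⟨P, fun p => col (l p.1 p.2) p, mP, hcp, fun i hi x hx => ?_, fun i w => ?_⟩
  · have k := (hcol _ (Nat.mod_lt i hm)).2.1 x hx i (mem_filter.2 ⟨mem_range.2 hi, rfl⟩)
    have e : (P.filter fun p => p.1 = x ∧ col (l p.1 p.2) p = i) =
        (S (i % m)).filter fun e => e.1 = x ∧ col (i % m) e = i := by
      ext p
      have := key i p
      simp only [mem_filter (s := P), mem_filter (s := S (i % m))]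
      tauto
    rw [e, k]
    by_cases him : i < m
    · simp [him, Nat.mod_eq_of_lt him]
    · rw [if_neg him, if_neg]
      intro h
      exact him (h ▸ Nat.mod_lt i hm)
  · refine le_trans (card_le_card fun p hp => ?_) ((hcol _ (Nat.mod_lt i hm)).2.2 w i)
    obtain ⟨k1, k2, k3⟩ := mem_filter.1 hp
    have := (key i p).1 ⟨k1, k3⟩
    exact mem_filter.2 ⟨this.1, k2, this.2⟩

end

end Pool.Agent.MP_1376f1_pr
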