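import Pool.Agent.MP_1376f1_pr.Mg.Conv
import Pool.Agent.MP_1376f1_pr.Mg.Round
import Pool.Agent.MP_1376f1_pr.Mg.Greedy
import Pool.Agent.MP_1376f1_pr.Mg.TCol0

/-!
Path systems through the atypical vertices.
-/

set_option autoImplicit false
set_option linter.unusedSectionVars false

namespace Pool.Agent.MP_1376f1_pr

open Finset MP_d802e4_co
open scoped Classical

noncomputable section



theorem tcol_num1 {η ε L u h E M Λ k σ W lg : ℝ} (hη : 0 < η) (hε : 0 < ε) (hk : 0 < k)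
    (hΛ : 0 ≤ Λ) (hE0 : 0 ≤ E) (hE : E * M * Λ ≤ 5 / ε * k) (hu : ε * L ≤ u) (hu0 : 0 ≤ u)
    (hσ : 2 * σ * W ≤ M * u) (hlg : lg ≤ 4 * L)
    (hh : 20 / (η * ε) * h ≤ lg + E * (σ / (k / 2) * (W * Λ))) : h ≤ 9 / 20 * η * u := by
  have h1 : E * (σ / (k / 2) * (W * Λ)) ≤ 5 / ε * u := by
    rw [show E * (σ / (k / 2) * (W * Λ)) = (2 * σ * W) * (E * Λ) / k by field_simp,
      div_le_iff₀ hk]
    have a1 := mul_le_mul_of_nonneg_right hσ (mul_nonneg hE0 hΛ)
    have a2 := mul_le_mul_of_nonneg_right hE hu0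
    nlinarith
  have h2 : L ≤ u / ε := by rw [le_div_iff₀ hε]; linarith
  have h3 : 20 / (η * ε) * h ≤ 9 / ε * u := by
    have e1 : 9 / ε * u = 4 * (u / ε) + 5 / ε * u := by ring
    linarith
  have h4 := mul_le_mul_of_nonneg_left h3 (mul_pos hη hε).le
  rw [show η * ε * (20 / (η * ε) * h) = 20 * h by field_simp,
    show η * ε * (9 / ε * u) = 9 * η * u by field_simp] at h4
  linarith

theorem tcol_num2 {c n b h Λ k lg : ℝ} (hc : 0 < c) (hn : 1 < n) (hk : 0 < k) (hb : 0 ≤ b)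
    (hΛ0 : 0 ≤ Λ) (hΛ : Λ ≤ k / n ^ c) (hL : 8 * b ≤ Real.log n) (hlg : lg ≤ 4 * Real.log n)
    (hh : c / 2 * Real.log n * h ≤
      lg + Real.exp (c / 2 * Real.log n) * (4 * b / (k / 2) * (1 * Λ))) : 2 * h ≤ 20 / c := by
  have hL0 := Real.log_pos hn
  have hp : 0 < n ^ c := Real.rpow_pos_of_pos (by linarith) c
  have h1 : Real.exp (c / 2 * Real.log n) ≤ n ^ c := by
    rw [Real.rpow_def_of_pos (by linarith)]
    exact Real.exp_le_exp.2 (by nlinarith)
  have h2 : Real.exp (c / 2 * Real.log n) * (4 * b / (k / 2) * (1 * Λ)) ≤ 8 * b := by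
    refine (mul_le_mul_of_nonneg_right h1 (by positivity)).trans ?_
    rw [le_div_iff₀ hp] at hΛ
    rw [show n ^ c * (4 * b / (k / 2) * (1 * Λ)) = 8 * b * (Λ * n ^ c) / k by field_simp; ring,
      div_le_iff₀ hk]
    exact mul_le_mul_of_nonneg_left hΛ (by positivity)
  rw [le_div_iff₀ hc]
  refine le_of_mul_le_mul_left ?_ hL0
  nlinarith

theorem tcol_dm_sum (k : ℕ) {m : ℕ} (hm : 0 < m) : ∑ B ∈ range m, dm k B + k % 2 = 2 * m := by
  obtain ⟨m, rfl⟩ := Nat.exists_eq_succ_of_ne_zero hm.ne'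
  rw [sum_range_succ', sum_congr rfl (g := fun _ => 2) fun B _ => by simp [dm]]
  simp only [sum_const, card_range, smul_eq_mul, dm, true_and]
  split_ifs <;> omega

theorem tcol_dx_sum {V : Type} [Fintype V] [DecidableEq V] (G : Finset (Sym2 V)) {k m : ℕ} {x : V}
    (hm : 0 < m) (h : dg G x < k → k % 2 = 1) :
    ∑ B ∈ range m, dx G k B x + k % 2 + (if dg G x < k then 1 else 0) = 2 * m := by
  obtain ⟨m, rfl⟩ := Nat.exists_eq_succ_of_ne_zero hm.ne'
  rw [sum_range_succ', sum_congr rfl (g := fun _ => 2) fun B _ => by simp [dx, dm]]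
  simp only [sum_const, card_range, smul_eq_mul, dx, dm, true_and]
  split_ifs <;> omega

theorem tcol_main {V : Type} [Fintype V] [DecidableEq V] {η c ε : ℝ} {C0 b : ℕ} (hη : 0 < η)
    (hc : 0 < c) (hε : 0 < ε) (G : Finset (Sym2 V)) (T : Finset V) (k : ℕ) (s Λ : ℝ)
    (ys : Finset ℝ) (Ns : Finset (Finset V)) (hb2 : 2 ≤ b) (hbC : 2 * C0 ≤ b)
    (hbc : 20 / c ≤ b) (hn : 4 ≤ nV V) (hL : 8 * (b : ℝ) ≤ Real.log (nV V))
    (hεL : 1 ≤ ε * Real.log (nV V)) (hk8 : 8 * b ≤ k) (hΛk : 8 * b * Λ ≤ k)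
    (hE : Real.exp (20 / (η * ε)) * (16 * b + 2 * 10 ^ 4) * Λ ≤ 5 / ε * k)
    (hG : On univ G) (hkn : (k : ℝ) ≤ nV V) (hs : ε * Real.log (nV V) ≤ s)
    (hN : Near G k) (hT : ∀ x ∈ T, (dg G x : ℝ) ≤ k + 10 ^ 4 * s)
    (hΛ : ∀ v, ((nb G v ∩ T).card : ℝ) ≤ Λ) (hΛc : Λ ≤ C0 ∨ Λ ≤ k / nV V ^ c)
    (hys : (ys.card : ℝ) ≤ nV V) (hys' : ∀ y ∈ ys, ε * Real.log (nV V) ≤ y)
    (hNs : (Ns.card : ℝ) ≤ nV V ^ 2) (hNs' : ∀ N ∈ Ns, ε * Real.log (nV V) ≤ N.card) :
    ∃ F, TSys G T k F ∧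
      (∀ y ∈ ys, ∀ w, w ∉ T → (((range (KK k)).filter fun i : ℕ =>
        (i : ℝ) < y ∧ w ∈ tch (F i)).card : ℝ) ≤ η * y) ∧
      (∀ w, w ∉ T → ((nb G w ∩ T).card : ℝ) ≤
        (∑ i ∈ range (KK k), dg (F i) w : ℕ) + η * s) ∧
      ∀ N ∈ Ns, ∀ i < KK k, (((N ∩ tch (F i)) \ T).card : ℝ) ≤ η * N.card := by
  have hV : Nonempty V := Fintype.card_pos_iff.1 (by
    have : (0 : ℝ) < Fintype.card V := lt_of_lt_of_le (by norm_num) hn
    exact_mod_cast this)
  obtain ⟨v₀⟩ := id hV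
  have hΛ0 : 0 ≤ Λ := (Nat.cast_nonneg _).trans (hΛ v₀)
  have hb0 : 0 < b := by omega
  have hb1 : (2 : ℝ) ≤ b := by exact_mod_cast hb2
  have hk0 : (0 : ℝ) < k := by exact_mod_cast (by omega : 0 < k)
  have hs0 : 0 ≤ s := by linarith
  have hK : 2 * KK k = k + k % 2 := by unfold KK; omega
  set K := KK k with hKdef
  set m := K / b with hm
  have hKm : K < b * (m + 1) := Nat.lt_mul_div_succ K hb0
  have hm4 : 4 ≤ m := by
    by_contra h
    have : b * (m + 1) ≤ b * 4 := Nat.mul_le_mul_left b (by omega)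
    omega
  have hm0 : 0 < m := by omega
  have hmK : m ≤ K := Nat.div_le_self K b
  have hcs : ∀ B < m, b ≤ (tcolCs K m B).card ∧ (tcolCs K m B).card ≤ 2 * b :=
    fun B hB => tcol_cs_card hb0 hB
  -- inner edges
  have hΔ : 2 * ⌊Λ⌋₊ ≤ (Ico 1 m).card := by
    have h1 : 8 * b * ⌊Λ⌋₊ ≤ k := by
      have := mul_le_mul_of_nonneg_left (Nat.floor_le hΛ0) (by positivity : (0 : ℝ) ≤ 8 * b)
      exact_mod_cast this.trans hΛk
    have h2 : 4 * ⌊Λ⌋₊ < m + 1 := by
      refine Nat.lt_of_mul_lt_mul_left (a := 2 * b) ?_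
      have e1 : 2 * b * (4 * ⌊Λ⌋₊) = 8 * b * ⌊Λ⌋₊ := by ring
      have e2 : 2 * b * (m + 1) = 2 * (b * (m + 1)) := by ring
      omega
    rw [Nat.card_Ico]
    omega
  obtain ⟨col, hcol, hcol'⟩ := lcol (inside G T) (on_inside hG) ⌊Λ⌋₊ (fun v => by
      refine Nat.le_floor (le_trans ?_ (hΛ v))
      refine Nat.cast_le.2 (card_le_card fun u hu => ?_)
      have := mem_inside.1 (mem_nb.1 hu)
      exact mem_inter.2 ⟨mem_nb.2 this.1, this.2 u (by simp)⟩)
    (fun _ => Ico 1 m) (fun _ _ => hΔ)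
  set t : V → ℕ → ℕ := fun x B => dg ((inside G T).filter fun e => col e = B) x with ht
  have ht1 : ∀ x B, t x B ≤ 1 := fun x B => by
    have := hcol' B x
    rwa [filter_congr_decidable] at this
  have ht0 : ∀ x B, B ∉ Ico 1 m → t x B = 0 := fun x B hB => by
    simp only [ht]
    rw [filter_false_of_mem fun e he (h : col e = B) => hB (h ▸ hcol e he), dg_empty]
  have htsum : ∀ x ∈ T, ∑ B ∈ range m, t x B = (nb G x ∩ T).card := by
    intro x hx
    simp only [ht]
    rw [← dg_biUnion _ _ (fun i _ j _ hij => disjoint_left.2 fun e h h' =>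
      hij ((mem_filter.1 h).2.symm.trans (mem_filter.1 h').2)), ← nb_inside hx, dg]
    congr 2
    ext e
    simp only [mem_biUnion, mem_filter (s := inside G T), mem_range]
    exact ⟨fun ⟨_, _, h, _⟩ => h, fun h => ⟨_, (mem_Ico.1 (hcol e h)).2, h, rfl⟩⟩
  have hdm : ∀ x B, t x B + 1 ≤ dm k B ∧ dm k B ≤ 2 := by
    intro x B
    have := ht1 x B
    by_cases hB : B = 0
    · have := ht0 x B (by simp [hB])
      unfold dm
      split_ifs <;> omega
    · simp only [dm, hB, false_and, if_false]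
      omega
  have hdx : ∀ x B, t x B ≤ dx G k B x ∧ dx G k B x ≤ 2 := by
    intro x B
    refine ⟨?_, dx_le G k B x⟩
    have := hdm x B
    unfold dx
    split_ifs with h
    · rw [ht0 x B (by simp [h.1])]
    · omega
  set d : V → ℕ → ℕ := fun x B =>
    if B < m then 2 * ((tcolCs K m B).card - 1) + (dx G k B x - t x B) else dg G x - k with hd
  have hd4 : ∀ x, ∀ B < m, d x B ≤ 4 * b := by
    intro x B hB
    have := hcs B hB
    have := hdx x B
    simp only [hd, if_pos hB]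
    omega
  have hsplit : ∀ x, (nb G x \ T).card + (nb G x ∩ T).card = dg G x := fun x =>
    card_sdiff_add_card_inter _ _
  have hsum : ∀ x ∈ T, ∑ B ∈ range (m + 1), d x B = (nb G x \ T).card := by
    intro x hx
    have h1 : ∑ B ∈ range m, (d x B + 2 + t x B) =
        ∑ B ∈ range m, (2 * (tcolCs K m B).card + dx G k B x) := by
      refine sum_congr rfl fun B hB => ?_
      have := hcs B (mem_range.1 hB)
      have := hdx x B
      simp only [hd, if_pos (mem_range.1 hB)]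
      omega
    have h2 : K = ∑ B ∈ range m, (tcolCs K m B).card := by
      have := card_eq_sum_card_fiberwise (s := range K) (t := range m) (f := fun i => i % m)
        fun i _ => mem_coe.2 (mem_range.2 (Nat.mod_lt i hm0))
      rwa [card_range] at this
    rw [sum_add_distrib, sum_add_distrib, sum_add_distrib, ← mul_sum, ← h2, htsum x hx,
      sum_const, card_range, smul_eq_mul] at h1
    have h3 := tcol_dx_sum G hm0 (hN.odd (v := x))
    have h4 := hsplit x
    have h5 := hN.1 x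
    have h6 : d x m = dg G x - k := by simp only [hd, lt_irrefl, if_false]
    rw [sum_range_succ, h6]
    split_ifs at h3 <;> omega
  have hD : ∀ x ∈ T, (k : ℝ) / 2 ≤ (nb G x \ T).card := by
    intro x hx
    have h1 : ((nb G x \ T).card : ℝ) + (nb G x ∩ T).card = dg G x := by exact_mod_cast hsplit x
    have h2 : (k : ℝ) ≤ dg G x + 1 := by exact_mod_cast hN.1 x
    have h3 := hΛ x
    have h4 : (16 : ℝ) ≤ k := by exact_mod_cast (by omega : 16 ≤ k)
    nlinarith
  -- the tests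
  set ϑ : ℝ := 20 / (η * ε) with hϑ
  have hϑ0 : 0 ≤ ϑ := by positivity
  have hL0 : 0 ≤ Real.log (nV V) := Real.log_nonneg (by linarith)
  set Y : Finset (Finset V × Finset ℕ × ℝ) :=
    ((univ ×ˢ range m).image fun p : V × ℕ => ({p.1}, {p.2}, c / 2 * Real.log (nV V))) ∪
    ((univ ×ˢ ys).image fun p : V × ℝ =>
      ({p.1}, (range m).filter fun B : ℕ => (B : ℝ) < p.2, ϑ)) ∪
    (univ.image fun w : V => ({w}, {m}, ϑ)) ∪
    ((Ns ×ˢ range m).image fun p : Finset V × ℕ => (p.1, {p.2}, ϑ)) with hY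
  have hmn : (m : ℝ) ≤ nV V := le_trans (by exact_mod_cast (by omega : m ≤ k)) hkn
  have hlg : Real.log Y.card ≤ 4 * Real.log (nV V) := by
    have h1 : Y.card ≤ Fintype.card V * m + Fintype.card V * ys.card + Fintype.card V +
        Ns.card * m := by
      refine (card_union_le _ _).trans (Nat.add_le_add ((card_union_le _ _).trans
        (Nat.add_le_add ((card_union_le _ _).trans (Nat.add_le_add ?_ ?_)) ?_)) ?_) <;>
        refine card_image_le.trans ?_ <;> simp
    have h2 : (Y.card : ℝ) ≤ nV V * m + nV V * ys.card + nV V + Ns.card * m := by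
      unfold nV
      exact_mod_cast h1
    have h3 : (Y.card : ℝ) ≤ nV V ^ 4 := by
      have a0 : 0 ≤ nV V := by linarith
      have a1 := mul_le_mul_of_nonneg_left hmn a0
      have a2 := mul_le_mul_of_nonneg_left hys a0
      have a3 := mul_le_mul hNs hmn (Nat.cast_nonneg _) (by positivity)
      have a4 : 4 * nV V ≤ nV V ^ 2 := by nlinarith
      have a5 : 4 * nV V ^ 2 ≤ nV V ^ 3 := by nlinarith
      have a6 : 4 * nV V ^ 3 ≤ nV V ^ 4 := by nlinarith
      nlinarith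
    rcases (Nat.cast_nonneg (α := ℝ) Y.card).eq_or_lt with h | h
    · rw [← h, Real.log_zero]
      positivity
    · refine (Real.log_le_log h h3).trans ?_
      rw [Real.log_pow]
      norm_num
  obtain ⟨l, hl1, hl2, hl3⟩ := tcol_tests G T (m + 1) d hsum (half_pos hk0) hD hΛ Y
    (by
      intro y hy
      simp only [hY, mem_union, mem_image] at hy
      rcases hy with ((⟨p, -, rfl⟩ | ⟨p, -, rfl⟩) | ⟨p, -, rfl⟩) | ⟨p, -, rfl⟩
      exacts [by positivity, hϑ0, hϑ0, hϑ0])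
    (by
      intro y hy
      simp only [hY, mem_union, mem_image, mem_product, mem_range] at hy
      rcases hy with ((⟨p, hp, rfl⟩ | ⟨p, -, rfl⟩) | ⟨p, -, rfl⟩) | ⟨p, hp, rfl⟩
      · exact singleton_subset_iff.2 (mem_range.2 (by omega))
      · exact (filter_subset _ _).trans (range_subset_range.2 (Nat.le_succ m))
      · exact singleton_subset_iff.2 (mem_range.2 (by omega))
      · exact singleton_subset_iff.2 (mem_range.2 (by omega)))
  have key : ∀ W S, (W, S, ϑ) ∈ Y → ∀ σ u : ℝ, 0 ≤ σ → (∀ x ∈ T, (∑ B ∈ S, d x B : ℕ) ≤ σ) →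
      ε * Real.log (nV V) ≤ u → 2 * σ * W.card ≤ (16 * b + 2 * 10 ^ 4) * u →
      ((T.filter fun x => tcolHit (nb G x \ T) (l x) (W, S, ϑ)).card : ℝ) ≤ 9 / 20 * η * u :=
    fun W S hy σ u hσ0 hσ hu hW => tcol_num1 hη hε hk0 hΛ0 (Real.exp_pos _).le hE hu
      (by linarith) hW hlg (hl3 _ hy σ hσ0 hσ)
  have hd4' : ∀ B < m, ∀ x ∈ T, ((∑ B ∈ {B}, d x B : ℕ) : ℝ) ≤ 4 * b := fun B hB x _ => by
    rw [sum_singleton]
    exact_mod_cast hd4 x B hB
  obtain ⟨P, cp, mP, hcp, hP1, hP2⟩ := tcol_blocks G T hm0 hmK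
    (fun B hB => hb2.trans (hcs B hB).1) l (fun x B => dx G k B x - t x B)
    (fun x _ B _ => by have := hdx x B; omega)
    (fun x hx B hB => by rw [hl2 x hx B (by omega)]; simp only [hd, if_pos hB])
    (fun w B hB => by
      refine le_trans ?_ (hcs B hB).1
      rcases hΛc with h | h
      · refine le_trans (Nat.mul_le_mul_left 2 ?_) hbC
        have h1 : ((nb G w ∩ T).card : ℝ) ≤ C0 := (hΛ w).trans h
        refine le_trans (card_le_card fun x hx => ?_) (Nat.cast_le.1 h1)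
        obtain ⟨k1, k2, -⟩ := mem_filter.1 hx
        exact mem_inter.2 ⟨mem_nb_comm.1 (mem_sdiff.1 k2).1, k1⟩
      · have h1 := hl3 ({w}, {B}, c / 2 * Real.log (nV V))
          (mem_union_left _ (mem_union_left _ (mem_union_left _ (mem_image.2
            ⟨(w, B), mem_product.2 ⟨mem_univ _, mem_range.2 hB⟩, rfl⟩)))) (4 * b)
          (by positivity) (hd4' B hB)
        simp only [card_singleton, Nat.cast_one] at h1
        have h2 := (tcol_num2 hc (by linarith) hk0 (by linarith) hΛ0 h hL hlg h1).trans hbc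
        refine le_trans (Nat.mul_le_mul_left 2 (card_le_card fun x hx => ?_))
          (by exact_mod_cast h2)
        obtain ⟨k1, k2, k3⟩ := mem_filter.1 hx
        exact mem_filter.2 ⟨k1, w, mem_singleton_self w, k2, mem_singleton.2 k3⟩)
  obtain ⟨F, hF, mF⟩ := tcol_build (k := k) col P cp
    (fun p hp => ⟨((mP p).1 hp).1, ((mP p).1 hp).2.1⟩)
    (fun i hi x hx => by
      rw [hP1 i hi x hx]
      have h1 := hdx x i
      show _ + t x i = _
      split_ifs with h
      · omega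
      · rw [ht0 x i (by simp; omega)]
        simp [dx, dm, show i ≠ 0 by omega])
    (fun i _ x _ => (hdm x i).1) hP2 hG
  have htch : ∀ i w, w ∉ T → w ∈ tch (F i) → ∃ x, (x, w) ∈ P ∧ cp (x, w) = i := by
    intro i w hw h
    obtain ⟨x, hx⟩ := card_pos.1 (mem_tch.1 h)
    exact ⟨x, (mF i x w hw).1 (mem_nb.1 (mem_nb_comm.1 hx))⟩
  refine ⟨F, hF, fun y hy w hw => ?_, fun w hw => ?_, fun N hN i hi => ?_⟩
  · have hy1 : 1 ≤ y := hεL.trans (hys' y hy)
    have h1 := key {w} ((range m).filter fun B : ℕ => (B : ℝ) < y)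
      (mem_union_left _ (mem_union_left _ (mem_union_right _ (mem_image.2
        ⟨(w, y), mem_product.2 ⟨mem_univ _, hy⟩, rfl⟩)))) (8 * b * y) y (by positivity)
      (fun x _ => by
        have a1 := sum_le_card_nsmul ((range m).filter fun B : ℕ => (B : ℝ) < y) (d x) (4 * b)
          fun B hB => hd4 x B (mem_range.1 (mem_filter.1 hB).1)
        have a2 : ((range m).filter fun B : ℕ => (B : ℝ) < y).card ≤ ⌈y⌉₊ := by
          rw [← card_range ⌈y⌉₊]
          exact card_le_card fun B hB => mem_range.2 (Nat.lt_ceil.2 (mem_filter.1 hB).2)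
        have a3 : ((∑ B ∈ (range m).filter fun B : ℕ => (B : ℝ) < y, d x B : ℕ) : ℝ)
            ≤ ⌈y⌉₊ * (4 * b) := by
          exact_mod_cast a1.trans (Nat.mul_le_mul_right _ a2)
        have a4 := Nat.ceil_lt_add_one (by linarith : 0 ≤ y)
        nlinarith)
      (hys' y hy) (by simp only [card_singleton, Nat.cast_one]; nlinarith)
    refine le_trans (Nat.cast_le.2 ((card_le_card (t := (T.filter fun x => tcolHit (nb G x \ T) (l x)
      ({w}, (range m).filter fun B : ℕ => (B : ℝ) < y, ϑ)).image fun x => cp (x, w))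
      fun i hi => ?_).trans card_image_le)) (h1.trans (by nlinarith))
    obtain ⟨-, k1, k2⟩ := mem_filter.1 hi
    obtain ⟨x, k3, k4⟩ := htch i w hw k2
    obtain ⟨k5, k6, k7⟩ := (mP _).1 k3
    refine mem_image.2 ⟨x, mem_filter.2 ⟨k5, w, mem_singleton_self w, k6,
      mem_filter.2 ⟨mem_range.2 k7, lt_of_le_of_lt (Nat.cast_le.2 ?_) k1⟩⟩, k4⟩
    have := (hcp _ k3).2
    rw [k4] at this
    exact this ▸ Nat.mod_le i m
  · have h1 := key {w} {m} (mem_union_left _ (mem_union_right _ (mem_image.2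
        ⟨w, mem_univ _, rfl⟩))) (10 ^ 4 * s) s (by positivity)
      (fun x hx => by
        rw [sum_singleton]
        simp only [hd, lt_irrefl, if_false]
        rcases le_total k (dg G x) with h | h
        · rw [Nat.cast_sub h]
          linarith [hT x hx]
        · rw [Nat.sub_eq_zero_of_le h, Nat.cast_zero]
          positivity)
      hs (by simp only [card_singleton, Nat.cast_one]; nlinarith)
    have h2 : (nb G w ∩ T).card ≤ ∑ i ∈ range K, dg (F i) w +
        (T.filter fun x => tcolHit (nb G x \ T) (l x) ({w}, {m}, ϑ)).card := by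
      refine le_trans (card_le_card (t := ((range K).biUnion fun i => nb (F i) w) ∪
        T.filter fun x => tcolHit (nb G x \ T) (l x) ({w}, {m}, ϑ)) fun x hx => ?_)
        ((card_union_le _ _).trans (Nat.add_le_add_right card_biUnion_le _))
      obtain ⟨k1, k2⟩ := mem_inter.1 hx
      have k3 : w ∈ nb G x \ T := mem_sdiff.2 ⟨mem_nb_comm.1 k1, hw⟩
      rcases (Nat.lt_succ_iff.1 (hl1 x k2 w k3)).lt_or_eq with h | h
      · have k4 : (x, w) ∈ P := (mP _).2 ⟨k2, k3, h⟩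
        exact mem_union_left _ (mem_biUnion.2 ⟨_, mem_range.2 (hcp _ k4).1,
          mem_nb_comm.1 (mem_nb.2 ((mF _ x w hw).2 ⟨k4, rfl⟩))⟩)
      · exact mem_union_right _ (mem_filter.2
          ⟨k2, w, mem_singleton_self w, k3, mem_singleton.2 h⟩)
    have h3 := (Nat.cast_le (α := ℝ)).2 h2
    rw [Nat.cast_add] at h3
    nlinarith [mul_nonneg hη.le hs0]
  · have hN0 : (0 : ℝ) ≤ N.card := Nat.cast_nonneg _
    have h1 := key N {i % m} (mem_union_right _ (mem_image.2
        ⟨(N, i % m), mem_product.2 ⟨hN, mem_range.2 (Nat.mod_lt i hm0)⟩, rfl⟩)) (4 * b) N.card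
      (by positivity) (hd4' _ (Nat.mod_lt i hm0)) (hNs' N hN) (by nlinarith)
    have h2 : ((N ∩ tch (F i)) \ T).card ≤
        (T.filter fun x => tcolHit (nb G x \ T) (l x) (N, {i % m}, ϑ)).card * 2 := by
      refine le_trans (card_le_card (t := (T.filter fun x => tcolHit (nb G x \ T) (l x)
        (N, {i % m}, ϑ)).biUnion fun x => nb (F i) x) fun w hw => ?_)
        (card_biUnion_le.trans (sum_le_card_nsmul _ _ 2 fun x hx => ?_))
      · obtain ⟨k1, k2⟩ := mem_sdiff.1 hw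
        obtain ⟨x, k3, k4⟩ := htch i w k2 (mem_inter.1 k1).2
        obtain ⟨k5, k6, -⟩ := (mP _).1 k3
        have := (hcp _ k3).2
        rw [k4] at this
        exact mem_biUnion.2 ⟨x, mem_filter.2 ⟨k5, w, (mem_inter.1 k1).1, k6,
          mem_singleton.2 this.symm⟩, mem_nb.2 ((mF i x w k2).2 ⟨k3, k4⟩)⟩
      · exact (hF.degT i hi x (mem_filter.1 hx).1).le.trans (hdx x i).2
    have h3 := (Nat.cast_le (α := ℝ)).2 h2
    push_cast at h3
    nlinarith [mul_nonneg hη.le hN0]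

/-- Hint: `b = max (2 C0 + 2) (⌈20 / c⌉₊ + 2)`, `nbk = KK k / b` blocks, colour `i` belongs to block
`i % nbk` (between `b` and `2 b` colours per block), the special colour of block `B` is `B`.
`ζ = Λ / k` tends to 0. Colour `inside G T` by `lcol` with the lists `Ico 1 nbk`. For `x ∈ T`
block `B` needs `dmB x B = ∑ (i in B) dm k i - (1 if x has an edge of colour B inside T)` of the
`Dx = |nb G x \ T| ≥ k / 2` edges to `Tᶜ`; the total is `k - |nb G x ∩ T| ≤ Dx`, the number of unused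
edges is `dg G x - k ≤ 10 ^ 4 s`. Fix a labelling of `ZMod Dx` (or `range Dx`) by `Option ℕ` with
these multiplicities and an enumeration of `nb G x \ T`; the options of `x` are the `Dx` cyclic
shifts; a fixed edge gets a label in a given set for exactly as many shifts as there are positions
with such a label. Apply `greedy_indep` to the tests (at most `n ^ 4`): `(w, B)`: the edge `xw` has
label `B` (bound `b / 2`; trivial if `Λ ≤ C0`, otherwise `ϑ = c / 2 * log n`); `(w, y)`: the label of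
`xw` is a block containing a colour below `y`; `w`: the edge `xw` is unused; `(N, B)`: some edge
from `x` to `N \ T` has label `B` (each such `x` contributes at most 2 vertices to
`tch (F i)`); for the last three kinds `ϑ = 20 / (η ε)`. Finally apply `block` in each block to the
pairs `(x, w)`. -/
theorem tcol {η c ε : ℝ} (C0 : ℕ) (hη : 0 < η) (hc : 0 < c) (hε : 0 < ε) :
    ∃ n0 : ℝ, ∀ (V : Type) [Fintype V] [DecidableEq V], n0 ≤ nV V →
    ∀ (G : Finset (Sym2 V)) (T : Finset V) (k : ℕ) (s Λ : ℝ) (ys : Finset ℝ)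
      (Ns : Finset (Finset V)), On univ G → (k : ℝ) ≤ nV V → ε * Real.log (nV V) ≤ k →
      ε * Real.log (nV V) ≤ s →
      Near G k → (∀ x ∈ T, (dg G x : ℝ) ≤ k + 10 ^ 4 * s) →
      (∀ v, ((nb G v ∩ T).card : ℝ) ≤ Λ) → (Λ ≤ C0 ∨ Λ ≤ k / nV V ^ c) →
      (ys.card : ℝ) ≤ nV V → (∀ y ∈ ys, ε * Real.log (nV V) ≤ y) →
      (Ns.card : ℝ) ≤ nV V ^ 2 → (∀ N ∈ Ns, ε * Real.log (nV V) ≤ N.card) →
      ∃ F, TSys G T k F ∧
        (∀ y ∈ ys, ∀ w, w ∉ T → (((range (KK k)).filter fun i : ℕ =>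
          (i : ℝ) < y ∧ w ∈ tch (F i)).card : ℝ) ≤ η * y) ∧
        (∀ w, w ∉ T → ((nb G w ∩ T).card : ℝ) ≤
          (∑ i ∈ range (KK k), dg (F i) w : ℕ) + η * s) ∧
        ∀ N ∈ Ns, ∀ i < KK k, (((N ∩ tch (F i)) \ T).card : ℝ) ≤ η * N.card := by
  obtain ⟨b, hb2, hbC, hbc⟩ : ∃ b : ℕ, 2 ≤ b ∧ 2 * C0 ≤ b ∧ 20 / c ≤ b :=
    ⟨2 * C0 + 2 + ⌈20 / c⌉₊, by omega, by omega,
      (Nat.le_ceil _).trans (Nat.cast_le.2 (by omega))⟩
  obtain ⟨R, hR0, hR1, hR2⟩ : ∃ R : ℝ, 0 < R ∧ 8 * b ≤ R ∧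
      Real.exp (20 / (η * ε)) * (16 * b + 2 * 10 ^ 4) ≤ 5 / ε * R := by
    refine ⟨8 * b + ε / 5 * (Real.exp (20 / (η * ε)) * (16 * b + 2 * 10 ^ 4)), by positivity,
      le_add_of_nonneg_right (by positivity), ?_⟩
    rw [mul_add (5 / ε), ← mul_assoc (5 / ε) (ε / 5), show 5 / ε * (ε / 5) = 1 by field_simp, one_mul]
    exact le_add_of_nonneg_left (by positivity)
  have ev : ∀ᶠ n : ℝ in Filter.atTop, 4 ≤ n ∧ 8 * (b : ℝ) ≤ Real.log n ∧
      1 + 8 * b + R * C0 ≤ ε * Real.log n ∧ R ≤ n ^ c :=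
    (Filter.eventually_ge_atTop _).and ((Real.tendsto_log_atTop.eventually_ge_atTop _).and
      (((Real.tendsto_log_atTop.const_mul_atTop hε).eventually_ge_atTop _).and
        ((tendsto_rpow_atTop hc).eventually_ge_atTop _)))
  obtain ⟨n0, hn0⟩ := Filter.eventually_atTop.1 ev
  refine ⟨n0, fun V _ _ hn G T k s Λ ys Ns hG hkn hk hs hN hT hΛ hΛc hys hys' hNs hNs' => ?_⟩
  obtain ⟨h1, h2, h3, h4⟩ := hn0 _ hn
  have hV : Nonempty V := Fintype.card_pos_iff.1 (by
    have : (0 : ℝ) < Fintype.card V := lt_of_lt_of_le (by norm_num) h1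
    exact_mod_cast this)
  obtain ⟨v₀⟩ := hV
  have hΛ0 : 0 ≤ Λ := (Nat.cast_nonneg _).trans (hΛ v₀)
  have hb0 : (0 : ℝ) ≤ b := Nat.cast_nonneg _
  have hRC : 0 ≤ R * C0 := by positivity
  have hRΛ : R * Λ ≤ k := by
    rcases hΛc with h | h
    · have := mul_le_mul_of_nonneg_left h hR0.le
      linarith
    · rw [le_div_iff₀ (hR0.trans_le h4)] at h
      have := mul_le_mul_of_nonneg_right h4 hΛ0
      linarith
  refine tcol_main hη hc hε G T k s Λ ys Ns hb2 hbC hbc h1 h2 (by linarith) ?_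
    ((mul_le_mul_of_nonneg_right hR1 hΛ0).trans hRΛ) ?_ hG hkn hs hN hT hΛ hΛc hys hys' hNs hNs'
  · have : (8 * b : ℝ) ≤ k := by linarith
    exact_mod_cast this
  · refine (mul_le_mul_of_nonneg_right hR2 hΛ0).trans ?_
    rw [mul_assoc]
    exact mul_le_mul_of_nonneg_left hRΛ (by positivity)

end

end Pool.Agent.MP_1376f1_pr
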