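import Pool.Agent.MP_1376f1_pr.Mg.Machine
import Pool.Agent.MP_1376f1_pr.Mg.TCol
import Pool.Agent.MP_1376f1_pr.Mg.Conv

/-!
The middle range, deterministic part.
-/

set_option autoImplicit false
set_option linter.unusedSectionVars false

namespace Pool.Agent.MP_1376f1_pr

open Finset MP_d802e4_co
open scoped Classical

noncomputable section



section RegBAux

variable {V : Type} [Fintype V] [DecidableEq V]

lemma regb_nb_res {P G : Finset (Sym2 V)} {T : Finset V} (hP : P ⊆ G) {w : V} (hw : w ∉ T) :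
    nb (P ∩ inside G Tᶜ) w = nb P w \ T := by
  rw [nb_inter, nb_inside (mem_compl.2 hw)]
  ext u
  simp only [mem_inter, mem_compl, mem_sdiff]
  constructor
  · rintro ⟨h1, _, h3⟩; exact ⟨h1, h3⟩
  · rintro ⟨h1, h3⟩; exact ⟨h1, nb_mono hP w h1, h3⟩

lemma regb_resD {G : Finset (Sym2 V)} {D : V → Finset V} {T : Finset V} (hP : arcE D ⊆ G) {w : V}
    (hw : w ∉ T) : resD D (inside G Tᶜ) w = D w \ T := by
  ext u
  rw [mem_resD, ← mem_nb, nb_inside (mem_compl.2 hw)]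
  simp only [mem_inter, mem_compl, mem_sdiff]
  constructor
  · rintro ⟨h1, _, h3⟩; exact ⟨h1, h3⟩
  · rintro ⟨h1, h3⟩; exact ⟨h1, nb_mono hP w (subset_nb_arcE D w h1), h3⟩

lemma regb_card_sdiff (N T : Finset V) :
    ((N \ T).card : ℝ) = N.card - ((N ∩ T).card : ℝ) := by
  have := card_sdiff_add_card_inter N T
  have h2 : ((N \ T).card : ℝ) + ((N ∩ T).card : ℝ) = N.card := by exact_mod_cast this
  linarith

lemma regb_T_card {G : Finset (Sym2 V)} {T : Finset V} {k : ℕ} {Λ : ℝ}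
    (hk : ∀ v, k ≤ dg G v) (hΛ : ∀ v, ((nb G v ∩ T).card : ℝ) ≤ Λ) :
    (T.card : ℝ) * k ≤ nV V * Λ := by
  have h1 : ∑ x ∈ T, dg G x = ∑ v : V, (nb G v ∩ T).card := by
    have e1 : ∀ x, dg G x = ∑ v : V, if s(x, v) ∈ G then 1 else 0 := by
      intro x
      unfold dg nb
      rw [card_filter]
    have e2 : ∀ v, (nb G v ∩ T).card = ∑ x ∈ T, if s(x, v) ∈ G then 1 else 0 := by
      intro v
      rw [← card_filter]
      congr 1
      ext x
      simp only [mem_inter, mem_nb, mem_filter]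
      rw [Sym2.eq_swap]
      exact and_comm
    simp only [e1, e2]
    exact sum_comm
  have h2 : (T.card : ℝ) * k ≤ ((∑ x ∈ T, dg G x : ℕ) : ℝ) := by
    have : T.card * k ≤ ∑ x ∈ T, dg G x := by
      have := card_nsmul_le_sum T (fun x => dg G x) k (fun x _ => hk x)
      simpa using this
    exact_mod_cast this
  have h3 : ((∑ v : V, (nb G v ∩ T).card : ℕ) : ℝ) ≤ nV V * Λ := by
    push_cast
    have := sum_le_card_nsmul (univ : Finset V) (fun v => ((nb G v ∩ T).card : ℝ)) Λ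
      (fun v _ => hΛ v)
    simpa [nV] using this
  rw [h1] at h2
  exact h2.trans h3

lemma regb_tch_card {G : Finset (Sym2 V)} {T : Finset V} {k : ℕ} {F : ℕ → Finset (Sym2 V)}
    (h : TSys G T k F) {i : ℕ} (hi : i < KK k) : (tch (F i) \ T).card ≤ 2 * T.card := by
  have hsub : tch (F i) \ T ⊆ T.biUnion (nb (F i)) := by
    intro w hw
    obtain ⟨hw1, hw2⟩ := mem_sdiff.1 hw
    obtain ⟨u, hu⟩ := card_pos.1 (mem_tch.1 hw1)
    obtain ⟨x, hx, hxe⟩ := h.touch i hi _ (mem_nb.1 hu)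
    rcases Sym2.mem_iff.1 hxe with rfl | rfl
    · exact absurd hx hw2
    · exact mem_biUnion.2 ⟨x, hx, mem_nb_comm.1 hu⟩
  refine (card_le_card hsub).trans (card_biUnion_le.trans ?_)
  have : ∀ x ∈ T, (nb (F i) x).card ≤ 2 := by
    intro x hx
    have h1 := h.degT i hi x hx
    unfold dg at h1
    rw [h1]
    exact dx_le G k i x
  have := sum_le_card_nsmul T (fun x => (nb (F i) x).card) 2 this
  simpa [mul_comm] using this

lemma regb_sum_le {G : Finset (Sym2 V)} {T : Finset V} {k : ℕ} {F : ℕ → Finset (Sym2 V)}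
    (h : TSys G T k F) {w : V} (hw : w ∉ T) :
    ∑ i ∈ range (KK k), dg (F i) w ≤ (nb G w ∩ T).card := by
  rw [← dg_biUnion (range (KK k)) F
    (fun i hi j hj hij => h.disj i (mem_range.1 hi) j (mem_range.1 hj) hij) w]
  refine card_le_card ?_
  intro u hu
  obtain ⟨i, hi, hu⟩ := mem_biUnion.1 (mem_nb.1 hu)
  have hi := mem_range.1 hi
  refine mem_inter.2 ⟨mem_nb.2 (h.sub i hi hu), ?_⟩
  obtain ⟨x, hx, hxe⟩ := h.touch i hi _ hu
  rcases Sym2.mem_iff.1 hxe with rfl | rfl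
  · exact absurd hx hw
  · exact hx

lemma regb_avoid {N T S : Finset V} {η a : ℝ} (hη : η ≤ 1 / 4)
    (h1 : (((N ∩ S) \ T).card : ℝ) ≤ η * N.card) (h2 : 3 / 4 * a ≤ N.card) (_ha : 0 ≤ a) :
    a / 2 ≤ ((N \ (S \ T)).card : ℝ) := by
  rw [regb_card_sdiff, ← inter_sdiff_assoc]
  have h0 : (0 : ℝ) ≤ N.card := Nat.cast_nonneg _
  nlinarith [mul_le_mul_of_nonneg_right hη h0]

lemma regb_big {N P T : Finset V} {η σ : ℝ} (hη : η ≤ th / 8) (hσ : 0 ≤ σ) (hNP : N ⊆ P)
    (h1 : (th - η) * σ ≤ N.card) (h2 : ((P ∩ T).card : ℝ) ≤ η * σ) :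
    3 / 4 * (th * σ) ≤ ((N \ T).card : ℝ) := by
  rw [regb_card_sdiff]
  have h3 : ((N ∩ T).card : ℝ) ≤ (P ∩ T).card := by
    exact_mod_cast card_le_card (inter_subset_inter_right hNP)
  nlinarith [mul_le_mul_of_nonneg_right hη hσ]

lemma regb_restrict {T : Finset V} {ρ γ : ℝ} {Q P C G : Finset (Sym2 V)} (hρ : 0 ≤ ρ)
    (h : PoolOK univ ρ γ 5 Q P C) (hC : C ⊆ G) :
    PoolOK Tᶜ ρ γ 1 Q (P ∩ inside G Tᶜ) (C ∩ inside G Tᶜ) := by
  refine h.restrict subset_rfl inter_subset_left ?_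
  have : inside C Tᶜ \ (C ∩ inside G Tᶜ) = ∅ := by
    refine sdiff_eq_empty_iff_subset.2 ?_
    intro e he
    obtain ⟨h1, h2⟩ := mem_inside.1 he
    exact mem_inter.2 ⟨h1, mem_inside.2 ⟨hC h1, h2⟩⟩
  rw [this, card_empty, Nat.cast_zero]
  have := nV_nonneg V
  positivity

lemma regb_log {n : ℝ} (hn : 300 ≤ n) : 2 * (2 * Real.log n + 61) ≤ n := by
  have h0 : 0 < n / 16 := by linarith
  have h1 := Real.log_le_sub_one_of_pos h0
  have h2 : Real.log (n / 16) = Real.log n - Real.log 16 :=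
    Real.log_div (by linarith) (by norm_num)
  have h3 : Real.log 16 ≤ 16 - 1 := Real.log_le_sub_one_of_pos (by norm_num)
  linarith

lemma regb_lam {n c η Λ : ℝ} {k C0 : ℕ} (hn : 0 < n) (hc : 0 < c) (hη : 0 < η)
    (h1 : 2 * 10 ^ 15 * C0 / η ≤ Real.log n) (h2 : 2 / (η * c) ≤ Real.log n)
    (hk : Real.log n ≤ 10 ^ 15 * k) (hΛ : Λ ≤ C0 ∨ Λ ≤ k / n ^ c) : 2 * Λ ≤ η * k := by
  have hk0 : (0 : ℝ) ≤ k := Nat.cast_nonneg _
  rcases hΛ with h | h
  · have h3 := h1.trans hk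
    rw [div_le_iff₀ hη] at h3
    nlinarith
  · have h3 : 2 ≤ η * n ^ c := by
      rw [Real.rpow_def_of_pos hn]
      have h4 := Real.add_one_le_exp (Real.log n * c)
      rw [div_le_iff₀ (mul_pos hη hc)] at h2
      nlinarith
    have h5 : 0 < n ^ c := Real.rpow_pos_of_pos hn c
    rw [le_div_iff₀ h5] at h
    by_contra hcon
    have hcon := not_le.1 hcon
    nlinarith [mul_lt_mul_of_pos_right hcon h5, mul_le_mul_of_nonneg_right h3 hk0]

end RegBAux

/-- Hint: let `η1, n1` come from `machine` and `η = min (η1 / 4) (th / 8)`. Apply `tcol` (with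
accuracy `min η (1/4)`, `ε = 1 / 10 ^ 31`, `ys` the numbers `k / 2 ^ j`, `j < m`, and `Ns` the sets
`nb (A j) w \ T`, `D j w \ T` for `w ∉ T`, `j ≤ m`; `Sched.m_le`), then `asm`, then `machine` with
`W = Tᶜ`, `R = inside G Tᶜ` and `PoolOK.restrict`. `|T| k ≤ n Λ` by double counting, and
`|tch (F i) \ T| ≤ 2 |T|`. For `w ∉ T`: `dg R w = dg G w - |nb G w ∩ T|` and
`∑ i, dg (F i) w ≤ |nb G w ∩ T|`. -/
theorem regB (g : ℕ) (hg : g.Prime) (hg' : 10 ^ 15 ≤ g) :
    ∃ η : ℝ, 0 < η ∧ η ≤ th / 8 ∧ ∀ (c : ℝ) (C0 : ℕ), 0 < c →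
    ∃ n0 : ℝ, ∀ (V : Type) [Fintype V] [DecidableEq V], n0 ≤ nV V →
    ∀ (G : Finset (Sym2 V)) (T : Finset V) (k m : ℕ) (s Λ : ℝ) (A C : ℕ → Finset (Sym2 V))
      (D : ℕ → V → Finset V), On univ G → Sched (nV V) k s m →
      Real.log (nV V) ≤ 10 ^ 15 * k →
      Near G k → (∀ v, (dg G v : ℝ) ≤ k + 10 ^ 4 * s) →
      (∀ v, ((nb G v ∩ T).card : ℝ) ≤ Λ) → (Λ ≤ C0 ∨ Λ ≤ k / nV V ^ c) →
      (∀ j ≤ m, Tri univ (A j) (C j) (D j) ∧ PP (A j) (C j) (D j) ⊆ G) →
      (∀ j ≤ m, ∀ j' ≤ m, j ≠ j' → Disjoint (PP (A j) (C j) (D j)) (PP (A j') (C j') (D j'))) →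
      (∀ w, w ∉ T → |(dg G w : ℝ) - (k + s)| ≤ η * s) →
      (∀ j ≤ m, ∀ w, w ∉ T →
        |(dg (PP (A j) (C j) (D j)) w : ℝ) - sig k s m j| ≤ η * sig k s m j ∧
        (th - η) * sig k s m j ≤ dg (A j) w ∧ (th - η) * sig k s m j ≤ (D j w).card) →
      (∀ j ≤ m, ∀ w, ((nb (PP (A j) (C j) (D j)) w ∩ T).card : ℝ) ≤ η * sig k s m j) →
      (∀ j < m, PoolOK univ (sig k s m j) g 5 (A j ∪ arcE (D j)) (PP (A j) (C j) (D j)) (C j)) →
      PoolOK univ s 1 5 (A m ∪ arcE (D m)) (PP (A m) (C m) (D m)) (C m) →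
      HasA G k := by
  obtain ⟨η1, hη1, n1, hmach⟩ := machine g hg hg'
  have hth := th_pos
  have hth' := th_le
  obtain ⟨η, hη, hηa, hηb⟩ : ∃ η : ℝ, 0 < η ∧ η ≤ η1 / 4 ∧ η ≤ th / 8 :=
    ⟨min (η1 / 4) (th / 8), lt_min (by positivity) (by positivity), min_le_left _ _,
      min_le_right _ _⟩
  have hη4 : η ≤ 1 / 4 := by
    have : (1 : ℝ) / 10 ^ 13 ≤ 1 := by norm_num
    linarith
  refine ⟨η, hη, hηb, fun c C0 hc => ?_⟩
  obtain ⟨n2, htcol⟩ := tcol (η := η) (c := c) (ε := 1 / 10 ^ 31) C0 hη hc (by positivity)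
  obtain ⟨L, hL1, hL2, hL3, hL4⟩ : ∃ L : ℝ, 200 / η ≤ L ∧ 2 * 10 ^ 15 * C0 / (η1 / 2) ≤ L ∧
      2 / (η1 / 2 * c) ≤ L ∧ 2 * 10 ^ 15 ≤ L := by
    have a1 : 0 ≤ 200 / η := by positivity
    have a2 : 0 ≤ 2 * 10 ^ 15 * (C0 : ℝ) / (η1 / 2) := by positivity
    have a3 : 0 ≤ 2 / (η1 / 2 * c) := by positivity
    exact ⟨200 / η + 2 * 10 ^ 15 * C0 / (η1 / 2) + 2 / (η1 / 2 * c) + 2 * 10 ^ 15, by linarith,
      by linarith, by linarith, by linarith⟩
  refine ⟨max (max n1 n2) (Real.exp L), ?_⟩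
  intro V _ _ hn G T k m s Λ A C D hG hS hk hN hdeg hΛ hΛ' hTri hdisj hdg hpool hPT hok hokm
  have hn1 : n1 ≤ nV V := ((le_max_left _ _).trans (le_max_left _ _)).trans hn
  have hn2 : n2 ≤ nV V := ((le_max_right _ _).trans (le_max_left _ _)).trans hn
  have hn3 : Real.exp L ≤ nV V := (le_max_right _ _).trans hn
  have hn0 : 0 < nV V := (Real.exp_pos L).trans_le hn3
  have hlog : L ≤ Real.log (nV V) := (Real.le_log_iff_exp_le hn0).2 hn3
  have hn300 : 300 ≤ nV V := by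
    have := Real.add_one_le_exp L
    linarith
  have hs0 := hS.s_pos
  have hηs : 1 ≤ η * s := by
    have h1 := (hL1.trans hlog).trans hS.hs
    rw [div_le_iff₀ hη] at h1
    nlinarith
  have hs1 : 1 ≤ s := by nlinarith
  have hm := hS.m_le hs1
  have hlg := regb_log hn300
  have hlog0 : 0 ≤ Real.log (nV V) := by linarith
  have hk0 : (0 : ℝ) < k := by
    have := hS.hk
    exact_mod_cast this
  have hAP : ∀ j, A j ⊆ PP (A j) (C j) (D j) := fun j =>
    subset_union_left.trans subset_union_left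
  have hDP : ∀ j, arcE (D j) ⊆ PP (A j) (C j) (D j) := fun j =>
    subset_union_right.trans subset_union_left
  have hCP : ∀ j, C j ⊆ PP (A j) (C j) (D j) := fun j => subset_union_right
  have hbigA : ∀ j ≤ m, ∀ w, w ∉ T →
      3 / 4 * (th * sig k s m j) ≤ ((nb (A j) w \ T).card : ℝ) := fun j hj w hw =>
    regb_big hηb (hS.sig_pos j).le (nb_mono (hAP j) w) (hpool j hj w hw).2.1 (hPT j hj w)
  have hbigD : ∀ j ≤ m, ∀ w, w ∉ T →
      3 / 4 * (th * sig k s m j) ≤ ((D j w \ T).card : ℝ) := fun j hj w hw =>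
    regb_big hηb (hS.sig_pos j).le ((subset_nb_arcE (D j) w).trans (nb_mono (hDP j) w))
      (hpool j hj w hw).2.2 (hPT j hj w)
  have hsiglog : ∀ j ≤ m, 1 / 10 ^ 31 * Real.log (nV V) ≤ 3 / 4 * (th * sig k s m j) := by
    intro j hj
    have h1 := hS.log_le hj
    have h2 := hS.sig_pos j
    unfold th
    nlinarith
  obtain ⟨F, hF, hF1, hF2, hF3⟩ := htcol V hn2 G T k s Λ
    ((range m).image fun j : ℕ => (k : ℝ) / 2 ^ j)
    ((((range (m + 1)) ×ˢ Tᶜ).image fun p : ℕ × V => nb (A p.1) p.2 \ T) ∪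
      (((range (m + 1)) ×ˢ Tᶜ).image fun p : ℕ × V => D p.1 p.2 \ T))
    hG hS.hkn (by nlinarith) (by have := hS.hs; nlinarith) hN (fun x _ => hdeg x) hΛ hΛ'
    (by
      have h1 : ((range m).image fun j : ℕ => (k : ℝ) / 2 ^ j).card ≤ m :=
        card_image_le.trans (card_range m).le
      have h2 : (((range m).image fun j : ℕ => (k : ℝ) / 2 ^ j).card : ℝ) ≤ m := by
        exact_mod_cast h1
      linarith)
    (by
      intro y hy
      obtain ⟨j, hj, rfl⟩ := mem_image.1 hy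
      have hj := mem_range.1 hj
      have h1 := hS.log_le hj.le
      have h2 : sig k s m j = (k : ℝ) / 2 ^ j / 4 := by
        unfold sig
        rw [if_pos hj, pow_add]
        ring
      have h3 : 0 < (k : ℝ) / 2 ^ j := by positivity
      rw [h2] at h1
      nlinarith)
    (by
      have h1 : ((range (m + 1)) ×ˢ Tᶜ).card ≤ (m + 1) * Fintype.card V := by
        rw [card_product, card_range]
        exact Nat.mul_le_mul_left _ (card_le_univ _)
      have h2 := (card_union_le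
        (((range (m + 1)) ×ˢ Tᶜ).image fun p : ℕ × V => nb (A p.1) p.2 \ T)
        (((range (m + 1)) ×ˢ Tᶜ).image fun p : ℕ × V => D p.1 p.2 \ T)).trans
        (add_le_add (card_image_le.trans h1) (card_image_le.trans h1))
      have h3 := (Nat.cast_le (α := ℝ)).2 h2
      refine h3.trans ?_
      push_cast
      change ((m : ℝ) + 1) * nV V + ((m : ℝ) + 1) * nV V ≤ nV V ^ 2
      nlinarith)
    (by
      intro N hN
      rcases mem_union.1 hN with hN | hN
      · obtain ⟨p, hp, rfl⟩ := mem_image.1 hN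
        obtain ⟨hp1, hp2⟩ := mem_product.1 hp
        have hj : p.1 ≤ m := Nat.lt_succ_iff.1 (mem_range.1 hp1)
        exact (hsiglog _ hj).trans (hbigA _ hj _ (mem_compl.1 hp2))
      · obtain ⟨p, hp, rfl⟩ := mem_image.1 hN
        obtain ⟨hp1, hp2⟩ := mem_product.1 hp
        have hj : p.1 ≤ m := Nat.lt_succ_iff.1 (mem_range.1 hp1)
        exact (hsiglog _ hj).trans (hbigD _ hj _ (mem_compl.1 hp2)))
  obtain ⟨X, M, hX, hdem, hfin⟩ := asm hG hN (fun x hx => by
    by_contra hc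
    have h1 := (abs_le.1 (hdg x hc)).1
    have h2 : (dg G x : ℝ) < k := by exact_mod_cast hx
    nlinarith) hF
  have hT : 2 * (T.card : ℝ) ≤ η1 * nV V := by
    have h1 := regb_T_card (k := k - 1) (fun v => by have := hN.1 v; omega) hΛ
    rw [Nat.cast_sub hS.hk, Nat.cast_one] at h1
    have h2 := regb_lam hn0 hc (half_pos hη1) (hL2.trans hlog) (hL3.trans hlog) hk hΛ'
    have h4 : (T.card : ℝ) * 2 ≤ T.card * k :=
      mul_le_mul_of_nonneg_left (by linarith) (Nat.cast_nonneg _)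
    have h3 : 2 * (T.card : ℝ) * k ≤ η1 * nV V * k := by
      nlinarith [mul_le_mul_of_nonneg_left h2 hn0.le, mul_pos (mul_pos hη1 hn0) hk0]
    exact le_of_mul_le_mul_right h3 hk0
  obtain ⟨F', hF'⟩ := hmach V hn1 Tᶜ (inside G Tᶜ) k m s A C D X M hS (on_inside hG)
    (fun j hj => (hTri j hj).1) hdisj
    (by
      intro j hj w hw
      have hw := mem_compl.1 hw
      have h1 := (hpool j hj w hw).1
      have h2 := hPT j hj w
      have h3 := hS.sig_pos j
      have h4 : (0 : ℝ) ≤ ((nb (PP (A j) (C j) (D j)) w ∩ T).card : ℝ) := Nat.cast_nonneg _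
      unfold dg at h1 ⊢
      rw [regb_nb_res (hTri j hj).2 hw, regb_card_sdiff]
      rw [abs_le] at h1 ⊢
      have h5 : η * sig k s m j ≤ η1 / 4 * sig k s m j := mul_le_mul_of_nonneg_right hηa h3.le
      have h6 := mul_pos hη1 h3
      constructor <;> linarith [h1.1, h1.2])
    (by
      intro w hw
      have hw := mem_compl.1 hw
      have h1 := hdg w hw
      have h2 := hF2 w hw
      have h3 := (Nat.cast_le (α := ℝ)).2 (regb_sum_le hF hw)
      obtain ⟨h4, h5⟩ := hdem w hw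
      rw [sum_add_distrib] at h4 h5
      have h4 := (Nat.cast_le (α := ℝ)).2 h4
      have h5 := (Nat.cast_le (α := ℝ)).2 h5
      rw [Nat.cast_add] at h4
      rw [Nat.cast_add, Nat.cast_add, Nat.cast_one] at h5
      have h6 : (dg (inside G Tᶜ) w : ℝ) = dg G w - ((nb G w ∩ T).card : ℝ) := by
        unfold dg
        rw [← regb_card_sdiff, ← regb_nb_res subset_rfl hw]
        congr 3
        exact (inter_eq_right.2 (filter_subset _ _)).symm
      rw [h6]
      rw [abs_le] at h1 ⊢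
      have h7 : η * s ≤ η1 / 4 * s := mul_le_mul_of_nonneg_right hηa hs0.le
      have h8 := mul_pos hη1 hs0
      constructor <;> linarith [h1.1, h1.2])
    (by
      intro i hi
      refine ⟨(hX i hi).1, (hX i hi).2.1, ?_⟩
      rw [(hX i hi).2.2]
      have h1 := (Nat.cast_le (α := ℝ)).2 (regb_tch_card hF hi)
      push_cast at h1
      linarith)
    (by
      intro j hj w hw
      have hw := mem_compl.1 hw
      have h1 := hF1 _ (mem_image.2 ⟨j, mem_range.2 hj, rfl⟩) w hw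
      have h2 : ((range (KK k)).filter fun i : ℕ =>
          (i : ℝ) < k / 2 ^ j ∧ w ∈ Aset (X i) (M i)) =
          (range (KK k)).filter fun i : ℕ => (i : ℝ) < k / 2 ^ j ∧ w ∈ tch (F i) := by
        refine filter_congr fun i hi => ?_
        rw [(hX i (mem_range.1 hi)).2.2, mem_sdiff]
        tauto
      rw [h2]
      refine h1.trans (mul_le_mul_of_nonneg_right (by linarith) (by positivity)))
    (by
      intro j hj i hi w hw
      have hp : (j, w) ∈ (range (m + 1)) ×ˢ Tᶜ :=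
        mem_product.2 ⟨mem_range.2 (Nat.lt_succ_iff.2 hj), hw⟩
      have hw := mem_compl.1 hw
      have h0 : 0 ≤ th * sig k s m j := (mul_pos hth (hS.sig_pos j)).le
      rw [(hX i hi).2.2, regb_nb_res ((hAP j).trans (hTri j hj).2) hw,
        regb_resD ((hDP j).trans (hTri j hj).2) hw]
      constructor
      · exact regb_avoid hη4 (hF3 _ (mem_union_left _ (mem_image.2 ⟨(j, w), hp, rfl⟩)) i hi)
          (hbigA j hj w hw) h0
      · exact regb_avoid hη4 (hF3 _ (mem_union_right _ (mem_image.2 ⟨(j, w), hp, rfl⟩)) i hi)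
          (hbigD j hj w hw) h0)
    (fun j hj => regb_restrict (hS.sig_pos j).le (hok j hj) ((hCP j).trans (hTri j hj.le).2))
    (regb_restrict hs0.le hokm ((hCP m).trans (hTri m le_rfl).2))
  exact hfin F' hF'

end

end Pool.Agent.MP_1376f1_pr
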