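import Pool.Agent.MP_1376f1_pr.Mg.Bad
import Pool.Agent.MP_1376f1_pr.Mg.RegB

/-!
The middle range for a fixed time and a fixed minimum degree.
-/

set_option autoImplicit false
set_option linter.unusedSectionVars false

namespace Pool.Agent.MP_1376f1_pr

open Finset MP_d802e4_co
open scoped Classical

noncomputable section

lemma pb1_gap {n : ℕ} {q s : ℝ} (hL' : 10 ^ 4 ≤ Real.log n) (hq0 : 0 ≤ q) (hq1 : q ≤ 1)
    (h1 : 0.7 * Real.log n ≤ n * q) (h2 : Real.log n / 20 ≤ n * (1 - q)) (h : gap n q ≤ s + 1) :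
    Real.log n ≤ 130 * s ∧ min (n * q) (n * (1 - q)) ≤ 1000 * s ^ 2 / Real.log n := by
  set L := Real.log n with hLdef
  have hL : 0 < L := by linarith
  have hn : (0 : ℝ) ≤ n := Nat.cast_nonneg n
  have hX : L / 40 ≤ n * q * (1 - q) ∧ min (n * q) (n * (1 - q)) ≤ 2 * (n * q * (1 - q)) := by
    have a1 : 0 ≤ n * q := mul_nonneg hn hq0
    have a2 : 0 ≤ n * (1 - q) := mul_nonneg hn (by linarith)
    rcases le_total q (1 / 2) with hq | hq
    · have : n * q * (1 / 2) ≤ n * q * (1 - q) := mul_le_mul_of_nonneg_left (by linarith) a1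
      exact ⟨by linarith, (min_le_left _ _).trans (by linarith)⟩
    · have : n * (1 - q) * (1 / 2) ≤ n * (1 - q) * q := mul_le_mul_of_nonneg_left hq a2
      exact ⟨by linarith, (min_le_right _ _).trans (by linarith)⟩
  set X := n * q * (1 - q) with hXdef
  have hX0 : 0 ≤ X := by linarith [hX.1]
  have hg : Real.sqrt (X * L) ≤ 20 * (s + 1) := by
    have : gap n q = Real.sqrt (X * L) / 20 := rfl
    linarith
  have h5 : L / 40 * L ≤ X * L := mul_le_mul_of_nonneg_right hX.1 hL.le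
  have h6 : 5 / 32 * L ≤ Real.sqrt (X * L) := Real.le_sqrt_of_sq_le (by nlinarith)
  have hs0 : 70 ≤ s := by linarith
  have hsq : X * L ≤ 500 * s ^ 2 := by
    have h3 := Real.sq_sqrt (mul_nonneg hX0 hL.le)
    have h4 := pow_le_pow_left₀ (Real.sqrt_nonneg (X * L)) hg 2
    nlinarith
  constructor
  · linarith
  · rw [le_div_iff₀ hL]
    have := mul_le_mul_of_nonneg_right hX.2 hL.le
    nlinarith

lemma pb1_exp1 {η L s : ℝ} (hη : 0 < η) (hη1 : η ≤ 1) (hL : 0 < L) (h1 : L ≤ 130 * s)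
    (h2 : 4 ≤ s) :
    -(η * s / 4) ^ 2 / (4 * (1000 * s ^ 2 / L + 1) + 2 * (η * s / 4)) ≤
      -(η ^ 2 / (200 * 10 ^ 17) * L) := by
  have hs : 0 < s := by linarith
  have hu : s ≤ 130 * (s ^ 2 / L) := by
    rw [← mul_div_assoc, le_div_iff₀ hL]; nlinarith
  have hηs : η * s ≤ s := by nlinarith
  have hD : 4 * (1000 * s ^ 2 / L + 1) + 2 * (η * s / 4) ≤ 4200 * (s ^ 2 / L) := by
    rw [mul_div_assoc]; linarith
  have hD0 : 0 < 4 * (1000 * s ^ 2 / L + 1) + 2 * (η * s / 4) := by positivity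
  rw [neg_div, neg_le_neg_iff, le_div_iff₀ hD0]
  calc η ^ 2 / (200 * 10 ^ 17) * L * (4 * (1000 * s ^ 2 / L + 1) + 2 * (η * s / 4))
      ≤ η ^ 2 / (200 * 10 ^ 17) * L * (4200 * (s ^ 2 / L)) :=
        mul_le_mul_of_nonneg_left hD (by positivity)
    _ = 4200 / (200 * 10 ^ 17) * (η * s) ^ 2 := by field_simp
    _ ≤ 1 / 16 * (η * s) ^ 2 := mul_le_mul_of_nonneg_right (by norm_num) (by positivity)
    _ = (η * s / 4) ^ 2 := by ring

lemma pb1_exp2 {η L σ : ℝ} (hη : 0 < η) (hη1 : η ≤ 1) (hσ : 0 < σ) (h1 : L ≤ 10 ^ 17 * σ) :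
    -(η * σ / 4) ^ 2 / (4 * (2 * σ) + 2 * (η * σ / 4)) ≤ -(η ^ 2 / (200 * 10 ^ 17) * L) := by
  have hηs : η * σ ≤ σ := by nlinarith
  have hD : 4 * (2 * σ) + 2 * (η * σ / 4) ≤ 9 * σ := by linarith
  have hD0 : 0 < 4 * (2 * σ) + 2 * (η * σ / 4) := by positivity
  rw [neg_div, neg_le_neg_iff, le_div_iff₀ hD0]
  calc η ^ 2 / (200 * 10 ^ 17) * L * (4 * (2 * σ) + 2 * (η * σ / 4))
      ≤ η ^ 2 / (200 * 10 ^ 17) * (10 ^ 17 * σ) * (9 * σ) :=
        mul_le_mul (mul_le_mul_of_nonneg_left h1 (by positivity)) hD hD0.le (by positivity)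
    _ = 9 / 200 * (η * σ) ^ 2 := by field_simp
    _ ≤ 1 / 16 * (η * σ) ^ 2 := mul_le_mul_of_nonneg_right (by norm_num) (by positivity)
    _ = (η * σ / 4) ^ 2 := by ring

lemma pb1_beta {c L m : ℝ} (hc : 0 < c) (hL : 2 ≤ L) (h : 1000 ≤ c ^ 2 * L)
    (hm : m ≤ 2 * L + 60) :
    (m + 1) * 4 * (2 * Real.exp (-(2 * c * L))) ≤ Real.exp (-(c * L)) := by
  have h1 := Real.quadratic_le_exp_of_nonneg (x := c * L) (by positivity)
  have h2 : 8 * (m + 1) ≤ Real.exp (c * L) := by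
    have h3 : 1000 * L ≤ c ^ 2 * L * L := mul_le_mul_of_nonneg_right h (by linarith)
    have h4 : 0 ≤ c * L := by positivity
    nlinarith
  have h5 : Real.exp (-(c * L)) = Real.exp (c * L) * Real.exp (-(2 * c * L)) := by
    rw [← Real.exp_add]; congr 1; ring
  rw [h5]
  have := mul_le_mul_of_nonneg_right h2 (Real.exp_pos (-(2 * c * L))).le
  linarith

lemma pb1_tail {c L x : ℝ} (hx : 0 ≤ x) :
    (Real.exp (c * L / 2) - 1) * (x * Real.exp (-(c * L))) ≤ x * Real.exp (-(c * L / 2)) := by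
  have h5 : Real.exp (-(c * L / 2)) = Real.exp (c * L / 2) * Real.exp (-(c * L)) := by
    rw [← Real.exp_add]; congr 1; ring
  rw [h5]
  have := mul_nonneg hx (Real.exp_pos (-(c * L))).le
  nlinarith

lemma pb1_exp10 {n : ℕ} (hn : 0 < n) : Real.exp (-(10 * Real.log n)) = 1 / (n : ℝ) ^ 10 := by
  have h : (0 : ℝ) < n := by exact_mod_cast hn
  rw [Real.exp_neg, one_div]
  congr 1
  rw [show (10 : ℝ) * Real.log n = ((10 : ℕ) : ℝ) * Real.log n by norm_num, Real.exp_nat_mul,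
    Real.exp_log h]

lemma pb1_fin {n m : ℝ} (hn : 10 ≤ n) (hm : m ≤ 2 * n + 60) :
    1 / (4 * n ^ 6) + (n * (2 * (1 / n ^ 10)) + (m + 1) * n * (2 * (1 / n ^ 10))) ≤ 1 / n ^ 6 := by
  have h0 : 0 < n := by linarith
  have h1 : (m + 2) * 8 ≤ 3 * n ^ 3 := by
    have : 100 * n ≤ n ^ 3 := by nlinarith [mul_nonneg h0.le (mul_self_nonneg (n - 10))]
    linarith
  have e : 1 / n ^ 6 - (1 / (4 * n ^ 6) + (n * (2 * (1 / n ^ 10)) +
      (m + 1) * n * (2 * (1 / n ^ 10)))) = (3 * n ^ 3 - (m + 2) * 8) / (4 * n ^ 9) := by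
    field_simp; ring
  have : 0 ≤ (3 * n ^ 3 - (m + 2) * 8) / (4 * n ^ 9) := div_nonneg (by linarith) (by positivity)
  linarith

/-- forward labels of the tests -/
def pb1Lf (n k : ℕ) (s : ℝ) (m : ℕ) (c : ℕ × Fin 4) : Finset (Fin (n ^ 4)) :=
  ![lint n (n ^ 4) (cut k s m c.1) (cut k s m c.1 + sig k s m c.1),
    lint n (n ^ 4) (cut k s m c.1) (cut k s m c.1 + th * sig k s m c.1),
    lint n (n ^ 4) (cut k s m c.1 + th * sig k s m c.1) (cut k s m c.1 + 2 * th * sig k s m c.1),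
    lint n (n ^ 4) 0 (k + s)] c.2

/-- backward labels of the tests -/
def pb1Lb (n k : ℕ) (s : ℝ) (m : ℕ) (c : ℕ × Fin 4) : Finset (Fin (n ^ 4)) :=
  ![lint n (n ^ 4) (cut k s m c.1) (cut k s m c.1 + sig k s m c.1),
    lint n (n ^ 4) (cut k s m c.1) (cut k s m c.1 + th * sig k s m c.1),
    lint n (n ^ 4) (cut k s m c.1 + 2 * th * sig k s m c.1)
      (cut k s m c.1 + 3 * th * sig k s m c.1),
    lint n (n ^ 4) 0 (k + s)] c.2

/-- nominal probabilities of the tests -/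
def pb1q (n k : ℕ) (s : ℝ) (m : ℕ) (c : ℕ × Fin 4) : ℝ :=
  ![sig k s m c.1 / n, th * sig k s m c.1 / n, th * sig k s m c.1 / n, (k + s) / n] c.2

/-- allowed deviations -/
def pb1a (η : ℝ) (k : ℕ) (s : ℝ) (m : ℕ) (c : ℕ × Fin 4) : ℝ :=
  ![η * sig k s m c.1, η * sig k s m c.1, η * sig k s m c.1, η * s] c.2

/-- variance proxies -/
def pb1v (n k : ℕ) (s : ℝ) (m : ℕ) (c : ℕ × Fin 4) : ℝ :=
  ![2 * sig k s m c.1, 2 * sig k s m c.1, 2 * sig k s m c.1, 1000 * s ^ 2 / Real.log n + 1] c.2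

/-- the atypical vertices -/
def pb1T {n : ℕ} (ω : Sym2 (Fin n) → Fin (n ^ 4)) (η : ℝ) (k : ℕ) (s : ℝ) (m : ℕ) :
    Finset (Fin n) :=
  Tbad ω (range (m + 1) ×ˢ (univ : Finset (Fin 4))) (pb1Lf n k s m) (pb1Lb n k s m)
    (pb1q n k s m) (pb1a η k s m)

lemma pb1_mass {n : ℕ} (hn : 0 < n) {α β x : ℝ} (h0 : 0 ≤ α) (hx : 0 ≤ x) (h1 : β = α + x)
    (h2 : β ≤ n) : |mass (unif (n ^ 4)) (lint n (n ^ 4) α β) - x / n| ≤ 1 / nV (Fin n) := by
  have h := mass_lint hn (pow_pos hn 4) h0 (by linarith : α ≤ β) h2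
  rw [show β - α = x by linarith] at h
  refine h.trans ?_
  rw [nV_fin]
  have h3 : (1 : ℝ) ≤ n := by exact_mod_cast hn
  refine one_div_le_one_div_of_le (by linarith) ?_
  push_cast
  exact le_self_pow₀ h3 (by norm_num)

lemma pb1_test {n : ℕ} (hn : 0 < n) {x σ : ℝ} (hx : 0 ≤ x) (h1 : x ≤ σ) (h2 : σ ≤ n)
    (h3 : 1 ≤ σ) : 0 ≤ x / n ∧ x / n ≤ 1 ∧
      min (nV (Fin n) * (x / n)) (nV (Fin n) * (1 - x / n)) + 1 ≤ 2 * σ := by
  have h : (0 : ℝ) < n := by exact_mod_cast hn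
  refine ⟨by positivity, by rw [div_le_one h]; linarith, ?_⟩
  have e : nV (Fin n) * (x / n) = x := by rw [nV_fin]; field_simp
  have := min_le_left (nV (Fin n) * (x / n)) (nV (Fin n) * (1 - x / n))
  linarith

/-- few neighbours among the atypical vertices -/
lemma pb1_bad {n k m : ℕ} {s η c : ℝ} (h : Sched n k s m) (hη : 0 < η) (hη1 : η ≤ 1)
    (hc : c = η ^ 2 / (400 * 10 ^ 17)) (hL1 : 10 ^ 19 ≤ η * Real.log n)
    (hL2 : 1000 ≤ c ^ 2 * Real.log n) (hd : k + s ≤ n) (hs : Real.log n ≤ 130 * s)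
    (hv : min ((k : ℝ) + s) (n - (k + s)) ≤ 1000 * s ^ 2 / Real.log n)
    (L : Finset (Fin (n ^ 4))) (w : Fin n) (l : ℝ) :
    Pr (unif (n ^ 4)) (fun ω : Sym2 (Fin n) → Fin (n ^ 4) =>
      2 * l ≤ ((nb (gr ω L) w ∩ pb1T ω η k s m).card : ℝ)) ≤
      2 * Real.exp ((Real.exp (c * Real.log n / 2) - 1) *
        (n * mass (unif (n ^ 4)) L * Real.exp (-(c * Real.log n))) - c * Real.log n / 2 * l) := by
  have hn : 0 < n := w.pos
  have hnR : (0 : ℝ) < n := by exact_mod_cast hn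
  have hL0 : 0 ≤ Real.log n := Real.log_natCast_nonneg n
  have hL : 10 ^ 19 ≤ Real.log n := hL1.trans (by nlinarith)
  have hc0 : 0 < c := by rw [hc]; positivity
  have hth := th_pos
  have hth1 := th_le
  have hk0 : (0 : ℝ) ≤ k := Nat.cast_nonneg k
  have hηs : 10 ≤ η * s := by
    have := mul_le_mul_of_nonneg_left hs hη.le
    linarith
  have hs0 : 10 ≤ s := by nlinarith
  have key := bad_prob (V := Fin n) (isP_unif (pow_pos hn 4))
    (range (m + 1) ×ˢ (univ : Finset (Fin 4))) (pb1Lf n k s m) (pb1Lb n k s m)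
    (pb1q n k s m) (pb1a η k s m) (pb1v n k s m) (β := Real.exp (-(c * Real.log n)))
    (t := c * Real.log n / 2) (l := l) ?_ ?_ L w (by positivity)
  · rw [nV_fin] at key
    exact key
  · rintro ⟨j, i⟩ hji
    have hj : j ≤ m := Nat.lt_succ_iff.1 (mem_range.1 (mem_product.1 hji).1)
    have a1 := h.log_le hj
    have a2 := h.sig_le j
    have a3 := h.cut_nonneg j
    have a4 := h.cut_le hj
    have a5 := h.sig_pos j
    have a6 : 10 ≤ η * sig k s m j := by
      have := mul_le_mul_of_nonneg_left a1 hη.le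
      linarith
    have a7 : 1 ≤ sig k s m j := by nlinarith
    have a8 : 0 ≤ th * sig k s m j := by positivity
    have a9 : 3 * (th * sig k s m j) ≤ sig k s m j := by nlinarith
    fin_cases i
    · obtain ⟨b1, b2, b3⟩ := pb1_test hn a5.le le_rfl a2 a7
      have b4 := pb1_mass hn a3 a5.le rfl (by linarith)
      exact ⟨b1, b2, b4, b4, a6, b3⟩
    · obtain ⟨b1, b2, b3⟩ := pb1_test hn a8 (by linarith) a2 a7
      have b4 := pb1_mass hn a3 a8 rfl (by linarith)
      exact ⟨b1, b2, b4, b4, a6, b3⟩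
    · obtain ⟨b1, b2, b3⟩ := pb1_test hn a8 (by linarith) a2 a7
      have b4 := pb1_mass hn (α := cut k s m j + th * sig k s m j)
        (β := cut k s m j + 2 * th * sig k s m j) (by linarith) a8 (by ring) (by linarith)
      have b5 := pb1_mass hn (α := cut k s m j + 2 * th * sig k s m j)
        (β := cut k s m j + 3 * th * sig k s m j) (by linarith) a8 (by ring) (by linarith)
      exact ⟨b1, b2, b4, b5, a6, b3⟩
    · have b0 : (0 : ℝ) ≤ k + s := by linarith
      have b4 := pb1_mass hn (α := 0) (β := k + s) le_rfl b0 (by ring) hd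
      refine ⟨div_nonneg b0 hnR.le, (div_le_one hnR).2 hd, b4, b4, hηs, ?_⟩
      have e1 : nV (Fin n) * ((k + s) / n) = k + s := by rw [nV_fin]; field_simp
      have e2 : nV (Fin n) * (1 - (k + s) / n) = n - (k + s) := by rw [nV_fin]; field_simp
      show min (nV (Fin n) * ((k + s) / n)) (nV (Fin n) * (1 - (k + s) / n)) + 1 ≤
        1000 * s ^ 2 / Real.log n + 1
      rw [e1, e2]; linarith
  · have hb : ∀ x ∈ range (m + 1) ×ˢ (univ : Finset (Fin 4)),
        2 * Real.exp (-(pb1a η k s m x / 4) ^ 2 /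
          (4 * pb1v n k s m x + 2 * (pb1a η k s m x / 4))) ≤
        2 * Real.exp (-(2 * c * Real.log n)) := by
      rintro ⟨j, i⟩ hji
      have hj : j ≤ m := Nat.lt_succ_iff.1 (mem_range.1 (mem_product.1 hji).1)
      have e : 2 * c * Real.log n = η ^ 2 / (200 * 10 ^ 17) * Real.log n := by
        rw [hc]; ring
      refine mul_le_mul_of_nonneg_left (Real.exp_le_exp.2 ?_) (by norm_num)
      rw [e]
      have b1 := pb1_exp2 hη hη1 (h.sig_pos j) (h.log_le hj)
      fin_cases i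
      · exact b1
      · exact b1
      · exact b1
      · exact pb1_exp1 hη hη1 (by linarith) hs (by linarith)
    refine (sum_le_card_nsmul _ _ _ hb).trans ?_
    rw [card_product, card_range, card_univ, Fintype.card_fin, nsmul_eq_mul]
    push_cast
    exact pb1_beta hc0 (by linarith) hL2 (h.m_le (by linarith))

lemma pb1_good {n k m : ℕ} {s η : ℝ} (ω : Sym2 (Fin n) → Fin (n ^ 4)) {w : Fin n}
    (hw : w ∉ pb1T ω η k s m) {j : ℕ} (hj : j ≤ m) (i : Fin 4) :
    |((dgr ω (pb1Lf n k s m (j, i)) (pb1Lb n k s m (j, i)) w).card : ℝ) -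
      n * pb1q n k s m (j, i)| ≤ pb1a η k s m (j, i) := by
  by_contra hcon
  apply hw
  unfold pb1T Tbad
  rw [mem_filter, nV_fin]
  exact ⟨mem_univ _, (j, i), mem_product.2 ⟨mem_range.2 (Nat.lt_succ_iff.2 hj), mem_univ _⟩,
    not_le.1 hcon⟩

/-- Hint: `g` a prime `≥ 10 ^ 15`, `η` from `regB`, `c0 = η ^ 2 / (10 ^ 17 * 2000)`. Let `q = P / M`,
`d = n q`, `s = d - k`, `m` from `exists_sched` (`gap n q ≥ log n / 130`). Tests (`ι = Option (ℕ × Fin 3)`
or similar): the total degree with `a = η s`, `ν = 2 n q (1 - q) + 1 ≤ 800 s ^ 2 / log n + 1`; for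
`j ≤ m` the degrees in `PP`, `clA`, `clD` with nominal probabilities `sig / n`, `th sig / n` and
`a = η sig`, `ν = 2 sig`. Then `β ≤ n ^ (-c0)` (`Sched.m_le`, `Sched.log_le`). `T = Tbad …`.
`bad_prob` with `t = c0 / 2 * log n`: for the whole graph `l = max (40 / c0) (d n ^ (-c0/2))`,
`Λ = 2 l` (so `Λ ≤ C0 = ⌈80 / c0⌉₊` or `Λ ≤ k / n ^ (c0/4)`), for the pools `l = η sig / 2`. Union
bound over `w` and `j`, plus `pools_prob`; on the complement `regB` applies. -/
theorem probB1 : ∃ n0 : ℕ, ∀ n ≥ n0, ∀ P ≤ n ^ 4, ∀ (k : ℕ) (q : ℝ), q = (P : ℝ) / (n ^ 4 : ℕ) →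
    0.7 * Real.log n ≤ n * q → Real.log n / 20 ≤ n * (1 - q) →
    Real.log n ≤ 10 ^ 15 * k → n * q ≤ 10 ^ 17 * k → gap n q ≤ n * q - k + 1 →
    Pr (unif (n ^ 4)) (fun ω : Sym2 (Fin n) → Fin (n ^ 4) =>
      (Near (thr ω P) k ∧ ∀ v, (dg (thr ω P) v : ℝ) ≤ k + 10 ^ 4 * (n * q - k)) ∧
      ¬ HasA (thr ω P) k) ≤ 1 / (n : ℝ) ^ 6 := by
  obtain ⟨g, hg', hg⟩ := Nat.exists_infinite_primes (10 ^ 15)
  obtain ⟨η, hη, hηth, hB⟩ := regB g hg hg'
  have hη1 : η ≤ 1 := by have := th_le; linarith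
  set c : ℝ := η ^ 2 / (400 * 10 ^ 17) with hc
  have hc0 : 0 < c := by positivity
  have hc1 : c ≤ 1 := by
    rw [hc, div_le_one (by positivity)]; nlinarith
  obtain ⟨n1, hn1⟩ := hB (c / 4) ⌈80 / c⌉₊ (by positivity)
  obtain ⟨n2, hn2⟩ := pools_prob g hg.one_le
  have ev1 : ∀ᶠ n : ℕ in Filter.atTop, 10 ^ 19 / (c ^ 2 * η) ≤ Real.log n :=
    (Real.tendsto_log_atTop.comp tendsto_natCast_atTop_atTop).eventually_ge_atTop _
  have ev2 : ∀ᶠ n : ℕ in Filter.atTop, n1 ≤ (n : ℝ) :=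
    tendsto_natCast_atTop_atTop.eventually_ge_atTop _
  obtain ⟨n0, hn0⟩ := Filter.eventually_atTop.1
    (ev1.and (ev2.and (Filter.eventually_ge_atTop n2)))
  refine ⟨n0, fun n hn P hP k q hq h1 h2 h3 h4 h5 => ?_⟩
  obtain ⟨e1, e2, e3⟩ := hn0 n hn
  have hL0 : 0 ≤ Real.log n := Real.log_natCast_nonneg n
  set L := Real.log n with hLdef
  have f0 : 10 ^ 19 ≤ c ^ 2 * η * L := by
    rw [div_le_iff₀ (by positivity)] at e1; linarith
  have f1 : 10 ^ 19 ≤ c * η * L := by
    have : c * (c * η * L) ≤ 1 * (c * η * L) := mul_le_mul_of_nonneg_right hc1 (by positivity)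
    linarith
  have f2 : 10 ^ 19 ≤ η * L := by
    have : c * (η * L) ≤ 1 * (η * L) := mul_le_mul_of_nonneg_right hc1 (by positivity)
    linarith
  have f3 : 10 ^ 19 ≤ c * L := by
    have : η * (c * L) ≤ 1 * (c * L) := mul_le_mul_of_nonneg_right hη1 (by positivity)
    linarith
  have f4 : 10 ^ 19 ≤ c ^ 2 * L := by
    have : η * (c ^ 2 * L) ≤ 1 * (c ^ 2 * L) := mul_le_mul_of_nonneg_right hη1 (by positivity)
    linarith
  have f5 : 10 ^ 19 ≤ L := by
    have : c * L ≤ 1 * L := mul_le_mul_of_nonneg_right hc1 hL0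
    linarith
  have hLn : L ≤ n := (Real.log_le_self (Nat.cast_nonneg n))
  have hnR : (0 : ℝ) < n := by linarith
  have hn0' : 0 < n := by exact_mod_cast hnR
  have hM : 0 < n ^ 4 := pow_pos hn0' 4
  have hMR : (0 : ℝ) < (n ^ 4 : ℕ) := by exact_mod_cast hM
  have hq0 : 0 ≤ q := by rw [hq]; positivity
  have hq1 : q ≤ 1 := by rw [hq, div_le_one hMR]; exact_mod_cast hP
  obtain ⟨g1, g2⟩ := pb1_gap (by linarith) hq0 hq1 h1 h2 h5
  set s : ℝ := n * q - k with hsdef
  have hks : (k : ℝ) + s = n * q := by rw [hsdef]; ring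
  have hdn : n * q ≤ n := mul_le_of_le_one_right hnR.le hq1
  have hk0 : (0 : ℝ) < k := by linarith
  have hs0 : 0 < s := by linarith
  obtain ⟨m, hS⟩ := exists_sched (n := n) (s := s) (k := k) (by linarith) (by linarith) hs0
    (by exact_mod_cast hk0) (by linarith)
  have hm : (m : ℝ) ≤ 2 * L + 60 := hS.m_le (by linarith)
  have hv : min ((k : ℝ) + s) (n - (k + s)) ≤ 1000 * s ^ 2 / L := by
    rw [hks, show n - n * q = n * (1 - q) by ring]; exact g2
  have hbad := pb1_bad hS hη hη1 hc f2 (by linarith) (by linarith) g1 hv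
  have hthr : ∀ ω : Sym2 (Fin n) → Fin (n ^ 4), thr ω P = gr ω (lint n (n ^ 4) 0 (k + s)) :=
    fun ω => Subset.antisymm (thr_subset_gr_lint hn0' hM ω (by rw [← hq, hks]))
      (gr_lint_subset_thr hn0' hM ω (by rw [← hq, hks]))
  set D : ℝ := n * q * Real.exp (-(c * L / 2)) with hD
  set l : ℝ := max (40 / c) D with hl
  have hp := isP_unif hM
  -- the whole graph
  have p1 : ∀ w : Fin n, Pr (unif (n ^ 4)) (fun ω : Sym2 (Fin n) → Fin (n ^ 4) =>
      2 * l ≤ ((nb (thr ω P) w ∩ pb1T ω η k s m).card : ℝ)) ≤ 2 * (1 / (n : ℝ) ^ 10) := by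
    intro w
    refine (hbad (univ.filter fun l => l.val < P) w l).trans ?_
    rw [← pb1_exp10 hn0', mass_thr hP, ← hq]
    refine mul_le_mul_of_nonneg_left (Real.exp_le_exp.2 ?_) (by norm_num)
    have a1 := pb1_tail (c := c) (L := L) (x := n * q) (by positivity)
    have a2 : D ≤ l := le_max_right _ _
    have a3 : 40 ≤ c * l := by
      have := le_max_left (40 / c) D
      rw [div_le_iff₀ hc0] at this; linarith
    have a4 : 0 ≤ l := le_trans (by positivity) (le_max_left (40 / c) D)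
    have a5 : 4 * l ≤ c * L * l := mul_le_mul_of_nonneg_right (by linarith) a4
    have a6 : L * 40 ≤ L * (c * l) := mul_le_mul_of_nonneg_left a3 hL0
    linarith
  -- the pools
  have p2 : ∀ x ∈ range (m + 1) ×ˢ (univ : Finset (Fin n)),
      Pr (unif (n ^ 4)) (fun ω : Sym2 (Fin n) → Fin (n ^ 4) =>
      2 * (η * sig k s m x.1 / 2) ≤ ((nb (gr ω (lint n (n ^ 4) (cut k s m x.1)
        (cut k s m x.1 + sig k s m x.1))) x.2 ∩ pb1T ω η k s m).card : ℝ)) ≤
        2 * (1 / (n : ℝ) ^ 10) := by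
    rintro ⟨j, w⟩ hx
    have hj : j ≤ m := Nat.lt_succ_iff.1 (mem_range.1 (mem_product.1 hx).1)
    refine (hbad _ w _).trans ?_
    rw [← pb1_exp10 hn0']
    refine mul_le_mul_of_nonneg_left (Real.exp_le_exp.2 ?_) (by norm_num)
    have a1 := hS.log_le hj
    have a4 := hS.cut_le hj
    have a5 := hS.sig_pos j
    have b4 := pb1_mass hn0' (hS.cut_nonneg j) a5.le rfl (by linarith)
    show (Real.exp (c * L / 2) - 1) * (n * mass (unif (n ^ 4)) (lint n (n ^ 4) (cut k s m j)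
      (cut k s m j + sig k s m j)) * Real.exp (-(c * L))) - c * L / 2 * (η * sig k s m j / 2) ≤
      -(10 * L)
    have b0 := mass_nonneg hp (lint n (n ^ 4) (cut k s m j) (cut k s m j + sig k s m j))
    set μ := mass (unif (n ^ 4)) (lint n (n ^ 4) (cut k s m j) (cut k s m j + sig k s m j))
    set σ := sig k s m j
    have b5 : n * μ ≤ σ + 1 := by
      rw [nV_fin] at b4
      have := mul_le_mul_of_nonneg_left (abs_le.1 b4).2 hnR.le
      have e : (n : ℝ) * (μ - σ / n) = n * μ - σ := by field_simp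
      have e' : (n : ℝ) * (1 / n) = 1 := by field_simp
      linarith
    have b6 := pb1_tail (c := c) (L := L) (x := n * μ) (by positivity)
    have b7 : Real.exp (-(c * L / 2)) ≤ 1 := Real.exp_le_one_iff.2 (by linarith)
    have b8 : n * μ * Real.exp (-(c * L / 2)) ≤ n * μ * 1 :=
      mul_le_mul_of_nonneg_left b7 (by positivity)
    have b9 : 10 ^ 19 * σ ≤ c * η * L * σ := mul_le_mul_of_nonneg_right f1 a5.le
    linarith
  have p0 := hn2 n e3 k m s hS (by linarith)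
  refine le_trans (Pr_mono hp (F := fun ω => (¬
      ((∀ j < m, PoolOK univ (sig k s m j) g 5 (clA ω k s m j ∪ arcE (clD ω k s m j))
          (PP (clA ω k s m j) (clC ω k s m j) (clD ω k s m j)) (clC ω k s m j)) ∧
        PoolOK univ s 1 5 (clA ω k s m m ∪ arcE (clD ω k s m m))
          (PP (clA ω k s m m) (clC ω k s m m) (clD ω k s m m)) (clC ω k s m m))) ∨
      ((∃ w ∈ (univ : Finset (Fin n)), 2 * l ≤ ((nb (thr ω P) w ∩ pb1T ω η k s m).card : ℝ)) ∨
      ∃ x ∈ range (m + 1) ×ˢ (univ : Finset (Fin n)),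
        2 * (η * sig k s m x.1 / 2) ≤ ((nb (gr ω (lint n (n ^ 4) (cut k s m x.1)
        (cut k s m x.1 + sig k s m x.1))) x.2 ∩ pb1T ω η k s m).card : ℝ))) ?_) ?_
  · rintro ω ⟨hdeg, hA⟩
    by_contra hcon
    rw [not_or, not_not] at hcon
    obtain ⟨⟨q1, q2⟩, hcon⟩ := hcon
    simp only [not_or, not_exists, not_and, not_le] at hcon
    obtain ⟨q3, q4⟩ := hcon
    apply hA
    refine hn1 (Fin n) (by rw [nV_fin]; exact e2) (thr ω P) (pb1T ω η k s m) k m s (2 * l)
      (clA ω k s m) (clC ω k s m) (clD ω k s m) (on_gr _ _) (by rw [nV_fin]; exact hS)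
      (by rw [nV_fin]; exact h3) hdeg.1 hdeg.2 (fun v => (q3 v (mem_univ v)).le) ?_ ?_
      (fun j _ j' _ hjj => PP_cl_disjoint hS ω hjj) ?_ ?_ ?_ q1 q2
    · rcases le_total (40 / c) D with hcD | hcD
      · right
        rw [hl, max_eq_right hcD, nV_fin, Real.rpow_def_of_pos hnR, ← hLdef,
          le_div_iff₀ (Real.exp_pos _), hD]
        have r1 : Real.exp (-(c * L / 2)) * Real.exp (L * (c / 4)) * Real.exp (c * L / 4) = 1 := by
          rw [← Real.exp_add, ← Real.exp_add, ← Real.exp_zero]; congr 1; ring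
        have r2 := Real.add_one_le_exp (c * L / 4)
        have r3 : 0 < Real.exp (-(c * L / 2)) * Real.exp (L * (c / 4)) := by positivity
        set u := Real.exp (-(c * L / 2)) * Real.exp (L * (c / 4)) with hu
        have r4 : u * (2 * 10 ^ 17) ≤ u * Real.exp (c * L / 4) :=
          mul_le_mul_of_nonneg_left (by linarith) r3.le
        have r5 : n * q * u ≤ 10 ^ 17 * k * u := mul_le_mul_of_nonneg_right h4 r3.le
        have r6 : k * (u * (2 * 10 ^ 17)) ≤ k * 1 :=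
          mul_le_mul_of_nonneg_left (by linarith) hk0.le
        calc 2 * (n * q * Real.exp (-(c * L / 2))) * Real.exp (L * (c / 4))
            = 2 * (n * q * u) := by rw [hu]; ring
          _ ≤ k := by linarith
      · left
        rw [hl, max_eq_left hcD]
        have := Nat.le_ceil (80 / c)
        have e : 2 * (40 / c) = 80 / c := by ring
        linarith
    · intro j hj
      refine ⟨tri_cl hS ω j, ?_⟩
      rw [PP_cl hS]
      refine gr_lint_subset_thr hn0' hM ω ?_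
      have := hS.cut_le hj
      rw [← hq]; linarith
    · intro w hw
      have r := pb1_good ω hw (Nat.zero_le m) 3
      have e : (n : ℝ) * ((k + s) / n) = k + s := by field_simp
      have r' : |((dgr ω (lint n (n ^ 4) 0 (k + s)) (lint n (n ^ 4) 0 (k + s)) w).card : ℝ) -
          n * ((k + s) / n)| ≤ η * s := r
      rw [e] at r'
      rw [hthr, dg, nb_gr]
      exact r'
    · intro j hj w hw
      have r0 := pb1_good ω hw hj 0
      have r1 := pb1_good ω hw hj 1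
      have r2 := pb1_good ω hw hj 2
      have e : (n : ℝ) * (sig k s m j / n) = sig k s m j := by field_simp
      have e' : (n : ℝ) * (th * sig k s m j / n) = th * sig k s m j := by field_simp
      refine ⟨?_, ?_, ?_⟩
      · rw [PP_cl hS, dg, nb_gr]
        have r0' : |((dgr ω (lint n (n ^ 4) (cut k s m j) (cut k s m j + sig k s m j))
            (lint n (n ^ 4) (cut k s m j) (cut k s m j + sig k s m j)) w).card : ℝ) -
            n * (sig k s m j / n)| ≤ η * sig k s m j := r0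
        rwa [e] at r0'
      · have r1' : |((dgr ω (lint n (n ^ 4) (cut k s m j) (cut k s m j + th * sig k s m j))
            (lint n (n ^ 4) (cut k s m j) (cut k s m j + th * sig k s m j)) w).card : ℝ) -
            n * (th * sig k s m j / n)| ≤ η * sig k s m j := r1
        rw [e'] at r1'
        rw [clA, dg, nb_gr]
        have := (abs_le.1 r1').1
        linarith
      · have r2' : |((clD ω k s m j w).card : ℝ) -
            n * (th * sig k s m j / n)| ≤ η * sig k s m j := r2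
        rw [e'] at r2'
        have := (abs_le.1 r2').1
        linarith
    · intro j hj w
      have := q4 (j, w) (mem_product.2 ⟨mem_range.2 (Nat.lt_succ_iff.2 hj), mem_univ _⟩)
      rw [PP_cl hS]
      linarith
  · refine (Pr_or hp _ _).trans ?_
    refine le_trans (add_le_add p0 ((Pr_or hp _ _).trans (add_le_add
      ((Pr_exists hp _ _).trans (sum_le_card_nsmul _ _ _ fun w _ => p1 w))
      ((Pr_exists hp _ _).trans (sum_le_card_nsmul _ _ _ p2))))) ?_
    rw [card_product, card_range, card_univ, Fintype.card_fin, nsmul_eq_mul, nsmul_eq_mul]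
    push_cast
    exact pb1_fin (by linarith) (by linarith)

end

end Pool.Agent.MP_1376f1_pr
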