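import Pool.Agent.MP_1376f1_pr.Mg.Round

/-!
Tail bounds in finite product spaces and an application of the local lemma.
-/

set_option autoImplicit false
set_option linter.unusedSectionVars false

namespace Pool.Agent.MP_1376f1_pr

open Finset MP_d802e4_co
open scoped Classical

noncomputable section

variable {V Λ : Type} [Fintype V] [DecidableEq V] [Fintype Λ] {p : Λ → ℝ}


theorem Pr_mem (hp : IsP p) (v : V) (L : Finset Λ) :
    Pr p (fun ω : V → Λ => ω v ∈ L) = mass p L := by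
  unfold Pr mass
  rw [Ex_coord hp v (fun a => ind (a ∈ L))]
  rw [← Finset.sum_subset (Finset.subset_univ L) (fun a _ ha => by rw [ind_neg ha, mul_zero])]
  exact Finset.sum_congr rfl fun a ha => by rw [ind_pos ha, mul_one]

theorem mass_nonneg (hp : IsP p) (L : Finset Λ) : 0 ≤ mass p L := by
  exact Finset.sum_nonneg fun a _ => hp.nonneg a

theorem mass_le_one (hp : IsP p) (L : Finset Λ) : mass p L ≤ 1 := by
  rw [← hp.sum]
  exact Finset.sum_le_sum_of_subset_of_nonneg (Finset.subset_univ L) fun a _ _ => hp.nonneg a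

theorem Pr_not (hp : IsP p) (E : (V → Λ) → Prop) : Pr p (fun ω => ¬ E ω) = 1 - Pr p E := by
  unfold Pr
  rw [← Ex_const (V := V) hp 1, ← Ex_sub]
  exact Ex_congr fun ω => ind_not _

theorem exists_not_of_Pr_lt_one (hp : IsP p) {E : (V → Λ) → Prop} (h : Pr p E < 1) :
    ∃ ω, ¬ E ω := by
  refine exists_of_Pr_pos (p := p) ?_
  rw [Pr_not hp]; linarith

/-- product rule for functions with pairwise disjoint supports -/
theorem Ex_prod (hp : IsP p) {ι : Type} (S : Finset ι) (A : ι → Set V)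
    (f : ι → (V → Λ) → ℝ) (hf : ∀ i ∈ S, Dep (A i) (f i))
    (hA : ∀ i ∈ S, ∀ j ∈ S, i ≠ j → Disjoint (A i) (A j)) :
    Ex p (fun ω => ∏ i ∈ S, f i ω) = ∏ i ∈ S, Ex p (f i) := by
  induction S using Finset.induction_on with
  | empty => simpa using Ex_const (V := V) hp 1
  | insert i S hi ih =>
    simp only [Finset.prod_insert hi]
    have hd : Dep (⋃ j ∈ S, A j) (fun ω => ∏ j ∈ S, f j ω) := by
      intro ω ω' h
      refine Finset.prod_congr rfl fun j hj => hf j (mem_insert_of_mem hj) ω ω' fun v hv => h v ?_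
      exact Set.mem_biUnion (Finset.mem_coe.2 hj) hv
    rw [Ex_mul hp (hf i (mem_insert_self _ _)) hd ?_, ih (fun j hj => hf j (mem_insert_of_mem hj))
      (fun j hj k hk => hA j (mem_insert_of_mem hj) k (mem_insert_of_mem hk))]
    rw [Set.disjoint_iUnion₂_right]
    intro j hj
    exact hA i (mem_insert_self _ _) j (mem_insert_of_mem hj) (fun h => hi (h ▸ hj))

theorem Ex_prod_coord (hp : IsP p) (S : Finset V) (f : V → Λ → ℝ) :
    Ex p (fun ω : V → Λ => ∏ v ∈ S, f v (ω v)) = ∏ v ∈ S, ∑ l, p l * f v l := by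
  rw [Ex_prod hp S (fun v => {v}) (fun v ω => f v (ω v))
    (fun v _ ω ω' h => by simp only [h v rfl]) (fun v _ u _ h => by simpa using h)]
  exact Finset.prod_congr rfl fun v _ => Ex_coord hp v (f v)

theorem Pr_all_mem (hp : IsP p) (S : Finset V) (L : Finset Λ) :
    Pr p (fun ω : V → Λ => ∀ v ∈ S, ω v ∈ L) = mass p L ^ S.card := by
  rw [Pr_forall hp S (fun v => {v}) (fun v ω => ω v ∈ L)
    (fun v _ ω ω' h => by simp only [h v rfl]) (fun v _ u _ h => by simpa using h)]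
  simp [Pr_mem hp]

theorem markov (hp : IsP p) {f : (V → Λ) → ℝ} (hf : ∀ ω, 0 ≤ f ω) {b : ℝ} (hb : 0 < b) :
    Pr p (fun ω => b ≤ f ω) ≤ Ex p f / b := by
  unfold Pr
  rw [div_eq_inv_mul, ← Ex_smul]
  refine Ex_mono hp fun ω => ?_
  by_cases h : b ≤ f ω
  · rw [ind_pos h, ← div_eq_inv_mul, le_div_iff₀ hb]; linarith
  · rw [ind_neg h]; exact mul_nonneg (inv_nonneg.2 hb.le) (hf ω)

/-- expectation of the number of events that occur -/
theorem Ex_card {ι : Type} (S : Finset ι) (E : ι → (V → Λ) → Prop) :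
    Ex p (fun ω => ((S.filter fun i => E i ω).card : ℝ)) = ∑ i ∈ S, Pr p (E i) := by
  unfold Pr
  rw [← Ex_sum]
  refine Ex_congr fun ω => ?_
  rw [Finset.card_filter]
  push_cast
  refine Finset.sum_congr rfl fun i _ => ?_
  unfold ind
  split_ifs <;> simp

theorem pbase_mgf (hp : IsP p) {ι : Type} (S : Finset ι) (A : ι → Set V)
    (E : ι → (V → Λ) → Prop) (hE : ∀ i ∈ S, Dep (A i) (E i))
    (hA : ∀ i ∈ S, ∀ j ∈ S, i ≠ j → Disjoint (A i) (A j)) (t : ℝ) :
    Ex p (fun ω => Real.exp (t * ((S.filter fun i => E i ω).card : ℝ))) ≤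
      Real.exp ((Real.exp t - 1) * ∑ i ∈ S, Pr p (E i)) := by
  have h1 : ∀ ω : V → Λ, Real.exp (t * ((S.filter fun i => E i ω).card : ℝ)) =
      ∏ i ∈ S, (1 + (Real.exp t - 1) * ind (E i ω)) := by
    intro ω
    rw [mul_comm, Real.exp_nat_mul, ← Finset.prod_const, Finset.prod_filter]
    refine Finset.prod_congr rfl fun i _ => ?_
    unfold ind
    split_ifs <;> simp
  rw [Ex_congr h1, Ex_prod hp S A (fun i ω => 1 + (Real.exp t - 1) * ind (E i ω))
    (fun i hi => (hE i hi).comp fun P => 1 + (Real.exp t - 1) * ind P) hA, Finset.mul_sum,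
    Real.exp_sum]
  have h2 : ∀ i, Ex p (fun ω => 1 + (Real.exp t - 1) * ind (E i ω)) =
      1 + (Real.exp t - 1) * Pr p (E i) := by
    intro i
    rw [Ex_add, Ex_const hp, Ex_smul]; rfl
  refine Finset.prod_le_prod (fun i _ => ?_) (fun i _ => ?_)
  · rw [h2]
    have := Pr_nonneg hp (E i)
    have := Pr_le_one hp (E i)
    have := Real.exp_pos t
    nlinarith
  · rw [h2]; linarith [Real.add_one_le_exp ((Real.exp t - 1) * Pr p (E i))]

/-- Upper tail for independent events. Hint: exponential moment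
`exp (t * count) = ∏ (1 + (exp t - 1) * ind (E i))`, `Ex_prod`, `1 + x ≤ exp x`. -/
theorem many_up (hp : IsP p) {ι : Type} (S : Finset ι) (A : ι → Set V)
    (E : ι → (V → Λ) → Prop) (hE : ∀ i ∈ S, Dep (A i) (E i))
    (hA : ∀ i ∈ S, ∀ j ∈ S, i ≠ j → Disjoint (A i) (A j)) {μ t l : ℝ}
    (hμ : ∑ i ∈ S, Pr p (E i) ≤ μ) (ht : 0 ≤ t) :
    Pr p (fun ω => l ≤ ((S.filter fun i => E i ω).card : ℝ)) ≤
      Real.exp ((Real.exp t - 1) * μ - t * l) := by
  have h1 := pbase_mgf hp S A E hE hA t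
  have h2 := markov hp (f := fun ω => Real.exp (t * ((S.filter fun i => E i ω).card : ℝ)))
    (fun ω => (Real.exp_pos _).le) (Real.exp_pos (t * l))
  refine le_trans (Pr_mono hp fun ω h => ?_) (h2.trans ?_)
  · exact Real.exp_le_exp.2 (mul_le_mul_of_nonneg_left h ht)
  · rw [Real.exp_sub]
    refine div_le_div_of_nonneg_right (h1.trans (Real.exp_le_exp.2 ?_)) (Real.exp_pos _).le
    have : 0 ≤ Real.exp t - 1 := by linarith [Real.add_one_le_exp t]
    exact mul_le_mul_of_nonneg_left hμ this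

theorem many_low (hp : IsP p) {ι : Type} (S : Finset ι) (A : ι → Set V)
    (E : ι → (V → Λ) → Prop) (hE : ∀ i ∈ S, Dep (A i) (E i))
    (hA : ∀ i ∈ S, ∀ j ∈ S, i ≠ j → Disjoint (A i) (A j)) {μ t l : ℝ}
    (hμ : μ ≤ ∑ i ∈ S, Pr p (E i)) (ht : 0 ≤ t) :
    Pr p (fun ω => ((S.filter fun i => E i ω).card : ℝ) ≤ l) ≤
      Real.exp (t * l - (1 - Real.exp (-t)) * μ) := by
  have h1 := pbase_mgf hp S A E hE hA (-t)
  have h2 := markov hp (f := fun ω => Real.exp (-t * ((S.filter fun i => E i ω).card : ℝ)))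
    (fun ω => (Real.exp_pos _).le) (Real.exp_pos (-t * l))
  refine le_trans (Pr_mono hp fun ω h => ?_) (h2.trans ?_)
  · exact Real.exp_le_exp.2 (by nlinarith)
  · rw [div_le_iff₀ (Real.exp_pos _), ← Real.exp_add]
    refine h1.trans (Real.exp_le_exp.2 ?_)
    have : Real.exp (-t) ≤ 1 := Real.exp_le_one_iff.2 (by linarith)
    nlinarith

theorem pbase_dev (hp : IsP p) {ι : Type} (S : Finset ι) (A : ι → Set V)
    (E : ι → (V → Λ) → Prop) (hE : ∀ i ∈ S, Dep (A i) (E i))
    (hA : ∀ i ∈ S, ∀ j ∈ S, i ≠ j → Disjoint (A i) (A j)) {ν a : ℝ}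
    (hν : ∑ i ∈ S, Pr p (E i) ≤ ν) (ha : 0 ≤ a) :
    Pr p (fun ω => a ≤ |((S.filter fun i => E i ω).card : ℝ) - ∑ i ∈ S, Pr p (E i)|) ≤
      2 * Real.exp (-a ^ 2 / (4 * ν + 2 * a)) := by
  set μ := ∑ i ∈ S, Pr p (E i) with hμ
  have hμ0 : 0 ≤ μ := Finset.sum_nonneg fun i _ => Pr_nonneg hp _
  have hν0 : 0 ≤ ν := hμ0.trans hν
  rcases ha.eq_or_lt with h0 | h0
  · subst h0
    refine (Pr_le_one hp _).trans ?_
    simp
  have hd : 0 < 2 * ν + a := by linarith
  set t := a / (2 * ν + a) with ht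
  have ht0 : 0 ≤ t := by positivity
  have ht1 : t ≤ 1 := by rw [ht, div_le_one hd]; linarith
  have key : t ^ 2 * μ - t * a ≤ -a ^ 2 / (4 * ν + 2 * a) := by
    have e1 : -a ^ 2 / (4 * ν + 2 * a) = -(t * a / 2) := by rw [ht]; field_simp; ring
    have e2 : t * ν ≤ a / 2 := by
      rw [ht, div_mul_eq_mul_div, div_le_iff₀ hd]; nlinarith
    have e3 : t ^ 2 * μ ≤ t ^ 2 * ν := mul_le_mul_of_nonneg_left hν (by positivity)
    rw [e1]; nlinarith
  have b1 := abs_le.1 (Real.abs_exp_sub_one_sub_id_le (x := t) (by rw [abs_of_nonneg ht0]; exact ht1))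
  have b2 := abs_le.1 (Real.abs_exp_sub_one_sub_id_le (x := -t)
    (by rw [abs_neg, abs_of_nonneg ht0]; exact ht1))
  have u1 := many_up hp S A E hE hA (μ := μ) (t := t) (l := μ + a) le_rfl ht0
  have u2 := many_low hp S A E hE hA (μ := μ) (t := t) (l := μ - a) le_rfl ht0
  have u3 : Real.exp ((Real.exp t - 1) * μ - t * (μ + a)) ≤ Real.exp (-a ^ 2 / (4 * ν + 2 * a)) :=
    Real.exp_le_exp.2 (by nlinarith [b1.2])
  have u4 : Real.exp (t * (μ - a) - (1 - Real.exp (-t)) * μ) ≤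
      Real.exp (-a ^ 2 / (4 * ν + 2 * a)) := Real.exp_le_exp.2 (by nlinarith [b2.2])
  refine le_trans (Pr_mono hp fun ω h => ?_) ((Pr_or hp _ _).trans
    (by linarith [u1.trans u3, u2.trans u4] : Pr p (fun ω => μ + a ≤ ((S.filter fun i => E i ω).card : ℝ))
      + Pr p (fun ω => ((S.filter fun i => E i ω).card : ℝ) ≤ μ - a) ≤ _))
  rcases le_abs.1 h with h | h
  · left; linarith
  · right; linarith

/-- Two-sided bound. Hint: if the mean `μ` is at most `ν` use `many_up` with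
`t = min 1 (a / (2 ν))` and `exp t - 1 ≤ t + t ^ 2` for `t ≤ 1`, and `many_low` with `t = a / ν` and
`exp (-t) ≤ 1 - t + t ^ 2 / 2` (treat `ν = 0` and `a = 0` separately). Otherwise apply this to the
complementary events. -/
theorem many_dev (hp : IsP p) {ι : Type} (S : Finset ι) (A : ι → Set V)
    (E : ι → (V → Λ) → Prop) (hE : ∀ i ∈ S, Dep (A i) (E i))
    (hA : ∀ i ∈ S, ∀ j ∈ S, i ≠ j → Disjoint (A i) (A j)) {ν a : ℝ}
    (hν : min (∑ i ∈ S, Pr p (E i)) (S.card - ∑ i ∈ S, Pr p (E i)) ≤ ν) (ha : 0 ≤ a) :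
    Pr p (fun ω => a ≤ |((S.filter fun i => E i ω).card : ℝ) - ∑ i ∈ S, Pr p (E i)|) ≤
      2 * Real.exp (-a ^ 2 / (4 * ν + 2 * a)) := by
  rcases min_le_iff.1 hν with h | h
  · exact pbase_dev hp S A E hE hA h ha
  · have e1 : ∑ i ∈ S, Pr p (fun ω => ¬ E i ω) = S.card - ∑ i ∈ S, Pr p (E i) := by
      simp only [Pr_not hp, Finset.sum_sub_distrib, Finset.sum_const, nsmul_eq_mul, mul_one]
    have h2 := pbase_dev hp S A (fun i ω => ¬ E i ω) (fun i hi => (hE i hi).comp Not) hA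
      (e1 ▸ h) ha
    refine le_trans (le_of_eq (Pr_congr fun ω => ?_)) h2
    have e2 : ((S.filter fun i => ¬ E i ω).card : ℝ) = S.card - (S.filter fun i => E i ω).card := by
      have := Finset.card_filter_add_card_filter_not (s := S) (fun i => E i ω)
      have h3 : (((S.filter fun i => E i ω).card : ℝ)) + ((S.filter fun i => ¬ E i ω).card : ℝ)
          = S.card := by exact_mod_cast this
      linarith
    have e3 : ∀ (D : DecidablePred fun i => ¬ E i ω),
        ((@Finset.filter _ (fun i => ¬ E i ω) D S).card : ℝ)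
          = S.card - (S.filter fun i => E i ω).card := by
      intro D; rw [← e2]; congr
    rw [e1, e3, abs_sub_comm]
    congr! 2
    ring

theorem cnt_up (hp : IsP p) {ι : Type} (S : Finset ι) (f : ι → V) (hf : Set.InjOn f S)
    (L : ι → Finset Λ) {μ t l : ℝ} (hμ : ∑ i ∈ S, mass p (L i) ≤ μ) (ht : 0 ≤ t) :
    Pr p (fun ω : V → Λ => l ≤ ((S.filter fun i => ω (f i) ∈ L i).card : ℝ)) ≤
      Real.exp ((Real.exp t - 1) * μ - t * l) := by
  have := many_up hp S (fun i => {f i}) (fun i ω => ω (f i) ∈ L i)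
    (fun i _ ω ω' h => by simp only [h (f i) rfl])
    (fun i hi j hj h => by simpa using fun e => h (hf hi hj e)) (μ := μ) (t := t) (l := l)
    (by simpa only [Pr_mem hp] using hμ) ht
  convert this

theorem cnt_low (hp : IsP p) {ι : Type} (S : Finset ι) (f : ι → V) (hf : Set.InjOn f S)
    (L : ι → Finset Λ) {μ t l : ℝ} (hμ : μ ≤ ∑ i ∈ S, mass p (L i)) (ht : 0 ≤ t) :
    Pr p (fun ω : V → Λ => ((S.filter fun i => ω (f i) ∈ L i).card : ℝ) ≤ l) ≤
      Real.exp (t * l - (1 - Real.exp (-t)) * μ) := by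
  have := many_low hp S (fun i => {f i}) (fun i ω => ω (f i) ∈ L i)
    (fun i _ ω ω' h => by simp only [h (f i) rfl])
    (fun i hi j hj h => by simpa using fun e => h (hf hi hj e)) (μ := μ) (t := t) (l := l)
    (by simpa only [Pr_mem hp] using hμ) ht
  convert this

theorem cnt_dev (hp : IsP p) {ι : Type} (S : Finset ι) (f : ι → V) (hf : Set.InjOn f S)
    (L : ι → Finset Λ) {ν a : ℝ}
    (hν : min (∑ i ∈ S, mass p (L i)) (S.card - ∑ i ∈ S, mass p (L i)) ≤ ν) (ha : 0 ≤ a) :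
    Pr p (fun ω : V → Λ =>
      a ≤ |((S.filter fun i => ω (f i) ∈ L i).card : ℝ) - ∑ i ∈ S, mass p (L i)|) ≤
      2 * Real.exp (-a ^ 2 / (4 * ν + 2 * a)) := by
  have := many_dev hp S (fun i => {f i}) (fun i ω => ω (f i) ∈ L i)
    (fun i _ ω ω' h => by simp only [h (f i) rfl])
    (fun i hi j hj h => by simpa using fun e => h (hf hi hj e)) (ν := ν) (a := a)
    (by simpa only [Pr_mem hp] using hν) ha
  simp only [Pr_mem hp] at this
  convert this

/-- Hint: for `|S| ≤ m` one has `q ^ |S| ≤ x ^ (-m) (x q) ^ |S|`, and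
`∑ S ⊆ Ω, (x q) ^ |S| = (1 + x q) ^ |Ω|`. -/
theorem sum_small_subsets {α : Type} [DecidableEq α] (Ω : Finset α) {q x m : ℝ} (hq : 0 ≤ q)
    (hx : 0 < x) (hx1 : x ≤ 1) :
    ∑ S ∈ Ω.powerset.filter (fun S => (S.card : ℝ) ≤ m), q ^ S.card ≤
      Real.exp (m * Real.log (1 / x) + x * q * Ω.card) := by
  have hl : 0 ≤ Real.log (1 / x) := Real.log_nonneg (by rw [le_div_iff₀ hx]; linarith)
  have h1 : ∀ S ∈ Ω.powerset.filter (fun S => (S.card : ℝ) ≤ m),
      q ^ S.card ≤ Real.exp (m * Real.log (1 / x)) * (x * q) ^ S.card := by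
    intro S hS
    have hm := (mem_filter.1 hS).2
    have e : q ^ S.card = (1 / x) ^ S.card * (x * q) ^ S.card := by
      rw [← mul_pow]; congr 1; field_simp
    rw [e]
    refine mul_le_mul_of_nonneg_right ?_ (by positivity)
    rw [← Real.exp_log (x := 1 / x) (by positivity), ← Real.exp_nat_mul, Real.log_exp]
    exact Real.exp_le_exp.2 (mul_le_mul_of_nonneg_right hm hl)
  refine (Finset.sum_le_sum h1).trans ?_
  rw [← Finset.mul_sum, Real.exp_add]
  refine mul_le_mul_of_nonneg_left ?_ (Real.exp_pos _).le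
  refine (Finset.sum_le_sum_of_subset_of_nonneg (Finset.filter_subset _ _)
    (fun S _ _ => by positivity)).trans ?_
  have h2 := Finset.prod_one_add (f := fun _ : α => x * q) Ω
  simp only [Finset.prod_const] at h2
  rw [← h2, mul_comm (x * q), Real.exp_nat_mul]
  exact pow_le_pow_left₀ (by positivity) (by linarith [Real.add_one_le_exp (x * q)]) _

theorem pbase_num (k κ : ℝ) (hκ : 0 < κ) : ∃ ρ1 : ℝ, ∀ ρ, ρ1 ≤ ρ →
    4 * (k * (2 * Real.exp (-(κ * ρ)))) * (640 * ρ ^ 3) ≤ 1 := by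
  have h1 : Filter.Tendsto (fun ρ : ℝ => (κ * ρ) ^ 3 * Real.exp (-(κ * ρ))) Filter.atTop (nhds 0) :=
    (Real.tendsto_pow_mul_exp_neg_atTop_nhds_zero 3).comp
      (Filter.tendsto_id.const_mul_atTop hκ)
  have h2 := h1.const_mul (5120 * k / κ ^ 3)
  rw [mul_zero] at h2
  obtain ⟨ρ1, h⟩ := Filter.eventually_atTop.1 (h2.eventually (ge_mem_nhds one_pos))
  refine ⟨ρ1, fun ρ hρ => le_trans (le_of_eq ?_) (h ρ hρ)⟩
  field_simp
  ring

/-- Random partition of the vertices that splits many prescribed subsets of neighbourhoods evenly.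
Hint: uniform weights on `Λ`; `local_lemma` with one event for each `j ∈ J` (some class deviates),
depending on the coordinates in `N j`; probability at most
`|Λ| * 2 * exp (-(c ρ) ^ 2 / (32 ρ + 2 c ρ))` by `cnt_dev`; at most `8 ρ * 8 ρ * 10 ρ` events depend
on common coordinates. -/
theorem split (Λ : Type) [Fintype Λ] [Nonempty Λ] [DecidableEq Λ] {c : ℝ} (hc : 0 < c) :
    ∃ ρ0 : ℝ, ∀ ρ : ℝ, ρ0 ≤ ρ → ∀ (V : Type) [Fintype V] [DecidableEq V] (Nb : V → Finset V)
      (ι : Type) (J : Finset ι) (ctr : ι → V) (N : ι → Finset V),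
      (∀ j ∈ J, N j ⊆ Nb (ctr j)) → (∀ v, ((Nb v).card : ℝ) ≤ 8 * ρ) →
      (∀ v, ((univ.filter fun y => v ∈ Nb y).card : ℝ) ≤ 8 * ρ) →
      (∀ v, ((J.filter fun j => ctr j = v).card : ℝ) ≤ 10 * ρ) →
      ∃ lab : V → Λ, ∀ j ∈ J, ∀ l : Λ,
        |(((N j).filter fun v => lab v = l).card : ℝ) - ((N j).card : ℝ) / Fintype.card Λ| ≤
          c * ρ := by
  have hk : (0 : ℝ) < Fintype.card Λ := by exact_mod_cast Fintype.card_pos
  obtain ⟨ρ1, hρ1⟩ := pbase_num (Fintype.card Λ) (c ^ 2 / (32 + 2 * c)) (by positivity)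
  refine ⟨max ρ1 1, fun ρ hρ V _ _ Nb ι J ctr N hN hNb hin hctr => ?_⟩
  have hρ0 : 1 ≤ ρ := le_trans (le_max_right _ _) hρ
  have hnum := hρ1 ρ (le_trans (le_max_left _ _) hρ)
  let p : Λ → ℝ := fun _ => 1 / Fintype.card Λ
  have hp : IsP p := ⟨fun _ => by positivity, by
    simp only [p, Finset.sum_const, Finset.card_univ, nsmul_eq_mul]; field_simp⟩
  let E : ι → (V → Λ) → Prop := fun j lab => ∃ l ∈ (univ : Finset Λ),
    c * ρ ≤ |(((N j).filter fun v => lab v = l).card : ℝ) - ((N j).card : ℝ) / Fintype.card Λ|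
  have hNc : ∀ j ∈ J, ((N j).card : ℝ) ≤ 8 * ρ := fun j hj =>
    le_trans (by exact_mod_cast Finset.card_le_card (hN j hj)) (hNb _)
  have hq : ∀ j ∈ J, Pr p (E j) ≤
      Fintype.card Λ * (2 * Real.exp (-(c ^ 2 / (32 + 2 * c) * ρ))) := by
    intro j hj
    refine (Pr_exists hp univ _).trans ?_
    rw [← nsmul_eq_mul, ← Finset.card_univ]
    refine Finset.sum_le_card_nsmul _ _ _ fun l _ => ?_
    have hm : ∑ _i ∈ N j, mass p {l} = ((N j).card : ℝ) / Fintype.card Λ := by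
      simp [mass, p, div_eq_mul_inv]
    have h1 := cnt_dev hp (N j) id (Set.injOn_id _) (fun _ => {l}) (ν := 8 * ρ) (a := c * ρ)
      (le_trans (min_le_left _ _) (by
        rw [hm]
        refine le_trans (div_le_self (by positivity) ?_) (hNc j hj)
        exact_mod_cast Fintype.card_pos)) (by positivity)
    rw [hm] at h1
    have e : -(c * ρ) ^ 2 / (4 * (8 * ρ) + 2 * (c * ρ)) = -(c ^ 2 / (32 + 2 * c) * ρ) := by
      field_simp; ring
    rw [e] at h1
    refine le_trans (le_of_eq (Pr_congr fun ω => ?_)) h1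
    simp only [id, Finset.mem_singleton, Finset.card_univ]
  have hD : ∀ i ∈ J, (J.filter (fun j => ¬ Disjoint ((N i : Finset V) : Set V) (N j))).card
      ≤ ⌊640 * ρ ^ 3⌋₊ := by
    intro i hi
    refine Nat.le_floor ?_
    have hsub : J.filter (fun j => ¬ Disjoint ((N i : Finset V) : Set V) (N j)) ⊆
        (N i).biUnion fun v => (univ.filter fun y => v ∈ Nb y).biUnion fun y =>
          J.filter fun j => ctr j = y := by
      intro j hj
      obtain ⟨hj1, hj2⟩ := mem_filter.1 hj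
      obtain ⟨v, hv1, hv2⟩ := Set.not_disjoint_iff.1 hj2
      refine mem_biUnion.2 ⟨v, hv1, mem_biUnion.2 ⟨ctr j, mem_filter.2 ⟨mem_univ _, hN j hj1 hv2⟩,
        mem_filter.2 ⟨hj1, rfl⟩⟩⟩
    have h1 : ∀ v : V, ((((univ.filter fun y => v ∈ Nb y).biUnion fun y =>
        J.filter fun j => ctr j = y).card : ℕ) : ℝ) ≤ 8 * ρ * (10 * ρ) := by
      intro v
      refine le_trans (Nat.cast_le.2 Finset.card_biUnion_le) ?_
      push_cast
      refine (Finset.sum_le_card_nsmul _ _ _ fun y _ => hctr y).trans ?_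
      rw [nsmul_eq_mul]
      exact mul_le_mul_of_nonneg_right (hin v) (by positivity)
    refine le_trans (Nat.cast_le.2 ((Finset.card_le_card hsub).trans Finset.card_biUnion_le)) ?_
    push_cast
    refine (Finset.sum_le_card_nsmul _ _ _ fun v _ => h1 v).trans ?_
    rw [nsmul_eq_mul]
    calc _ ≤ 8 * ρ * (8 * ρ * (10 * ρ)) := mul_le_mul_of_nonneg_right (hNc i hi) (by positivity)
      _ = _ := by ring
  have h3 : (1 : ℝ) ≤ ρ ^ 3 := one_le_pow₀ hρ0
  obtain ⟨lab, hlab⟩ := local_lemma hp J (fun j => ((N j : Finset V) : Set V)) E _ ⌊640 * ρ ^ 3⌋₊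
    (Nat.le_floor (by push_cast; linarith)) (by positivity) (fun j _ ω ω' h => by
      have : ∀ l, ((N j).filter fun v => ω v = l) = (N j).filter fun v => ω' v = l := fun l =>
        Finset.filter_congr fun v hv => by rw [h v hv]
      simp only [E, this]) hq (fun i hi => by convert hD i hi) (by
      have := Nat.floor_le (a := 640 * ρ ^ 3) (by positivity)
      refine le_trans (mul_le_mul_of_nonneg_left this (by positivity)) ?_
      linarith)
  refine ⟨lab, fun j hj l => ?_⟩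
  by_contra hc'
  exact hlab j hj ⟨l, mem_univ _, (not_le.1 hc').le⟩

end

end Pool.Agent.MP_1376f1_pr
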