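import Pool.Agent.MP_1376f1_pr.Mg.PBase
import Pool.Agent.MP_1376f1_pr.Mg.Conv

/-!
The pseudo-random properties of a pool hold with overwhelming probability.
-/

set_option autoImplicit false
set_option linter.unusedSectionVars false

namespace Pool.Agent.MP_1376f1_pr

open Finset MP_d802e4_co
open scoped Classical

noncomputable section

variable {V Λ : Type} [Fintype V] [DecidableEq V] [Fintype Λ] {p : Λ → ℝ}


lemma poolp_choose (n a : ℕ) (hn : 0 < n) (ha : 0 < a) :
    (n.choose a : ℝ) ≤ Real.exp (a * (1 + Real.log n - Real.log a)) := by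
  have hn' : (0 : ℝ) < n := by exact_mod_cast hn
  have ha' : (0 : ℝ) < a := by exact_mod_cast ha
  have h1 : (n.choose a : ℝ) ≤ (n : ℝ) ^ a / a.factorial := Nat.choose_le_pow_div a n
  have h2 := Real.pow_div_factorial_le_exp (a : ℝ) ha'.le a
  have h3 : Real.exp (a * (1 + Real.log n - Real.log a)) =
      Real.exp a * ((n : ℝ) ^ a / (a : ℝ) ^ a) := by
    rw [show (a : ℝ) * (1 + Real.log n - Real.log a) =
      a + (a * Real.log n - a * Real.log a) by ring, Real.exp_add, Real.exp_sub,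
      Real.exp_nat_mul, Real.exp_nat_mul, Real.exp_log hn', Real.exp_log ha']
  rw [h3]
  calc (n.choose a : ℝ) ≤ (n : ℝ) ^ a / a.factorial := h1
    _ = (a : ℝ) ^ a / a.factorial * ((n : ℝ) ^ a / (a : ℝ) ^ a) := by field_simp
    _ ≤ _ := by gcongr

lemma poolp_one (hp : IsP p) (L : Finset Λ) {q lam : ℝ} (hq : mass p L ≤ q) (hq0 : 0 < q)
    (hl : 0 < lam) (S : Finset V) (hS : 0 < (S.card : ℝ)) (h1 : S.card * q ≤ 2 * lam) :
    Pr p (fun ω : Sym2 V → Λ => lam * S.card < ((inside (gr ω L) S).card : ℝ)) ≤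
      Real.exp (lam * S.card * (1 - Real.log (2 * lam / (S.card * q)))) := by
  have h2 : 1 ≤ 2 * lam / (S.card * q) := by rwa [le_div_iff₀ (by positivity), one_mul]
  have h3 : 2 * ((inside (allE V) S).card : ℝ) ≤ (S.card : ℝ) ^ 2 := by
    exact_mod_cast card_inside_allE S
  have h := cnt_up hp (inside (allE V) S) id (Set.injOn_id _) (fun _ => L)
    (μ := (S.card : ℝ) ^ 2 / 2 * q) (t := Real.log (2 * lam / (S.card * q))) (l := lam * S.card)
    (by
      rw [sum_const, nsmul_eq_mul]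
      exact mul_le_mul (by linarith) hq (mass_nonneg hp L) (by positivity))
    (Real.log_nonneg h2)
  refine le_trans (Pr_mono hp fun ω hω => ?_) (h.trans (Real.exp_le_exp.2 ?_))
  · refine hω.le.trans (Nat.cast_le.2 (card_le_card fun e he => ?_))
    simp only [mem_inside, mem_gr, mem_filter, mem_allE, id] at he ⊢
    exact ⟨⟨he.1.1, he.2⟩, he.1.2⟩
  · rw [Real.exp_log (by positivity)]
    have e : 2 * lam / (S.card * q) * ((S.card : ℝ) ^ 2 / 2 * q) = lam * S.card := by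
      field_simp
    have : 0 ≤ (S.card : ℝ) ^ 2 / 2 * q := by positivity
    nlinarith

lemma poolp_loglog : ∃ n0 : ℝ, 1 ≤ n0 ∧ ∀ n, n0 ≤ n →
    0 < Real.log n ∧ Real.log (8 * Real.log n) ≤ Real.log n / 10 := by
  refine ⟨Real.exp (10 ^ 4), Real.one_le_exp (by norm_num), fun n hn => ?_⟩
  have h1 : 10 ^ 4 ≤ Real.log n := by
    rw [Real.le_log_iff_exp_le ((Real.exp_pos _).trans_le hn)]; exact hn
  set y := Real.log n
  have h2 : Real.log (8 * y) = 2 * Real.log (Real.sqrt (8 * y)) := by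
    rw [Real.log_sqrt (by positivity)]; ring
  have h3 := Real.log_le_sub_one_of_pos (Real.sqrt_pos.2 (show 0 < 8 * y by positivity))
  have h4 : Real.sqrt (8 * y) ≤ y / 20 := by
    rw [Real.sqrt_le_iff]
    exact ⟨by positivity, by nlinarith⟩
  exact ⟨by linarith, by linarith⟩

/-- Hint: union bound over sets `S` of size `a ≤ a'`; only `a > 2 lam` matters
(`card_inside_allE`). By `cnt_up` with `exp t = 2 lam / (a q)` the probability that `S` spans at
least `lam a` edges is at most `(e a q / (2 lam)) ^ (lam a)`, and `choose n a ≤ (e n / a) ^ a`. With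
`z a = (e n / a) (e a q / (2 lam)) ^ lam = z a' (a / a') ^ (lam - 1)`: for `a ≥ 8 log n` use
`z a ≤ 1 / e`, for smaller `a` use `a / a' ≤ n ^ (-2/5)` and `(lam - 1) a ≥ 24`. -/
theorem sparse_prob : ∃ n0 : ℝ, ∀ (V Λ : Type) [Fintype V] [DecidableEq V] [Fintype Λ]
    (p : Λ → ℝ), IsP p → n0 ≤ nV V → ∀ (L : Finset Λ) (q a' lam : ℝ), mass p L ≤ q → 0 < q →
    4 ≤ lam → Real.sqrt (nV V) ≤ a' → a' ≤ nV V →
    Real.exp 1 * nV V / a' * (Real.exp 1 * a' * q / (2 * lam)) ^ lam ≤ Real.exp (-1) →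
    Pr p (fun ω : Sym2 V → Λ => ¬ Sparse (gr ω L) a' lam) ≤ 1 / nV V ^ 7 := by
  obtain ⟨n0, n1, hn0⟩ := poolp_loglog
  refine ⟨n0, fun V Λ _ _ _ p hp hn L q a' lam hq hq0 hl ha1 ha2 hz => ?_⟩
  obtain ⟨l0, l1⟩ := hn0 _ hn
  have np : 0 < nV V := by linarith
  have ap : 0 < a' := (Real.sqrt_pos.2 np).trans_le ha1
  have e0 := Real.exp_pos 1
  have lp : 0 < lam := by linarith
  have hz2 : 1 + Real.log (nV V) - Real.log a' +
      lam * (1 + Real.log a' + Real.log q - Real.log (2 * lam)) ≤ -1 := by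
    have := Real.log_le_log (by positivity) hz
    rw [Real.log_mul (by positivity) (by positivity), Real.log_rpow (by positivity),
      Real.log_div (by positivity) (by positivity), Real.log_div (by positivity) (by positivity),
      Real.log_mul (by positivity) (by positivity), Real.log_mul (by positivity) (by positivity),
      Real.log_mul (by positivity) (by positivity), Real.log_exp, Real.log_exp] at this
    exact this
  have hl2 : Real.log a' ≤ Real.log (nV V) := Real.log_le_log ap ha2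
  have hl3 : Real.log (nV V) / 2 ≤ Real.log a' := by
    have := Real.log_le_log (Real.sqrt_pos.2 np) ha1
    rwa [Real.log_sqrt np.le] at this
  have haq : a' * q ≤ 2 * lam := by
    have h1 : Real.log a' + Real.log q - Real.log (2 * lam) ≤ 0 := by
      by_contra h
      push Not at h
      nlinarith
    rw [← Real.log_le_log_iff (by positivity) (by positivity), Real.log_mul ap.ne' hq0.ne']
    linarith
  let g : ℕ → ℝ := fun a => if 2 * lam < a ∧ (a : ℝ) ≤ a' then
    Real.exp (lam * a * (1 - Real.log (2 * lam / (a * q)))) else 0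
  have h1 : Pr p (fun ω : Sym2 V → Λ => ¬ Sparse (gr ω L) a' lam) ≤
      ∑ S ∈ (univ : Finset V).powerset, g S.card := by
    refine le_trans (Pr_mono hp fun ω hω => ?_) ((Pr_exists hp (univ : Finset V).powerset
      fun S ω => (S.card : ℝ) ≤ a' ∧
        lam * S.card < ((inside (gr ω L) S).card : ℝ)).trans (sum_le_sum fun S _ => ?_))
    · simp only [Sparse, not_forall, not_le] at hω
      obtain ⟨S, h1, h2⟩ := hω
      exact ⟨S, by simp, h1, h2⟩
    · by_cases hc : 2 * lam < S.card ∧ (S.card : ℝ) ≤ a'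
      · simp only [g, if_pos hc]
        refine (Pr_mono hp fun ω h => h.2).trans
          (poolp_one hp L hq hq0 lp S (by linarith [hc.1]) (le_trans ?_ haq))
        exact mul_le_mul_of_nonneg_right hc.2 hq0.le
      · simp only [g, if_neg hc]
        refine le_trans (Pr_mono hp fun ω h => hc ⟨?_, h.1⟩) Pr_false.le
        have h3 : 2 * ((inside (allE V) S).card : ℝ) ≤ (S.card : ℝ) ^ 2 := by
          exact_mod_cast card_inside_allE S
        have h4 : ((inside (gr ω L) S).card : ℝ) ≤ (inside (allE V) S).card :=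
          Nat.cast_le.2 (card_le_card fun e he => by
            simp only [mem_inside, mem_gr, mem_allE] at he ⊢
            exact ⟨he.1.1, he.2⟩)
        have h5 := h.2
        by_contra h6
        push Not at h6
        nlinarith [Nat.cast_nonneg (α := ℝ) S.card]
  refine h1.trans ?_
  rw [sum_powerset_apply_card g, card_univ, sum_range_succ']
  have g0 : g 0 = 0 := if_neg fun h => by
    have := h.1
    simp only [Nat.cast_zero] at this
    linarith
  have hc : 0 < Fintype.card V := by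
    unfold nV at np
    exact_mod_cast np
  have key : ∀ a : ℕ, (Fintype.card V).choose a • g a ≤ 1 / nV V ^ 8 := by
    intro a
    by_cases h : 2 * lam < a ∧ (a : ℝ) ≤ a'
    swap
    · simp only [g, if_neg h, smul_zero]; positivity
    have a8 : (8 : ℝ) < a := by linarith [h.1]
    have a0 : (0 : ℝ) < a := by linarith
    simp only [g, if_pos h, nsmul_eq_mul]
    refine (mul_le_mul_of_nonneg_right (poolp_choose _ a hc (by exact_mod_cast a0))
      (Real.exp_pos _).le).trans ?_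
    have e8 : 1 / nV V ^ 8 = Real.exp (-(8 * Real.log (nV V))) := by
      rw [Real.exp_neg, show (8 : ℝ) = (8 : ℕ) by norm_num, Real.exp_nat_mul, Real.exp_log np,
        one_div]
    rw [← Real.exp_add, e8, Real.exp_le_exp, Real.log_div (by positivity) (by positivity),
      Real.log_mul a0.ne' hq0.ne']
    change a * (1 + Real.log (nV V) - Real.log a) + _ ≤ _
    have hl4 : Real.log a ≤ Real.log a' := Real.log_le_log a0 h.2
    have k1 : a * (1 + Real.log (nV V) - Real.log a) +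
        lam * a * (1 - (Real.log (2 * lam) - (Real.log a + Real.log q))) ≤
        a * (-1 - (lam - 1) * (Real.log a' - Real.log a)) := by
      nlinarith [mul_le_mul_of_nonneg_left hz2 a0.le]
    refine k1.trans ?_
    have k2 : 3 * (Real.log a' - Real.log a) ≤ (lam - 1) * (Real.log a' - Real.log a) :=
      mul_le_mul_of_nonneg_right (by linarith) (by linarith)
    by_cases h8 : 8 * Real.log (nV V) ≤ a
    · nlinarith
    · have k3 : Real.log a ≤ Real.log (8 * Real.log (nV V)) :=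
        Real.log_le_log a0 (not_le.1 h8).le
      nlinarith
  rw [g0, smul_zero, add_zero]
  refine (sum_le_card_nsmul _ _ _ fun a _ => key _).trans (le_of_eq ?_)
  rw [card_range, nsmul_eq_mul]
  change nV V * _ = _
  field_simp

lemma poolp_fix (hp : IsP p) (LP LC : Finset Λ) {qP qC b0 β : ℝ}
    (hP : mass p LP ≤ qP) (hC : qC ≤ mass p LC) (hqC : 0 ≤ qC) (hb0 : 0 ≤ b0)
    (hβ : β ≤ b0 * qC / 2) (B Γ : Finset (Sym2 V)) (hd : ∀ e ∈ B, e ∉ Γ) :
    Pr p (fun ω : Sym2 V → Λ => b0 ≤ B.card ∧ (∀ e ∈ Γ, ω e ∈ LP) ∧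
      ((B.filter fun e => ω e ∈ LC).card : ℝ) ≤ β) ≤
      qP ^ Γ.card * Real.exp (-(b0 * qC / 8)) := by
  have q0 : 0 ≤ qP := (mass_nonneg hp LP).trans hP
  by_cases hB : b0 ≤ B.card
  swap
  · exact le_trans (Pr_mono hp fun ω h => hB h.1) (Pr_false.le.trans (by positivity))
  refine (Pr_mono hp fun ω h => h.2).trans ?_
  rw [Pr_and hp (A := (Γ : Set (Sym2 V))) (B := (B : Set (Sym2 V)))]
  · refine mul_le_mul ?_ ?_ (Pr_nonneg hp _) (by positivity)
    · rw [Pr_all_mem hp]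
      exact pow_le_pow_left₀ (mass_nonneg hp LP) hP _
    · have h := cnt_low hp B id (Set.injOn_id _) (fun _ => LC) (μ := b0 * qC) (t := Real.log 2)
        (l := β) (by
          rw [sum_const, nsmul_eq_mul]
          exact mul_le_mul hB hC hqC (Nat.cast_nonneg _)) (Real.log_nonneg one_le_two)
      refine h.trans (Real.exp_le_exp.2 ?_)
      rw [Real.exp_neg, Real.exp_log two_pos]
      have h1 := Real.log_two_lt_d9
      have h2 := Real.log_two_gt_d9
      have h3 := mul_nonneg hb0 hqC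
      nlinarith
  · intro ω ω' h
    exact propext (forall₂_congr fun e he => by rw [h e he])
  · intro ω ω' h
    have : (B.filter fun e => ω e ∈ LC) = B.filter fun e => ω' e ∈ LC :=
      filter_congr fun e he => by rw [h e he]
    simp only [this]
  · exact Set.disjoint_left.2 fun e h1 h2 => hd e h2 h1

lemma poolp_pow : (Fintype.card (Finset V) : ℝ) ≤ Real.exp (nV V) := by
  rw [Fintype.card_finset, nV, ← mul_one (Fintype.card V : ℝ), Real.exp_nat_mul]
  push_cast
  exact pow_le_pow_left₀ zero_le_two (by linarith [Real.add_one_le_exp (1 : ℝ)]) _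

lemma poolp_sym2 : (Fintype.card (Sym2 V) : ℝ) ≤ nV V ^ 2 := by
  have := Fintype.card_le_of_surjective (Sym2.mk.uncurry : V × V → Sym2 V)
    fun e => Sym2.ind (fun a b => ⟨(a, b), rfl⟩) e
  rw [Fintype.card_prod] at this
  rw [nV, sq]
  exact_mod_cast this

/-- Hint: union bound over `Y`, `Z`, `L` (`sum_small_subsets` with `q = 1` and the given `x'`) and
`Γ ⊆ inside (allE V) Y` (`sum_small_subsets`). For fixed data the events `Γ ⊆ gr ω LP` (probability
at most `qP ^ |Γ|`) and `|Boost ∩ gr ω LC| < β` (`cnt_low` with `t = log 2`) depend on disjoint sets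
of coordinates because `Boost` is disjoint from `Γ`. -/
theorem boost_prob (hp : IsP p) (LP LC : Finset Λ) {qP qC y0 e0 m0 b0 β x x' : ℝ}
    (hP : mass p LP ≤ qP) (hC : qC ≤ mass p LC) (hqC : 0 ≤ qC) (hb0 : 0 ≤ b0) (hy0 : 0 ≤ y0)
    (hβ : β ≤ b0 * qC / 2) (hx : 0 < x) (hx1 : x ≤ 1) (hx' : 0 < x') (hx1' : x' ≤ 1) :
    Pr p (fun ω : Sym2 V → Λ => ¬ PropB univ (gr ω LP) (gr ω LC) y0 e0 m0 b0 β) ≤
      Real.exp (2 * nV V + (e0 * Real.log (1 / x') + x' * nV V ^ 2) +
        (m0 * Real.log (1 / x) + x * qP * (y0 ^ 2 / 2)) - b0 * qC / 8) := by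
  have q0 : 0 ≤ qP := (mass_nonneg hp LP).trans hP
  let E : Finset V → Finset V → Finset (Sym2 V) → Finset (Sym2 V) → (Sym2 V → Λ) → Prop :=
    fun Y Z L Γ ω => b0 ≤ (Boost Y Z L Γ).card ∧ (∀ e ∈ Γ, ω e ∈ LP) ∧
      (((Boost Y Z L Γ).filter fun e => ω e ∈ LC).card : ℝ) ≤ β
  let SY : Finset (Finset V) := univ.filter fun Y => (Y.card : ℝ) ≤ y0
  let SL : Finset (Finset (Sym2 V)) := univ.powerset.filter fun L => (L.card : ℝ) ≤ e0
  let SG : Finset V → Finset (Finset (Sym2 V)) := fun Y =>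
    (inside (allE V) Y).powerset.filter fun Γ => (Γ.card : ℝ) ≤ m0
  set c := Real.exp (-(b0 * qC / 8)) with hc
  set c1 := Real.exp (m0 * Real.log (1 / x) + x * qP * (y0 ^ 2 / 2)) with hc1
  set c2 := Real.exp (e0 * Real.log (1 / x') + x' * nV V ^ 2) with hc2
  have b1 : ∀ Y ∈ SY, ∀ Z L, Pr p (fun ω => ∃ Γ ∈ SG Y, E Y Z L Γ ω) ≤ c1 * c := by
    intro Y hY Z L
    refine (Pr_exists hp _ _).trans ((sum_le_sum fun Γ _ =>
      poolp_fix hp LP LC hP hC hqC hb0 hβ _ Γ fun e he => (mem_Boost.1 he).2.2.1).trans ?_)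
    rw [← sum_mul]
    refine mul_le_mul_of_nonneg_right ((sum_small_subsets _ q0 hx hx1).trans
      (Real.exp_le_exp.2 ?_)) (Real.exp_pos _).le
    have h3 : 2 * ((inside (allE V) Y).card : ℝ) ≤ (Y.card : ℝ) ^ 2 := by
      exact_mod_cast card_inside_allE Y
    have h4 : (Y.card : ℝ) ^ 2 ≤ y0 ^ 2 :=
      pow_le_pow_left₀ (Nat.cast_nonneg _) (mem_filter.1 hY).2 _
    have : ((inside (allE V) Y).card : ℝ) ≤ y0 ^ 2 / 2 := by linarith
    gcongr
  have cL : (SL.card : ℝ) ≤ c2 := by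
    have h := sum_small_subsets (univ : Finset (Sym2 V)) (m := e0) zero_le_one hx' hx1'
    simp only [one_pow, sum_const, nsmul_eq_mul, mul_one, card_univ] at h
    refine h.trans (Real.exp_le_exp.2 ?_)
    have := poolp_sym2 (V := V)
    gcongr
  have b2 : ∀ Y ∈ SY, ∀ Z, Pr p (fun ω => ∃ L ∈ SL, ∃ Γ ∈ SG Y, E Y Z L Γ ω) ≤
      c2 * (c1 * c) := by
    intro Y hY Z
    refine (Pr_exists hp _ _).trans ((sum_le_card_nsmul _ _ _ fun L _ => b1 Y hY Z L).trans ?_)
    rw [nsmul_eq_mul]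
    exact mul_le_mul_of_nonneg_right cL (by positivity)
  have b3 : ∀ Y ∈ SY, Pr p (fun ω => ∃ Z ∈ (univ : Finset (Finset V)), ∃ L ∈ SL, ∃ Γ ∈ SG Y,
      E Y Z L Γ ω) ≤ Real.exp (nV V) * (c2 * (c1 * c)) := by
    intro Y hY
    refine (Pr_exists hp _ _).trans ((sum_le_card_nsmul _ _ _ fun Z _ => b2 Y hY Z).trans ?_)
    rw [nsmul_eq_mul]
    exact mul_le_mul_of_nonneg_right poolp_pow (by positivity)
  have b4 : Pr p (fun ω => ∃ Y ∈ SY, ∃ Z ∈ (univ : Finset (Finset V)), ∃ L ∈ SL, ∃ Γ ∈ SG Y,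
      E Y Z L Γ ω) ≤ Real.exp (nV V) * (Real.exp (nV V) * (c2 * (c1 * c))) := by
    refine (Pr_exists hp _ _).trans ((sum_le_card_nsmul _ _ _ b3).trans ?_)
    rw [nsmul_eq_mul]
    refine mul_le_mul_of_nonneg_right (le_trans ?_ poolp_pow) (by positivity)
    exact_mod_cast card_le_univ SY
  refine le_trans (Pr_mono hp fun ω hω => ?_) (b4.trans (le_of_eq ?_))
  · simp only [PropB, not_forall, not_le] at hω
    obtain ⟨Y, Z, L, Γ, -, -, h3, h4, h5, h6, h7, h8, h9⟩ := hω
    refine ⟨Y, mem_filter.2 ⟨mem_univ _, h3⟩, Z, mem_univ _, L,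
      mem_filter.2 ⟨mem_powerset.2 (subset_univ _), h4⟩, Γ,
      mem_filter.2 ⟨mem_powerset.2 fun e he => ?_, h7⟩, h8, fun e he => (mem_gr.1 (h6 he)).2,
      le_trans (Nat.cast_le.2 (card_le_card fun e he => ?_)) h9.le⟩
    · exact mem_inside.2 ⟨mem_allE.2 (h5 e he).1, (h5 e he).2⟩
    · rw [mem_filter] at he
      exact mem_inter.2 ⟨he.1, mem_gr.2 ⟨(mem_Boost.1 he.1).1, he.2⟩⟩
  · simp only [hc, hc1, hc2, ← Real.exp_add]
    congr 1
    ring

/-- Hint: `sparse_prob` with `q = 4 th ρ / n` (then `e a' q / (2 lam) = 0.12 e < 1 / e`) and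
`boost_prob` with `x = 1 / 10 ^ 14`, `x' = 1 / n ^ 2`, `qP = 16 ρ / n`, `qC = ρ / (2 n)`. With
`u = n ρ / γ ^ 2` the gain is `u / (5.12 * 10 ^ 10)`, and each of the costs is at most
`u / 10 ^ 12` for large `n`. -/
theorem pool_prob {γ : ℝ} (hγ : 1 ≤ γ) : ∃ n0 : ℝ, ∀ (V Λ : Type) [Fintype V] [DecidableEq V]
    [Fintype Λ] (p : Λ → ℝ), IsP p → n0 ≤ nV V → ∀ (LQ LP LC : Finset Λ) (ρ : ℝ),
    Real.log (nV V) ≤ 10 ^ 17 * ρ → mass p LQ ≤ 4 * th * ρ / nV V → mass p LP ≤ 16 * ρ / nV V →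
    ρ / (2 * nV V) ≤ mass p LC →
    Pr p (fun ω : Sym2 V → Λ => ¬ PoolOK univ ρ γ 5 (gr ω LQ) (gr ω LP) (gr ω LC)) ≤
      2 / nV V ^ 7 := by
  obtain ⟨n1, h1⟩ := sparse_prob
  set R : ℝ := 2 * 10 ^ 15 * γ * (4 + 10 ^ 4 * γ) with hR
  refine ⟨max n1 (max (Real.exp (10 ^ 17 * R)) ((10 ^ 4 * γ) ^ 2)),
    fun V Λ _ _ _ p hp hn LQ LP LC ρ hρ hQ hP hC => ?_⟩
  simp only [max_le_iff] at hn
  obtain ⟨n2, n3, n4⟩ := hn
  have g0 : 0 < γ := by linarith
  have np : 0 < nV V := (Real.exp_pos _).trans_le n3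
  have n5 : 1 ≤ nV V := by nlinarith
  have hR2 : R ≤ ρ := by
    have := (Real.le_log_iff_exp_le np).2 n3
    linarith
  have R0 : 0 < R := by positivity
  have ρ0 : 0 < ρ := by linarith
  have t0 := th_pos
  have hlam : 4 + 10 ^ 4 * γ ≤ th * ρ / (200 * γ) := by
    rw [le_div_iff₀ (by positivity)]
    unfold th
    nlinarith
  have s1 := h1 V Λ p hp n2 LQ (4 * th * ρ / nV V) (3 * nV V / (10 ^ 4 * γ)) (th * ρ / (200 * γ))
    hQ (by positivity) (by nlinarith) ?_ ?_ ?_
  rotate_left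
  · have h2 : 10 ^ 4 * γ ≤ Real.sqrt (nV V) := Real.le_sqrt_of_sq_le n4
    have h3 := Real.mul_self_sqrt np.le
    have h4 := Real.sqrt_nonneg (nV V)
    rw [le_div_iff₀ (by positivity)]
    nlinarith
  · rw [div_le_iff₀ (by positivity)]
    nlinarith
  · have e1 : Real.exp 1 * (3 * nV V / (10 ^ 4 * γ)) * (4 * th * ρ / nV V) /
        (2 * (th * ρ / (200 * γ))) = Real.exp 1 * (12 / 100) := by
      field_simp
      norm_num
    have e2 : Real.exp 1 * nV V / (3 * nV V / (10 ^ 4 * γ)) = Real.exp 1 * (10 ^ 4 * γ / 3) := by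
      field_simp
    have e3 : Real.exp 1 * (12 / 100) ≤ Real.exp (-1) := by
      have h2 := Real.exp_one_lt_d9
      have h3 := Real.exp_pos 1
      rw [Real.exp_neg, ← one_div, le_div_iff₀ h3]
      nlinarith
    rw [e1, e2]
    have e4 : 10 ^ 4 * γ / 3 ≤ Real.exp (10 ^ 4 * γ) := by
      have := Real.add_one_le_exp (10 ^ 4 * γ)
      rw [div_le_iff₀ (by norm_num)]
      nlinarith [Real.exp_pos (10 ^ 4 * γ)]
    calc _ ≤ Real.exp 1 * Real.exp (10 ^ 4 * γ) * Real.exp (-1) ^ (th * ρ / (200 * γ)) := by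
          gcongr
      _ = Real.exp (1 + 10 ^ 4 * γ + -1 * (th * ρ / (200 * γ))) := by
          rw [← Real.exp_mul, ← Real.exp_add, ← Real.exp_add]
      _ ≤ _ := Real.exp_le_exp.2 (by linarith)
  set u := nV V * ρ / γ ^ 2 with hu
  have u1 : 2 * 10 ^ 12 * nV V ≤ u := by
    rw [hu, le_div_iff₀ (by positivity)]
    have : 2 * 10 ^ 12 * γ ^ 2 ≤ ρ := by nlinarith
    nlinarith
  have eb : (nV V / (10 ^ 4 * γ)) ^ 2 / 32 * (ρ / (2 * nV V)) = u / (64 * 10 ^ 8) := by
    rw [hu]; field_simp; norm_num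
  have s2 := boost_prob (V := V) hp LP LC (y0 := 3 * nV V / γ) (e0 := nV V / (10 ^ 30 * γ ^ 2))
    (m0 := th * ρ * nV V / (4 * γ ^ 2)) (b0 := (nV V / (10 ^ 4 * γ)) ^ 2 / 32)
    (β := 5 * nV V * ρ / (10 ^ 11 * γ ^ 2)) (x := 1 / 10 ^ 14) (x' := 1 / nV V ^ 2) hP hC
    (by positivity) (by positivity) (by positivity) ?_ (by positivity) (by norm_num)
    (by positivity) (by rw [div_le_one (by positivity)]; nlinarith)
  swap
  · have : 5 * nV V * ρ / (10 ^ 11 * γ ^ 2) = 5 * u / 10 ^ 11 := by rw [hu]; field_simp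
    rw [this, eb]
    linarith
  have s3 : Real.exp (2 * nV V + (nV V / (10 ^ 30 * γ ^ 2) * Real.log (1 / (1 / nV V ^ 2)) +
      1 / nV V ^ 2 * nV V ^ 2) + (th * ρ * nV V / (4 * γ ^ 2) * Real.log (1 / (1 / 10 ^ 14)) +
      1 / 10 ^ 14 * (16 * ρ / nV V) * ((3 * nV V / γ) ^ 2 / 2)) -
      (nV V / (10 ^ 4 * γ)) ^ 2 / 32 * (ρ / (2 * nV V)) / 8) ≤ 1 / nV V ^ 7 := by
    have e7 : 1 / nV V ^ 7 = Real.exp (-(7 * Real.log (nV V))) := by
      rw [Real.exp_neg, show (7 : ℝ) = (7 : ℕ) by norm_num, Real.exp_nat_mul, Real.exp_log np,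
        one_div]
    have k1 : nV V / (10 ^ 30 * γ ^ 2) * Real.log (1 / (1 / nV V ^ 2)) ≤ 2 * u / 10 ^ 13 := by
      rw [one_div_one_div, Real.log_pow]
      calc _ ≤ nV V / (10 ^ 30 * γ ^ 2) * (((2 : ℕ) : ℝ) * (10 ^ 17 * ρ)) := by gcongr
        _ = _ := by rw [hu]; push_cast; field_simp
    have k2 : 1 / nV V ^ 2 * nV V ^ 2 = 1 := by field_simp
    have k3 : th * ρ * nV V / (4 * γ ^ 2) * Real.log (1 / (1 / 10 ^ 14)) ≤ 14 * u / 10 ^ 13 := by
      rw [one_div_one_div, Real.log_pow]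
      have : Real.log 10 ≤ 4 := by
        rw [Real.log_le_iff_le_exp (by norm_num)]
        have := Real.quadratic_le_exp_of_nonneg (show (0 : ℝ) ≤ 4 by norm_num)
        linarith
      calc _ ≤ th * ρ * nV V / (4 * γ ^ 2) * (((14 : ℕ) : ℝ) * 4) := by gcongr
        _ = _ := by rw [hu]; unfold th; push_cast; field_simp
    have k4 : 1 / 10 ^ 14 * (16 * ρ / nV V) * ((3 * nV V / γ) ^ 2 / 2) = 72 * u / 10 ^ 14 := by
      rw [hu]; field_simp; norm_num
    have k5 := Real.log_le_sub_one_of_pos np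
    rw [e7, Real.exp_le_exp, k2, k4, eb]
    linarith
  refine le_trans (Pr_mono hp fun ω hω => ?_) ((Pr_or hp _ _).trans
    ((add_le_add s1 (s2.trans s3)).trans (le_of_eq (by ring))))
  by_contra h
  push Not at h
  exact hω ⟨h.1, h.2⟩

end

end Pool.Agent.MP_1376f1_pr
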