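import Pool.Agent.MP_1376f1_pr.Mg.Conv

/-!
Rotation and extension with a locked matching.
-/

set_option autoImplicit false
set_option linter.unusedSectionVars false

namespace Pool.Agent.MP_1376f1_pr

open Finset MP_d802e4_co
open scoped Classical

noncomputable section

variable {V : Type} [Fintype V] [DecidableEq V]


lemma posa_app (l1 : List V) (a : V) (l2 : List V) :
    ledges (l1 ++ a :: l2) = ledges (l1 ++ [a]) ++ ledges (a :: l2) := by
  induction l1 with
  | nil => simp [ledges]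
  | cons b t ih =>
    cases t with
    | nil => simp [ledges]
    | cons c t =>
      simp only [List.cons_append, ledges] at ih ⊢
      rw [ih]

lemma posa_cons (e : Sym2 V) (a b : V) (l : List V) :
    e ∈ ledges (a :: b :: l) ↔ e = s(a, b) ∨ e ∈ ledges (b :: l) := by
  simp [ledges]

lemma posa_single (e : Sym2 V) (a : V) : e ∉ ledges [a] := by simp [ledges]

lemma posa_rev (e : Sym2 V) (l : List V) : e ∈ ledges l.reverse ↔ e ∈ ledges l := by
  induction l with
  | nil => simp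
  | cons a t ih =>
    cases t with
    | nil => simp
    | cons b t =>
      have e1 : (a :: b :: t).reverse = t.reverse ++ b :: [a] := by simp
      have e2 : (b :: t).reverse = t.reverse ++ [b] := by simp
      rw [e1, posa_app, List.mem_append, ← e2, ih, posa_cons, posa_cons, Sym2.eq_swap]
      simp [posa_single, or_comm]

lemma posa_mem {e : Sym2 V} {l : List V} (h : e ∈ ledges l) {v : V} (hv : v ∈ e) : v ∈ l := by
  induction l with
  | nil => simp [ledges] at h
  | cons a t ih =>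
    cases t with
    | nil => simp [ledges] at h
    | cons b t =>
      rcases (posa_cons _ _ _ _).1 h with rfl | h
      · rcases Sym2.mem_iff.1 hv with rfl | rfl <;> simp
      · exact List.mem_cons_of_mem _ (ih h)

lemma posa_nb_head {v u : V} {l : List V} (h : v ∉ l) :
    s(v, u) ∈ ledges (v :: l) ↔ l.head? = some u := by
  cases l with
  | nil => simp [ledges]
  | cons b t =>
    rw [posa_cons]
    constructor
    · rintro (h1 | h1)
      · rw [Sym2.congr_right.1 h1]; rfl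
      · exact (h (posa_mem h1 (Sym2.mem_mk_left _ _))).elim
    · intro h1
      left
      rw [Option.some.inj h1]

lemma posa_nb_last {v u : V} {l : List V} (h : v ∉ l) :
    s(v, u) ∈ ledges (l ++ [v]) ↔ l.getLast? = some u := by
  rw [← posa_rev, List.reverse_append, List.reverse_singleton, List.singleton_append,
    posa_nb_head (by simpa using h), List.head?_reverse]

lemma posa_deg {l : List V} (hl : l.Nodup) (v : V) :
    (univ.filter fun u => s(v, u) ∈ ledges l).card ≤ 2 := by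
  by_cases hv : v ∈ l
  · obtain ⟨l1, l2, rfl⟩ := List.append_of_mem hv
    have h1 : v ∉ l1 := fun h => (List.nodup_append.1 hl).2.2 v h v (by simp) rfl
    have h2 : v ∉ l2 := (List.nodup_cons.1 (List.nodup_append.1 hl).2.1).1
    have h3 : (univ.filter fun u => s(v, u) ∈ ledges (l1 ++ v :: l2)) ⊆
        l1.getLast?.toFinset ∪ l2.head?.toFinset := by
      intro u hu
      rw [mem_filter, posa_app, List.mem_append, posa_nb_last h1, posa_nb_head h2] at hu
      simpa using hu.2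
    have h4 : ∀ o : Option V, o.toFinset.card ≤ 1 := by
      intro o; cases o <;> simp
    have := card_le_card h3
    have := card_union_le l1.getLast?.toFinset l2.head?.toFinset
    have := h4 l1.getLast?
    have := h4 l2.head?
    omega
  · rw [filter_eq_empty_iff.2 fun u _ hu => hv (posa_mem hu (Sym2.mem_mk_left _ _))]
    simp

lemma posa_closed {C : Finset (Sym2 V)} {S : Finset V} (hS : Closed C S) {a : V} {l : List V}
    (h : ∀ e ∈ ledges (a :: l), e ∈ C) (ha : a ∈ S) : ∀ v ∈ a :: l, v ∈ S := by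
  induction l generalizing a with
  | nil => simpa using ha
  | cons b t ih =>
    have hb : b ∈ S := hS a ha (mem_nb.2 (h _ ((posa_cons _ _ _ _).2 (Or.inl rfl))))
    intro v hv
    rcases List.mem_cons.1 hv with rfl | hv
    · exact ha
    · exact ih (fun e he => h e ((posa_cons _ _ _ _).2 (Or.inr he))) hb v hv

/-- cyclic shift of a closed walk -/
lemma posa_shift {x z : V} {t : List V} (hz : z ∈ x :: t) :
    ∃ t' : List V, (z :: t').Perm (x :: t) ∧
      ∀ e, e ∈ ledges (z :: t' ++ [z]) ↔ e ∈ ledges (x :: t ++ [x]) := by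
  rcases List.mem_cons.1 hz with rfl | hz
  · exact ⟨t, List.Perm.refl _, fun _ => Iff.rfl⟩
  · obtain ⟨l1, l2, rfl⟩ := List.append_of_mem hz
    refine ⟨l2 ++ x :: l1, ?_, fun e => ?_⟩
    · exact List.perm_append_comm (l₁ := z :: l2) (l₂ := x :: l1)
    · have e1 : z :: (l2 ++ x :: l1) ++ [z] = (z :: l2) ++ x :: (l1 ++ [z]) := by simp
      have e2 : x :: (l1 ++ z :: l2) ++ [x] = (x :: l1) ++ z :: (l2 ++ [x]) := by simp
      rw [e1, e2, posa_app, posa_app (x :: l1), List.mem_append, List.mem_append, or_comm]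
      rfl

/-- neighbours on a closed walk -/
lemma posa_nb_cyc {v u : V} {t : List V} (h : v ∉ t) (ht : t ≠ []) :
    s(v, u) ∈ ledges (v :: t ++ [v]) ↔ t.head? = some u ∨ t.getLast? = some u := by
  obtain ⟨b, t, rfl⟩ := List.exists_cons_of_ne_nil ht
  have e : v :: (b :: t) ++ [v] = v :: b :: (t ++ [v]) := by simp
  rw [e, posa_cons, ← posa_nb_last h, Sym2.congr_right]
  simp [eq_comm]

lemma posa_isHam {Y : Finset V} {x : V} {t : List V} (hn : (x :: t).Nodup)
    (hY : ∀ v, v ∈ x :: t ↔ v ∈ Y) (h3 : 2 ≤ t.length) :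
    IsHam Y (ledges (x :: t ++ [x])).toFinset := by
  have key : ∀ v ∈ Y, ∃ p ∈ Y, ∃ q ∈ Y, p ≠ q ∧ p ≠ v ∧ q ≠ v ∧
      nb (ledges (x :: t ++ [x])).toFinset v = {p, q} := by
    intro v hv
    obtain ⟨t', hp, he⟩ := posa_shift ((hY v).2 hv)
    have hn' := hp.nodup_iff.2 hn
    have hl : 2 ≤ t'.length := by have := hp.length_eq; simp at this; omega
    have hvt : v ∉ t' := (List.nodup_cons.1 hn').1
    obtain ⟨p, t2, rfl⟩ := List.exists_cons_of_ne_nil (l := t') (by rintro rfl; simp at hl)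
    obtain ⟨t3, q, rfl⟩ : ∃ t3 q, t2 = t3 ++ [q] :=
      ⟨_, _, (List.dropLast_append_getLast (l := t2) (by rintro rfl; simp at hl)).symm⟩
    refine ⟨p, (hY p).1 (hp.subset (by simp)), q, (hY q).1 (hp.subset (by simp)), ?_, ?_, ?_, ?_⟩
    · rintro rfl
      simp at hn'
    · rintro rfl
      simp at hvt
    · rintro rfl
      simp at hvt
    · ext u
      rw [mem_nb, List.mem_toFinset, ← he, posa_nb_cyc hvt (by simp)]
      rw [show p :: (t3 ++ [q]) = (p :: t3) ++ [q] by simp, List.getLast?_concat]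
      simp [eq_comm]
  refine ⟨fun e he => ?_, fun v hv => ?_, fun S hS ⟨v, hv⟩ hc => ?_⟩
  · have hm : ∀ v ∈ e, v ∈ Y := fun v hv => by
      have := posa_mem (List.mem_toFinset.1 he) hv
      rw [← hY]
      simp only [List.mem_append, List.mem_cons, List.not_mem_nil, or_false] at this ⊢
      tauto
    refine ⟨?_, hm⟩
    induction e using Sym2.ind with
    | h a b =>
      intro hd
      obtain rfl : a = b := Sym2.mk_isDiag_iff.1 hd
      obtain ⟨p, -, q, -, -, h1, h2, h4⟩ := key a (hm a (Sym2.mem_mk_left _ _))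
      have := mem_nb.2 he
      rw [h4, mem_insert, mem_singleton] at this
      rcases this with h | h
      · exact h1 h.symm
      · exact h2 h.symm
  · obtain ⟨p, -, q, -, h1, -, -, h4⟩ := key v hv
    rw [dg, h4, card_pair h1]
  · obtain ⟨t', hp, he⟩ := posa_shift ((hY v).2 (hS hv))
    have := posa_closed hc (a := v) (l := t' ++ [v])
      (fun e h => List.mem_toFinset.2 ((he e).1 h)) hv
    refine Subset.antisymm hS fun u hu => this u ?_
    have h5 := hp.symm.subset ((hY u).2 hu)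
    simp only [List.mem_append, List.mem_cons, List.not_mem_nil, or_false] at h5 ⊢
    tauto

section
variable {Y Z : Finset V} {L Γ Γ' : Finset (Sym2 V)} {a : ℕ}

lemma posa_L (hL : IsMat (Y \ Z) L) {e : Sym2 V} (he : e ∈ L) {v : V} (hv : v ∈ e) :
    v ∈ Y ∧ v ∉ Z := mem_sdiff.1 ((hL.1 e he).2 v hv)

lemma posa_mat (hL : IsMat (Y \ Z) L) {u p q : V} (hp : s(u, p) ∈ L) (hq : s(u, q) ∈ L) :
    p = q := card_le_one.1 (hL.2 u) p (mem_nb.2 hp) q (mem_nb.2 hq)

lemma posa_mono {l : List V} (h : RPath Y L Γ l) (hΓ : Γ ⊆ Γ') : RPath Y L Γ' l :=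
  ⟨h.1, h.2.1, fun e he => (h.2.2.1 e he).imp_left (fun h => hΓ h), h.2.2.2⟩

lemma posa_reverse {l : List V} (h : RPath Y L Γ l) : RPath Y L Γ l.reverse :=
  ⟨List.nodup_reverse.2 h.1, fun v hv => h.2.1 v (List.mem_reverse.1 hv),
    fun e he => h.2.2.1 e ((posa_rev _ _).1 he),
    fun e he v hv hl => (posa_rev _ _).2 (h.2.2.2 e he v hv (List.mem_reverse.1 hl))⟩

lemma posa_len {l : List V} (h : RPath Y L Γ l) : l.length ≤ Y.card := by
  rw [← List.toFinset_card_of_nodup h.1]
  exact card_le_card fun v hv => h.2.1 v (List.mem_toFinset.1 hv)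

/-- extension -/
lemma posa_ext (hL : IsMat (Y \ Z) L) {z u : V} {t : List V} (h : RPath Y L Γ (z :: t))
    (hu : u ∈ Y) (hut : u ∉ z :: t) (he : s(u, z) ∈ Γ) :
    ∃ l, RPath Y L Γ l ∧ (z :: t).length < l.length := by
  by_cases hp : ∃ p, s(u, p) ∈ L
  · obtain ⟨p, hp⟩ := hp
    have hpt : p ∉ z :: t := fun hh =>
      hut (posa_mem (h.2.2.2 _ hp p (Sym2.mem_mk_right _ _) hh) (Sym2.mem_mk_left _ _))
    have hpu : u ≠ p := (hL.1.mk_mem hp).1
    have hp' : s(p, u) ∈ L := by rwa [Sym2.eq_swap]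
    refine ⟨p :: u :: z :: t, ⟨?_, ?_, ?_, ?_⟩, by simp⟩
    · refine List.nodup_cons.2 ⟨?_, List.nodup_cons.2 ⟨hut, h.1⟩⟩
      intro hh
      rcases List.mem_cons.1 hh with h1 | h1
      · exact hpu h1.symm
      · exact hpt h1
    · intro v hv
      rcases List.mem_cons.1 hv with rfl | hv
      · exact (posa_L hL hp (Sym2.mem_mk_right _ _)).1
      rcases List.mem_cons.1 hv with rfl | hv
      · exact hu
      · exact h.2.1 v hv
    · intro e h1
      rw [posa_cons, posa_cons] at h1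
      rcases h1 with rfl | rfl | h1
      · exact Or.inr hp'
      · exact Or.inl he
      · exact h.2.2.1 e h1
    · intro e h1 v hv h2
      rw [posa_cons, posa_cons]
      obtain ⟨w, rfl⟩ := Sym2.mem_iff_exists.1 hv
      rcases List.mem_cons.1 h2 with rfl | h2
      · rw [posa_mat hL h1 hp']; exact Or.inl rfl
      rcases List.mem_cons.1 h2 with rfl | h2
      · rw [posa_mat hL h1 hp]; exact Or.inl Sym2.eq_swap
      · exact Or.inr (Or.inr (h.2.2.2 _ h1 v hv h2))
  · refine ⟨u :: z :: t, ⟨List.nodup_cons.2 ⟨hut, h.1⟩, ?_, ?_, ?_⟩, by simp⟩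
    · intro v hv
      rcases List.mem_cons.1 hv with rfl | hv
      · exact hu
      · exact h.2.1 v hv
    · intro e h1
      rw [posa_cons] at h1
      rcases h1 with rfl | h1
      · exact Or.inl he
      · exact h.2.2.1 e h1
    · intro e h1 v hv h2
      rw [posa_cons]
      obtain ⟨w, rfl⟩ := Sym2.mem_iff_exists.1 hv
      rcases List.mem_cons.1 h2 with rfl | h2
      · exact (hp ⟨w, h1⟩).elim
      · exact Or.inr (h.2.2.2 _ h1 v hv h2)

/-- one rotation -/
def posaRot (Z : Finset V) (Γ : Finset (Sym2 V)) (Q Q' : List V) : Prop :=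
  ∃ (x y z : V) (m l : List V), z ∈ Z ∧ s(x, z) ∈ Γ ∧ Q = x :: m ++ y :: z :: l ∧
    Q' = y :: m.reverse ++ x :: z :: l

lemma posa_rot_edges (e : Sym2 V) (x y z : V) (m l : List V) :
    (e ∈ ledges (x :: m ++ y :: z :: l) ↔
      e ∈ ledges (x :: m ++ [y]) ∨ e = s(y, z) ∨ e ∈ ledges (z :: l)) ∧
    (e ∈ ledges (y :: m.reverse ++ x :: z :: l) ↔
      e ∈ ledges (x :: m ++ [y]) ∨ e = s(x, z) ∨ e ∈ ledges (z :: l)) := by
  constructor
  · rw [posa_app, List.mem_append, posa_cons]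
  · rw [posa_app, List.mem_append, posa_cons, ← posa_rev e (x :: m ++ [y])]
    simp

lemma posa_rot_path (hL : IsMat (Y \ Z) L) {Q Q' : List V} (h : RPath Y L Γ Q)
    (hr : posaRot Z Γ Q Q') : RPath Y L Γ Q' ∧ Q'.Perm Q ∧ Q'.getLast? = Q.getLast? := by
  obtain ⟨x, y, z, m, l, hz, hxz, rfl, rfl⟩ := hr
  have hp : (y :: m.reverse ++ x :: z :: l).Perm (x :: m ++ y :: z :: l) := by
    have e1 : y :: m.reverse ++ x :: z :: l = (x :: m ++ [y]).reverse ++ z :: l := by simp
    have e2 : x :: m ++ y :: z :: l = (x :: m ++ [y]) ++ z :: l := by simp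
    rw [e1, e2]
    exact (List.reverse_perm _).append_right _
  refine ⟨⟨hp.nodup_iff.2 h.1, fun v hv => h.2.1 v (hp.subset hv), fun e he => ?_,
    fun e he v hv hl => ?_⟩, hp, ?_⟩
  · rcases (posa_rot_edges e x y z m l).2.1 he with h1 | rfl | h1
    · exact h.2.2.1 e ((posa_rot_edges e x y z m l).1.2 (Or.inl h1))
    · exact Or.inl hxz
    · exact h.2.2.1 e ((posa_rot_edges e x y z m l).1.2 (Or.inr (Or.inr h1)))
  · rcases (posa_rot_edges e x y z m l).1.1 (h.2.2.2 e he v hv (hp.subset hl)) with h1 | rfl | h1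
    · exact (posa_rot_edges e x y z m l).2.2 (Or.inl h1)
    · exact ((posa_L hL he (Sym2.mem_mk_right _ _)).2 hz).elim
    · exact (posa_rot_edges e x y z m l).2.2 (Or.inr (Or.inr h1))
  · rw [List.getLast?_append_cons, List.getLast?_append_cons, List.getLast?_cons_cons,
      List.getLast?_cons_cons]

lemma posa_reach (hL : IsMat (Y \ Z) L) {P Q : List V} (h : RPath Y L Γ P)
    (hr : Relation.ReflTransGen (posaRot Z Γ) P Q) :
    RPath Y L Γ Q ∧ Q.Perm P ∧ Q.getLast? = P.getLast? := by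
  induction hr with
  | refl => exact ⟨h, List.Perm.refl _, rfl⟩
  | tail _ h2 ih =>
    obtain ⟨h3, h4, h5⟩ := posa_rot_path hL ih.1 h2
    exact ⟨h3, h4.trans ih.2.1, h5.trans ih.2.2⟩

/-- the lemma of Posa -/
lemma posa_many (hZ : Z ⊆ Y) (hL : IsMat (Y \ Z) L) (hexp : Expands Y Z Γ a) {P : List V}
    (h : RPath Y L Γ P) (hmax : ∀ l, RPath Y L Γ l → l.length ≤ P.length) (hne : P ≠ []) :
    ∃ S : Finset V, a < S.card ∧
      ∀ x ∈ S, ∃ t, RPath Y L Γ (x :: t) ∧ (x :: t).Perm P ∧ (x :: t).getLast? = P.getLast? := by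
  set S : Finset V := univ.filter fun x => ∃ t, Relation.ReflTransGen (posaRot Z Γ) P (x :: t)
    with hS
  have hmem : ∀ x, x ∈ S ↔ ∃ t, Relation.ReflTransGen (posaRot Z Γ) P (x :: t) := by
    intro x; simp [hS]
  refine ⟨S, ?_, fun x hx => ((hmem x).1 hx).imp fun t ht => posa_reach hL h ht⟩
  by_contra hc
  have hSY : S ⊆ Y := fun x hx => by
    obtain ⟨t, ht⟩ := (hmem x).1 hx
    exact (posa_reach hL h ht).1.2.1 x (by simp)
  have hSne : S.Nonempty := by
    obtain ⟨x, t, rfl⟩ := List.exists_cons_of_ne_nil hne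
    exact ⟨x, (hmem x).2 ⟨t, .refl⟩⟩
  have h1 := hexp S hSY hSne (not_lt.1 hc)
  have h2 : (S.biUnion (nb Γ) ∩ Z) \ S ⊆
      S.biUnion fun y => univ.filter fun u => s(y, u) ∈ ledges P := by
    intro z hz
    obtain ⟨hz1, hzS⟩ := mem_sdiff.1 hz
    obtain ⟨hz1, hzZ⟩ := mem_inter.1 hz1
    obtain ⟨x, hx, hxz⟩ := mem_biUnion.1 hz1
    rw [mem_nb] at hxz
    by_contra hno
    have hno' : ∀ y ∈ S, s(y, z) ∉ ledges P := fun y hy hh =>
      hno (mem_biUnion.2 ⟨y, hy, mem_filter.2 ⟨mem_univ _, hh⟩⟩)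
    have inv : ∀ Q, Relation.ReflTransGen (posaRot Z Γ) P Q →
        ∀ u, s(u, z) ∈ ledges Q → s(u, z) ∈ ledges P := by
      intro Q hQ
      induction hQ with
      | refl => exact fun _ h => h
      | tail h3 h4 ih =>
        have h5 := h3.tail h4
        obtain ⟨x', y', z', m, l, -, -, rfl, rfl⟩ := h4
        have hx' : x' ∈ S := (hmem x').2 ⟨_, h3⟩
        have hy' : y' ∈ S := (hmem y').2 ⟨_, h5⟩
        intro u hu
        rcases (posa_rot_edges _ x' y' z' m l).2.1 hu with h6 | h6 | h6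
        · exact ih u ((posa_rot_edges _ x' y' z' m l).1.2 (Or.inl h6))
        · have h7 : z ∈ s(x', z') := h6 ▸ Sym2.mem_mk_right _ _
          rcases Sym2.mem_iff.1 h7 with rfl | rfl
          · exact (hzS hx').elim
          · exact (hno' y' hy'
              (ih y' ((posa_rot_edges _ x' y' z m l).1.2 (Or.inr (Or.inl rfl))))).elim
        · exact ih u ((posa_rot_edges _ x' y' z' m l).1.2 (Or.inr (Or.inr h6)))
    obtain ⟨t, ht⟩ := (hmem x).1 hx
    obtain ⟨h3, h4, -⟩ := posa_reach hL h ht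
    have hzt : z ∈ x :: t := by
      by_contra hh
      obtain ⟨l, hl, hlt⟩ := posa_ext hL h3 (hZ hzZ) hh (by rwa [Sym2.eq_swap])
      have := hmax l hl
      have := h4.length_eq
      omega
    rcases List.mem_cons.1 hzt with rfl | hzt
    · exact hzS hx
    obtain ⟨m, l, rfl⟩ := List.append_of_mem hzt
    rcases List.eq_nil_or_concat m with rfl | ⟨m, y, rfl⟩
    · exact hno' x hx (inv _ ht x ((posa_cons _ _ _ _).2 (Or.inl rfl)))
    · have e : x :: (m.concat y ++ z :: l) = x :: m ++ y :: z :: l := by simp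
      rw [e] at ht
      have hy : y ∈ S := (hmem y).2 ⟨_, ht.tail ⟨x, y, z, m, l, hzZ, hxz, rfl, rfl⟩⟩
      exact hno' y hy (inv _ ht y ((posa_rot_edges _ x y z m l).1.2 (Or.inr (Or.inl rfl))))
  have h3 := card_le_card h2
  have h4 := card_biUnion_le_card_mul S
    (fun y => univ.filter fun u => s(y, u) ∈ ledges P) 2 fun y _ => posa_deg h.1 y
  omega

/-- closing a path to a cycle -/
lemma posa_close (hZ : Z ⊆ Y) (hL : IsMat (Y \ Z) L) (hexp : Expands Y Z Γ a) (hΓ : Γ ⊆ Γ') {x y : V}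
    {m : List V} (h : RPath Y L Γ' (y :: m ++ [x])) (hm : m ≠ []) (he : s(x, y) ∈ Γ')
    (hU : (Y \ (y :: m ++ [x]).toFinset).card ≤ a) :
    Hamil Y L Γ' ∨ ∃ l, RPath Y L Γ' l ∧ (y :: m ++ [x]).length < l.length := by
  have hc : ∀ e, e ∈ ledges (y :: (m ++ [x]) ++ [y]) ↔ e ∈ ledges (y :: m ++ [x]) ∨ e = s(x, y) := by
    intro e
    have e1 : y :: (m ++ [x]) ++ [y] = (y :: m) ++ x :: [y] := by simp
    rw [e1, posa_app, List.mem_append, posa_cons]
    simp [posa_single]
  have hc1 : ∀ e ∈ ledges (y :: (m ++ [x]) ++ [y]), e ∈ Γ' ∨ e ∈ L := by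
    intro e h1
    rcases (hc e).1 h1 with h1 | rfl
    · exact h.2.2.1 e h1
    · exact Or.inl he
  rcases (Y \ (y :: m ++ [x]).toFinset).eq_empty_or_nonempty with h0 | h0
  · left
    have hY : ∀ v, v ∈ y :: (m ++ [x]) ↔ v ∈ Y := fun v =>
      ⟨h.2.1 v, fun hv => List.mem_toFinset.1 (sdiff_eq_empty_iff_subset.1 h0 hv)⟩
    have hH := posa_isHam h.1 hY (by
      have := List.length_pos_iff.2 hm
      simp; omega)
    have hLs : L ⊆ (ledges (y :: (m ++ [x]) ++ [y])).toFinset := by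
      intro e h1
      induction e using Sym2.ind with
      | h p q =>
        exact List.mem_toFinset.2 ((hc _).2 (Or.inl (h.2.2.2 _ h1 p (Sym2.mem_mk_left _ _)
          ((hY p).2 (posa_L hL h1 (Sym2.mem_mk_left _ _)).1))))
    refine ⟨(ledges (y :: (m ++ [x]) ++ [y])).toFinset \ L, fun e h1 => ?_, ?_⟩
    · exact (hc1 e (List.mem_toFinset.1 (mem_sdiff.1 h1).1)).resolve_right (mem_sdiff.1 h1).2
    · rwa [sdiff_union_of_subset hLs]
  · right
    have h1 := hexp _ sdiff_subset h0 hU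
    obtain ⟨z, hz⟩ := card_pos.1 (lt_of_le_of_lt (Nat.zero_le _) h1)
    obtain ⟨hz1, hzU⟩ := mem_sdiff.1 hz
    obtain ⟨hz1, hzZ⟩ := mem_inter.1 hz1
    obtain ⟨u, hu, huz⟩ := mem_biUnion.1 hz1
    rw [mem_nb] at huz
    have hzP : z ∈ y :: (m ++ [x]) := by
      by_contra hh
      exact hzU (mem_sdiff.2 ⟨hZ hzZ, fun h2 => hh (List.mem_toFinset.1 h2)⟩)
    have huP : u ∉ y :: (m ++ [x]) := fun hh => (mem_sdiff.1 hu).2 (List.mem_toFinset.2 hh)
    obtain ⟨t', hp, hs⟩ := posa_shift hzP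
    have hl : t' ≠ [] := by
      rintro rfl
      have := hp.length_eq
      simp at this
    obtain ⟨t2, w, rfl⟩ : ∃ t2 w, t' = t2 ++ [w] :=
      ⟨_, _, (List.dropLast_append_getLast hl).symm⟩
    have hc' : ∀ e, e ∈ ledges (z :: (t2 ++ [w]) ++ [z]) ↔
        e ∈ ledges (z :: (t2 ++ [w])) ∨ e = s(w, z) := by
      intro e
      have e1 : z :: (t2 ++ [w]) ++ [z] = (z :: t2) ++ w :: [z] := by simp
      rw [e1, posa_app, List.mem_append, posa_cons]
      simp [posa_single]
    have hR : RPath Y L Γ' (z :: (t2 ++ [w])) := by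
      refine ⟨hp.nodup_iff.2 h.1, fun v hv => h.2.1 v (hp.subset hv),
        fun e h2 => hc1 e ((hs e).1 ((hc' e).2 (Or.inl h2))), fun e h2 v hv h3 => ?_⟩
      rcases (hc' e).1 ((hs e).2 ((hc e).2 (Or.inl (h.2.2.2 e h2 v hv (hp.subset h3))))) with
        h4 | rfl
      · exact h4
      · exact ((posa_L hL h2 (Sym2.mem_mk_right _ _)).2 hzZ).elim
    obtain ⟨l, hl1, hl2⟩ := posa_ext hL hR (mem_sdiff.1 hu).1 (fun hh => huP (hp.subset hh))
      (hΓ huz)
    exact ⟨l, hl1, lt_of_eq_of_lt hp.length_eq.symm hl2⟩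

lemma posa_half (ha : 2 * (Y \ Z).card ≤ a) {S : Finset V} (hS : S ⊆ Y) (h : a < S.card) :
    a ≤ 2 * (S ∩ Z).card := by
  have h1 := card_sdiff_add_card_inter S Z
  have h2 : (S \ Z).card ≤ (Y \ Z).card := card_le_card (sdiff_subset_sdiff hS subset_rfl)
  omega

lemma posa_count {B : Finset (Sym2 V)} (hB : On univ B) {T : Finset V} (hT : a ≤ 2 * T.card)
    (h : ∀ x ∈ T, a ≤ 2 * dg B x) : a ^ 2 ≤ 8 * B.card := by
  have h1 := handshake hB
  have h2 : ∑ x ∈ T, dg B x ≤ ∑ x ∈ univ, dg B x := sum_le_sum_of_subset (subset_univ _)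
  have h3 : T.card * a ≤ ∑ x ∈ T, 2 * dg B x := by
    have := card_nsmul_le_sum T _ a h
    rwa [smul_eq_mul] at this
  rw [← mul_sum] at h3
  nlinarith

lemma posa_longest (hL : IsMat (Y \ Z) L) (hZ : Z ⊆ Y) (hexp : Expands Y Z Γ a) (ha1 : 1 ≤ a)
    (hY : Y.Nonempty) : ∃ P, RPath Y L Γ P ∧ (∀ l, RPath Y L Γ l → l.length ≤ P.length) ∧
      3 ≤ P.length := by
  have h3 : ∀ x ∈ Y, 2 < ((nb Γ x ∩ Z) \ {x}).card := by
    intro x hx
    simpa using hexp {x} (singleton_subset_iff.2 hx) (singleton_nonempty x) (by simpa using ha1)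
  obtain ⟨y, hy⟩ := hY
  obtain ⟨z, hz⟩ := card_pos.1 (lt_of_le_of_lt (Nat.zero_le _) (h3 y hy))
  have hzZ := (mem_inter.1 (mem_sdiff.1 hz).1).2
  have h1 : RPath Y L Γ [z] := by
    refine ⟨List.nodup_singleton z, fun v hv => ?_, fun e he => (posa_single e z he).elim,
      fun e he v hv h => ?_⟩
    · rw [List.mem_singleton.1 hv]; exact hZ hzZ
    · rw [List.mem_singleton.1 h] at hv
      exact ((posa_L hL he hv).2 hzZ).elim
  have hb : BddAbove (List.length '' {l | RPath Y L Γ l}) :=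
    ⟨Y.card, by rintro _ ⟨l, hl, rfl⟩; exact posa_len hl⟩
  obtain ⟨P, hP, hP'⟩ := Nat.sSup_mem ⟨_, Set.mem_image_of_mem List.length h1⟩ hb
  have hmax : ∀ l, RPath Y L Γ l → l.length ≤ P.length := fun l hl =>
    hP' ▸ le_csSup hb (Set.mem_image_of_mem List.length hl)
  refine ⟨P, hP, hmax, ?_⟩
  obtain ⟨x, t, rfl⟩ := List.exists_cons_of_ne_nil (l := P) (by
    rintro rfl
    simpa using hmax _ h1)
  have h4 : (nb Γ x ∩ Z) \ {x} ⊆ (x :: t).toFinset := by
    intro u hu
    obtain ⟨hu1, hu2⟩ := mem_inter.1 (mem_sdiff.1 hu).1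
    by_contra hh
    obtain ⟨l, hl, hlt⟩ := posa_ext hL hP (hZ hu2) (fun h => hh (List.mem_toFinset.2 h))
      (mem_nb.1 (mem_nb_comm.1 hu1))
    exact absurd (hmax l hl) (not_le.2 hlt)
  have h5 := card_le_card h4
  have h6 := h3 x (hP.2.1 x (by simp))
  have h7 := List.toFinset_card_le (x :: t)
  omega

lemma posa_hamil_mono (h : Hamil Y L Γ) (hΓ : Γ ⊆ Γ') : Hamil Y L Γ' :=
  h.imp fun _ hC => ⟨hC.1.trans hΓ, hC.2⟩

lemma posa_exp_mono (h : Expands Y Z Γ a) (hΓ : Γ ⊆ Γ') : Expands Y Z Γ' a :=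
  fun S h1 h2 h3 => (h S h1 h2 h3).trans_le (card_le_card (sdiff_subset_sdiff
    (inter_subset_inter (biUnion_mono fun v _ => nb_mono hΓ v) subset_rfl) subset_rfl))

end

/-- Many boosters. Hint: let `P` be a longest `RPath` (a vertex of `Y` with its partner in `L`, if
any, is one). Rotation: if `Q = l1 ++ z :: l2`, `l2 ≠ []`, `z ∈ Z` and `z` is adjacent in `Γ` to the
last vertex of `Q`, then `l1 ++ z :: l2.reverse` is again a longest `RPath` with the same first
vertex and vertex set (the broken edge contains `z ∈ Z`, so it is not in `L`). Let `S` be the set of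
last vertices of the paths reachable from `P` (`Relation.ReflTransGen`). Every edge of `P` with no
end in `S` lies on all reachable paths, hence every neighbour `z ∈ Z \ S` of `S` is a neighbour on
`P` of a vertex of `S` (it lies on `P` by maximality); there are at most `2 |S|` such vertices, so
`|S| > a` by `Expands`, and more than `a / 2` vertices of `S` are in `Z`. Let `U` be the set of
vertices of `Y` not on `P`. If `|U| > a`, all pairs in `(S ∩ Z) × (U ∩ Z)` are boosters. Otherwise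
for each `x ∈ S ∩ Z` reverse the path ending at `x` and rotate again: each pair `x, y` with
`y ∈ Z` reachable closes a cycle through the vertices of `P` (at least 3 of them); if `U = ∅` this
gives `Hamil`, otherwise `Expands` applied to `U` gives an edge from `u ∈ U` to `z ∈ Z` on the cycle
and a longer path (append also the partner of `u` in `L`, if any). Such a pair is not in `Γ`. -/
theorem boost_card {Y Z : Finset V} {L Γ : Finset (Sym2 V)} {a : ℕ} (hZ : Z ⊆ Y)
    (hL : IsMat (Y \ Z) L) (hΓ : On Y Γ) (hΓZ : ∀ e ∈ Γ, ∃ v ∈ e, v ∈ Z)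
    (hexp : Expands Y Z Γ a) (ha : 2 * (Y \ Z).card ≤ a) (ha1 : 1 ≤ a) (hY : Y.Nonempty)
    (hn : ¬ Hamil Y L Γ) : a ^ 2 ≤ 8 * (Boost Y Z L Γ).card := by
  obtain ⟨P, hP, hmax, h3⟩ := posa_longest hL hZ hexp ha1 hY
  obtain ⟨S, hS, hS'⟩ := posa_many hZ hL hexp hP hmax (by rintro rfl; simp at h3)
  have hSY : S ⊆ Y := fun x hx => (hS' x hx).elim fun t ht => ht.1.2.1 x (by simp)
  refine posa_count (fun e he => ⟨(mem_Boost.1 he).1, fun v _ => mem_univ v⟩)
    (posa_half ha hSY hS) fun x hx => ?_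
  obtain ⟨hxS, hxZ⟩ := mem_inter.1 hx
  obtain ⟨t, ht, hp, -⟩ := hS' x hxS
  have hlen := hp.length_eq
  rcases lt_or_ge a (Y \ P.toFinset).card with hU | hU
  · refine (posa_half ha sdiff_subset hU).trans
      (Nat.mul_le_mul_left 2 (card_le_card fun u hu => ?_))
    obtain ⟨hu1, huZ⟩ := mem_inter.1 hu
    obtain ⟨huY, hu2⟩ := mem_sdiff.1 hu1
    have hut : u ∉ x :: t := fun hh => hu2 (List.mem_toFinset.2 (hp.subset hh))
    rw [mem_nb_comm, mem_nb, mem_Boost]
    refine ⟨fun hd => hut ?_, fun v hv => ?_, fun he => ?_, Or.inr ?_⟩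
    · rw [Sym2.mk_isDiag_iff.1 hd]; simp
    · rcases Sym2.mem_iff.1 hv with rfl | rfl <;> assumption
    · obtain ⟨l, hl, hlt⟩ := posa_ext hL ht huY hut he
      have := hmax l hl
      omega
    · obtain ⟨l, hl, hlt⟩ := posa_ext hL (posa_mono ht (subset_insert s(u, x) Γ)) huY hut
        (mem_insert_self _ _)
      refine ⟨l, hl, fun l' hl' => ?_⟩
      have := hmax l' hl'
      omega
  · obtain ⟨S2, hS2, hS2'⟩ := posa_many hZ hL hexp (posa_reverse ht)
      (fun l hl => by rw [List.length_reverse, hlen]; exact hmax l hl) (by simp)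
    have hS2Y : S2 ⊆ Y := fun y hy => (hS2' y hy).elim fun t ht => ht.1.2.1 y (by simp)
    refine (posa_half ha hS2Y hS2).trans (Nat.mul_le_mul_left 2 (card_le_card fun y hy => ?_))
    obtain ⟨hyS, hyZ⟩ := mem_inter.1 hy
    obtain ⟨t2, ht2, hp2, hl2⟩ := hS2' y hyS
    have hp3 : (y :: t2).Perm P := hp2.trans ((List.reverse_perm _).trans hp)
    have hlen2 := hp3.length_eq
    obtain ⟨m, w, rfl⟩ : ∃ m w, t2 = m ++ [w] :=
      ⟨_, _, (List.dropLast_append_getLast (l := t2) (by rintro rfl; simp at hlen2; omega)).symm⟩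
    obtain rfl : w = x := by
      rw [List.getLast?_reverse, show y :: (m ++ [w]) = (y :: m) ++ [w] by simp,
        List.getLast?_concat] at hl2
      exact Option.some.inj hl2
    have hm : m ≠ [] := by
      rintro rfl
      simp at hlen2
      omega
    have hU' : (Y \ (y :: m ++ [w]).toFinset).card ≤ a := by
      rwa [List.toFinset_eq_of_perm (y :: m ++ [w]) P hp3]
    rw [mem_nb, mem_Boost]
    refine ⟨fun hd => ?_, fun v hv => ?_, fun he => ?_, ?_⟩
    · have := ht2.1
      rw [Sym2.mk_isDiag_iff.1 hd] at this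
      simp at this
    · rcases Sym2.mem_iff.1 hv with rfl | rfl <;> assumption
    · rcases posa_close hZ hL hexp subset_rfl ht2 hm he hU' with h | ⟨l, hl, hlt⟩
      · exact hn h
      · exact absurd (hmax l hl) (not_le.2 (lt_of_eq_of_lt hlen2.symm hlt))
    · refine (posa_close hZ hL hexp (subset_insert s(w, y) Γ)
        (posa_mono ht2 (subset_insert _ _)) hm (mem_insert_self _ _) hU').imp_right ?_
      rintro ⟨l, hl, hlt⟩
      exact ⟨l, hl, fun l' hl' => (hmax l' hl').trans_lt (lt_of_eq_of_lt hlen2.symm hlt)⟩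

/-- Hint: add boosters one at a time; after `j` steps either `Hamil` holds or there is an `RPath`
of length at least `j`; an `RPath` has length at most `Y.card`. -/
theorem complete {Y Z : Finset V} {L Γ C' : Finset (Sym2 V)} {a : ℕ} (hZ : Z ⊆ Y)
    (hL : IsMat (Y \ Z) L) (hΓ : On Y Γ) (hΓZ : ∀ e ∈ Γ, ∃ v ∈ e, v ∈ Z)
    (hexp : Expands Y Z Γ a) (ha : 2 * (Y \ Z).card ≤ a) (ha1 : 1 ≤ a) (hC' : On Z C')
    (hB : ∀ Γ', Γ ⊆ Γ' → Γ' ⊆ Γ ∪ C' → Γ'.card ≤ Γ.card + Y.card →
      a ^ 2 ≤ 8 * (Boost Y Z L Γ').card → (Boost Y Z L Γ' ∩ C').Nonempty) :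
    Hamil Y L (Γ ∪ C') := by
  by_contra hn
  rcases Y.eq_empty_or_nonempty with rfl | hY
  · refine hn ⟨∅, empty_subset _, ?_, fun v hv => absurd hv (notMem_empty v),
      fun S hS _ _ => subset_empty.1 hS⟩
    rw [empty_union]
    exact hL.1.mono sdiff_subset subset_rfl
  have key : ∀ j, j ≤ Y.card + 1 → ∃ Γ', Γ ⊆ Γ' ∧ Γ' ⊆ Γ ∪ C' ∧ Γ'.card ≤ Γ.card + j ∧
      ∃ l, RPath Y L Γ' l ∧ j ≤ l.length := by
    intro j
    induction j with
    | zero =>
      exact fun _ => ⟨Γ, subset_rfl, subset_union_left, le_rfl, [],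
        ⟨List.nodup_nil, by simp, by simp [ledges], by simp⟩, le_rfl⟩
    | succ j ih =>
      intro hj
      obtain ⟨Γ', h1, h2, h3, l, hl, hjl⟩ := ih (by omega)
      have h4 : ∀ e ∈ Γ', ∃ v ∈ e, v ∈ Z := by
        intro e he
        rcases mem_union.1 (h2 he) with h | h
        · exact hΓZ e h
        · exact ⟨e.out.1, Sym2.out_fst_mem e, (hC' e h).2 _ (Sym2.out_fst_mem e)⟩
      obtain ⟨e, he⟩ := hB Γ' h1 h2 (by omega) (boost_card hZ hL
        ((hΓ.union (hC'.mono hZ subset_rfl)).mono subset_rfl h2) h4 (posa_exp_mono hexp h1) ha ha1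
        hY fun h => hn (posa_hamil_mono h h2))
      obtain ⟨he1, he2⟩ := mem_inter.1 he
      have h5 : insert e Γ' ⊆ Γ ∪ C' := insert_subset (mem_union_right _ he2) h2
      rcases (mem_Boost.1 he1).2.2.2 with h | ⟨l', hl', hlt⟩
      · exact (hn (posa_hamil_mono h h5)).elim
      · refine ⟨insert e Γ', h1.trans (subset_insert _ _), h5, ?_, l', hl', ?_⟩
        · have := card_insert_le e Γ'
          omega
        · have := hlt l hl
          omega
  obtain ⟨Γ', -, -, -, l, hl, hjl⟩ := key _ le_rfl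
  have := posa_len hl
  omega

end

end Pool.Agent.MP_1376f1_pr
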