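import Pool.Agent.MP_1376f1_pr.Mg.StageB
import Pool.Agent.MP_1376f1_pr.Mg.Greedy
import Pool.Agent.MP_1376f1_pr.Mg.PBase

/-!
One stage of the iterative construction.
-/

set_option autoImplicit false
set_option linter.unusedSectionVars false

namespace Pool.Agent.MP_1376f1_pr

open Finset MP_d802e4_co
open scoped Classical

noncomputable section

/-- the points of a line -/
def stage_ln {g : ℕ} [NeZero g] (l : ZMod g × ZMod g) : Finset (ZMod g × ZMod g) :=
  univ.filter fun b => b.2 = l.1 * b.1 + l.2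

lemma stage_mem_ln {g : ℕ} [NeZero g] {l b : ZMod g × ZMod g} :
    b ∈ stage_ln l ↔ b.2 = l.1 * b.1 + l.2 := by simp [stage_ln]

lemma stage_ln_eq {g : ℕ} [Fact g.Prime] {l l' b b' : ZMod g × ZMod g} (hb : b ≠ b')
    (h1 : b ∈ stage_ln l) (h2 : b' ∈ stage_ln l) (h3 : b ∈ stage_ln l') (h4 : b' ∈ stage_ln l') :
    l = l' := by
  rw [stage_mem_ln] at h1 h2 h3 h4
  have hx : b.1 ≠ b'.1 := by
    intro hx
    apply hb
    ext
    · exact hx
    · rw [h1, h2, hx]
  have h5 : (l.1 - l'.1) * (b.1 - b'.1) = 0 := by linear_combination h2 - h1 - h4 + h3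
  have h6 : l.1 = l'.1 := by
    rcases mul_eq_zero.1 h5 with h | h
    · exact sub_eq_zero.1 h
    · exact absurd (sub_eq_zero.1 h) hx
  ext
  · exact h6
  · linear_combination h3 - h1 - b.1 * h6

lemma stage_ln_inj {g : ℕ} [Fact g.Prime] {l l' : ZMod g × ZMod g}
    (h : stage_ln l = stage_ln l') : l = l' := by
  have h1 : ((0 : ZMod g), l.2) ∈ stage_ln l := by simp [stage_mem_ln]
  have h2 : ((1 : ZMod g), l.1 + l.2) ∈ stage_ln l := by simp [stage_mem_ln]
  refine stage_ln_eq (b := (0, l.2)) (b' := (1, l.1 + l.2)) ?_ h1 h2 (h ▸ h1) (h ▸ h2)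
  intro hc
  exact zero_ne_one (congrArg Prod.fst hc)

lemma stage_card_ln {g : ℕ} [NeZero g] (l : ZMod g × ZMod g) : (stage_ln l).card = g := by
  have : stage_ln l = univ.image fun x : ZMod g => (x, l.1 * x + l.2) := by
    ext b
    simp only [stage_mem_ln, mem_image, mem_univ, true_and]
    constructor
    · intro h; exact ⟨b.1, by ext <;> simp [h]⟩
    · rintro ⟨x, rfl⟩; rfl
  rw [this, card_image_of_injective _ (fun x y h => congrArg Prod.fst h), card_univ, ZMod.card]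

lemma stage_card_pts {g p : ℕ} [NeZero g] [NeZero p] (B : Finset (ZMod g × ZMod g)) :
    (univ.filter fun l : ZMod g × ZMod g × ZMod p => (l.1, l.2.1) ∈ B).card = B.card * p := by
  have : (univ.filter fun l : ZMod g × ZMod g × ZMod p => (l.1, l.2.1) ∈ B) =
      (B ×ˢ (univ : Finset (ZMod p))).map (Equiv.prodAssoc _ _ _).toEmbedding := by
    ext ⟨x, y, z⟩
    simp
  rw [this, card_map, card_product, card_univ, ZMod.card]

lemma stage_card_cls {g p : ℕ} [NeZero g] [NeZero p] (φ : ZMod p) :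
    (univ.filter fun l : ZMod g × ZMod g × ZMod p => l.2.2 = φ).card = g ^ 2 := by
  have : (univ.filter fun l : ZMod g × ZMod g × ZMod p => l.2.2 = φ) =
      ((univ : Finset (ZMod g × ZMod g)) ×ˢ ({φ} : Finset (ZMod p))).map
        (Equiv.prodAssoc _ _ _).toEmbedding := by
    ext ⟨x, y, z⟩
    simp [eq_comm]
  rw [this, card_map, card_product, card_univ, Fintype.card_prod, ZMod.card, card_singleton]
  ring

lemma stage_fib {V Λ : Type} [DecidableEq Λ] (N : Finset V) (lab : V → Λ) (S : Finset Λ) :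
    ((N.filter fun v => lab v ∈ S).card : ℝ) =
      ∑ l ∈ S, ((N.filter fun v => lab v = l).card : ℝ) := by
  rw [card_eq_sum_card_fiberwise (f := lab) (s := N.filter fun v => lab v ∈ S) (t := S)
    (fun v hv => mem_coe.2 (mem_filter.1 (mem_coe.1 hv)).2)]
  push_cast
  refine sum_congr rfl fun l hl => ?_
  congr 2
  ext v
  simp only [mem_filter]
  constructor
  · rintro ⟨⟨h1, _⟩, h3⟩; exact ⟨h1, h3⟩
  · rintro ⟨h1, h3⟩; exact ⟨⟨h1, h3 ▸ hl⟩, h3⟩

lemma stage_fib_le {V Λ : Type} [DecidableEq Λ] (N : Finset V) (lab : V → Λ) (S : Finset Λ)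
    {b : ℝ} (h : ∀ l, ((N.filter fun v => lab v = l).card : ℝ) ≤ b) :
    ((N.filter fun v => lab v ∈ S).card : ℝ) ≤ S.card * b := by
  rw [stage_fib, ← nsmul_eq_mul]
  exact sum_le_card_nsmul _ _ _ fun l _ => h l

lemma stage_fib_ge {V Λ : Type} [DecidableEq Λ] (N : Finset V) (lab : V → Λ) (S : Finset Λ)
    {b : ℝ} (h : ∀ l, b ≤ ((N.filter fun v => lab v = l).card : ℝ)) :
    S.card * b ≤ ((N.filter fun v => lab v ∈ S).card : ℝ) := by
  rw [stage_fib, ← nsmul_eq_mul]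
  exact card_nsmul_le_sum _ _ _ fun l _ => h l

variable {V : Type} [Fintype V] [DecidableEq V]

lemma stage_dc {W : Finset V} {H : Finset (Sym2 V)} (hH : On W H) (Q : V → Prop)
    [DecidablePred Q] :
    ∑ u ∈ W.filter Q, dg H u = ∑ y ∈ W, ((nb H y).filter Q).card := by
  have h1 : ∀ u ∈ W.filter Q, dg H u = (W.filter fun y => u ∈ nb H y).card := by
    intro u _
    unfold dg
    congr 1
    ext y
    simp only [mem_filter]
    constructor
    · intro h; exact ⟨hH.nb_subset u h, mem_nb_comm.1 h⟩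
    · intro h; exact mem_nb_comm.1 h.2
  have h2 : ∀ y ∈ W, ((nb H y).filter Q).card = ((W.filter Q).filter fun u => u ∈ nb H y).card := by
    intro y _
    congr 1
    ext u
    simp only [mem_filter]
    constructor
    · intro h; exact ⟨⟨hH.nb_subset y h.1, h.2⟩, h.1⟩
    · intro h; exact ⟨h.2, h.1.2⟩
  rw [sum_congr rfl h1, sum_congr rfl h2]
  exact sum_card_bipartiteAbove_eq_sum_card_bipartiteBelow (fun u y => u ∈ nb H y)

/-- the edges of `F` that avoid `A` -/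
def stage_del (F : Finset (Sym2 V)) (A : Finset V) : Finset (Sym2 V) :=
  F.filter fun e => ∀ v ∈ e, v ∉ A

lemma stage_del_subset (F : Finset (Sym2 V)) (A : Finset V) : stage_del F A ⊆ F :=
  filter_subset _ _

lemma stage_nb_del_of_mem {F : Finset (Sym2 V)} {A : Finset V} {v : V} (hv : v ∈ A) :
    nb (stage_del F A) v = ∅ := by
  refine eq_empty_of_forall_notMem fun u hu => ?_
  exact (mem_filter.1 (mem_nb.1 hu)).2 v (by simp) hv

lemma stage_nb_del {F : Finset (Sym2 V)} {A : Finset V} {v : V} (hv : v ∉ A)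
    (h : Disjoint (nb F v) A) : nb (stage_del F A) v = nb F v := by
  ext u
  simp only [mem_nb, stage_del, mem_filter, Sym2.mem_iff]
  constructor
  · exact fun h => h.1
  · intro hu
    refine ⟨hu, ?_⟩
    rintro w (rfl | rfl)
    · exact hv
    · exact disjoint_left.1 h (mem_nb.2 hu)

/-- Combination of a forest and a matching of one colour. -/
lemma stage_one {W X : Finset V} {F M : Finset (Sym2 V)} (hF : On W F) (h2 : ∀ v, dg F v ≤ 2)
    (hN : NoCyc F) (hM : IsMat (W \ X) M) :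
    On (W \ X) (stage_del F (Aset X M) ∪ M) ∧ (∀ v, dg (stage_del F (Aset X M) ∪ M) v ≤ 2) ∧
      NoCyc (stage_del F (Aset X M) ∪ M) ∧ Disjoint (stage_del F (Aset X M)) M ∧
      (∀ v, v ∉ Aset X M → dg (stage_del F (Aset X M) ∪ M) v = dg (stage_del F (Aset X M)) v) := by
  have hA : ∀ v, v ∉ Aset X M → nb M v = ∅ := by
    intro v hv
    have : ¬ 0 < dg M v := fun h => hv (mem_union_right _ (mem_tch.2 h))
    exact card_eq_zero.1 (by unfold dg at this; omega)
  have hd1 : ∀ v, v ∉ Aset X M →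
      nb (stage_del F (Aset X M) ∪ M) v = nb (stage_del F (Aset X M)) v := by
    intro v hv; rw [nb_union, hA v hv, union_empty]
  have hd2 : ∀ v, v ∈ Aset X M → nb (stage_del F (Aset X M) ∪ M) v = nb M v := by
    intro v hv; rw [nb_union, stage_nb_del_of_mem hv, empty_union]
  have hN' : NoCyc (stage_del F (Aset X M)) := hN.mono h2 (stage_del_subset _ _)
  refine ⟨On.union ?_ hM.1, ?_, ?_, ?_, ?_⟩
  · intro e he
    have he' := mem_filter.1 he
    refine ⟨(hF e he'.1).1, fun v hv => mem_sdiff.2 ⟨(hF e he'.1).2 v hv, fun hx => ?_⟩⟩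
    exact he'.2 v hv (mem_union_left _ hx)
  · intro v
    by_cases hv : v ∈ Aset X M
    · unfold dg; rw [hd2 v hv]; exact (hM.2 v).trans (by norm_num)
    · unfold dg; rw [hd1 v hv]; exact (dg_mono (stage_del_subset _ _) v).trans (h2 v)
  · intro S hS hc
    by_cases hex : ∃ v ∈ S, v ∈ Aset X M
    · obtain ⟨v, hv, hvA⟩ := hex
      exact ⟨v, hv, by unfold dg; rw [hd2 v hvA]; exact hM.2 v⟩
    · push Not at hex
      obtain ⟨v, hv, hd⟩ := hN' S hS fun v hv => by rw [← hd1 v (hex v hv)]; exact hc v hv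
      exact ⟨v, hv, by unfold dg at hd ⊢; rw [hd1 v (hex v hv)]; exact hd⟩
  · rw [disjoint_left]
    intro e he heM
    induction e using Sym2.ind with
    | _ a b =>
      refine (mem_filter.1 he).2 a (by simp) (mem_union_right _ (mem_tch.2 ?_))
      exact card_pos.2 ⟨b, mem_nb.2 heM⟩
  · intro v hv; unfold dg; rw [hd1 v hv]

lemma stage_meet {F : Finset (Sym2 V)} (h2 : ∀ v, dg F v ≤ 2) (W A : Finset V) :
    (W.filter fun w => ¬ Disjoint (nb F w) A).card ≤ 2 * A.card := by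
  calc (W.filter fun w => ¬ Disjoint (nb F w) A).card ≤ (A.biUnion (nb F)).card := by
        refine card_le_card fun w hw => ?_
        obtain ⟨u, hu1, hu2⟩ := not_disjoint_iff.1 (mem_filter.1 hw).2
        exact mem_biUnion.2 ⟨u, hu2, mem_nb_comm.1 hu1⟩
    _ ≤ ∑ u ∈ A, (nb F u).card := card_biUnion_le
    _ ≤ A.card • 2 := sum_le_card_nsmul _ _ _ fun u _ => h2 u
    _ = 2 * A.card := by rw [smul_eq_mul, mul_comm]

lemma stage_core (g p : ℕ) [Fact g.Prime] [Fact p.Prime] (hp3 : 3 ≤ p) {κ η ϑ r ρ R0 c : ℝ} {h : ℕ}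
    (hg' : (10 : ℝ) ^ 15 ≤ g) (hκ : κ = 1 / (10 ^ 32 * (g : ℝ) ^ 2)) (hpκ : 1 ≤ κ * p)
    (hR0 : R0 * ((g : ℝ) ^ 2 * p) = r) (hc : c * ((g : ℝ) ^ 2 * p) = κ * th / 8)
    (hη0 : 0 < η) (hηκ : η ≤ κ) (hϑ : ϑ * κ = 2 * 10 ^ 17) (hηϑ : η * Real.exp ϑ = κ)
    (hρ : (g : ℝ) ^ 2 * ((g : ℝ) ^ 2 * p) ≤ κ * ρ) (hr1 : ρ ≤ r) (hr2 : r ≤ 4 * ρ)
    (hh1 : (1 + 3 * κ) * R0 ≤ h) (hh2 : (h : ℝ) ≤ (1 + 4 * κ) * R0)
    {W : Finset V} {H A C : Finset (Sym2 V)} {D : V → Finset V} {I : Finset ℕ}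
    {X : ℕ → Finset V} {M : ℕ → Finset (Sym2 V)} (hI : I.card = g ^ 2 * ((p - 1) / 2) * h)
    (hn : ρ ≤ nV V) (hlog : Real.log (nV V) ≤ 10 ^ 17 * ρ) (hH : On W H) (hT : Tri W A C D)
    (hHP : Disjoint H (PP A C D)) (hdH : ∀ w ∈ W, |(dg H w : ℝ) - r| ≤ η * r)
    (hdP : ∀ w ∈ W, (dg (PP A C D) w : ℝ) ≤ 2 * ρ)
    (hX : ∀ i ∈ I, X i ⊆ W ∧ IsMat (W \ X i) (M i) ∧ ((Aset (X i) (M i)).card : ℝ) ≤ η * nV V)
    (hXc : ∀ w ∈ W, ((I.filter fun i => w ∈ Aset (X i) (M i)).card : ℝ) ≤ η * ρ)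
    (hAD : ∀ i ∈ I, ∀ w ∈ W, th * ρ / 2 ≤ ((nb A w \ Aset (X i) (M i)).card : ℝ) ∧
      th * ρ / 2 ≤ ((D w \ Aset (X i) (M i)).card : ℝ))
    (hP : PoolOK W ρ g 1 (A ∪ arcE D) (PP A C D) C)
    (lab : V → ZMod g × ZMod g × ZMod p)
    (lH : ∀ w ∈ W, ∀ l, |(((nb H w).filter fun v => lab v = l).card : ℝ) -
      (dg H w : ℝ) / ((g : ℝ) ^ 2 * p)| ≤ c * ρ)
    (lC : ∀ w ∈ W, ∀ l, |(((nb C w).filter fun v => lab v = l).card : ℝ) -
      (dg C w : ℝ) / ((g : ℝ) ^ 2 * p)| ≤ c * ρ)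
    (lA : ∀ i ∈ I, ∀ w ∈ W, ∀ l, |(((nb A w \ Aset (X i) (M i)).filter fun v => lab v = l).card : ℝ) -
      ((nb A w \ Aset (X i) (M i)).card : ℝ) / ((g : ℝ) ^ 2 * p)| ≤ c * ρ)
    (lD : ∀ i ∈ I, ∀ w ∈ W, ∀ l, |(((D w \ Aset (X i) (M i)).filter fun v => lab v = l).card : ℝ) -
      ((D w \ Aset (X i) (M i)).card : ℝ) / ((g : ℝ) ^ 2 * p)| ≤ c * ρ) :
    ∃ F, HamFam W (H ∪ PP A C D) I X M F := by
  have hg0 : (0 : ℝ) < g := by linarith [show (0 : ℝ) < 10 ^ 15 by positivity]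
  have hg1 : (1 : ℝ) ≤ g := by linarith [show (1 : ℝ) ≤ 10 ^ 15 by norm_num]
  have hg2 : (1 : ℝ) ≤ (g : ℝ) ^ 2 := one_le_pow₀ hg1
  have hp0 : (3 : ℝ) ≤ p := by exact_mod_cast hp3
  set Lc : ℝ := (g : ℝ) ^ 2 * p with hLc
  have hLc1 : 3 ≤ Lc := by rw [hLc]; nlinarith [mul_le_mul hg2 hp0 (by norm_num) (by positivity)]
  have hκ0 : 0 < κ := by rw [hκ]; positivity
  have hκg : κ * (g : ℝ) ^ 2 = 1 / 10 ^ 32 := by rw [hκ]; field_simp
  have hκ1 : κ ≤ 1 / 10 ^ 32 := hκg ▸ le_mul_of_one_le_right hκ0.le hg2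
  have hth := th_pos
  have hth1 : th = 1 / 10 ^ 13 := rfl
  have hLρ : Lc ≤ κ * ρ := (le_mul_of_one_le_left (by linarith) hg2).trans hρ
  have hκρ : 3 ≤ κ * ρ := hLc1.trans hLρ
  have hρ0 : 0 < ρ := by
    by_contra hh
    have : κ * ρ ≤ 0 := mul_nonpos_of_nonneg_of_nonpos hκ0.le (not_lt.1 hh)
    linarith
  have hr0 : 0 < r := by linarith
  have hR00 : 0 < R0 := by
    by_contra hh
    have : R0 * Lc ≤ 0 := mul_nonpos_of_nonpos_of_nonneg (not_lt.1 hh) (by linarith)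
    linarith
  have hgR : (g : ℝ) ^ 2 ≤ κ * R0 := by
    have h1 : (g : ℝ) ^ 2 * Lc ≤ κ * R0 * Lc := by
      calc (g : ℝ) ^ 2 * Lc ≤ κ * ρ := hρ
        _ ≤ κ * r := by gcongr
        _ = κ * R0 * Lc := by rw [← hR0]; ring
    exact le_of_mul_le_mul_right h1 (by linarith)
  have hc0 : 0 ≤ c := by
    by_contra hh
    have : c * Lc ≤ 0 := mul_nonpos_of_nonpos_of_nonneg (not_le.1 hh).le (by linarith)
    have : 0 < κ * th / 8 := by positivity
    linarith
  have hcρ : c * ρ = κ * th / 8 * (ρ / Lc) := by rw [← hc]; field_simp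
  have hρL : 0 < ρ / Lc := by positivity
  have hρR : ρ / Lc ≤ R0 := by rw [div_le_iff₀ (by linarith), hR0]; exact hr1
  have hn0 : 0 < nV V := by linarith
  have hκn : 3 ≤ κ * nV V := hκρ.trans (by gcongr)
  -- degrees into the classes
  have hdeg : ∀ w ∈ W, ∀ l, |(((nb H w).filter fun v => lab v = l).card : ℝ) - R0| ≤
      2 * κ * R0 := by
    intro w hw l
    have h1 := abs_le.1 (lH w hw l)
    have h2 := abs_le.1 (hdH w hw)
    have h3 : (dg H w : ℝ) / Lc ≤ R0 + κ * R0 := by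
      rw [div_le_iff₀ (by linarith)]
      have : η * r ≤ κ * r := by gcongr
      have e : (R0 + κ * R0) * Lc = r + κ * r := by rw [← hR0]; ring
      linarith [h2.2]
    have h4 : R0 - κ * R0 ≤ (dg H w : ℝ) / Lc := by
      rw [le_div_iff₀ (by linarith)]
      have : η * r ≤ κ * r := by gcongr
      have e : (R0 - κ * R0) * Lc = r - κ * r := by rw [← hR0]; ring
      linarith [h2.1]
    have h5 : c * ρ ≤ κ * R0 := by
      rw [hcρ]
      have : th / 8 * (ρ / Lc) ≤ 1 * R0 := by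
        gcongr
        rw [hth1]; norm_num
      have := mul_le_mul_of_nonneg_left this hκ0.le
      linarith
    rw [abs_le]; constructor <;> linarith
  -- sizes of the classes
  have hsize : ∀ l, ((W.filter fun v => lab v = l).card : ℝ) ≤ 2 * nV V / Lc := by
    intro l
    have h1 := stage_dc hH (fun v => lab v = l)
    have h2 : ((W.filter fun v => lab v = l).card : ℝ) * (r / 2 + r / 4) ≤
        ∑ u ∈ W.filter (fun v => lab v = l), (dg H u : ℝ) := by
      rw [← nsmul_eq_mul]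
      refine card_nsmul_le_sum _ _ _ fun u hu => ?_
      have := (abs_le.1 (hdH u (mem_filter.1 hu).1)).1
      have : η * r ≤ 1 / 4 * r := by gcongr; linarith
      linarith
    have h3 : ∑ y ∈ W, (((nb H y).filter fun v => lab v = l).card : ℝ) ≤
        W.card * (R0 + R0 / 2) := by
      rw [← nsmul_eq_mul]
      refine sum_le_card_nsmul _ _ _ fun y hy => ?_
      have := (abs_le.1 (hdeg y hy l)).2
      have : 2 * κ * R0 ≤ 1 / 2 * R0 := by gcongr; linarith
      linarith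
    have h4 : (∑ u ∈ W.filter (fun v => lab v = l), (dg H u : ℝ)) =
        ∑ y ∈ W, (((nb H y).filter fun v => lab v = l).card : ℝ) := by
      exact_mod_cast h1
    have h5 : (W.card : ℝ) * (R0 + R0 / 2) ≤ nV V * (R0 + R0 / 2) := by
      gcongr; exact card_le_nV W
    rw [le_div_iff₀ (by linarith)]
    have h6 : ((W.filter fun v => lab v = l).card : ℝ) * Lc * (3 / 4 * R0) ≤
        2 * nV V * (3 / 4 * R0) := by
      rw [← hR0] at h2; linarith
    exact le_of_mul_le_mul_right h6 (by positivity)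
  have hcls : ∀ φ : ZMod p, ((W.filter fun w => (lab w).2.2 = φ).card : ℝ) ≤ 2 * κ * nV V := by
    intro φ
    have h1 := stage_fib_le W lab (univ.filter fun l : ZMod g × ZMod g × ZMod p => l.2.2 = φ) hsize
    rw [stage_card_cls] at h1
    simp only [mem_filter, mem_univ, true_and] at h1
    refine h1.trans ?_
    have : ((g ^ 2 : ℕ) : ℝ) * (2 * nV V / Lc) = 2 * nV V / p := by
      rw [hLc]; push_cast; field_simp
    rw [this, div_le_iff₀ (by linarith)]
    have := mul_le_mul_of_nonneg_left hpκ hn0.le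
    linarith
  have hκ100 : κ ≤ 1 / 100 := by linarith [show (1 : ℝ) / 10 ^ 32 ≤ 1 / 100 by norm_num]
  obtain ⟨Fo, hFo, hFd, hFc⟩ := forests g p hp3 lab hH hκ0 hκ100 hgR hdeg hh1 hh2 hcls
  have hh0 : 0 < h := by
    have : (0 : ℝ) < h := lt_of_lt_of_le (by positivity) hh1
    exact_mod_cast this
  have hq0 : 0 < (p - 1) / 2 := by omega
  have : Nonempty ((ZMod g × ZMod g) × Fin ((p - 1) / 2) × Fin h) :=
    ⟨((0, 0), ⟨0, hq0⟩, ⟨0, hh0⟩)⟩
  have hq : (((p - 1) / 2 : ℕ) : ℝ) ≤ p / 2 := by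
    have : 2 * ((p - 1) / 2) ≤ p := by omega
    have : (2 : ℝ) * (((p - 1) / 2 : ℕ) : ℝ) ≤ p := by exact_mod_cast this
    linarith
  have hh3 : (h : ℝ) ≤ 2 * R0 := by
    have := mul_le_mul_of_nonneg_right hκ100 hR00.le
    linarith
  have hqh : (((p - 1) / 2 : ℕ) : ℝ) * h ≤ 4 * ρ / (g : ℝ) ^ 2 := by
    rw [le_div_iff₀ (by positivity)]
    calc (((p - 1) / 2 : ℕ) : ℝ) * h * (g : ℝ) ^ 2 ≤ p / 2 * (2 * R0) * (g : ℝ) ^ 2 := by gcongr
      _ = r := by rw [← hR0, hLc]; ring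
      _ ≤ 4 * ρ := hr2
  have hIc : (I.card : ℝ) ≤ 4 * ρ := by
    rw [hI]; push_cast
    rw [le_div_iff₀ (by positivity)] at hqh
    linarith
  have hAW : ∀ i ∈ I, Aset (X i) (M i) ⊆ W := fun i hi =>
    union_subset (hX i hi).1 ((hX i hi).2.1.1.tch_subset.trans sdiff_subset)
  have hϑ0 : 0 ≤ ϑ := by
    by_contra hh
    have : ϑ * κ ≤ 0 := mul_nonpos_of_nonpos_of_nonneg (not_le.1 hh).le hκ0.le
    linarith
  obtain ⟨σ, hσ, hhit⟩ := bij (V := V) I
    (univ : Finset ((ZMod g × ZMod g) × Fin ((p - 1) / 2) × Fin h))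
    (by rw [hI, card_univ]; simp [ZMod.card]; ring) (fun φ => nb (Fo φ))
    (fun φ y => (hFo φ).2.1 y) (fun i => Aset (X i) (M i)) (a := η * ρ) (ϑ := ϑ)
    (fun u => by
      by_cases hu : u ∈ W
      · exact hXc u hu
      · rw [filter_eq_empty_iff.2 fun i hi h => hu (hAW i hi h)]
        simp only [card_empty, Nat.cast_zero]; positivity)
    ⌈κ * ρ⌉₊ (Nat.one_le_iff_ne_zero.2 (Nat.ceil_pos.2 (by linarith)).ne') hϑ0
  have hhit' : ∀ y : V, ((I.filter fun i =>
      ¬ Disjoint (nb (Fo (σ i)) y) (Aset (X i) (M i))).card : ℝ) ≤ 3 * κ * ρ := by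
    intro y
    have h1 := hhit y
    have h2 : κ * ρ ≤ (⌈κ * ρ⌉₊ : ℝ) := Nat.le_ceil _
    have h3 : (⌈κ * ρ⌉₊ : ℝ) ≤ κ * ρ + 1 := (Nat.ceil_lt_add_one (by linarith)).le
    have h4 : 2 * (η * ρ) / (⌈κ * ρ⌉₊ : ℝ) ≤ 2 * η / κ := by
      calc 2 * (η * ρ) / (⌈κ * ρ⌉₊ : ℝ) ≤ 2 * (η * ρ) / (κ * ρ) := by gcongr
        _ = 2 * η / κ := by field_simp
    have h5 : (Real.exp ϑ - 1) * (I.card * (2 * (η * ρ) / (⌈κ * ρ⌉₊ : ℝ))) ≤
        Real.exp ϑ * (4 * ρ * (2 * η / κ)) := by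
      have := Real.add_one_le_exp ϑ
      gcongr
      linarith
    have h6 : Real.exp ϑ * (4 * ρ * (2 * η / κ)) = 8 * ρ := by
      rw [← hηϑ]; have := Real.exp_pos ϑ; field_simp; ring
    by_contra hh
    push Not at hh
    have h7 : ϑ * (κ * ρ) ≤ ϑ * (((I.filter fun i =>
        ¬ Disjoint (nb (Fo (σ i)) y) (Aset (X i) (M i))).card : ℝ) - (⌈κ * ρ⌉₊ : ℝ) - 1) := by
      gcongr; linarith
    have h8 : ϑ * (κ * ρ) = 2 * 10 ^ 17 * ρ := by rw [← mul_assoc, hϑ]
    linarith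
  have hone := fun i (hi : i ∈ I) => stage_one (hH.mono subset_rfl (hFo (σ i)).1)
    (hFo (σ i)).2.1 (hFo (σ i)).2.2.1 (hX i hi).2.1
  have hL := fun i (hi : i ∈ I) => contr (hone i hi).1 (hone i hi).2.1 (hone i hi).2.2.1
  choose! L hL1 hL2 hL3 using hL
  set G : ℕ → Finset (Sym2 V) := fun i => stage_del (Fo (σ i)) (Aset (X i) (M i)) ∪ M i with hG
  let Y : ℕ → Finset V := fun i => (W \ X i).filter fun v => dg (G i) v ≤ 1
  let Z : ℕ → Finset V := fun i => (W \ Aset (X i) (M i)).filter fun v => onL (σ i).1 (lab v)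
  have hZ0 : ∀ i ∈ I, ∀ z ∈ Z i, dg (G i) z = 0 := by
    intro i hi z hz
    have hz' := mem_filter.1 hz
    have := (hone i hi).2.2.2.2 z (mem_sdiff.1 hz'.1).2
    have h2 := dg_mono (stage_del_subset (Fo (σ i)) (Aset (X i) (M i))) z
    have h3 := (hFo (σ i)).2.2.2.1 z hz'.2
    simp only [hG]; omega
  have hZY : ∀ i ∈ I, Z i ⊆ Y i := by
    intro i hi z hz
    have hz' := mem_sdiff.1 (mem_filter.1 hz).1
    exact mem_filter.2 ⟨mem_sdiff.2 ⟨hz'.1, fun hx => hz'.2 (mem_union_left _ hx)⟩,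
      by rw [hZ0 i hi z hz]; norm_num⟩
  have hYZ : ∀ i ∈ I, ∀ y ∈ Y i \ Z i, y ∈ W ∧ (y ∈ Aset (X i) (M i) ∨
      (¬ onL (σ i).1 (lab y) ∧ dg (Fo (σ i)) y < 2) ∨
      ¬ Disjoint (nb (Fo (σ i)) y) (Aset (X i) (M i))) := by
    intro i hi y hy
    have hy1 := mem_filter.1 (mem_sdiff.1 hy).1
    have hyW := (mem_sdiff.1 hy1.1).1
    refine ⟨hyW, ?_⟩
    by_cases hA : y ∈ Aset (X i) (M i)
    · exact Or.inl hA
    by_cases hd : Disjoint (nb (Fo (σ i)) y) (Aset (X i) (M i))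
    swap
    · exact Or.inr (Or.inr hd)
    refine Or.inr (Or.inl ⟨fun ho => (mem_sdiff.1 hy).2 (mem_filter.2 ⟨mem_sdiff.2 ⟨hyW, hA⟩, ho⟩),
      ?_⟩)
    have h1 := (hone i hi).2.2.2.2 y hA
    have h2 : dg (stage_del (Fo (σ i)) (Aset (X i) (M i))) y = dg (Fo (σ i)) y := by
      unfold dg; rw [stage_nb_del hA hd]
    have h3 := hy1.2
    simp only [hG] at h3; omega
  have honL : ∀ (l : ZMod g × ZMod g) v, onL l (lab v) ↔ ((lab v).1, (lab v).2.1) ∈ stage_ln l :=
    fun l v => by rw [stage_mem_ln]; rfl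
  have hlow : ∀ (N : Finset V), th * ρ / 2 ≤ (N.card : ℝ) → (∀ l,
      |((N.filter fun v => lab v = l).card : ℝ) - (N.card : ℝ) / Lc| ≤ c * ρ) →
      ∀ l, 3 / 8 * th * (ρ / Lc) ≤ ((N.filter fun v => lab v = l).card : ℝ) := by
    intro N h1 h2 l
    have h3 := (abs_le.1 (h2 l)).1
    have h4 : th / 2 * (ρ / Lc) ≤ (N.card : ℝ) / Lc := by
      rw [show th / 2 * (ρ / Lc) = th * ρ / 2 / Lc by ring]; gcongr
    have h5 : κ * th / 8 * (ρ / Lc) ≤ 1 * th / 8 * (ρ / Lc) := by gcongr; linarith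
    linarith
  obtain ⟨F', hF'1, hF'2⟩ := stageB (Pt := ZMod g × ZMod g) hg'
    (by
      have h1 : (g : ℝ) ^ 2 * 3 ≤ κ * ρ := le_trans (by gcongr) hρ
      have h2 : κ * ρ ≤ 1 / 10 ^ 32 * ρ := by gcongr
      have h3 : (g : ℝ) ≤ (g : ℝ) ^ 2 := le_self_pow₀ hg1 (by norm_num)
      linarith)
    hn hT hP I (fun v => ((lab v).1, (lab v).2.1)) (fun i => stage_ln (σ i).1) Y Z L
    (fun i _ j _ b b' hb h1 h2 h3 h4 => by rw [stage_ln_eq hb h1 h2 h3 h4])
    (fun i hi => by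
      refine le_trans ?_ hqh
      have : (I.filter fun j => stage_ln (σ j).1 = stage_ln (σ i).1).card ≤
          (({(σ i).1} : Finset (ZMod g × ZMod g)) ×ˢ
            (univ : Finset (Fin ((p - 1) / 2) × Fin h))).card := by
        refine card_le_card_of_injOn σ (fun j hj => ?_)
          (hσ.injOn.mono (coe_subset.2 (filter_subset _ _)))
        have := stage_ln_inj (mem_filter.1 (mem_coe.1 hj)).2
        exact mem_coe.2 (mem_product.2 ⟨mem_singleton.2 this, mem_univ _⟩)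
      rw [card_product, card_singleton, card_univ, Fintype.card_prod, Fintype.card_fin,
        Fintype.card_fin, one_mul] at this
      exact_mod_cast this)
    (fun i hi => by
      refine ⟨(filter_subset _ _).trans sdiff_subset, hZY i hi, ⟨(hL1 i hi).1.mono ?_ subset_rfl,
        (hL1 i hi).2⟩, fun z hz => (honL _ _).1 (mem_filter.1 hz).2, ?_, ?_⟩
      · intro v hv
        have hv' := mem_filter.1 hv
        refine mem_sdiff.2 ⟨mem_filter.2 ⟨hv'.1, le_of_eq hv'.2⟩, fun hz => ?_⟩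
        have := hZ0 i hi v hz
        have h2 := hv'.2
        simp only [hG] at this; omega
      · have h1 := stage_fib_le W lab (univ.filter fun l : ZMod g × ZMod g × ZMod p =>
          (l.1, l.2.1) ∈ stage_ln (σ i).1) hsize
        rw [stage_card_pts, stage_card_ln] at h1
        have h2 : ((g * p : ℕ) : ℝ) * (2 * nV V / Lc) = 2 * nV V / g := by
          rw [hLc]; push_cast; field_simp
        rw [h2] at h1
        refine le_trans ?_ h1
        refine Nat.cast_le.2 (card_le_card fun z hz => ?_)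
        have hz' := mem_filter.1 hz
        exact mem_filter.2 ⟨(mem_sdiff.1 hz'.1).1, by simpa using (honL _ _).1 hz'.2⟩
      · have h1 : (Y i \ Z i).card ≤ (Aset (X i) (M i)).card +
            (W.filter fun w => ¬ onL (σ i).1 (lab w) ∧ dg (Fo (σ i)) w < 2).card +
            (W.filter fun w => ¬ Disjoint (nb (Fo (σ i)) w) (Aset (X i) (M i))).card := by
          refine le_trans (card_le_card fun y hy => ?_)
            ((card_union_le _ _).trans (Nat.add_le_add_right (card_union_le _ _) _))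
          obtain ⟨hyW, h | h | h⟩ := hYZ i hi y hy
          · exact mem_union_left _ (mem_union_left _ h)
          · exact mem_union_left _ (mem_union_right _ (mem_filter.2 ⟨hyW, h⟩))
          · exact mem_union_right _ (mem_filter.2 ⟨hyW, h⟩)
        have h2 := stage_meet (hFo (σ i)).2.1 W (Aset (X i) (M i))
        have h3 := (hFo (σ i)).2.2.2.2
        have h4 := (hX i hi).2.2
        have h5 : η * nV V ≤ κ * nV V := by gcongr
        have h6 : κ * W.card ≤ κ * nV V := by gcongr; exact card_le_nV W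
        have h1' := (Nat.cast_le (α := ℝ)).2 h1
        have h2' := (Nat.cast_le (α := ℝ)).2 h2
        push_cast at h1' h2'
        have h7 : nV V / (10 ^ 30 * (g : ℝ) ^ 2) = 100 * (κ * nV V) := by
          rw [hκ]; field_simp; norm_num
        rw [h7]; linarith)
    (fun y => by
      by_cases hyW : y ∈ W
      swap
      · rw [filter_eq_empty_iff.2 fun i hi h => hyW (hYZ i hi y h).1]
        simp only [card_empty, Nat.cast_zero]; positivity
      have h1 : (I.filter fun i => y ∈ Y i \ Z i).card ≤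
          (I.filter fun i => y ∈ Aset (X i) (M i)).card +
          (I.filter fun i => ¬ onL (σ i).1 (lab y) ∧ dg (Fo (σ i)) y < 2).card +
          (I.filter fun i => ¬ Disjoint (nb (Fo (σ i)) y) (Aset (X i) (M i))).card := by
        refine le_trans (card_le_card fun i hi => ?_)
          ((card_union_le _ _).trans (Nat.add_le_add_right (card_union_le _ _) _))
        have hi' := mem_filter.1 hi
        obtain ⟨_, h | h | h⟩ := hYZ i hi'.1 y hi'.2
        · exact mem_union_left _ (mem_union_left _ (mem_filter.2 ⟨hi'.1, h⟩))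
        · exact mem_union_left _ (mem_union_right _ (mem_filter.2 ⟨hi'.1, h⟩))
        · exact mem_union_right _ (mem_filter.2 ⟨hi'.1, h⟩)
      have h2 : (I.filter fun i => ¬ onL (σ i).1 (lab y) ∧ dg (Fo (σ i)) y < 2).card ≤
          (univ.filter fun φ : (ZMod g × ZMod g) × Fin ((p - 1) / 2) × Fin h =>
            ¬ onL φ.1 (lab y) ∧ dg (Fo φ) y < 2).card :=
        card_le_card_of_injOn σ (fun j hj => mem_coe.2 (mem_filter.2
          ⟨mem_univ _, (mem_filter.1 (mem_coe.1 hj)).2⟩))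
          (hσ.injOn.mono (coe_subset.2 (filter_subset _ _)))
      have h3 := hFc y hyW
      have h4 := hXc y hyW
      have h5 := hhit' y
      have h1' := (Nat.cast_le (α := ℝ)).2 h1
      have h2' := (Nat.cast_le (α := ℝ)).2 h2
      push_cast at h1' h2'
      have h6 : η * ρ ≤ κ * ρ := by gcongr
      have h7 : (g : ℝ) ^ 2 * p * (7 * κ * R0 + h / p + 1) ≤ 37 * (κ * ρ) := by
        have e1 : (h : ℝ) / p ≤ 2 * κ * R0 := by
          rw [div_le_iff₀ (by linarith)]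
          have := mul_le_mul_of_nonneg_left hpκ hR00.le
          linarith
        have e2 : Lc ≤ κ * ρ := hLρ
        have e3 : κ * r ≤ κ * (4 * ρ) := by gcongr
        calc (g : ℝ) ^ 2 * p * (7 * κ * R0 + h / p + 1) ≤ Lc * (7 * κ * R0 + 2 * κ * R0 + 1) := by
              rw [hLc]; gcongr
          _ = 9 * (κ * r) + Lc := by rw [← hR0]; ring
          _ ≤ 37 * (κ * ρ) := by linarith
      have h8 : 41 * (κ * ρ) ≤ th * ρ / (16 * g) := by
        rw [le_div_iff₀ (by positivity), hth1]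
        have h3 : (g : ℝ) ≤ (g : ℝ) ^ 2 := le_self_pow₀ hg1 (by norm_num)
        have : κ * g ≤ 1 / 10 ^ 32 := hκg ▸ mul_le_mul_of_nonneg_left h3 hκ0.le
        have := mul_le_mul_of_nonneg_right this hρ0.le
        linarith
      linarith)
    (fun i hi y hy => by
      have hy' := mem_filter.1 hy
      have hyW := (mem_sdiff.1 hy'.1).1
      have h1 := stage_fib_ge (nb A y \ Aset (X i) (M i)) lab
        (univ.filter fun l : ZMod g × ZMod g × ZMod p =>
          (l.1, l.2.1) ∈ (stage_ln (σ i).1).erase ((lab y).1, (lab y).2.1))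
        (hlow _ (hAD i hi y hyW).1 (lA i hi y hyW))
      rw [stage_card_pts, card_erase_of_mem ((honL _ _).1 hy'.2), stage_card_ln] at h1
      refine le_trans ?_ (h1.trans (Nat.cast_le.2 (card_le_card fun z hz => ?_)))
      · have hg3 : 1 ≤ g := by exact_mod_cast hg1
        push_cast [Nat.cast_sub hg3]
        have e : ((g : ℝ) - 1) * p * (3 / 8 * th * (ρ / Lc)) =
            th * ρ / (4 * g) * (3 * (g - 1) / (2 * g)) := by rw [hLc]; field_simp; ring
        rw [e]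
        refine le_mul_of_one_le_right (by positivity) ?_
        rw [le_div_iff₀ (by positivity)]
        linarith [show (3 : ℝ) ≤ 10 ^ 15 by norm_num]
      · have hz' := mem_filter.1 hz
        have hz1 := mem_sdiff.1 hz'.1
        have hz2 := mem_erase.1 (mem_filter.1 hz'.2).2
        exact mem_filter.2 ⟨mem_inter.2 ⟨hz1.1, mem_filter.2
          ⟨mem_sdiff.2 ⟨hT.onA.nb_subset y hz1.1, hz1.2⟩, (honL _ _).2 hz2.2⟩⟩, hz2.1⟩)
    (fun i hi y hy => by
      have hyW := (mem_sdiff.1 (mem_filter.1 hy).1).1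
      have h1 := stage_fib_ge (D y \ Aset (X i) (M i)) lab
        (univ.filter fun l : ZMod g × ZMod g × ZMod p => (l.1, l.2.1) ∈ stage_ln (σ i).1)
        (hlow _ (hAD i hi y hyW).2 (lD i hi y hyW))
      rw [stage_card_pts, stage_card_ln] at h1
      refine le_trans ?_ (h1.trans (Nat.cast_le.2 (card_le_card fun z hz => ?_)))
      · push_cast
        have e : (g : ℝ) * p * (3 / 8 * th * (ρ / Lc)) = th * ρ / (4 * g) * (3 / 2) := by
          rw [hLc]; field_simp; ring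
        rw [e]
        exact le_mul_of_one_le_right (by positivity) (by norm_num)
      · have hz' := mem_filter.1 hz
        have hz1 := mem_sdiff.1 hz'.1
        exact mem_inter.2 ⟨hz1.1, mem_filter.2
          ⟨mem_sdiff.2 ⟨hT.onB.nb_subset y (subset_nb_arcE D y hz1.1), hz1.2⟩,
            (honL _ _).2 (mem_filter.1 hz'.2).2⟩⟩)
    (fun y hyW => by
      have h0 : ∀ l, (((nb C y).filter fun v => lab v = l).card : ℝ) ≤ 3 * (ρ / Lc) := by
        intro l
        have h1 := (abs_le.1 (lC y hyW l)).2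
        have h2 : (dg C y : ℝ) ≤ 2 * ρ := le_trans
          (Nat.cast_le.2 (dg_mono (show C ⊆ PP A C D from subset_union_right) y)) (hdP y hyW)
        have h3 : (dg C y : ℝ) / Lc ≤ 2 * (ρ / Lc) := by
          rw [← mul_div_assoc]; gcongr
        have h4 : κ * th / 8 * (ρ / Lc) ≤ 1 * (ρ / Lc) := by
          gcongr; rw [hth1]; linarith
        linarith
      have h1 := stage_fib_le (nb C y) lab (univ.filter fun l : ZMod g × ZMod g × ZMod p =>
        (l.1, l.2.1) ∈ ({((lab y).1, (lab y).2.1)} : Finset (ZMod g × ZMod g))) h0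
      rw [stage_card_pts, card_singleton] at h1
      have e : ((1 * p : ℕ) : ℝ) * (3 * (ρ / Lc)) = 3 * ρ / (g : ℝ) ^ 2 := by
        rw [hLc]; push_cast; field_simp
      rw [e] at h1
      refine le_trans (Nat.cast_le.2 (card_le_card fun z hz => ?_)) h1
      have hz' := mem_filter.1 hz
      exact mem_filter.2 ⟨hz'.1, mem_filter.2 ⟨mem_univ _, mem_singleton.2 hz'.2⟩⟩)
  have hdel : ∀ i, stage_del (Fo (σ i)) (Aset (X i) (M i)) ⊆ H := fun i =>
    (stage_del_subset _ _).trans (hFo _).1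
  refine ⟨fun i => F' i ∪ stage_del (Fo (σ i)) (Aset (X i) (M i)), fun i hi => ?_,
    fun i hi j hj hij => ?_⟩
  · obtain ⟨h1, h2⟩ := hL3 i hi (F' i) (hF'1 i hi).2.1 (hF'1 i hi).2.2
    refine ⟨union_subset ((hF'1 i hi).1.trans subset_union_right)
      ((hdel i).trans subset_union_left), ?_, by rw [union_assoc]; exact h2⟩
    exact disjoint_union_left.2 ⟨h1.mono_right subset_union_right, (hone i hi).2.2.2.1⟩
  · refine disjoint_union_left.2 ⟨disjoint_union_right.2 ⟨hF'2 i hi j hj hij, ?_⟩,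
      disjoint_union_right.2 ⟨?_, ?_⟩⟩
    · exact (hHP.symm.mono (hF'1 i hi).1 (hdel j))
    · exact (hHP.mono (hdel i) (hF'1 j hj).1)
    · exact (hFd _ _ fun h => hij (hσ.injOn hi hj h)).mono (stage_del_subset _ _)
        (stage_del_subset _ _)

/-- One stage of the construction. -/
theorem stage (g : ℕ) (hg : g.Prime) (hg' : 10 ^ 15 ≤ g) :
    ∃ η : ℝ, 0 < η ∧ ∃ ρ0 : ℝ, ∀ r ρ : ℝ, ρ0 ≤ ρ → ρ ≤ r → r ≤ 4 * ρ →
    ∃ t : ℕ, |2 * (t : ℝ) - r| ≤ r / 20 ∧
    ∀ (V : Type) [Fintype V] [DecidableEq V] (W : Finset V) (H A C : Finset (Sym2 V))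
      (D : V → Finset V) (I : Finset ℕ) (X : ℕ → Finset V) (M : ℕ → Finset (Sym2 V)),
      I.card = t → ρ ≤ nV V → Real.log (nV V) ≤ 10 ^ 17 * ρ →
      On W H → Tri W A C D → Disjoint H (PP A C D) →
      (∀ w ∈ W, |(dg H w : ℝ) - r| ≤ η * r) → (∀ w ∈ W, (dg (PP A C D) w : ℝ) ≤ 2 * ρ) →
      (∀ i ∈ I, X i ⊆ W ∧ IsMat (W \ X i) (M i) ∧ ((Aset (X i) (M i)).card : ℝ) ≤ η * nV V) →
      (∀ w ∈ W, ((I.filter fun i => w ∈ Aset (X i) (M i)).card : ℝ) ≤ η * ρ) →
      (∀ i ∈ I, ∀ w ∈ W, th * ρ / 2 ≤ ((nb A w \ Aset (X i) (M i)).card : ℝ) ∧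
        th * ρ / 2 ≤ ((D w \ Aset (X i) (M i)).card : ℝ)) →
      PoolOK W ρ g 1 (A ∪ arcE D) (PP A C D) C →
      ∃ F, HamFam W (H ∪ PP A C D) I X M F := by
  have : Fact g.Prime := ⟨hg⟩
  obtain ⟨p, hp1, hp⟩ := Nat.exists_infinite_primes (10 ^ 32 * g ^ 2)
  have : Fact p.Prime := ⟨hp⟩
  have hgR : (10 : ℝ) ^ 15 ≤ g := by exact_mod_cast hg'
  have hg0 : (0 : ℝ) < g := by linarith [show (0 : ℝ) < 10 ^ 15 by positivity]
  have hg1 : (1 : ℝ) ≤ g := by linarith [show (1 : ℝ) ≤ 10 ^ 15 by norm_num]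
  have hg2 : (1 : ℝ) ≤ (g : ℝ) ^ 2 := one_le_pow₀ hg1
  have hpR : (10 : ℝ) ^ 32 * (g : ℝ) ^ 2 ≤ p := by exact_mod_cast hp1
  have hpR' : (10 : ℝ) ^ 32 ≤ p := le_trans (le_mul_of_one_le_right (by positivity) hg2) hpR
  have hp3 : 3 ≤ p := by
    have : (3 : ℝ) ≤ p := le_trans (by norm_num) hpR'
    exact_mod_cast this
  have hp0 : (0 : ℝ) < p := lt_of_lt_of_le (by positivity) hpR'
  obtain ⟨κ, hκ⟩ : ∃ κ : ℝ, κ = 1 / (10 ^ 32 * (g : ℝ) ^ 2) := ⟨_, rfl⟩
  have hκ0 : 0 < κ := by rw [hκ]; positivity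
  have hκg : κ * (g : ℝ) ^ 2 = 1 / 10 ^ 32 := by rw [hκ]; field_simp
  have hκ1 : κ ≤ 1 / 10 ^ 32 := hκg ▸ le_mul_of_one_le_right hκ0.le hg2
  have hpκ : 1 ≤ κ * p := by
    rw [hκ, one_div, inv_mul_eq_div, le_div_iff₀ (by positivity)]; linarith
  obtain ⟨Lc, hLc⟩ : ∃ Lc : ℝ, Lc = (g : ℝ) ^ 2 * p := ⟨_, rfl⟩
  have hLc0 : 0 < Lc := by rw [hLc]; positivity
  have hth := th_pos
  obtain ⟨ρ1, hsplit⟩ := split (ZMod g × ZMod g × ZMod p) (c := κ * th / 8 / Lc) (by positivity)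
  have hcard : (Fintype.card (ZMod g × ZMod g × ZMod p) : ℝ) = (g : ℝ) ^ 2 * p := by
    simp only [Fintype.card_prod, ZMod.card]; push_cast; ring
  obtain ⟨ϑ, hϑ⟩ : ∃ ϑ : ℝ, ϑ = 2 * 10 ^ 17 / κ := ⟨_, rfl⟩
  have hϑ0 : 0 ≤ ϑ := by rw [hϑ]; positivity
  have hηκ : κ * Real.exp (-ϑ) ≤ κ :=
    mul_le_of_le_one_right hκ0.le (Real.exp_le_one_iff.2 (by linarith))
  refine ⟨κ * Real.exp (-ϑ), by positivity, max ρ1 ((g : ℝ) ^ 2 * Lc / κ),
    fun r ρ hρ hr1 hr2 => ?_⟩
  have hρ1 : ρ1 ≤ ρ := (le_max_left _ _).trans hρ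
  have hρ2 : (g : ℝ) ^ 2 * Lc ≤ κ * ρ := by
    have := (le_max_right _ _).trans hρ
    rwa [div_le_iff₀ hκ0, mul_comm ρ] at this
  have hLρ : Lc ≤ κ * ρ := (le_mul_of_one_le_left hLc0.le hg2).trans hρ2
  have hρ0 : 0 < ρ := (mul_pos_iff_of_pos_left hκ0).1 (hLc0.trans_le hLρ)
  have hr0 : 0 < r := by linarith
  have hLc1 : 1 ≤ Lc := by
    rw [hLc]; exact one_le_mul_of_one_le_of_one_le hg2 (le_trans (by norm_num) hpR')
  have hρ3 : 2 ≤ ρ := by
    have := mul_le_mul_of_nonneg_right hκ1 hρ0.le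
    linarith
  obtain ⟨R0, hR0⟩ : ∃ R0 : ℝ, R0 = r / Lc := ⟨_, rfl⟩
  have hR0' : R0 * Lc = r := by rw [hR0]; field_simp
  have hR00 : 0 < R0 := by rw [hR0]; positivity
  have hκR : 1 ≤ κ * R0 := by
    rw [hR0, ← mul_div_assoc, le_div_iff₀ hLc0]
    have := mul_le_mul_of_nonneg_left hr1 hκ0.le
    linarith
  have hh1 : (1 + 3 * κ) * R0 ≤ (⌈(1 + 3 * κ) * R0⌉₊ : ℝ) := Nat.le_ceil _
  have hh2 : (⌈(1 + 3 * κ) * R0⌉₊ : ℝ) ≤ (1 + 4 * κ) * R0 := by
    have := Nat.ceil_lt_add_one (show 0 ≤ (1 + 3 * κ) * R0 by positivity)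
    linarith
  generalize ⌈(1 + 3 * κ) * R0⌉₊ = h at hh1 hh2
  have hq : 2 * (((p - 1) / 2 : ℕ) : ℝ) = p - 1 := by
    have h1 : 2 * ((p - 1) / 2) + 1 = p := by
      have := hp.eq_two_or_odd
      omega
    have h2 : (2 : ℝ) * (((p - 1) / 2 : ℕ) : ℝ) + 1 = p := by exact_mod_cast h1
    linarith
  have ht : |2 * ((g ^ 2 * ((p - 1) / 2) * h : ℕ) : ℝ) - r| ≤ r / 20 := by
    have e : 2 * ((g ^ 2 * ((p - 1) / 2) * h : ℕ) : ℝ) = Lc * h - (g : ℝ) ^ 2 * h := by
      push_cast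
      rw [hLc]
      linear_combination (g : ℝ) ^ 2 * h * hq
    have h1 := mul_le_mul_of_nonneg_left hh1 hLc0.le
    have h2 := mul_le_mul_of_nonneg_left hh2 hLc0.le
    have e1 : Lc * ((1 + 3 * κ) * R0) = r + 3 * (κ * r) := by rw [← hR0']; ring
    have e2 : Lc * ((1 + 4 * κ) * R0) = r + 4 * (κ * r) := by rw [← hR0']; ring
    have h3 : κ * r ≤ 1 / 10 ^ 32 * r := by gcongr
    have h4 : 0 ≤ κ * r := by positivity
    have h5 : (g : ℝ) ^ 2 * h * 100 ≤ Lc * h := by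
      rw [hLc, mul_right_comm]
      gcongr
      exact le_trans (by norm_num) hpR'
    have h6 : 0 ≤ (g : ℝ) ^ 2 * h := by positivity
    rw [e, abs_le]; constructor <;> linarith
  refine ⟨g ^ 2 * ((p - 1) / 2) * h, ht, ?_⟩
  intro V _ _ W H A C D I X M hI hn hlog hH hT hHP hdH hdP hX hXc hAD hP
  have hOn : On W (H ∪ PP A C D) := hH.union ((hT.onA.union hT.onB).union hT.onC)
  have hNb : ∀ v, ((nb (H ∪ PP A C D) v).card : ℝ) ≤ 8 * ρ := by
    intro v
    by_cases hv : v ∈ W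
    · have h1 := (Nat.cast_le (α := ℝ)).2 (dg_union_le H (PP A C D) v)
      have h2 := (abs_le.1 (hdH v hv)).2
      have h3 := hdP v hv
      have h4 : κ * Real.exp (-ϑ) * r ≤ 1 / 10 ^ 32 * r := by gcongr; exact hηκ.trans hκ1
      push_cast at h1
      unfold dg at h1 h2 h3
      linarith
    · rw [hOn.nb_eq_empty hv]; simp only [card_empty, Nat.cast_zero]; positivity
  let S : Finset (Option ℕ ⊕ Option ℕ) := (insertNone I).disjSum (insertNone I)
  let N : V × (Option ℕ ⊕ Option ℕ) → Finset V := fun j =>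
    match j.2 with
    | Sum.inl none => nb H j.1
    | Sum.inr none => nb C j.1
    | Sum.inl (some i) => nb A j.1 \ Aset (X i) (M i)
    | Sum.inr (some i) => D j.1 \ Aset (X i) (M i)
  obtain ⟨lab, hlab⟩ := hsplit ρ hρ1 V (nb (H ∪ PP A C D)) (V × (Option ℕ ⊕ Option ℕ))
    (W ×ˢ S) Prod.fst N
    (by
      rintro ⟨w, (_ | i) | (_ | i)⟩ _
      · exact nb_mono subset_union_left w
      · exact sdiff_subset.trans (nb_mono ((subset_union_left.trans subset_union_left).trans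
          subset_union_right) w)
      · exact nb_mono (subset_union_right.trans subset_union_right) w
      · exact sdiff_subset.trans ((subset_nb_arcE D w).trans (nb_mono
          ((subset_union_right.trans subset_union_left).trans subset_union_right) w)))
    hNb
    (fun v => by
      refine le_trans (le_of_eq ?_) (hNb v)
      congr 2
      ext y
      simp only [mem_filter, mem_univ, true_and]
      exact mem_nb_comm)
    (fun v => by
      have h1 : ((W ×ˢ S).filter fun j => j.1 = v).card ≤ (({v} : Finset V) ×ˢ S).card :=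
        card_le_card fun j hj => mem_product.2
          ⟨mem_singleton.2 (mem_filter.1 hj).2, (mem_product.1 (mem_filter.1 hj).1).2⟩
      rw [card_product, card_singleton, one_mul, card_disjSum, card_insertNone, hI] at h1
      have h2 := (Nat.cast_le (α := ℝ)).2 h1
      have h3 := (abs_le.1 ht).2
      rw [Nat.cast_add, Nat.cast_add, Nat.cast_one] at h2
      refine le_trans (le_of_eq ?_) (h2.trans (by linarith))
      congr)
  rw [hcard] at hlab
  have hm : ∀ w ∈ W, ∀ o ∈ insertNone I, (w, Sum.inl o) ∈ W ×ˢ S ∧ (w, Sum.inr o) ∈ W ×ˢ S :=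
    fun w hw o ho => ⟨mem_product.2 ⟨hw, inl_mem_disjSum.2 ho⟩,
      mem_product.2 ⟨hw, inr_mem_disjSum.2 ho⟩⟩
  exact stage_core (c := κ * th / 8 / Lc) (ϑ := ϑ) (η := κ * Real.exp (-ϑ)) g p hp3 hgR hκ hpκ (hLc ▸ hR0') (by rw [← hLc]; field_simp) (by positivity)
    hηκ (by rw [hϑ]; field_simp) (by rw [mul_assoc, ← Real.exp_add]; simp) (hLc ▸ hρ2) hr1 hr2
    hh1 hh2 hI hn hlog hH hT hHP hdH hdP hX hXc hAD hP lab
    (fun w hw l => by convert hlab _ (hm w hw none (by simp)).1 l; rfl)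
    (fun w hw l => by convert hlab _ (hm w hw none (by simp)).2 l; rfl)
    (fun i hi w hw l => by convert hlab _ (hm w hw (some i) (by simpa using hi)).1 l)
    (fun i hi w hw l => by convert hlab _ (hm w hw (some i) (by simpa using hi)).2 l)

end

end Pool.Agent.MP_1376f1_pr
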