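import Pool.Agent.MP_1376f1_pr.Mg.Expand

/-!
Sequential completion of the forests of one stage.
-/

set_option autoImplicit false
set_option linter.unusedSectionVars false

namespace Pool.Agent.MP_1376f1_pr

open Finset MP_d802e4_co
open scoped Classical

noncomputable section

variable {V : Type} [Fintype V] [DecidableEq V]

/-- the edges a colour may use -/
def stageb_Good {Pt : Type} (A C : Finset (Sym2 V)) (D : V → Finset V) (π : V → Pt)
    (Y Z : Finset V) (L U : Finset (Sym2 V)) : Prop :=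
  (∀ e ∈ U, (∃ y z, e = s(y, z) ∧ (e ∈ A ∨ e ∈ C) ∧ y ∈ Z ∧ z ∈ Z ∧ π y ≠ π z) ∨
    (∃ y z, e = s(y, z) ∧ y ∈ Y \ Z ∧ z ∈ D y ∧ z ∈ Z)) ∧ Disjoint U L ∧ IsHam Y (U ∪ L)

lemma stageb_dg_le {Y : Finset V} {L U : Finset (Sym2 V)} (h : IsHam Y (U ∪ L)) (y : V) :
    dg U y ≤ 2 := by
  refine le_trans (dg_mono (subset_union_left (s₂ := L)) y) ?_
  by_cases hy : y ∈ Y
  · exact (h.2.1 y hy).le
  · rw [h.1.dg_eq_zero hy]; omega

lemma stageb_count (S : Finset V) (y : V) (K : Finset ℕ) (U : ℕ → Finset (Sym2 V))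
    (h2 : ∀ j ∈ K, dg (U j) y ≤ 2) (hS : ∀ z ∈ S, ∃ j ∈ K, s(y, z) ∈ U j) :
    S.card ≤ 2 * K.card := by
  have h1 : S ⊆ nb (K.biUnion U) y := fun z hz => by
    obtain ⟨j, hj, h⟩ := hS z hz
    exact mem_nb.2 (mem_biUnion.2 ⟨j, hj, h⟩)
  refine le_trans (card_le_card h1) (le_trans (dg_biUnion_le K U y) ?_)
  calc ∑ j ∈ K, dg (U j) y ≤ ∑ _j ∈ K, 2 := sum_le_sum h2
    _ = 2 * K.card := by rw [sum_const, smul_eq_mul, mul_comm]

lemma stageb_line {Pt : Type} {W : Finset V} {A C : Finset (Sym2 V)} {D : V → Finset V}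
    (hT : Tri W A C D) {π : V → Pt} {Y Z : Finset V} {L U : Finset (Sym2 V)}
    (hG : stageb_Good A C D π Y Z L U) {y z : V} (he : s(y, z) ∈ U)
    (hAC : s(y, z) ∈ A ∨ s(y, z) ∈ C) : y ∈ Z ∧ z ∈ Z := by
  rcases hG.1 _ he with ⟨y', z', h1, -, h3, h4, -⟩ | ⟨y', z', h1, -, h3, -⟩
  · rcases Sym2.eq_iff.1 h1 with ⟨rfl, rfl⟩ | ⟨rfl, rfl⟩
    · exact ⟨h3, h4⟩
    · exact ⟨h4, h3⟩
  · have hb : s(y, z) ∈ arcE D := mem_arcE.2 ⟨y', z', h3, h1⟩
    rcases hAC with h | h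
    · exact absurd hb (disjoint_left.1 hT.dAB h)
    · exact absurd h (disjoint_left.1 hT.dBC hb)

lemma stageb_arc {Pt : Type} {W : Finset V} {A C : Finset (Sym2 V)} {D : V → Finset V}
    (hT : Tri W A C D) {π : V → Pt} {Y Z : Finset V} {L U : Finset (Sym2 V)}
    (hG : stageb_Good A C D π Y Z L U) {y z : V} (he : s(y, z) ∈ U) (hz : z ∈ D y) :
    y ∈ Y \ Z := by
  have hb : s(y, z) ∈ arcE D := mem_arcE.2 ⟨y, z, hz, rfl⟩
  rcases hG.1 _ he with ⟨y', z', -, h2, -⟩ | ⟨y', z', h1, h2, h3, -⟩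
  · rcases h2 with h | h
    · exact absurd hb (disjoint_left.1 hT.dAB h)
    · exact absurd h (disjoint_left.1 hT.dBC hb)
  · rcases Sym2.eq_iff.1 h1 with ⟨rfl, rfl⟩ | ⟨rfl, rfl⟩
    · exact h2
    · exact absurd h3 (hT.anti _ _ hz)

lemma stageb_split (S : Finset V) (p : V → Prop) [DecidablePred p] :
    (S.card : ℝ) = ((S.filter p).card : ℝ) + ((S.filter fun z => ¬ p z).card : ℝ) := by
  exact_mod_cast (card_filter_add_card_filter_not (s := S) p).symm

lemma stageb_num {g ρ : ℝ} (hg : 10 ^ 15 ≤ g) (hρ : 10 ^ 16 * g ≤ ρ) :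
    60 ≤ th * ρ / (16 * g) ∧ 8 * ρ / g ^ 2 ≤ th * ρ / (8 * g) := by
  have hg0 : 0 < g := lt_of_lt_of_le (by positivity) hg
  have hρ0 : 0 < ρ := lt_of_lt_of_le (by positivity) hρ
  constructor
  · rw [le_div_iff₀ (by positivity)]
    unfold th
    nlinarith
  · rw [div_le_div_iff₀ (by positivity) (by positivity)]
    unfold th
    have : 0 ≤ ρ * g := by positivity
    nlinarith

lemma stageb_step {Pt : Type} [DecidableEq Pt] {g ρ : ℝ} (hg : 10 ^ 15 ≤ g)
    (hρ : 10 ^ 16 * g ≤ ρ)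
    (hn : ρ ≤ nV V) {W : Finset V} {A C : Finset (Sym2 V)} {D : V → Finset V} (hT : Tri W A C D)
    (hP : PoolOK W ρ g 1 (A ∪ arcE D) (PP A C D) C) (π : V → Pt)
    (Y Z : Finset V) (L Us : Finset (Sym2 V))
    (hYW : Y ⊆ W) (hZY : Z ⊆ Y) (hL : IsMat (Y \ Z) L)
    (hZc : (Z.card : ℝ) ≤ 2 * nV V / g) (hYc : ((Y \ Z).card : ℝ) ≤ nV V / (10 ^ 30 * g ^ 2))
    (hA : ∀ y ∈ Z, th * ρ / (4 * g) ≤ (((nb A y ∩ Z).filter fun z => π z ≠ π y).card : ℝ))
    (hD : ∀ y ∈ Y, th * ρ / (4 * g) ≤ ((D y ∩ Z).card : ℝ))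
    (hC : ∀ y ∈ W, (((nb C y).filter fun z => π z = π y).card : ℝ) ≤ 3 * ρ / g ^ 2)
    (hU1 : ∀ y ∈ Z, ∀ S : Finset V,
      (∀ z ∈ S, z ∈ Z ∧ π z ≠ π y ∧ (s(y, z) ∈ A ∨ s(y, z) ∈ C) ∧ s(y, z) ∈ Us) →
      (S.card : ℝ) ≤ 8 * ρ / g ^ 2)
    (hU2 : ∀ y, ∀ S : Finset V, (∀ z ∈ S, z ∈ D y ∧ s(y, z) ∈ Us) →
      (S.card : ℝ) ≤ th * ρ / (8 * g)) :
    ∃ F, stageb_Good A C D π Y Z L F ∧ Disjoint F Us := by
  have hg0 : 0 < g := lt_of_lt_of_le (by positivity) hg
  have hρ0 : 0 < ρ := lt_of_lt_of_le (by positivity) hρ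
  have hn0 : 0 < nV V := lt_of_lt_of_le hρ0 hn
  obtain ⟨hn1, hn2⟩ := stageb_num hg hρ
  have hx : (10 : ℝ) ^ 12 ≤ nV V / (10 ^ 4 * g) := by
    rw [le_div_iff₀ (by positivity)]; nlinarith
  set x : ℝ := nV V / (10 ^ 4 * g) with hxdef
  set t : ℝ := th * ρ / (16 * g) with htdef
  have ht4 : th * ρ / (4 * g) = 4 * t := by rw [htdef]; field_simp; ring
  have ht8 : th * ρ / (8 * g) = 2 * t := by rw [htdef]; field_simp; ring
  have hδ1 : t ≤ (⌈t⌉₊ : ℝ) := Nat.le_ceil t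
  have hδ2 : (⌈t⌉₊ : ℝ) < t + 1 := Nat.ceil_lt_add_one (by linarith)
  have ha1 : (⌊x⌋₊ : ℝ) ≤ x := Nat.floor_le (by linarith)
  have ha2 : x < (⌊x⌋₊ : ℝ) + 1 := Nat.lt_floor_add_one x
  have hsm : nV V / (10 ^ 30 * g ^ 2) ≤ nV V / (10 ^ 5 * g) := by
    apply div_le_div_of_nonneg_left hn0.le (by positivity)
    nlinarith
  have hxx : nV V / (10 ^ 5 * g) = x / 10 := by rw [hxdef]; field_simp
  have hng : nV V / g = 10 ^ 4 * x := by rw [hxdef]; field_simp
  have hYcard : (Y.card : ℝ) ≤ 3 * nV V / g := by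
    have h1 : ((Y \ Z).card : ℝ) + Z.card = Y.card := by
      exact_mod_cast card_sdiff_add_card_eq_card hZY
    have h2 : 3 * nV V / g = 3 * (nV V / g) := by ring
    have h3 : 2 * nV V / g = 2 * (nV V / g) := by ring
    rw [h2]; rw [h3] at hZc; rw [hng] at hZc ⊢
    linarith
  let N : V → Finset V := fun y =>
    if y ∈ Z then ((nb A y ∩ Z).filter fun z => π z ≠ π y).filter fun z => ¬ s(y, z) ∈ Us
    else (D y ∩ Z).filter fun z => ¬ s(y, z) ∈ Us
  have hN1 : ∀ y ∈ Z, ∀ z, z ∈ N y ↔ (s(y, z) ∈ A ∧ z ∈ Z ∧ π z ≠ π y) ∧ s(y, z) ∉ Us := by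
    intro y hy z
    simp only [N, if_pos hy, mem_filter, mem_inter, mem_nb, and_assoc]
  have hN2 : ∀ y, y ∉ Z → ∀ z, z ∈ N y ↔ (z ∈ D y ∧ z ∈ Z) ∧ s(y, z) ∉ Us := by
    intro y hy z
    simp only [N, if_neg hy, mem_filter, mem_inter]
  let C' : Finset (Sym2 V) :=
    (inside C Z).filter fun e => e ∉ Us ∧ ∀ y z, e = s(y, z) → π y ≠ π z
  have hC'sub : C' ⊆ inside C Z := filter_subset _ _
  have hQN : ∀ y, ∀ z ∈ N y, s(y, z) ∈ A ∪ arcE D := by
    intro y z hz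
    by_cases hy : y ∈ Z
    · exact mem_union_left _ ((hN1 y hy z).1 hz).1.1
    · exact mem_union_right _ (mem_arcE.2 ⟨y, z, ((hN2 y hy z).1 hz).1.1, rfl⟩)
  obtain ⟨F, hF1, hF2, hF3⟩ := complete' (W := W) (Y := Y) (Z := Z) (T1 := ∅) (L := L)
    (P := PP A C D) (C := C) (Q := A ∪ arcE D) (C' := C') N (a := ⌊x⌋₊) (δ0 := ⌈t⌉₊) (d0 := 0)
    (lam := th * ρ / (200 * g)) (lam1 := 0) (a1 := 0) hYW hZY hL
    (fun y _ => by
      refine ⟨fun z hz => ?_, fun hy' => ?_, fun z hz => mem_union_left _ (hQN y z hz)⟩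
      · by_cases hy : y ∈ Z
        · exact ((hN1 y hy z).1 hz).1.2.1
        · exact ((hN2 y hy z).1 hz).1.2
      · by_cases hy : y ∈ Z
        · exact ((hN1 y hy y).1 hy').1.2.2 rfl
        · exact hy ((hN2 y hy y).1 hy').1.2)
    (fun y hyY _ => by
      refine ⟨?_, hQN y⟩
      have key : (⌈t⌉₊ : ℝ) ≤ ((N y).card : ℝ) := by
        by_cases hy : y ∈ Z
        · have e1 := stageb_split ((nb A y ∩ Z).filter fun z => π z ≠ π y)
            (fun z => s(y, z) ∈ Us)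
          have e2 := hU1 y hy ((((nb A y ∩ Z).filter fun z => π z ≠ π y)).filter
            fun z => s(y, z) ∈ Us) (fun z hz => by
              simp only [mem_filter, mem_inter, mem_nb] at hz
              exact ⟨hz.1.1.2, hz.1.2, Or.inl hz.1.1.1, hz.2⟩)
          have e3 := hA y hy
          have e4 : N y = ((nb A y ∩ Z).filter fun z => π z ≠ π y).filter
              fun z => ¬ s(y, z) ∈ Us := if_pos hy
          rw [e4]
          linarith
        · have e1 := stageb_split (D y ∩ Z) (fun z => s(y, z) ∈ Us)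
          have e2 := hU2 y ((D y ∩ Z).filter fun z => s(y, z) ∈ Us) (fun z hz => by
              simp only [mem_filter, mem_inter] at hz
              exact ⟨hz.1.1, hz.2⟩)
          have e3 := hD y hyY
          have e4 : N y = (D y ∩ Z).filter fun z => ¬ s(y, z) ∈ Us := if_neg hy
          rw [e4]
          linarith
      exact_mod_cast key)
    (fun y _ h => absurd h (notMem_empty y))
    (fun S hS => hP.sparse S (by
      have : 3 * nV V / (10 ^ 4 * g) = 3 * x := by rw [hxdef]; ring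
      rw [this]; linarith))
    (by have := th_pos; positivity)
    (by
      have : 12 * (th * ρ / (200 * g)) = 24 / 25 * t := by rw [htdef]; field_simp; ring
      rw [this]; linarith)
    (Nat.zero_le _) (Or.inl rfl)
    (by
      apply Nat.le_floor
      push_cast
      linarith)
    (by
      apply Nat.le_floor
      push_cast
      linarith)
    hP.boost hYcard
    (by
      have h1 : 2 * L.card ≤ (Y \ Z).card := by
        rw [hL.two_card]; exact card_le_card hL.1.tch_subset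
      have h2 : (2 : ℝ) * L.card ≤ (Y \ Z).card := by exact_mod_cast h1
      have h3 : (0 : ℝ) ≤ L.card := Nat.cast_nonneg _
      linarith)
    (by
      have h1 : th * ρ * nV V / (4 * g ^ 2) = (4 / 3 * t) * (3 * nV V / g) := by
        rw [htdef]; field_simp; ring
      rw [h1]
      apply mul_le_mul _ hYcard (Nat.cast_nonneg _) (by linarith)
      linarith)
    (by
      have h1 : x / 2 ≤ (⌊x⌋₊ : ℝ) := by linarith
      have h2 : (x / 2) ^ 2 ≤ (⌊x⌋₊ : ℝ) ^ 2 := pow_le_pow_left₀ (by linarith) h1 2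
      nlinarith)
    ((on_inside hT.onC).mono subset_rfl hC'sub)
    (fun e he => mem_union_right _ (mem_inside.1 (hC'sub he)).1)
    (by
      have hOn : On Z (inside C Z \ C') := (on_inside hT.onC).mono subset_rfl sdiff_subset
      have h1 := handshake hOn
      have h2 : ∀ v ∈ Z, (dg (inside C Z \ C') v : ℝ) ≤ 11 * ρ / g ^ 2 := by
        intro v hv
        have e1 := stageb_split (nb (inside C Z \ C') v) (fun z => π z = π v)
        have e2 : (((nb (inside C Z \ C') v).filter fun z => π z = π v).card : ℝ) ≤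
            (((nb C v).filter fun z => π z = π v).card : ℝ) := by
          have : ((nb (inside C Z \ C') v).filter fun z => π z = π v) ⊆
              ((nb C v).filter fun z => π z = π v) :=
            filter_subset_filter _ (nb_mono (fun e he => (mem_inside.1 (mem_sdiff.1 he).1).1) v)
          exact_mod_cast card_le_card this
        have e3 := hC v (hYW (hZY hv))
        have e4 := hU1 v hv ((nb (inside C Z \ C') v).filter fun z => ¬ π z = π v)
          (fun z hz => by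
            obtain ⟨hz1, hz2⟩ := mem_filter.1 hz
            obtain ⟨hz3, hz4⟩ := mem_sdiff.1 (mem_nb.1 hz1)
            refine ⟨(mem_inside.1 hz3).2 z (by simp), hz2, Or.inr (mem_inside.1 hz3).1, ?_⟩
            by_contra hU
            refine hz4 (mem_filter.2 ⟨hz3, hU, fun y' z' h => ?_⟩)
            rcases Sym2.eq_iff.1 h with ⟨rfl, rfl⟩ | ⟨rfl, rfl⟩
            · exact fun h => hz2 h.symm
            · exact hz2)
        have e5 : 11 * ρ / g ^ 2 = 3 * ρ / g ^ 2 + 8 * ρ / g ^ 2 := by ring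
        unfold dg
        linarith
      have h3 : (2 : ℝ) * ((inside C Z \ C').card : ℝ) ≤ Z.card * (11 * ρ / g ^ 2) := by
        have : (2 : ℝ) * ((inside C Z \ C').card : ℝ) =
            ∑ v ∈ Z, (dg (inside C Z \ C') v : ℝ) := by exact_mod_cast h1.symm
        rw [this]
        calc ∑ v ∈ Z, (dg (inside C Z \ C') v : ℝ) ≤ ∑ _v ∈ Z, 11 * ρ / g ^ 2 := sum_le_sum h2
          _ = Z.card * (11 * ρ / g ^ 2) := by rw [sum_const, nsmul_eq_mul]
      have h4 : (Z.card : ℝ) * (11 * ρ / g ^ 2) ≤ (2 * nV V / g) * (11 * ρ / g ^ 2) :=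
        mul_le_mul_of_nonneg_right hZc (by positivity)
      have h5 : (2 * nV V / g) * (11 * ρ / g ^ 2) = (22 / g) * (nV V * ρ / g ^ 2) := by
        field_simp; ring
      have h6 : 1 * nV V * ρ / (10 ^ 11 * g ^ 2) = (1 / 10 ^ 11) * (nV V * ρ / g ^ 2) := by
        field_simp
      have h7 : 22 / g < 2 * (1 / 10 ^ 11) := by
        rw [div_lt_iff₀ hg0]; linarith
      have h8 : 0 < nV V * ρ / g ^ 2 := by positivity
      rw [h6]
      nlinarith)
  refine ⟨F, ⟨fun e he => ?_, hF2, hF3⟩, disjoint_left.2 fun e he hU => ?_⟩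
  · rcases hF1 e he with ⟨y, hy, z, hz, rfl⟩ | h
    · by_cases hyZ : y ∈ Z
      · obtain ⟨⟨h1, h2, h3⟩, -⟩ := (hN1 y hyZ z).1 hz
        exact Or.inl ⟨y, z, rfl, Or.inl h1, hyZ, h2, fun h => h3 h.symm⟩
      · obtain ⟨⟨h1, h2⟩, -⟩ := (hN2 y hyZ z).1 hz
        exact Or.inr ⟨y, z, rfl, mem_sdiff.2 ⟨hy, hyZ⟩, h1, h2⟩
    · obtain ⟨h1, -, h3⟩ := mem_filter.1 h
      induction e using Sym2.ind with
      | _ y z =>
        exact Or.inl ⟨y, z, rfl, Or.inr (mem_inside.1 h1).1, (mem_inside.1 h1).2 y (by simp),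
          (mem_inside.1 h1).2 z (by simp), h3 y z rfl⟩
  · rcases hF1 e he with ⟨y, hy, z, hz, rfl⟩ | h
    · by_cases hyZ : y ∈ Z
      · exact ((hN1 y hyZ z).1 hz).2 hU
      · exact ((hN2 y hyZ z).1 hz).2 hU
    · exact (mem_filter.1 h).2.1 hU


/-- Hint: `seq_choice` with `Good i U`: every edge of `U` is an edge `s(y,z)` of `A` or of `C` with
`y, z ∈ Z i`, `π y ≠ π z`, or `s(y,z)` with `y ∈ Y i \ Z i`, `z ∈ D y ∩ Z i`; `Disjoint U (L i)`;
`IsHam (Y i) (U ∪ L i)`. Use `complete'` with `T1 = ∅`, `d0 = 0`, `a = ⌊n / (10 ^ 4 g)⌋₊`,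
`δ0 = ⌈th ρ / (16 g)⌉₊`, `N y` the unused candidates. An edge of `A` or `C` inside `Z i` joining
different points can only be used by colours `j` with `Ln j = Ln i` (`hlin`), each using at most 2
edges at a vertex; an arc leaving `y` can only be used by colours `j` with `y ∈ Y j \ Z j`
(`Tri.anti`). `inside C (Z i) \ C'` has at most `|Z i| (3 ρ / g ^ 2 + 8 ρ / g ^ 2)` edges. -/
theorem stageB {Pt : Type} [DecidableEq Pt] {g ρ : ℝ} (hg : 10 ^ 15 ≤ g) (hρ : 10 ^ 16 * g ≤ ρ)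
    (hn : ρ ≤ nV V) {W : Finset V} {A C : Finset (Sym2 V)} {D : V → Finset V} (hT : Tri W A C D)
    (hP : PoolOK W ρ g 1 (A ∪ arcE D) (PP A C D) C) (I : Finset ℕ) (π : V → Pt)
    (Ln : ℕ → Finset Pt) (Y Z : ℕ → Finset V) (L : ℕ → Finset (Sym2 V))
    (hlin : ∀ i ∈ I, ∀ j ∈ I, ∀ b b', b ≠ b' → b ∈ Ln i → b' ∈ Ln i → b ∈ Ln j → b' ∈ Ln j →
      Ln i = Ln j)
    (hcnt : ∀ i ∈ I, ((I.filter fun j => Ln j = Ln i).card : ℝ) ≤ 4 * ρ / g ^ 2)
    (hY : ∀ i ∈ I, Y i ⊆ W ∧ Z i ⊆ Y i ∧ IsMat (Y i \ Z i) (L i) ∧ (∀ z ∈ Z i, π z ∈ Ln i) ∧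
      ((Z i).card : ℝ) ≤ 2 * nV V / g ∧ ((Y i \ Z i).card : ℝ) ≤ nV V / (10 ^ 30 * g ^ 2))
    (he : ∀ y, ((I.filter fun i => y ∈ Y i \ Z i).card : ℝ) ≤ th * ρ / (16 * g))
    (hA : ∀ i ∈ I, ∀ y ∈ Z i,
      th * ρ / (4 * g) ≤ (((nb A y ∩ Z i).filter fun z => π z ≠ π y).card : ℝ))
    (hD : ∀ i ∈ I, ∀ y ∈ Y i, th * ρ / (4 * g) ≤ ((D y ∩ Z i).card : ℝ))
    (hC : ∀ y ∈ W, (((nb C y).filter fun z => π z = π y).card : ℝ) ≤ 3 * ρ / g ^ 2) :
    ∃ F : ℕ → Finset (Sym2 V),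
      (∀ i ∈ I, F i ⊆ PP A C D ∧ Disjoint (F i) (L i) ∧ IsHam (Y i) (F i ∪ L i)) ∧
      ∀ i ∈ I, ∀ j ∈ I, i ≠ j → Disjoint (F i) (F j) := by
  have hg0 : 0 < g := lt_of_lt_of_le (by positivity) hg
  obtain ⟨F, hF1, hF2⟩ := seq_choice I
    (fun i U => stageb_Good A C D π (Y i) (Z i) (L i) U) (fun i hi J hJ U hU => by
      have hJI : ∀ j ∈ J, j ∈ I := fun j hj => mem_of_mem_erase (hJ hj)
      obtain ⟨h1, h2, h3, h4, h5, h6⟩ := hY i hi
      obtain ⟨F, hF, hd⟩ := stageb_step hg hρ hn hT hP π (Y i) (Z i) (L i) (J.biUnion U)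
        h1 h2 h3 h5 h6 (hA i hi) (hD i hi) hC
        (fun y hy S hS => by
          have k1 := stageb_count S y (J.filter fun j => Ln j = Ln i) U
            (fun j hj => stageb_dg_le (hU j (mem_filter.1 hj).1).2.2 y)
            (fun z hz => by
              obtain ⟨m1, m2, m3, m4⟩ := hS z hz
              obtain ⟨j, hj, m5⟩ := mem_biUnion.1 m4
              obtain ⟨m6, m7⟩ := stageb_line hT (hU j hj) m5 m3
              have hZj := (hY j (hJI j hj)).2.2.2.1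
              exact ⟨j, mem_filter.2 ⟨hj, (hlin i hi j (hJI j hj) (π z) (π y) m2 (h4 z m1)
                (h4 y hy) (hZj z m7) (hZj y m6)).symm⟩, m5⟩)
          have k2 : (J.filter fun j => Ln j = Ln i).card ≤
              (I.filter fun j => Ln j = Ln i).card :=
            card_le_card (filter_subset_filter _ hJI)
          have k3 : (S.card : ℝ) ≤ 2 * ((I.filter fun j => Ln j = Ln i).card : ℝ) := by
            exact_mod_cast le_trans k1 (Nat.mul_le_mul_left 2 k2)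
          have k4 := hcnt i hi
          have k5 : 8 * ρ / g ^ 2 = 2 * (4 * ρ / g ^ 2) := by ring
          linarith)
        (fun y S hS => by
          have k1 := stageb_count S y (J.filter fun j => y ∈ Y j \ Z j) U
            (fun j hj => stageb_dg_le (hU j (mem_filter.1 hj).1).2.2 y)
            (fun z hz => by
              obtain ⟨m1, m4⟩ := hS z hz
              obtain ⟨j, hj, m5⟩ := mem_biUnion.1 m4
              exact ⟨j, mem_filter.2 ⟨hj, stageb_arc hT (hU j hj) m5 m1⟩, m5⟩)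
          have k2 : (J.filter fun j => y ∈ Y j \ Z j).card ≤
              (I.filter fun j => y ∈ Y j \ Z j).card :=
            card_le_card (filter_subset_filter _ hJI)
          have k3 : (S.card : ℝ) ≤ 2 * ((I.filter fun j => y ∈ Y j \ Z j).card : ℝ) := by
            exact_mod_cast le_trans k1 (Nat.mul_le_mul_left 2 k2)
          have k4 := he y
          have k5 : th * ρ / (8 * g) = 2 * (th * ρ / (16 * g)) := by field_simp; ring
          linarith)
      exact ⟨F, hF, fun j hj => hd.mono_right (subset_biUnion_of_mem U hj)⟩)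
  refine ⟨F, fun i hi => ⟨fun e he => ?_, (hF1 i hi).2.1, (hF1 i hi).2.2⟩, hF2⟩
  rcases (hF1 i hi).1 e he with ⟨y, z, -, h | h, -⟩ | ⟨y, z, h1, -, h2, -⟩
  · exact mem_union_left _ (mem_union_left _ h)
  · exact mem_union_right _ h
  · exact mem_union_left _ (mem_union_right _ (mem_arcE.2 ⟨y, z, h2, h1⟩))

end

end Pool.Agent.MP_1376f1_pr
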