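import Pool.Agent.MP_1376f1_pr.Mg.Bad

/-!
Random choices for the dense end.
-/

set_option autoImplicit false
set_option linter.unusedSectionVars false

namespace Pool.Agent.MP_1376f1_pr

open Finset MP_d802e4_co
open scoped Classical

noncomputable section

lemma xsel_small {c : ℝ} (hc : 0 < c) (K : ℝ) (d : ℕ) :
    ∃ R : ℝ, ∀ r : ℝ, R ≤ r → K * r ^ d * Real.exp (-(c * r ^ 7)) ≤ 1 / 2 := by
  refine ⟨max 1 (2 * K * (d + 1).factorial / c ^ (d + 1)), fun r hr => ?_⟩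
  have hr1 : 1 ≤ r := le_trans (le_max_left _ _) hr
  have hr2 : 2 * K * (d + 1).factorial / c ^ (d + 1) ≤ r := le_trans (le_max_right _ _) hr
  have hr0 : 0 < r := by linarith
  have hcd : 0 < c ^ (d + 1) := pow_pos hc _
  have hf : (0 : ℝ) < (d + 1).factorial := by exact_mod_cast Nat.factorial_pos _
  rw [div_le_iff₀ hcd] at hr2
  have h1 : (c * r) ^ (d + 1) / (d + 1).factorial ≤ Real.exp (c * r) :=
    Real.pow_div_factorial_le_exp _ (by positivity) _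
  have h2 : c * r ≤ c * r ^ 7 := mul_le_mul_of_nonneg_left (le_self_pow₀ hr1 (by norm_num)) hc.le
  have h3 : Real.exp (c * r) ≤ Real.exp (c * r ^ 7) := Real.exp_le_exp.2 h2
  have h4 : 2 * K * r ^ d ≤ (c * r) ^ (d + 1) / (d + 1).factorial := by
    rw [le_div_iff₀ hf, mul_pow, pow_succ r d]
    have := mul_le_mul_of_nonneg_right hr2 (pow_pos hr0 d).le
    nlinarith
  rw [Real.exp_neg, ← div_eq_mul_inv, div_le_iff₀ (Real.exp_pos _)]
  linarith

lemma xsel_root {n : ℝ} (hn : 0 ≤ n) (a : ℕ) :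
    (n ^ (1 / 10 : ℝ)) ^ a = n ^ ((a : ℝ) / 10) := by
  rw [← Real.rpow_natCast, ← Real.rpow_mul hn]
  congr 1
  ring

lemma xsel_root_ge {n R : ℝ} (hR : 0 ≤ R) (h : R ^ 10 ≤ n) : R ≤ n ^ (1 / 10 : ℝ) := by
  have hn : 0 ≤ n := le_trans (by positivity) h
  have h1 : (n ^ (1 / 10 : ℝ)) ^ 10 = n := by
    rw [xsel_root hn]; norm_num
  rw [← h1] at h
  exact (pow_le_pow_iff_left₀ hR (Real.rpow_nonneg hn _) (by norm_num)).1 h

lemma xsel_dev_mono {a ν b : ℝ} (h : b ≤ a ^ 2 / ν) :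
    2 * Real.exp (-a ^ 2 / ν) ≤ 2 * Real.exp (-b) := by
  refine mul_le_mul_of_nonneg_left (Real.exp_le_exp.2 ?_) (by norm_num)
  rw [neg_div]; linarith

section Core

variable {V A Λ : Type} [Fintype V] [DecidableEq V] [Fintype A] [DecidableEq A] [Fintype Λ]
  {p : Λ → ℝ}

lemma xsel_e1 (hp : IsP p) (T : Finset Λ) (W : Finset V) {u s : ℝ} (hs : 0 ≤ s)
    (h : W.card * mass p T ≤ u - s) (a : A) :
    Pr p (fun ω : A × V → Λ => u ≤ ((W.filter fun w => ω (a, w) ∈ T).card : ℝ)) ≤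
      2 * Real.exp (-s ^ 2 / (4 * u + 2 * s)) := by
  have h1 := cnt_dev (V := A × V) hp W (fun w => (a, w))
    (fun w _ z _ hwz => (Prod.ext_iff.1 hwz).2) (fun _ => T) (ν := u) (a := s)
    (by
      refine le_trans (min_le_left _ _) ?_
      rw [sum_const, nsmul_eq_mul]; linarith) hs
  refine le_trans (Pr_mono hp fun ω hω => ?_) h1
  rw [sum_const, nsmul_eq_mul]
  refine le_trans ?_ (le_abs_self _)
  linarith

lemma xsel_e2 (hp : IsP p) (T : Finset Λ) (I : Finset ℕ) (φ : ℕ → A) (hφ : Set.InjOn φ I)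
    {u a : ℝ} (ha : 0 ≤ a) (h : I.card * mass p T ≤ u) (w : V) :
    Pr p (fun ω : A × V → Λ =>
      a ≤ |((I.filter fun i => ω (φ i, w) ∈ T).card : ℝ) - I.card * mass p T|) ≤
      2 * Real.exp (-a ^ 2 / (4 * u + 2 * a)) := by
  have h1 := cnt_dev (V := A × V) hp I (fun i => (φ i, w))
    (fun i hi j hj hij => hφ hi hj (Prod.ext_iff.1 hij).1) (fun _ => T) (ν := u) (a := a)
    (by
      refine le_trans (min_le_left _ _) ?_
      rw [sum_const, nsmul_eq_mul]; linarith) ha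
  refine le_trans (Pr_mono hp fun ω hω => ?_) h1
  rw [sum_const, nsmul_eq_mul]
  exact hω

lemma xsel_e3 (hp : IsP p) (T : Finset Λ) (I : Finset ℕ) (φ : ℕ → A) (hφ : Set.InjOn φ I)
    {s : ℝ} (hs : 0 ≤ s) (h : 50 * s ≤ I.card * mass p T ^ 2) {w z : V} (hwz : w ≠ z) :
    Pr p (fun ω : A × V → Λ =>
      ((I.filter fun i => ω (φ i, w) ∈ T ∧ ω (φ i, z) ∈ T).card : ℝ) ≤ 10 * s) ≤
      Real.exp (-(15 * s)) := by
  have hP : ∀ i : ℕ, Pr p (fun ω : A × V → Λ => ω (φ i, w) ∈ T ∧ ω (φ i, z) ∈ T) =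
      mass p T ^ 2 := by
    intro i
    rw [Pr_and hp (A := {(φ i, w)}) (B := {(φ i, z)}), Pr_mem hp, Pr_mem hp, sq]
    · intro ω ω' hω; exact congrArg (· ∈ T) (hω _ rfl)
    · intro ω ω' hω; exact congrArg (· ∈ T) (hω _ rfl)
    · simp [hwz]
  have h1 := many_low (V := A × V) hp I (fun i => {x | x.1 = φ i})
    (fun i ω => ω (φ i, w) ∈ T ∧ ω (φ i, z) ∈ T)
    (fun i _ ω ω' hω => by simp only [hω (φ i, w) rfl, hω (φ i, z) rfl])
    (fun i hi j hj hij => Set.disjoint_left.2 fun x h1 h2 => hij (hφ hi hj (h1.symm.trans h2)))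
    (μ := 50 * s) (t := 1) (l := 10 * s)
    (by simp only [hP]; rw [sum_const, nsmul_eq_mul]; exact h) zero_le_one
  refine le_trans (le_trans (Pr_mono hp fun ω hω => ?_) h1) (Real.exp_le_exp.2 ?_)
  · refine le_trans (le_of_eq ?_) hω
    congr
  · have h2 : Real.exp (-1) ≤ 1 / 2 := by
      rw [Real.exp_neg, ← one_div]
      refine one_div_le_one_div_of_le (by norm_num) ?_
      linarith [Real.add_one_le_exp (1 : ℝ)]
    nlinarith

lemma xsel_e4 (hp : IsP p) (T : Finset Λ) (I : Finset ℕ) (φ : ℕ → A) (hφ : Set.InjOn φ I)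
    {η z0 : ℝ} (hη : 0 ≤ η) (hz0 : 1 ≤ z0) (h : mass p T ≤ η / 8) (Y : ℕ) (w : V) :
    Pr p (fun ω : A × V → Λ => η * max ((Y : ℝ) - 1) z0 ≤
      (((I.filter fun i => i < Y).filter fun i => ω (φ i, w) ∈ T).card : ℝ)) ≤
      Real.exp (-(η * z0 / 2)) := by
  set z := max ((Y : ℝ) - 1) z0 with hz
  have hz1 : (Y : ℝ) - 1 ≤ z := le_max_left _ _
  have hz2 : z0 ≤ z := le_max_right _ _
  have hc : (((I.filter fun i => i < Y).card : ℕ) : ℝ) ≤ Y := by
    have : (I.filter fun i => i < Y) ⊆ range Y := fun i hi => mem_range.2 (mem_filter.1 hi).2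
    exact_mod_cast (card_le_card this).trans (card_range Y).le
  have hm := mass_nonneg hp T
  have h1 := cnt_up (V := A × V) hp (I.filter fun i => i < Y) (fun i => (φ i, w))
    (fun i hi j hj hij => hφ (mem_filter.1 hi).1 (mem_filter.1 hj).1 (Prod.ext_iff.1 hij).1)
    (fun _ => T) (μ := η * z / 4) (t := 1) (l := η * z)
    (by
      rw [sum_const, nsmul_eq_mul]
      calc _ ≤ (2 * z) * mass p T := mul_le_mul_of_nonneg_right (by linarith) hm
        _ ≤ (2 * z) * (η / 8) := mul_le_mul_of_nonneg_left h (by linarith)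
        _ = _ := by ring) zero_le_one
  refine le_trans h1 (Real.exp_le_exp.2 ?_)
  have h2 : Real.exp 1 ≤ 3 := by linarith [Real.exp_one_lt_d9]
  have h3 : 0 ≤ η * z := mul_nonneg hη (by linarith)
  have h4 : η * z0 ≤ η * z := mul_le_mul_of_nonneg_left hz2 hη
  nlinarith

lemma xsel_core (hp : IsP p) (T : Finset Λ) (W : Finset V) (I : Finset ℕ) (φ : ℕ → A)
    (hφ : Set.InjOn φ I) (N : ℕ) {u s η z0 δ : ℝ} (hs : 0 ≤ s) (hsu : s ≤ u) (hη : 0 ≤ η)
    (hz0 : 1 ≤ z0) (h1 : W.card * mass p T ≤ u - s) (h2 : I.card * mass p T = (u + s) / 2)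
    (h3 : 50 * s ≤ I.card * mass p T ^ 2) (h4 : mass p T ≤ η / 8)
    (d1 : 2 * Real.exp (-s ^ 2 / (4 * u + 2 * s)) ≤ δ)
    (d2 : 2 * Real.exp (-(η * s / 2) ^ 2 / (4 * u + 2 * (η * s / 2))) ≤ δ)
    (d3 : Real.exp (-(15 * s)) ≤ δ) (d4 : Real.exp (-(η * z0 / 2)) ≤ δ)
    (hδ : (nV A + nV V + nV V ^ 2 + (N + 1) * nV V) * δ < 1) :
    ∃ ω : A × V → Λ, (∀ a, ((W.filter fun w => ω (a, w) ∈ T).card : ℝ) < u) ∧
      (∀ w, |((I.filter fun i => ω (φ i, w) ∈ T).card : ℝ) - (u + s) / 2| < η * s / 2) ∧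
      (∀ w z, w ≠ z →
        10 * s < ((I.filter fun i => ω (φ i, w) ∈ T ∧ ω (φ i, z) ∈ T).card : ℝ)) ∧
      ∀ Y ≤ N, ∀ w, (((I.filter fun i => i < Y).filter fun i => ω (φ i, w) ∈ T).card : ℝ) <
        η * max ((Y : ℝ) - 1) z0 := by
  have hδ0 : 0 ≤ δ := le_trans (Real.exp_pos _).le d3
  have b1 : Pr p (fun ω : A × V → Λ => ∃ a ∈ (univ : Finset A),
      u ≤ ((W.filter fun w => ω (a, w) ∈ T).card : ℝ)) ≤ nV A * δ := by
    refine le_trans (Pr_exists hp _ _) ?_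
    refine le_trans (sum_le_card_nsmul _ _ δ fun a _ => (xsel_e1 hp T W hs h1 a).trans d1) ?_
    rw [nsmul_eq_mul, card_univ]; exact le_rfl
  have b2 : Pr p (fun ω : A × V → Λ => ∃ w ∈ (univ : Finset V), η * s / 2 ≤
      |((I.filter fun i => ω (φ i, w) ∈ T).card : ℝ) - I.card * mass p T|) ≤ nV V * δ := by
    refine le_trans (Pr_exists hp _ _) ?_
    refine le_trans (sum_le_card_nsmul _ _ δ fun w _ =>
      (xsel_e2 hp T I φ hφ (by positivity) (u := u) (by linarith) w).trans d2) ?_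
    rw [nsmul_eq_mul, card_univ]; exact le_rfl
  have b3 : Pr p (fun ω : A × V → Λ => ∃ x ∈ (univ.filter fun x : V × V => x.1 ≠ x.2),
      ((I.filter fun i => ω (φ i, x.1) ∈ T ∧ ω (φ i, x.2) ∈ T).card : ℝ) ≤ 10 * s) ≤
      nV V ^ 2 * δ := by
    refine le_trans (Pr_exists hp _ _) ?_
    refine le_trans (sum_le_card_nsmul _ _ δ fun x hx =>
      (xsel_e3 hp T I φ hφ hs h3 (mem_filter.1 hx).2).trans d3) ?_
    rw [nsmul_eq_mul]
    refine mul_le_mul_of_nonneg_right ?_ hδ0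
    have := card_le_univ (univ.filter fun x : V × V => x.1 ≠ x.2)
    rw [Fintype.card_prod] at this
    unfold nV
    rw [sq]
    exact_mod_cast this
  have b4 : Pr p (fun ω : A × V → Λ => ∃ x ∈ range (N + 1) ×ˢ (univ : Finset V),
      η * max ((x.1 : ℝ) - 1) z0 ≤
      (((I.filter fun i => i < x.1).filter fun i => ω (φ i, x.2) ∈ T).card : ℝ)) ≤
      (N + 1) * nV V * δ := by
    refine le_trans (Pr_exists hp _ _) ?_
    refine le_trans (sum_le_card_nsmul _ _ δ fun x _ =>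
      (xsel_e4 hp T I φ hφ hη hz0 h4 x.1 x.2).trans d4) ?_
    rw [nsmul_eq_mul, card_product, card_range, card_univ]
    unfold nV
    push_cast
    exact le_rfl
  have b12 := (Pr_or hp _ _).trans (add_le_add b1 b2)
  have b34 := (Pr_or hp _ _).trans (add_le_add b3 b4)
  have b := (Pr_or hp _ _).trans (add_le_add b12 b34)
  obtain ⟨ω, hω⟩ := exists_not_of_Pr_lt_one hp (lt_of_le_of_lt b (by linarith))
  simp only [not_or, not_exists, not_and, not_le] at hω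
  obtain ⟨⟨c1, c2⟩, c3, c4⟩ := hω
  refine ⟨ω, fun a => c1 a (mem_univ _), fun w => ?_, fun w z hwz => ?_, fun Y hY w => ?_⟩
  · rw [← h2]; exact c2 w (mem_univ _)
  · exact c3 (w, z) (mem_filter.2 ⟨mem_univ _, hwz⟩)
  · exact c4 (Y, w) (mem_product.2 ⟨mem_range.2 (Nat.lt_succ_of_le hY), mem_univ _⟩)

end Core

lemma xsel_num {r u J s η : ℝ} (hη : 0 < η) (hη1 : η ≤ 1) (hr : 64 / η ≤ r)
    (hu1 : r ^ 9 ≤ u) (hu2 : u ≤ r ^ 9 + 1) (hJ1 : r ^ 10 / 2 - r ^ 5 ≤ J) (hJ2 : J ≤ r ^ 10 / 2)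
    (hs : s = u ^ 2 / (100 * r ^ 10)) :
    0 ≤ s ∧ s ≤ u ∧ 0 < J ∧ (r ^ 10 - u) * ((u + s) / (2 * J)) ≤ u - s ∧
      50 * s ≤ J * ((u + s) / (2 * J)) ^ 2 ∧ (u + s) / (2 * J) ≤ η / 8 ∧
      η ^ 2 / 10 ^ 6 * r ^ 7 ≤ s ^ 2 / (4 * u + 2 * s) ∧
      η ^ 2 / 10 ^ 6 * r ^ 7 ≤ (η * s / 2) ^ 2 / (4 * u + 2 * (η * s / 2)) ∧
      η ^ 2 / 10 ^ 6 * r ^ 7 ≤ 15 * s ∧ η ^ 2 / 10 ^ 6 * r ^ 7 ≤ η * r ^ 7 / 2 := by
  rw [div_le_iff₀ hη] at hr
  have hr64 : 64 ≤ r := by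
    by_contra hlt
    push Not at hlt
    nlinarith
  have hr1 : 1 ≤ r := by linarith
  have hr0 : 0 < r := by linarith
  have p5 : 0 < r ^ 5 := by positivity
  have p7 : 0 < r ^ 7 := by positivity
  have p8 : 0 < r ^ 8 := by positivity
  have p9 : 1 ≤ r ^ 9 := one_le_pow₀ hr1
  have p10 : 0 < r ^ 10 := by positivity
  have e10 : r ^ 10 = r * r ^ 9 := by ring
  have h59 : 64 * r ^ 5 ≤ r ^ 9 := by
    have h1 : r ≤ r ^ 4 := le_self_pow₀ hr1 (by norm_num)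
    have h2 : r ^ 9 = r ^ 4 * r ^ 5 := by ring
    rw [h2]
    exact mul_le_mul_of_nonneg_right (by linarith) p5.le
  have h910 : 64 * r ^ 9 ≤ r ^ 10 := by
    rw [e10]; exact mul_le_mul_of_nonneg_right hr64 (by linarith)
  have hu0 : 0 < u := by linarith
  have hu3 : u ≤ 2 * r ^ 9 := by linarith
  have hsn : s * (100 * r ^ 10) = u ^ 2 := by rw [hs]; field_simp
  have hs0 : 0 ≤ s := by rw [hs]; positivity
  have hsu : s ≤ u := by
    rw [hs, div_le_iff₀ (by positivity), sq]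
    exact mul_le_mul_of_nonneg_left (by linarith) hu0.le
  have hs8 : r ^ 8 / 100 ≤ s := by
    rw [hs, div_le_div_iff₀ (by norm_num) (by positivity)]
    have h1 : (r ^ 9) ^ 2 ≤ u ^ 2 := pow_le_pow_left₀ (by linarith) hu1 2
    have h2 : r ^ 8 * (100 * r ^ 10) = (r ^ 9) ^ 2 * 100 := by ring
    rw [h2]; linarith
  have hJ4 : r ^ 10 / 4 ≤ J := by linarith
  have hJ0 : 0 < J := by linarith
  have hη2 : η ^ 2 ≤ η := by nlinarith
  have hs2 : r ^ 7 * r ^ 9 / 10 ^ 4 ≤ s ^ 2 := by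
    have h1 : (r ^ 8 / 100) ^ 2 ≤ s ^ 2 := pow_le_pow_left₀ (by positivity) hs8 2
    have h2 : (r ^ 8 / 100) ^ 2 = r ^ 7 * r ^ 9 / 10 ^ 4 := by ring
    linarith
  have h79 : 0 < r ^ 7 * r ^ 9 := by positivity
  refine ⟨hs0, hsu, hJ0, ?_, ?_, ?_, ?_, ?_, ?_, ?_⟩
  · rw [← mul_div_assoc, div_le_iff₀ (by positivity)]
    have h1 : (u - s) * (r ^ 10 - 2 * r ^ 5) ≤ (u - s) * (2 * J) :=
      mul_le_mul_of_nonneg_left (by linarith) (by linarith)
    refine le_trans ?_ h1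
    have h2 : u * (64 * r ^ 5) ≤ u * u := mul_le_mul_of_nonneg_left (by linarith) hu0.le
    have h3 : 0 ≤ u * s := by positivity
    have h4 : 0 ≤ s * r ^ 5 := by positivity
    have h5 : 0 ≤ u * r ^ 5 := by positivity
    nlinarith
  · have h1 : J * ((u + s) / (2 * J)) ^ 2 = (u + s) ^ 2 / (4 * J) := by field_simp; ring
    rw [h1, le_div_iff₀ (by positivity)]
    have h2 : 50 * s * (4 * J) ≤ 50 * s * (2 * r ^ 10) :=
      mul_le_mul_of_nonneg_left (by linarith) (by positivity)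
    have h3 : u ^ 2 ≤ (u + s) ^ 2 := pow_le_pow_left₀ hu0.le (by linarith) 2
    linarith
  · rw [div_le_iff₀ (by positivity)]
    have h1 : η / 8 * (r ^ 10 / 2) ≤ η / 8 * (2 * J) :=
      mul_le_mul_of_nonneg_left (by linarith) (by positivity)
    have h2 : 64 * r ^ 9 ≤ r * η * r ^ 9 := mul_le_mul_of_nonneg_right hr (by linarith)
    have h3 : η / 8 * (r ^ 10 / 2) = r * η * r ^ 9 / 16 := by ring
    linarith
  · rw [le_div_iff₀ (by positivity)]
    have h1 : η ^ 2 / 10 ^ 6 * r ^ 7 * (4 * u + 2 * s) ≤ 1 / 10 ^ 6 * r ^ 7 * (12 * r ^ 9) := by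
      refine mul_le_mul (mul_le_mul_of_nonneg_right ?_ p7.le) (by linarith) (by positivity)
        (by positivity)
      exact div_le_div_of_nonneg_right (by linarith) (by norm_num)
    nlinarith
  · rw [le_div_iff₀ (by positivity)]
    have h0 : η * s ≤ s := by nlinarith
    have h1 : η ^ 2 / 10 ^ 6 * r ^ 7 * (4 * u + 2 * (η * s / 2)) ≤
        η ^ 2 / 10 ^ 6 * r ^ 7 * (10 * r ^ 9) :=
      mul_le_mul_of_nonneg_left (by linarith) (by positivity)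
    have h2 : η ^ 2 * (r ^ 7 * r ^ 9 / 10 ^ 4) ≤ η ^ 2 * s ^ 2 :=
      mul_le_mul_of_nonneg_left hs2 (by positivity)
    have h3 : 0 ≤ η ^ 2 * (r ^ 7 * r ^ 9) := by positivity
    nlinarith
  · have h1 : r ^ 7 ≤ r ^ 8 := pow_le_pow_right₀ hr1 (by norm_num)
    have h2 : η ^ 2 * r ^ 7 ≤ 1 * r ^ 7 := mul_le_mul_of_nonneg_right (by linarith) p7.le
    nlinarith
  · have h2 : η ^ 2 * r ^ 7 ≤ η * r ^ 7 := mul_le_mul_of_nonneg_right hη2 p7.le
    have h3 : 0 ≤ η * r ^ 7 := by positivity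
    nlinarith

lemma xsel_half {J x : ℝ} (hJ : 0 < J) : J * (x / (2 * J)) = x / 2 := by field_simp

/-- Bernoulli weights -/
def xselBern (ξ : ℝ) : Bool → ℝ := fun b => if b = true then ξ else 1 - ξ

lemma xsel_bern_isP {ξ : ℝ} (h0 : 0 ≤ ξ) (h1 : ξ ≤ 1) : IsP (xselBern ξ) :=
  ⟨fun b => by unfold xselBern; split_ifs <;> linarith, by simp [xselBern]⟩

lemma xsel_bern_mass (ξ : ℝ) : mass (xselBern ξ) {true} = ξ := by simp [mass, xselBern]

/-- Hint: let `s = u ^ 2 / (100 n)` (about `n ^ (4/5) / 100`), `ξ = (u + s) / (2 |I|)`; independent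
Bernoulli `ξ` variables (labels in `Bool`) indexed by `Fin n' × V` or `I × V`; `X i` is the set of
`w ∈ W` whose variable is true (`∅` for `i ∉ I`). The mean of `|X i|` is at most `u - 80 s`, the
mean of the count at `w` is `(u + s) / 2`, the mean for a pair is at least `50 s` (`many_low`), the
mean for `i < y` is at most `(y + 1) ξ ≤ η y / 2` (only the natural numbers `⌈y⌉₊ ≤ n` matter). All
deviations have probability at most `exp (-n ^ (1/2))`. -/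
theorem xsel {η : ℝ} (hη : 0 < η) : ∃ n0 : ℝ, ∀ (V : Type) [Fintype V] [DecidableEq V],
    n0 ≤ nV V → ∀ (W : Finset V) (I : Finset ℕ) (u : ℕ), W.card + u = Fintype.card V →
    nV V ^ (9 / 10 : ℝ) ≤ u → (u : ℝ) ≤ nV V ^ (9 / 10 : ℝ) + 1 →
    nV V / 2 - Real.sqrt (nV V) ≤ I.card → (I.card : ℝ) ≤ nV V / 2 →
    (∀ i ∈ I, i < Fintype.card V) →
    ∃ X : ℕ → Finset V, (∀ i, X i ⊆ W ∧ (X i).card + 1 ≤ u) ∧
      (∀ w ∈ W, |2 * ((I.filter fun i => w ∈ X i).card : ℝ) - u - u ^ 2 / (100 * nV V)| ≤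
        η * (u ^ 2 / (100 * nV V))) ∧
      (∀ w ∈ W, ∀ z ∈ W, w ≠ z →
        10 * (u ^ 2 / (100 * nV V)) ≤ ((I.filter fun i => w ∈ X i ∧ z ∈ X i).card : ℝ)) ∧
      ∀ y : ℝ, nV V ^ (7 / 10 : ℝ) ≤ y → ∀ w ∈ W,
        ((I.filter fun i : ℕ => (i : ℝ) < y ∧ w ∈ X i).card : ℝ) ≤ η * y := by
  set η' := min η 1 with hη'
  have hη'0 : 0 < η' := lt_min hη one_pos
  have hη'1 : η' ≤ 1 := min_le_right _ _
  have hη'η : η' ≤ η := min_le_left _ _
  obtain ⟨R, hR⟩ := xsel_small (c := η' ^ 2 / 10 ^ 6) (by positivity) 10 20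
  refine ⟨(max (max R 1) (64 / η')) ^ 10, ?_⟩
  intro V _ _ hn W I u hWu hu1 hu2 hI1 hI2 hI
  have hn0 := nV_nonneg V
  have hr := xsel_root_ge (le_trans (by positivity) (le_max_right _ _)) hn
  set r := nV V ^ (1 / 10 : ℝ) with hrdef
  have hrR : R ≤ r := le_trans ((le_max_left _ _).trans (le_max_left _ _)) hr
  have hr1 : 1 ≤ r := le_trans ((le_max_right _ _).trans (le_max_left _ _)) hr
  have hr64 : 64 / η' ≤ r := le_trans (le_max_right _ _) hr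
  have e10 : nV V = r ^ 10 := by rw [hrdef, xsel_root hn0]; norm_num
  have e9 : nV V ^ (9 / 10 : ℝ) = r ^ 9 := by rw [hrdef, xsel_root hn0]; norm_num
  have e7 : nV V ^ (7 / 10 : ℝ) = r ^ 7 := by rw [hrdef, xsel_root hn0]; norm_num
  have e5 : Real.sqrt (nV V) = r ^ 5 := by
    rw [hrdef, xsel_root hn0, Real.sqrt_eq_rpow]; norm_num
  rw [e9] at hu1 hu2
  rw [e5] at hI1
  rw [e7]
  clear_value r
  rw [e10] at hI1 hI2
  have hn1 : 1 ≤ nV V := by rw [e10]; exact one_le_pow₀ hr1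
  have hN : 0 < Fintype.card V := by
    have : (0 : ℝ) < Fintype.card V := lt_of_lt_of_le one_pos hn1
    exact_mod_cast this
  obtain ⟨s, hs⟩ : ∃ s : ℝ, s = (u : ℝ) ^ 2 / (100 * r ^ 10) := ⟨_, rfl⟩
  obtain ⟨n1, n2, n3, n4, n5, n6, n7, n8, n9, n10⟩ :=
    xsel_num hη'0 hη'1 hr64 hu1 hu2 hI1 hI2 hs
  rw [e10, ← hs]
  set ξ := ((u : ℝ) + s) / (2 * I.card) with hξ
  have hξ0 : 0 ≤ ξ := div_nonneg (add_nonneg (Nat.cast_nonneg _) n1) (by linarith)
  have hp : IsP (xselBern ξ) := xsel_bern_isP hξ0 (by linarith)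
  let φ : ℕ → Fin (Fintype.card V) := fun i => if h : i < Fintype.card V then ⟨i, h⟩ else ⟨0, hN⟩
  have hφ : Set.InjOn φ I := by
    intro i hi j hj hij
    simp only [φ, dif_pos (hI i hi), dif_pos (hI j hj)] at hij
    exact Fin.mk.inj_iff.1 hij
  have hW : (W.card : ℝ) = r ^ 10 - u := by
    rw [← e10]; unfold nV; rw [← hWu]; push_cast; ring
  have hex : 0 < Real.exp (-(η' ^ 2 / 10 ^ 6 * r ^ 7)) := Real.exp_pos _
  obtain ⟨ω, c1, c2, c3, c4⟩ := xsel_core (V := V) hp {true} W I φ hφ (Fintype.card V) (u := u)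
    (s := s) (η := η') (z0 := r ^ 7) (δ := 2 * Real.exp (-(η' ^ 2 / 10 ^ 6 * r ^ 7))) n1 n2
    hη'0.le (one_le_pow₀ hr1) (by rw [xsel_bern_mass, hW]; exact n4)
    (by rw [xsel_bern_mass]; exact xsel_half n3) (by rw [xsel_bern_mass]; exact n5)
    (by rw [xsel_bern_mass]; exact n6) (xsel_dev_mono n7) (xsel_dev_mono n8)
    (by linarith [Real.exp_le_exp.2 (neg_le_neg n9)])
    (by linarith [Real.exp_le_exp.2 (neg_le_neg n10)])
    (by
      have h1 := hR r hrR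
      have h2 : nV (Fin (Fintype.card V)) = nV V := nV_fin _
      have h3 : ((Fintype.card V : ℕ) : ℝ) = nV V := rfl
      have h4 : r ^ 20 = nV V ^ 2 := by rw [e10]; ring
      rw [h4] at h1
      rw [h2, h3]
      have h5 : nV V + nV V + nV V ^ 2 + (nV V + 1) * nV V ≤ 5 * nV V ^ 2 := by nlinarith
      have h6 := mul_le_mul_of_nonneg_right h5 hex.le
      linarith)
  simp only [mem_singleton] at c1 c2 c3 c4
  refine ⟨fun i => W.filter fun w => ω (φ i, w) = true, fun i => ⟨filter_subset _ _, ?_⟩,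
    fun w hw => ?_, fun w hw z hz hwz => ?_, fun y hy w hw => ?_⟩
  · have h1 := c1 (φ i)
    have h2 : (W.filter fun w => ω (φ i, w) = true).card < u := by exact_mod_cast h1
    exact h2
  · have h1 := c2 w
    have h2 : (I.filter fun i => w ∈ W.filter fun w => ω (φ i, w) = true) =
        I.filter fun i => ω (φ i, w) = true := filter_congr fun i _ => by simp [hw]
    rw [h2]
    have h3 : η' * s ≤ η * s := mul_le_mul_of_nonneg_right hη'η n1
    rw [abs_lt] at h1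
    rw [abs_le]
    constructor <;> linarith [h1.1, h1.2]
  · have h1 := c3 w z hwz
    have h2 : (I.filter fun i => (w ∈ W.filter fun w => ω (φ i, w) = true) ∧
        z ∈ W.filter fun w => ω (φ i, w) = true) =
        I.filter fun i => ω (φ i, w) = true ∧ ω (φ i, z) = true :=
      filter_congr fun i _ => by simp [hw, hz]
    rw [h2]
    exact h1.le
  · have h1 := c4 (min ⌈y⌉₊ (Fintype.card V)) (min_le_right _ _) w
    have hy0 : 0 ≤ y := le_trans (by positivity) hy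
    have h2 : (I.filter fun i : ℕ => (i : ℝ) < y ∧ w ∈ W.filter fun w => ω (φ i, w) = true) ⊆
        (I.filter fun i => i < min ⌈y⌉₊ (Fintype.card V)).filter
          fun i => ω (φ i, w) = true := by
      intro i hi
      simp only [mem_filter] at hi ⊢
      exact ⟨⟨hi.1, lt_min (Nat.lt_ceil.2 hi.2.1) (hI i hi.1)⟩, hi.2.2.2⟩
    have h3 : max (((min ⌈y⌉₊ (Fintype.card V) : ℕ) : ℝ) - 1) (r ^ 7) ≤ y := by
      refine max_le ?_ hy
      have h4 : ((min ⌈y⌉₊ (Fintype.card V) : ℕ) : ℝ) ≤ (⌈y⌉₊ : ℝ) := by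
        exact_mod_cast min_le_left _ _
      linarith [Nat.ceil_lt_add_one hy0]
    have h5 : (((I.filter fun i : ℕ => (i : ℝ) < y ∧
        w ∈ W.filter fun w => ω (φ i, w) = true).card : ℕ) : ℝ) ≤ _ :=
      Nat.cast_le.2 (card_le_card h2)
    have h6 := mul_le_mul_of_nonneg_left h3 hη'0.le
    have h7 : η' * y ≤ η * y := mul_le_mul_of_nonneg_right hη'η hy0
    linarith

lemma xsel_pdev {n : ℕ} (hn : 1 ≤ n) {α β γ σ τ a : ℝ} (S : Finset (Fin n)) (w : Fin n)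
    (hα : 0 ≤ α) (hβ : 0 ≤ β) (hτ : 0 ≤ τ) (hτσ : τ ≤ σ) (h1 : α + τ ≤ n) (h2 : β + τ ≤ n)
    (ha : 0 ≤ a) (hγ : γ ≤ a ^ 2 / (4 * (σ + 1) + 2 * a)) {α' β' : ℝ} (hα' : α' = α + τ)
    (hβ' : β' = β + τ) :
    Pr (unif (n ^ 4)) (fun ω : Sym2 (Fin n) → Fin (n ^ 4) => a + 2 ≤
      |((dgr ω (lint n (n ^ 4) α α') (lint n (n ^ 4) β β') w ∩ S).card : ℝ) - S.card * (τ / n)|) ≤
      2 * Real.exp (-γ) := by
  have hM : 0 < n ^ 4 := by positivity
  have hn0 : (0 : ℝ) < n := by exact_mod_cast hn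
  have hn1 : (1 : ℝ) ≤ n := by exact_mod_cast hn
  have hMn : 1 / ((n ^ 4 : ℕ) : ℝ) ≤ 1 / nV (Fin n) := by
    rw [nV_fin]
    refine one_div_le_one_div_of_le hn0 ?_
    push_cast
    exact le_self_pow₀ hn1 (by norm_num)
  have m1 := mass_lint (n := n) (M := n ^ 4) hn hM hα (show α ≤ α + τ by linarith) h1
  have m2 := mass_lint (n := n) (M := n ^ 4) hn hM hβ (show β ≤ β + τ by linarith) h2
  rw [add_sub_cancel_left] at m1 m2
  subst hα' hβ'
  refine le_trans (dgr_dev (isP_unif hM) _ _ S w (q := τ / n) (ν := σ + 1) (a := a)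
    (div_nonneg hτ hn0.le) ((div_le_one hn0).2 (by linarith)) (m1.trans hMn) (m2.trans hMn) ?_ ha)
    (xsel_dev_mono hγ)
  rw [nV_fin]
  have h3 : (n : ℝ) * (τ / n) = τ := by field_simp
  have h4 := min_le_left ((n : ℝ) * (τ / n)) (n * (1 - τ / n))
  linarith

lemma xsel_pnum {η σ r : ℝ} (hη : 0 < η) (hη1 : η ≤ 1) (hr1 : 1 ≤ r)
    (hr : 128 / (η * th ^ 2) ≤ r) (hσ : th / 32 * r ^ 7 ≤ σ) :
    1 ≤ σ ∧ η * th * σ / 2 + 2 ≤ η * th * σ ∧
      η ^ 2 * th ^ 3 / 1152 * r ^ 7 ≤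
        (η * th * σ / 2) ^ 2 / (4 * (σ + 1) + 2 * (η * th * σ / 2)) := by
  have t0 := th_pos
  have t1 : th ≤ 1 := th_le.trans (by norm_num)
  have et : 0 < η * th := mul_pos hη t0
  have et1 : η * th ≤ 1 := mul_le_one₀ hη1 t0.le t1
  rw [div_le_iff₀ (by positivity)] at hr
  have h7 : r ≤ r ^ 7 := le_self_pow₀ hr1 (by norm_num)
  have h4 : 4 ≤ η * th * σ := by
    have h1 : η * th * (th / 32 * r) ≤ η * th * σ := by
      refine mul_le_mul_of_nonneg_left (le_trans ?_ hσ) et.le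
      exact mul_le_mul_of_nonneg_left h7 (by positivity)
    have h2 : η * th * (th / 32 * r) = r * (η * th ^ 2) / 32 := by ring
    linarith
  have hσ0 : 0 < σ := lt_of_lt_of_le (by positivity) hσ
  have h5 : η * th * σ ≤ σ := mul_le_of_le_one_left hσ0.le et1
  refine ⟨by linarith, by linarith, ?_⟩
  rw [le_div_iff₀ (by positivity)]
  have h6 : η ^ 2 * th ^ 3 / 1152 * r ^ 7 ≤ (η * th) ^ 2 / 36 * σ := by
    have h1 := mul_le_mul_of_nonneg_left hσ (show 0 ≤ (η * th) ^ 2 / 36 by positivity)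
    have h2 : (η * th) ^ 2 / 36 * (th / 32 * r ^ 7) = η ^ 2 * th ^ 3 / 1152 * r ^ 7 := by ring
    linarith
  calc _ ≤ (η * th) ^ 2 / 36 * σ * (9 * σ) :=
        mul_le_mul h6 (by linarith) (by positivity) (by positivity)
    _ = _ := by ring

lemma xsel_pfin {η τ a x c n : ℝ} (hη : 0 ≤ η) (hτ : 0 ≤ τ) (hn : 0 < n) (hc1 : (1 - η) * n ≤ c)
    (hc2 : c ≤ n) (ha : a ≤ η * τ) (h : |x - c * (τ / n)| < a) :
    |x - τ| ≤ 2 * η * τ ∧ (1 - 2 * η) * τ ≤ x := by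
  have h0 : 0 ≤ τ / n := div_nonneg hτ hn.le
  have h1 := mul_le_mul_of_nonneg_right hc1 h0
  have h2 := mul_le_mul_of_nonneg_right hc2 h0
  have h3 : n * (τ / n) = τ := by field_simp
  have h4 : (1 - η) * n * (τ / n) = (1 - η) * τ := by rw [mul_assoc, h3]
  have h5 : 0 ≤ η * τ := mul_nonneg hη hτ
  rw [abs_lt] at h
  rw [abs_le]
  refine ⟨⟨?_, ?_⟩, ?_⟩ <;> linarith [h.1, h.2]

/-- Pools in the complete graph. Hint: take the classes `clA`, `clC`, `clD` of a good labelling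
`ω` with `M = n ^ 4`: `pools_prob`, and `dgr_dev` with `a = η th sig / 2 - 3` and a union bound over
`j ≤ m`, `S ∈ 𝒮`, `w` (`sig ≥ th / 32 * n ^ (7/10)`). -/
theorem poolx (g : ℕ) (hg : 1 ≤ g) {η : ℝ} (hη : 0 < η) (hη1 : η ≤ 1) :
    ∃ n0 : ℕ, ∀ n ≥ n0, ∀ (k m : ℕ) (s : ℝ), Sched n k s m → (n : ℝ) ^ (7 / 10 : ℝ) ≤ s →
    k / 2 + s ≤ n → ∀ 𝒮 : Finset (Finset (Fin n)), 𝒮.card ≤ n →
    (∀ S ∈ 𝒮, (1 - η) * n ≤ S.card) →
    ∃ (A C : ℕ → Finset (Sym2 (Fin n))) (D : ℕ → Fin n → Finset (Fin n)),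
      (∀ j ≤ m, Tri univ (A j) (C j) (D j)) ∧
      (∀ j ≤ m, ∀ j' ≤ m, j ≠ j' →
        Disjoint (PP (A j) (C j) (D j)) (PP (A j') (C j') (D j'))) ∧
      (∀ j ≤ m, ∀ S ∈ 𝒮, ∀ w,
        |((nb (PP (A j) (C j) (D j)) w ∩ S).card : ℝ) - sig k s m j| ≤ 2 * η * sig k s m j ∧
        (1 - 2 * η) * th * sig k s m j ≤ (nb (A j) w ∩ S).card ∧
        (1 - 2 * η) * th * sig k s m j ≤ (D j w ∩ S).card) ∧
      (∀ j < m, PoolOK univ (sig k s m j) g 5 (A j ∪ arcE (D j)) (PP (A j) (C j) (D j)) (C j)) ∧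
      PoolOK univ s 1 5 (A m ∪ arcE (D m)) (PP (A m) (C m) (D m)) (C m) := by
  have t0 := th_pos
  have t1 : th ≤ 1 / 3 := th_le.trans (by norm_num)
  obtain ⟨n1, hn1⟩ := pools_prob g hg
  obtain ⟨R, hR⟩ := xsel_small (c := η ^ 2 * th ^ 3 / 1152) (by positivity) 378 30
  refine ⟨max (max n1 1) ⌈(max (max R 1) (128 / (η * th ^ 2))) ^ 10⌉₊, ?_⟩
  intro n hn k m s hS hs hks 𝒮 h𝒮 h𝒮'
  have hnn1 : n1 ≤ n := le_trans ((le_max_left _ _).trans (le_max_left _ _)) hn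
  have hn1' : 1 ≤ n := le_trans ((le_max_right _ _).trans (le_max_left _ _)) hn
  have hn0 : (0 : ℝ) ≤ n := Nat.cast_nonneg _
  have hnR : (1 : ℝ) ≤ n := by exact_mod_cast hn1'
  have hr := xsel_root_ge (n := n) (le_trans (by positivity) (le_max_right _ _))
    (Nat.ceil_le.1 ((le_max_right _ _).trans hn))
  obtain ⟨r, hrdef⟩ : ∃ r : ℝ, r = (n : ℝ) ^ (1 / 10 : ℝ) := ⟨_, rfl⟩
  rw [← hrdef] at hr
  have hrR : R ≤ r := le_trans ((le_max_left _ _).trans (le_max_left _ _)) hr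
  have hr1 : 1 ≤ r := le_trans ((le_max_right _ _).trans (le_max_left _ _)) hr
  have hr128 : 128 / (η * th ^ 2) ≤ r := le_trans (le_max_right _ _) hr
  have e10 : (n : ℝ) = r ^ 10 := by rw [hrdef, xsel_root hn0]; norm_num
  have e7 : (n : ℝ) ^ (7 / 10 : ℝ) = r ^ 7 := by rw [hrdef, xsel_root hn0]; norm_num
  rw [e7] at hs
  have hs1 : 1 ≤ s := le_trans (one_le_pow₀ hr1) hs
  have hp : IsP (unif (n ^ 4)) := isP_unif (pow_pos hn1' 4)
  have hσ : ∀ j ≤ m, th / 32 * r ^ 7 ≤ sig k s m j := fun j hj =>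
    le_trans (mul_le_mul_of_nonneg_left hs (by linarith)) (hS.sig_ge hj)
  obtain ⟨γ, hγ⟩ : ∃ γ : ℝ, γ = η ^ 2 * th ^ 3 / 1152 * r ^ 7 := ⟨_, rfl⟩
  have hex : 0 < Real.exp (-γ) := Real.exp_pos _
  let B : ℕ × Finset (Fin n) × Fin n → (Sym2 (Fin n) → Fin (n ^ 4)) → Prop := fun x ω =>
    (η * th * sig k s m x.1 / 2 + 2 ≤
      |((nb (PP (clA ω k s m x.1) (clC ω k s m x.1) (clD ω k s m x.1)) x.2.2 ∩ x.2.1).card : ℝ) -
        x.2.1.card * (sig k s m x.1 / n)| ∨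
    η * th * sig k s m x.1 / 2 + 2 ≤
      |((nb (clA ω k s m x.1) x.2.2 ∩ x.2.1).card : ℝ) - x.2.1.card * (th * sig k s m x.1 / n)|) ∨
    η * th * sig k s m x.1 / 2 + 2 ≤
      |((clD ω k s m x.1 x.2.2 ∩ x.2.1).card : ℝ) - x.2.1.card * (th * sig k s m x.1 / n)|
  have hB : ∀ x ∈ range (m + 1) ×ˢ 𝒮 ×ˢ (univ : Finset (Fin n)),
      Pr (unif (n ^ 4)) (B x) ≤ 6 * Real.exp (-γ) := by
    rintro ⟨j, S, w⟩ hx
    have hj : j ≤ m := Nat.lt_succ_iff.1 (mem_range.1 (mem_product.1 hx).1)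
    obtain ⟨q1, q2, q3⟩ := xsel_pnum hη hη1 hr1 hr128 (hσ j hj)
    rw [← hγ] at q3
    have c0 := hS.cut_nonneg j
    have c1 := (hS.cut_le hj).trans hks
    have s0 := hS.sig_pos j
    have s1 : 0 ≤ th * sig k s m j := (mul_pos t0 s0).le
    have s2 : th * sig k s m j ≤ 1 / 3 * sig k s m j := mul_le_mul_of_nonneg_right t1 s0.le
    have a0 : 0 ≤ η * th * sig k s m j / 2 := by linarith
    have p1 := xsel_pdev hn1' S w c0 c0 s0.le le_rfl c1 c1 a0 q3 rfl rfl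
    have p2 := xsel_pdev hn1' (τ := th * sig k s m j) S w c0 c0 s1 (by linarith) (by linarith)
      (by linarith) a0 q3 rfl rfl
    have p3 := xsel_pdev hn1' (τ := th * sig k s m j) (α := cut k s m j + th * sig k s m j)
      (β := cut k s m j + 2 * th * sig k s m j) S w (by linarith) (by linarith) s1 (by linarith)
      (by linarith) (by linarith) a0 q3 (α' := cut k s m j + 2 * th * sig k s m j)
      (β' := cut k s m j + 3 * th * sig k s m j) (by ring) (by ring)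
    have p12 := (Pr_or hp _ _).trans (add_le_add p1 p2)
    have p123 := (Pr_or hp _ _).trans (add_le_add p12 p3)
    refine le_trans (le_of_eq (Pr_congr fun ω => ?_)) (p123.trans (le_of_eq (by ring)))
    simp only [B]
    rw [PP_cl hS, nb_gr, clA, nb_gr, clD]
  have b1 : Pr (unif (n ^ 4)) (fun ω => ∃ x ∈ range (m + 1) ×ˢ 𝒮 ×ˢ (univ : Finset (Fin n)),
      B x ω) ≤ 1 / 2 := by
    refine le_trans (Pr_exists hp _ _) (le_trans (sum_le_card_nsmul _ _ _ hB) ?_)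
    rw [nsmul_eq_mul, card_product, card_product, card_range, card_univ, Fintype.card_fin]
    have h1 := hR r hrR
    rw [← hγ] at h1
    have h2 : r ^ 30 = (n : ℝ) ^ 3 := by rw [e10]; ring
    rw [h2] at h1
    have h3 := hS.m_le hs1
    have h4 := Real.log_le_self hn0
    have h5 : (𝒮.card : ℝ) ≤ n := by exact_mod_cast h𝒮
    have h6 : ((m : ℝ) + 1) * (𝒮.card * n) ≤ 63 * n * (n * n) :=
      mul_le_mul (by linarith) (mul_le_mul_of_nonneg_right h5 hn0)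
        (mul_nonneg (Nat.cast_nonneg _) hn0) (by linarith)
    have h7 := mul_le_mul_of_nonneg_right h6 hex.le
    push_cast
    linarith
  have b2 := hn1 n hnn1 k m s hS hks
  have b3 : 1 / (4 * (n : ℝ) ^ 6) ≤ 1 / 4 :=
    one_div_le_one_div_of_le (by norm_num) (by linarith [one_le_pow₀ (n := 6) hnR])
  have b := (Pr_or hp _ _).trans (add_le_add b1 (b2.trans b3))
  obtain ⟨ω, hω⟩ := exists_not_of_Pr_lt_one hp (lt_of_le_of_lt b (by norm_num))
  rw [not_or, not_not] at hω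
  obtain ⟨hω1, hω2, hω3⟩ := hω
  refine ⟨clA ω k s m, clC ω k s m, clD ω k s m, fun j _ => tri_cl hS ω j,
    fun j _ j' _ hjj => PP_cl_disjoint hS ω hjj, fun j hj S hSm w => ?_, hω2, hω3⟩
  have hx : ¬ B (j, S, w) ω := fun h => hω1 ⟨(j, S, w),
    mem_product.2 ⟨mem_range.2 (Nat.lt_succ_of_le hj), mem_product.2 ⟨hSm, mem_univ _⟩⟩, h⟩
  simp only [B, not_or, not_le] at hx
  obtain ⟨⟨x1, x2⟩, x3⟩ := hx
  obtain ⟨q1, q2, q3⟩ := xsel_pnum hη hη1 hr1 hr128 (hσ j hj)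
  have s0 := hS.sig_pos j
  have s1 : 0 ≤ th * sig k s m j := (mul_pos t0 s0).le
  have hc2 : (S.card : ℝ) ≤ n := by simpa using card_le_nV S
  have hn0' : (0 : ℝ) < n := by linarith
  have q4 : η * th * sig k s m j ≤ η * sig k s m j := by
    rw [mul_assoc]
    exact mul_le_mul_of_nonneg_left (mul_le_of_le_one_left s0.le (by linarith)) hη.le
  have q5 : η * th * sig k s m j / 2 + 2 ≤ η * (th * sig k s m j) := by
    rw [← mul_assoc]; exact q2
  refine ⟨(xsel_pfin hη.le s0.le hn0' (h𝒮' S hSm) hc2 (q2.trans q4) x1).1, ?_, ?_⟩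
  · rw [mul_assoc]
    exact (xsel_pfin hη.le s1 hn0' (h𝒮' S hSm) hc2 q5 x2).2
  · rw [mul_assoc]
    exact (xsel_pfin hη.le s1 hn0' (h𝒮' S hSm) hc2 q5 x3).2

end

end Pool.Agent.MP_1376f1_pr
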